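import Pool.Agent.Lib.MP_c52340_c5.Defs


set_option autoImplicit false

open Finset


namespace Pool.Agent.C52.RB13

private theorem b13_1 (p x : ℝ) (z : ℤ) : gf p (x + z) = gf p x := by
  unfold gf
  have h : 2 * Real.pi * (x + z) = 2 * Real.pi * x + z * (2 * Real.pi) := by ring
  rw [h, Real.cos_add_int_mul_two_pi]

private theorem b13_2 (p x : ℝ) : gf p (-x) = gf p x := by
  unfold gf
  rw [mul_neg, Real.cos_neg]

private theorem b13_3 (p x : ℝ) (h0 : 0 ≤ p) (h1 : p ≤ 1 / 2) : |gf p x| ≤ 1 := by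
  unfold gf
  have h2 := Real.cos_le_one (2 * Real.pi * x)
  have h3 := Real.neg_one_le_cos (2 * Real.pi * x)
  rw [abs_le]
  constructor <;> nlinarith

private theorem b13_4 (p x : ℝ) (h0 : 0 ≤ p) (h1 : p ≤ 1 / 4) : 0 ≤ gf p x := by
  unfold gf
  have h3 := Real.neg_one_le_cos (2 * Real.pi * x)
  nlinarith

private theorem b13_6 (p x : ℝ) (n : ℕ) (z : ℤ) : GG p n (x + z) = GG p n x := by
  unfold GG
  refine Finset.prod_congr rfl fun i _ => ?_
  have h : (4 : ℝ) ^ i * (x + z) = 4 ^ i * x + ((4 ^ i * z : ℤ) : ℝ) := by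
    push_cast
    ring
  rw [h, b13_1]

private theorem b13_10 (p x : ℝ) (a b : ℕ) : GG p (a + b) x = GG p a x * GG p b (4 ^ a * x) := by
  unfold GG
  rw [Finset.prod_range_add]
  congr 1
  refine Finset.prod_congr rfl fun i _ => ?_
  congr 1
  rw [pow_add]
  ring

/-- Row B13.  Elementary facts on `gf` and `GG`. -/
theorem B13 :
    (∀ p x : ℝ, ∀ z : ℤ, gf p (x + z) = gf p x) ∧ (∀ p x : ℝ, gf p (-x) = gf p x) ∧
    (∀ p x : ℝ, 0 ≤ p → p ≤ 1 / 2 → |gf p x| ≤ 1) ∧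
    (∀ p x : ℝ, 0 ≤ p → p ≤ 1 / 4 → 0 ≤ gf p x) ∧
    (∀ p x y : ℝ, 0 ≤ p → |gf p x - gf p y| ≤ 4 * Real.pi * p * |x - y|) ∧
    (∀ p x : ℝ, ∀ n : ℕ, ∀ z : ℤ, GG p n (x + z) = GG p n x) ∧
    (∀ p x : ℝ, ∀ n : ℕ, GG p n (-x) = GG p n x) ∧
    (∀ p x : ℝ, ∀ n : ℕ, 0 ≤ p → p ≤ 1 / 2 → |GG p n x| ≤ 1) ∧
    (∀ p x : ℝ, ∀ n : ℕ, 0 ≤ p → p ≤ 1 / 4 → 0 ≤ GG p n x) ∧
    (∀ p x : ℝ, ∀ a b : ℕ, GG p (a + b) x = GG p a x * GG p b (4 ^ a * x)) ∧
    (∀ p x : ℝ, ∀ i n : ℕ, ∀ z : ℤ, i ≤ n → 4 ^ i * x = z → GG p n x = GG p i x) := by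
  refine ⟨b13_1, b13_2, b13_3, b13_4, ?_, b13_6, ?_, ?_, ?_, b13_10, ?_⟩
  · intro p x y hp
    have h1 : gf p x - gf p y = 2 * p * (Real.cos (2 * Real.pi * x) - Real.cos (2 * Real.pi * y)) := by
      unfold gf
      ring
    rw [h1, abs_mul, abs_of_nonneg (by positivity : 0 ≤ 2 * p)]
    have h2 := Real.abs_cos_sub_cos_le (2 * Real.pi * x) (2 * Real.pi * y)
    have h3 : |2 * Real.pi * x - 2 * Real.pi * y| = 2 * Real.pi * |x - y| := by
      rw [← mul_sub, abs_mul, abs_of_nonneg (by positivity : 0 ≤ 2 * Real.pi)]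
    rw [h3] at h2
    calc 2 * p * |Real.cos (2 * Real.pi * x) - Real.cos (2 * Real.pi * y)|
        ≤ 2 * p * (2 * Real.pi * |x - y|) := mul_le_mul_of_nonneg_left h2 (by positivity)
      _ = 4 * Real.pi * p * |x - y| := by ring
  · intro p x n
    unfold GG
    refine Finset.prod_congr rfl fun i _ => ?_
    rw [mul_neg, b13_2]
  · intro p x n h0 h1
    unfold GG
    rw [Finset.abs_prod]
    exact Finset.prod_le_one (fun i _ => abs_nonneg _) fun i _ => b13_3 p _ h0 h1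
  · intro p x n h0 h1
    unfold GG
    exact Finset.prod_nonneg fun i _ => b13_4 p _ h0 h1
  · intro p x i n z hi hz
    obtain ⟨b, rfl⟩ := Nat.exists_eq_add_of_le hi
    rw [b13_10, hz]
    have h1 : GG p b (z : ℝ) = 1 := by
      have h2 := b13_6 p 0 b z
      rw [zero_add] at h2
      rw [h2]
      unfold GG
      refine Finset.prod_eq_one fun j _ => ?_
      unfold gf
      rw [mul_zero, mul_zero, Real.cos_zero]
      ring
    rw [h1, mul_one]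

end Pool.Agent.C52.RB13
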