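import Pool.Agent.Lib.MP_c52340_c5.Defs


set_option autoImplicit false

open Finset


namespace Pool.Agent.C52.RP2

private theorem P2_sum (a b : ℕ) (F : ℕ → ℝ) :
    ∑ c ∈ range (a * b), F c = ∑ j ∈ range b, ∑ c ∈ range a, F (c + a * j) := by
  induction b with
  | zero => simp
  | succ b ih =>
    rw [Nat.mul_succ, Finset.sum_range_add, ih, Finset.sum_range_succ]
    congr 1
    refine Finset.sum_congr rfl fun c _ => ?_
    rw [add_comm]

private theorem P2_per (g : ℝ → ℝ) (hg : ∀ x, g (x + 1) = g x) (k : ℕ) (x : ℝ) :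
    g (x + k) = g x := by
  induction k with
  | zero => simp
  | succ k ih =>
    rw [← ih, ← hg (x + k)]
    congr 1
    push_cast
    ring

/-- Row P2.  Peeling digits in pairs.  Recipe: as P1, with `c = c' + 16 ^ n * j`, `j < 16`. -/
theorem P2 (f : ℕ → ℝ → ℝ) (A : ℕ → ℝ) (hf : ∀ i x, 0 ≤ f i x) (hper : ∀ i x, f i (x + 1) = f i x)
    (hA : ∀ i x, ∑ j ∈ range 16, f (2 * i) ((x + j) / 16) * f (2 * i + 1) ((x + j) / 4) ≤ A i)
    (n : ℕ) :
    ∑ c ∈ range (16 ^ n), ∏ i ∈ range (2 * n), f i (4 ^ i * c / 16 ^ n) ≤ ∏ i ∈ range n, A i := by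
  induction n generalizing f A with
  | zero => simp
  | succ n ih =>
    have hA0 : 0 ≤ A 0 := le_trans (Finset.sum_nonneg fun j _ => mul_nonneg (hf _ _) (hf _ _)) (hA 0 0)
    rw [pow_succ, P2_sum, Finset.sum_comm, Finset.prod_range_succ']
    have ih' := ih (fun i => f (i + 2)) (fun i => A (i + 1)) (fun i => hf (i + 2))
      (fun i => hper (i + 2)) (fun i x => by
        have h := hA (i + 1) x
        have e1 : 2 * (i + 1) = 2 * i + 2 := by ring
        have e2 : 2 * i + 2 + 1 = 2 * i + 1 + 2 := by ring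
        rw [e1, e2] at h
        exact h)
    have hA0' := hA 0
    simp only [Nat.mul_zero, zero_add] at hA0'
    calc ∑ c ∈ range (16 ^ n), ∑ j ∈ range 16, ∏ i ∈ range (2 * (n + 1)),
          f i (4 ^ i * ((c + 16 ^ n * j : ℕ) : ℝ) / (16 ^ n * 16))
        = ∑ c ∈ range (16 ^ n), (∏ i ∈ range (2 * n), f (i + 2) (4 ^ i * c / 16 ^ n)) *
            ∑ j ∈ range 16, f 0 (((c : ℝ) / 16 ^ n + j) / 16) * f 1 (((c : ℝ) / 16 ^ n + j) / 4) := by
          refine Finset.sum_congr rfl fun c _ => ?_
          rw [Finset.mul_sum]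
          refine Finset.sum_congr rfl fun j _ => ?_
          have e1 : 2 * (n + 1) = 2 * n + 1 + 1 := by ring
          rw [e1, Finset.prod_range_succ', Finset.prod_range_succ', mul_assoc]
          congr 1
          · refine Finset.prod_congr rfl fun i _ => ?_
            rw [← P2_per (f (i + 2)) (hper (i + 2)) (4 ^ i * j) (4 ^ i * c / 16 ^ n)]
            congr 1
            push_cast
            field_simp
            ring
          · rw [mul_comm]
            congr 2
            · push_cast
              field_simp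
            · push_cast
              field_simp
              ring
      _ ≤ ∑ c ∈ range (16 ^ n), (∏ i ∈ range (2 * n), f (i + 2) (4 ^ i * c / 16 ^ n)) * A 0 :=
          Finset.sum_le_sum fun c _ => mul_le_mul_of_nonneg_left (hA0' _)
            (Finset.prod_nonneg fun i _ => hf _ _)
      _ = (∑ c ∈ range (16 ^ n), ∏ i ∈ range (2 * n), f (i + 2) (4 ^ i * c / 16 ^ n)) * A 0 := by
          rw [Finset.sum_mul]
      _ ≤ (∏ i ∈ range n, A (i + 1)) * A 0 := mul_le_mul_of_nonneg_right ih' hA0

end Pool.Agent.C52.RP2
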