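import Pool.Agent.Lib.MP_c52340_c5.Defs


set_option autoImplicit false

open Finset


namespace Pool.Agent.C52.RT2

private theorem t2_abs (u : ℝ) : |1 + 2 * u| + |1 - 2 * u| = max 2 (4 * |u|) := by
  rcases le_total 0 u with hu | hu
  · rw [abs_of_nonneg hu, abs_of_nonneg (by linarith : 0 ≤ 1 + 2 * u)]
    rcases le_total (2 * u) 1 with h | h
    · rw [abs_of_nonneg (by linarith), max_eq_left (by linarith)]
      ring
    · rw [abs_of_nonpos (by linarith), max_eq_right (by linarith)]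
      ring
  · rw [abs_of_nonpos hu, abs_of_nonneg (by linarith : 0 ≤ 1 - 2 * u)]
    rcases le_total (-2 * u) 1 with h | h
    · rw [abs_of_nonneg (by linarith), max_eq_left (by linarith)]
      ring
    · rw [abs_of_nonpos (by linarith), max_eq_right (by linarith)]
      ring

private theorem t2_sum (x : ℝ) : ∑ j ∈ range 4, |gf (1 / 3) ((x + j) / 4)| =
    (max 2 (4 * |Real.cos (Real.pi * x / 2)|) + max 2 (4 * |Real.sin (Real.pi * x / 2)|)) / 3 := by
  have h0 : gf (1 / 3) ((x + (0 : ℕ)) / 4) = (1 + 2 * Real.cos (Real.pi * x / 2)) / 3 := by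
    unfold gf
    have e : 2 * Real.pi * ((x + (0 : ℕ)) / 4) = Real.pi * x / 2 := by push_cast; ring
    rw [e]
    ring
  have h1 : gf (1 / 3) ((x + (1 : ℕ)) / 4) = (1 - 2 * Real.sin (Real.pi * x / 2)) / 3 := by
    unfold gf
    have e : 2 * Real.pi * ((x + (1 : ℕ)) / 4) = Real.pi * x / 2 + Real.pi / 2 := by push_cast; ring
    rw [e, Real.cos_add_pi_div_two]
    ring
  have h2 : gf (1 / 3) ((x + (2 : ℕ)) / 4) = (1 - 2 * Real.cos (Real.pi * x / 2)) / 3 := by
    unfold gf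
    have e : 2 * Real.pi * ((x + (2 : ℕ)) / 4) = Real.pi * x / 2 + Real.pi := by push_cast; ring
    rw [e, Real.cos_add_pi]
    ring
  have h3 : gf (1 / 3) ((x + (3 : ℕ)) / 4) = (1 + 2 * Real.sin (Real.pi * x / 2)) / 3 := by
    unfold gf
    have e : 2 * Real.pi * ((x + (3 : ℕ)) / 4) = Real.pi * x / 2 + Real.pi / 2 + Real.pi := by push_cast; ring
    rw [e, Real.cos_add_pi, Real.cos_add_pi_div_two]
    ring
  rw [Finset.sum_range_succ, Finset.sum_range_succ, Finset.sum_range_succ, Finset.sum_range_one, h0, h1, h2, h3,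
    ← t2_abs, ← t2_abs]
  simp only [abs_div, abs_of_pos (by norm_num : (0 : ℝ) < 3)]
  ring

private theorem t2_bound {c s a : ℝ} (hcs : c ^ 2 + s ^ 2 = 1) (ha : 0.98 ≤ a) (hc : |c| ≤ a) (hs : |s| ≤ a) :
    (max 2 (4 * |c|) + max 2 (4 * |s|)) / 3 ≤ (2 + 4 * a) / 3 := by
  have hc2 : |c| ^ 2 = c ^ 2 := sq_abs c
  have hs2 : |s| ^ 2 = s ^ 2 := sq_abs s
  have hc0 := abs_nonneg c
  have hs0 := abs_nonneg s
  have hsum : |c| + |s| ≤ 1.4143 := by
    have h : (|c| + |s|) ^ 2 ≤ 1.4143 ^ 2 := by nlinarith [sq_nonneg (|c| - |s|)]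
    exact le_of_sq_le_sq h (by norm_num)
  have h1 : max 2 (4 * |c|) + max 2 (4 * |s|) ≤ 2 + 4 * a := by
    rcases max_cases 2 (4 * |c|) with ⟨e1, _⟩ | ⟨e1, _⟩ <;>
    rcases max_cases 2 (4 * |s|) with ⟨e2, _⟩ | ⟨e2, _⟩ <;> rw [e1, e2] <;> linarith
  linarith

private theorem t2_cos (x : ℝ) (hx : ∀ n : ℤ, 1 / 8 ≤ |x - n|) :
    |Real.cos (Real.pi * x)| ≤ 0.92389 := by
  set y : ℝ := x - round x with hy
  have h1 : |y| ≤ 1 / 2 := abs_sub_round x
  have h2 : 1 / 8 ≤ |y| := hx (round x)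
  have h3 : |Real.cos (Real.pi * x)| = Real.cos (Real.pi * |y|) := by
    have e : Real.pi * x = Real.pi * y + round x * Real.pi := by rw [hy]; ring
    rw [e, Real.cos_add_int_mul_pi, abs_mul, abs_neg_one_zpow, one_mul]
    have e2 : Real.cos (Real.pi * |y|) = Real.cos (Real.pi * y) := by
      rcases abs_cases y with ⟨e3, _⟩ | ⟨e3, _⟩ <;> rw [e3]
      rw [mul_neg, Real.cos_neg]
    rw [← e2, abs_of_nonneg]
    refine Real.cos_nonneg_of_neg_pi_div_two_le_of_le ?_ ?_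
    · have := Real.pi_pos
      have : 0 ≤ Real.pi * |y| := by positivity
      linarith
    · have := Real.pi_pos
      nlinarith
  rw [h3]
  have h4 : Real.cos (Real.pi * |y|) ≤ Real.cos (Real.pi / 8) := by
    have hpi := Real.pi_pos
    refine Real.cos_le_cos_of_nonneg_of_le_pi (by positivity) ?_ ?_ <;> nlinarith
  refine h4.trans ?_
  rw [Real.cos_pi_div_eight]
  have h5 : Real.sqrt 2 ≤ 1.41422 := by
    rw [Real.sqrt_le_left (by norm_num)]
    norm_num
  have h6 : Real.sqrt (2 + Real.sqrt 2) ≤ 1.84778 := by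
    rw [Real.sqrt_le_left (by norm_num)]
    norm_num
    linarith
  linarith

/-- Row T2.  First part: the sum over four preimages of `|d|` is at most `2`; second part: at most
`1.9744` if `x` is at distance at least `1/8` from the integers.
Recipe: the sum `S(x)` is 1-periodic and even, so `0 ≤ x ≤ 1/2` (resp. `1/8 ≤ x ≤ 1/2`).  With
`u = cos (π x / 2)`, `v = sin (π x / 2)` the four values of `3 d` are `1 + 2u, 1 - 2v, 1 - 2u, 1 + 2v`,
`u ≥ cos(π/4) > 1/2`, `v ≥ 0`.  If `v ≤ 1/2`: `3 S = 2 + 4 u ≤ 6`, and `≤ 2 + 4 cos (π/16)` for `x ≥ 1/8`;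
if `v ≥ 1/2`: `3 S = 4 u + 4 v ≤ 4 √2`.  (`cos (π/16) ≤ 0.98079`: use `Real.cos_le_one_sub_mul_cos_sq`,
`Real.cos_pi_div_sixteen`, or a Taylor bound.)  `2 + 4 * 0.98079 = 5.92316 ≤ 3 * 1.9744 = 5.9232`. -/
theorem T2 (x : ℝ) :
    ∑ j ∈ range 4, |gf (1 / 3) ((x + j) / 4)| ≤ 2 ∧
    ((∀ n : ℤ, 1 / 8 ≤ |x - n|) → ∑ j ∈ range 4, |gf (1 / 3) ((x + j) / 4)| ≤ 1.9744) := by
  have hcs : Real.cos (Real.pi * x / 2) ^ 2 + Real.sin (Real.pi * x / 2) ^ 2 = 1 := by
    rw [add_comm]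
    exact Real.sin_sq_add_cos_sq _
  rw [t2_sum]
  refine ⟨?_, fun hx => ?_⟩
  · refine (t2_bound hcs (a := 1) (by norm_num) (Real.abs_cos_le_one _) (Real.abs_sin_le_one _)).trans ?_
    norm_num
  · have h1 := abs_le.1 (t2_cos x hx)
    have e : Real.cos (Real.pi * x) = 2 * Real.cos (Real.pi * x / 2) ^ 2 - 1 := by
      rw [← Real.cos_two_mul]
      congr 1
      ring
    rw [e] at h1
    have hc : |Real.cos (Real.pi * x / 2)| ≤ 0.9808 := by
      refine abs_le_of_sq_le_sq ?_ (by norm_num)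
      nlinarith [h1.2]
    have hs : |Real.sin (Real.pi * x / 2)| ≤ 0.9808 := by
      refine abs_le_of_sq_le_sq ?_ (by norm_num)
      nlinarith [h1.1]
    refine (t2_bound hcs (a := 0.9808) (by norm_num) hc hs).trans ?_
    norm_num

end Pool.Agent.C52.RT2
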