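import Pool.Agent.Lib.MP_c52340_c5.Defs
import Pool.Agent.Lib.MP_c52340_c5.B13
import Pool.Agent.Lib.MP_c52340_c5.T2


set_option autoImplicit false

open Finset

open Pool.Agent.C52.RB13 (B13)
open Pool.Agent.C52.RT2 (T2)

namespace Pool.Agent.C52.RT3

private theorem t3_split (D E : ℕ → ℝ) (hE : ∀ j, E (j + 4) = E j) :
    ∑ j ∈ range 16, D j * E j =
      ∑ l ∈ range 4, E l * ∑ i ∈ range 4, D (l + 4 * i) := by
  have h4 := hE 0
  have h5 := hE 1
  have h6 := hE 2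
  have h7 := hE 3
  have h8 := hE 4
  have h9 := hE 5
  have h10 := hE 6
  have h11 := hE 7
  have h12 := hE 8
  have h13 := hE 9
  have h14 := hE 10
  have h15 := hE 11
  norm_num at h4 h5 h6 h7 h8 h9 h10 h11 h12 h13 h14 h15
  rw [h4] at h8
  rw [h8] at h12
  rw [h5] at h9
  rw [h9] at h13
  rw [h6] at h10
  rw [h10] at h14
  rw [h7] at h11
  rw [h11] at h15
  simp only [Finset.sum_range_succ, Finset.sum_range_zero]
  norm_num
  rw [h4, h5, h6, h7, h8, h9, h10, h11, h12, h13, h14, h15]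
  ring

/-- at most one of the four points is close to the integers -/
private theorem t3_near (x : ℝ) (E : ℕ → ℝ) (S : ℕ → ℝ) (hE0 : ∀ l, 0 ≤ E l) (hE1 : ∀ l, E l ≤ 1)
    (hS : ∀ l, S l ≤ 2)
    (hS' : ∀ l : ℕ, (∀ n : ℤ, 1 / 8 ≤ |(x + l) / 4 - n|) → S l ≤ 1.9744) :
    ∑ l ∈ range 4, E l * S l ≤ 1.9744 * ∑ l ∈ range 4, E l + 0.0256 := by
  classical
  set B : Finset ℕ := (range 4).filter (fun l => ¬ ∀ n : ℤ, 1 / 8 ≤ |(x + (l : ℝ)) / 4 - n|)
    with hB
  have hcard : B.card ≤ 1 := by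
    rw [Finset.card_le_one]
    intro a ha b hb
    rw [hB, Finset.mem_filter, Finset.mem_range] at ha hb
    obtain ⟨ha4, ha⟩ := ha
    obtain ⟨hb4, hb⟩ := hb
    push Not at ha hb
    obtain ⟨n, hn⟩ := ha
    obtain ⟨m, hm⟩ := hb
    rw [abs_lt] at hn hm
    have h1 : ((a : ℤ) - b - 4 * (n - m) : ℤ) < 1 := by
      have : ((a : ℝ) - b - 4 * (n - m)) < 1 := by linarith [hn.2, hm.1]
      exact_mod_cast this
    have h2 : (-1 : ℤ) < ((a : ℤ) - b - 4 * (n - m) : ℤ) := by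
      have : (-1 : ℝ) < ((a : ℝ) - b - 4 * (n - m)) := by linarith [hn.1, hm.2]
      exact_mod_cast this
    omega
  have h1 : ∀ l ∈ range 4, E l * S l ≤ 1.9744 * E l + (if l ∈ B then 0.0256 else 0) := by
    intro l hl
    by_cases hlB : l ∈ B
    · rw [if_pos hlB]
      nlinarith [hE0 l, hE1 l, hS l]
    · rw [if_neg hlB]
      have : ∀ n : ℤ, 1 / 8 ≤ |(x + (l : ℝ)) / 4 - n| := by
        by_contra hno
        exact hlB (Finset.mem_filter.2 ⟨hl, hno⟩)
      nlinarith [hE0 l, hS' l this]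
  have h2 : ∑ l ∈ range 4, (if l ∈ B then (0.0256 : ℝ) else 0) ≤ 0.0256 := by
    rw [← Finset.sum_filter, Finset.sum_const, nsmul_eq_mul]
    have h3 : ((range 4).filter (fun l => l ∈ B)).card ≤ 1 := by
      refine le_trans (Finset.card_le_card ?_) hcard
      intro l hl
      exact (Finset.mem_filter.1 hl).2
    have h4 : (((range 4).filter (fun l => l ∈ B)).card : ℝ) ≤ 1 := by exact_mod_cast h3
    nlinarith
  calc ∑ l ∈ range 4, E l * S l
      ≤ ∑ l ∈ range 4, (1.9744 * E l + (if l ∈ B then 0.0256 else 0)) := Finset.sum_le_sum h1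
    _ = 1.9744 * ∑ l ∈ range 4, E l + ∑ l ∈ range 4, (if l ∈ B then (0.0256 : ℝ) else 0) := by
        rw [Finset.sum_add_distrib, Finset.mul_sum]
    _ ≤ _ := by linarith

/-- Row T3.  Two digits at once: the constant `4 q ^ 2 < 4`.
Recipe: write `j = 4 i + l`... more precisely the sixteen points `φ = (x + j)/16` are grouped by
`y = 4 φ` mod 1 (`y` runs over `(x + l)/4`, and for given `y` the `φ` are `(y + i)/4`), so the sum is
`∑_{l<4} |d(y_l)| S(y_l)` with `S` from T2.  At most one `y_l = (x+l)/4` is within `1/8` of the integers;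
it contributes at most `2 |d|`, the others `1.9744 |d|`; so the sum is at most
`1.9744 * S(x) + (2 - 1.9744) * 1 ≤ 3.9744 + 0.0256 - ... `: precisely `1.9744 * 2 + 0.0256 = 3.9744`,
and `4 q ^ 2 = 3.97523...`. -/
theorem T3 (x : ℝ) :
    ∑ j ∈ range 16, |gf (1 / 3) ((x + j) / 16)| * |gf (1 / 3) ((x + j) / 4)| ≤ 4 * qq ^ 2 := by
  have hper : ∀ j : ℕ, |gf (1 / 3) ((x + ((j + 4 : ℕ) : ℝ)) / 4)| =
      |gf (1 / 3) ((x + (j : ℝ)) / 4)| := by
    intro j
    have h := B13.1 (1 / 3) ((x + (j : ℝ)) / 4) 1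
    rw [← h]
    congr 2
    push_cast
    ring
  have h1 := t3_split (fun j => |gf (1 / 3) ((x + (j : ℝ)) / 16)|)
    (fun j => |gf (1 / 3) ((x + (j : ℝ)) / 4)|) hper
  rw [h1]
  have h2 : ∀ l : ℕ, ∑ i ∈ range 4, |gf (1 / 3) ((x + ((l + 4 * i : ℕ) : ℝ)) / 16)| =
      ∑ j ∈ range 4, |gf (1 / 3) (((x + (l : ℝ)) / 4 + j) / 4)| := by
    intro l
    refine Finset.sum_congr rfl fun i _ => ?_
    congr 2
    push_cast
    ring
  have h3 := t3_near x (fun j => |gf (1 / 3) ((x + (j : ℝ)) / 4)|)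
    (fun l => ∑ i ∈ range 4, |gf (1 / 3) ((x + ((l + 4 * i : ℕ) : ℝ)) / 16)|)
    (fun l => abs_nonneg _) (fun l => B13.2.2.1 _ _ (by norm_num) (by norm_num))
    (fun l => by
      have := (T2 ((x + (l : ℝ)) / 4)).1
      simpa only [h2] using this)
    (fun l hl => by
      have := (T2 ((x + (l : ℝ)) / 4)).2 hl
      simpa only [h2] using this)
  refine h3.trans ?_
  have h4 := (T2 x).1
  have h5 : (4 : ℝ) * qq ^ 2 = 4 * (9969 / 10000) ^ 2 := by rw [qq]
  rw [h5]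
  norm_num at h4 ⊢
  linarith

end Pool.Agent.C52.RT3
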