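import Pool.Agent.Lib.MP_c52340_c5.Defs
import Pool.Agent.Lib.MP_c52340_c5.B13
import Pool.Agent.Lib.MP_c52340_c5.T3
import Pool.Agent.Lib.MP_c52340_c5.P2


set_option autoImplicit false

open Finset

open Pool.Agent.C52.RB13 (B13)
open Pool.Agent.C52.RT3 (T3)
open Pool.Agent.C52.RP2 (P2)

namespace Pool.Agent.C52.RP3

private noncomputable def p3S (n : ℕ) : ℝ :=
  ∑ c ∈ range (4 ^ n), ∏ i ∈ range n, (|gf (1 / 3) (4 ^ i * c / 4 ^ n)| + 5 * 4 ^ i / 4 ^ n)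

private theorem p3_geom (l : ℕ) : ∑ i ∈ range l, (16 : ℝ) ^ i ≤ 16 ^ l := by
  induction l with
  | zero => simp
  | succ l ih =>
    rw [sum_range_succ, pow_succ]
    have : (0 : ℝ) < 16 ^ l := by positivity
    linarith

private theorem p3_gf (x : ℝ) : |gf (1 / 3) x| ≤ 1 :=
  B13.2.2.1 (1 / 3) x (by norm_num) (by norm_num)

private theorem p3_even (l : ℕ) : p3S (2 * l) ≤ Real.exp 126 * (2 * qq) ^ (2 * l) := by
  have h16 : (4 : ℝ) ^ (2 * l) = 16 ^ l := by rw [pow_mul]; norm_num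
  have h16n : (4 : ℕ) ^ (2 * l) = 16 ^ l := by rw [pow_mul]; norm_num
  obtain ⟨e, he⟩ : ∃ e : ℕ → ℝ, e = fun i => 5 * 4 ^ i / 16 ^ l := ⟨_, rfl⟩
  have he0 : ∀ i, 0 ≤ e i := fun i => by rw [he]; positivity
  have hP2 := P2 (fun i x => |gf (1 / 3) x| + e i)
    (fun i => 4 * qq ^ 2 + 16 * e (2 * i) + 16 * e (2 * i + 1) + 16 * (e (2 * i) * e (2 * i + 1)))
    (fun i x => add_nonneg (abs_nonneg _) (he0 i))
    (fun i x => by
      have := B13.1 (1 / 3) x 1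
      rw [Int.cast_one] at this
      rw [this])
    (fun i x => by
      have h3 := T3 x
      have h4 : ∀ j ∈ range 16, (|gf (1 / 3) ((x + (j : ℕ)) / 16)| + e (2 * i)) *
          (|gf (1 / 3) ((x + (j : ℕ)) / 4)| + e (2 * i + 1)) ≤
          |gf (1 / 3) ((x + (j : ℕ)) / 16)| * |gf (1 / 3) ((x + (j : ℕ)) / 4)| +
            (e (2 * i) + e (2 * i + 1) + e (2 * i) * e (2 * i + 1)) := by
        intro j _
        have h5 := p3_gf ((x + (j : ℕ)) / 16)
        have h6 := p3_gf ((x + (j : ℕ)) / 4)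
        have h7 := he0 (2 * i)
        have h8 := he0 (2 * i + 1)
        nlinarith [mul_le_mul_of_nonneg_left h6 h7, mul_le_mul_of_nonneg_left h5 h8]
      refine (sum_le_sum h4).trans ?_
      rw [sum_add_distrib, sum_const, card_range, nsmul_eq_mul]
      push_cast
      linarith) l
  have hS : p3S (2 * l) = ∑ c ∈ range (16 ^ l), ∏ i ∈ range (2 * l),
      (|gf (1 / 3) (4 ^ i * c / 16 ^ l)| + e i) := by
    unfold p3S
    rw [h16n, h16, he]
  rw [hS]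
  refine hP2.trans ?_
  have hq : (3.975 : ℝ) ≤ 4 * qq ^ 2 := by unfold qq; norm_num
  have hstep : ∀ i ∈ range l, 4 * qq ^ 2 + 16 * e (2 * i) + 16 * e (2 * i + 1) +
      16 * (e (2 * i) * e (2 * i + 1)) ≤ 4 * qq ^ 2 * Real.exp (126 * (16 ^ i / 16 ^ l)) := by
    intro i hi
    rw [mem_range] at hi
    obtain ⟨t, ht⟩ : ∃ t : ℝ, t = 16 ^ i / 16 ^ l := ⟨_, rfl⟩
    have ht0 : 0 ≤ t := by rw [ht]; positivity
    have ht1 : t ≤ 1 / 16 := by
      rw [ht, div_le_div_iff₀ (by positivity) (by norm_num), one_mul, ← pow_succ]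
      exact pow_le_pow_right₀ (by norm_num) hi
    have h1 : e (2 * i) = 5 * t := by
      rw [he, ht]
      simp only
      rw [pow_mul]
      norm_num
      ring
    have h2 : e (2 * i + 1) = 20 * t := by
      rw [he, ht]
      simp only
      rw [pow_succ, pow_mul]
      norm_num
      ring
    rw [h1, h2, ← ht]
    have h3 := Real.add_one_le_exp (126 * t)
    nlinarith [mul_le_mul_of_nonneg_left h3 (by linarith : (0 : ℝ) ≤ 4 * qq ^ 2),
      mul_le_mul_of_nonneg_left ht1 ht0, mul_le_mul_of_nonneg_right hq ht0]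
  have hnn : ∀ i ∈ range l, 0 ≤ 4 * qq ^ 2 + 16 * e (2 * i) + 16 * e (2 * i + 1) +
      16 * (e (2 * i) * e (2 * i + 1)) := by
    intro i _
    have h7 := he0 (2 * i)
    have h8 := he0 (2 * i + 1)
    have h9 := mul_nonneg h7 h8
    linarith
  refine (prod_le_prod hnn hstep).trans ?_
  rw [prod_mul_distrib, prod_const, card_range, ← Real.exp_sum, ← mul_sum, ← sum_div]
  have h10 : (∑ i ∈ range l, (16 : ℝ) ^ i) / 16 ^ l ≤ 1 := by
    rw [div_le_one (by positivity)]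
    exact p3_geom l
  have h11 : Real.exp (126 * ((∑ i ∈ range l, (16 : ℝ) ^ i) / 16 ^ l)) ≤ Real.exp 126 :=
    Real.exp_le_exp.2 (by linarith)
  have h12 : (4 * qq ^ 2) ^ l = (2 * qq) ^ (2 * l) := by
    rw [pow_mul]
    congr 1
    ring
  rw [h12, mul_comm]
  refine mul_le_mul_of_nonneg_right h11 ?_
  rw [pow_mul]
  positivity

private theorem p3_succ (n : ℕ) : p3S (n + 1) ≤ 24 * p3S n := by
  obtain ⟨F, hF⟩ : ∃ F : ℕ → ℝ, F = fun c : ℕ =>
    ∏ i ∈ range n, (|gf (1 / 3) (4 ^ i * c / 4 ^ n)| + 5 * 4 ^ i / 4 ^ n) := ⟨_, rfl⟩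
  have hF0 : ∀ c, 0 ≤ F c := fun c => by
    rw [hF]
    exact prod_nonneg fun i _ => by positivity
  have hper : ∀ c, F (4 ^ n + c) = F c := by
    intro c
    rw [hF]
    refine prod_congr rfl fun i _ => ?_
    have h1 : (4 : ℝ) ^ i * ((4 ^ n + c : ℕ) : ℝ) / 4 ^ n = 4 ^ i * c / 4 ^ n + ((4 ^ i : ℤ) : ℝ) := by
      push_cast
      field_simp
      ring
    rw [h1, B13.1]
  have h1 : ∀ c ∈ range (4 ^ (n + 1)), ∏ i ∈ range (n + 1),
      (|gf (1 / 3) (4 ^ i * c / 4 ^ (n + 1))| + 5 * 4 ^ i / 4 ^ (n + 1)) ≤ F c * 6 := by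
    intro c _
    rw [prod_range_succ']
    have h2 : ∏ i ∈ range n, (|gf (1 / 3) (4 ^ (i + 1) * c / 4 ^ (n + 1))| +
        5 * 4 ^ (i + 1) / 4 ^ (n + 1)) = F c := by
      rw [hF]
      refine prod_congr rfl fun i _ => ?_
      have h3 : (4 : ℝ) ^ (i + 1) * c / 4 ^ (n + 1) = 4 ^ i * c / 4 ^ n := by
        rw [pow_succ, pow_succ]
        field_simp
      have h4 : (5 : ℝ) * 4 ^ (i + 1) / 4 ^ (n + 1) = 5 * 4 ^ i / 4 ^ n := by
        rw [pow_succ, pow_succ]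
        field_simp
      rw [h3, h4]
    rw [h2]
    refine mul_le_mul_of_nonneg_left ?_ (hF0 c)
    have h5 := p3_gf (4 ^ 0 * c / 4 ^ (n + 1))
    have h6 : (5 : ℝ) * 4 ^ 0 / 4 ^ (n + 1) ≤ 5 := by
      rw [pow_zero, mul_one]
      exact div_le_self (by norm_num) (one_le_pow₀ (by norm_num))
    linarith
  unfold p3S
  refine (sum_le_sum h1).trans ?_
  rw [← sum_mul]
  have h7 : ∑ c ∈ range (4 ^ (n + 1)), F c = 4 * ∑ c ∈ range (4 ^ n), F c := by
    have h8 : 4 ^ (n + 1) = 4 ^ n + (4 ^ n + (4 ^ n + 4 ^ n)) := by rw [pow_succ]; ring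
    rw [h8, sum_range_add]
    simp only [hper]
    rw [sum_range_add]
    simp only [hper]
    rw [sum_range_add]
    simp only [hper]
    ring
  rw [h7, hF]
  apply le_of_eq
  ring

/-- Row P3.  The `ℓ¹` sum of `|DD|`, with room for perturbations.
Recipe: for even `n = 2 l` use P2 with `f i x = |d x| + 5 * 4^i/4^n` (fixed `n`; extend by anything for
`i ≥ n`): by T3 the pair sum is at most `4 q² + 16 ε' + 16 ε + 16 ε ε'`, `ε = 5 * 4^{2i-n}`,
`ε' = 5 * 4^{2i+1-n}`; the product over `i < l` is at most `(4 q²)^l ∏ (1 + C 16^{i-l}) ≤ C' (4 q²)^l`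
(`∏ (1 + a_i) ≤ exp (∑ a_i)`).  For odd `n` peel one digit first (bound `2 + 20 * 4^{-n} ≤ 22`). -/
theorem P3 : ∃ C : ℝ, 0 < C ∧ ∀ n : ℕ,
    ∑ c ∈ range (4 ^ n), ∏ i ∈ range n, (|gf (1 / 3) (4 ^ i * c / 4 ^ n)| + 5 * 4 ^ i / 4 ^ n) ≤
      C * (2 * qq) ^ n := by
  refine ⟨24 * Real.exp 126, by positivity, fun n => ?_⟩
  change p3S n ≤ _
  have hq : (1 : ℝ) ≤ 2 * qq := by unfold qq; norm_num
  have hE : 0 < Real.exp 126 := Real.exp_pos _
  rcases Nat.even_or_odd' n with ⟨l, rfl | rfl⟩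
  · refine (p3_even l).trans ?_
    have h1 : (0 : ℝ) ≤ (2 * qq) ^ (2 * l) := by positivity
    nlinarith [mul_nonneg hE.le h1]
  · refine (p3_succ (2 * l)).trans ?_
    have h1 : (0 : ℝ) ≤ (2 * qq) ^ (2 * l) := by positivity
    have h2 := p3_even l
    rw [pow_succ]
    have h3 : (2 * qq) ^ (2 * l) ≤ (2 * qq) ^ (2 * l) * (2 * qq) := by nlinarith
    nlinarith [mul_le_mul_of_nonneg_left h3 hE.le]

end Pool.Agent.C52.RP3
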