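import Pool.Agent.Lib.MP_c52340_c5.Defs
import Pool.Agent.Lib.MP_c52340_c5.B13
import Pool.Agent.Lib.MP_c52340_c5.P3


set_option autoImplicit false

open Finset

open Pool.Agent.C52.RB13 (B13)
open Pool.Agent.C52.RP3 (P3)

namespace Pool.Agent.C52.RA1

private theorem count_res (i N : ℕ) (c v : ℤ) (hi : i ≤ N) (hc : ¬ (4 : ℤ) ∣ c) :
    ((Odds N).filter (fun k => (k * c) % 4 ^ i = v)).card ≤ 2 * 4 ^ (N - i) := by
  have h4z : (0 : ℤ) < 4 ^ i := by positivity
  have key : ∀ k l : ℤ, (k * c) % 4 ^ i = v → (l * c) % 4 ^ i = v → (4 : ℤ) ^ i ∣ 2 * k - 2 * l := by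
    intro k l hk hl
    have h1 : (4 : ℤ) ^ i ∣ k * c - l * c := by
      exact Int.dvd_of_emod_eq_zero (Int.emod_eq_emod_iff_emod_sub_eq_zero.mp (by rw [hk, hl]))
    rcases Int.even_or_odd c with ⟨c', hc'⟩ | hodd
    · -- c = 2 c', c' odd
      have hc'odd : Odd c' := by
        rcases Int.even_or_odd c' with ⟨d, hd⟩ | h
        · exfalso; apply hc; exact ⟨d, by rw [hc', hd]; ring⟩
        · exact h
      have h2 : (4 : ℤ) ^ i ∣ (2 * k - 2 * l) * c' := by
        have e : k * c - l * c = (2 * k - 2 * l) * c' := by rw [hc']; ring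
        rwa [e] at h1
      refine IsCoprime.dvd_of_dvd_mul_right ?_ h2
      apply IsCoprime.pow_left
      have h22 : (4 : ℤ) = 2 ^ 2 := by norm_num
      rw [h22]
      apply IsCoprime.pow_left
      exact (Int.isCoprime_iff_gcd_eq_one.mpr (by
        obtain ⟨e, he⟩ := hc'odd
        have : Int.gcd 2 c' = Nat.gcd 2 c'.natAbs := rfl
        rw [this]
        have h3 : c'.natAbs % 2 = 1 := by omega
        rw [Nat.gcd_rec, h3]
        norm_num))
    · have h2 : (4 : ℤ) ^ i ∣ (k - l) * c := by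
        have e : k * c - l * c = (k - l) * c := by ring
        rwa [e] at h1
      have h3 : (4 : ℤ) ^ i ∣ k - l := by
        refine IsCoprime.dvd_of_dvd_mul_right ?_ h2
        apply IsCoprime.pow_left
        have h22 : (4 : ℤ) = 2 ^ 2 := by norm_num
        rw [h22]
        apply IsCoprime.pow_left
        exact (Int.isCoprime_iff_gcd_eq_one.mpr (by
          obtain ⟨e, he⟩ := hodd
          have : Int.gcd 2 c = Nat.gcd 2 c.natAbs := rfl
          rw [this]
          have h3 : c.natAbs % 2 = 1 := by omega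
          rw [Nat.gcd_rec, h3]
          norm_num))
      have e : 2 * k - 2 * l = 2 * (k - l) := by ring
      rw [e]
      exact Dvd.dvd.mul_left h3 2
  have hinj : Set.InjOn (fun k : ℤ => (2 * k) / 4 ^ i)
      (((Odds N).filter (fun k => (k * c) % 4 ^ i = v) : Finset ℤ) : Set ℤ) := by
    intro k hk l hl hkl
    rw [Finset.mem_coe, Finset.mem_filter] at hk hl
    have hkl' : (2 * k) / 4 ^ i = (2 * l) / 4 ^ i := hkl
    have h5 := key k l hk.2 hl.2
    have h6 : (2 * k) % 4 ^ i = (2 * l) % 4 ^ i :=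
      Int.emod_eq_emod_iff_emod_sub_eq_zero.mpr (Int.emod_eq_zero_of_dvd h5)
    have h7 := Int.emod_add_mul_ediv (2 * k) (4 ^ i)
    have h8 := Int.emod_add_mul_ediv (2 * l) (4 ^ i)
    rw [h6, hkl'] at h7
    linarith
  rw [← Finset.card_image_of_injOn hinj]
  have hsub : ((Odds N).filter (fun k => (k * c) % 4 ^ i = v)).image
      (fun k : ℤ => (2 * k) / 4 ^ i) ⊆ Finset.Ico (0 : ℤ) (2 * 4 ^ (N - i)) := by
    intro j hj
    rw [Finset.mem_image] at hj
    obtain ⟨k, hk, rfl⟩ := hj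
    rw [Finset.mem_filter, Odds, Finset.mem_filter, Finset.mem_Ico] at hk
    rw [Finset.mem_Ico]
    refine ⟨Int.ediv_nonneg (by linarith [hk.1.1.1]) h4z.le, ?_⟩
    rw [Int.ediv_lt_iff_lt_mul h4z]
    have e : (2 : ℤ) * 4 ^ (N - i) * 4 ^ i = 2 * 4 ^ N := by
      rw [mul_assoc, ← pow_add, Nat.sub_add_cancel hi]
    rw [e]
    linarith [hk.1.1.2]
  refine le_trans (Finset.card_le_card hsub) ?_
  rw [Int.card_Ico]
  have : (2 * 4 ^ (N - i) - 0 : ℤ).toNat = 2 * 4 ^ (N - i) := by
    rw [sub_zero]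
    zify
    rw [Int.toNat_of_nonneg (by positivity)]
  rw [this]

/-- Row A1.  Average over `k`, 2-adic frequencies.
Recipe: reduce `DD N` to `DD i` (B13, last item).  `c = c₁` or `2 c₁` modulo `4` with `c₁` odd: as `k` runs over
the odd residues modulo `4^N`, `k c` modulo `4^i` takes each value at most `2 * 4^{N-i}` times (if `c` is odd the
map is injective modulo `4^i`, if `c = 2 c₁` it is injective modulo `4^i / 2`), so the sum is at most
`2 * 4^{N-i} ∑_{v < 4^i} |DD i (v/4^i)|`, and P3. -/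
theorem A1 : ∃ C : ℝ, 0 < C ∧ ∀ (i N : ℕ) (c : ℤ), i ≤ N → ¬ (4 : ℤ) ∣ c →
    ∑ k ∈ Odds N, |GG (1 / 3) N ((k : ℝ) * c / 4 ^ i)| ≤ C * 4 ^ N * (qq / 2) ^ i := by
  obtain ⟨C, hC, hP⟩ := P3
  refine ⟨2 * C, by positivity, ?_⟩
  intro i N c hi hc
  obtain ⟨_, _, _, _, _, hper, _, _, _, _, hlast⟩ := B13
  have h4 : (0 : ℝ) < 4 ^ i := by positivity
  have h4z : (0 : ℤ) < 4 ^ i := by positivity
  have hval : ∀ k : ℤ, GG (1 / 3) N ((k : ℝ) * c / 4 ^ i) =
      GG (1 / 3) i ((((k * c) % 4 ^ i).toNat : ℕ) / 4 ^ i) := by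
    intro k
    rw [hlast (1 / 3) ((k : ℝ) * c / 4 ^ i) i N (k * c) hi (by push_cast; field_simp)]
    have h6 := Int.emod_nonneg (k * c) h4z.ne'
    have e1 : ((((k * c) % 4 ^ i).toNat : ℕ) : ℝ) = (((k * c) % 4 ^ i : ℤ) : ℝ) := by
      exact_mod_cast Int.toNat_of_nonneg h6
    have e2 : (k : ℝ) * c / 4 ^ i = ((((k * c) % 4 ^ i).toNat : ℕ) : ℝ) / 4 ^ i +
        (((k * c) / 4 ^ i : ℤ) : ℝ) := by
      rw [e1]
      have e3 : (k : ℝ) * c = (((k * c) % 4 ^ i : ℤ) : ℝ) + 4 ^ i * (((k * c) / 4 ^ i : ℤ) : ℝ) := by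
        have := Int.emod_add_mul_ediv (k * c) (4 ^ i)
        exact_mod_cast this.symm
      rw [e3]
      field_simp
    rw [e2, hper]
  calc ∑ k ∈ Odds N, |GG (1 / 3) N ((k : ℝ) * c / 4 ^ i)|
      = ∑ k ∈ Odds N, |GG (1 / 3) i ((((k * c) % 4 ^ i).toNat : ℕ) / 4 ^ i)| := by
        apply Finset.sum_congr rfl
        intro k _
        rw [hval]
    _ = ∑ v ∈ range (4 ^ i), ∑ k ∈ (Odds N).filter (fun k => ((k * c) % 4 ^ i).toNat = v),
          |GG (1 / 3) i ((((k * c) % 4 ^ i).toNat : ℕ) / 4 ^ i)| := by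
        rw [Finset.sum_fiberwise_of_maps_to]
        intro k _
        rw [Finset.mem_range]
        have h5 := Int.emod_lt_of_pos (k * c) h4z
        have h6 := Int.emod_nonneg (k * c) h4z.ne'
        zify
        rw [Int.toNat_of_nonneg h6]
        exact h5
    _ ≤ ∑ v ∈ range (4 ^ i), (2 * 4 ^ (N - i)) * ∏ l ∈ range i,
          (|gf (1 / 3) (4 ^ l * (v : ℝ) / 4 ^ i)| + 5 * 4 ^ l / 4 ^ i) := by
        apply Finset.sum_le_sum
        intro v _
        have hcongr : ∑ k ∈ (Odds N).filter (fun k => ((k * c) % 4 ^ i).toNat = v),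
            |GG (1 / 3) i ((((k * c) % 4 ^ i).toNat : ℕ) / 4 ^ i)| =
            ∑ k ∈ (Odds N).filter (fun k => (k * c) % 4 ^ i = v),
              |GG (1 / 3) i ((v : ℝ) / 4 ^ i)| := by
          have hset : (Odds N).filter (fun k => ((k * c) % 4 ^ i).toNat = v) =
              (Odds N).filter (fun k => (k * c) % 4 ^ i = v) := by
            apply Finset.filter_congr
            intro k _
            have h6 := Int.emod_nonneg (k * c) h4z.ne'
            constructor
            · intro h; omega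
            · intro h; omega
          rw [hset]
          apply Finset.sum_congr rfl
          intro k hk
          rw [Finset.mem_filter] at hk
          rw [hk.2]
          simp
        rw [hcongr, Finset.sum_const, nsmul_eq_mul]
        apply mul_le_mul
        · exact_mod_cast count_res i N c v hi hc
        · rw [GG, Finset.abs_prod]
          apply Finset.prod_le_prod
          · intro l _; exact abs_nonneg _
          · intro l _
            rw [mul_div_assoc]
            have : (0 : ℝ) ≤ 5 * 4 ^ l / 4 ^ i := by positivity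
            linarith
        · exact abs_nonneg _
        · positivity
    _ = (2 * 4 ^ (N - i)) * ∑ v ∈ range (4 ^ i), ∏ l ∈ range i,
          (|gf (1 / 3) (4 ^ l * (v : ℝ) / 4 ^ i)| + 5 * 4 ^ l / 4 ^ i) := by
        rw [Finset.mul_sum]
    _ ≤ (2 * 4 ^ (N - i)) * (C * (2 * qq) ^ i) :=
        mul_le_mul_of_nonneg_left (hP i) (by positivity)
    _ = 2 * C * 4 ^ N * (qq / 2) ^ i := by
        have e1 : (4 : ℝ) ^ N = 4 ^ (N - i) * 4 ^ i := by
          rw [← pow_add, Nat.sub_add_cancel hi]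
        have e2 : (2 * qq) ^ i = 4 ^ i * (qq / 2) ^ i := by
          rw [← mul_pow]; congr 1; ring
        rw [e1, e2]
        ring

end Pool.Agent.C52.RA1
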