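import Pool.Agent.Lib.MP_c52340_c5.Defs
import Pool.Agent.Lib.MP_c52340_c5.B13


set_option autoImplicit false

open Finset

open Pool.Agent.C52.RB13 (B13)

namespace Pool.Agent.C52.RP8

private theorem p8_pow {a b : ℝ} (ha : 0 ≤ a) (ha1 : a ≤ 1) (hb : 0 ≤ b) (hb1 : b ≤ 1) (t : ℕ) :
    a ^ t ≤ b ^ t + t * |a - b| := by
  induction t with
  | zero => simp
  | succ t ih =>
    have h1 : a ^ (t + 1) = a * a ^ t := pow_succ' a t
    have h2 : b ^ (t + 1) = b * b ^ t := pow_succ' b t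
    have hbt : 0 ≤ b ^ t := pow_nonneg hb t
    have hbt1 : b ^ t ≤ 1 := pow_le_one₀ hb hb1
    have hab := abs_nonneg (a - b)
    have h3 : (a - b) * b ^ t ≤ |a - b| := by
      calc (a - b) * b ^ t ≤ |a - b| * b ^ t := mul_le_mul_of_nonneg_right (le_abs_self _) hbt
        _ ≤ |a - b| * 1 := mul_le_mul_of_nonneg_left hbt1 hab
        _ = |a - b| := mul_one _
    have h4 : a * (t * |a - b|) ≤ t * |a - b| := mul_le_of_le_one_left (by positivity) ha1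
    have h5 : a * a ^ t ≤ a * (b ^ t + t * |a - b|) := mul_le_mul_of_nonneg_left ih ha
    rw [h1, h2]
    push_cast
    nlinarith

private theorem p8_lip (p : ℝ) (hp : 0 ≤ p) (hp1 : p ≤ 1 / 3) (n i : ℕ) (c : ℤ) (x : ℝ)
    (h1 : (c : ℝ) / 4 ^ n ≤ x) (h2 : x ≤ ((c : ℝ) + 1) / 4 ^ n) :
    |gf p (4 ^ i * x) - gf p (4 ^ i * c / 4 ^ n)| ≤ 5 * 4 ^ i / 4 ^ n := by
  obtain ⟨-, -, -, -, hL, -⟩ := B13
  refine (hL p _ _ hp).trans ?_
  have h4n : (0 : ℝ) < 4 ^ n := by positivity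
  have h4i : (0 : ℝ) < 4 ^ i := by positivity
  have h3 : |x - c / 4 ^ n| ≤ 1 / 4 ^ n := by
    rw [abs_of_nonneg (by linarith)]
    have : ((c : ℝ) + 1) / 4 ^ n = c / 4 ^ n + 1 / 4 ^ n := by ring
    linarith
  have h4 : |(4 : ℝ) ^ i * x - 4 ^ i * c / 4 ^ n| ≤ 4 ^ i * (1 / 4 ^ n) := by
    have e : (4 : ℝ) ^ i * x - 4 ^ i * c / 4 ^ n = 4 ^ i * (x - c / 4 ^ n) := by ring
    rw [e, abs_mul, abs_of_pos h4i]
    exact mul_le_mul_of_nonneg_left h3 h4i.le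
  have h5 : 4 * Real.pi * p ≤ 5 := by
    have := Real.pi_lt_d2
    have := Real.pi_pos
    nlinarith
  calc 4 * Real.pi * p * |(4 : ℝ) ^ i * x - 4 ^ i * c / 4 ^ n| ≤ 5 * (4 ^ i * (1 / 4 ^ n)) :=
        mul_le_mul h5 h4 (abs_nonneg _) (by norm_num)
    _ = 5 * 4 ^ i / 4 ^ n := by ring

/-- Row P8.  Values of `DD` on a cell.
Recipe: Lipschitz bound in B13 (`4 π / 3 ≤ 5`), factor by factor. -/
theorem P8 (n : ℕ) (c : ℤ) (x : ℝ) (h1 : (c : ℝ) / 4 ^ n ≤ x) (h2 : x ≤ ((c : ℝ) + 1) / 4 ^ n) :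
    |GG (1 / 3) n x| ≤ ∏ i ∈ range n, (|gf (1 / 3) (4 ^ i * c / 4 ^ n)| + 5 * 4 ^ i / 4 ^ n) ∧
    ∀ t : ℕ, 1 ≤ t →
      GG (1 / 4) n x ^ t ≤ ∏ i ∈ range n, (gf (1 / 4) (4 ^ i * c / 4 ^ n) ^ t + 5 * t * 4 ^ i / 4 ^ n) ∧
      |GG (1 / 3) n x| ^ t ≤
        ∏ i ∈ range n, (|gf (1 / 3) (4 ^ i * c / 4 ^ n)| ^ t + 5 * t * 4 ^ i / 4 ^ n) := by
  obtain ⟨-, -, habs, hnn, -⟩ := B13
  refine ⟨?_, fun t _ => ⟨?_, ?_⟩⟩
  · unfold GG
    rw [Finset.abs_prod]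
    refine Finset.prod_le_prod (fun i _ => abs_nonneg _) fun i _ => ?_
    have h3 := p8_lip (1 / 3) (by norm_num) le_rfl n i c x h1 h2
    have h4 := abs_sub_abs_le_abs_sub (gf (1 / 3) (4 ^ i * x)) (gf (1 / 3) (4 ^ i * c / 4 ^ n))
    linarith
  · unfold GG
    rw [← Finset.prod_pow]
    refine Finset.prod_le_prod (fun i _ => pow_nonneg (hnn _ _ (by norm_num) (by norm_num)) t) fun i _ => ?_
    have h3 := p8_lip (1 / 4) (by norm_num) (by norm_num) n i c x h1 h2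
    have ha := hnn (1 / 4) (4 ^ i * x) (by norm_num) (by norm_num)
    have ha1 := (le_abs_self _).trans (habs (1 / 4) (4 ^ i * x) (by norm_num) (by norm_num))
    have hb := hnn (1 / 4) (4 ^ i * c / 4 ^ n) (by norm_num) (by norm_num)
    have hb1 := (le_abs_self _).trans (habs (1 / 4) (4 ^ i * c / 4 ^ n) (by norm_num) (by norm_num))
    refine (p8_pow ha ha1 hb hb1 t).trans ?_
    have h4 : (t : ℝ) * |gf (1 / 4) (4 ^ i * x) - gf (1 / 4) (4 ^ i * c / 4 ^ n)| ≤ t * (5 * 4 ^ i / 4 ^ n) :=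
      mul_le_mul_of_nonneg_left h3 (Nat.cast_nonneg t)
    have e : (t : ℝ) * (5 * 4 ^ i / 4 ^ n) = 5 * t * 4 ^ i / 4 ^ n := by ring
    linarith
  · unfold GG
    rw [Finset.abs_prod, ← Finset.prod_pow]
    refine Finset.prod_le_prod (fun i _ => pow_nonneg (abs_nonneg _) t) fun i _ => ?_
    have h3 := p8_lip (1 / 3) (by norm_num) le_rfl n i c x h1 h2
    have ha1 := habs (1 / 3) (4 ^ i * x) (by norm_num) (by norm_num)
    have hb1 := habs (1 / 3) (4 ^ i * c / 4 ^ n) (by norm_num) (by norm_num)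
    refine (p8_pow (abs_nonneg _) ha1 (abs_nonneg _) hb1 t).trans ?_
    have h5 := abs_abs_sub_abs_le (gf (1 / 3) (4 ^ i * x)) (gf (1 / 3) (4 ^ i * c / 4 ^ n))
    have h4 : (t : ℝ) * |(|gf (1 / 3) (4 ^ i * x)| - |gf (1 / 3) (4 ^ i * c / 4 ^ n)|)| ≤ t * (5 * 4 ^ i / 4 ^ n) :=
      mul_le_mul_of_nonneg_left (h5.trans h3) (Nat.cast_nonneg t)
    have e : (t : ℝ) * (5 * 4 ^ i / 4 ^ n) = 5 * t * 4 ^ i / 4 ^ n := by ring
    linarith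

end Pool.Agent.C52.RP8
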