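import Pool.Agent.Lib.MP_c52340_c5.Defs
import Pool.Agent.Lib.MP_c52340_c5.B13
import Pool.Agent.Lib.MP_c52340_c5.P3
import Pool.Agent.Lib.MP_c52340_c5.P8


set_option autoImplicit false

open Finset

open Pool.Agent.C52.RB13 (B13)
open Pool.Agent.C52.RP3 (P3)
open Pool.Agent.C52.RP8 (P8)

namespace Pool.Agent.C52.RA2

private noncomputable def cellG (n : ℕ) (c : ℤ) : ℝ :=
  ∏ i ∈ range n, (|gf (1 / 3) (4 ^ i * (c : ℝ) / 4 ^ n)| + 5 * 4 ^ i / 4 ^ n)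

private theorem cellG_nonneg (n : ℕ) (c : ℤ) : 0 ≤ cellG n c := by
  unfold cellG
  apply Finset.prod_nonneg
  intro i _
  positivity

private theorem cellG_per (n : ℕ) (c m : ℤ) : cellG n (c + 4 ^ n * m) = cellG n c := by
  unfold cellG
  apply Finset.prod_congr rfl
  intro i _
  obtain ⟨hper, _⟩ := B13
  have h4 : (4 : ℝ) ^ n ≠ 0 := by positivity
  have h : (4 : ℝ) ^ i * ((c + 4 ^ n * m : ℤ) : ℝ) / 4 ^ n =
      4 ^ i * (c : ℝ) / 4 ^ n + ((4 ^ i * m : ℤ) : ℝ) := by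
    push_cast
    field_simp
  rw [h, hper]

private theorem GG_le_cell (n : ℕ) (x : ℝ) :
    |GG (1 / 3) n x| ≤ cellG n (⌊4 ^ n * x⌋ % 4 ^ n) := by
  have h4 : (0 : ℝ) < 4 ^ n := by positivity
  have h1 : |GG (1 / 3) n x| ≤ cellG n ⌊4 ^ n * x⌋ := by
    refine (P8 n ⌊4 ^ n * x⌋ x ?_ ?_).1
    · rw [div_le_iff₀ h4]
      linarith [Int.floor_le (4 ^ n * x : ℝ), mul_comm (4 ^ n : ℝ) x]
    · rw [le_div_iff₀ h4]
      linarith [Int.lt_floor_add_one (4 ^ n * x : ℝ), mul_comm (4 ^ n : ℝ) x]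
  have h2 : ⌊4 ^ n * x⌋ = ⌊4 ^ n * x⌋ % 4 ^ n + 4 ^ n * (⌊4 ^ n * x⌋ / 4 ^ n) :=
    (Int.emod_add_mul_ediv _ _).symm
  rw [h2, cellG_per] at h1
  convert h1 using 2

/-- a set of natural numbers of diameter `< L` has at most `L + 1` elements -/
private theorem card_of_diam (T : Finset ℕ) (L : ℝ) (hL : 0 ≤ L)
    (h : ∀ a ∈ T, ∀ b ∈ T, (a : ℝ) - b < L) : (T.card : ℝ) ≤ L + 1 := by
  rcases T.eq_empty_or_nonempty with rfl | hne
  · simp; linarith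
  · have hsub : T ⊆ Finset.Icc (T.min' hne) (T.max' hne) := by
      intro a ha
      rw [Finset.mem_Icc]
      exact ⟨Finset.min'_le _ _ ha, Finset.le_max' _ _ ha⟩
    have hc := Finset.card_le_card hsub
    rw [Nat.card_Icc] at hc
    have h1 := h _ (Finset.max'_mem T hne) _ (Finset.min'_mem T hne)
    have h2 : T.min' hne ≤ T.max' hne := Finset.min'_le _ _ (Finset.max'_mem T hne)
    have h3 : (T.card : ℝ) ≤ ((T.max' hne + 1 - T.min' hne : ℕ) : ℝ) := by exact_mod_cast hc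
    rw [Nat.cast_sub (by omega)] at h3
    push_cast at h3
    linarith

private theorem count_cell (n J : ℕ) (x₀ τ : ℝ) (hτ : 0 < τ) (h1 : τ * 4 ^ n ≤ 1) (v : ℤ) :
    (((range J).filter (fun j : ℕ => ⌊4 ^ n * (x₀ + j * τ)⌋ % 4 ^ n = v)).card : ℝ) ≤
      4 / 4 ^ n * (J + 1 / τ) := by
  have h4 : (0 : ℝ) < 4 ^ n := by positivity
  set T := (range J).filter (fun j : ℕ => ⌊4 ^ n * (x₀ + j * τ)⌋ % 4 ^ n = v) with hT
  rcases Nat.eq_zero_or_pos J with hJ | hJ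
  · have : T = ∅ := by rw [hT, hJ]; simp
    rw [this]
    simp
    positivity
  set L : ℝ := 1 / (4 ^ n * τ) with hLdef
  have hL1 : 1 ≤ L := by
    rw [hLdef, le_div_iff₀ (by positivity)]
    linarith [mul_comm τ (4 ^ n : ℝ)]
  -- fibers over the period index
  have hfib : ∀ m ∈ T.image (fun j : ℕ => ⌊4 ^ n * (x₀ + j * τ)⌋ / 4 ^ n),
      (T.filter (fun j : ℕ => ⌊4 ^ n * (x₀ + j * τ)⌋ / 4 ^ n = m)).card ≤ ⌊L + 1⌋₊ := by
    intro m _
    rw [Nat.le_floor_iff (by linarith)]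
    apply card_of_diam _ L (by linarith)
    intro a ha b hb
    rw [Finset.mem_filter, hT, Finset.mem_filter] at ha hb
    have e1 : ⌊4 ^ n * (x₀ + a * τ)⌋ = ⌊4 ^ n * (x₀ + b * τ)⌋ := by
      rw [← Int.emod_add_mul_ediv ⌊4 ^ n * (x₀ + a * τ)⌋ (4 ^ n),
        ← Int.emod_add_mul_ediv ⌊4 ^ n * (x₀ + b * τ)⌋ (4 ^ n), ha.1.2, hb.1.2, ha.2, hb.2]
    have e2 := Int.floor_le (4 ^ n * (x₀ + b * τ))
    have e3 := Int.lt_floor_add_one (4 ^ n * (x₀ + a * τ))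
    rw [e1] at e3
    have e4 : (4 : ℝ) ^ n * τ * (a - b) < 1 := by linarith
    rw [hLdef, lt_div_iff₀ (by positivity)]
    linarith [mul_comm ((a : ℝ) - b) (4 ^ n * τ)]
  have hcard := Finset.card_le_mul_card_image (s := T)
    (f := fun j : ℕ => ⌊4 ^ n * (x₀ + j * τ)⌋ / 4 ^ n) ⌊L + 1⌋₊ hfib
  -- number of periods
  have himg : T.image (fun j : ℕ => ⌊4 ^ n * (x₀ + j * τ)⌋ / 4 ^ n) ⊆
      Finset.Icc ⌊x₀⌋ ⌊x₀ + (J - 1) * τ⌋ := by
    intro m hm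
    rw [Finset.mem_image] at hm
    obtain ⟨j, hj, rfl⟩ := hm
    rw [hT, Finset.mem_filter, Finset.mem_range] at hj
    have hjJ : (j : ℝ) ≤ J - 1 := by
      have : (j : ℝ) + 1 ≤ J := by exact_mod_cast hj.1
      linarith
    have hfl : ⌊4 ^ n * (x₀ + j * τ)⌋ / 4 ^ n = ⌊x₀ + j * τ⌋ := by
      have := Int.floor_div_natCast (4 ^ n * (x₀ + j * τ)) (4 ^ n)
      rw [show (4 : ℝ) ^ n * (x₀ + j * τ) / ((4 ^ n : ℕ) : ℝ) = x₀ + j * τ by
        push_cast; field_simp] at this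
      rw [this]
      push_cast
      rfl
    rw [hfl, Finset.mem_Icc]
    constructor
    · apply Int.floor_le_floor
      nlinarith [Nat.cast_nonneg (α := ℝ) j]
    · apply Int.floor_le_floor
      nlinarith
  have hper := Finset.card_le_card himg
  rw [Int.card_Icc] at hper
  have hper2 : ((T.image (fun j : ℕ => ⌊4 ^ n * (x₀ + j * τ)⌋ / 4 ^ n)).card : ℝ) ≤
      J * τ + 2 := by
    have e1 : ((⌊x₀ + (J - 1) * τ⌋ + 1 - ⌊x₀⌋).toNat : ℤ) = ⌊x₀ + (J - 1) * τ⌋ + 1 - ⌊x₀⌋ := by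
      apply Int.toNat_of_nonneg
      have : ⌊x₀⌋ ≤ ⌊x₀ + (J - 1) * τ⌋ := by
        apply Int.floor_le_floor
        have : (1 : ℝ) ≤ J := by exact_mod_cast hJ
        nlinarith
      linarith
    have e2 : (((⌊x₀ + (J - 1) * τ⌋ + 1 - ⌊x₀⌋).toNat : ℕ) : ℝ) =
        (⌊x₀ + (J - 1) * τ⌋ : ℝ) + 1 - (⌊x₀⌋ : ℝ) := by
      exact_mod_cast e1
    have e3 : ((T.image (fun j : ℕ => ⌊4 ^ n * (x₀ + j * τ)⌋ / 4 ^ n)).card : ℝ) ≤
        (((⌊x₀ + (J - 1) * τ⌋ + 1 - ⌊x₀⌋).toNat : ℕ) : ℝ) := by exact_mod_cast hper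
    rw [e2] at e3
    have e4 := Int.floor_le (x₀ + (J - 1) * τ)
    have e5 := Int.lt_floor_add_one x₀
    have : (J - 1 : ℝ) * τ ≤ J * τ := by nlinarith
    linarith
  have hfl2 : ((⌊L + 1⌋₊ : ℕ) : ℝ) ≤ 2 * L := by
    have := Nat.floor_le (a := L + 1) (by linarith)
    linarith
  have hcard' : (T.card : ℝ) ≤ (⌊L + 1⌋₊ : ℝ) *
      ((T.image (fun j : ℕ => ⌊4 ^ n * (x₀ + j * τ)⌋ / 4 ^ n)).card : ℝ) := by
    exact_mod_cast hcard
  calc (T.card : ℝ) ≤ (⌊L + 1⌋₊ : ℝ) *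
      ((T.image (fun j : ℕ => ⌊4 ^ n * (x₀ + j * τ)⌋ / 4 ^ n)).card : ℝ) := hcard'
    _ ≤ (2 * L) * (J * τ + 2) := by
        apply mul_le_mul hfl2 hper2 (Nat.cast_nonneg _) (by linarith)
    _ = 2 / 4 ^ n * (J + 2 * (1 / τ)) := by
        rw [hLdef]; field_simp
    _ ≤ 4 / 4 ^ n * (J + 1 / τ) := by
        have h5 : (0 : ℝ) ≤ 1 / τ := by positivity
        have h6 : (0 : ℝ) ≤ (J : ℝ) := Nat.cast_nonneg _
        have h7 : (0 : ℝ) < 1 / 4 ^ n := by positivity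
        have : 4 / 4 ^ n * ((J : ℝ) + 1 / τ) - 2 / 4 ^ n * (J + 2 * (1 / τ)) =
          1 / 4 ^ n * (2 * J) := by ring
        nlinarith [mul_nonneg h7.le (by linarith : (0 : ℝ) ≤ 2 * (J : ℝ))]

private theorem A2pos {C : ℝ} (hC : 0 < C) (hP : ∀ n : ℕ,
    ∑ c ∈ range (4 ^ n), ∏ i ∈ range n, (|gf (1 / 3) (4 ^ i * c / 4 ^ n)| + 5 * 4 ^ i / 4 ^ n) ≤
      C * (2 * qq) ^ n) (n J : ℕ) (x₀ τ : ℝ) (hτ : 0 < τ) (h1 : τ * 4 ^ n ≤ 1) :
    ∑ j ∈ range J, |GG (1 / 3) n (x₀ + j * τ)| ≤ 4 * C * (J + 1 / τ) * (qq / 2) ^ n := by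
  have h4 : (0 : ℝ) < 4 ^ n := by positivity
  have h4z : (0 : ℤ) < 4 ^ n := by positivity
  have hK : (0 : ℝ) ≤ 4 / 4 ^ n * (J + 1 / τ) := by positivity
  calc ∑ j ∈ range J, |GG (1 / 3) n (x₀ + j * τ)|
      ≤ ∑ j ∈ range J, cellG n (⌊4 ^ n * (x₀ + j * τ)⌋ % 4 ^ n) :=
        Finset.sum_le_sum (fun j _ => GG_le_cell n _)
    _ = ∑ v ∈ range (4 ^ n), ∑ j ∈ (range J).filter
          (fun j : ℕ => (⌊4 ^ n * (x₀ + j * τ)⌋ % 4 ^ n).toNat = v),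
            cellG n (⌊4 ^ n * (x₀ + j * τ)⌋ % 4 ^ n) := by
        rw [Finset.sum_fiberwise_of_maps_to]
        intro j _
        rw [Finset.mem_range]
        have h5 := Int.emod_lt_of_pos ⌊4 ^ n * (x₀ + j * τ)⌋ h4z
        have h6 := Int.emod_nonneg ⌊4 ^ n * (x₀ + j * τ)⌋ h4z.ne'
        zify
        rw [Int.toNat_of_nonneg h6]
        exact h5
    _ ≤ ∑ v ∈ range (4 ^ n), (4 / 4 ^ n * (J + 1 / τ)) * cellG n (v : ℤ) := by
        apply Finset.sum_le_sum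
        intro v _
        have hcongr : ∑ j ∈ (range J).filter
          (fun j : ℕ => (⌊4 ^ n * (x₀ + j * τ)⌋ % 4 ^ n).toNat = v),
            cellG n (⌊4 ^ n * (x₀ + j * τ)⌋ % 4 ^ n) =
            ∑ j ∈ (range J).filter
          (fun j : ℕ => (⌊4 ^ n * (x₀ + j * τ)⌋ % 4 ^ n) = v), cellG n (v : ℤ) := by
          have hset : (range J).filter
              (fun j : ℕ => (⌊4 ^ n * (x₀ + j * τ)⌋ % 4 ^ n).toNat = v) =
              (range J).filter (fun j : ℕ => (⌊4 ^ n * (x₀ + j * τ)⌋ % 4 ^ n) = v) := by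
            apply Finset.filter_congr
            intro j _
            have h6 := Int.emod_nonneg ⌊4 ^ n * (x₀ + j * τ)⌋ h4z.ne'
            constructor
            · intro h; omega
            · intro h; omega
          rw [hset]
          apply Finset.sum_congr rfl
          intro j hj
          rw [Finset.mem_filter] at hj
          rw [hj.2]
        rw [hcongr, Finset.sum_const, nsmul_eq_mul]
        exact mul_le_mul_of_nonneg_right (count_cell n J x₀ τ hτ h1 v) (cellG_nonneg n _)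
    _ = (4 / 4 ^ n * (J + 1 / τ)) * ∑ v ∈ range (4 ^ n), cellG n (v : ℤ) := by
        rw [Finset.mul_sum]
    _ ≤ (4 / 4 ^ n * (J + 1 / τ)) * (C * (2 * qq) ^ n) := by
        apply mul_le_mul_of_nonneg_left _ hK
        have := hP n
        simpa [cellG] using this
    _ = 4 * C * (J + 1 / τ) * (qq / 2) ^ n := by
        have : (qq / 2) ^ n = (2 * qq) ^ n / 4 ^ n := by
          rw [← div_pow]; congr 1; ring
        rw [this]
        field_simp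

/-- Row A2.  Sampling.
Recipe: the points `x₀ + j τ` lie in `⌈J |τ| 4^n⌉ + 1` consecutive cells of length `4^{-n}`, each containing at
most `4^{-n}/|τ| + 1 ≤ 2 * 4^{-n}/|τ|` of them; the cells are grouped in `⌈J |τ|⌉ + 1` or so periods; P8 and P3. -/
theorem A2 : ∃ C : ℝ, 0 < C ∧ ∀ (n J : ℕ) (x₀ τ : ℝ), τ ≠ 0 → |τ| * 4 ^ n ≤ 1 →
    ∑ j ∈ range J, |GG (1 / 3) n (x₀ + j * τ)| ≤ C * (J + 1 / |τ|) * (qq / 2) ^ n := by
  obtain ⟨C, hC, hP⟩ := P3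
  refine ⟨4 * C, by positivity, ?_⟩
  intro n J x₀ τ hτ h1
  rcases lt_or_gt_of_ne hτ with hneg | hpos
  · have h2 := A2pos hC hP n J (-x₀) (-τ) (by linarith) (by rwa [abs_of_neg hneg] at h1)
    rw [abs_of_neg hneg]
    refine le_trans (le_of_eq ?_) h2
    apply Finset.sum_congr rfl
    intro j _
    obtain ⟨_, _, _, _, _, _, heven, _⟩ := B13
    rw [show -x₀ + (j : ℝ) * -τ = -(x₀ + j * τ) by ring, heven]
  · rw [abs_of_pos hpos] at h1 ⊢
    exact A2pos hC hP n J x₀ τ hpos h1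

end Pool.Agent.C52.RA2
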