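import Pool.Agent.Lib.MP_c52340_c5.Defs
import Pool.Agent.Lib.MP_c52340_c5.A2


set_option autoImplicit false

open Finset

open Pool.Agent.C52.RA2 (A2)

namespace Pool.Agent.C52.RA3

/-- Row A3.  Average over `k`, real frequencies.  Recipe: A2 with `x₀ = β`, `τ = 2 β`, `J = 4^N / 2`. -/
theorem A3 : ∃ C : ℝ, 0 < C ∧ ∀ (N n : ℕ) (β : ℝ), β ≠ 0 → 2 * |β| * 4 ^ n ≤ 1 →
    ∑ k ∈ Odds N, |GG (1 / 3) n (k * β)| ≤ C * (4 ^ N + 1 / |β|) * (qq / 2) ^ n := by
  obtain ⟨C, hC, h⟩ := A2
  refine ⟨C, hC, ?_⟩
  intro N n β hβ hn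
  have hβ' : 0 < |β| := abs_pos.mpr hβ
  have hq : (0 : ℝ) ≤ (qq / 2) ^ n := by
    apply pow_nonneg
    unfold qq
    norm_num
  have h2 := h n (4 ^ N / 2) β (2 * β) (by simpa using hβ) (by
    rw [abs_mul, abs_two]
    exact hn)
  have hsub : ∑ k ∈ Odds N, |GG (1 / 3) n (k * β)| ≤
      ∑ j ∈ range (4 ^ N / 2), |GG (1 / 3) n (β + j * (2 * β))| := by
    rcases Nat.eq_zero_or_pos N with h0 | hN
    · subst h0
      have : Odds 0 = ∅ := by
        apply Finset.eq_empty_of_forall_notMem
        intro k hk
        simp only [Odds, mem_filter, mem_Ico, pow_zero] at hk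
        have : k = 0 := by omega
        rw [this] at hk
        exact absurd hk.2 (by decide)
      rw [this, Finset.sum_empty]
      apply Finset.sum_nonneg
      intro i _
      positivity
    · have hinj : ∑ k ∈ Odds N, |GG (1 / 3) n (k * β)| =
          ∑ j ∈ range (4 ^ N / 2), |GG (1 / 3) n (β + j * (2 * β))| := by
        obtain ⟨m, rfl⟩ := Nat.exists_eq_add_of_le' hN
        have hM : (4 : ℕ) ^ (m + 1) / 2 = 2 * 4 ^ m := by
          have : (4 : ℕ) ^ (m + 1) = 2 * (2 * 4 ^ m) := by ring
          omega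
        have hMz : (4 : ℤ) ^ (m + 1) = 2 * (2 * 4 ^ m) := by ring
        symm
        apply Finset.sum_nbij' (fun j : ℕ => (2 * (j : ℤ) + 1)) (fun k : ℤ => (k / 2).toNat)
        · intro j hj
          rw [hM] at hj
          simp only [mem_range] at hj
          zify at hj
          simp only [Odds, mem_filter, mem_Ico]
          refine ⟨⟨by positivity, ?_⟩, ?_⟩
          · rw [hMz]; linarith
          · exact ⟨j, rfl⟩
        · intro k hk
          simp only [Odds, mem_filter, mem_Ico] at hk
          rw [hM]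
          simp only [mem_range]
          zify
          rw [Int.toNat_of_nonneg (by omega)]
          have := hk.1.2
          rw [hMz] at this
          omega
        · intro j _
          have : (2 * (j : ℤ) + 1) / 2 = j := by omega
          simp only [this, Int.toNat_natCast]
        · intro k hk
          simp only [Odds, mem_filter, mem_Ico] at hk
          obtain ⟨r, hr⟩ := hk.2
          have h0 : 0 ≤ k / 2 := by omega
          rw [Int.toNat_of_nonneg h0]
          omega
        · intro j _
          congr 2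
          push_cast
          ring
      exact le_of_eq hinj
  refine hsub.trans (h2.trans ?_)
  apply mul_le_mul_of_nonneg_right _ hq
  apply mul_le_mul_of_nonneg_left _ hC.le
  have e1 : ((4 ^ N / 2 : ℕ) : ℝ) ≤ 4 ^ N := by
    have : (4 ^ N / 2 : ℕ) ≤ 4 ^ N := Nat.div_le_self _ _
    exact_mod_cast this
  have e2 : 1 / |2 * β| ≤ 1 / |β| := by
    apply one_div_le_one_div_of_le hβ'
    rw [abs_mul, abs_two]
    linarith
  linarith

end Pool.Agent.C52.RA3
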