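import Pool.Agent.Lib.MP_c52340_c5.Defs


set_option autoImplicit false

open Finset


namespace Pool.Agent.C52.RP1

private theorem P1_sum (a b : ℕ) (F : ℕ → ℝ) :
    ∑ c ∈ range (a * b), F c = ∑ j ∈ range b, ∑ c ∈ range a, F (c + a * j) := by
  induction b with
  | zero => simp
  | succ b ih =>
    rw [Nat.mul_succ, Finset.sum_range_add, ih, Finset.sum_range_succ]
    congr 1
    refine Finset.sum_congr rfl fun c _ => ?_
    rw [add_comm]

private theorem P1_per (g : ℝ → ℝ) (hg : ∀ x, g (x + 1) = g x) (k : ℕ) (x : ℝ) :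
    g (x + k) = g x := by
  induction k with
  | zero => simp
  | succ k ih =>
    rw [← ih, ← hg (x + k)]
    congr 1
    push_cast
    ring

/-- Row P1.  Peeling digits one at a time.
Recipe: induction on `n`; write `c = c' + 4 ^ n * j` with `c' < 4 ^ n`, `j < 4`: the factor `i = 0` is
`f 0 ((c' / 4 ^ n + j) / 4)`, the factors `i + 1` do not depend on `j` by periodicity and equal
`f (i + 1) (4 ^ i * c' / 4 ^ n)`. -/
theorem P1 (f : ℕ → ℝ → ℝ) (A : ℕ → ℝ) (hf : ∀ i x, 0 ≤ f i x) (hper : ∀ i x, f i (x + 1) = f i x)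
    (hA : ∀ i x, ∑ j ∈ range 4, f i ((x + j) / 4) ≤ A i) (n : ℕ) :
    ∑ c ∈ range (4 ^ n), ∏ i ∈ range n, f i (4 ^ i * c / 4 ^ n) ≤ ∏ i ∈ range n, A i := by
  induction n generalizing f A with
  | zero => simp
  | succ n ih =>
    have hA0 : 0 ≤ A 0 := le_trans (Finset.sum_nonneg fun j _ => hf 0 _) (hA 0 0)
    rw [pow_succ, P1_sum, Finset.sum_comm, Finset.prod_range_succ']
    have ih' := ih (fun i => f (i + 1)) (fun i => A (i + 1)) (fun i => hf (i + 1))
      (fun i => hper (i + 1)) (fun i => hA (i + 1))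
    calc ∑ c ∈ range (4 ^ n), ∑ j ∈ range 4, ∏ i ∈ range (n + 1),
          f i (4 ^ i * ((c + 4 ^ n * j : ℕ) : ℝ) / (4 ^ n * 4))
        = ∑ c ∈ range (4 ^ n), (∏ i ∈ range n, f (i + 1) (4 ^ i * c / 4 ^ n)) *
            ∑ j ∈ range 4, f 0 (((c : ℝ) / 4 ^ n + j) / 4) := by
          refine Finset.sum_congr rfl fun c _ => ?_
          rw [Finset.mul_sum]
          refine Finset.sum_congr rfl fun j _ => ?_
          rw [Finset.prod_range_succ']
          congr 1
          · refine Finset.prod_congr rfl fun i _ => ?_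
            rw [← P1_per (f (i + 1)) (hper (i + 1)) (4 ^ i * j) (4 ^ i * c / 4 ^ n)]
            congr 1
            push_cast
            field_simp
            ring
          · congr 1
            push_cast
            field_simp
      _ ≤ ∑ c ∈ range (4 ^ n), (∏ i ∈ range n, f (i + 1) (4 ^ i * c / 4 ^ n)) * A 0 :=
          Finset.sum_le_sum fun c _ => mul_le_mul_of_nonneg_left (hA 0 _)
            (Finset.prod_nonneg fun i _ => hf _ _)
      _ = (∑ c ∈ range (4 ^ n), ∏ i ∈ range n, f (i + 1) (4 ^ i * c / 4 ^ n)) * A 0 := by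
          rw [Finset.sum_mul]
      _ ≤ (∏ i ∈ range n, A (i + 1)) * A 0 := mul_le_mul_of_nonneg_right ih' hA0

end Pool.Agent.C52.RP1
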