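import Pool.Agent.Lib.MP_c52340_c5.Defs


set_option autoImplicit false

open Finset


namespace Pool.Agent.C52.RT4

/-- Row T4.  Far from the integers `c` and `d` are at most `7/8`.
Recipe: `gf (1/4) x = (1 + cos 2πx)/2`, `gf (1/3) x = (1 + 2 cos 2πx)/3`, and `|x - n| ≥ 1/8` for all `n`
gives `cos 2πx ≤ cos (π/4) = √2/2`. -/
theorem T4 (x : ℝ) (hx : ∀ n : ℤ, 1 / 8 ≤ |x - n|) :
    gf (1 / 4) x ≤ 43 / 50 ∧ |gf (1 / 3) x| ≤ 7 / 8 := by
  have h1 := hx (round x)
  have h2 := abs_sub_round x
  have hpi := Real.pi_pos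
  have h3 : Real.cos (2 * Real.pi * x) = Real.cos (2 * Real.pi * |x - round x|) := by
    have e1 : Real.cos (2 * Real.pi * |x - round x|) = Real.cos (2 * Real.pi * (x - round x)) := by
      rcases abs_choice (x - round x) with h | h
      · rw [h]
      · rw [h, mul_neg, Real.cos_neg]
    rw [e1]
    have e2 : 2 * Real.pi * (x - round x) = 2 * Real.pi * x - (round x : ℤ) * (2 * Real.pi) := by ring
    rw [e2, Real.cos_sub_int_mul_two_pi]
  have h4 : Real.cos (2 * Real.pi * x) ≤ Real.sqrt 2 / 2 := by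
    rw [h3, ← Real.cos_pi_div_four]
    apply Real.cos_le_cos_of_nonneg_of_le_pi
    · positivity
    · nlinarith
    · nlinarith
  have h5 : Real.sqrt 2 ≤ 1.415 := by
    rw [Real.sqrt_le_left (by norm_num)]
    norm_num
  have h6 := Real.neg_one_le_cos (2 * Real.pi * x)
  constructor
  · unfold gf
    linarith
  · unfold gf
    rw [abs_le]
    constructor <;> linarith

end Pool.Agent.C52.RT4
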