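import Pool.Agent.Lib.MP_c52340_c5.Defs
import Pool.Agent.Lib.MP_c52340_c5.B13
import Pool.Agent.Lib.MP_c52340_c5.T4


set_option autoImplicit false

open Finset

open Pool.Agent.C52.RB13 (B13)
open Pool.Agent.C52.RT4 (T4)

namespace Pool.Agent.C52.RT5

private theorem t5_sum (x : ℝ) (f : ℕ → ℝ) (a : ℝ) (ha : a ≤ 1) (h1 : ∀ j ∈ range 4, f j ≤ 1)
    (h2 : ∀ j ∈ range 4, (∀ n : ℤ, 1 / 8 ≤ |(x + j) / 4 - n|) → f j ≤ a) :
    ∑ j ∈ range 4, f j ≤ 1 + 3 * a := by
  by_cases hex : ∃ j ∈ range 4, ∃ n : ℤ, |(x + (j : ℝ)) / 4 - n| < 1 / 8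
  · obtain ⟨j, hj, n, hn⟩ := hex
    rw [← Finset.add_sum_erase (range 4) f hj]
    have hothers : ∀ i ∈ (range 4).erase j, f i ≤ a := by
      intro i hi
      obtain ⟨hij, hi4⟩ := Finset.mem_erase.1 hi
      refine h2 i hi4 fun m => ?_
      by_contra hcon
      have hm := not_le.1 hcon
      rw [abs_lt] at hn hm
      have h3 : -1 < (i : ℝ) - j - 4 * (m - n) := by linarith [hn.1, hn.2, hm.1, hm.2]
      have h4 : (i : ℝ) - j - 4 * (m - n) < 1 := by linarith [hn.1, hn.2, hm.1, hm.2]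
      have h5 : (-1 : ℤ) < (i : ℤ) - j - 4 * (m - n) := by exact_mod_cast h3
      have h6 : (i : ℤ) - j - 4 * (m - n) < 1 := by exact_mod_cast h4
      rw [Finset.mem_range] at hj hi4
      omega
    have hcard : ((range 4).erase j).card = 3 := by
      rw [Finset.card_erase_of_mem hj, Finset.card_range]
    have h3 := Finset.sum_le_card_nsmul _ f a hothers
    rw [hcard, nsmul_eq_mul] at h3
    have h4 := h1 j hj
    push_cast at h3
    linarith
  · have h3 : ∀ j ∈ range 4, f j ≤ a := by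
      intro j hj
      refine h2 j hj fun n => ?_
      by_contra hcon
      exact hex ⟨j, hj, n, not_le.1 hcon⟩
    have h4 := Finset.sum_le_card_nsmul _ f a h3
    rw [Finset.card_range, nsmul_eq_mul] at h4
    push_cast at h4
    linarith

/-- Row T5.  Power sums over the four preimages.
Recipe: at most one of the points `(x + j)/4` is at distance `< 1/8` from the integers; T4 for the
others, the bound `1` (B13) for that one. -/
theorem T5 (x : ℝ) (t : ℕ) (ht : 1 ≤ t) :
    ∑ j ∈ range 4, gf (1 / 4) ((x + j) / 4) ^ t ≤ 1 + 3 * (7 / 8 : ℝ) ^ t ∧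
    ∑ j ∈ range 4, |gf (1 / 3) ((x + j) / 4)| ^ t ≤ 1 + 3 * (7 / 8 : ℝ) ^ t := by
  obtain ⟨-, -, habs, hnn, -⟩ := B13
  have ha : (7 / 8 : ℝ) ^ t ≤ 1 := pow_le_one₀ (by norm_num) (by norm_num)
  constructor
  · refine t5_sum x _ _ ha ?_ ?_
    · intro j _
      exact pow_le_one₀ (hnn _ _ (by norm_num) (by norm_num))
        ((le_abs_self _).trans (habs _ _ (by norm_num) (by norm_num)))
    · intro j _ hj
      have h1 := (T4 _ hj).1
      exact pow_le_pow_left₀ (hnn _ _ (by norm_num) (by norm_num)) (by linarith) t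
  · refine t5_sum x _ _ ha ?_ ?_
    · intro j _
      exact pow_le_one₀ (abs_nonneg _) (habs _ _ (by norm_num) (by norm_num))
    · intro j _ hj
      exact pow_le_pow_left₀ (abs_nonneg _) (T4 _ hj).2 t

end Pool.Agent.C52.RT5
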