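import Pool.Agent.Lib.MP_c52340_c5.Defs
import Pool.Agent.Lib.MP_c52340_c5.B13
import Pool.Agent.Lib.MP_c52340_c5.T5
import Pool.Agent.Lib.MP_c52340_c5.P1


set_option autoImplicit false

open Finset

open Pool.Agent.C52.RB13 (B13)
open Pool.Agent.C52.RT5 (T5)
open Pool.Agent.C52.RP1 (P1)

namespace Pool.Agent.C52.RP4

private theorem p4_geom (l : ℕ) : ∑ i ∈ range l, (4 : ℝ) ^ i ≤ 4 ^ l := by
  induction l with
  | zero => simp
  | succ l ih =>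
    rw [sum_range_succ, pow_succ]
    have : (0 : ℝ) < 4 ^ l := by positivity
    linarith

private theorem p4_aux (g : ℝ → ℝ) (a b : ℝ) (hg : ∀ x, 0 ≤ g x) (hper : ∀ x, g (x + 1) = g x)
    (ha : 1 ≤ a) (hb : 0 ≤ b) (hA : ∀ x, ∑ j ∈ range 4, g ((x + j) / 4) ≤ a) (n : ℕ) :
    ∑ c ∈ range (4 ^ n), ∏ i ∈ range n, (g (4 ^ i * c / 4 ^ n) + b * 4 ^ i / 4 ^ n) ≤
      Real.exp (4 * b) * a ^ n := by
  have h := P1 (fun i x => g x + b * 4 ^ i / 4 ^ n) (fun i => a + 4 * (b * 4 ^ i / 4 ^ n))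
    (fun i x => add_nonneg (hg x) (by positivity)) (fun i x => by rw [hper x])
    (fun i x => by
      rw [sum_add_distrib, sum_const, card_range, nsmul_eq_mul]
      have := hA x
      push_cast
      linarith) n
  refine h.trans ?_
  have hstep : ∀ i ∈ range n, a + 4 * (b * 4 ^ i / 4 ^ n) ≤ a * Real.exp (4 * b * (4 ^ i / 4 ^ n)) := by
    intro i _
    have h1 := Real.add_one_le_exp (4 * b * (4 ^ i / 4 ^ n))
    have h2 : (0 : ℝ) ≤ 4 * b * (4 ^ i / 4 ^ n) := by positivity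
    have h3 : 4 * (b * 4 ^ i / 4 ^ n) = 4 * b * (4 ^ i / 4 ^ n) := by ring
    rw [h3]
    nlinarith [mul_le_mul_of_nonneg_left h1 (by linarith : (0 : ℝ) ≤ a),
      mul_le_mul_of_nonneg_right ha h2]
  have hnn : ∀ i ∈ range n, 0 ≤ a + 4 * (b * 4 ^ i / 4 ^ n) := by
    intro i _
    have : (0 : ℝ) ≤ b * 4 ^ i / 4 ^ n := by positivity
    linarith
  refine (prod_le_prod hnn hstep).trans ?_
  rw [prod_mul_distrib, prod_const, card_range, ← Real.exp_sum, ← mul_sum, ← sum_div]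
  have h10 : (∑ i ∈ range n, (4 : ℝ) ^ i) / 4 ^ n ≤ 1 := by
    rw [div_le_one (by positivity)]
    exact p4_geom n
  have h11 : Real.exp (4 * b * ((∑ i ∈ range n, (4 : ℝ) ^ i) / 4 ^ n)) ≤ Real.exp (4 * b) :=
    Real.exp_le_exp.2 (mul_le_of_le_one_right (by positivity) h10)
  rw [mul_comm]
  exact mul_le_mul_of_nonneg_right h11 (pow_nonneg (by linarith) n)

/-- Row P4.  Power sums, with room for perturbations.
Recipe: P1 with `f i x = gf (1/4) x ^ t + 5 t 4^i/4^n` (resp. `|gf (1/3) x| ^ t + ...`), T5, and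
`∏ (1 + a_i) ≤ exp (∑ a_i)`. -/
theorem P4 (t : ℕ) (ht : 1 ≤ t) : ∃ C : ℝ, 0 < C ∧ ∀ n : ℕ,
    ∑ c ∈ range (4 ^ n), ∏ i ∈ range n, (gf (1 / 4) (4 ^ i * c / 4 ^ n) ^ t + 5 * t * 4 ^ i / 4 ^ n) ≤
      C * (1 + 3 * (7 / 8 : ℝ) ^ t) ^ n ∧
    ∑ c ∈ range (4 ^ n), ∏ i ∈ range n, (|gf (1 / 3) (4 ^ i * c / 4 ^ n)| ^ t + 5 * t * 4 ^ i / 4 ^ n) ≤
      C * (1 + 3 * (7 / 8 : ℝ) ^ t) ^ n := by
  obtain ⟨h1, _, _, h4, _⟩ := B13
  have h0 : ∀ x : ℝ, 0 ≤ gf (1 / 4) x := fun x => h4 (1 / 4) x (by norm_num) (by norm_num)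
  have hp : ∀ p x : ℝ, gf p (x + 1) = gf p x := fun p x => by
    have := h1 p x 1
    rwa [Int.cast_one] at this
  have ha : (1 : ℝ) ≤ 1 + 3 * (7 / 8 : ℝ) ^ t := by
    have : (0 : ℝ) ≤ (7 / 8 : ℝ) ^ t := by positivity
    linarith
  refine ⟨Real.exp (4 * (5 * t)), Real.exp_pos _, fun n => ⟨?_, ?_⟩⟩
  · exact p4_aux (fun x => gf (1 / 4) x ^ t) _ (5 * t) (fun x => pow_nonneg (h0 x) t)
      (fun x => by rw [hp]) ha (by positivity) (fun x => (T5 x t ht).1) n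
  · exact p4_aux (fun x => |gf (1 / 3) x| ^ t) _ (5 * t) (fun x => by positivity)
      (fun x => by rw [hp]) ha (by positivity) (fun x => (T5 x t ht).2) n

end Pool.Agent.C52.RP4
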