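import Pool.Agent.Lib.MP_c52340_c5.Defs
import Pool.Agent.Lib.MP_c52340_c5.B13
import Pool.Agent.Lib.MP_c52340_c5.P4
import Pool.Agent.Lib.MP_c52340_c5.P8


set_option autoImplicit false

open Finset

open Pool.Agent.C52.RB13 (B13)
open Pool.Agent.C52.RP4 (P4)
open Pool.Agent.C52.RP8 (P8)

namespace Pool.Agent.C52.RA4

private theorem sum_inj_le (n : ℕ) (S : Finset ℝ) (h0 : ∀ x ∈ S, 0 ≤ x ∧ x < 1)
    (hs : ∀ x ∈ S, ∀ y ∈ S, x ≠ y → 1 / (4 : ℝ) ^ n ≤ |x - y|)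
    (F : ℝ → ℝ) (G : ℕ → ℝ) (hG : ∀ c, 0 ≤ G c)
    (hF : ∀ (c : ℕ) (x : ℝ), (c : ℝ) / 4 ^ n ≤ x → x ≤ ((c : ℝ) + 1) / 4 ^ n → F x ≤ G c) :
    ∑ x ∈ S, F x ≤ ∑ c ∈ range (4 ^ n), G c := by
  have h4 : (0 : ℝ) < 4 ^ n := by positivity
  have hcell : ∀ x ∈ S, ((⌊4 ^ n * x⌋₊ : ℕ) : ℝ) ≤ 4 ^ n * x ∧
      4 ^ n * x < ((⌊4 ^ n * x⌋₊ : ℕ) : ℝ) + 1 := by
    intro x hx
    exact ⟨Nat.floor_le (mul_nonneg h4.le (h0 x hx).1), Nat.lt_floor_add_one _⟩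
  have hinj : Set.InjOn (fun x : ℝ => ⌊4 ^ n * x⌋₊) (S : Set ℝ) := by
    intro x hx y hy hxy
    have hxy' : ⌊4 ^ n * x⌋₊ = ⌊4 ^ n * y⌋₊ := hxy
    by_contra hne
    have h1 := hs x hx y hy hne
    have hcx := hcell x hx
    have hcy := hcell y hy
    rw [hxy'] at hcx
    have h2 : |4 ^ n * x - 4 ^ n * y| < 1 := by
      rw [abs_lt]; constructor <;> linarith [hcx.1, hcx.2, hcy.1, hcy.2]
    have h3 : |4 ^ n * x - 4 ^ n * y| = 4 ^ n * |x - y| := by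
      rw [← mul_sub, abs_mul, abs_of_pos h4]
    rw [h3] at h2
    rw [div_le_iff₀ h4] at h1
    linarith [mul_comm (4 ^ n : ℝ) |x - y|]
  calc ∑ x ∈ S, F x ≤ ∑ x ∈ S, G ⌊4 ^ n * x⌋₊ := by
        apply Finset.sum_le_sum
        intro x hx
        have hc := hcell x hx
        apply hF
        · rw [div_le_iff₀ h4]; linarith [hc.1, mul_comm (4 ^ n : ℝ) x]
        · rw [le_div_iff₀ h4]; linarith [hc.2, mul_comm (4 ^ n : ℝ) x]
    _ = ∑ c ∈ S.image (fun x : ℝ => ⌊4 ^ n * x⌋₊), G c := by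
        rw [Finset.sum_image hinj]
    _ ≤ ∑ c ∈ range (4 ^ n), G c := by
        apply Finset.sum_le_sum_of_subset_of_nonneg
        · intro c hc
          rw [Finset.mem_image] at hc
          obtain ⟨x, hx, rfl⟩ := hc
          rw [Finset.mem_range]
          have hc := hcell x hx
          have h5 : ((⌊4 ^ n * x⌋₊ : ℕ) : ℝ) < ((4 ^ n : ℕ) : ℝ) := by
            push_cast
            have := (h0 x hx).2
            nlinarith [hc.1]
          exact_mod_cast h5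
        · intro c _ _
          exact hG c

/-- Row A4.  Separated points.
Recipe: each cell `[c/4^n, (c+1)/4^n)` contains at most one point of `S` (two at the ends: at most `2`), P8, P4. -/
theorem A4 (t : ℕ) (ht : 1 ≤ t) : ∃ C : ℝ, 0 < C ∧ ∀ (n : ℕ) (S : Finset ℝ),
    (∀ x ∈ S, 0 ≤ x ∧ x < 1) → (∀ x ∈ S, ∀ y ∈ S, x ≠ y → 1 / (4 : ℝ) ^ n ≤ |x - y|) →
    ∑ x ∈ S, GG (1 / 4) n x ^ t ≤ C * (1 + 3 * (7 / 8 : ℝ) ^ t) ^ n ∧
    ∑ x ∈ S, |GG (1 / 3) n x| ^ t ≤ C * (1 + 3 * (7 / 8 : ℝ) ^ t) ^ n := by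
  obtain ⟨C, hC, hP⟩ := P4 t ht
  refine ⟨C, hC, ?_⟩
  intro n S h0 hs
  obtain ⟨_, _, _, hgf, _⟩ := B13
  have hP := hP n
  constructor
  · refine le_trans (sum_inj_le n S h0 hs (fun x => GG (1 / 4) n x ^ t)
      (fun c => ∏ i ∈ range n, (gf (1 / 4) (4 ^ i * (c : ℝ) / 4 ^ n) ^ t + 5 * t * 4 ^ i / 4 ^ n))
      ?_ ?_) hP.1
    · intro c
      apply Finset.prod_nonneg
      intro i _
      have := hgf (1 / 4) (4 ^ i * (c : ℝ) / 4 ^ n) (by norm_num) (le_refl _)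
      positivity
    · intro c x h1 h2
      have h := ((P8 n (c : ℤ) x (by push_cast; exact h1) (by push_cast; exact h2)).2 t ht).1
      push_cast at h
      exact h
  · refine le_trans (sum_inj_le n S h0 hs (fun x => |GG (1 / 3) n x| ^ t)
      (fun c => ∏ i ∈ range n, (|gf (1 / 3) (4 ^ i * (c : ℝ) / 4 ^ n)| ^ t + 5 * t * 4 ^ i / 4 ^ n))
      ?_ ?_) hP.2
    · intro c
      apply Finset.prod_nonneg
      intro i _
      positivity
    · intro c x h1 h2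
      have h := ((P8 n (c : ℤ) x (by push_cast; exact h1) (by push_cast; exact h2)).2 t ht).2
      push_cast at h
      exact h

end Pool.Agent.C52.RA4
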