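import Pool.Agent.Lib.MP_c52340_c5.Defs


set_option autoImplicit false

open Finset


namespace Pool.Agent.C52.RB2

private theorem mem_succ' (n : ℕ) (m : ℤ) :
    m ∈ Lset (n + 1) ↔ ∃ y ∈ Lset n, ∃ t ∈ dig, 4 * y + t = m := by
  have hdef : Lset (n + 1) = (Lset n ×ˢ dig).image (fun p => 4 * p.1 + p.2) := rfl
  rw [hdef]
  simp only [Finset.mem_image, Finset.mem_product, Prod.exists]
  constructor
  · rintro ⟨a, b, ⟨ha, hb⟩, h⟩
    exact ⟨a, ha, b, hb, h⟩
  · rintro ⟨a, ha, b, hb, h⟩
    exact ⟨a, b, ⟨ha, hb⟩, h⟩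

private theorem mem_dig' (t : ℤ) : t ∈ dig ↔ t = -1 ∨ t = 0 ∨ t = 1 := by
  simp [dig]

/-- Row B2.  Elementary facts on `Lset`: bound, cardinality, symmetry, zero, inclusion in `InL`.
Recipe: induction on `n`; for the last one build the digit function. -/
theorem B2 :
    (∀ n : ℕ, ∀ m ∈ Lset n, 3 * |m| ≤ (4 : ℤ) ^ n - 1) ∧
    (∀ n : ℕ, (Lset n).card = 3 ^ n) ∧
    (∀ n : ℕ, ∀ m ∈ Lset n, -m ∈ Lset n) ∧
    (∀ n : ℕ, (0 : ℤ) ∈ Lset n) ∧
    (∀ n : ℕ, ∀ m ∈ Lset n, InL m) := by
  refine ⟨?_, ?_, ?_, ?_, ?_⟩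
  · intro n
    induction n with
    | zero =>
      intro m hm
      have : m = 0 := by simpa [Lset] using hm
      subst this; simp
    | succ n ih =>
      intro m hm
      obtain ⟨y, hy, t, ht, rfl⟩ := (mem_succ' n m).1 hm
      have h1 := ih y hy
      rw [mem_dig'] at ht
      have h2 : |4 * y + t| ≤ 4 * |y| + 1 := by
        have := abs_add_le (4 * y) t
        have h3 : |4 * y| = 4 * |y| := by rw [abs_mul]; norm_num
        have h4 : |t| ≤ 1 := by
          rcases ht with rfl | rfl | rfl <;> norm_num
        linarith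
      have h5 : (4 : ℤ) ^ (n + 1) = 4 * 4 ^ n := by ring
      rw [h5]; linarith
  · intro n
    induction n with
    | zero => simp [Lset]
    | succ n ih =>
      have hdef : Lset (n + 1) = (Lset n ×ˢ dig).image (fun p => 4 * p.1 + p.2) := rfl
      rw [hdef, Finset.card_image_of_injOn, Finset.card_product, ih]
      · have : dig.card = 3 := by decide
        rw [this]; ring
      · rintro ⟨a, b⟩ h1 ⟨c, d⟩ h2 h
        simp only [Finset.coe_product, Set.mem_prod, Finset.mem_coe] at h1 h2
        have hb := (mem_dig' b).1 h1.2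
        have hd := (mem_dig' d).1 h2.2
        simp only at h
        have : a = c ∧ b = d := by omega
        rw [this.1, this.2]
  · intro n
    induction n with
    | zero =>
      intro m hm
      have : m = 0 := by simpa [Lset] using hm
      subst this; simp [Lset]
    | succ n ih =>
      intro m hm
      obtain ⟨y, hy, t, ht, rfl⟩ := (mem_succ' n m).1 hm
      refine (mem_succ' n _).2 ⟨-y, ih y hy, -t, ?_, by ring⟩
      rw [mem_dig'] at ht ⊢
      omega
  · intro n
    induction n with
    | zero => simp [Lset]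
    | succ n ih =>
      exact (mem_succ' n _).2 ⟨0, ih, 0, by simp [dig], by ring⟩
  · intro n
    induction n with
    | zero =>
      intro m hm
      have : m = 0 := by simpa [Lset] using hm
      subst this
      exact ⟨0, fun _ => 0, fun _ => Or.inr (Or.inl rfl), by simp⟩
    | succ n ih =>
      intro m hm
      obtain ⟨y, hy, t, ht, rfl⟩ := (mem_succ' n m).1 hm
      obtain ⟨r, d, hd, hy'⟩ := ih y hy
      refine ⟨r + 1, fun i => Nat.casesOn i t d, ?_, ?_⟩
      · intro i
        cases i with
        | zero => exact (mem_dig' t).1 ht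
        | succ i => exact hd i
      · rw [Finset.sum_range_succ', hy', Finset.mul_sum]
        simp only [pow_zero, mul_one]
        congr 1
        refine Finset.sum_congr rfl fun i _ => ?_
        ring

end Pool.Agent.C52.RB2
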