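import Pool.Agent.Lib.MP_c52340_c5.Defs


set_option autoImplicit false

open Finset


namespace Pool.Agent.C52.RB7

/-- Row B7.  `ee` is a character.  (`Complex.exp` computations.) -/
theorem B7 :
    (∀ x y : ℝ, ee (x + y) = ee x * ee y) ∧ (∀ x : ℝ, ‖ee x‖ = 1) ∧ (∀ n : ℤ, ee n = 1) ∧
    (∀ x : ℝ, (starRingEnd ℂ) (ee x) = ee (-x)) ∧
    (∀ x : ℝ, ee x + ee (-x) = (2 * Real.cos (2 * Real.pi * x) : ℝ)) := by
  refine ⟨?_, ?_, ?_, ?_, ?_⟩
  · intro x y
    unfold ee
    rw [← Complex.exp_add]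
    congr 1
    push_cast
    ring
  · intro x
    unfold ee
    have e : (2 * (Real.pi : ℂ) * (x : ℂ) * Complex.I) = ((2 * Real.pi * x : ℝ) : ℂ) * Complex.I := by
      push_cast; ring
    rw [e]
    exact Complex.norm_exp_ofReal_mul_I _
  · intro n
    unfold ee
    rw [Complex.exp_eq_one_iff]
    exact ⟨n, by push_cast; ring⟩
  · intro x
    unfold ee
    rw [← Complex.exp_conj]
    congr 1
    simp only [map_mul, Complex.conj_I, Complex.conj_ofReal, map_ofNat]
    push_cast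
    ring
  · intro x
    unfold ee
    have e1 : (2 * (Real.pi : ℂ) * (x : ℂ) * Complex.I) = ((2 * Real.pi * x : ℝ) : ℂ) * Complex.I := by
      push_cast; ring
    have e2 : (2 * (Real.pi : ℂ) * ((-x : ℝ) : ℂ) * Complex.I) =
        -((2 * Real.pi * x : ℝ) : ℂ) * Complex.I := by
      push_cast; ring
    rw [e1, e2]
    push_cast
    rw [Complex.cos]
    ring

end Pool.Agent.C52.RB7
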