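import Pool.Agent.Lib.MP_c52340_c5.Defs


set_option autoImplicit false

open Finset


namespace Pool.Agent.C52.RB1

/-- Row B1.  Sums over `Lset (n+1)`, low digit split off.
Recipe: `Lset (n+1)` is an image; `Finset.sum_image` (the map `(m, t) ↦ 4 m + t` is injective on
`Lset n ×ˢ dig`: for `t, t' ∈ {-1,0,1}`, `4 (m - m') = t' - t` forces `m = m'`; `omega` after
`simp [dig]`) and `Finset.sum_product`. -/
theorem B1 {A : Type*} [AddCommMonoid A] (n : ℕ) (F : ℤ → A) :
    ∑ m ∈ Lset (n + 1), F m = ∑ m ∈ Lset n, ∑ t ∈ dig, F (4 * m + t) := by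
  have h : Lset (n + 1) = (Lset n ×ˢ dig).image (fun p => 4 * p.1 + p.2) := rfl
  rw [h, Finset.sum_image, Finset.sum_product]
  rintro ⟨m, t⟩ hm ⟨m', t'⟩ hm' heq
  simp only [dig, Finset.coe_product, Set.mem_prod, Finset.mem_coe, Finset.mem_insert,
    Finset.mem_singleton] at hm hm' heq
  obtain ⟨-, ht⟩ := hm
  obtain ⟨-, ht'⟩ := hm'
  have h1 : m = m' ∧ t = t' := by
    rcases ht with rfl | rfl | rfl <;> rcases ht' with rfl | rfl | rfl <;> constructor <;> omega
  rw [h1.1, h1.2]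

end Pool.Agent.C52.RB1
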