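import Pool.Agent.Lib.MP_c52340_c5.Defs


set_option autoImplicit false

open Finset


namespace Pool.Agent.C52.RB3

/-- Row B3.  Digit recursion for the law `wG`.
Recipe: in the defining sum only the digit `t` survives (`4 ∣ 4 y + t - t'` iff `t = t'`). -/
theorem B3 (p : ℝ) (n : ℕ) (y t : ℤ) (ht : t ∈ dig) :
    wG p (n + 1) (4 * y + t) = pg p t * wG p n y := by
  have hdef : wG p (n + 1) (4 * y + t) =
      ∑ s ∈ dig, if (4 : ℤ) ∣ (4 * y + t) - s then pg p s * wG p n (((4 * y + t) - s) / 4) else 0 :=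
    rfl
  rw [hdef, Finset.sum_eq_single_of_mem t ht]
  · have h1 : (4 * y + t) - t = 4 * y := by ring
    rw [h1, if_pos (Dvd.intro _ rfl)]
    congr 2
    omega
  · intro s hs hst
    rw [if_neg]
    simp only [dig, Finset.mem_insert, Finset.mem_singleton] at ht hs
    omega

end Pool.Agent.C52.RB3
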