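import Pool.Agent.Lib.MP_c52340_c5.Defs
import Pool.Agent.Lib.MP_c52340_c5.B1
import Pool.Agent.Lib.MP_c52340_c5.B3


set_option autoImplicit false

open Finset

open Pool.Agent.C52.RB1 (B1)
open Pool.Agent.C52.RB3 (B3)

namespace Pool.Agent.C52.RB4

private theorem mem_succ'' (n : ℕ) (m : ℤ) :
    m ∈ Lset (n + 1) ↔ ∃ y ∈ Lset n, ∃ t ∈ dig, 4 * y + t = m := by
  have hdef : Lset (n + 1) = (Lset n ×ˢ dig).image (fun p => 4 * p.1 + p.2) := rfl
  rw [hdef]
  simp only [Finset.mem_image, Finset.mem_product, Prod.exists]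
  constructor
  · rintro ⟨a, b, ⟨ha, hb⟩, h⟩
    exact ⟨a, ha, b, hb, h⟩
  · rintro ⟨a, ha, b, hb, h⟩
    exact ⟨a, b, ⟨ha, hb⟩, h⟩

private theorem mem_dig'' (t : ℤ) : t ∈ dig ↔ t = -1 ∨ t = 0 ∨ t = 1 := by
  simp [dig]

private theorem wG_succ' (p : ℝ) (n : ℕ) (y : ℤ) : wG p (n + 1) y =
    ∑ t ∈ dig, if (4 : ℤ) ∣ y - t then pg p t * wG p n ((y - t) / 4) else 0 := rfl

private theorem wG_zero' (p : ℝ) (y : ℤ) : wG p 0 y = if y = 0 then 1 else 0 := rfl

private theorem sum_dig' (f : ℤ → ℝ) : ∑ t ∈ dig, f t = f (-1) + f 0 + f 1 := by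
  simp [dig, ← add_assoc]

/-- Row B4.  Sign, support, total mass, values of `wG`.
Recipe: induction on `n` with B1, B3; every `y ∈ Lset (n+1)` is `4 y' + t`. -/
theorem B4 :
    (∀ p : ℝ, 0 ≤ p → p ≤ 1 / 2 → ∀ n y, 0 ≤ wG p n y) ∧
    (∀ p : ℝ, ∀ n y, wG p n y ≠ 0 → y ∈ Lset n) ∧
    (∀ p : ℝ, ∀ n, ∑ y ∈ Lset n, wG p n y = 1) ∧
    (∀ n, ∀ m ∈ Lset n, wG (1 / 3) n m = (1 / 3) ^ n) ∧
    (∀ n, ∀ y ∈ Lset n, (1 / 4) ^ n ≤ wG (1 / 4) n y) ∧
    (∀ n y, wG (1 / 4) n y ≤ (1 / 2) ^ n) ∧
    (∀ n, wG (1 / 4) n 0 = (1 / 2) ^ n) := by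
  have hnn : ∀ p : ℝ, 0 ≤ p → p ≤ 1 / 2 → ∀ n y, 0 ≤ wG p n y := by
    intro p hp0 hp1 n
    induction n with
    | zero => intro y; rw [wG_zero']; split_ifs <;> norm_num
    | succ n ih =>
      intro y
      rw [wG_succ']
      refine Finset.sum_nonneg fun t _ => ?_
      split_ifs
      · refine mul_nonneg ?_ (ih _)
        unfold pg
        split_ifs
        · linarith
        · exact hp0
      · exact le_refl _
  refine ⟨hnn, ?_, ?_, ?_, ?_, ?_, ?_⟩
  · intro p n
    induction n with
    | zero =>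
      intro y hy
      rw [wG_zero'] at hy
      have : y = 0 := by
        by_contra h
        rw [if_neg h] at hy
        exact hy rfl
      subst this; simp [Lset]
    | succ n ih =>
      intro y hy
      rw [wG_succ'] at hy
      obtain ⟨t, ht, h⟩ := Finset.exists_ne_zero_of_sum_ne_zero hy
      by_cases hd : (4 : ℤ) ∣ y - t
      · rw [if_pos hd] at h
        have h1 := ih _ (right_ne_zero_of_mul h)
        exact (mem_succ'' n y).2 ⟨(y - t) / 4, h1, t, ht, by omega⟩
      · rw [if_neg hd] at h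
        exact absurd rfl h
  · intro p n
    induction n with
    | zero => simp [Lset, wG_zero']
    | succ n ih =>
      rw [B1]
      calc ∑ m ∈ Lset n, ∑ t ∈ dig, wG p (n + 1) (4 * m + t)
          = ∑ m ∈ Lset n, ∑ t ∈ dig, pg p t * wG p n m := by
            refine Finset.sum_congr rfl fun m _ => Finset.sum_congr rfl fun t ht => ?_
            exact B3 p n m t ht
        _ = ∑ m ∈ Lset n, wG p n m := by
            refine Finset.sum_congr rfl fun m _ => ?_
            rw [sum_dig']
            simp only [pg]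
            norm_num
            ring
        _ = 1 := ih
  · intro n
    induction n with
    | zero =>
      intro m hm
      have : m = 0 := by simpa [Lset] using hm
      subst this; simp [wG_zero']
    | succ n ih =>
      intro m hm
      obtain ⟨y, hy, t, ht, rfl⟩ := (mem_succ'' n m).1 hm
      rw [B3 _ _ _ _ ht, ih y hy, pow_succ']
      congr 1
      unfold pg
      split_ifs <;> norm_num
  · intro n
    induction n with
    | zero =>
      intro m hm
      have : m = 0 := by simpa [Lset] using hm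
      subst this; simp [wG_zero']
    | succ n ih =>
      intro m hm
      obtain ⟨y, hy, t, ht, rfl⟩ := (mem_succ'' n m).1 hm
      rw [B3 _ _ _ _ ht, pow_succ']
      have h1 := ih y hy
      have h2 : (1 / 4 : ℝ) ≤ pg (1 / 4) t := by
        unfold pg
        split_ifs <;> norm_num
      exact mul_le_mul h2 h1 (by positivity) (le_trans (by norm_num) h2)
  · intro n
    induction n with
    | zero => intro y; rw [wG_zero']; split_ifs <;> norm_num
    | succ n ih =>
      intro y
      have h0 : ∀ z, 0 ≤ wG (1 / 4) n z := hnn (1 / 4) (by norm_num) (by norm_num) n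
      rw [wG_succ', sum_dig', pow_succ']
      have hp1 : pg (1 / 4) (-1) = 1 / 4 := by unfold pg; norm_num
      have hp2 : pg (1 / 4) 0 = 1 / 2 := by unfold pg; norm_num
      have hp3 : pg (1 / 4) 1 = 1 / 4 := by unfold pg; norm_num
      rw [hp1, hp2, hp3]
      have hpos : (0 : ℝ) < (1 / 2) ^ n := by positivity
      have e1 := ih ((y - -1) / 4)
      have e2 := ih ((y - 0) / 4)
      have e3 := ih ((y - 1) / 4)
      by_cases ha : (4 : ℤ) ∣ y - -1
      · have hb : ¬ (4 : ℤ) ∣ y - 0 := by omega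
        have hc : ¬ (4 : ℤ) ∣ y - 1 := by omega
        rw [if_pos ha, if_neg hb, if_neg hc]
        linarith
      · by_cases hb : (4 : ℤ) ∣ y - 0
        · have hc : ¬ (4 : ℤ) ∣ y - 1 := by omega
          rw [if_neg ha, if_pos hb, if_neg hc]
          linarith
        · by_cases hc : (4 : ℤ) ∣ y - 1
          · rw [if_neg ha, if_neg hb, if_pos hc]
            linarith
          · rw [if_neg ha, if_neg hb, if_neg hc]
            linarith
  · intro n
    induction n with
    | zero => simp [wG_zero']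
    | succ n ih =>
      have h := B3 (1 / 4) n 0 0 (by simp [dig])
      have h0 : (4 : ℤ) * 0 + 0 = 0 := by norm_num
      rw [h0] at h
      rw [h, ih, pow_succ']
      congr 1
      unfold pg
      norm_num

end Pool.Agent.C52.RB4
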