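import Pool.Agent.Lib.MP_c52340_c5.Defs
import Pool.Agent.Lib.MP_c52340_c5.B1
import Pool.Agent.Lib.MP_c52340_c5.B3
import Pool.Agent.Lib.MP_c52340_c5.B7


set_option autoImplicit false

open Finset

open Pool.Agent.C52.RB1 (B1)
open Pool.Agent.C52.RB3 (B3)
open Pool.Agent.C52.RB7 (B7)

namespace Pool.Agent.C52.RB8

private theorem b8_dig (p x : ℝ) :
    ∑ t ∈ dig, (pg p t : ℂ) * ee (x * (t : ℤ)) = (gf p x : ℂ) := by
  obtain ⟨h1, h2, h3, h4, h5⟩ := B7
  have h0 : ee (x * ((0 : ℤ) : ℝ)) = 1 := by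
    have := h3 0
    rw [Int.cast_zero] at this
    rw [Int.cast_zero, mul_zero]
    exact this
  have e1 : ee (x * ((1 : ℤ) : ℝ)) = ee x := by
    rw [Int.cast_one, mul_one]
  have e2 : ee (x * ((-1 : ℤ) : ℝ)) = ee (-x) := by
    congr 1
    push_cast
    ring
  have hs : ∑ t ∈ dig, (pg p t : ℂ) * ee (x * (t : ℤ)) =
      (pg p (-1) : ℂ) * ee (x * ((-1 : ℤ) : ℝ)) + ((pg p 0 : ℂ) * ee (x * ((0 : ℤ) : ℝ)) +
        (pg p 1 : ℂ) * ee (x * ((1 : ℤ) : ℝ))) := by
    unfold dig
    rw [Finset.sum_insert (by decide), Finset.sum_insert (by decide), Finset.sum_singleton]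
  rw [hs, h0, e1, e2]
  have p0 : pg p 0 = 1 - 2 * p := by simp [pg]
  have p1 : pg p 1 = p := by simp [pg]
  have p2 : pg p (-1) = p := by simp [pg]
  rw [p0, p1, p2]
  have h6 := h5 x
  unfold gf
  push_cast at h6 ⊢
  linear_combination (p : ℂ) * h6

/-- Row B8.  `GG p n` is the characteristic function of `wG p n`.
Recipe: induction on `n` with B1, B3, B7: `∑_{t ∈ dig} pg p t * ee (x t) = gf p x`, and
`GG p (n+1) x = gf p x * GG p n (4 x)` (`Finset.prod_range_succ'`). -/
theorem B8 (p : ℝ) (n : ℕ) (x : ℝ) :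
    ∑ y ∈ Lset n, (wG p n y : ℂ) * ee (x * y) = (GG p n x : ℂ) := by
  induction n generalizing x with
  | zero =>
    obtain ⟨h1, h2, h3, h4, h5⟩ := B7
    have h0 : ee (x * ((0 : ℤ) : ℝ)) = 1 := by
      have := h3 0
      rw [Int.cast_zero] at this
      rw [Int.cast_zero, mul_zero]
      exact this
    have : Lset 0 = {0} := rfl
    rw [this, Finset.sum_singleton, h0]
    simp [wG, GG]
  | succ n ih =>
    obtain ⟨h1, h2, h3, h4, h5⟩ := B7
    rw [B1]
    have hG : GG p (n + 1) x = gf p x * GG p n (4 * x) := by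
      unfold GG
      rw [Finset.prod_range_succ', mul_comm]
      congr 1
      · rw [pow_zero, one_mul]
      · refine Finset.prod_congr rfl fun i _ => ?_
        congr 1
        ring
    rw [hG]
    push_cast
    rw [← ih (4 * x), ← b8_dig p x, Finset.sum_mul_sum, Finset.sum_comm]
    refine Finset.sum_congr rfl fun t ht => Finset.sum_congr rfl fun m _ => ?_
    rw [B3 p n m t ht]
    have e1 : x * (4 * (m : ℝ) + (t : ℝ)) = x * (t : ℝ) + 4 * x * (m : ℝ) := by
      ring
    rw [e1, h1]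
    push_cast
    ring

end Pool.Agent.C52.RB8
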