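import Pool.Agent.Lib.MP_c52340_c5.Defs
import Pool.Agent.Lib.MP_c52340_c5.B4
import Pool.Agent.Lib.MP_c52340_c5.B8


set_option autoImplicit false

open Finset

open Pool.Agent.C52.RB4 (B4)
open Pool.Agent.C52.RB8 (B8)

namespace Pool.Agent.C52.RB9

/-- Row B9.  The uniform case.  Recipe: B8 with `p = 1/3`, B4. -/
theorem B9 (N : ℕ) (x : ℝ) :
    avgC N (fun m => ee (x * m)) = (GG (1 / 3) N x : ℂ) := by
  have h8 := B8 (1 / 3) N x
  have h4 := B4.2.2.2.1 N
  rw [← h8]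
  unfold avgC
  have e : ∀ y ∈ Lset N, ((wG (1 / 3) N y : ℝ) : ℂ) * ee (x * y) = (1 / 3 : ℂ) ^ N * ee (x * y) := by
    intro y hy
    rw [h4 y hy]
    push_cast
    ring
  rw [Finset.sum_congr rfl e, ← Finset.mul_sum]
  first
    | (field_simp; done)
    | (rw [one_div, inv_pow]; ring)

end Pool.Agent.C52.RB9
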