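import Pool.Agent.Lib.MP_c52340_c5.Defs
import Pool.Agent.Lib.MP_c52340_c5.B2
import Pool.Agent.Lib.MP_c52340_c5.B7
import Pool.Agent.Lib.MP_c52340_c5.B9


set_option autoImplicit false

open Finset

open Pool.Agent.C52.RB2 (B2)
open Pool.Agent.C52.RB7 (B7)
open Pool.Agent.C52.RB9 (B9)

namespace Pool.Agent.C52.RA5

private theorem sum_odds {A : Type*} [AddCommMonoid A] (N : ℕ) (hN : 1 ≤ N) (F : ℤ → A) :
    ∑ k ∈ Odds N, F k = ∑ j ∈ range (4 ^ N / 2), F (2 * (j : ℤ) + 1) := by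
  have hev : (4 : ℕ) ^ N = 2 * (4 ^ N / 2) := by
    have : 2 ∣ 4 ^ N := dvd_pow (by norm_num) (by omega)
    omega
  have hevz : (4 : ℤ) ^ N = 2 * ((4 ^ N / 2 : ℕ) : ℤ) := by exact_mod_cast hev
  symm
  apply Finset.sum_nbij' (fun j : ℕ => 2 * (j : ℤ) + 1) (fun k : ℤ => (k / 2).toNat)
  · intro j hj
    rw [Finset.mem_range] at hj
    rw [Odds, Finset.mem_filter, Finset.mem_Ico]
    refine ⟨⟨by positivity, ?_⟩, ⟨j, rfl⟩⟩
    rw [hevz]
    have : (j : ℤ) < ((4 ^ N / 2 : ℕ) : ℤ) := by exact_mod_cast hj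
    linarith
  · intro k hk
    rw [Odds, Finset.mem_filter, Finset.mem_Ico] at hk
    rw [Finset.mem_range]
    obtain ⟨⟨h0, h1⟩, ⟨l, hl⟩⟩ := hk
    rw [hevz] at h1
    omega
  · intro j _
    omega
  · intro k hk
    rw [Odds, Finset.mem_filter, Finset.mem_Ico] at hk
    obtain ⟨⟨h0, h1⟩, ⟨l, hl⟩⟩ := hk
    omega
  · intro j _
    rfl

private theorem norm_ee_sub_one (θ : ℝ) : 4 * |θ - round θ| ≤ ‖ee θ - 1‖ := by
  obtain ⟨hadd, hnorm, hint, _, _⟩ := B7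
  set s := θ - round θ with hs
  have h1 : ee θ = ee s := by
    have : θ = s + ((round θ : ℤ) : ℝ) := by rw [hs]; ring
    rw [this, hadd, hint, mul_one]
  have hs2 : |s| ≤ 1 / 2 := abs_sub_round θ
  rw [h1]
  have h2 : ‖ee s - 1‖ = 2 * |Real.sin (Real.pi * s)| := by
    have h3 : ee s = Complex.exp (Complex.I * ((2 * Real.pi * s : ℝ) : ℂ)) := by
      unfold ee
      congr 1
      push_cast
      ring
    rw [h3, Complex.norm_exp_I_mul_ofReal_sub_one, Real.norm_eq_abs, abs_mul, abs_two]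
    congr 3
    ring
  rw [h2]
  have h4 : |Real.sin (Real.pi * s)| = Real.sin (Real.pi * |s|) := by
    rcases le_total 0 s with h | h
    · rw [abs_of_nonneg h]
      apply abs_of_nonneg
      apply Real.sin_nonneg_of_nonneg_of_le_pi
      · positivity
      · rw [abs_of_nonneg h] at hs2
        nlinarith [Real.pi_pos]
    · rw [abs_of_nonpos h] at hs2 ⊢
      have e : Real.sin (Real.pi * s) = - Real.sin (Real.pi * -s) := by
        rw [mul_neg, Real.sin_neg]; ring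
      rw [e, abs_neg]
      apply abs_of_nonneg
      apply Real.sin_nonneg_of_nonneg_of_le_pi
      · have : 0 ≤ -s := by linarith
        positivity
      · nlinarith [Real.pi_pos]
  rw [h4]
  have h5 := Real.mul_le_sin (x := Real.pi * |s|) (by positivity) (by nlinarith [Real.pi_pos])
  have h6 : 2 / Real.pi * (Real.pi * |s|) = 2 * |s| := by
    field_simp
  rw [h6] at h5
  linarith

private theorem geo_bound (J : ℕ) (θ : ℝ) (h : 0 < |θ - round θ|) :
    ‖∑ j ∈ range J, ee (j * θ)‖ ≤ 1 / (2 * |θ - round θ|) := by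
  obtain ⟨hadd, hnorm, hint, _, _⟩ := B7
  have h1 := norm_ee_sub_one θ
  have hpow : ∀ j : ℕ, ee (j * θ) = ee θ ^ j := by
    intro j
    induction j with
    | zero => simp [ee]
    | succ j ih =>
      rw [pow_succ, ← ih, ← hadd]
      congr 1
      push_cast
      ring
  have hne : ee θ ≠ 1 := by
    intro h2
    rw [h2, sub_self, norm_zero] at h1
    linarith
  simp_rw [hpow]
  rw [geom_sum_eq hne, norm_div]
  have h3 : ‖ee θ ^ J - 1‖ ≤ 2 := by
    calc ‖ee θ ^ J - 1‖ ≤ ‖ee θ ^ J‖ + ‖(1 : ℂ)‖ := norm_sub_le _ _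
      _ = 2 := by rw [norm_pow, hnorm, one_pow, norm_one]; norm_num
  calc ‖ee θ ^ J - 1‖ / ‖ee θ - 1‖ ≤ 2 / (4 * |θ - round θ|) := by
        apply div_le_div₀ (by norm_num) h3 (by linarith) h1
    _ = 1 / (2 * |θ - round θ|) := by
        field_simp
        norm_num

private theorem odd_sum_le (N : ℕ) (x : ℝ) : ‖∑ k ∈ Odds N, ee ((k : ℝ) * x)‖ ≤ 4 ^ N := by
  obtain ⟨hadd, hnorm, hint, _, _⟩ := B7
  have hcard : ((Odds N).card : ℝ) ≤ 4 ^ N := by
    have h1 : (Odds N).card ≤ (Ico (0 : ℤ) (4 ^ N)).card := Finset.card_filter_le _ _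
    rw [Int.card_Ico] at h1
    have h2 : ((4 : ℤ) ^ N - 0).toNat = 4 ^ N := by
      rw [sub_zero]; zify; rw [Int.toNat_of_nonneg (by positivity)]
    rw [h2] at h1
    exact_mod_cast h1
  calc ‖∑ k ∈ Odds N, ee ((k : ℝ) * x)‖ ≤ ∑ k ∈ Odds N, ‖ee ((k : ℝ) * x)‖ := norm_sum_le _ _
    _ = (Odds N).card := by
        rw [Finset.sum_congr rfl (fun k _ => hnorm _)]
        simp
    _ ≤ 4 ^ N := hcard

private theorem odd_sum_far (N g : ℕ) (x : ℝ)
    (h : 4 ^ g / (2 * 4 ^ N) < |2 * x - round (2 * x)|) :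
    ‖∑ k ∈ Odds N, ee ((k : ℝ) * x)‖ ≤ 4 ^ N / 4 ^ g := by
  obtain ⟨hadd, hnorm, hint, _, _⟩ := B7
  rcases Nat.eq_zero_or_pos N with hN | hN
  · have : Odds N = ∅ := by
      rw [hN, Odds]
      ext k
      simp only [Finset.mem_filter, Finset.mem_Ico, Finset.notMem_empty, iff_false]
      rintro ⟨⟨h1, h2⟩, ⟨l, hl⟩⟩
      rw [pow_zero] at h2
      omega
    rw [this]
    simp
    positivity
  rw [sum_odds N hN (fun k : ℤ => ee ((k : ℝ) * x))]
  have h1 : ∑ j ∈ range (4 ^ N / 2), ee (((2 * (j : ℤ) + 1 : ℤ) : ℝ) * x) =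
      ee x * ∑ j ∈ range (4 ^ N / 2), ee (j * (2 * x)) := by
    rw [Finset.mul_sum]
    apply Finset.sum_congr rfl
    intro j _
    rw [← hadd]
    congr 1
    push_cast
    ring
  rw [h1, norm_mul, hnorm, one_mul]
  have hpos : (0 : ℝ) < 4 ^ g / (2 * 4 ^ N) := by positivity
  refine le_trans (geo_bound _ _ (lt_trans hpos h)) ?_
  rw [div_le_div_iff₀ (by linarith) (by positivity)]
  rw [div_lt_iff₀ (by positivity)] at h
  linarith

/-- Row A5.  Second moment, first half.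
Recipe: `GG (1/3) N (k β) = avgC N (fun m => ee (k β m))` (B9), so `|·|² = 9^{-N} ∑_{m,m'} ee (k β (m - m'))`;
sum over the odd `k < 4^N`: for each pair a geometric sum with ratio `ee (2 β (m - m'))`, at most
`4^N` and at most `1 / (2 ‖2 β (m-m')‖) ≤ 4^N / 4^g` if `‖2 β (m - m')‖ > 4^g / (2 * 4^N)`. -/
theorem A5 (N g : ℕ) (β : ℝ) :
    ∑ k ∈ Odds N, |GG (1 / 3) N (k * β)| ^ 2 ≤
      4 ^ N / 4 ^ g + 4 ^ N / 9 ^ N * ∑ m' ∈ Lset N,
        (((Lset N).filter (fun m : ℤ => |2 * β * ((m : ℝ) - m') - round (2 * β * ((m : ℝ) - m'))| ≤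
          4 ^ g / (2 * 4 ^ N))).card : ℝ) := by
  obtain ⟨hadd, hnorm, hint, hconj, _⟩ := B7
  have hcardL : (Lset N).card = 3 ^ N := B2.2.1 N
  -- the second moment as a double sum
  have hsq : ∀ k : ℤ, ((|GG (1 / 3) N (k * β)| ^ 2 : ℝ) : ℂ) =
      (1 / 9 ^ N : ℂ) * ∑ m' ∈ Lset N, ∑ m ∈ Lset N, ee ((k : ℝ) * (β * ((m : ℝ) - m'))) := by
    intro k
    have h1 := B9 N ((k : ℝ) * β)
    have h2 : ((|GG (1 / 3) N (k * β)| ^ 2 : ℝ) : ℂ) =
        (GG (1 / 3) N (k * β) : ℂ) * (starRingEnd ℂ) (GG (1 / 3) N (k * β) : ℂ) := by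
      rw [Complex.conj_ofReal, sq_abs]
      push_cast
      ring
    rw [h2, ← h1]
    unfold avgC
    rw [map_div₀, map_sum, div_mul_div_comm, Finset.sum_mul_sum, Finset.sum_comm]
    have h3 : (starRingEnd ℂ) (3 ^ N) = 3 ^ N := by
      rw [map_pow]
      congr 1
      exact Complex.conj_ofReal 3
    rw [h3]
    have h9 : (3 : ℂ) ^ N * 3 ^ N = 9 ^ N := by rw [← mul_pow]; norm_num
    rw [h9, div_eq_mul_one_div, mul_comm]
    congr 1
    apply Finset.sum_congr rfl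
    intro m' _
    apply Finset.sum_congr rfl
    intro m _
    rw [hconj, ← hadd]
    congr 1
    ring
  have htot : ((∑ k ∈ Odds N, |GG (1 / 3) N (k * β)| ^ 2 : ℝ) : ℂ) =
      (1 / 9 ^ N : ℂ) * ∑ m' ∈ Lset N, ∑ m ∈ Lset N,
        ∑ k ∈ Odds N, ee ((k : ℝ) * (β * ((m : ℝ) - m'))) := by
    push_cast
    rw [Finset.sum_congr rfl (fun k _ => by
      have := hsq k
      push_cast at this
      exact this), ← Finset.mul_sum]
    congr 1
    rw [Finset.sum_comm]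
    apply Finset.sum_congr rfl
    intro m' _
    rw [Finset.sum_comm]
  have hnn : 0 ≤ ∑ k ∈ Odds N, |GG (1 / 3) N (k * β)| ^ 2 :=
    Finset.sum_nonneg (fun k _ => by positivity)
  have h1 : ∑ k ∈ Odds N, |GG (1 / 3) N (k * β)| ^ 2 =
      ‖((∑ k ∈ Odds N, |GG (1 / 3) N (k * β)| ^ 2 : ℝ) : ℂ)‖ := by
    rw [Complex.norm_real, Real.norm_eq_abs, abs_of_nonneg hnn]
  rw [h1, htot, norm_mul]
  have hn9 : ‖(1 / 9 ^ N : ℂ)‖ = 1 / 9 ^ N := by
    rw [norm_div, norm_one, norm_pow]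
    norm_num
  rw [hn9]
  have hinner : ∀ m' ∈ Lset N, ‖∑ m ∈ Lset N, ∑ k ∈ Odds N, ee ((k : ℝ) * (β * ((m : ℝ) - m')))‖ ≤
      4 ^ N * (((Lset N).filter (fun m : ℤ => |2 * β * ((m : ℝ) - m') -
        round (2 * β * ((m : ℝ) - m'))| ≤ 4 ^ g / (2 * 4 ^ N))).card : ℝ) + 3 ^ N * (4 ^ N / 4 ^ g) := by
    intro m' _
    refine le_trans (norm_sum_le _ _) ?_
    rw [← Finset.sum_filter_add_sum_filter_not (Lset N) (fun m : ℤ => |2 * β * ((m : ℝ) - m') -
        round (2 * β * ((m : ℝ) - m'))| ≤ 4 ^ g / (2 * 4 ^ N))]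
    apply add_le_add
    · refine le_trans (Finset.sum_le_card_nsmul _ _ (4 ^ N) (fun m _ => odd_sum_le N _)) ?_
      rw [nsmul_eq_mul, mul_comm]
    · refine le_trans (Finset.sum_le_card_nsmul _ _ (4 ^ N / 4 ^ g) (fun m hm => ?_)) ?_
      · rw [Finset.mem_filter] at hm
        apply odd_sum_far
        have := not_le.mp hm.2
        rw [mul_assoc] at this
        exact this
      · rw [nsmul_eq_mul]
        apply mul_le_mul_of_nonneg_right _ (by positivity)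
        have h2 := Finset.card_filter_le (Lset N) (fun m : ℤ => ¬ |2 * β * ((m : ℝ) - m') -
          round (2 * β * ((m : ℝ) - m'))| ≤ 4 ^ g / (2 * 4 ^ N))
        rw [hcardL] at h2
        exact_mod_cast h2
  calc (1 / 9 ^ N : ℝ) * ‖∑ m' ∈ Lset N, ∑ m ∈ Lset N,
        ∑ k ∈ Odds N, ee ((k : ℝ) * (β * ((m : ℝ) - m')))‖
      ≤ (1 / 9 ^ N) * ∑ m' ∈ Lset N, (4 ^ N * (((Lset N).filter (fun m : ℤ =>
        |2 * β * ((m : ℝ) - m') - round (2 * β * ((m : ℝ) - m'))| ≤ 4 ^ g / (2 * 4 ^ N))).card : ℝ) +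
          3 ^ N * (4 ^ N / 4 ^ g)) := by
        apply mul_le_mul_of_nonneg_left _ (by positivity)
        exact le_trans (norm_sum_le _ _) (Finset.sum_le_sum hinner)
    _ = 4 ^ N / 4 ^ g + 4 ^ N / 9 ^ N * ∑ m' ∈ Lset N,
        (((Lset N).filter (fun m : ℤ => |2 * β * ((m : ℝ) - m') - round (2 * β * ((m : ℝ) - m'))| ≤
          4 ^ g / (2 * 4 ^ N))).card : ℝ) := by
        rw [Finset.sum_add_distrib, ← Finset.mul_sum, Finset.sum_const, hcardL, nsmul_eq_mul]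
        have h9 : (9 : ℝ) ^ N = 3 ^ N * 3 ^ N := by rw [← mul_pow]; norm_num
        rw [h9]
        push_cast
        field_simp
        ring

end Pool.Agent.C52.RA5
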