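import Pool.Agent.Lib.MP_c52340_c5.Defs
import Pool.Agent.Lib.MP_c52340_c5.B1


set_option autoImplicit false

open Finset

open Pool.Agent.C52.RB1 (B1)

namespace Pool.Agent.C52.RB5

/-- Row B5.  Concatenation of digit strings, sums.  Recipe: induction on `b` with B1. -/
theorem B5 {A : Type*} [AddCommMonoid A] (a b : ℕ) (F : ℤ → A) :
    ∑ m ∈ Lset (a + b), F m = ∑ m₁ ∈ Lset a, ∑ m₀ ∈ Lset b, F (4 ^ b * m₁ + m₀) := by
  induction b generalizing F with
  | zero =>
    rw [Nat.add_zero]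
    refine Finset.sum_congr rfl fun m _ => ?_
    show F m = ∑ m₀ ∈ ({0} : Finset ℤ), F (4 ^ 0 * m + m₀)
    rw [Finset.sum_singleton, pow_zero, one_mul, add_zero]
  | succ b ih =>
    rw [← Nat.add_assoc, B1, ih (fun m => ∑ t ∈ dig, F (4 * m + t))]
    refine Finset.sum_congr rfl fun m₁ _ => ?_
    rw [B1 b (fun m₀ => F (4 ^ (b + 1) * m₁ + m₀))]
    refine Finset.sum_congr rfl fun m₀ _ => ?_
    refine Finset.sum_congr rfl fun t _ => ?_
    congr 1
    ring

end Pool.Agent.C52.RB5
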