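import Pool.Agent.Lib.MP_c52340_c5.Defs
import Pool.Agent.Lib.MP_c52340_c5.B2
import Pool.Agent.Lib.MP_c52340_c5.B5


set_option autoImplicit false

open Finset

open Pool.Agent.C52.RB2 (B2)
open Pool.Agent.C52.RB5 (B5)

namespace Pool.Agent.C52.RA6

/-- distance to the nearest integer -/
private noncomputable def a6nd (x : ℝ) : ℝ := |x - round x|

private theorem a6nd_le (x : ℝ) (z : ℤ) : a6nd x ≤ |x - z| := round_le x z

private theorem a6nd_sub (x y : ℝ) : a6nd (x - y) ≤ a6nd x + a6nd y := by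
  have h := a6nd_le (x - y) (round x - round y)
  push_cast at h
  calc a6nd (x - y) ≤ |x - y - (round x - round y)| := h
    _ = |(x - round x) - (y - round y)| := by congr 1; ring
    _ ≤ |x - round x| + |y - round y| := abs_sub _ _

private theorem a6nd_neg (x : ℝ) : a6nd (-x) ≤ a6nd x := by
  have h := a6nd_le (-x) (-round x)
  push_cast at h
  calc a6nd (-x) ≤ |-x - -(round x : ℝ)| := h
    _ = |-(x - round x)| := by congr 1; ring
    _ = a6nd x := abs_neg _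

private theorem a6nd_ge {t : ℝ} (ht : |t| ≤ 1 / 2) (z : ℤ) : |t| ≤ a6nd (z + t) := by
  unfold a6nd
  obtain ⟨w, hw⟩ : ∃ w : ℤ, w = round ((z : ℝ) + t) - z := ⟨_, rfl⟩
  have h1 : (z : ℝ) + t - round ((z : ℝ) + t) = t - (w : ℝ) := by
    rw [hw]; push_cast; ring
  rw [h1]
  by_cases hw0 : w = 0
  · simp [hw0]
  · have h2 : (1 : ℝ) ≤ |(w : ℝ)| := by exact_mod_cast Int.one_le_abs hw0
    have h3 := abs_sub_abs_le_abs_sub (w : ℝ) t
    rw [abs_sub_comm (w : ℝ) t] at h3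
    linarith

private theorem a6_key {g r : ℕ} (hg : 1 ≤ g) {θ : ℝ}
    (hθ : ∀ d : ℕ, 1 ≤ d → d ≤ 4 ^ g →
      1 / (((4 : ℝ) ^ g) ^ 2 * ((4 : ℝ) ^ r) ^ 2) < a6nd (θ * d))
    {d₁ : ℕ} (h1 : 1 ≤ d₁) (h1' : d₁ ≤ 4 ^ g)
    (hd₁ : a6nd (θ * d₁) ≤ 1 / (((4 : ℝ) ^ g) ^ 2 * (4 : ℝ) ^ r))
    (hmin : ∀ d : ℕ, 1 ≤ d → d < d₁ → ¬ a6nd (θ * d) ≤ 1 / (((4 : ℝ) ^ g) ^ 2 * (4 : ℝ) ^ r))
    {d : ℤ} (hd : 2 * |(d : ℝ)| ≤ ((4 : ℝ) ^ g) ^ 2 * (4 : ℝ) ^ r)
    (hnd : a6nd (θ * d) ≤ 1 / (((4 : ℝ) ^ g) ^ 2 * (4 : ℝ) ^ r)) :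
    |(d : ℝ)| < (4 : ℝ) ^ g * (4 : ℝ) ^ r := by
  obtain ⟨a, ha⟩ : ∃ a : ℝ, a = (4 : ℝ) ^ g := ⟨_, rfl⟩
  obtain ⟨b, hb⟩ : ∃ b : ℝ, b = (4 : ℝ) ^ r := ⟨_, rfl⟩
  rw [← ha, ← hb] at hd hnd hd₁ hθ hmin ⊢
  have ha4 : 4 ≤ a := by
    rw [ha]
    calc (4 : ℝ) = 4 ^ 1 := by norm_num
      _ ≤ 4 ^ g := pow_le_pow_right₀ (by norm_num) hg
  have hb1 : 1 ≤ b := by rw [hb]; exact one_le_pow₀ (by norm_num)
  have ha0 : 0 < a := by linarith
  have hb0 : 0 < b := by linarith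
  have hd₁a : (d₁ : ℝ) ≤ a := by rw [ha]; exact_mod_cast h1'
  have hd₁1 : (1 : ℝ) ≤ d₁ := by exact_mod_cast h1
  have hd₁0 : (0 : ℝ) < d₁ := by linarith
  obtain ⟨a₁, ha₁⟩ : ∃ a₁ : ℤ, a₁ = round (θ * d₁) := ⟨_, rfl⟩
  obtain ⟨del, hdel⟩ : ∃ del : ℝ, del = θ * d₁ - a₁ := ⟨_, rfl⟩
  have hdelnd : |del| = a6nd (θ * d₁) := by rw [hdel, ha₁]; rfl
  have hdel1 : |del| ≤ 1 / (a ^ 2 * b) := hdelnd ▸ hd₁
  have hdel2 : 1 / (a ^ 2 * b ^ 2) < |del| := hdelnd ▸ hθ d₁ h1 h1'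
  -- coprimality
  have hcop : IsCoprime (a₁ : ℤ) (d₁ : ℤ) := by
    rw [Int.isCoprime_iff_gcd_eq_one]
    by_contra hne
    obtain ⟨e, he⟩ : ∃ e : ℕ, e = Int.gcd a₁ d₁ := ⟨_, rfl⟩
    have he0 : 0 < e := by
      rw [he]
      apply Int.gcd_pos_of_ne_zero_right
      have : (0 : ℤ) < d₁ := by exact_mod_cast h1
      exact this.ne'
    have he2 : 2 ≤ e := by
      rcases Nat.lt_or_ge 1 e with h | h
      · exact h
      · exact absurd (he ▸ le_antisymm h he0 : Int.gcd a₁ d₁ = 1) hne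
    obtain ⟨a', ha'⟩ : (e : ℤ) ∣ a₁ := he ▸ Int.gcd_dvd_left ..
    obtain ⟨d', hd'⟩ : e ∣ d₁ := by
      have : (e : ℤ) ∣ (d₁ : ℤ) := he ▸ Int.gcd_dvd_right ..
      exact_mod_cast this
    have hd'1 : 1 ≤ d' := by
      rcases Nat.eq_zero_or_pos d' with h | h
      · rw [h, mul_zero] at hd'; omega
      · exact h
    have hd'2 : d' < d₁ := by
      rw [hd']
      nlinarith
    refine hmin d' hd'1 hd'2 ?_
    refine (a6nd_le (θ * d') a').trans ?_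
    have heR : (2 : ℝ) ≤ e := by exact_mod_cast he2
    have h2 : (e : ℝ) * (θ * d' - a') = del := by
      rw [hdel, ha', hd']; push_cast; ring
    have h3 : (e : ℝ) * |θ * d' - a'| = |del| := by
      rw [← h2, abs_mul, abs_of_nonneg (by linarith : (0 : ℝ) ≤ e)]
    have h4 : |θ * d' - a'| ≤ |del| := by
      rw [← h3]
      nlinarith [abs_nonneg (θ * d' - a')]
    exact h4.trans hdel1
  have hdvd : (d₁ : ℤ) ∣ d := by
    obtain ⟨z, hz⟩ : ∃ z : ℤ, z = round (θ * d) := ⟨_, rfl⟩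
    obtain ⟨ε, hε⟩ : ∃ ε : ℝ, ε = θ * d - z := ⟨_, rfl⟩
    have hεnd : |ε| ≤ 1 / (a ^ 2 * b) := by rw [hε, hz]; exact hnd
    have hzero : a₁ * d - z * d₁ = 0 := by
      by_contra hne
      have h2 : (1 : ℝ) ≤ |((a₁ * d - z * d₁ : ℤ) : ℝ)| := by
        exact_mod_cast Int.one_le_abs hne
      have h3 : ((a₁ * d - z * d₁ : ℤ) : ℝ) = ε * d₁ - del * d := by
        rw [hε, hdel]; push_cast; ring
      rw [h3] at h2
      have h4 : |ε * d₁ - del * d| ≤ 1 / (a ^ 2 * b) * a + 1 / (a ^ 2 * b) * (a ^ 2 * b / 2) := by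
        refine (abs_sub _ _).trans ?_
        rw [abs_mul, abs_mul, abs_of_pos hd₁0]
        refine add_le_add (mul_le_mul hεnd hd₁a hd₁0.le (by positivity))
          (mul_le_mul hdel1 (by linarith) (abs_nonneg _) (by positivity))
      have h5 : 1 / (a ^ 2 * b) * a + 1 / (a ^ 2 * b) * (a ^ 2 * b / 2) = 1 / (a * b) + 1 / 2 := by
        field_simp
      have h6 : 1 / (a * b) ≤ 1 / 4 := by
        apply one_div_le_one_div_of_le (by norm_num)
        nlinarith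
      linarith
    have h7 : (d₁ : ℤ) ∣ a₁ * d := ⟨z, by linarith⟩
    exact hcop.symm.dvd_of_dvd_mul_left h7
  obtain ⟨j, hj⟩ := hdvd
  rcases eq_or_ne j 0 with hj0 | hj0
  · rw [hj, hj0]; simp; positivity
  have hj1 : (0 : ℝ) < |(j : ℝ)| := abs_pos.2 (by exact_mod_cast hj0)
  have hdj : |(d : ℝ)| = d₁ * |(j : ℝ)| := by
    rw [hj]; push_cast; rw [abs_mul, abs_of_pos hd₁0]
  have h8 : |(j : ℝ) * del| ≤ 1 / 2 := by
    rw [abs_mul]
    have h9 : |(j : ℝ)| ≤ a ^ 2 * b / 2 := by nlinarith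
    calc |(j : ℝ)| * |del| ≤ (a ^ 2 * b / 2) * (1 / (a ^ 2 * b)) :=
          mul_le_mul h9 hdel1 (abs_nonneg _) (by positivity)
      _ = 1 / 2 := by field_simp
  have h10 : θ * d = ((j * a₁ : ℤ) : ℝ) + j * del := by
    rw [hj, hdel]; push_cast; ring
  have h11 := a6nd_ge h8 (j * a₁)
  rw [← h10, abs_mul] at h11
  have h12 : |(j : ℝ)| * (1 / (a ^ 2 * b ^ 2)) < 1 / (a ^ 2 * b) :=
    lt_of_lt_of_le (mul_lt_mul_of_pos_left hdel2 hj1) (h11.trans hnd)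
  have h13 : |(j : ℝ)| < b := by
    have h14 : |(j : ℝ)| * (1 / (a ^ 2 * b ^ 2)) * (a ^ 2 * b ^ 2) <
        1 / (a ^ 2 * b) * (a ^ 2 * b ^ 2) := mul_lt_mul_of_pos_right h12 (by positivity)
    have h15 : |(j : ℝ)| * (1 / (a ^ 2 * b ^ 2)) * (a ^ 2 * b ^ 2) = |(j : ℝ)| := by field_simp
    have h16 : 1 / (a ^ 2 * b) * (a ^ 2 * b ^ 2) = b := by field_simp
    rwa [h15, h16] at h14
  rw [hdj]
  calc (d₁ : ℝ) * |(j : ℝ)| ≤ a * |(j : ℝ)| := mul_le_mul_of_nonneg_right hd₁a hj1.le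
    _ < a * b := mul_lt_mul_of_pos_left h13 ha0

/-- Row A6.  Second moment, second half: counting.
Recipe (ρ = 4^g / (2 * 4^N), A = the set, g ≥ 2 wlog since the bound is trivial otherwise).  Two elements of
`A` have `‖2 β (m - m'')‖ ≤ 2 ρ`.  Case 1: no `1 ≤ d ≤ 4^g` has `‖2 β d‖ ≤ 2 ρ`.  Then elements of `A` with the
same digits above position `g` coincide (they differ by less than `(2/3) 4^g`), so `card A ≤ 3^{N-g}` (B5).
Case 2: let `d₁ ≤ 4^g` be the least one, `a₁ = round (2 β d₁)`, `del = |2 β d₁ - a₁| > 4^{4g-2N}`.  `gcd (a₁, d₁) = 1`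
by minimality.  If `|d| ≤ 4^{N-g}/2` and `‖2 β d‖ ≤ 2 ρ` then `d₁ ∣ d` (otherwise `‖2βd‖ ≥ 1/d₁ - |d| 2ρ/d₁ ≥ 1/(2 d₁) > 2ρ`)
and, `d = j d₁`, `|j| del ≤ 2 ρ`, so `|d| ≤ 4^{N-2g}`.  Hence, for given digits above position `N-g-1`, the elements of
`A` lie in an interval of length `4^{N-2g}`, which meets only one of the clusters `4^{g''} t + Lset g''`,
`g'' = N - 2g + 1` (gaps `≥ 4^{g''}/3`).  So `card A ≤ 3^{N-(N-g-1)} 3^{g''} = 9 * 3^{N-g}`. -/
theorem A6 (N g : ℕ) (hg : 3 * g ≤ N) (β : ℝ)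
    (hβ : ∀ d : ℕ, 1 ≤ d → d ≤ 4 ^ g →
      (4 : ℝ) ^ (4 * g) / 4 ^ (2 * N) < |2 * d * β - round (2 * d * β)|) (m' : ℤ) (hm' : m' ∈ Lset N) :
    (((Lset N).filter (fun m : ℤ => |2 * β * ((m : ℝ) - m') - round (2 * β * ((m : ℝ) - m'))| ≤
          4 ^ g / (2 * 4 ^ N))).card : ℝ) ≤ 9 * 3 ^ N / 3 ^ g := by
  obtain ⟨p, hp⟩ : ∃ p : ℤ → Prop, p = fun m : ℤ =>
    |2 * β * ((m : ℝ) - m') - round (2 * β * ((m : ℝ) - m'))| ≤ 4 ^ g / (2 * 4 ^ N) := ⟨_, rfl⟩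
  have hpd : ∀ m₁ m₂ : ℤ, p m₁ → p m₂ →
      a6nd (2 * β * ((m₁ - m₂ : ℤ) : ℝ)) ≤ (4 : ℝ) ^ g / 4 ^ N := by
    intro m₁ m₂ h1 h2
    rw [hp] at h1 h2
    have h3 := a6nd_sub (2 * β * ((m₁ : ℝ) - m')) (2 * β * ((m₂ : ℝ) - m'))
    have h4 : 2 * β * ((m₁ : ℝ) - m') - 2 * β * ((m₂ : ℝ) - m') =
        2 * β * ((m₁ - m₂ : ℤ) : ℝ) := by push_cast; ring
    rw [h4] at h3
    have h5 : (4 : ℝ) ^ g / (2 * 4 ^ N) + 4 ^ g / (2 * 4 ^ N) = 4 ^ g / 4 ^ N := by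
      have h0 : (0 : ℝ) < 4 ^ N := by positivity
      rw [← add_div, div_eq_div_iff (by positivity) (by positivity)]
      ring
    have h6 : a6nd (2 * β * ((m₁ : ℝ) - m')) ≤ 4 ^ g / (2 * 4 ^ N) := h1
    have h7 : a6nd (2 * β * ((m₂ : ℝ) - m')) ≤ 4 ^ g / (2 * 4 ^ N) := h2
    linarith
  classical
  have hcard : ((Lset N).filter (fun m : ℤ =>
      |2 * β * ((m : ℝ) - m') - round (2 * β * ((m : ℝ) - m'))| ≤ 4 ^ g / (2 * 4 ^ N))).card =
      ((Lset N).filter p).card := by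
    rw [hp]
  rw [hcard]
  -- symmetric form of the distance statement
  have habs : ∀ d : ℤ, a6nd (2 * β * (d : ℝ)) ≤ (4 : ℝ) ^ g / 4 ^ N →
      a6nd (2 * β * ((d.natAbs : ℕ) : ℝ)) ≤ (4 : ℝ) ^ g / 4 ^ N := by
    intro d hd
    rw [Nat.cast_natAbs, Int.cast_abs]
    rcases abs_cases (d : ℝ) with h | h
    · rw [h.1]; exact hd
    · rw [h.1, mul_neg]
      exact (a6nd_neg _).trans hd
  have h3N : ((3 : ℝ)) ^ N / 3 ^ g ≥ 0 := by positivity
  rcases Nat.lt_or_ge g 2 with hg2 | hg2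
  · -- trivial case
    have h1 : ((Lset N).filter p).card ≤ 3 ^ N := by
      rw [← B2.2.1 N]
      exact card_filter_le _ _
    have h2 : (((Lset N).filter p).card : ℝ) ≤ 3 ^ N := by exact_mod_cast h1
    refine h2.trans ?_
    rw [le_div_iff₀ (by positivity)]
    have h4 : (3 : ℝ) ^ g ≤ 9 := by
      interval_cases g <;> norm_num
    have h5 : (0 : ℝ) < 3 ^ N := by positivity
    nlinarith
  by_cases hcase : ∃ d : ℕ, 1 ≤ d ∧ d ≤ 4 ^ g ∧ a6nd (2 * β * d) ≤ (4 : ℝ) ^ g / 4 ^ N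
  · -- case 2
    obtain ⟨r, hr⟩ : ∃ r, N = 3 * g + r := ⟨N - 3 * g, by omega⟩
    obtain ⟨g0, hg0⟩ : ∃ g0, g = g0 + 2 := ⟨g - 2, by omega⟩
    have hr1 : (4 : ℝ) ^ g / 4 ^ N = 1 / (((4 : ℝ) ^ g) ^ 2 * (4 : ℝ) ^ r) := by
      rw [hr, pow_add, pow_mul']
      field_simp
    have hex : ∃ d : ℕ, 1 ≤ d ∧ d ≤ 4 ^ g ∧ a6nd (2 * β * d) ≤ (4 : ℝ) ^ g / 4 ^ N := hcase
    obtain ⟨d₁, ⟨h1, h1', hd₁⟩, hmin⟩ : ∃ d₁ : ℕ, (1 ≤ d₁ ∧ d₁ ≤ 4 ^ g ∧
        a6nd (2 * β * d₁) ≤ (4 : ℝ) ^ g / 4 ^ N) ∧ ∀ d < d₁, ¬ (1 ≤ d ∧ d ≤ 4 ^ g ∧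
        a6nd (2 * β * d) ≤ (4 : ℝ) ^ g / 4 ^ N) := by
      refine ⟨Nat.find hex, Nat.find_spec hex, fun d hd => Nat.find_min hex hd⟩
    have hkey : ∀ d : ℤ, 2 * |(d : ℝ)| ≤ ((4 : ℝ) ^ g) ^ 2 * (4 : ℝ) ^ r →
        a6nd (2 * β * d) ≤ (4 : ℝ) ^ g / 4 ^ N → |(d : ℝ)| < (4 : ℝ) ^ g * (4 : ℝ) ^ r := by
      intro d hd hnd
      refine a6_key (g := g) (r := r) (by omega) (θ := 2 * β) (fun e he1 he2 => ?_) h1 h1'
        (hr1 ▸ hd₁) (fun e he1 he2 he3 => hmin e he2 ⟨he1, by omega, hr1 ▸ he3⟩) hd (hr1 ▸ hnd)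
      have h2 := hβ e he1 he2
      have h3 : (4 : ℝ) ^ (4 * g) / 4 ^ (2 * N) =
          1 / (((4 : ℝ) ^ g) ^ 2 * ((4 : ℝ) ^ r) ^ 2) := by
        rw [hr]
        rw [show 2 * (3 * g + r) = g * 6 + r * 2 by ring, pow_add, show 4 * g = g * 4 by ring,
          pow_mul, pow_mul, pow_mul]
        field_simp
      rw [h3] at h2
      have h4 : 2 * (e : ℝ) * β = 2 * β * e := by ring
      rw [h4] at h2
      exact h2
    -- the sum
    have hsum : ((Lset N).filter p).card = ∑ u ∈ Lset (g0 + 3), ∑ t ∈ Lset g0,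
        ∑ w ∈ Lset (g0 + r + 3), if p (4 ^ (g0 + (g0 + r + 3)) * u + (4 ^ (g0 + r + 3) * t + w))
          then 1 else 0 := by
      rw [card_filter]
      have hN : N = (g0 + 3) + (g0 + (g0 + r + 3)) := by omega
      rw [hN, B5 (g0 + 3) (g0 + (g0 + r + 3))]
      refine sum_congr rfl fun u _ => ?_
      rw [B5 g0 (g0 + r + 3)]
    have hle : ((Lset N).filter p).card ≤ 3 ^ (g0 + 3) * 3 ^ (g0 + r + 3) := by
      rw [hsum]
      calc ∑ u ∈ Lset (g0 + 3), ∑ t ∈ Lset g0, ∑ w ∈ Lset (g0 + r + 3),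
            (if p (4 ^ (g0 + (g0 + r + 3)) * u + (4 ^ (g0 + r + 3) * t + w)) then 1 else 0)
          ≤ ∑ u ∈ Lset (g0 + 3), ∑ w ∈ Lset (g0 + r + 3), 1 := by
            refine sum_le_sum fun u _ => ?_
            rw [sum_comm]
            refine sum_le_sum fun w _ => ?_
            rw [← card_filter, card_le_one]
            intro t ht t' ht'
            rw [mem_filter] at ht ht'
            by_contra hne
            have h2 := hpd _ _ ht.2 ht'.2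
            have h3 : (4 ^ (g0 + (g0 + r + 3)) * u + (4 ^ (g0 + r + 3) * t + w)) -
                (4 ^ (g0 + (g0 + r + 3)) * u + (4 ^ (g0 + r + 3) * t' + w)) =
                4 ^ (g0 + r + 3) * (t - t') := by ring
            rw [h3] at h2
            have hb1 := B2.1 g0 t ht.1
            have hb2 := B2.1 g0 t' ht'.1
            have h4 : |t - t'| ≤ 4 ^ g0 := by
              have := abs_sub t t'
              have h0 : (0 : ℤ) < 4 ^ g0 := by positivity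
              omega
            have h4' : |((t - t' : ℤ) : ℝ)| ≤ (4 : ℝ) ^ g0 := by exact_mod_cast h4
            have h5 : (1 : ℤ) ≤ |t - t'| := Int.one_le_abs (sub_ne_zero.2 hne)
            have h5' : (1 : ℝ) ≤ |((t - t' : ℤ) : ℝ)| := by exact_mod_cast h5
            have h6 : |((4 ^ (g0 + r + 3) * (t - t') : ℤ) : ℝ)| =
                (4 : ℝ) ^ (g0 + r + 3) * |((t - t' : ℤ) : ℝ)| := by
              push_cast
              rw [abs_mul, abs_of_pos (by positivity)]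
            have h7 : (4 : ℝ) ^ (g0 + r + 3) = 4 * (4 ^ g * 4 ^ r) := by
              rw [hg0]; ring
            have h8 : ((4 : ℝ) ^ g) ^ 2 * 4 ^ r = 4 * ((4 : ℝ) ^ (g0 + r + 3) * 4 ^ g0) := by
              rw [hg0]; ring
            have h9 := hkey _ (by
              rw [h6, h8]
              have : (0 : ℝ) < 4 ^ (g0 + r + 3) := by positivity
              nlinarith [mul_le_mul_of_nonneg_left h4' this.le,
                mul_pos this (by positivity : (0 : ℝ) < 4 ^ g0)]) h2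
            rw [h6, h7] at h9
            have h10 : (0 : ℝ) < 4 ^ g * 4 ^ r := by positivity
            nlinarith
        _ = 3 ^ (g0 + 3) * 3 ^ (g0 + r + 3) := by
            simp only [sum_const, smul_eq_mul, mul_one, B2.2.1]
    have hleR : (((Lset N).filter p).card : ℝ) ≤ 3 ^ (g0 + 3) * 3 ^ (g0 + r + 3) := by
      exact_mod_cast hle
    refine hleR.trans (le_of_eq ?_)
    rw [hr, hg0, eq_div_iff (by positivity)]
    ring
  · -- case 1
    push Not at hcase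
    obtain ⟨s, hs⟩ : ∃ s, N = s + g := ⟨N - g, by omega⟩
    have hle : ((Lset N).filter p).card ≤ 3 ^ s := by
      rw [card_filter]
      rw [hs, B5 s g]
      calc ∑ u ∈ Lset s, ∑ t ∈ Lset g, (if p (4 ^ g * u + t) then 1 else 0)
          ≤ ∑ u ∈ Lset s, 1 := by
            refine sum_le_sum fun u _ => ?_
            rw [← card_filter, card_le_one]
            intro t ht t' ht'
            rw [mem_filter] at ht ht'
            by_contra hne
            have h2 := hpd _ _ ht.2 ht'.2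
            have h3 : (4 ^ g * u + t) - (4 ^ g * u + t') = t - t' := by ring
            rw [h3] at h2
            have hb1 := B2.1 g t ht.1
            have hb2 := B2.1 g t' ht'.1
            have h4 : |t - t'| ≤ 4 ^ g := by
              have := abs_sub t t'
              have h0 : (0 : ℤ) < 4 ^ g := by positivity
              omega
            have h5 : (1 : ℤ) ≤ |t - t'| := Int.one_le_abs (sub_ne_zero.2 hne)
            have h6 : 1 ≤ (t - t').natAbs := by omega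
            have h7 : (t - t').natAbs ≤ 4 ^ g := by
              have : (((t - t').natAbs : ℕ) : ℤ) ≤ ((4 ^ g : ℕ) : ℤ) := by
                rw [Int.natCast_natAbs]; push_cast; exact h4
              exact_mod_cast this
            exact absurd (habs _ h2) (not_le.2 (hcase _ h6 h7))
        _ = 3 ^ s := by simp only [sum_const, smul_eq_mul, mul_one, B2.2.1]
    have hleR : (((Lset N).filter p).card : ℝ) ≤ 3 ^ s := by exact_mod_cast hle
    refine hleR.trans ?_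
    rw [hs, le_div_iff₀ (by positivity), pow_add]
    have h1 : (0 : ℝ) < 3 ^ s * 3 ^ g := by positivity
    linarith

end Pool.Agent.C52.RA6
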