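import Pool.Agent.Lib.MP_c52340_c5.Defs
import Pool.Agent.Lib.MP_c52340_c5.B2
import Pool.Agent.Lib.MP_c52340_c5.A5
import Pool.Agent.Lib.MP_c52340_c5.A6


set_option autoImplicit false

open Finset

open Pool.Agent.C52.RB2 (B2)
open Pool.Agent.C52.RA5 (A5)
open Pool.Agent.C52.RA6 (A6)

namespace Pool.Agent.C52.RA7

/-- Row A7.  Second moment.  Recipe: A5, A6, `(Lset N).card = 3 ^ N`. -/
theorem A7 (N g : ℕ) (hg : 3 * g ≤ N) (β : ℝ) (hβ : ¬ Res N g β) :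
    ∑ k ∈ Odds N, |GG (1 / 3) N (k * β)| ^ 2 ≤ 10 * 4 ^ N / 3 ^ g := by
  have hβ' : ∀ d : ℕ, 1 ≤ d → d ≤ 4 ^ g →
      (4 : ℝ) ^ (4 * g) / 4 ^ (2 * N) < |2 * d * β - round (2 * d * β)| := by
    intro d h1 h2
    by_contra hcon
    exact hβ ⟨d, h1, h2, not_lt.1 hcon⟩
  have h5 := A5 N g β
  have h6 := A6 N g hg β hβ'
  have hcard : ((Lset N).card : ℝ) = 3 ^ N := by
    rw [B2.2.1 N]
    push_cast
    rfl
  have hsum : ∑ m' ∈ Lset N,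
        (((Lset N).filter (fun m : ℤ => |2 * β * ((m : ℝ) - m') - round (2 * β * ((m : ℝ) - m'))| ≤
          4 ^ g / (2 * 4 ^ N))).card : ℝ) ≤ 3 ^ N * (9 * 3 ^ N / 3 ^ g) := by
    calc _ ≤ ∑ _m' ∈ Lset N, (9 * 3 ^ N / 3 ^ g : ℝ) := Finset.sum_le_sum fun m' hm' => h6 m' hm'
      _ = 3 ^ N * (9 * 3 ^ N / 3 ^ g) := by rw [Finset.sum_const, nsmul_eq_mul, hcard]
  have h7 : (4 : ℝ) ^ N / 9 ^ N * (3 ^ N * (9 * 3 ^ N / 3 ^ g)) = 9 * 4 ^ N / 3 ^ g := by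
    have h9 : (9 : ℝ) ^ N = 3 ^ N * 3 ^ N := by
      rw [← mul_pow]
      norm_num
    rw [h9]
    field_simp
  have h8 : (4 : ℝ) ^ N / 4 ^ g ≤ 4 ^ N / 3 ^ g := by
    apply div_le_div_of_nonneg_left (by positivity) (by positivity)
    exact pow_le_pow_left₀ (by norm_num) (by norm_num) g
  calc ∑ k ∈ Odds N, |GG (1 / 3) N (k * β)| ^ 2
      ≤ 4 ^ N / 4 ^ g + 4 ^ N / 9 ^ N * ∑ m' ∈ Lset N,
        (((Lset N).filter (fun m : ℤ => |2 * β * ((m : ℝ) - m') - round (2 * β * ((m : ℝ) - m'))| ≤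
          4 ^ g / (2 * 4 ^ N))).card : ℝ) := h5
    _ ≤ 4 ^ N / 3 ^ g + 4 ^ N / 9 ^ N * (3 ^ N * (9 * 3 ^ N / 3 ^ g)) := by
        refine add_le_add h8 (mul_le_mul_of_nonneg_left hsum (by positivity))
    _ = 10 * 4 ^ N / 3 ^ g := by
        rw [h7]
        ring

end Pool.Agent.C52.RA7
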