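import Pool.Agent.Lib.MP_c52340_c5.Defs


set_option autoImplicit false

open Finset


namespace Pool.Agent.C52.RB10

/-- Row B10.  Orthogonality of characters modulo `4 ^ n`.  (Geometric sum.) -/
theorem B10 (n : ℕ) (z : ℤ) :
    ∑ c ∈ range (4 ^ n), ee ((c : ℝ) * z / 4 ^ n) = if (4 : ℤ) ^ n ∣ z then (4 : ℂ) ^ n else 0 := by
  have h4 : (4 : ℂ) ^ n ≠ 0 := pow_ne_zero _ (by norm_num)
  have hpi : (2 * Real.pi * Complex.I : ℂ) ≠ 0 := Complex.two_pi_I_ne_zero
  obtain ⟨ζ, hζ⟩ : ∃ ζ : ℂ, ζ = ee ((z : ℝ) / 4 ^ n) := ⟨_, rfl⟩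
  have hpow : ∀ c : ℕ, ee ((c : ℝ) * z / 4 ^ n) = ζ ^ c := by
    intro c
    rw [hζ]
    unfold ee
    rw [← Complex.exp_nat_mul]
    congr 1
    push_cast
    ring
  rw [Finset.sum_congr rfl fun c _ => hpow c]
  split_ifs with hdvd
  · obtain ⟨w, hw⟩ := hdvd
    have h1 : ζ = 1 := by
      rw [hζ]
      unfold ee
      rw [Complex.exp_eq_one_iff]
      refine ⟨w, ?_⟩
      rw [hw]
      push_cast
      field_simp
    rw [h1]
    simp
  · have h1 : ζ ≠ 1 := by
      intro h
      rw [hζ] at h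
      unfold ee at h
      rw [Complex.exp_eq_one_iff] at h
      obtain ⟨w, hw⟩ := h
      apply hdvd
      refine ⟨w, ?_⟩
      have h2 : (z : ℂ) / 4 ^ n = w := by
        have h3 : (2 * Real.pi * Complex.I : ℂ) * ((z : ℂ) / 4 ^ n) = 2 * Real.pi * Complex.I * w := by
          push_cast at hw
          linear_combination hw
        exact mul_left_cancel₀ hpi h3
      rw [div_eq_iff h4] at h2
      have h5 : (z : ℂ) = ((4 ^ n * w : ℤ) : ℂ) := by
        rw [h2]
        push_cast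
        ring
      exact_mod_cast h5
    have h2 : ζ ^ (4 ^ n) = 1 := by
      rw [← hpow]
      unfold ee
      rw [Complex.exp_eq_one_iff]
      refine ⟨z, ?_⟩
      push_cast
      field_simp
    have h3 := mul_geom_sum ζ (4 ^ n)
    rw [h2, sub_self] at h3
    rcases mul_eq_zero.1 h3 with h | h
    · exact absurd (sub_eq_zero.1 h) h1
    · exact h

end Pool.Agent.C52.RB10
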