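import Pool.Agent.Lib.MP_c52340_c5.Defs
import Pool.Agent.Lib.MP_c52340_c5.B7
import Pool.Agent.Lib.MP_c52340_c5.B8
import Pool.Agent.Lib.MP_c52340_c5.B10


set_option autoImplicit false

open Finset

open Pool.Agent.C52.RB7 (B7)
open Pool.Agent.C52.RB8 (B8)
open Pool.Agent.C52.RB10 (B10)

namespace Pool.Agent.C52.RB11

/-- Row B11.  Fourier expansion of the kernel.  Recipe: B8, B10 (and `c ↦ -c` inside: conjugate, the left side is
real). -/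
theorem B11 (N : ℕ) (z : ℤ) :
    ((4 ^ N * wmod N z : ℝ) : ℂ) =
      ∑ c ∈ range (4 ^ N), (GG (1 / 4) N ((c : ℝ) / 4 ^ N) : ℂ) * ee (-((c : ℝ) * z / 4 ^ N)) := by
  obtain ⟨hadd, -, -, -, -⟩ := B7
  have h1 : ∀ c ∈ range (4 ^ N), (GG (1 / 4) N ((c : ℝ) / 4 ^ N) : ℂ) * ee (-((c : ℝ) * z / 4 ^ N)) =
      ∑ y ∈ Lset N, (wG (1 / 4) N y : ℂ) * ee ((c : ℝ) * ((y - z : ℤ) : ℝ) / 4 ^ N) := by
    intro c _
    rw [← B8, Finset.sum_mul]
    refine Finset.sum_congr rfl fun y _ => ?_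
    rw [mul_assoc, ← hadd]
    congr 2
    push_cast
    ring
  rw [Finset.sum_congr rfl h1, Finset.sum_comm]
  have h2 : ∀ y ∈ Lset N, ∑ c ∈ range (4 ^ N), (wG (1 / 4) N y : ℂ) * ee ((c : ℝ) * ((y - z : ℤ) : ℝ) / 4 ^ N) =
      (4 : ℂ) ^ N * (((if (4 : ℤ) ^ N ∣ z - y then wG (1 / 4) N y else 0 : ℝ)) : ℂ) := by
    intro y _
    rw [← Finset.mul_sum, B10]
    have hiff : (4 : ℤ) ^ N ∣ y - z ↔ (4 : ℤ) ^ N ∣ z - y := by
      rw [← neg_sub z y, dvd_neg]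
    by_cases h : (4 : ℤ) ^ N ∣ z - y
    · rw [if_pos (hiff.2 h), if_pos h]
      ring
    · rw [if_neg (fun h' => h (hiff.1 h')), if_neg h]
      simp
  rw [Finset.sum_congr rfl h2, ← Finset.mul_sum]
  unfold wmod
  push_cast
  rfl

end Pool.Agent.C52.RB11
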