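import Pool.Agent.Lib.MP_c52340_c5.Defs


set_option autoImplicit false

open Finset


namespace Pool.Agent.C52.RB12

/-- Row B12.  Complete residue systems: sums over `range (4 ^ N)` and over the centered system `Fr N`. -/
theorem B12 {A : Type*} [AddCommMonoid A] (N : ℕ) (hN : 1 ≤ N) (F : ℤ → A)
    (hF : ∀ c, F (c + 4 ^ N) = F c) :
    ∑ c ∈ Fr N, F c = ∑ c ∈ range (4 ^ N), F (c : ℤ) := by
  obtain ⟨n, rfl⟩ := Nat.exists_eq_add_of_le' hN
  have hM : (4 : ℤ) ^ (n + 1) = 2 * (2 * 4 ^ n) := by ring
  have hdiv : (4 : ℤ) ^ (n + 1) / 2 = 2 * 4 ^ n := by omega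
  have hpos : (0 : ℤ) < 4 ^ n := by positivity
  apply Finset.sum_nbij' (fun c : ℤ => if 0 ≤ c then c.toNat else (c + 4 ^ (n + 1)).toNat)
    (fun c : ℕ => if (c : ℤ) ≤ 2 * 4 ^ n then (c : ℤ) else (c : ℤ) - 4 ^ (n + 1))
  · intro c hc
    simp only [Fr, mem_Ioc, hdiv] at hc
    simp only [mem_range]
    zify
    split_ifs with h
    · rw [Int.toNat_of_nonneg h]
      linarith [hc.2, hM]
    · rw [Int.toNat_of_nonneg (by linarith [hc.1, hM])]
      linarith [hc.1, hM]
  · intro c hc
    simp only [mem_range] at hc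
    zify at hc
    simp only [Fr, mem_Ioc, hdiv]
    have h0 : (0 : ℤ) ≤ c := by positivity
    split_ifs with h
    · constructor <;> linarith
    · push Not at h
      constructor <;> linarith
  · intro c hc
    simp only [Fr, mem_Ioc, hdiv] at hc
    by_cases h : 0 ≤ c
    · simp only [h, if_true]
      rw [Int.toNat_of_nonneg h, if_pos hc.2]
    · simp only [h, if_false]
      rw [Int.toNat_of_nonneg (by linarith [hc.1, hM])]
      rw [if_neg]
      · ring
      · push Not
        linarith [hc.1, hM]
  · intro c hc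
    simp only [mem_range] at hc
    zify at hc
    have h0 : (0 : ℤ) ≤ c := by positivity
    by_cases h : (c : ℤ) ≤ 2 * 4 ^ n
    · simp only [h, if_true, h0]
      exact Int.toNat_natCast c
    · simp only [h, if_false]
      push Not at h
      rw [if_neg (by push Not; linarith)]
      zify
      rw [Int.toNat_of_nonneg (by linarith)]
      ring
  · intro c hc
    simp only [Fr, mem_Ioc, hdiv] at hc
    by_cases h : 0 ≤ c
    · simp only [h, if_true]
      rw [Int.toNat_of_nonneg h]
    · simp only [h, if_false]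
      rw [Int.toNat_of_nonneg (by linarith [hc.1, hM]), hF]

end Pool.Agent.C52.RB12
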