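import Pool.Agent.Lib.MP_c52340_c5.Defs
import Pool.Agent.Lib.MP_c52340_c5.B2


set_option autoImplicit false

open Finset

open Pool.Agent.C52.RB2 (B2)

namespace Pool.Agent.C52.RB14

private lemma Lset_bd (N : ℕ) (m : ℤ) (hm : m ∈ Lset N) : |(m : ℝ)| ≤ (4 ^ N - 1) / 3 := by
  have h := B2.1 N m hm
  have h' : (3 : ℝ) * |(m : ℝ)| ≤ 4 ^ N - 1 := by
    rw [← Int.cast_abs]
    exact_mod_cast h
  linarith

/-- Row B14.  The carry is the nearest integer.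
Recipe: `|y| ≤ (4^N - 1)/3`, `z' - k m / 4^N = (z - y)/4^N`; `2 k ≤ 4^N - 2` (parity), so
`|z' - k m / 4^N| ≤ 1/2 - 1/(6 * 4^N) < 1/2`, then uniqueness of the nearest integer
(`abs_sub_round`).  Second part: `|k m'| ≤ k (4^N - 1)/3` and `|round x - x| ≤ 1/2`. -/
theorem B14 (N : ℕ) (hN : 1 ≤ N) (k : ℤ) (hk : 0 < k) (hk2 : 2 * k < 4 ^ N) :
    (∀ m ∈ Lset N, ∀ y ∈ Lset N, ∀ z z' : ℤ,
      |(z : ℝ)| ≤ k / 3 - k / (3 * 4 ^ N) + 1 / 2 → 4 ^ N * z' = z + k * m - y → z' = hi N k m) ∧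
    (∀ m' ∈ Lset N, |(hi N k m' : ℝ)| ≤ k / 3 - k / (3 * 4 ^ N) + 1 / 2) := by
  obtain ⟨M, hM⟩ : ∃ M : ℝ, M = 4 ^ N := ⟨_, rfl⟩
  have hM4 : 4 ≤ M := by
    rw [hM]
    calc (4 : ℝ) = 4 ^ 1 := by norm_num
      _ ≤ 4 ^ N := pow_le_pow_right₀ (by norm_num) hN
  have hM0 : 0 < M := by linarith
  have hk0 : (0 : ℝ) < k := by exact_mod_cast hk
  have hkM : 2 * (k : ℝ) ≤ M - 1 := by
    rw [hM]
    have : 2 * k ≤ 4 ^ N - 1 := by omega
    exact_mod_cast this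
  have hkk : (k : ℝ) / 3 - k / (3 * M) = k * (M - 1) / (3 * M) := by
    field_simp
  rw [← hM]
  constructor
  · intro m hm y hy z z' hz hzz
    have hy' := Lset_bd N y hy
    rw [← hM] at hy'
    have hzz' : M * (z' : ℝ) = z + k * m - y := by
      rw [hM]
      exact_mod_cast hzz
    have h1 : (z' : ℝ) - ((k * m : ℤ) : ℝ) / 4 ^ N = (z - y) / M := by
      rw [← hM]
      push_cast
      field_simp
      linarith
    have h2 : |(z : ℝ) - y| < M / 2 := by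
      have h3 := abs_sub (z : ℝ) y
      have h4 : (k : ℝ) * (M - 1) / (3 * M) ≤ (M - 1) ^ 2 / (6 * M) := by
        rw [div_le_div_iff₀ (by positivity) (by positivity)]
        nlinarith [mul_nonneg (by linarith : (0 : ℝ) ≤ M - 1) (by linarith : (0 : ℝ) ≤ M - 1 - 2 * k)]
      have h5 : (M - 1) ^ 2 / (6 * M) = M / 6 - 1 / 3 + 1 / (6 * M) := by
        field_simp
        ring
      have h6 : 1 / (6 * M) ≤ 1 / 24 := by
        apply one_div_le_one_div_of_le (by norm_num)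
        linarith
      rw [hkk] at hz
      rw [h5] at h4
      linarith
    have h3 : |(z' : ℝ) - ((k * m : ℤ) : ℝ) / 4 ^ N| < 1 / 2 := by
      rw [h1, abs_div, abs_of_pos hM0, div_lt_iff₀ hM0]
      linarith
    rw [abs_lt] at h3
    unfold hi
    rw [round_eq]
    symm
    rw [Int.floor_eq_iff]
    constructor <;> linarith [h3.1, h3.2]
  · intro m' hm'
    have h1 := Lset_bd N m' hm'
    rw [← hM] at h1
    unfold hi
    have h2 := abs_sub_round (((k * m' : ℤ) : ℝ) / 4 ^ N)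
    have h3 : |((k * m' : ℤ) : ℝ) / 4 ^ N| ≤ k * (M - 1) / (3 * M) := by
      rw [← hM]
      push_cast
      rw [abs_div, abs_mul, abs_of_pos hk0, abs_of_pos hM0, div_le_div_iff₀ hM0 (by positivity)]
      nlinarith [mul_le_mul_of_nonneg_left h1 (by positivity : 0 ≤ (k : ℝ) * M)]
    rw [hkk]
    have h4 : |(round (((k * m' : ℤ) : ℝ) / 4 ^ N) : ℝ)| ≤ |((k * m' : ℤ) : ℝ) / 4 ^ N| +
        |((k * m' : ℤ) : ℝ) / 4 ^ N - round (((k * m' : ℤ) : ℝ) / 4 ^ N)| := by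
      have := abs_sub (((k * m' : ℤ) : ℝ) / 4 ^ N)
        (((k * m' : ℤ) : ℝ) / 4 ^ N - round (((k * m' : ℤ) : ℝ) / 4 ^ N))
      rwa [sub_sub_cancel] at this
    linarith

end Pool.Agent.C52.RB14
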