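import Pool.Agent.Lib.MP_c52340_c5.Defs
import Pool.Agent.Lib.MP_c52340_c5.B3


set_option autoImplicit false

open Finset

open Pool.Agent.C52.RB3 (B3)

namespace Pool.Agent.C52.RB6

/-- Row B6.  Concatenation of digit strings, weights.  Recipe: induction on `b` with B3 (write
`y₀ = 4 y₀' + t`). -/
theorem B6 (p : ℝ) (a b : ℕ) (y₁ y₀ : ℤ) (h₀ : y₀ ∈ Lset b) :
    wG p (a + b) (4 ^ b * y₁ + y₀) = wG p a y₁ * wG p b y₀ := by
  induction b generalizing y₀ with
  | zero =>
    simp only [Lset, Finset.mem_singleton] at h₀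
    subst h₀
    simp [wG]
  | succ b ih =>
    simp only [Lset, Finset.mem_image, Finset.mem_product, Prod.exists] at h₀
    obtain ⟨y', t, ⟨hy', ht⟩, rfl⟩ := h₀
    have e : (4 : ℤ) ^ (b + 1) * y₁ + (4 * y' + t) = 4 * (4 ^ b * y₁ + y') + t := by ring
    rw [e, ← add_assoc a b 1, B3 p (a + b) (4 ^ b * y₁ + y') t ht, B3 p b y' t ht, ih y' hy']
    ring

end Pool.Agent.C52.RB6
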