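import Pool.Agent.Lib.MP_c52340_c5.DefsS
import Pool.Agent.Lib.MP_c52340_c5.B13


set_option autoImplicit false

open Finset

open Pool.Agent.C52.RB13 (B13)

namespace Pool.Agent.C52.RC1

private lemma C1_nn (x : ℝ) : 0 ≤ gf (1 / 4) x :=
  B13.2.2.2.1 _ _ (by norm_num) (by norm_num)

private lemma C1_le (x : ℝ) : gf (1 / 4) x ≤ 1 :=
  (le_abs_self _).trans (B13.2.2.1 _ _ (by norm_num) (by norm_num))

private lemma C1_fac (i j : ℕ) (x : ℝ) :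
    0 ≤ min 1 (gf (1 / 4) (4 ^ i * x) + 4 * 4 ^ i / 4 ^ j) := by
  refine le_min zero_le_one ?_
  have := C1_nn (4 ^ i * x)
  positivity

/-- Row C1.  Elementary facts on `Cs`.
Recipe: B13 (`gf (1/4)` is `1`-periodic, nonnegative, at most `1`, Lipschitz with constant `π ≤ 4`); monotonicity: `4^i/4^j' ≤ 4^i/4^j` and dropping
factors at most `1`. -/
theorem C1 :
    (∀ (j : ℕ) (x : ℝ), 0 ≤ Cs j x ∧ Cs j x ≤ 1) ∧
    (∀ (j : ℕ) (x : ℝ) (z : ℤ), Cs j (x + z) = Cs j x) ∧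
    (∀ (j j' : ℕ) (x : ℝ), j ≤ j' → Cs j' x ≤ Cs j x) ∧
    (∀ (j : ℕ) (x x' : ℝ), |x' - x| ≤ 1 / 4 ^ j → GG (1 / 4) j x' ≤ Cs j x) ∧
    (∀ x : ℝ, Cs 0 x = 1) := by
  refine ⟨fun j x => ⟨?_, ?_⟩, fun j x z => ?_, fun j j' x hjj => ?_, fun j x x' hx => ?_,
    fun x => ?_⟩
  · exact Finset.prod_nonneg fun i _ => C1_fac i j x
  · exact Finset.prod_le_one (fun i _ => C1_fac i j x) (fun i _ => min_le_left _ _)
  · unfold Cs
    refine Finset.prod_congr rfl fun i _ => ?_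
    have h1 : (4 : ℝ) ^ i * (x + z) = 4 ^ i * x + ((4 ^ i * z : ℤ) : ℝ) := by
      push_cast
      ring
    rw [h1, B13.1]
  · obtain ⟨d, rfl⟩ := Nat.exists_eq_add_of_le hjj
    unfold Cs
    rw [Finset.prod_range_add]
    have h2 : ∏ i ∈ range j, min 1 (gf (1 / 4) (4 ^ i * x) + 4 * 4 ^ i / 4 ^ (j + d)) ≤
        ∏ i ∈ range j, min 1 (gf (1 / 4) (4 ^ i * x) + 4 * 4 ^ i / 4 ^ j) := by
      refine Finset.prod_le_prod (fun i _ => C1_fac i (j + d) x) fun i _ => ?_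
      refine min_le_min le_rfl ?_
      have h3 : (4 : ℝ) * 4 ^ i / 4 ^ (j + d) ≤ 4 * 4 ^ i / 4 ^ j := by
        refine div_le_div_of_nonneg_left (by positivity) (by positivity) ?_
        exact pow_le_pow_right₀ (by norm_num) (Nat.le_add_right _ _)
      linarith
    have h4 : ∏ i ∈ range d, min 1 (gf (1 / 4) (4 ^ (j + i) * x) + 4 * 4 ^ (j + i) / 4 ^ (j + d)) ≤ 1 :=
      Finset.prod_le_one (fun i _ => C1_fac (j + i) (j + d) x) (fun i _ => min_le_left _ _)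
    have h5 : 0 ≤ ∏ i ∈ range d,
        min 1 (gf (1 / 4) (4 ^ (j + i) * x) + 4 * 4 ^ (j + i) / 4 ^ (j + d)) :=
      Finset.prod_nonneg fun i _ => C1_fac (j + i) (j + d) x
    have h6 : 0 ≤ ∏ i ∈ range j, min 1 (gf (1 / 4) (4 ^ i * x) + 4 * 4 ^ i / 4 ^ (j + d)) :=
      Finset.prod_nonneg fun i _ => C1_fac i (j + d) x
    exact (mul_le_of_le_one_right h6 h4).trans h2
  · unfold GG Cs
    refine Finset.prod_le_prod (fun i _ => C1_nn _) fun i _ => ?_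
    refine le_min (C1_le _) ?_
    have h1 := B13.2.2.2.2.1 (1 / 4) (4 ^ i * x') (4 ^ i * x) (by norm_num)
    have h2 : |(4 : ℝ) ^ i * x' - 4 ^ i * x| = 4 ^ i * |x' - x| := by
      rw [← mul_sub, abs_mul, abs_of_nonneg (by positivity)]
    rw [h2] at h1
    have h3 : gf (1 / 4) (4 ^ i * x') - gf (1 / 4) (4 ^ i * x) ≤
        4 * Real.pi * (1 / 4) * (4 ^ i * |x' - x|) := (le_abs_self _).trans h1
    have h4 : 4 * Real.pi * (1 / 4) * ((4 : ℝ) ^ i * |x' - x|) ≤ 4 * (4 ^ i * (1 / 4 ^ j)) := by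
      have h5 : (4 : ℝ) ^ i * |x' - x| ≤ 4 ^ i * (1 / 4 ^ j) :=
        mul_le_mul_of_nonneg_left hx (by positivity)
      have h6 : (0 : ℝ) ≤ 4 ^ i * |x' - x| := by positivity
      have h7 : Real.pi ≤ 4 := Real.pi_le_four
      calc 4 * Real.pi * (1 / 4) * ((4 : ℝ) ^ i * |x' - x|) = Real.pi * (4 ^ i * |x' - x|) := by ring
        _ ≤ 4 * (4 ^ i * |x' - x|) := mul_le_mul_of_nonneg_right h7 h6
        _ ≤ 4 * (4 ^ i * (1 / 4 ^ j)) := mul_le_mul_of_nonneg_left h5 (by norm_num)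
    have h8 : (4 : ℝ) * (4 ^ i * (1 / 4 ^ j)) = 4 * 4 ^ i / 4 ^ j := by ring
    linarith
  · unfold Cs
    simp

end Pool.Agent.C52.RC1
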