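import Pool.Agent.Lib.MP_c52340_c5.Defs


set_option autoImplicit false

open Finset


namespace Pool.Agent.C52.RT1

/-- Row T1.  Exact sum over the four preimages (`cos` at four equally spaced points). -/
theorem T1 (p x : ℝ) : ∑ j ∈ range 4, gf p ((x + j) / 4) = 4 * (1 - 2 * p) := by
  have h1 : Real.cos (2 * Real.pi * ((x + (1 : ℕ)) / 4)) = -Real.sin (Real.pi * x / 2) := by
    rw [← Real.cos_add_pi_div_two]
    congr 1
    push_cast
    ring
  have h0 : Real.cos (2 * Real.pi * ((x + (0 : ℕ)) / 4)) = Real.cos (Real.pi * x / 2) := by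
    congr 1
    push_cast
    ring
  have h2 : Real.cos (2 * Real.pi * ((x + (2 : ℕ)) / 4)) = -Real.cos (Real.pi * x / 2) := by
    rw [← Real.cos_add_pi]
    congr 1
    push_cast
    ring
  have h3 : Real.cos (2 * Real.pi * ((x + (3 : ℕ)) / 4)) = Real.sin (Real.pi * x / 2) := by
    have h4 : Real.sin (Real.pi * x / 2) = Real.cos ((Real.pi * x / 2 + Real.pi) + Real.pi / 2) := by
      rw [Real.cos_add_pi_div_two, Real.sin_add_pi, neg_neg]
    rw [h4]
    congr 1
    push_cast
    ring
  rw [Finset.sum_range_succ, Finset.sum_range_succ, Finset.sum_range_succ, Finset.sum_range_succ,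
    Finset.sum_range_zero]
  unfold gf
  rw [h0, h1, h2, h3]
  ring

end Pool.Agent.C52.RT1
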