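import Pool.Agent.Lib.MP_c52340_c5.Defs
import Pool.Agent.Lib.MP_c52340_c5.B13
import Pool.Agent.Lib.MP_c52340_c5.T1


set_option autoImplicit false

open Finset

open Pool.Agent.C52.RB13 (B13)
open Pool.Agent.C52.RT1 (T1)

namespace Pool.Agent.C52.RP5

private lemma split_P5 {A : Type*} [AddCommMonoid A] (a b : ℕ) (F : ℕ → A) :
    ∑ c ∈ range (a * b), F c = ∑ j ∈ range b, ∑ c ∈ range a, F (c + a * j) := by
  induction b with
  | zero => simp
  | succ b ih =>
    rw [Nat.mul_succ, Finset.sum_range_add, ih, Finset.sum_range_succ]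
    congr 1
    apply Finset.sum_congr rfl
    intro x _
    rw [add_comm]

/-- Row P5.  Exact sum.  Recipe: as P1 with equality, T1; or B10 and `wG p n 0 = (1-2p)^n`. -/
theorem P5 (p : ℝ) (n : ℕ) :
    ∑ c ∈ range (4 ^ n), GG p n ((c : ℝ) / 4 ^ n) = (4 * (1 - 2 * p)) ^ n := by
  induction n with
  | zero => simp [GG]
  | succ n ih =>
    have hper : ∀ p x : ℝ, ∀ n : ℕ, ∀ z : ℤ, GG p n (x + z) = GG p n x := B13.2.2.2.2.2.1
    have hadd : ∀ p x : ℝ, ∀ a b : ℕ, GG p (a + b) x = GG p a x * GG p b (4 ^ a * x) :=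
      B13.2.2.2.2.2.2.2.2.2.1
    rw [pow_succ, split_P5, Finset.sum_comm]
    have key : ∀ c ∈ range (4 ^ n), ∑ j ∈ range 4, GG p (n + 1) (((c + 4 ^ n * j : ℕ) : ℝ) / 4 ^ (n + 1)) =
        4 * (1 - 2 * p) * GG p n ((c : ℝ) / 4 ^ n) := by
      intro c _
      rw [← T1 p ((c : ℝ) / 4 ^ n), Finset.sum_mul]
      apply Finset.sum_congr rfl
      intro j _
      have h4 : (4 : ℝ) ^ n ≠ 0 := by positivity
      rw [add_comm n 1, hadd]
      have e1 : GG p 1 (((c + 4 ^ n * j : ℕ) : ℝ) / 4 ^ (1 + n)) = gf p (((c : ℝ) / 4 ^ n + j) / 4) := by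
        simp only [GG, Finset.prod_range_one, pow_zero, one_mul]
        congr 1
        push_cast
        rw [pow_add]
        field_simp
      have e2 : GG p n ((4 : ℝ) ^ 1 * (((c + 4 ^ n * j : ℕ) : ℝ) / 4 ^ (1 + n))) = GG p n ((c : ℝ) / 4 ^ n) := by
        rw [← hper p ((c : ℝ) / 4 ^ n) n (j : ℤ)]
        congr 1
        push_cast
        rw [pow_add]
        field_simp
      rw [e1, e2]
    rw [Finset.sum_congr rfl key, ← Finset.mul_sum, ih]
    ring

end Pool.Agent.C52.RP5
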