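import Pool.Agent.Lib.MP_c52340_c5.DefsS
import Pool.Agent.Lib.MP_c52340_c5.B13
import Pool.Agent.Lib.MP_c52340_c5.P5
import Pool.Agent.Lib.MP_c52340_c5.C1


set_option autoImplicit false

open Finset

open Pool.Agent.C52.RB13 (B13)
open Pool.Agent.C52.RP5 (P5)
open Pool.Agent.C52.RC1 (C1)

namespace Pool.Agent.C52.RC2

private theorem per_shift {F : ℤ → ℝ} {M : ℕ} (hF : ∀ c, F (c + M) = F c) (a : ℤ) :
    ∑ i ∈ range M, F (a + 1 + i) = ∑ i ∈ range M, F (a + i) := by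
  have h1 := Finset.sum_range_succ (fun i : ℕ => F (a + i)) M
  have h2 := Finset.sum_range_succ' (fun i : ℕ => F (a + i)) M
  rw [h1] at h2
  have h3 : F (a + (M : ℕ)) = F (a + ((0 : ℕ) : ℤ)) := by rw [hF a]; simp
  rw [h3] at h2
  have h4 := add_right_cancel h2
  rw [h4]
  refine Finset.sum_congr rfl fun i _ => ?_
  congr 1
  push_cast
  ring

private theorem per_sum {F : ℤ → ℝ} {M : ℕ} (hF : ∀ c, F (c + M) = F c) (a : ℤ) :
    ∑ i ∈ range M, F (a + i) = ∑ i ∈ range M, F i := by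
  induction a using Int.induction_on with
  | zero => simp
  | succ n ih => rw [per_shift hF, ih]
  | pred n ih =>
    rw [← ih, ← per_shift hF (-(n : ℤ) - 1)]
    refine Finset.sum_congr rfl fun i _ => ?_
    congr 1
    ring

private theorem per_sum_mul {F : ℤ → ℝ} {M : ℕ} (hF : ∀ c, F (c + M) = F c) (a : ℤ) (k : ℕ) :
    ∑ i ∈ range (k * M), F (a + i) = k * ∑ i ∈ range M, F i := by
  induction k with
  | zero => simp
  | succ k ih =>
    rw [Nat.succ_mul, Finset.sum_range_add, ih]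
    have h := per_sum hF (a + ((k * M : ℕ) : ℤ))
    have h2 : ∑ x ∈ range M, F (a + ((k * M + x : ℕ) : ℤ)) = ∑ i ∈ range M, F (a + ((k * M : ℕ) : ℤ) + i) := by
      refine Finset.sum_congr rfl fun i _ => ?_
      congr 1
      push_cast
      ring
    rw [h2, h]
    push_cast
    ring

/-- Row C2.  Mass of a short interval of frequencies.
Recipe: `GG N x' = GG j x' * GG (N-j) (4^j x')` (B13), the first factor is at most `Cs j x` (C1), the second at `x' = c/4^N` is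
`GG (N-j) (c/4^(N-j))`; the `c` lie in an interval of `2 * 4^(N-j) + 1 ≤ 3 * 4^(N-j)` consecutive integers, i.e. in three periods, each of sum
`2^(N-j)` (P5 with `p = 1/4`).  `C = 3`. -/
theorem C2 : ∃ C : ℝ, 0 < C ∧ ∀ (N j : ℕ) (x : ℝ), j ≤ N →
    ∑ c ∈ Sh N x j, wt N c ≤ C * 2 ^ (N - j) * Cs j x := by
  obtain ⟨hC0, -, -, hCC, -⟩ := C1
  obtain ⟨-, -, -, -, -, hper, -, -, hnn, hadd, -⟩ := B13
  refine ⟨3, by norm_num, fun N j x hj => ?_⟩
  obtain ⟨n, hn⟩ : ∃ n, N = j + n := ⟨N - j, by omega⟩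
  have hn' : N - j = n := by omega
  rw [hn']
  have h4j : (0 : ℝ) < 4 ^ j := by positivity
  have h4n : (0 : ℝ) < 4 ^ n := by positivity
  have h4N : (4 : ℝ) ^ N = 4 ^ j * 4 ^ n := by rw [hn, pow_add]
  have hpos : ∀ c : ℤ, 0 ≤ GG (1 / 4) n ((c : ℝ) / 4 ^ n) := fun c =>
    hnn (1 / 4) _ n (by norm_num) (by norm_num)
  have hterm : ∀ c ∈ Sh N x j, wt N c ≤ Cs j x * GG (1 / 4) n ((c : ℝ) / 4 ^ n) := by
    intro c hc
    have hc' := (Finset.mem_filter.1 hc).2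
    unfold wt
    have h1 : GG (1 / 4) N ((c : ℝ) / 4 ^ N) =
        GG (1 / 4) j ((c : ℝ) / 4 ^ N) * GG (1 / 4) n ((c : ℝ) / 4 ^ n) := by
      rw [hn, hadd]
      congr 2
      rw [pow_add]
      field_simp
    rw [h1]
    exact mul_le_mul_of_nonneg_right (hCC j x _ hc') (hpos c)
  have hcast : ((4 ^ n : ℕ) : ℝ) = 4 ^ n := by push_cast; rfl
  have hFper : ∀ c : ℤ, (fun c : ℤ => GG (1 / 4) n ((c : ℝ) / 4 ^ n)) (c + ((4 ^ n : ℕ) : ℤ)) =
      (fun c : ℤ => GG (1 / 4) n ((c : ℝ) / 4 ^ n)) c := by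
    intro c
    have h1 := hper (1 / 4) ((c : ℝ) / 4 ^ n) n 1
    simp only
    rw [← h1]
    congr 1
    push_cast
    field_simp
  obtain ⟨a, ha⟩ : ∃ a : ℤ, a = ⌈4 ^ N * x - 4 ^ n⌉ := ⟨_, rfl⟩
  have hsub : Sh N x j ⊆ (range (3 * 4 ^ n)).image (fun i : ℕ => a + (i : ℤ)) := by
    intro c hc
    have hc' := (Finset.mem_filter.1 hc).2
    have h1 : |(c : ℝ) - 4 ^ N * x| ≤ 4 ^ n := by
      have h2 : (c : ℝ) - 4 ^ N * x = 4 ^ N * ((c : ℝ) / 4 ^ N - x) := by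
        have : (4 : ℝ) ^ N ≠ 0 := by positivity
        field_simp
      rw [h2, abs_mul, abs_of_pos (by positivity : (0 : ℝ) < 4 ^ N)]
      calc (4 : ℝ) ^ N * |(c : ℝ) / 4 ^ N - x| ≤ 4 ^ N * (1 / 4 ^ j) :=
            mul_le_mul_of_nonneg_left hc' (by positivity)
        _ = 4 ^ n := by rw [h4N]; field_simp
    obtain ⟨h2, h3⟩ := abs_le.1 h1
    have h4 : a ≤ c := by
      rw [ha]
      exact Int.ceil_le.2 (by linarith)
    have h5 : (c : ℝ) < a + 3 * 4 ^ n := by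
      have h6 : 4 ^ N * x - 4 ^ n ≤ (a : ℝ) := by rw [ha]; exact Int.le_ceil _
      have h7 : (1 : ℝ) ≤ 4 ^ n := one_le_pow₀ (by norm_num)
      have h8 : (c : ℝ) ≤ a + 2 * 4 ^ n := by linarith
      linarith
    have h6 : c < a + ((3 * 4 ^ n : ℕ) : ℤ) := by
      have : (c : ℝ) < ((a + ((3 * 4 ^ n : ℕ) : ℤ) : ℤ) : ℝ) := by push_cast; exact h5
      exact_mod_cast this
    refine Finset.mem_image.2 ⟨(c - a).toNat, ?_, ?_⟩
    · rw [Finset.mem_range]
      omega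
    · omega
  calc ∑ c ∈ Sh N x j, wt N c ≤ ∑ c ∈ Sh N x j, Cs j x * GG (1 / 4) n ((c : ℝ) / 4 ^ n) :=
        Finset.sum_le_sum hterm
    _ = Cs j x * ∑ c ∈ Sh N x j, GG (1 / 4) n ((c : ℝ) / 4 ^ n) := by rw [Finset.mul_sum]
    _ ≤ Cs j x * ∑ c ∈ (range (3 * 4 ^ n)).image (fun i : ℕ => a + (i : ℤ)),
          GG (1 / 4) n ((c : ℝ) / 4 ^ n) := by
        refine mul_le_mul_of_nonneg_left ?_ (hC0 j x).1
        exact Finset.sum_le_sum_of_subset_of_nonneg hsub (fun c _ _ => hpos c)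
    _ = Cs j x * ∑ i ∈ range (3 * 4 ^ n), GG (1 / 4) n (((a + (i : ℤ) : ℤ) : ℝ) / 4 ^ n) := by
        rw [Finset.sum_image]
        intro i _ i' _ h
        simpa using h
    _ = Cs j x * (3 * 2 ^ n) := by
        have h1 := per_sum_mul (F := fun c : ℤ => GG (1 / 4) n ((c : ℝ) / 4 ^ n)) (M := 4 ^ n) hFper a 3
        rw [h1]
        have h2 := P5 (1 / 4) n
        have h3 : ∑ i ∈ range (4 ^ n), GG (1 / 4) n ((((i : ℕ) : ℤ) : ℝ) / 4 ^ n) = 2 ^ n := by
          have h4 : (4 * (1 - 2 * (1 / 4 : ℝ))) = 2 := by norm_num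
          rw [h4] at h2
          rw [← h2]
          refine Finset.sum_congr rfl fun i _ => ?_
          push_cast
          rfl
        rw [h3]
        push_cast
        ring
    _ = 3 * 2 ^ n * Cs j x := by ring

end Pool.Agent.C52.RC2
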