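import Pool.Agent.Lib.MP_c52340_c5.DefsS
import Pool.Agent.Lib.MP_c52340_c5.B13
import Pool.Agent.Lib.MP_c52340_c5.T1
import Pool.Agent.Lib.MP_c52340_c5.P1


set_option autoImplicit false

open Finset

open Pool.Agent.C52.RB13 (B13)
open Pool.Agent.C52.RT1 (T1)
open Pool.Agent.C52.RP1 (P1)

namespace Pool.Agent.C52.RC3

private theorem per_shift3 {F : ℤ → ℝ} {M : ℕ} (hF : ∀ c, F (c + M) = F c) (a : ℤ) :
    ∑ i ∈ range M, F (a + 1 + i) = ∑ i ∈ range M, F (a + i) := by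
  have h1 := Finset.sum_range_succ (fun i : ℕ => F (a + i)) M
  have h2 := Finset.sum_range_succ' (fun i : ℕ => F (a + i)) M
  rw [h1] at h2
  have h3 : F (a + (M : ℕ)) = F (a + ((0 : ℕ) : ℤ)) := by rw [hF a]; simp
  rw [h3] at h2
  have h4 := add_right_cancel h2
  rw [h4]
  refine Finset.sum_congr rfl fun i _ => ?_
  congr 1
  push_cast
  ring

private theorem per_sum3 {F : ℤ → ℝ} {M : ℕ} (hF : ∀ c, F (c + M) = F c) (a : ℤ) :
    ∑ i ∈ range M, F (a + i) = ∑ i ∈ range M, F i := by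
  induction a using Int.induction_on with
  | zero => simp
  | succ n ih => rw [per_shift3 hF, ih]
  | pred n ih =>
    rw [← ih, ← per_shift3 hF (-(n : ℤ) - 1)]
    refine Finset.sum_congr rfl fun i _ => ?_
    congr 1
    ring

private theorem per_sum_mul3 {F : ℤ → ℝ} {M : ℕ} (hF : ∀ c, F (c + M) = F c) (a : ℤ) (k : ℕ) :
    ∑ i ∈ range (k * M), F (a + i) = k * ∑ i ∈ range M, F i := by
  induction k with
  | zero => simp
  | succ k ih =>
    rw [Nat.succ_mul, Finset.sum_range_add, ih]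
    have h := per_sum3 hF (a + ((k * M : ℕ) : ℤ))
    have h2 : ∑ x ∈ range M, F (a + ((k * M + x : ℕ) : ℤ)) = ∑ i ∈ range M, F (a + ((k * M : ℕ) : ℤ) + i) := by
      refine Finset.sum_congr rfl fun i _ => ?_
      congr 1
      push_cast
      ring
    rw [h2, h]
    push_cast
    ring

private theorem geom4 (m : ℕ) : ∑ i ∈ range m, (4 : ℝ) ^ i / 4 ^ m ≤ 1 / 3 := by
  have h4 : (0 : ℝ) < 4 ^ m := by positivity
  rw [← Finset.sum_div, div_le_iff₀ h4]
  have h : ∑ i ∈ range m, (4 : ℝ) ^ i = (4 ^ m - 1) / 3 := by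
    rw [geom_sum_eq (by norm_num)]
    norm_num
  rw [h]
  linarith

/-- Row C3.  Separated points.
Recipe: a cell `[c/4^m, (c+1)/4^m)` contains at most `17` points of `S`; on it `Cs m x ≤ ∏ (gf (1/4) (4^i c/4^m) + 8 * 4^i/4^m)`; the sum over one period of
cells is by P1 (`A i = 2 + 32 * 4^i/4^m`, T1) at most `2^m exp (16/3)`; `S ⊆ [-2, 2]` meets five periods. -/
theorem C3 : ∃ C : ℝ, 0 < C ∧ ∀ (m : ℕ) (S : Finset ℝ), (∀ x ∈ S, |x| ≤ 2) →
    (∀ x ∈ S, ∀ y ∈ S, x ≠ y → 1 / (16 * (4 : ℝ) ^ m) ≤ |x - y|) → ∑ x ∈ S, Cs m x ≤ C * 2 ^ m := by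
  classical
  obtain ⟨hper, -, -, hnn, hlip, -, -, -, -, -, -⟩ := B13
  refine ⟨16 * (5 * Real.exp (16 / 3)), by positivity, fun m S hS hsep => ?_⟩
  have h4m : (0 : ℝ) < 4 ^ m := by positivity
  obtain ⟨G, hG⟩ : ∃ G : ℤ → ℝ, G = fun c : ℤ =>
      ∏ i ∈ range m, (gf (1 / 4) (4 ^ i * (c : ℝ) / 4 ^ m) + 8 * 4 ^ i / 4 ^ m) := ⟨_, rfl⟩
  have hg0 : ∀ x : ℝ, 0 ≤ gf (1 / 4) x := fun x => hnn (1 / 4) x (by norm_num) (by norm_num)
  have hGpos : ∀ c, 0 ≤ G c := by
    intro c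
    rw [hG]
    exact Finset.prod_nonneg fun i _ => add_nonneg (hg0 _) (by positivity)
  have hGper : ∀ c : ℤ, G (c + ((4 ^ m : ℕ) : ℤ)) = G c := by
    intro c
    rw [hG]
    simp only
    refine Finset.prod_congr rfl fun i _ => ?_
    have h1 := hper (1 / 4) (4 ^ i * (c : ℝ) / 4 ^ m) (4 ^ i)
    rw [← h1]
    congr 2
    push_cast
    field_simp
  obtain ⟨cl, hcl⟩ : ∃ cl : ℝ → ℤ, cl = fun x => ⌊4 ^ m * x⌋ := ⟨_, rfl⟩
  have hCsG : ∀ x, Cs m x ≤ G (cl x) := by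
    intro x
    rw [hG]
    unfold Cs
    refine Finset.prod_le_prod (fun i _ => le_min zero_le_one (add_nonneg (hg0 _) (by positivity)))
      (fun i _ => ?_)
    refine (min_le_right _ _).trans ?_
    have h1 := hlip (1 / 4) (4 ^ i * x) (4 ^ i * ((cl x : ℤ) : ℝ) / 4 ^ m) (by norm_num)
    have h2 : |4 ^ i * x - 4 ^ i * ((cl x : ℤ) : ℝ) / 4 ^ m| ≤ 4 ^ i / 4 ^ m := by
      have h3 : 4 ^ i * x - 4 ^ i * ((cl x : ℤ) : ℝ) / 4 ^ m =
          4 ^ i / 4 ^ m * (4 ^ m * x - ((cl x : ℤ) : ℝ)) := by field_simp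
      rw [h3, abs_mul, abs_of_pos (by positivity : (0 : ℝ) < 4 ^ i / 4 ^ m)]
      have h4 : |4 ^ m * x - ((cl x : ℤ) : ℝ)| ≤ 1 := by
        rw [hcl]
        simp only
        have e1 := Int.floor_le (4 ^ m * x)
        have e2 := Int.lt_floor_add_one (4 ^ m * x)
        rw [abs_le]; constructor <;> linarith
      calc (4 : ℝ) ^ i / 4 ^ m * |4 ^ m * x - ((cl x : ℤ) : ℝ)| ≤ 4 ^ i / 4 ^ m * 1 :=
            mul_le_mul_of_nonneg_left h4 (by positivity)
        _ = 4 ^ i / 4 ^ m := mul_one _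
    have h3 : 4 * Real.pi * (1 / 4) * |4 ^ i * x - 4 ^ i * ((cl x : ℤ) : ℝ) / 4 ^ m| ≤
        4 * (4 ^ i / 4 ^ m) := by
      have hpi : 4 * Real.pi * (1 / 4) ≤ 4 := by have := Real.pi_le_four; linarith
      exact mul_le_mul hpi h2 (abs_nonneg _) (by norm_num)
    have h4 := le_abs_self (gf (1 / 4) (4 ^ i * x) - gf (1 / 4) (4 ^ i * ((cl x : ℤ) : ℝ) / 4 ^ m))
    have h5 : (4 : ℝ) * 4 ^ i / 4 ^ m = 4 * (4 ^ i / 4 ^ m) := by ring
    have h6 : (8 : ℝ) * 4 ^ i / 4 ^ m = 8 * (4 ^ i / 4 ^ m) := by ring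
    rw [h5, h6]
    linarith
  -- at most 16 points in a cell
  have hcard : ∀ c : ℤ, ((S.filter (fun x => cl x = c)).card : ℝ) ≤ 16 := by
    intro c
    have h1 : (S.filter (fun x => cl x = c)).card ≤ (Ico (16 * c) (16 * c + 16)).card := by
      refine Finset.card_le_card_of_injOn (fun x => ⌊16 * (4 ^ m * x)⌋) ?_ ?_
      · intro x hx
        have hx' := (Finset.mem_filter.1 hx).2
        rw [hcl] at hx'
        simp only at hx'
        have e1 := Int.floor_le (4 ^ m * x)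
        have e2 := Int.lt_floor_add_one (4 ^ m * x)
        rw [hx'] at e1 e2
        rw [Finset.coe_Ico, Set.mem_Ico]
        constructor
        · rw [Int.le_floor]; push_cast; linarith
        · rw [Int.floor_lt]; push_cast; linarith
      · intro x hx y hy hxy
        by_contra hne
        have hx' := (Finset.mem_filter.1 hx).1
        have hy' := (Finset.mem_filter.1 hy).1
        have h2 := hsep x hx' y hy' hne
        have h3 : 1 ≤ |16 * (4 ^ m * x) - 16 * (4 ^ m * y)| := by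
          have h4 : 16 * (4 ^ m * x) - 16 * (4 ^ m * y) = (16 * 4 ^ m) * (x - y) := by ring
          rw [h4, abs_mul, abs_of_pos (by positivity : (0 : ℝ) < 16 * 4 ^ m)]
          rw [div_le_iff₀ (by positivity)] at h2
          linarith
        have h5 := Int.abs_sub_lt_one_of_floor_eq_floor hxy
        linarith
    have h2 : (Ico (16 * c) (16 * c + 16)).card = 16 := by
      rw [Int.card_Ico]; omega
    rw [h2] at h1
    exact_mod_cast h1
  have hsum1 : ∑ x ∈ S, Cs m x ≤ ∑ c ∈ S.image cl, 16 * G c := by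
    calc ∑ x ∈ S, Cs m x ≤ ∑ x ∈ S, G (cl x) := Finset.sum_le_sum fun x _ => hCsG x
      _ = ∑ c ∈ S.image cl, (S.filter (fun x => cl x = c)).card • G c := Finset.sum_comp G cl
      _ ≤ ∑ c ∈ S.image cl, 16 * G c := by
          refine Finset.sum_le_sum fun c _ => ?_
          rw [nsmul_eq_mul]
          exact mul_le_mul_of_nonneg_right (hcard c) (hGpos c)
  have hsub : S.image cl ⊆ (range (5 * 4 ^ m)).image
      (fun i : ℕ => (-(2 * ((4 ^ m : ℕ) : ℤ))) + (i : ℤ)) := by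
    intro c hc
    obtain ⟨x, hx, rfl⟩ := Finset.mem_image.1 hc
    obtain ⟨h1, h2⟩ := abs_le.1 (hS x hx)
    have h3 : -(2 * ((4 ^ m : ℕ) : ℤ)) ≤ cl x := by
      rw [hcl]
      simp only
      rw [Int.le_floor]
      push_cast
      nlinarith
    have h4 : cl x < 2 * ((4 ^ m : ℕ) : ℤ) + 1 := by
      rw [hcl]
      simp only
      rw [Int.floor_lt]
      push_cast
      nlinarith
    have h5 : (1 : ℤ) ≤ ((4 ^ m : ℕ) : ℤ) := by exact_mod_cast Nat.one_le_pow _ _ (by norm_num)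
    refine Finset.mem_image.2 ⟨(cl x + 2 * ((4 ^ m : ℕ) : ℤ)).toNat, ?_, ?_⟩
    · rw [Finset.mem_range]
      obtain ⟨K, hK⟩ : ∃ K : ℕ, K = 4 ^ m := ⟨_, rfl⟩
      rw [← hK] at h3 h4 h5 ⊢
      omega
    · rw [Int.toNat_of_nonneg (by linarith)]
      ring
  have hone : ∑ i ∈ range (4 ^ m), G (i : ℤ) ≤ 2 ^ m * Real.exp (16 / 3) := by
    have h1 := P1 (fun i x => gf (1 / 4) x + 8 * 4 ^ i / 4 ^ m)
      (fun i => 2 + 32 * (4 ^ i / 4 ^ m)) (fun i x => add_nonneg (hg0 _) (by positivity))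
      (fun i x => by
        have := hper (1 / 4) x 1
        push_cast at this
        simp only [this]) (fun i x => by
        rw [Finset.sum_add_distrib, T1 (1 / 4) x]
        simp only [Finset.sum_const, Finset.card_range, nsmul_eq_mul]
        push_cast
        apply le_of_eq
        ring) m
    have h2 : ∑ i ∈ range (4 ^ m), G (i : ℤ) = ∑ c ∈ range (4 ^ m), ∏ i ∈ range m,
        (gf (1 / 4) (4 ^ i * (c : ℝ) / 4 ^ m) + 8 * 4 ^ i / 4 ^ m) := by
      rw [hG]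
      simp only [Int.cast_natCast]
    rw [h2]
    refine h1.trans ?_
    calc ∏ i ∈ range m, (2 + 32 * ((4 : ℝ) ^ i / 4 ^ m))
        ≤ ∏ i ∈ range m, (2 * Real.exp (16 * ((4 : ℝ) ^ i / 4 ^ m))) := by
          refine Finset.prod_le_prod (fun i _ => by positivity) (fun i _ => ?_)
          have := Real.add_one_le_exp (16 * ((4 : ℝ) ^ i / 4 ^ m))
          linarith
      _ = 2 ^ m * Real.exp (∑ i ∈ range m, 16 * ((4 : ℝ) ^ i / 4 ^ m)) := by
          rw [Finset.prod_mul_distrib, Finset.prod_const, Finset.card_range, Real.exp_sum]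
      _ ≤ 2 ^ m * Real.exp (16 / 3) := by
          refine mul_le_mul_of_nonneg_left (Real.exp_le_exp.2 ?_) (by positivity)
          rw [← Finset.mul_sum]
          have := geom4 m
          linarith
  calc ∑ x ∈ S, Cs m x ≤ ∑ c ∈ S.image cl, 16 * G c := hsum1
    _ ≤ ∑ c ∈ (range (5 * 4 ^ m)).image (fun i : ℕ => (-(2 * ((4 ^ m : ℕ) : ℤ))) + (i : ℤ)),
          16 * G c := by
        refine Finset.sum_le_sum_of_subset_of_nonneg hsub fun c _ _ => ?_
        have := hGpos c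
        positivity
    _ = 16 * ∑ i ∈ range (5 * 4 ^ m), G ((-(2 * ((4 ^ m : ℕ) : ℤ))) + (i : ℤ)) := by
        rw [Finset.sum_image, Finset.mul_sum]
        intro i _ i' _ h
        simpa using h
    _ = 16 * (5 * ∑ i ∈ range (4 ^ m), G (i : ℤ)) := by
        rw [per_sum_mul3 hGper (-(2 * ((4 ^ m : ℕ) : ℤ))) 5]
        push_cast
        ring
    _ ≤ 16 * (5 * (2 ^ m * Real.exp (16 / 3))) := by
        have : (0 : ℝ) ≤ 16 := by norm_num
        gcongr
    _ = 16 * (5 * Real.exp (16 / 3)) * 2 ^ m := by ring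

end Pool.Agent.C52.RC3
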