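import Pool.Agent.Lib.MP_c52340_c5.DefsS
import Pool.Agent.Lib.MP_c52340_c5.C1
import Pool.Agent.Lib.MP_c52340_c5.C3


set_option autoImplicit false

open Finset

open Pool.Agent.C52.RC1 (C1)
open Pool.Agent.C52.RC3 (C3)

namespace Pool.Agent.C52.RC4

/-- Row C4.  Sum over the fractions of one level.
Recipe: C1 (`Cs j ≤ Cs (2 i - N)`, truncated subtraction, `2 i - N ≤ i ≤ j`), C3 with `m = 2 i - N` for the image `S` of `Rt N g₀ i` under the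
injective map `(b, r) ↦ 4^N b/r - g₀`: two different values differ by at least `4^N/(r r') > 4^N/4^(2 i+2) ≥ 1/(16 * 4^m)`. -/
theorem C4 : ∃ C : ℝ, 0 < C ∧ ∀ (N i j : ℕ) (g₀ : ℤ), i ≤ j → j ≤ N →
    ∑ p ∈ Rt N g₀ i, Cs j (4 ^ N * (p.1 : ℝ) / (p.2 : ℝ) - (g₀ : ℝ)) ≤ C * 2 ^ (2 * i - N) := by
  classical
  obtain ⟨-, -, hmono, -, -⟩ := C1
  obtain ⟨C, hC, h3⟩ := C3
  refine ⟨C, hC, fun N i j g₀ hij hjN => ?_⟩
  obtain ⟨φ, hφ⟩ : ∃ φ : ℤ × ℕ → ℝ, φ = fun p => 4 ^ N * (p.1 : ℝ) / (p.2 : ℝ) - (g₀ : ℝ) :=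
    ⟨_, rfl⟩
  have hmem : ∀ p ∈ Rt N g₀ i, 4 ^ i ≤ p.2 ∧ p.2 < 4 ^ (i + 1) ∧ IsCoprime p.1 (p.2 : ℤ) ∧
      |φ p| ≤ 3 / 2 := by
    intro p hp
    obtain ⟨h1, h2, h3⟩ := Finset.mem_filter.1 hp
    obtain ⟨-, h4⟩ := Finset.mem_product.1 h1
    obtain ⟨h5, h6⟩ := Finset.mem_Ico.1 h4
    exact ⟨h5, h6, h2, by rw [hφ]; exact h3⟩
  have hsep : ∀ p ∈ Rt N g₀ i, ∀ p' ∈ Rt N g₀ i, p ≠ p' →
      1 / (16 * (4 : ℝ) ^ (2 * i - N)) ≤ |φ p - φ p'| := by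
    intro p hp p' hp' hne
    obtain ⟨a1, a2, a3, -⟩ := hmem p hp
    obtain ⟨b1, b2, b3, -⟩ := hmem p' hp'
    have hr : (0 : ℝ) < (p.2 : ℝ) := by
      have : 0 < p.2 := lt_of_lt_of_le (by positivity) a1
      exact_mod_cast this
    have hr' : (0 : ℝ) < (p'.2 : ℝ) := by
      have : 0 < p'.2 := lt_of_lt_of_le (by positivity) b1
      exact_mod_cast this
    have hcross : p.1 * (p'.2 : ℤ) - p'.1 * (p.2 : ℤ) ≠ 0 := by
      intro h0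
      apply hne
      have h0' : p.1 * (p'.2 : ℤ) = p'.1 * (p.2 : ℤ) := by linarith
      have hd1 : (p.2 : ℤ) ∣ (p'.2 : ℤ) := by
        have : (p.2 : ℤ) ∣ p.1 * (p'.2 : ℤ) := by rw [h0']; exact Dvd.intro_left _ rfl
        exact a3.symm.dvd_of_dvd_mul_left this
      have hd2 : (p'.2 : ℤ) ∣ (p.2 : ℤ) := by
        have : (p'.2 : ℤ) ∣ p'.1 * (p.2 : ℤ) := by rw [← h0']; exact Dvd.intro_left _ rfl
        exact b3.symm.dvd_of_dvd_mul_left this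
      have he : p.2 = p'.2 := Nat.dvd_antisymm (by exact_mod_cast hd1) (by exact_mod_cast hd2)
      have he1 : p.1 = p'.1 := by
        rw [he] at h0'
        have : (p'.2 : ℤ) ≠ 0 := by
          have : 0 < p'.2 := lt_of_lt_of_le (by positivity) b1
          exact_mod_cast this.ne'
        exact mul_right_cancel₀ this h0'
      exact Prod.ext he1 he
    have h1 : (1 : ℝ) ≤ |((p.1 * (p'.2 : ℤ) - p'.1 * (p.2 : ℤ) : ℤ) : ℝ)| := by
      rw [← Int.cast_abs]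
      exact_mod_cast Int.one_le_abs hcross
    have h2 : φ p - φ p' = 4 ^ N * ((p.1 * (p'.2 : ℤ) - p'.1 * (p.2 : ℤ) : ℤ) : ℝ) /
        ((p.2 : ℝ) * (p'.2 : ℝ)) := by
      rw [hφ]
      push_cast
      field_simp
      ring
    have h3 : (p.2 : ℝ) * (p'.2 : ℝ) ≤ 4 ^ (2 * i + 2) := by
      have e1 : (p.2 : ℝ) ≤ 4 ^ (i + 1) := by exact_mod_cast a2.le
      have e2 : (p'.2 : ℝ) ≤ 4 ^ (i + 1) := by exact_mod_cast b2.le
      calc (p.2 : ℝ) * (p'.2 : ℝ) ≤ 4 ^ (i + 1) * 4 ^ (i + 1) :=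
            mul_le_mul e1 e2 hr'.le (by positivity)
        _ = 4 ^ (2 * i + 2) := by rw [← pow_add]; congr 1; ring
    rw [h2, abs_div, abs_mul, abs_of_pos (by positivity : (0 : ℝ) < 4 ^ N),
      abs_of_pos (by positivity : (0 : ℝ) < (p.2 : ℝ) * (p'.2 : ℝ)), div_le_div_iff₀ (by positivity)
      (by positivity), one_mul]
    have h4 : (4 : ℝ) ^ (2 * i + 2) ≤ 4 ^ N * (16 * 4 ^ (2 * i - N)) := by
      have e1 : (4 : ℝ) ^ N * (16 * 4 ^ (2 * i - N)) = 4 ^ (N + (2 * i - N) + 2) := by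
        rw [pow_add, pow_add]; ring
      rw [e1]
      exact pow_le_pow_right₀ (by norm_num) (by omega)
    calc (p.2 : ℝ) * (p'.2 : ℝ) ≤ 4 ^ (2 * i + 2) := h3
      _ ≤ 4 ^ N * (16 * 4 ^ (2 * i - N)) := h4
      _ = 4 ^ N * 1 * (16 * 4 ^ (2 * i - N)) := by ring
      _ ≤ 4 ^ N * |((p.1 * (p'.2 : ℤ) - p'.1 * (p.2 : ℤ) : ℤ) : ℝ)| * (16 * 4 ^ (2 * i - N)) := by
          gcongr
  have hinj : Set.InjOn φ (Rt N g₀ i : Set (ℤ × ℕ)) := by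
    intro p hp p' hp' h
    by_contra hne
    have h1 := hsep p hp p' hp' hne
    rw [h, sub_self, abs_zero] at h1
    have : (0 : ℝ) < 1 / (16 * (4 : ℝ) ^ (2 * i - N)) := by positivity
    linarith
  have h4 := h3 (2 * i - N) ((Rt N g₀ i).image φ) (by
      intro x hx
      obtain ⟨p, hp, rfl⟩ := Finset.mem_image.1 hx
      have := (hmem p hp).2.2.2
      linarith) (by
      intro x hx y hy hxy
      obtain ⟨p, hp, rfl⟩ := Finset.mem_image.1 hx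
      obtain ⟨p', hp', rfl⟩ := Finset.mem_image.1 hy
      exact hsep p hp p' hp' (fun e => hxy (by rw [e])))
  rw [Finset.sum_image hinj] at h4
  calc ∑ p ∈ Rt N g₀ i, Cs j (4 ^ N * (p.1 : ℝ) / (p.2 : ℝ) - (g₀ : ℝ))
      ≤ ∑ p ∈ Rt N g₀ i, Cs (2 * i - N) (φ p) := by
        refine Finset.sum_le_sum fun p _ => ?_
        rw [hφ]
        exact hmono _ _ _ (by omega)
    _ ≤ C * 2 ^ (2 * i - N) := h4

end Pool.Agent.C52.RC4
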