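import Pool.Agent.Lib.MP_c52340_c5.DefsS
import Pool.Agent.Lib.MP_c52340_c5.C2
import Pool.Agent.Lib.MP_c52340_c5.C4


set_option autoImplicit false

open Finset

open Pool.Agent.C52.RC2 (C2)
open Pool.Agent.C52.RC4 (C4)

namespace Pool.Agent.C52.RC5

private theorem c5_geo (x : ℝ) (hx : 0 ≤ x) (hx1 : x < 1) (g N : ℕ) :
    ∑ i ∈ Icc g N, x ^ i ≤ x ^ g / (1 - x) := by
  have h : Icc g N = Ico g (N + 1) := by
    ext i; simp only [mem_Icc, mem_Ico]; omega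
  rw [h]
  exact geom_sum_Ico_le_of_lt_one hx hx1

private theorem c5_refl (x : ℝ) (hx : 0 ≤ x) (hx1 : x < 1) (g N : ℕ) :
    ∑ i ∈ Icc g N, x ^ (N - i) ≤ 1 / (1 - x) := by
  have h1 : ∑ i ∈ Icc g N, x ^ (N - i) ≤ ∑ i ∈ range (N + 1), x ^ (N - i) := by
    apply sum_le_sum_of_subset_of_nonneg
    · intro i hi
      rw [mem_Icc] at hi
      rw [mem_range]
      omega
    · intro i _ _
      positivity
  have h2 : ∑ i ∈ range (N + 1), x ^ (N - i) = ∑ i ∈ range (N + 1), x ^ i := by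
    have := Finset.sum_range_reflect (fun i => x ^ i) (N + 1)
    rw [← this]
    apply sum_congr rfl
    intro i hi
    congr 1
  have h3 : ∑ i ∈ range (N + 1), x ^ i ≤ 1 / (1 - x) := by
    have := geom_sum_Ico_le_of_lt_one (m := 0) (n := N + 1) hx hx1
    rw [pow_zero] at this
    rw [Finset.range_eq_Ico]
    exact this
  linarith

private theorem c5_term (N i : ℕ) (hi : i ≤ N) :
    (qq / 2) ^ i * (2 : ℝ) ^ (2 * i - N) ≤ (qq / 2) ^ i + qq ^ N * (1 / (2 * qq)) ^ (N - i) := by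
  have hq : (0 : ℝ) < qq := by unfold qq; norm_num
  rcases Nat.lt_or_ge N (2 * i) with h | h
  · have e : (qq / 2) ^ i * (2 : ℝ) ^ (2 * i - N) = qq ^ N * (1 / (2 * qq)) ^ (N - i) := by
      obtain ⟨d, rfl⟩ := Nat.exists_eq_add_of_le hi
      have hd : d < i := by omega
      have e1 : 2 * i - (i + d) = i - d := by omega
      have e2 : i + d - i = d := by omega
      rw [e1, e2]
      obtain ⟨m, rfl⟩ := Nat.exists_eq_add_of_le hd.le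
      have e3 : d + m - d = m := by omega
      rw [e3]
      rw [div_pow, div_pow, one_pow, mul_pow]
      field_simp
      ring
    rw [e]
    have : 0 ≤ (qq / 2) ^ i := by positivity
    linarith
  · have e1 : 2 * i - N = 0 := by omega
    rw [e1, pow_zero, mul_one]
    have : 0 ≤ qq ^ N * (1 / (2 * qq)) ^ (N - i) := by positivity
    linarith

/-- Row C5.  The fractions of high level.
Recipe: C2, C4: at most `C ∑_{i ≥ g} (q/2)^i 2^(2i-N) ∑_j q^(N-j)`; the sum over `j` is at most `1/(1-q)`; for `2 i ≤ N` the terms are `(q/2)^i`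
(sum `≤ 2 (q/2)^g`), for `2 i > N` they are `q^i 2^(i-N) = q^N (1/(2q))^(N-i)`. -/
theorem C5 : ∃ C : ℝ, 0 < C ∧ ∀ (N g : ℕ) (g₀ : ℤ),
    ∑ i ∈ Icc g N, ∑ p ∈ Rt N g₀ i, ∑ j ∈ Icc i N, (qq / 2) ^ (i + (N - j)) *
      ∑ c ∈ Sh N (4 ^ N * (p.1 : ℝ) / (p.2 : ℝ) - (g₀ : ℝ)) j, wt N c ≤
        C * ((qq / 2) ^ g + qq ^ N) := by
  obtain ⟨C₂, hC₂, h₂⟩ := C2
  obtain ⟨C₄, hC₄, h₄⟩ := C4
  have hq : (0 : ℝ) < qq := by unfold qq; norm_num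
  have hq1 : qq < 1 := by unfold qq; norm_num
  have hq2 : 0 < 1 - qq := by linarith
  refine ⟨C₂ * C₄ * (1 / (1 - qq)) * 4, by positivity, ?_⟩
  intro N g g₀
  have key : ∀ i ∈ Icc g N, ∑ p ∈ Rt N g₀ i, ∑ j ∈ Icc i N, (qq / 2) ^ (i + (N - j)) *
      ∑ c ∈ Sh N (4 ^ N * (p.1 : ℝ) / (p.2 : ℝ) - (g₀ : ℝ)) j, wt N c ≤
        C₂ * C₄ * (1 / (1 - qq)) * ((qq / 2) ^ i * (2 : ℝ) ^ (2 * i - N)) := by
    intro i hi
    rw [mem_Icc] at hi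
    rw [sum_comm]
    have s1 : ∀ j ∈ Icc i N, ∑ p ∈ Rt N g₀ i, (qq / 2) ^ (i + (N - j)) *
        ∑ c ∈ Sh N (4 ^ N * (p.1 : ℝ) / (p.2 : ℝ) - (g₀ : ℝ)) j, wt N c ≤
          C₂ * C₄ * ((qq / 2) ^ i * (2 : ℝ) ^ (2 * i - N)) * qq ^ (N - j) := by
      intro j hj
      rw [mem_Icc] at hj
      rw [← mul_sum]
      have s2 : ∑ p ∈ Rt N g₀ i, ∑ c ∈ Sh N (4 ^ N * (p.1 : ℝ) / (p.2 : ℝ) - (g₀ : ℝ)) j, wt N c ≤
          C₂ * 2 ^ (N - j) * (C₄ * 2 ^ (2 * i - N)) := by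
        calc ∑ p ∈ Rt N g₀ i, ∑ c ∈ Sh N (4 ^ N * (p.1 : ℝ) / (p.2 : ℝ) - (g₀ : ℝ)) j, wt N c
            ≤ ∑ p ∈ Rt N g₀ i, C₂ * 2 ^ (N - j) * Cs j (4 ^ N * (p.1 : ℝ) / (p.2 : ℝ) - (g₀ : ℝ)) :=
              sum_le_sum (fun p _ => h₂ N j _ hj.2)
          _ = C₂ * 2 ^ (N - j) * ∑ p ∈ Rt N g₀ i, Cs j (4 ^ N * (p.1 : ℝ) / (p.2 : ℝ) - (g₀ : ℝ)) := by
              rw [mul_sum]
          _ ≤ C₂ * 2 ^ (N - j) * (C₄ * 2 ^ (2 * i - N)) :=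
              mul_le_mul_of_nonneg_left (h₄ N i j g₀ hj.1 hj.2) (by positivity)
      calc (qq / 2) ^ (i + (N - j)) *
            ∑ p ∈ Rt N g₀ i, ∑ c ∈ Sh N (4 ^ N * (p.1 : ℝ) / (p.2 : ℝ) - (g₀ : ℝ)) j, wt N c
          ≤ (qq / 2) ^ (i + (N - j)) * (C₂ * 2 ^ (N - j) * (C₄ * 2 ^ (2 * i - N))) :=
            mul_le_mul_of_nonneg_left s2 (by positivity)
        _ = C₂ * C₄ * ((qq / 2) ^ i * (2 : ℝ) ^ (2 * i - N)) * ((qq / 2) ^ (N - j) * 2 ^ (N - j)) := by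
            rw [pow_add]; ring
        _ = C₂ * C₄ * ((qq / 2) ^ i * (2 : ℝ) ^ (2 * i - N)) * qq ^ (N - j) := by
            rw [← mul_pow, div_mul_cancel₀ _ (by norm_num : (2 : ℝ) ≠ 0)]
    calc ∑ j ∈ Icc i N, ∑ p ∈ Rt N g₀ i, (qq / 2) ^ (i + (N - j)) *
          ∑ c ∈ Sh N (4 ^ N * (p.1 : ℝ) / (p.2 : ℝ) - (g₀ : ℝ)) j, wt N c
        ≤ ∑ j ∈ Icc i N, C₂ * C₄ * ((qq / 2) ^ i * (2 : ℝ) ^ (2 * i - N)) * qq ^ (N - j) :=
          sum_le_sum s1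
      _ = C₂ * C₄ * ((qq / 2) ^ i * (2 : ℝ) ^ (2 * i - N)) * ∑ j ∈ Icc i N, qq ^ (N - j) := by
          rw [mul_sum]
      _ ≤ C₂ * C₄ * ((qq / 2) ^ i * (2 : ℝ) ^ (2 * i - N)) * (1 / (1 - qq)) :=
          mul_le_mul_of_nonneg_left (c5_refl qq hq.le hq1 i N) (by positivity)
      _ = C₂ * C₄ * (1 / (1 - qq)) * ((qq / 2) ^ i * (2 : ℝ) ^ (2 * i - N)) := by ring
  have r0 : (0 : ℝ) ≤ 1 / (2 * qq) := by positivity
  have r1 : 1 / (2 * qq) < 1 := by unfold qq; norm_num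
  have f1 : ∑ i ∈ Icc g N, (qq / 2) ^ i ≤ 4 * (qq / 2) ^ g := by
    have h := c5_geo (qq / 2) (by positivity) (by linarith) g N
    have h' : (qq / 2) ^ g / (1 - qq / 2) ≤ 4 * (qq / 2) ^ g := by
      rw [div_le_iff₀ (by linarith)]
      have : 0 ≤ (qq / 2) ^ g := by positivity
      nlinarith
    linarith
  have f2 : ∑ i ∈ Icc g N, (1 / (2 * qq)) ^ (N - i) ≤ 4 := by
    have h := c5_refl (1 / (2 * qq)) r0 r1 g N
    have h' : 1 / (1 - 1 / (2 * qq)) ≤ 4 := by unfold qq; norm_num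
    linarith
  have f3 : ∑ i ∈ Icc g N, (qq / 2) ^ i * (2 : ℝ) ^ (2 * i - N) ≤ 4 * ((qq / 2) ^ g + qq ^ N) := by
    calc ∑ i ∈ Icc g N, (qq / 2) ^ i * (2 : ℝ) ^ (2 * i - N)
        ≤ ∑ i ∈ Icc g N, ((qq / 2) ^ i + qq ^ N * (1 / (2 * qq)) ^ (N - i)) :=
          sum_le_sum (fun i hi => c5_term N i (mem_Icc.mp hi).2)
      _ = ∑ i ∈ Icc g N, (qq / 2) ^ i + qq ^ N * ∑ i ∈ Icc g N, (1 / (2 * qq)) ^ (N - i) := by
          rw [sum_add_distrib, mul_sum]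
      _ ≤ 4 * (qq / 2) ^ g + qq ^ N * 4 :=
          add_le_add f1 (mul_le_mul_of_nonneg_left f2 (by positivity))
      _ = 4 * ((qq / 2) ^ g + qq ^ N) := by ring
  calc ∑ i ∈ Icc g N, ∑ p ∈ Rt N g₀ i, ∑ j ∈ Icc i N, (qq / 2) ^ (i + (N - j)) *
        ∑ c ∈ Sh N (4 ^ N * (p.1 : ℝ) / (p.2 : ℝ) - (g₀ : ℝ)) j, wt N c
      ≤ ∑ i ∈ Icc g N, C₂ * C₄ * (1 / (1 - qq)) * ((qq / 2) ^ i * (2 : ℝ) ^ (2 * i - N)) :=
        sum_le_sum key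
    _ = C₂ * C₄ * (1 / (1 - qq)) * ∑ i ∈ Icc g N, (qq / 2) ^ i * (2 : ℝ) ^ (2 * i - N) := by
        rw [mul_sum]
    _ ≤ C₂ * C₄ * (1 / (1 - qq)) * (4 * ((qq / 2) ^ g + qq ^ N)) :=
        mul_le_mul_of_nonneg_left f3 (by positivity)
    _ = C₂ * C₄ * (1 / (1 - qq)) * 4 * ((qq / 2) ^ g + qq ^ N) := by ring

end Pool.Agent.C52.RC5
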