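import Mathlib

/-!
# Base 4 with digits 0, 1, -1: definitions

`M = 4 ^ N` throughout.  `Lset n` is the set of integers with at most `n` base 4 digits in
`{-1, 0, 1}`; `wG p n` is the law of `∑ 4 ^ i y_i` with independent digits, `P (y_i = ± 1) = p`,
`P (y_i = 0) = 1 - 2 p`; `GG p n x` is its characteristic function.  `p = 1/4` is used for the digits
of the product `k m`, `p = 1/3` (the uniform law) for the digits of `m`.
-/

set_option autoImplicit false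

open Finset

namespace Pool.Agent.C52

/-- the digits `-1, 0, 1` -/
def dig : Finset ℤ := {-1, 0, 1}

/-- integers with at most `n` digits -/
def Lset : ℕ → Finset ℤ
  | 0 => {0}
  | n + 1 => (Lset n ×ˢ dig).image (fun p => 4 * p.1 + p.2)

/-- weight of a digit -/
noncomputable def pg (p : ℝ) (t : ℤ) : ℝ := if t = 0 then 1 - 2 * p else p

/-- law of `∑ 4 ^ i y_i` -/
noncomputable def wG (p : ℝ) : ℕ → ℤ → ℝ
  | 0, y => if y = 0 then 1 else 0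
  | n + 1, y => ∑ t ∈ dig, if (4 : ℤ) ∣ y - t then pg p t * wG p n ((y - t) / 4) else 0

/-- `e(x) = exp (2 π i x)` -/
noncomputable def ee (x : ℝ) : ℂ := Complex.exp (2 * Real.pi * x * Complex.I)

/-- characteristic function of one digit -/
noncomputable def gf (p x : ℝ) : ℝ := 1 - 2 * p + 2 * p * Real.cos (2 * Real.pi * x)

/-- characteristic function of `n` digits -/
noncomputable def GG (p : ℝ) (n : ℕ) (x : ℝ) : ℝ := ∏ i ∈ range n, gf p (4 ^ i * x)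

/-- odd residues modulo `4 ^ N` -/
noncomputable def Odds (N : ℕ) : Finset ℤ := (Ico (0 : ℤ) (4 ^ N)).filter (fun k => Odd k)

/-- the constant `q < 1`; `4 q ^ 2` bounds `∑_{j<16} |d((x+j)/16) d((x+j)/4)|` -/
noncomputable def qq : ℝ := 9969 / 10000

/-- the parameter of the positive definite majorant: `(1 - δ) c + δ` with `δ = 1 / 500` -/
noncomputable def pd : ℝ := 499 / 2000

/-- nearest integer to `k m / M` -/
noncomputable def hi (N : ℕ) (k m : ℤ) : ℤ := round (((k * m : ℤ) : ℝ) / 4 ^ N)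

/-- centered frequencies `-M/2 < c ≤ M/2` -/
noncomputable def Fr (N : ℕ) : Finset ℤ := Ioc (-((4 : ℤ) ^ N / 2)) ((4 : ℤ) ^ N / 2)

/-- the law `wG (1/4) N` read modulo `4 ^ N` -/
noncomputable def wmod (N : ℕ) (z : ℤ) : ℝ :=
  ∑ y ∈ Lset N, if (4 : ℤ) ^ N ∣ z - y then wG (1 / 4) N y else 0

/-- mean over `Lset N`, real functions -/
noncomputable def avg (N : ℕ) (f : ℤ → ℝ) : ℝ := (∑ m ∈ Lset N, f m) / 3 ^ N

/-- mean over `Lset N`, complex functions -/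
noncomputable def avgC (N : ℕ) (f : ℤ → ℂ) : ℂ := (∑ m ∈ Lset N, f m) / 3 ^ N

/-- square of the normalised `ℓ²` norm on `Lset N`, complex functions -/
noncomputable def nsqC (N : ℕ) (f : ℤ → ℂ) : ℝ := (∑ m ∈ Lset N, ‖f m‖ ^ 2) / 3 ^ N

/-- square of the normalised `ℓ²` norm on `Lset N`, real functions -/
noncomputable def nsq (N : ℕ) (f : ℤ → ℝ) : ℝ := (∑ m ∈ Lset N, f m ^ 2) / 3 ^ N

/-- the block transfer operator -/
noncomputable def Qop (N : ℕ) (k : ℤ) (f : ℤ → ℝ) (m' : ℤ) : ℝ :=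
  avg N (fun m => 4 ^ N * wmod N (k * m + hi N k m') * f m)

/-- the block transfer operator minus its main part -/
noncomputable def Qp (N : ℕ) (k : ℤ) (f : ℤ → ℝ) (m' : ℤ) : ℝ := Qop N k f m' - avg N f

/-- the part of the block transfer operator with frequencies `c / M`, `c ∈ Θ` -/
noncomputable def QT (N : ℕ) (k : ℤ) (Θ : Finset ℤ) (f : ℤ → ℂ) (m' : ℤ) : ℂ :=
  ∑ c ∈ Θ, (GG (1 / 4) N ((c : ℝ) / 4 ^ N) : ℂ) * ee (-((c : ℝ) * hi N k m' / 4 ^ N)) *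
    avgC N (fun m => ee (-((c : ℝ) * (k * m : ℤ) / 4 ^ N)) * f m)

/-- structured nonzero frequencies -/
noncomputable def Ths (N : ℕ) (η : ℝ) : Finset ℤ :=
  (Fr N).filter (fun c => c ≠ 0 ∧ η ^ N < GG (1 / 4) N ((c : ℝ) / 4 ^ N))

/-- the other nonzero frequencies -/
noncomputable def Thr (N : ℕ) (η : ℝ) : Finset ℤ :=
  (Fr N).filter (fun c => c ≠ 0 ∧ GG (1 / 4) N ((c : ℝ) / 4 ^ N) ≤ η ^ N)

/-- the 2-adic Schur sum -/
noncomputable def Xs (N : ℕ) (k : ℤ) : ℝ :=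
  ∑ c ∈ range (4 ^ N), GG pd N ((c : ℝ) / 4 ^ N) * |GG (1 / 3) N ((k : ℝ) * c / 4 ^ N)|

/-- Fourier transform of the tent function `b(w) = 2 max (0, 1 - |w| / 2M)` modulo `M ^ 2` -/
noncomputable def bh (N : ℕ) (c : ℤ) : ℝ :=
  ‖∑ i ∈ range (2 * 4 ^ N), ee ((i : ℝ) * c / 16 ^ N)‖ ^ 2 / (4 ^ N) ^ 3

/-- the real Schur sum -/
noncomputable def Ys (N : ℕ) (k : ℤ) : ℝ :=
  4 ^ N * ∑ c ∈ range (16 ^ N), bh N c * GG pd N ((c : ℝ) / 4 ^ N) *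
    |GG (1 / 3) N ((k : ℝ) * c / 16 ^ N)|

/-- overlap of the frequencies `c₁ / M` (on `k m`) and `c₂ / M` (on `hi m`) -/
noncomputable def Wov (N : ℕ) (k c₁ c₂ : ℤ) : ℂ :=
  avgC N (fun m => ee ((c₁ : ℝ) * (k * m : ℤ) / 4 ^ N) * ee ((c₂ : ℝ) * hi N k m / 4 ^ N))

/-- one step of the digit walk, dual form -/
noncomputable def Gop (k : ℤ) (F : ℤ → ℝ) (z : ℤ) : ℝ :=
  ∑ x ∈ dig, ∑ y ∈ dig,
    if (4 : ℤ) ∣ z + k * x - y then 4 / 3 * pg (1 / 4) y * F ((z + k * x - y) / 4) else 0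

/-- normalised number of walks with `h` steps starting at `z` -/
noncomputable def gk (k : ℤ) (h : ℕ) : ℤ → ℝ := (Gop k)^[h] (fun _ => 1)

/-- contribution of the frequencies of exact level `i` -/
noncomputable def Xi (k : ℤ) (i : ℕ) : ℝ :=
  ∑ c ∈ (range (4 ^ i)).filter (fun c => ¬ 4 ∣ c),
    |GG (1 / 3) i ((k : ℝ) * c / 4 ^ i)| * GG (1 / 4) i ((c : ℝ) / 4 ^ i)

/-- trapezoid: `1` on `|t| ≤ ρ`, `0` for `|t| ≥ 1/2` -/
noncomputable def trap (ρ t : ℝ) : ℝ := max 0 (min 1 ((1 / 2 - |t|) / (1 / 2 - ρ)))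

/-- the real end -/
noncomputable def eta (ρ : ℝ) (h : ℕ) (κ D : ℝ) : ℝ :=
  4 ^ h * ∑ m ∈ Lset h, ∑ y ∈ Lset h,
    (1 / 3 : ℝ) ^ h * wG (1 / 4) h y * trap ρ (4 ^ h * D + κ * m - y)

/-- the real end with sharp cutoff: `4 ^ h P (round (κ X_h) = Y_h)` -/
noncomputable def sig (h : ℕ) (κ : ℝ) : ℝ :=
  4 ^ h * ∑ m ∈ Lset h, (1 / 3 : ℝ) ^ h * wG (1 / 4) h (round (κ * m))

/-- the start vector -/
noncomputable def vv (N : ℕ) (k m : ℤ) : ℝ := 4 ^ N * wmod N (k * m)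

/-- the end vector -/
noncomputable def uu (N : ℕ) (k m : ℤ) : ℝ := 4 ^ N * wG (1 / 4) N (hi N k m)

/-- inner product -/
noncomputable def ip (N : ℕ) (f g : ℤ → ℝ) : ℝ := avg N (fun m => f m * g m)

/-- the exceptional set of section 5: some fraction `b / d` with odd denominator is structured, and so
is `k b / d` -/
def Exc (lam : ℝ) (E : ℝ) (k : ℤ) : Prop :=
  ∃ d : ℕ, ∃ b : ℤ, ∃ s : ℕ, 3 ≤ d ∧ Odd d ∧ (d : ℝ) ≤ E ∧ IsCoprime (b : ℤ) (d : ℤ) ∧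
    4 ^ (s - 1) < d ∧ d ≤ 4 ^ s ∧
    lam ^ (2 * s) ≤ ∏ i ∈ range (2 * s),
      gf (1 / 4) (4 ^ i * ((b : ℝ) / d)) * |gf (1 / 3) (4 ^ i * ((k : ℝ) * b / d))|

/-- the combined frequency -/
noncomputable def bet (N : ℕ) (c₁ c₂ n : ℤ) : ℝ := (c₁ : ℝ) / 4 ^ N + ((c₂ : ℝ) / 4 ^ N + n) / 4 ^ N

/-- bound for the Fourier coefficients of the rounding phase -/
noncomputable def cb (N : ℕ) (c₂ n : ℤ) : ℝ := if n = 0 then 1 else 4 * |(c₂ : ℝ)| / (4 ^ N * |(n : ℝ)|)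

/-- resonance of `β` at level `g` -/
def Res (N g : ℕ) (β : ℝ) : Prop :=
  ∃ d : ℕ, 1 ≤ d ∧ d ≤ 4 ^ g ∧ |2 * d * β - round (2 * d * β)| ≤ 4 ^ (4 * g) / 4 ^ (2 * N)

/-- resonant `n` -/
noncomputable def resF (N g : ℕ) (c₁ c₂ : ℤ) : Finset ℤ := by
  classical exact (Fr N).filter (fun n => Res N g (bet N c₁ c₂ n))

/-- nonresonant `n` -/
noncomputable def nresF (N g : ℕ) (c₁ c₂ : ℤ) : Finset ℤ := by
  classical exact (Fr N).filter (fun n => ¬ Res N g (bet N c₁ c₂ n))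

/-- the dichotomy for overlaps of structured frequencies -/
def Dicho (N : ℕ) (η r : ℝ) (k : ℤ) : Prop :=
  ∀ c₁ ∈ Ths N η, ∀ c₂ ∈ Ths N η, ‖Wov N k c₁ c₂‖ ≤ r ^ N ∨
    ((4 : ℤ) ^ N ∣ 4 ^ (N / 16 + 1) * c₁ ∧ |c₂| ≤ 4 ^ (4 * (N / 16)))

/-- `∫ sc a x cos (2 π x t) dx = max 0 (a - |t|)` -/
noncomputable def sc (a x : ℝ) : ℝ := if x = 0 then a ^ 2 else (Real.sin (Real.pi * a * x) / (Real.pi * x)) ^ 2

/-- Fourier transform of the trapezoid -/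
noncomputable def psi (ρ x : ℝ) : ℝ := (sc (1 / 2) x - sc ρ x) / (1 / 2 - ρ)

/-- the integral controlling the real end -/
noncomputable def XR (h : ℕ) (κ : ℝ) : ℝ :=
  ∫ ζ : ℝ, |GG (1 / 3) h (κ * ζ / 4 ^ h)| * GG (1 / 4) h (ζ / 4 ^ h) * min (|ζ| / 4 ^ h) ((4 ^ h / ζ) ^ 2)

/-- some prefix brings `κ` to the target interval `[s, s + τ]` -/
def Hit (I₀ : ℕ) (s τ κ : ℝ) : Prop :=
  ∃ i ≤ I₀, ∃ m ∈ Lset i, ∃ y ∈ Lset i, s ≤ κ * m - y ∧ κ * m - y ≤ s + τ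

/-- base 4 with digits `-1, 0, 1`, as in the problem -/
def InL (n : ℤ) : Prop :=
  ∃ r : ℕ, ∃ d : ℕ → ℤ, (∀ i, d i = -1 ∨ d i = 0 ∨ d i = 1) ∧ n = ∑ i ∈ Finset.range r, d i * 4 ^ i

/-- proportion (with respect to `4 ^ N`) of the odd `k < 4 ^ N` without the property `P` -/
noncomputable def bad (N : ℕ) (P : ℤ → Prop) : ℝ := by
  classical exact (((Odds N).filter (fun k => ¬ P k)).card : ℝ) / 4 ^ N

/-- `k / 4 ^ N ∈ [1/8, 1/2)` -/
def InR (N : ℕ) (k : ℤ) : Prop := (4 : ℤ) ^ N ≤ 8 * k ∧ 2 * k < (4 : ℤ) ^ N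

/-- `k` has a multiplier `m` with `0 < m < B` -/
def HasMult (k : ℤ) (B : ℝ) : Prop := ∃ m : ℤ, 0 < m ∧ (m : ℝ) < B ∧ InL m ∧ InL (k * m)

end Pool.Agent.C52
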