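import Pool.Agent.Lib.MP_c52340_c5.Defs

/-!
# Definitions for the strong version (one absolute constant)
-/

set_option autoImplicit false

open Finset

namespace Pool.Agent.C52

/-- sum over all residues `k` modulo `4 ^ N` of `|D_N (k β)|` -/
noncomputable def Sk (N : ℕ) (β : ℝ) : ℝ := ∑ k ∈ range (4 ^ N), |GG (1 / 3) N ((k : ℝ) * β)|

/-- weight of the frequency `c / 4 ^ N` -/
noncomputable def wt (N : ℕ) (c : ℤ) : ℝ := GG (1 / 4) N ((c : ℝ) / 4 ^ N)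

/-- majorant of the overlap `Wov N k c₁ c₂` (row W1) -/
noncomputable def ov (N : ℕ) (k c₁ c₂ : ℤ) : ℝ :=
  ∑ n ∈ Fr N, cb N c₂ n * |GG (1 / 3) N (k * bet N c₁ c₂ n)|

/-- total overlap of the frequency `c₁` (on `k m`) with all frequencies on `hi m` -/
noncomputable def zR (N : ℕ) (k c₁ : ℤ) : ℝ := ∑ c₂ ∈ Fr N, wt N c₂ * ov N k c₁ c₂

/-- total overlap of the frequency `c₂` (on `hi m`) with all frequencies on `k m` -/
noncomputable def zL (N : ℕ) (k c₂ : ℤ) : ℝ := ∑ c₁ ∈ Fr N, wt N c₁ * ov N k c₁ c₂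

/-- nonzero frequencies of `4`-adic level at most `g` -/
noncomputable def Low (N g : ℕ) : Finset ℤ := (Fr N).filter (fun c => c ≠ 0 ∧ (4 : ℤ) ^ (N - g) ∣ c)

/-- the supremum of `GG (1/4) j` over a cell of length `4 ^ (-j)`, with room -/
noncomputable def Cs (j : ℕ) (x : ℝ) : ℝ :=
  ∏ i ∈ range j, min 1 (gf (1 / 4) (4 ^ i * x) + 4 * 4 ^ i / 4 ^ j)

/-- frequencies at distance at most `4 ^ (-j)` from `x` -/
noncomputable def Sh (N : ℕ) (x : ℝ) (j : ℕ) : Finset ℤ :=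
  (Fr N).filter (fun c => |(c : ℝ) / 4 ^ N - x| ≤ 1 / 4 ^ j)

/-- reduced fractions `b / r`, `4 ^ i ≤ r < 4 ^ (i + 1)`, close to `g₀ / 4 ^ N` -/
noncomputable def Rt (N : ℕ) (g₀ : ℤ) (i : ℕ) : Finset (ℤ × ℕ) :=
  ((Icc (-(4 ^ (i + 1) * (|g₀| + 2))) (4 ^ (i + 1) * (|g₀| + 2))) ×ˢ (Ico (4 ^ i) (4 ^ (i + 1)))).filter
    (fun p => IsCoprime p.1 (p.2 : ℤ) ∧ |4 ^ N * (p.1 : ℝ) / (p.2 : ℝ) - (g₀ : ℝ)| ≤ 3 / 2)

/-- dyadic denominator -/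
def Dy (p : ℤ × ℕ) : Prop := ∃ u : ℕ, p.2 = 2 ^ u

/-- the dyadic fractions in `Rt` -/
noncomputable def RtD (N : ℕ) (g₀ : ℤ) (i : ℕ) : Finset (ℤ × ℕ) := by
  classical exact (Rt N g₀ i).filter (fun p => Dy p)

/-- the other fractions in `Rt` -/
noncomputable def RtN (N : ℕ) (g₀ : ℤ) (i : ℕ) : Finset (ℤ × ℕ) := by
  classical exact (Rt N g₀ i).filter (fun p => ¬ Dy p)

/-- the contribution of the fraction `p` of level `i` to the average of the overlaps -/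
noncomputable def Tm (N : ℕ) (g₀ n : ℤ) (i : ℕ) (p : ℤ × ℕ) : ℝ :=
  ∑ j ∈ Icc i N, (qq / 2) ^ (i + (N - j)) *
    ∑ c ∈ Sh N (4 ^ N * (p.1 : ℝ) / (p.2 : ℝ) - (g₀ : ℝ)) j, wt N c * cb N c n

/-- reduced fractions `b / r` with `|b / r| ≤ 2`, `4 ^ i ≤ r < 4 ^ (i + 1)`, `r` not a power of `2` -/
noncomputable def Fd (i : ℕ) : Finset (ℤ × ℕ) := by
  classical
  exact ((Icc (-(2 * 4 ^ (i + 1))) (2 * 4 ^ (i + 1))) ×ˢ (Ico (4 ^ i) (4 ^ (i + 1)))).filter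
    (fun p : ℤ × ℕ => IsCoprime p.1 (p.2 : ℤ) ∧ ¬ Dy p ∧ |(p.1 : ℝ) / (p.2 : ℝ)| ≤ 2)

/-- sum of `Cs m` over the fractions with odd denominator in `(4 ^ (s-1), 4 ^ s]` -/
noncomputable def FS (s m : ℕ) : ℝ :=
  ∑ d ∈ (Ioc (4 ^ (s - 1)) (4 ^ s)).filter (fun d => Odd d ∧ 3 ≤ d),
    ∑ b ∈ (range d).filter (fun b => Nat.Coprime b d), Cs m ((b : ℝ) / (d : ℝ))

/-- the harmonic weights of a fraction against the frequencies -/
noncomputable def Hw (N : ℕ) (x : ℝ) : ℝ := ∑ c ∈ Fr N, wt N c / (1 + |4 ^ N * x - c|)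

/-- the function `m ↦ e(-c hi(m) / 4^N)` -/
noncomputable def Af (N : ℕ) (k c : ℤ) : ℤ → ℂ := fun m => ee (-((c : ℝ) * hi N k m / 4 ^ N))

/-- the functional `f ↦ avgC (e(-c k m / 4^N) f)` -/
noncomputable def bL (N : ℕ) (k c : ℤ) : (ℤ → ℂ) →ₗ[ℂ] ℂ :=
  ∑ m ∈ Lset N, (ee (-((c : ℝ) * (k * m : ℤ) / 4 ^ N)) / 3 ^ N) • (LinearMap.proj m : (ℤ → ℂ) →ₗ[ℂ] ℂ)

/-- the functional `f ↦ avgC (vv f)` -/
noncomputable def VL (N : ℕ) (k : ℤ) : (ℤ → ℂ) →ₗ[ℂ] ℂ :=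
  ∑ m ∈ Lset N, (((vv N k m : ℝ) : ℂ) / 3 ^ N) • (LinearMap.proj m : (ℤ → ℂ) →ₗ[ℂ] ℂ)

/-- the part of the transfer operator with frequencies in `Θ`, as a linear map -/
noncomputable def QL (N : ℕ) (k : ℤ) (Θ : Finset ℤ) : (ℤ → ℂ) →ₗ[ℂ] (ℤ → ℂ) :=
  ∑ c ∈ Θ, ((wt N c : ℝ) : ℂ) • (bL N k c).smulRight (Af N k c)

/-- the end vector as a complex function -/
noncomputable def uC (N : ℕ) (k : ℤ) : ℤ → ℂ := fun m => ((uu N k m : ℝ) : ℂ)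

/-- the bound for all matrix elements of at most `n` steps -/
noncomputable def Bd (N : ℕ) (k : ℤ) (n : ℕ) : ℝ := (Xs N k + Ys N k + 2) ^ (n + 2)

/-- the frequencies of high level, summed against the constant function -/
noncomputable def Xh (N g : ℕ) (k : ℤ) : ℝ :=
  ∑ c ∈ ((Fr N).erase 0) \ Low N g, wt N c * |GG (1 / 3) N ((k : ℝ) * ((c : ℝ) / 4 ^ N))|

end Pool.Agent.C52
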