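import Pool.Agent.Lib.MP_c52340_c5.DefsS
import Pool.Agent.Lib.MP_c52340_c5.B12
import Pool.Agent.Lib.MP_c52340_c5.B13
import Pool.Agent.Lib.MP_c52340_c5.P5


set_option autoImplicit false

open Finset

open Pool.Agent.C52.RB12 (B12)
open Pool.Agent.C52.RB13 (B13)
open Pool.Agent.C52.RP5 (P5)

namespace Pool.Agent.C52.RE1

private theorem e1_a (N : ℕ) (β : ℝ) :
    ∑ k ∈ Odds N, |GG (1 / 3) N ((k : ℝ) * β)| ≤ Sk N β := by
  unfold Sk
  have h1 : ∑ k ∈ Odds N, |GG (1 / 3) N ((k : ℝ) * β)| =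
      ∑ k ∈ (Odds N).image Int.toNat, |GG (1 / 3) N ((k : ℝ) * β)| := by
    rw [Finset.sum_image]
    · refine Finset.sum_congr rfl fun k hk => ?_
      rw [Odds, Finset.mem_filter, Finset.mem_Ico] at hk
      have : ((k.toNat : ℕ) : ℝ) = (k : ℝ) := by
        have h := Int.toNat_of_nonneg hk.1.1
        exact_mod_cast h
      rw [this]
    · intro a ha b hb hab
      rw [Finset.mem_coe, Odds, Finset.mem_filter, Finset.mem_Ico] at ha hb
      have h1 := Int.toNat_of_nonneg ha.1.1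
      have h2 := Int.toNat_of_nonneg hb.1.1
      have h3 : a.toNat = b.toNat := hab
      omega
  rw [h1]
  refine Finset.sum_le_sum_of_subset_of_nonneg ?_ fun _ _ _ => abs_nonneg _
  intro x hx
  rw [Finset.mem_image] at hx
  obtain ⟨k, hk, rfl⟩ := hx
  rw [Odds, Finset.mem_filter, Finset.mem_Ico] at hk
  rw [Finset.mem_range]
  have h := hk.1.2
  have h0 := hk.1.1
  have h2 : ((k.toNat : ℕ) : ℤ) < ((4 ^ N : ℕ) : ℤ) := by
    rw [Int.toNat_of_nonneg h0]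
    push_cast
    exact h
  exact_mod_cast h2

/-- Row E1.  Odd `k` versus all `k`, and the combined frequency. -/
theorem E1 : (∀ (N : ℕ) (β : ℝ), ∑ k ∈ Odds N, |GG (1 / 3) N ((k : ℝ) * β)| ≤ Sk N β) ∧
    (∀ (N : ℕ) (c₁ c₂ n : ℤ), bet N c₁ c₂ n = (((c₁ + n : ℤ) : ℝ) + (c₂ : ℝ) / 4 ^ N) / 4 ^ N) ∧
    (∀ (N : ℕ), 1 ≤ N → ∑ c ∈ Fr N, wt N c = 2 ^ N) ∧ (∀ (N : ℕ) (c : ℤ), 0 ≤ wt N c ∧ wt N c ≤ 1) := by
  refine ⟨e1_a, ?_, ?_, ?_⟩
  · intro N c₁ c₂ n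
    unfold bet
    push_cast
    ring
  · intro N hN
    rw [B12 N hN (fun c => wt N c)]
    · unfold wt
      have h := P5 (1 / 4) N
      have h2 : (4 * (1 - 2 * (1 / 4 : ℝ))) ^ N = 2 ^ N := by norm_num
      rw [h2] at h
      rw [← h]
      refine Finset.sum_congr rfl fun c _ => ?_
      push_cast
      rfl
    · intro c
      unfold wt
      have h4 : (4 : ℝ) ^ N ≠ 0 := by positivity
      have h : (((c + 4 ^ N : ℤ) : ℝ)) / 4 ^ N = (c : ℝ) / 4 ^ N + ((1 : ℤ) : ℝ) := by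
        push_cast
        field_simp
      rw [h, B13.2.2.2.2.2.1]
  · intro N c
    unfold wt
    have h1 := B13.2.2.2.2.2.2.2.2.1 (1 / 4) ((c : ℝ) / 4 ^ N) N (by norm_num) (by norm_num)
    have h2 := B13.2.2.2.2.2.2.2.1 (1 / 4) ((c : ℝ) / 4 ^ N) N (by norm_num) (by norm_num)
    exact ⟨h1, (le_abs_self _).trans h2⟩

end Pool.Agent.C52.RE1
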