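import Pool.Agent.Lib.MP_c52340_c5.DefsS
import Pool.Agent.Lib.MP_c52340_c5.B13
import Pool.Agent.Lib.MP_c52340_c5.P3
import Pool.Agent.Lib.MP_c52340_c5.P8


set_option autoImplicit false

open Finset

open Pool.Agent.C52.RB13 (B13)
open Pool.Agent.C52.RP3 (P3)
open Pool.Agent.C52.RP8 (P8)

namespace Pool.Agent.C52.RF1

/-- the product majorant on the cell of `c` -/
private noncomputable def f1E (i : ℕ) (c : ℤ) : ℝ :=
  ∏ l ∈ range i, (|gf (1 / 3) (4 ^ l * (c : ℝ) / 4 ^ i)| + 5 * 4 ^ l / 4 ^ i)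

private theorem f1E_nonneg (i : ℕ) (c : ℤ) : 0 ≤ f1E i c :=
  Finset.prod_nonneg fun l _ => by positivity

private theorem f1E_per (i : ℕ) (c z : ℤ) : f1E i (c + 4 ^ i * z) = f1E i c := by
  unfold f1E
  refine Finset.prod_congr rfl fun l _ => ?_
  have e : (4 : ℝ) ^ l * ((c + 4 ^ i * z : ℤ) : ℝ) / 4 ^ i =
      4 ^ l * (c : ℝ) / 4 ^ i + ((4 ^ l * z : ℤ) : ℝ) := by
    push_cast
    field_simp
  rw [e, B13.1]

/-- three neighbouring cells -/
private noncomputable def f1F (i : ℕ) (c : ℤ) : ℝ := f1E i (c - 1) + f1E i c + f1E i (c + 1)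

private theorem f1F_nonneg (i : ℕ) (c : ℤ) : 0 ≤ f1F i c := by
  unfold f1F
  have := f1E_nonneg i (c - 1)
  have := f1E_nonneg i c
  have := f1E_nonneg i (c + 1)
  linarith

private theorem f1F_per (i : ℕ) (c z : ℤ) : f1F i (c + 4 ^ i * z) = f1F i c := by
  unfold f1F
  have e1 : c + 4 ^ i * z - 1 = (c - 1) + 4 ^ i * z := by ring
  have e2 : c + 4 ^ i * z + 1 = (c + 1) + 4 ^ i * z := by ring
  rw [e1, e2, f1E_per, f1E_per, f1E_per]

private theorem f1_shift (n : ℕ) (g : ℤ → ℝ) (hg : ∀ c, g (c + n) = g c) :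
    ∑ c ∈ range n, g ((c : ℤ) + 1) = ∑ c ∈ range n, g (c : ℤ) := by
  have h1 := Finset.sum_range_succ (fun c : ℕ => g (c : ℤ)) n
  have h2 := Finset.sum_range_succ' (fun c : ℕ => g (c : ℤ)) n
  rw [h1] at h2
  have h3 : g ((n : ℕ) : ℤ) = g ((0 : ℕ) : ℤ) := by
    have := hg 0
    simpa using this
  simp only [Nat.cast_add, Nat.cast_one] at h2
  linarith

private theorem f1F_sum (i : ℕ) : ∑ c ∈ range (4 ^ i), f1F i (c : ℤ) =
    3 * ∑ c ∈ range (4 ^ i), f1E i (c : ℤ) := by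
  have hper : ∀ c : ℤ, f1E i (c + ((4 ^ i : ℕ) : ℤ)) = f1E i c := by
    intro c
    have := f1E_per i c 1
    push_cast
    simpa using this
  have h1 := f1_shift (4 ^ i) (f1E i) hper
  have h2 := f1_shift (4 ^ i) (fun c => f1E i (c - 1)) (fun c => by
    have := hper (c - 1)
    rw [← this]
    congr 1
    ring)
  simp only [add_sub_cancel_right] at h2
  unfold f1F
  rw [Finset.sum_add_distrib, Finset.sum_add_distrib, h1, ← h2]
  ring

private theorem f1_GG (i : ℕ) (x : ℝ) : |GG (1 / 3) i x| ≤ f1E i ⌊4 ^ i * x⌋ := by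
  have h4 : (0 : ℝ) < 4 ^ i := by positivity
  refine (P8 i ⌊4 ^ i * x⌋ x ?_ ?_).1
  · rw [div_le_iff₀ h4, mul_comm]
    exact Int.floor_le _
  · rw [le_div_iff₀ h4, mul_comm]
    exact (Int.lt_floor_add_one _).le

private theorem f1_GG_le {N i : ℕ} (hi : i ≤ N) (x : ℝ) :
    |GG (1 / 3) N x| ≤ |GG (1 / 3) i x| := by
  have h := B13.2.2.2.2.2.2.2.2.2.1 (1 / 3) x i (N - i)
  rw [Nat.add_sub_cancel' hi] at h
  rw [h, abs_mul]
  have h2 := B13.2.2.2.2.2.2.2.1 (1 / 3) (4 ^ i * x) (N - i) (by norm_num) (by norm_num)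
  exact mul_le_of_le_one_right (abs_nonneg _) h2

/-- one value of `k` -/
private theorem f1_point {N i : ℕ} {β : ℝ} {b : ℤ} {r : ℕ} (hr : 1 ≤ r) (hi : i ≤ N)
    (hβ : |β - b / r| ≤ 1 / (r * 4 ^ N)) (hir : 4 ^ i ≤ r) {k : ℕ} (hk : k < 4 ^ N) :
    |GG (1 / 3) N ((k : ℝ) * β)| ≤ f1F i (((4 : ℤ) ^ i * k * b) / r) := by
  refine (f1_GG_le hi _).trans ((f1_GG i _).trans ?_)
  have hr0 : (0 : ℝ) < r := by exact_mod_cast hr
  have hrz : (0 : ℤ) < r := by exact_mod_cast hr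
  have h4 : (0 : ℝ) < 4 ^ i := by positivity
  have h4N : (0 : ℝ) < 4 ^ N := by positivity
  obtain ⟨m, hm⟩ : ∃ m : ℤ, m = ((4 : ℤ) ^ i * k * b) / r := ⟨_, rfl⟩
  rw [← hm]
  have hm1 : (m : ℝ) ≤ 4 ^ i * k * b / r := by
    rw [le_div_iff₀ hr0, hm]
    have := Int.ediv_mul_le ((4 : ℤ) ^ i * k * b) hrz.ne'
    exact_mod_cast this
  have hm2 : (4 : ℝ) ^ i * k * b / r < m + 1 := by
    rw [div_lt_iff₀ hr0, hm]
    have := Int.lt_ediv_add_one_mul_self ((4 : ℤ) ^ i * k * b) hrz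
    exact_mod_cast this
  have hd : |4 ^ i * ((k : ℝ) * β) - 4 ^ i * k * b / r| ≤ 1 := by
    have e : 4 ^ i * ((k : ℝ) * β) - 4 ^ i * k * b / r = 4 ^ i * k * (β - b / r) := by
      field_simp
    rw [e, abs_mul, abs_of_nonneg (by positivity)]
    have hk' : (k : ℝ) ≤ 4 ^ N := by exact_mod_cast hk.le
    have hir' : (4 : ℝ) ^ i ≤ r := by exact_mod_cast hir
    calc (4 : ℝ) ^ i * k * |β - b / r| ≤ r * 4 ^ N * (1 / (r * 4 ^ N)) := by gcongr
      _ = 1 := by field_simp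
  obtain ⟨hd1, hd2⟩ := abs_le.mp hd
  have hf1 : m - 1 ≤ ⌊4 ^ i * ((k : ℝ) * β)⌋ := by
    rw [Int.le_floor]
    push_cast
    linarith
  have hf2 : ⌊4 ^ i * ((k : ℝ) * β)⌋ < m + 2 := by
    rw [Int.floor_lt]
    push_cast
    linarith
  have n1 := f1E_nonneg i (m - 1)
  have n2 := f1E_nonneg i m
  have n3 := f1E_nonneg i (m + 1)
  have h3 : ⌊4 ^ i * ((k : ℝ) * β)⌋ = m - 1 ∨ ⌊4 ^ i * ((k : ℝ) * β)⌋ = m ∨
      ⌊4 ^ i * ((k : ℝ) * β)⌋ = m + 1 := by omega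
  unfold f1F
  rcases h3 with h | h | h <;> rw [h] <;> linarith

private theorem f1_blocks (H : ℕ → ℝ) (r : ℕ) (hper : ∀ k, H (k + r) = H k) (q : ℕ) :
    ∑ k ∈ range (r * q), H k = q * ∑ k ∈ range r, H k := by
  have hper' : ∀ q k, H (r * q + k) = H k := by
    intro q
    induction q with
    | zero => intro k; simp
    | succ q ih =>
      intro k
      have e : r * (q + 1) + k = (r * q + k) + r := by ring
      rw [e, hper, ih]
  induction q with
  | zero => simp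
  | succ q ih =>
    rw [Nat.mul_succ, Finset.sum_range_add, ih]
    simp only [hper']
    push_cast
    ring

private theorem f1_block_le (H : ℕ → ℝ) (h0 : ∀ k, 0 ≤ H k) {r : ℕ} (hr : 1 ≤ r)
    (hper : ∀ k, H (k + r) = H k) (n : ℕ) :
    ∑ k ∈ range n, H k ≤ ((n / r : ℕ) + 1 : ℝ) * ∑ k ∈ range r, H k := by
  have h1 : n ≤ r * (n / r + 1) := by
    have := Nat.lt_mul_div_succ n (show 0 < r by omega)
    exact this.le
  calc ∑ k ∈ range n, H k ≤ ∑ k ∈ range (r * (n / r + 1)), H k :=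
        Finset.sum_le_sum_of_subset_of_nonneg (Finset.range_mono h1) fun k _ _ => h0 k
    _ = _ := by rw [f1_blocks H r hper]; push_cast; ring

/-- multiplication by `b` permutes the residues -/
private theorem f1_perm {r : ℕ} (hr : 1 ≤ r) {b : ℤ} (hb : IsCoprime b (r : ℤ)) (K : ℤ → ℝ) :
    ∑ l ∈ range r, K (((l : ℤ) * b) % r) = ∑ a ∈ range r, K (a : ℤ) := by
  have hrz : (0 : ℤ) < r := by exact_mod_cast hr
  have hmod0 : ∀ l : ℤ, 0 ≤ (l * b) % r := fun l => Int.emod_nonneg _ hrz.ne'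
  have hmod1 : ∀ l : ℤ, (l * b) % r < r := fun l => Int.emod_lt_of_pos _ hrz
  have hmaps : ∀ l ∈ range r, (((l : ℤ) * b) % r).toNat ∈ range r := by
    intro l _
    rw [Finset.mem_range]
    have := hmod0 l
    have := hmod1 l
    omega
  have hinj : Set.InjOn (fun l : ℕ => (((l : ℤ) * b) % r).toNat) (range r : Set ℕ) := by
    intro l hl l' hl' h
    simp only at h
    rw [Finset.coe_range, Set.mem_Iio] at hl hl'
    have h1 : ((l : ℤ) * b) % r = ((l' : ℤ) * b) % r := by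
      have := hmod0 l
      have := hmod0 l'
      omega
    have h2 : (r : ℤ) ∣ ((l : ℤ) * b) - ((l' : ℤ) * b) :=
      Int.ModEq.dvd (show (l' : ℤ) * b ≡ (l : ℤ) * b [ZMOD r] from h1.symm)
    have h3 : (r : ℤ) ∣ b * ((l : ℤ) - l') := by
      have e : b * ((l : ℤ) - l') = ((l : ℤ) * b) - ((l' : ℤ) * b) := by ring
      rw [e]; exact h2
    have h4 : (r : ℤ) ∣ (l : ℤ) - l' := hb.symm.dvd_of_dvd_mul_left h3
    have h5 := Int.eq_zero_of_abs_lt_dvd h4 (by rw [abs_lt]; constructor <;> omega)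
    omega
  refine Finset.sum_nbij (fun l : ℕ => (((l : ℤ) * b) % r).toNat) hmaps hinj ?_ ?_
  · exact Finset.surjOn_of_injOn_of_card_le _ hmaps hinj le_rfl
  · intro l _
    rw [Int.toNat_of_nonneg (hmod0 l)]

private theorem f1_count (i : ℕ) {r : ℕ} (hr : 1 ≤ r) (c : ℕ) :
    ((range r).filter (fun a => 4 ^ i * a / r = c)).card ≤ r / 4 ^ i + 1 := by
  rcases ((range r).filter (fun a => 4 ^ i * a / r = c)).eq_empty_or_nonempty with h | h
  · rw [h]; simp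
  · obtain ⟨a0, ha0, hmin⟩ := Finset.exists_min_image _ (fun a : ℕ => a) h
    have hsub : (range r).filter (fun a => 4 ^ i * a / r = c) ⊆ Icc a0 (a0 + r / 4 ^ i) := by
      intro a ha
      have h1 := hmin a ha
      rw [Finset.mem_filter] at ha ha0
      rw [Finset.mem_Icc]
      refine ⟨h1, ?_⟩
      have h4 : 0 < 4 ^ i := by positivity
      have h5 : (a - a0) ≤ r / 4 ^ i := by
        rw [Nat.le_div_iff_mul_le h4]
        have h6 : r * c ≤ 4 ^ i * a0 := by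
          rw [← ha0.2]; exact Nat.mul_div_le _ _
        have h7 : 4 ^ i * a < r * (c + 1) := by
          rw [← ha.2]; exact Nat.lt_mul_div_succ _ (by omega)
        have h8 : (a - a0) * 4 ^ i + 4 ^ i * a0 = 4 ^ i * a := by
          rw [mul_comm (a - a0), ← Nat.mul_add, Nat.sub_add_cancel h1]
        have h9 : r * (c + 1) = r * c + r := by ring
        omega
      omega
    refine (Finset.card_le_card hsub).trans ?_
    rw [Nat.card_Icc]
    generalize r / 4 ^ i = t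
    omega

private theorem f1_cells (i : ℕ) {r : ℕ} (hr : 1 ≤ r) (hir : 4 ^ i ≤ r) (g : ℤ → ℝ)
    (hg : ∀ c, 0 ≤ g c) :
    ∑ a ∈ range r, g (((4 : ℤ) ^ i * a) / r) ≤ 2 * r / 4 ^ i * ∑ c ∈ range (4 ^ i), g (c : ℤ) := by
  have h4 : (0 : ℝ) < 4 ^ i := by positivity
  have e1 : ∀ a : ℕ, ((4 : ℤ) ^ i * a) / r = ((4 ^ i * a / r : ℕ) : ℤ) := by
    intro a; push_cast; rfl
  simp only [e1]
  have hmaps : ∀ a ∈ range r, 4 ^ i * a / r ∈ range (4 ^ i) := by
    intro a ha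
    rw [Finset.mem_range] at ha ⊢
    rw [Nat.div_lt_iff_lt_mul (by omega)]
    exact Nat.mul_lt_mul_of_pos_left ha (by positivity)
  rw [← Finset.sum_fiberwise_of_maps_to hmaps, Finset.mul_sum]
  refine Finset.sum_le_sum fun c _ => ?_
  have e2 : ∑ a ∈ (range r).filter (fun a => 4 ^ i * a / r = c), g ((4 ^ i * a / r : ℕ) : ℤ) =
      (((range r).filter (fun a => 4 ^ i * a / r = c)).card : ℝ) * g (c : ℤ) := by
    rw [← nsmul_eq_mul, ← Finset.sum_const]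
    refine Finset.sum_congr rfl fun a ha => ?_
    rw [(Finset.mem_filter.mp ha).2]
  rw [e2]
  refine mul_le_mul_of_nonneg_right ?_ (hg _)
  have h5 : (((range r).filter (fun a => 4 ^ i * a / r = c)).card : ℝ) ≤ ((r / 4 ^ i : ℕ) : ℝ) + 1 := by
    exact_mod_cast f1_count i hr c
  have h6 : ((r / 4 ^ i : ℕ) : ℝ) ≤ (r : ℝ) / 4 ^ i := by
    have := @Nat.cast_div_le ℝ _ _ _ r (4 ^ i)
    push_cast at this
    exact this
  have h7 : (1 : ℝ) ≤ (r : ℝ) / 4 ^ i := by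
    rw [le_div_iff₀ h4, one_mul]; exact_mod_cast hir
  have h8 : 2 * (r : ℝ) / 4 ^ i = (r : ℝ) / 4 ^ i + (r : ℝ) / 4 ^ i := by ring
  linarith

/-- Row F1.  First-order average of `|D_N (k β)|` near a fraction with denominator `r`.
Recipe.  `i ≤ N`, `|GG N x| ≤ |GG i x|` (B13).  Write `k = l + r p`, `0 ≤ l < r`, `γ = β - b / r`: modulo `1`, `k β = l b / r + k γ` and
`|k γ| ≤ 1 / r ≤ 4^{-i}` has constant sign.  In each block of `r` consecutive `k` the numbers `l b / r` are the distinct multiples of `1/r`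
(`b` coprime to `r`), so each of the `4^i` cells `[c/4^i, (c+1)/4^i)` contains at most `r/4^i + 3 ≤ 4 r/4^i` of the points `k β` mod `1`; there are at
most `4^N/r + 1 ≤ 2 * 4^N/r` blocks.  P8 and P3: total `≤ 8 * 4^N/4^i * C (2 q)^i`. -/
theorem F1 : ∃ C : ℝ, 0 < C ∧ ∀ (N i : ℕ) (β : ℝ) (b : ℤ) (r : ℕ), 1 ≤ r → r ≤ 4 ^ N →
    IsCoprime b (r : ℤ) → |β - b / r| ≤ 1 / (r * 4 ^ N) → 4 ^ i ≤ r →
    Sk N β ≤ C * 4 ^ N * (qq / 2) ^ i := by
  obtain ⟨C, hC, hP3⟩ := P3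
  refine ⟨12 * C, by positivity, fun N i β b r hr hrN hb hβ hir => ?_⟩
  have hi : i ≤ N := (Nat.pow_le_pow_iff_right (by norm_num)).mp (hir.trans hrN)
  have hr0 : (0 : ℝ) < r := by exact_mod_cast hr
  have hrz : (0 : ℤ) < r := by exact_mod_cast hr
  have h4 : (0 : ℝ) < 4 ^ i := by positivity
  obtain ⟨H, hH⟩ : ∃ H : ℕ → ℝ, H = fun k : ℕ => f1F i (((4 : ℤ) ^ i * k * b) / r) := ⟨_, rfl⟩
  have hHper : ∀ k, H (k + r) = H k := by
    intro k
    rw [hH]
    simp only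
    have e : (4 : ℤ) ^ i * ((k + r : ℕ) : ℤ) * b = 4 ^ i * k * b + (4 ^ i * b) * r := by
      push_cast; ring
    rw [e, Int.add_mul_ediv_right _ _ hrz.ne', f1F_per]
  have h1 : Sk N β ≤ ∑ k ∈ range (4 ^ N), H k := by
    unfold Sk
    refine Finset.sum_le_sum fun k hk => ?_
    rw [hH]
    exact f1_point hr hi hβ hir (Finset.mem_range.mp hk)
  have h2 := f1_block_le H (fun k => by rw [hH]; exact f1F_nonneg _ _) hr hHper (4 ^ N)
  have h3 : ∑ k ∈ range r, H k = ∑ a ∈ range r, f1F i (((4 : ℤ) ^ i * a) / r) := by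
    rw [← f1_perm hr hb (fun a => f1F i (((4 : ℤ) ^ i * a) / r))]
    refine Finset.sum_congr rfl fun l _ => ?_
    rw [hH]
    simp only
    have e : (4 : ℤ) ^ i * l * b = 4 ^ i * (((l : ℤ) * b) % r) + (4 ^ i * (((l : ℤ) * b) / r)) * r := by
      have := Int.emod_add_mul_ediv ((l : ℤ) * b) r
      linear_combination -(4 : ℤ) ^ i * this
    rw [e, Int.add_mul_ediv_right _ _ hrz.ne', f1F_per]
  have h5 := f1_cells i hr hir (f1F i) (f1F_nonneg i)
  rw [f1F_sum] at h5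
  have h6 : ∑ c ∈ range (4 ^ i), f1E i (c : ℤ) ≤ C * (2 * qq) ^ i := by
    have := hP3 i
    unfold f1E
    simpa using this
  have h7 : (((4 ^ N / r : ℕ) : ℝ) + 1) ≤ 2 * 4 ^ N / r := by
    have e1 : ((4 ^ N / r : ℕ) : ℝ) ≤ (4 : ℝ) ^ N / r := by
      have := @Nat.cast_div_le ℝ _ _ _ (4 ^ N) r
      push_cast at this
      exact this
    have e2 : (1 : ℝ) ≤ (4 : ℝ) ^ N / r := by
      rw [le_div_iff₀ hr0, one_mul]; exact_mod_cast hrN
    have e3 : 2 * (4 : ℝ) ^ N / r = (4 : ℝ) ^ N / r + (4 : ℝ) ^ N / r := by ring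
    linarith
  have h8 : 0 ≤ ∑ k ∈ range r, H k := Finset.sum_nonneg fun k _ => by rw [hH]; exact f1F_nonneg _ _
  calc Sk N β ≤ ∑ k ∈ range (4 ^ N), H k := h1
    _ ≤ (((4 ^ N / r : ℕ) : ℝ) + 1) * ∑ k ∈ range r, H k := h2
    _ ≤ (2 * 4 ^ N / r) * ∑ k ∈ range r, H k := mul_le_mul_of_nonneg_right h7 h8
    _ ≤ (2 * 4 ^ N / r) * (2 * r / 4 ^ i * (3 * (C * (2 * qq) ^ i))) := by
        refine mul_le_mul_of_nonneg_left ?_ (by positivity)
        rw [h3]
        refine h5.trans ?_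
        gcongr
    _ = 12 * C * 4 ^ N * (qq / 2) ^ i := by
        have e : (2 * qq) ^ i = (qq / 2) ^ i * 4 ^ i := by
          rw [← mul_pow]; congr 1; ring
        rw [e]
        field_simp
        ring

end Pool.Agent.C52.RF1
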