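import Pool.Agent.Lib.MP_c52340_c5.DefsS
import Pool.Agent.Lib.MP_c52340_c5.B13
import Pool.Agent.Lib.MP_c52340_c5.P3
import Pool.Agent.Lib.MP_c52340_c5.P8
import Pool.Agent.Lib.MP_c52340_c5.A2


set_option autoImplicit false

open Finset

open Pool.Agent.C52.RB13 (B13)
open Pool.Agent.C52.RP3 (P3)
open Pool.Agent.C52.RP8 (P8)
open Pool.Agent.C52.RA2 (A2)

namespace Pool.Agent.C52.RF2

private noncomputable def E2 (n : ℕ) (c : ℤ) : ℝ :=
  ∏ t ∈ range n, (|gf (1 / 3) (4 ^ t * (c : ℝ) / 4 ^ n)| + 5 * 4 ^ t / 4 ^ n)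

private theorem E2_nonneg (n : ℕ) (c : ℤ) : 0 ≤ E2 n c := by
  unfold E2
  apply Finset.prod_nonneg
  intro t _
  positivity

private theorem E2_per (n : ℕ) (c z : ℤ) : E2 n (c + 4 ^ n * z) = E2 n c := by
  unfold E2
  apply Finset.prod_congr rfl
  intro t _
  have h4 : (4 : ℝ) ^ n ≠ 0 := by positivity
  have e : (4 : ℝ) ^ t * ((c + 4 ^ n * z : ℤ) : ℝ) / 4 ^ n
      = 4 ^ t * (c : ℝ) / 4 ^ n + ((4 ^ t * z : ℤ) : ℝ) := by
    push_cast
    field_simp
  rw [e, B13.1]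

private theorem sum_shift (M : ℕ) (F : ℤ → ℝ) (hF : ∀ c, F (c + M) = F c) :
    ∑ c ∈ range M, F ((c : ℤ) + 1) = ∑ c ∈ range M, F (c : ℤ) := by
  have h1 := Finset.sum_range_succ (fun c : ℕ => F (c : ℤ)) M
  have h2 := Finset.sum_range_succ' (fun c : ℕ => F (c : ℤ)) M
  have h3 : F (M : ℤ) = F 0 := by
    have := hF 0
    rwa [zero_add] at this
  simp only [Nat.cast_add, Nat.cast_one, Nat.cast_zero] at h2
  linarith

private theorem cell_bound (i : ℕ) (x y : ℝ) (h : |x - y| ≤ 1 / 4 ^ i) :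
    |GG (1 / 3) i x| ≤ E2 i (⌊4 ^ i * y⌋ - 1) + E2 i ⌊4 ^ i * y⌋ + E2 i (⌊4 ^ i * y⌋ + 1) := by
  have h4 : (0 : ℝ) < 4 ^ i := by positivity
  set c : ℤ := ⌊(4 : ℝ) ^ i * y⌋ with hc
  have hc1 : (c : ℝ) ≤ 4 ^ i * y := Int.floor_le _
  have hc2 : (4 : ℝ) ^ i * y < c + 1 := Int.lt_floor_add_one _
  have hx : |4 ^ i * x - 4 ^ i * y| ≤ 1 := by
    rw [← mul_sub, abs_mul, abs_of_pos h4]
    calc (4 : ℝ) ^ i * |x - y| ≤ 4 ^ i * (1 / 4 ^ i) := by gcongr
      _ = 1 := by field_simp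
  obtain ⟨hx1, hx2⟩ := abs_le.1 hx
  have key : ∀ e : ℤ, (e : ℝ) ≤ 4 ^ i * x → 4 ^ i * x ≤ e + 1 → |GG (1 / 3) i x| ≤ E2 i e := by
    intro e he1 he2
    refine (P8 i e x ?_ ?_).1
    · rw [div_le_iff₀ h4]; linarith
    · rw [le_div_iff₀ h4]; linarith
  have n1 := E2_nonneg i (c - 1)
  have n2 := E2_nonneg i c
  have n3 := E2_nonneg i (c + 1)
  by_cases ha : 4 ^ i * x ≤ c
  · have := key (c - 1) (by push_cast; linarith) (by push_cast; linarith)
    linarith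
  · push Not at ha
    by_cases hb : 4 ^ i * x ≤ c + 1
    · have := key c ha.le hb
      linarith
    · push Not at hb
      have := key (c + 1) (by push_cast; linarith) (by push_cast; linarith)
      linarith

/-- sum over the multiples of `1/r` -/
private theorem fiber_sum (i r : ℕ) (hr : 1 ≤ r) (hir : 4 ^ i ≤ r) (G : ℤ → ℝ) (hG : ∀ c, 0 ≤ G c) :
    ∑ a ∈ range r, G ⌊4 ^ i * ((a : ℝ) / r)⌋ ≤ 2 * (r / 4 ^ i) * ∑ c ∈ range (4 ^ i), G (c : ℤ) := by
  have h4 : (0 : ℝ) < 4 ^ i := by positivity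
  have hr0 : (0 : ℝ) < r := by exact_mod_cast hr
  have hfl : ∀ a ∈ range r, ⌊(4 : ℝ) ^ i * ((a : ℝ) / r)⌋₊ ∈ range (4 ^ i) := by
    intro a ha
    rw [mem_range] at ha ⊢
    rw [Nat.floor_lt (by positivity)]
    push_cast
    have : (a : ℝ) / r < 1 := by
      rw [div_lt_one hr0]
      exact_mod_cast ha
    calc (4 : ℝ) ^ i * ((a : ℝ) / r) < 4 ^ i * 1 := by gcongr
      _ = 4 ^ i := mul_one _
  have h1 : ∑ a ∈ range r, G ⌊4 ^ i * ((a : ℝ) / r)⌋ =
      ∑ a ∈ range r, G ((⌊(4 : ℝ) ^ i * ((a : ℝ) / r)⌋₊ : ℕ) : ℤ) := by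
    apply Finset.sum_congr rfl
    intro a _
    rw [Int.natCast_floor_eq_floor (by positivity)]
  rw [h1, ← Finset.sum_fiberwise_of_maps_to hfl, Finset.mul_sum]
  apply Finset.sum_le_sum
  intro c hc
  have h2 : ∑ a ∈ (range r).filter (fun a : ℕ => ⌊(4 : ℝ) ^ i * ((a : ℝ) / r)⌋₊ = c),
      G ((⌊(4 : ℝ) ^ i * ((a : ℝ) / r)⌋₊ : ℕ) : ℤ) =
      (((range r).filter (fun a : ℕ => ⌊(4 : ℝ) ^ i * ((a : ℝ) / r)⌋₊ = c)).card : ℝ) * G (c : ℤ) := by
    rw [← nsmul_eq_mul, ← Finset.sum_const]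
    apply Finset.sum_congr rfl
    intro a ha
    rw [(Finset.mem_filter.1 ha).2]
  rw [h2]
  apply mul_le_mul_of_nonneg_right _ (hG _)
  set S := (range r).filter (fun a : ℕ => ⌊(4 : ℝ) ^ i * ((a : ℝ) / r)⌋₊ = c) with hS
  rcases S.eq_empty_or_nonempty with hE | hne
  · rw [hE]; simp; positivity
  · have hmin : ∀ a ∈ S, a ∈ Ico (S.min' hne) (S.min' hne + (r / 4 ^ i + 1)) := by
      intro a ha
      have hm := S.min'_mem hne
      have hle : S.min' hne ≤ a := S.min'_le a ha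
      set m := S.min' hne with hmdef
      rw [mem_Ico]
      refine ⟨hle, ?_⟩
      have e1 := (Finset.mem_filter.1 ha).2
      have e2 := (Finset.mem_filter.1 hm).2
      have f1 : (4 : ℝ) ^ i * ((a : ℝ) / r) < c + 1 := by
        rw [← e1]; exact Nat.lt_floor_add_one _
      have f2 : (c : ℝ) ≤ (4 : ℝ) ^ i * ((m : ℝ) / r) := by
        rw [← e2]; exact Nat.floor_le (by positivity)
      have f3 : (4 : ℝ) ^ i * ((a : ℝ) - m) < r := by
        have : (4 : ℝ) ^ i * ((a : ℝ) / r) - 4 ^ i * ((m : ℝ) / r) < 1 := by linarith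
        have e : (4 : ℝ) ^ i * ((a : ℝ) / r) - 4 ^ i * ((m : ℝ) / r) = (4 ^ i * ((a : ℝ) - m)) / r := by
          field_simp
        rw [e, div_lt_one hr0] at this
        exact this
      have f4 : (a - m) * 4 ^ i ≤ r := by
        have : (((a - m) * 4 ^ i : ℕ) : ℝ) ≤ (r : ℝ) := by
          rw [Nat.cast_mul, Nat.cast_sub hle]
          push_cast
          linarith
        exact_mod_cast this
      have f5 : a - m ≤ r / 4 ^ i := by
        rw [Nat.le_div_iff_mul_le (by positivity)]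
        exact f4
      omega
    have hcard : S.card ≤ r / 4 ^ i + 1 := by
      calc S.card ≤ (Ico (S.min' hne) (S.min' hne + (r / 4 ^ i + 1))).card :=
            Finset.card_le_card hmin
        _ = r / 4 ^ i + 1 := by rw [Nat.card_Ico, Nat.add_sub_cancel_left]
    have g1 : (S.card : ℝ) ≤ ((r / 4 ^ i : ℕ) : ℝ) + 1 := by exact_mod_cast hcard
    have g2 : ((r / 4 ^ i : ℕ) : ℝ) ≤ (r : ℝ) / 4 ^ i := by
      have := @Nat.cast_div_le ℝ _ _ _ r (4 ^ i)
      push_cast at this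
      exact this
    have g3 : (1 : ℝ) ≤ r / 4 ^ i := by
      rw [le_div_iff₀ h4, one_mul]
      exact_mod_cast hir
    linarith

private theorem perm_sum (r : ℕ) (hr : 1 ≤ r) (b : ℤ) (hb : IsCoprime b (r : ℤ)) (G : ℕ → ℝ)
    (hG : ∀ c, 0 ≤ G c) :
    ∑ l ∈ range r, G (((l : ℤ) * b) % (r : ℤ)).toNat ≤ ∑ a ∈ range r, G a := by
  have hr0 : (0 : ℤ) < r := by exact_mod_cast hr
  have hinj : Set.InjOn (fun l : ℕ => (((l : ℤ) * b) % (r : ℤ)).toNat) (range r : Set ℕ) := by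
    intro l hl l' hl' h
    simp only [coe_range, Set.mem_Iio] at hl hl'
    have h1 : ((l : ℤ) * b) % (r : ℤ) = ((l' : ℤ) * b) % (r : ℤ) := by
      have e1 := Int.toNat_of_nonneg (Int.emod_nonneg ((l : ℤ) * b) hr0.ne')
      have e2 := Int.toNat_of_nonneg (Int.emod_nonneg ((l' : ℤ) * b) hr0.ne')
      simp only at h
      rw [← e1, ← e2, h]
    have h2 : (r : ℤ) ∣ (l : ℤ) * b - l' * b := Int.ModEq.dvd (Int.ModEq.symm h1) 
    rw [← sub_mul] at h2
    have h3 : (r : ℤ) ∣ (l : ℤ) - l' := (IsCoprime.symm hb).dvd_of_dvd_mul_right h2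
    have h4 : (l : ℤ) - l' = 0 := by
      apply Int.eq_zero_of_abs_lt_dvd h3
      rw [abs_lt]
      constructor <;> omega
    omega
  have hsub : (range r).image (fun l : ℕ => (((l : ℤ) * b) % (r : ℤ)).toNat) ⊆ range r := by
    intro a ha
    rw [Finset.mem_image] at ha
    obtain ⟨l, _, rfl⟩ := ha
    rw [mem_range]
    have h1 := Int.emod_lt_of_pos ((l : ℤ) * b) hr0
    have h2 := Int.emod_nonneg ((l : ℤ) * b) hr0.ne'
    omega
  rw [← Finset.sum_image (f := G) hinj]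
  exact Finset.sum_le_sum_of_subset_of_nonneg hsub (fun a _ _ => hG a)

private theorem sum_blocks (r P : ℕ) (F : ℕ → ℝ) :
    ∑ k ∈ range (r * P), F k = ∑ l ∈ range r, ∑ p ∈ range P, F (l + r * p) := by
  induction P with
  | zero => simp
  | succ P ih =>
    rw [Nat.mul_succ, Finset.sum_range_add, ih, ← Finset.sum_add_distrib]
    apply Finset.sum_congr rfl
    intro l _
    rw [Finset.sum_range_succ, add_comm (r * P) l]

/-- Row F2.  The same with additional averaging: `4^N |β - b/r|` is about `4^{-j}`.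
Recipe.  `|GG N x| ≤ |GG i x| |GG (N-j) (4^j x)|` (B13, `i ≤ j`; the middle factors are at most `1`).  `k = l + r p`.  For fixed `l` all points
`k β` mod `1` lie within `4^N |γ| ≤ 4^{-j} ≤ 4^{-i}` of `l b / r` on one side, so in the cell of `l b / r` or the next one: `|GG i| ≤ E c + E c'`
with the products of P8, and each cell is the cell of at most `r/4^i + 1` of the `l b / r`; P3: sum over `l` at most `C r (q/2)^i`.  For fixed `l` the sum over `p` of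
`|GG (N-j) (4^j (l b/r + l γ) + p * 4^j r γ)|` is by A2 (`n = N-j`, `τ = 4^j r γ`, `|τ| 4^(N-j) = 4^N r |γ| ≤ 1`, `1/|τ| ≤ 4 * 4^N / r`,
number of `p` at most `2 * 4^N / r`) at most `6 C (4^N/r) (q/2)^(N-j)`. -/
theorem F2 : ∃ C : ℝ, 0 < C ∧ ∀ (N i j : ℕ) (β : ℝ) (b : ℤ) (r : ℕ), 1 ≤ r → r ≤ 4 ^ N →
    IsCoprime b (r : ℤ) → |β - b / r| ≤ 1 / (r * 4 ^ N) → 4 ^ i ≤ r → i ≤ j → j ≤ N →
    1 / 4 ^ (j + 1) ≤ 4 ^ N * |β - b / r| → 4 ^ N * |β - b / r| ≤ 1 / 4 ^ j →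
    Sk N β ≤ C * 4 ^ N * (qq / 2) ^ (i + (N - j)) := by
  obtain ⟨C3, hC3, h3⟩ := P3
  obtain ⟨C2, hC2, h2⟩ := A2
  refine ⟨36 * C2 * C3, by positivity, ?_⟩
  intro N i j β b r hr hrN hcop hβ hir hij hjN hlow hup
  have hr0 : (0 : ℝ) < r := by exact_mod_cast hr
  have hrZ : (0 : ℤ) < r := by exact_mod_cast hr
  have hqq : (0 : ℝ) < qq := by unfold qq; norm_num
  have h4N : (0 : ℝ) < 4 ^ N := by positivity
  have h4i : (0 : ℝ) < 4 ^ i := by positivity
  have h4j : (0 : ℝ) < 4 ^ j := by positivity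
  set γ : ℝ := β - b / r with hγ
  have hγpos : 0 < |γ| := by
    by_contra h
    have : |γ| = 0 := le_antisymm (not_lt.1 h) (abs_nonneg _)
    rw [this, mul_zero] at hlow
    have : (0 : ℝ) < 1 / 4 ^ (j + 1) := by positivity
    linarith
  have hγne : γ ≠ 0 := abs_pos.1 hγpos
  -- the cell function
  set a : ℕ → ℕ := fun k => (((k : ℤ) * b) % (r : ℤ)).toNat with ha
  set G : ℤ → ℝ := fun c => E2 i (c - 1) + E2 i c + E2 i (c + 1) with hG
  have hG0 : ∀ c, 0 ≤ G c := fun c =>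
    add_nonneg (add_nonneg (E2_nonneg _ _) (E2_nonneg _ _)) (E2_nonneg _ _)
  set Eh : ℕ → ℝ := fun m => G ⌊4 ^ i * ((m : ℝ) / r)⌋ with hEh
  have hEh0 : ∀ m, 0 ≤ Eh m := fun m => hG0 _
  -- pointwise bound
  have hpt : ∀ k ∈ range (4 ^ N), |GG (1 / 3) N ((k : ℝ) * β)| ≤
      Eh (a k) * |GG (1 / 3) (N - j) (4 ^ j * ((k : ℝ) * β))| := by
    intro k hk
    rw [mem_range] at hk
    have hGN : GG (1 / 3) N ((k : ℝ) * β) =
        GG (1 / 3) i ((k : ℝ) * β) * GG (1 / 3) (j - i) (4 ^ i * ((k : ℝ) * β)) *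
          GG (1 / 3) (N - j) (4 ^ j * ((k : ℝ) * β)) := by
      have e1 := B13.2.2.2.2.2.2.2.2.2.1 (1 / 3) ((k : ℝ) * β) j (N - j)
      have e2 := B13.2.2.2.2.2.2.2.2.2.1 (1 / 3) ((k : ℝ) * β) i (j - i)
      rw [Nat.add_sub_cancel' hjN] at e1
      rw [Nat.add_sub_cancel' hij] at e2
      rw [e1, e2]
    rw [hGN, abs_mul]
    apply mul_le_mul_of_nonneg_right _ (abs_nonneg _)
    rw [abs_mul]
    have hle1 : |GG (1 / 3) (j - i) (4 ^ i * ((k : ℝ) * β))| ≤ 1 :=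
      B13.2.2.2.2.2.2.2.1 _ _ _ (by norm_num) (by norm_num)
    have hq : ((k : ℤ) * b) = (r : ℤ) * (((k : ℤ) * b) / r) + (a k : ℤ) := by
      simp only [ha]
      rw [Int.toNat_of_nonneg (Int.emod_nonneg _ hrZ.ne')]
      exact (Int.mul_ediv_add_emod _ _).symm
    have hkb : (k : ℝ) * β = ((a k : ℝ) / r + k * γ) + (((((k : ℤ) * b) / (r : ℤ)) : ℤ) : ℝ) := by
      have hqR : (k : ℝ) * b = (r : ℝ) * (((((k : ℤ) * b) / (r : ℤ)) : ℤ) : ℝ) + (a k : ℝ) := by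
        exact_mod_cast hq
      have : (k : ℝ) * β = ((k : ℝ) * b) / r + k * γ := by
        rw [hγ]; ring
      rw [this, hqR]
      field_simp
      ring
    have hper : GG (1 / 3) i ((k : ℝ) * β) = GG (1 / 3) i ((a k : ℝ) / r + k * γ) := by
      rw [hkb, B13.2.2.2.2.2.1]
    have hcell : |GG (1 / 3) i ((k : ℝ) * β)| ≤ Eh (a k) := by
      rw [hper]
      apply cell_bound i
      have e : (a k : ℝ) / r + k * γ - (a k : ℝ) / r = k * γ := by ring
      rw [e, abs_mul, abs_of_nonneg (Nat.cast_nonneg k)]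
      have hk' : (k : ℝ) ≤ 4 ^ N := by exact_mod_cast hk.le
      calc (k : ℝ) * |γ| ≤ 4 ^ N * |γ| := by gcongr
        _ ≤ 1 / 4 ^ j := hup
        _ ≤ 1 / 4 ^ i := by
          apply one_div_le_one_div_of_le h4i
          exact pow_le_pow_right₀ (by norm_num) hij
    calc |GG (1 / 3) i ((k : ℝ) * β)| * |GG (1 / 3) (j - i) (4 ^ i * ((k : ℝ) * β))|
        ≤ Eh (a k) * 1 := mul_le_mul hcell hle1 (abs_nonneg _) (hEh0 _)
      _ = Eh (a k) := mul_one _
  -- blocks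
  set P : ℕ := 4 ^ N / r + 1 with hP
  have hPle : 4 ^ N ≤ r * P := (Nat.lt_mul_div_succ (4 ^ N) hr).le
  set F : ℕ → ℝ := fun k => Eh (a k) * |GG (1 / 3) (N - j) (4 ^ j * ((k : ℝ) * β))| with hF
  have hF0 : ∀ k, 0 ≤ F k := fun k => mul_nonneg (hEh0 _) (abs_nonneg _)
  have hstep1 : Sk N β ≤ ∑ l ∈ range r, ∑ p ∈ range P, F (l + r * p) := by
    rw [← sum_blocks]
    calc Sk N β ≤ ∑ k ∈ range (4 ^ N), F k := Finset.sum_le_sum hpt
      _ ≤ ∑ k ∈ range (r * P), F k :=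
        Finset.sum_le_sum_of_subset_of_nonneg (Finset.range_subset_range.2 hPle) (fun k _ _ => hF0 k)
  -- inner sums
  set τ : ℝ := 4 ^ j * (r * γ) with hτ
  have hτne : τ ≠ 0 := by
    rw [hτ]; positivity
  have hτabs : |τ| = 4 ^ j * (r * |γ|) := by
    rw [hτ, abs_mul, abs_mul, abs_of_pos h4j, abs_of_pos hr0]
  have hτ1 : |τ| * 4 ^ (N - j) ≤ 1 := by
    have e : (4 : ℝ) ^ j * 4 ^ (N - j) = 4 ^ N := by
      rw [← pow_add, Nat.add_sub_cancel' hjN]
    rw [hτabs]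
    calc 4 ^ j * (r * |γ|) * 4 ^ (N - j) = (4 ^ j * 4 ^ (N - j)) * r * |γ| := by ring
      _ = 4 ^ N * r * |γ| := by rw [e]
      _ ≤ 4 ^ N * r * (1 / (r * 4 ^ N)) := by gcongr
      _ = 1 := by field_simp
  have hτ2 : 1 / |τ| ≤ 4 * (4 ^ N / r) := by
    rw [hτabs, div_le_iff₀ (by positivity)]
    have h5 : 1 ≤ 4 ^ (j + 1) * (4 ^ N * |γ|) := by
      rw [div_le_iff₀ (by positivity)] at hlow
      linarith
    calc (1 : ℝ) ≤ 4 ^ (j + 1) * (4 ^ N * |γ|) := h5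
      _ = 4 * (4 ^ N / r) * (4 ^ j * (r * |γ|)) := by
        rw [pow_succ]; field_simp
  have hPr : (P : ℝ) ≤ 2 * (4 ^ N / r) := by
    have g1 : ((4 ^ N / r : ℕ) : ℝ) ≤ (4 ^ N : ℝ) / r := by
      have := @Nat.cast_div_le ℝ _ _ _ (4 ^ N) r
      push_cast at this
      exact this
    have g2 : (1 : ℝ) ≤ 4 ^ N / r := by
      rw [le_div_iff₀ hr0, one_mul]
      exact_mod_cast hrN
    rw [hP]
    push_cast
    linarith
  have hinner : ∀ l, ∑ p ∈ range P, F (l + r * p) ≤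
      Eh (a l) * (6 * C2 * (4 ^ N / r) * (qq / 2) ^ (N - j)) := by
    intro l
    have e1 : ∀ p ∈ range P, F (l + r * p) =
        Eh (a l) * |GG (1 / 3) (N - j) (4 ^ j * ((l : ℝ) * β) + p * τ)| := by
      intro p _
      have ea : a (l + r * p) = a l := by
        simp only [ha]
        congr 1
        push_cast
        have : ((l : ℤ) + r * p) * b = l * b + r * (p * b) := by ring
        rw [this, Int.add_mul_emod_self_left]
      have eg : 4 ^ j * (((l + r * p : ℕ) : ℝ) * β) =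
          (4 ^ j * ((l : ℝ) * β) + p * τ) + ((4 ^ j * (p * b) : ℤ) : ℝ) := by
        rw [hτ, hγ]
        push_cast
        field_simp
        ring
      simp only [hF]
      rw [ea, eg, B13.2.2.2.2.2.1]
    rw [Finset.sum_congr rfl e1, ← Finset.mul_sum]
    apply mul_le_mul_of_nonneg_left _ (hEh0 _)
    calc ∑ p ∈ range P, |GG (1 / 3) (N - j) (4 ^ j * ((l : ℝ) * β) + p * τ)|
        ≤ C2 * (P + 1 / |τ|) * (qq / 2) ^ (N - j) := h2 (N - j) P _ τ hτne hτ1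
      _ ≤ C2 * (2 * (4 ^ N / r) + 4 * (4 ^ N / r)) * (qq / 2) ^ (N - j) := by gcongr
      _ = 6 * C2 * (4 ^ N / r) * (qq / 2) ^ (N - j) := by ring
  -- outer sum
  have hE3 : ∑ c ∈ range (4 ^ i), E2 i (c : ℤ) ≤ C3 * (2 * qq) ^ i := by
    have := h3 i
    simpa [E2] using this
  have hper1 : ∀ c : ℤ, E2 i (c + (4 ^ i : ℕ)) = E2 i c := by
    intro c
    have := E2_per i c 1
    push_cast
    simpa using this
  have hsG : ∑ c ∈ range (4 ^ i), G (c : ℤ) = 3 * ∑ c ∈ range (4 ^ i), E2 i (c : ℤ) := by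
    have s1 := sum_shift (4 ^ i) (fun c => E2 i c) hper1
    have s2 := sum_shift (4 ^ i) (fun c => E2 i (c - 1)) (fun c => by
      have := hper1 (c - 1)
      rw [← this]
      congr 1
      ring)
    simp only [add_sub_cancel_right] at s2
    simp only [hG]
    rw [Finset.sum_add_distrib, Finset.sum_add_distrib, s1, ← s2]
    ring
  have houter : ∑ l ∈ range r, Eh (a l) ≤ 6 * C3 * r * (qq / 2) ^ i := by
    calc ∑ l ∈ range r, Eh (a l) ≤ ∑ m ∈ range r, Eh m := perm_sum r hr b hcop Eh hEh0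
      _ ≤ 2 * (r / 4 ^ i) * ∑ c ∈ range (4 ^ i), G (c : ℤ) := fiber_sum i r hr hir G hG0
      _ ≤ 2 * (r / 4 ^ i) * (3 * (C3 * (2 * qq) ^ i)) := by
        rw [hsG]
        gcongr
      _ = 6 * C3 * r * (qq / 2) ^ i := by
        have e : (2 * qq) ^ i = 4 ^ i * (qq / 2) ^ i := by
          rw [← mul_pow]; congr 1; ring
        rw [e]
        field_simp
        ring
  calc Sk N β ≤ ∑ l ∈ range r, ∑ p ∈ range P, F (l + r * p) := hstep1
    _ ≤ ∑ l ∈ range r, Eh (a l) * (6 * C2 * (4 ^ N / r) * (qq / 2) ^ (N - j)) :=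
      Finset.sum_le_sum (fun l _ => hinner l)
    _ = (∑ l ∈ range r, Eh (a l)) * (6 * C2 * (4 ^ N / r) * (qq / 2) ^ (N - j)) := by
      rw [Finset.sum_mul]
    _ ≤ (6 * C3 * r * (qq / 2) ^ i) * (6 * C2 * (4 ^ N / r) * (qq / 2) ^ (N - j)) := by
      apply mul_le_mul_of_nonneg_right houter
      positivity
    _ = 36 * C2 * C3 * 4 ^ N * (qq / 2) ^ (i + (N - j)) := by
      rw [pow_add]
      field_simp
      ring

end Pool.Agent.C52.RF2
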