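import Pool.Agent.Lib.MP_c52340_c5.DefsS
import Pool.Agent.Lib.MP_c52340_c5.F1
import Pool.Agent.Lib.MP_c52340_c5.F2


set_option autoImplicit false

open Finset

open Pool.Agent.C52.RF1 (F1)
open Pool.Agent.C52.RF2 (F2)

namespace Pool.Agent.C52.RF3

/-- Row F3.  Dirichlet approximation.
Recipe.  `β = (g₀ + c/4^N)/4^N`; `Real.exists_rat_abs_sub_le_and_den_le` with `n = 4^N` gives `b/r`, `r ≤ 4^N`,
`|β - b/r| ≤ 1/((4^N+1) r)`.  `i = Nat.log 4 r ≤ N`, `γ = β - b/r`, `x = 4^N b/r - g₀`: `c/4^N - x = 4^N γ`, `4^N |γ| ≤ 1/r ≤ 4^{-i} ≤ 1`, so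
`|x| ≤ 3/2` (`|c/4^N| ≤ 1/2`) and `(b, r) ∈ Rt` (`|b| ≤ r (|g₀| + 3/2)/4^N`).  If `4^N |γ| ≤ 4^{-N}` take `j = N`, F1.  Otherwise take the `j < N` with
`4^{-(j+1)} < 4^N |γ| ≤ 4^{-j}`; `j ≥ i`; F2. -/
theorem F3 : ∃ C : ℝ, 0 < C ∧ ∀ (N : ℕ) (g₀ c : ℤ), c ∈ Fr N → ∃ (b : ℤ) (r i j : ℕ),
    i ≤ j ∧ j ≤ N ∧ r ≤ 4 ^ N ∧ (b, r) ∈ Rt N g₀ i ∧ c ∈ Sh N (4 ^ N * (b : ℝ) / (r : ℝ) - (g₀ : ℝ)) j ∧
    Sk N (((g₀ : ℝ) + (c : ℝ) / 4 ^ N) / 4 ^ N) ≤ C * 4 ^ N * (qq / 2) ^ (i + (N - j)) := by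
  obtain ⟨C₁, hC₁, h₁⟩ := Pool.Agent.C52.RF1.F1
  obtain ⟨C₂, hC₂, h₂⟩ := Pool.Agent.C52.RF2.F2
  refine ⟨C₁ + C₂, by positivity, ?_⟩
  intro N g₀ c hc
  have hM : (1 : ℝ) ≤ 4 ^ N := one_le_pow₀ (by norm_num)
  have hM0 : (0 : ℝ) < 4 ^ N := by positivity
  set β : ℝ := ((g₀ : ℝ) + (c : ℝ) / 4 ^ N) / 4 ^ N with hβ
  obtain ⟨q, hq1, hq2⟩ := Real.exists_rat_abs_sub_le_and_den_le β (n := 4 ^ N) (by positivity)
  have hr1 : 1 ≤ q.den := q.den_pos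
  have hr0 : (0 : ℝ) < q.den := by exact_mod_cast hr1
  have hqv : (q : ℝ) = (q.num : ℝ) / (q.den : ℝ) := by
    rw [← Rat.cast_def]
  rw [hqv] at hq1
  push_cast at hq1
  set γ : ℝ := β - (q.num : ℝ) / (q.den : ℝ) with hγ
  have hγ1 : |γ| ≤ 1 / ((q.den : ℝ) * 4 ^ N) := by
    refine hq1.trans ?_
    apply one_div_le_one_div_of_le (by positivity)
    nlinarith
  have hγ2 : (4 : ℝ) ^ N * |γ| ≤ 1 / (q.den : ℝ) := by
    have := mul_le_mul_of_nonneg_left hγ1 hM0.le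
    refine this.trans (le_of_eq ?_)
    field_simp
  have hlog1 : 4 ^ Nat.log 4 q.den ≤ q.den := Nat.pow_log_le_self 4 (by omega)
  have hlog2 : q.den < 4 ^ (Nat.log 4 q.den + 1) := Nat.lt_pow_succ_log_self (by norm_num) _
  set i : ℕ := Nat.log 4 q.den with hi
  have hiN : i ≤ N := by
    have h3 : 4 ^ i ≤ 4 ^ N := hlog1.trans hq2
    exact (Nat.pow_le_pow_iff_right (by norm_num)).1 h3
  have hir : (4 : ℝ) ^ i ≤ q.den := by exact_mod_cast hlog1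
  have hγ3 : (4 : ℝ) ^ N * |γ| ≤ 1 / 4 ^ i := by
    refine hγ2.trans ?_
    exact one_div_le_one_div_of_le (by positivity) hir
  have hγ4 : (4 : ℝ) ^ N * |γ| ≤ 1 := by
    refine hγ3.trans ?_
    rw [div_le_one (by positivity)]
    exact one_le_pow₀ (by norm_num)
  have hcx : (c : ℝ) / 4 ^ N - (4 ^ N * (q.num : ℝ) / (q.den : ℝ) - (g₀ : ℝ)) = 4 ^ N * γ := by
    rw [hγ, hβ]
    field_simp
    ring
  have hcxa : |(c : ℝ) / 4 ^ N - (4 ^ N * (q.num : ℝ) / (q.den : ℝ) - (g₀ : ℝ))| = 4 ^ N * |γ| := by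
    rw [hcx, abs_mul, abs_of_pos hM0]
  have hc2 : |(c : ℝ) / 4 ^ N| ≤ 1 / 2 := by
    rw [abs_div, abs_of_pos hM0, div_le_iff₀ hM0]
    unfold Fr at hc
    rw [Finset.mem_Ioc] at hc
    have h5 : 2 * |c| ≤ (4 : ℤ) ^ N := by
      rcases abs_cases c with ⟨h6, _⟩ | ⟨h6, _⟩ <;> omega
    have h7 : (2 : ℝ) * |(c : ℝ)| ≤ 4 ^ N := by exact_mod_cast h5
    linarith
  have hx : |4 ^ N * (q.num : ℝ) / (q.den : ℝ) - (g₀ : ℝ)| ≤ 3 / 2 := by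
    have h8 : 4 ^ N * (q.num : ℝ) / (q.den : ℝ) - (g₀ : ℝ) = (c : ℝ) / 4 ^ N - 4 ^ N * γ := by
      rw [← hcx]
      ring
    rw [h8]
    refine (abs_sub _ _).trans ?_
    rw [abs_mul, abs_of_pos hM0]
    linarith
  have hcop : IsCoprime q.num (q.den : ℤ) := by
    rw [Int.isCoprime_iff_gcd_eq_one]
    have := q.reduced
    rw [Nat.coprime_iff_gcd_eq_one] at this
    rw [Int.gcd_eq_natAbs, Int.natAbs_natCast]
    exact this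
  have hbnd : |q.num| ≤ 4 ^ (i + 1) * (|g₀| + 2) := by
    have h9 : |(q.num : ℝ)| ≤ (q.den : ℝ) * (|(g₀ : ℝ)| + 2) := by
      have h10 : (q.num : ℝ) = (q.den : ℝ) / 4 ^ N *
          ((4 ^ N * (q.num : ℝ) / (q.den : ℝ) - (g₀ : ℝ)) + g₀) := by
        field_simp
        ring
      rw [h10, abs_mul, abs_div, abs_of_pos hr0, abs_of_pos hM0]
      have h11 : |4 ^ N * (q.num : ℝ) / (q.den : ℝ) - (g₀ : ℝ) + g₀| ≤ |(g₀ : ℝ)| + 2 := by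
        refine (abs_add_le _ _).trans ?_
        linarith
      have h12 : (q.den : ℝ) / 4 ^ N ≤ q.den := div_le_self hr0.le hM
      exact mul_le_mul h12 h11 (abs_nonneg _) hr0.le
    have h13 : |(q.num : ℝ)| ≤ (4 : ℝ) ^ (i + 1) * (|(g₀ : ℝ)| + 2) := by
      refine h9.trans ?_
      have h14 : (q.den : ℝ) ≤ 4 ^ (i + 1) := by exact_mod_cast hlog2.le
      exact mul_le_mul_of_nonneg_right h14 (by positivity)
    exact_mod_cast h13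
  have hRt : (q.num, q.den) ∈ Rt N g₀ i := by
    unfold Rt
    rw [Finset.mem_filter, Finset.mem_product, Finset.mem_Icc, Finset.mem_Ico]
    exact ⟨⟨abs_le.1 hbnd, hlog1, hlog2⟩, hcop, hx⟩
  classical
  set j : ℕ := Nat.findGreatest (fun j => (4 : ℝ) ^ N * |γ| ≤ 1 / 4 ^ j) N with hj
  have hij : i ≤ j := Nat.le_findGreatest (P := fun j => (4 : ℝ) ^ N * |γ| ≤ 1 / 4 ^ j) hiN hγ3
  have hjN : j ≤ N := Nat.findGreatest_le N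
  have hPj : (4 : ℝ) ^ N * |γ| ≤ 1 / 4 ^ j :=
    Nat.findGreatest_spec (P := fun j => (4 : ℝ) ^ N * |γ| ≤ 1 / 4 ^ j) hiN hγ3
  have hSh : c ∈ Sh N (4 ^ N * (q.num : ℝ) / (q.den : ℝ) - (g₀ : ℝ)) j := by
    unfold Sh
    rw [Finset.mem_filter]
    exact ⟨hc, hcxa.trans_le hPj⟩
  have hq0 : (0 : ℝ) ≤ qq / 2 := by
    unfold qq
    norm_num
  refine ⟨q.num, q.den, i, j, hij, hjN, hq2, hRt, hSh, ?_⟩
  have hfin : ∀ C : ℝ, C ≤ C₁ + C₂ → ∀ n : ℕ, C * 4 ^ N * (qq / 2) ^ n ≤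
      (C₁ + C₂) * 4 ^ N * (qq / 2) ^ n := by
    intro C hC n
    exact mul_le_mul_of_nonneg_right (mul_le_mul_of_nonneg_right hC hM0.le) (pow_nonneg hq0 n)
  rcases hjN.lt_or_eq with hlt | heq
  · have hnot : ¬ (4 : ℝ) ^ N * |γ| ≤ 1 / 4 ^ (j + 1) :=
      Nat.findGreatest_is_greatest (P := fun j => (4 : ℝ) ^ N * |γ| ≤ 1 / 4 ^ j)
        (lt_add_one j) hlt
    push Not at hnot
    exact (h₂ N i j β q.num q.den hr1 hq2 hcop hγ1 hlog1 hij hjN hnot.le hPj).trans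
      (hfin C₂ (by linarith) _)
  · rw [heq, Nat.sub_self, Nat.add_zero]
    exact (h₁ N i β q.num q.den hr1 hq2 hcop hγ1 hlog1).trans (hfin C₁ (by linarith) _)

end Pool.Agent.C52.RF3
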