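import Pool.Agent.Lib.MP_c52340_c5.DefsS
import Pool.Agent.Lib.MP_c52340_c5.F3


set_option autoImplicit false

open Finset

open Pool.Agent.C52.RF3 (F3)

namespace Pool.Agent.C52.RE2

private theorem e2_int {N g j i : ℕ} {g₀ a b : ℤ} {r : ℕ} (hr0 : 0 < r) (hr : r ≤ 4 ^ N)
    (hri : r < 4 ^ (i + 1)) (hcop : IsCoprime b (r : ℤ)) (ha : ¬ (4 : ℤ) ^ g ∣ a)
    (h : |((g₀ : ℝ) + (a : ℝ) / 4 ^ g) - 4 ^ N * (b : ℝ) / (r : ℝ)| ≤ 1 / 4 ^ j) : j ≤ i + g := by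
  obtain ⟨X, hX⟩ : ∃ X : ℤ, X = 4 ^ g * g₀ + a := ⟨_, rfl⟩
  have hM : X * r - 4 ^ (N + g) * b ≠ 0 := by
    intro h0
    have h1 : X * r = 4 ^ (N + g) * b := by linarith
    have h2 : (r : ℤ) ∣ 4 ^ (N + g) := by
      apply hcop.symm.dvd_of_dvd_mul_right
      exact ⟨X, by rw [← h1]; ring⟩
    have h3 : r ∣ 2 ^ (2 * (N + g)) := by
      have : (r : ℤ) ∣ ((2 ^ (2 * (N + g)) : ℕ) : ℤ) := by
        rw [pow_mul]
        push_cast
        exact_mod_cast h2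
      exact_mod_cast this
    obtain ⟨u, _, hu⟩ := (Nat.dvd_prime_pow Nat.prime_two).mp h3
    have hu2 : u ≤ 2 * N := by
      have h4 : 2 ^ u ≤ 2 ^ (2 * N) := by rw [← hu, pow_mul]; exact hr
      exact (Nat.pow_le_pow_iff_right (by norm_num)).mp h4
    have h5 : X = 2 ^ (2 * (N + g) - u) * b := by
      have h6 : X * 2 ^ u = (2 ^ (2 * (N + g) - u) * b) * 2 ^ u := by
        have h7 : (4 : ℤ) ^ (N + g) = 2 ^ (2 * (N + g) - u) * 2 ^ u := by
          rw [← pow_add, Nat.sub_add_cancel (by omega), pow_mul]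
          norm_num
        have h8 : (r : ℤ) = 2 ^ u := by rw [hu]; push_cast; rfl
        rw [← h8, h1, h7, h8]
        ring
      exact mul_right_cancel₀ (by positivity) h6
    have h9 : (4 : ℤ) ^ g ∣ X := by
      rw [h5]
      apply Dvd.dvd.mul_right
      have : (4 : ℤ) ^ g = 2 ^ (2 * g) := by rw [pow_mul]; norm_num
      rw [this]
      exact pow_dvd_pow 2 (by omega)
    apply ha
    have h10 : a = X - 4 ^ g * g₀ := by rw [hX]; ring
    rw [h10]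
    exact dvd_sub h9 (dvd_mul_right _ _)
  have hM1 : (1 : ℝ) ≤ |((X * r - 4 ^ (N + g) * b : ℤ) : ℝ)| := by
    have := Int.one_le_abs hM
    exact_mod_cast this
  have hr0' : (0 : ℝ) < r := by exact_mod_cast hr0
  have e : ((X * r - 4 ^ (N + g) * b : ℤ) : ℝ) =
      (((g₀ : ℝ) + (a : ℝ) / 4 ^ g) - 4 ^ N * (b : ℝ) / (r : ℝ)) * ((r : ℝ) * 4 ^ g) := by
    rw [hX]
    push_cast
    field_simp
    ring
  rw [e, abs_mul, abs_of_pos (show (0 : ℝ) < (r : ℝ) * 4 ^ g by positivity)] at hM1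
  have h2 : (1 : ℝ) ≤ 1 / 4 ^ j * ((r : ℝ) * 4 ^ g) :=
    hM1.trans (mul_le_mul_of_nonneg_right h (by positivity))
  have h3 : (4 : ℝ) ^ j ≤ (r : ℝ) * 4 ^ g := by
    rw [one_div, inv_mul_eq_div, le_div_iff₀ (by positivity), one_mul] at h2
    exact h2
  have h4 : 4 ^ j ≤ r * 4 ^ g := by exact_mod_cast h3
  have h5 : 4 ^ j < 4 ^ (i + 1 + g) := by
    rw [pow_add 4 (i + 1) g]
    exact lt_of_le_of_lt h4 (Nat.mul_lt_mul_of_pos_right hri (by positivity))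
  have h6 := (Nat.pow_lt_pow_iff_right (by norm_num : 1 < 4)).mp h5
  omega

/-- Row E2.  Low level frequencies on the `hi` side are never resonant.
Recipe.  `c = 4^(N-g) a`, `4^g ∤ a`; `β = (g₀ + c/4^N)/4^N = (4^g g₀ + a)/4^(N+g)`; take the data of F3: `γ = β - b/r ≠ 0`, because the reduced denominator of `β` is a power of `2`
which is at least `2 * 4^N > r`; so `4^N |γ| ≥ 1/(r 4^g) > 4^{-(i+1+g)}`, while `4^N |γ| = |c/4^N - x| ≤ 4^{-j}`: `j ≤ i + g`, so `i + (N - j) ≥ N - g`. -/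
theorem E2 : ∃ C : ℝ, 0 < C ∧ ∀ (N g : ℕ) (g₀ c : ℤ), 1 ≤ N → g ≤ N → c ∈ Low N g →
    Sk N (((g₀ : ℝ) + (c : ℝ) / 4 ^ N) / 4 ^ N) ≤ C * 4 ^ N * (qq / 2) ^ (N - g) := by
  obtain ⟨C, hC, h⟩ := F3
  refine ⟨C, hC, fun N g g₀ c hN hg hc => ?_⟩
  unfold Low at hc
  rw [Finset.mem_filter] at hc
  obtain ⟨hcF, hc0, a, hca⟩ := hc
  obtain ⟨b, r, i, j, hij, hjN, hr, hRt, hSh, hSk⟩ := h N g₀ c hcF
  unfold Rt at hRt
  rw [Finset.mem_filter, Finset.mem_product, Finset.mem_Ico] at hRt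
  unfold Sh at hSh
  rw [Finset.mem_filter] at hSh
  have hr0 : 0 < r := lt_of_lt_of_le (by positivity) hRt.1.2.1
  have ha0 : a ≠ 0 := by
    rintro rfl
    exact hc0 (by rw [hca, mul_zero])
  have hpow : (4 : ℤ) ^ N = 4 ^ (N - g) * 4 ^ g := by rw [← pow_add, Nat.sub_add_cancel hg]
  have hag : ¬ (4 : ℤ) ^ g ∣ a := by
    intro hdvd
    have h1 := Int.le_of_dvd (abs_pos.mpr ha0) ((dvd_abs _ _).mpr hdvd)
    have h2 : |c| ≤ 4 ^ N / 2 := by
      unfold Fr at hcF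
      rw [Finset.mem_Ioc] at hcF
      rw [abs_le]
      constructor <;> omega
    have h3 : |c| = 4 ^ (N - g) * |a| := by
      rw [hca, abs_mul, abs_of_pos (by positivity)]
    have h4 : (4 : ℤ) ^ N ≤ |c| := by
      rw [h3, hpow]
      exact mul_le_mul_of_nonneg_left h1 (by positivity)
    have h5 : (0 : ℤ) < 4 ^ N := by positivity
    omega
  have hj : j ≤ i + g := by
    apply e2_int hr0 hr hRt.1.2.2 hRt.2.1 hag (g₀ := g₀)
    have h1 : (c : ℝ) / 4 ^ N = (a : ℝ) / 4 ^ g := by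
      have h2 : (4 : ℝ) ^ N = 4 ^ (N - g) * 4 ^ g := by exact_mod_cast hpow
      rw [hca, h2]
      push_cast
      field_simp
    rw [← h1]
    refine le_trans (le_of_eq ?_) hSh.2
    congr 1
    ring
  refine hSk.trans ?_
  have hq : 0 ≤ qq / 2 := by unfold qq; norm_num
  have hq1 : qq / 2 ≤ 1 := by unfold qq; norm_num
  have := pow_le_pow_of_le_one hq hq1 (show N - g ≤ i + (N - j) by omega)
  gcongr

end Pool.Agent.C52.RE2
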