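import Pool.Agent.Lib.MP_c52340_c5.Defs


set_option autoImplicit false

open Finset


namespace Pool.Agent.C52.RW2

private theorem w2_sum (m : ℕ) : ∑ n ∈ Icc (-(m : ℤ)) m, (if n = 0 then (1 : ℝ) else 2 / |(n : ℝ)|) =
    1 + 4 * ∑ i ∈ range m, ((i : ℝ) + 1)⁻¹ := by
  induction m with
  | zero => simp
  | succ m ih =>
    have h1 : Icc (-((m + 1 : ℕ) : ℤ)) ((m + 1 : ℕ) : ℤ) =
        insert ((m : ℤ) + 1) (insert (-((m : ℤ) + 1)) (Icc (-(m : ℤ)) m)) := by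
      ext n
      simp only [mem_Icc, mem_insert]
      push_cast
      constructor
      · intro h
        omega
      · intro h
        omega
    have h2 : (-((m : ℤ) + 1)) ∉ Icc (-(m : ℤ)) m := by
      simp only [mem_Icc]
      omega
    have h3 : ((m : ℤ) + 1) ∉ insert (-((m : ℤ) + 1)) (Icc (-(m : ℤ)) m) := by
      simp only [mem_insert, mem_Icc]
      omega
    have h4 : (m : ℤ) + 1 ≠ 0 := by omega
    have h5 : -((m : ℤ) + 1) ≠ 0 := by omega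
    have h6 : (0 : ℝ) < (m : ℝ) + 1 := by positivity
    rw [h1, sum_insert h3, sum_insert h2, ih, sum_range_succ, if_neg h4, if_neg h5]
    push_cast
    rw [abs_neg, abs_of_pos h6]
    ring

/-- Row W2.  Sum of the coefficient bounds, and their size (harmonic sum). -/
theorem W2 (N : ℕ) (hN : 1 ≤ N) (c₂ : ℤ) (hc : c₂ ∈ Fr N) :
    ∑ n ∈ Fr N, cb N c₂ n ≤ 8 * (N + 1) ∧ (∀ n, 0 ≤ cb N c₂ n) ∧
    (∀ n, n ≠ 0 → cb N c₂ n ≤ 2 / |(n : ℝ)|) := by
  have hM : (0 : ℝ) < 4 ^ N := by positivity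
  have hc2 : 2 * |(c₂ : ℝ)| ≤ 4 ^ N := by
    have h1 : 2 * |c₂| ≤ (4 : ℤ) ^ N := by
      unfold Fr at hc
      rw [mem_Ioc] at hc
      obtain ⟨h1, h2⟩ := hc
      rcases abs_cases c₂ with ⟨h3, _⟩ | ⟨h3, _⟩ <;> rw [h3] <;> omega
    exact_mod_cast h1
  have hpos : ∀ n, 0 ≤ cb N c₂ n := by
    intro n
    unfold cb
    split_ifs <;> positivity
  have hle : ∀ n, n ≠ 0 → cb N c₂ n ≤ 2 / |(n : ℝ)| := by
    intro n hn
    have hn0 : (0 : ℝ) < |(n : ℝ)| := abs_pos.2 (by exact_mod_cast hn)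
    unfold cb
    rw [if_neg hn, div_le_div_iff₀ (by positivity) hn0]
    nlinarith
  refine ⟨?_, hpos, hle⟩
  obtain ⟨m, hm⟩ : ∃ m : ℕ, m = 4 ^ N / 2 := ⟨_, rfl⟩
  have hmz : ((m : ℕ) : ℤ) = (4 : ℤ) ^ N / 2 := by
    rw [hm]
    push_cast
    rfl
  have hsub : Fr N ⊆ Icc (-(m : ℤ)) m := by
    intro n hn
    unfold Fr at hn
    rw [mem_Ioc] at hn
    rw [mem_Icc, hmz]
    exact ⟨hn.1.le, hn.2⟩
  have h1 : ∑ n ∈ Fr N, cb N c₂ n ≤ ∑ n ∈ Fr N, (if n = 0 then (1 : ℝ) else 2 / |(n : ℝ)|) := by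
    refine sum_le_sum fun n _ => ?_
    split_ifs with h
    · unfold cb
      rw [if_pos h]
    · exact hle n h
  have h2 : ∑ n ∈ Fr N, (if n = 0 then (1 : ℝ) else 2 / |(n : ℝ)|) ≤
      ∑ n ∈ Icc (-(m : ℤ)) m, (if n = 0 then (1 : ℝ) else 2 / |(n : ℝ)|) := by
    refine sum_le_sum_of_subset_of_nonneg hsub fun n _ _ => ?_
    split_ifs <;> positivity
  have h3 : ∑ i ∈ range m, ((i : ℝ) + 1)⁻¹ ≤ 1 + Real.log m := by
    have h4 := harmonic_le_one_add_log m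
    have h5 : ((harmonic m : ℚ) : ℝ) = ∑ i ∈ range m, ((i : ℝ) + 1)⁻¹ := by
      unfold harmonic
      push_cast
      rfl
    rw [← h5]
    exact h4
  have hm1 : 1 ≤ m := by
    rw [hm]
    have : 4 ^ 1 ≤ 4 ^ N := Nat.pow_le_pow_right (by norm_num) hN
    omega
  have h4 : Real.log m ≤ N * 1.4 := by
    have h5 : (m : ℝ) ≤ 4 ^ N := by
      have : m ≤ 4 ^ N := by
        rw [hm]
        exact Nat.div_le_self _ _
      exact_mod_cast this
    have h6 : Real.log m ≤ Real.log (4 ^ N) :=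
      Real.log_le_log (by exact_mod_cast hm1) h5
    have h7 : Real.log ((4 : ℝ) ^ N) = N * (2 * Real.log 2) := by
      rw [Real.log_pow]
      have : (4 : ℝ) = 2 ^ 2 := by norm_num
      rw [this, Real.log_pow]
      norm_num
    have h8 := Real.log_two_lt_d9
    rw [h7] at h6
    refine h6.trans ?_
    have : (0 : ℝ) ≤ N := Nat.cast_nonneg _
    nlinarith
  have h5 : (0 : ℝ) ≤ N := Nat.cast_nonneg _
  have h6 := w2_sum m
  linarith

end Pool.Agent.C52.RW2
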