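import Pool.Agent.Lib.MP_c52340_c5.DefsS
import Pool.Agent.Lib.MP_c52340_c5.W2
import Pool.Agent.Lib.MP_c52340_c5.E1
import Pool.Agent.Lib.MP_c52340_c5.E2


set_option autoImplicit false

open Finset

open Pool.Agent.C52.RW2 (W2)
open Pool.Agent.C52.RE1 (E1)
open Pool.Agent.C52.RE2 (E2)

namespace Pool.Agent.C52.RE3

/-- Row E3.  Average of `zL`.
Recipe: E1, E2, W2 (`∑_n cb ≤ 8 (N+1)`), `∑ wt = 2^N`. -/
theorem E3 : ∃ C : ℝ, 0 < C ∧ ∀ (N g : ℕ) (c : ℤ), 1 ≤ N → g ≤ N → c ∈ Low N g →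
    ∑ k ∈ Odds N, zL N k c ≤ C * ((N : ℝ) + 1) * 4 ^ N * 2 ^ N * (qq / 2) ^ (N - g) := by
  obtain ⟨C, hC, h⟩ := E2
  refine ⟨8 * C, by positivity, ?_⟩
  intro N g c hN hg hc
  obtain ⟨hE1, hE2, hE3, hE4⟩ := E1
  have hcF : c ∈ Fr N := by
    simp only [Low, mem_filter] at hc
    exact hc.1
  obtain ⟨hW1, hW2, _⟩ := W2 N hN c hcF
  have hq : (0 : ℝ) ≤ (qq / 2) ^ (N - g) := by
    apply pow_nonneg
    unfold qq
    norm_num
  have hk : ∀ c₁ n : ℤ, ∑ k ∈ Odds N, |GG (1 / 3) N ((k : ℝ) * bet N c₁ c n)| ≤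
      C * 4 ^ N * (qq / 2) ^ (N - g) := by
    intro c₁ n
    refine (hE1 N _).trans ?_
    rw [hE2]
    exact h N g (c₁ + n) c hN hg hc
  have e1 : ∑ k ∈ Odds N, zL N k c = ∑ c₁ ∈ Fr N, wt N c₁ * ∑ n ∈ Fr N, cb N c n *
      ∑ k ∈ Odds N, |GG (1 / 3) N ((k : ℝ) * bet N c₁ c n)| := by
    unfold zL ov
    rw [Finset.sum_comm]
    apply Finset.sum_congr rfl
    intro c₁ _
    rw [← Finset.mul_sum]
    congr 1
    rw [Finset.sum_comm]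
    apply Finset.sum_congr rfl
    intro n _
    rw [← Finset.mul_sum]
  rw [e1]
  calc ∑ c₁ ∈ Fr N, wt N c₁ * ∑ n ∈ Fr N, cb N c n *
      ∑ k ∈ Odds N, |GG (1 / 3) N ((k : ℝ) * bet N c₁ c n)|
      ≤ ∑ c₁ ∈ Fr N, wt N c₁ * (8 * ((N : ℝ) + 1) * (C * 4 ^ N * (qq / 2) ^ (N - g))) := by
        apply Finset.sum_le_sum
        intro c₁ _
        apply mul_le_mul_of_nonneg_left _ (hE4 N c₁).1
        calc ∑ n ∈ Fr N, cb N c n * ∑ k ∈ Odds N, |GG (1 / 3) N ((k : ℝ) * bet N c₁ c n)|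
            ≤ ∑ n ∈ Fr N, cb N c n * (C * 4 ^ N * (qq / 2) ^ (N - g)) := by
              apply Finset.sum_le_sum
              intro n _
              exact mul_le_mul_of_nonneg_left (hk c₁ n) (hW2 n)
          _ = (∑ n ∈ Fr N, cb N c n) * (C * 4 ^ N * (qq / 2) ^ (N - g)) := by
              rw [Finset.sum_mul]
          _ ≤ 8 * ((N : ℝ) + 1) * (C * 4 ^ N * (qq / 2) ^ (N - g)) := by
              apply mul_le_mul_of_nonneg_right _ (by positivity)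
              exact hW1
    _ = (∑ c₁ ∈ Fr N, wt N c₁) * (8 * ((N : ℝ) + 1) * (C * 4 ^ N * (qq / 2) ^ (N - g))) := by
        rw [Finset.sum_mul]
    _ = 8 * C * ((N : ℝ) + 1) * 4 ^ N * 2 ^ N * (qq / 2) ^ (N - g) := by
        rw [hE3 N hN]
        ring

end Pool.Agent.C52.RE3
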