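import Pool.Agent.Lib.MP_c52340_c5.Defs


set_option autoImplicit false

open Finset


namespace Pool.Agent.C52.RU1

/-- Row U1.  Calculus of exceptional sets: monotone, subadditive, Markov.  -/
theorem U1 :
    (∀ (N : ℕ) (P Q : ℤ → Prop), (∀ k ∈ Odds N, P k → Q k) → bad N Q ≤ bad N P) ∧
    (∀ (N : ℕ) (P Q : ℤ → Prop), bad N (fun k => P k ∧ Q k) ≤ bad N P + bad N Q) ∧
    (∀ (N : ℕ) (f : ℤ → ℝ) (A t : ℝ), (∀ k ∈ Odds N, 0 ≤ f k) → 0 < t →
      ∑ k ∈ Odds N, f k ≤ A * 4 ^ N → bad N (fun k => f k ≤ t) ≤ A / t) ∧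
    (∀ (N : ℕ) (P : ℤ → Prop), 0 ≤ bad N P ∧ bad N P ≤ 1) := by
  classical
  have h4 : ∀ N : ℕ, (0 : ℝ) < 4 ^ N := fun N => by positivity
  refine ⟨?_, ?_, ?_, ?_⟩
  · intro N P Q h
    unfold bad
    apply div_le_div_of_nonneg_right _ (h4 N).le
    have hsub : (Odds N).filter (fun k => ¬ Q k) ⊆ (Odds N).filter (fun k => ¬ P k) := by
      intro k hk
      rw [mem_filter] at hk ⊢
      exact ⟨hk.1, fun hp => hk.2 (h k hk.1 hp)⟩
    exact_mod_cast card_le_card hsub
  · intro N P Q
    unfold bad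
    rw [← add_div]
    apply div_le_div_of_nonneg_right _ (h4 N).le
    have hsub : (Odds N).filter (fun k => ¬ (P k ∧ Q k)) ⊆
        (Odds N).filter (fun k => ¬ P k) ∪ (Odds N).filter (fun k => ¬ Q k) := by
      intro k hk
      rw [mem_union, mem_filter, mem_filter]
      rw [mem_filter] at hk
      by_cases hp : P k
      · exact Or.inr ⟨hk.1, fun hq => hk.2 ⟨hp, hq⟩⟩
      · exact Or.inl ⟨hk.1, hp⟩
    have key : (((Odds N).filter (fun k => ¬ (P k ∧ Q k))).card : ℝ) ≤
        (((Odds N).filter (fun k => ¬ P k)).card : ℝ) +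
          (((Odds N).filter (fun k => ¬ Q k)).card : ℝ) := by
      exact_mod_cast (card_le_card hsub).trans (card_union_le _ _)
    exact le_trans (le_of_eq (by congr!)) key
  · intro N f A t hf ht hs
    unfold bad
    rw [div_le_div_iff₀ (h4 N) ht]
    have h1 : ((((Odds N).filter (fun k => ¬ f k ≤ t)).card : ℕ) : ℝ) * t ≤
        ∑ k ∈ (Odds N).filter (fun k => ¬ f k ≤ t), f k := by
      rw [← nsmul_eq_mul]
      apply card_nsmul_le_sum
      intro k hk
      exact (not_le.1 (mem_filter.1 hk).2).le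
    have h2 : ∑ k ∈ (Odds N).filter (fun k => ¬ f k ≤ t), f k ≤ ∑ k ∈ Odds N, f k :=
      sum_le_sum_of_subset_of_nonneg (filter_subset _ _) fun k hk _ => hf k hk
    exact (h1.trans h2).trans hs
  · intro N P
    unfold bad
    constructor
    · positivity
    · rw [div_le_one (h4 N)]
      have h1 : ((Odds N).filter (fun k => ¬ P k)).card ≤ 4 ^ N := by
        refine (card_le_card (filter_subset _ _)).trans ?_
        unfold Odds
        refine (card_le_card (filter_subset _ _)).trans ?_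
        rw [Int.card_Ico]
        simp
      exact_mod_cast h1

end Pool.Agent.C52.RU1
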