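import Pool.Agent.Lib.MP_c52340_c5.DefsS
import Pool.Agent.Lib.MP_c52340_c5.U1
import Pool.Agent.Lib.MP_c52340_c5.E1
import Pool.Agent.Lib.MP_c52340_c5.E3


set_option autoImplicit false

open Finset

open Pool.Agent.C52.RU1 (U1)
open Pool.Agent.C52.RE1 (E1)
open Pool.Agent.C52.RE3 (E3)

namespace Pool.Agent.C52.RE4

private theorem card_Low {N g : ℕ} (hg : g ≤ N) : ((Low N g).card : ℝ) ≤ 4 ^ (g + 1) := by
  have h4 : (4 : ℤ) ^ N = 4 ^ (N - g) * 4 ^ g := by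
    rw [← pow_add]
    congr 1
    omega
  have hpos : (0 : ℤ) < 4 ^ (N - g) := by positivity
  have h : (Low N g).card ≤ (Icc (-(4 : ℤ) ^ g) (4 ^ g)).card := by
    refine Finset.card_le_card_of_injOn (fun c => c / 4 ^ (N - g)) ?_ ?_
    · intro c hc
      have hc' := Finset.mem_coe.1 hc
      simp only [Low, Fr, Finset.mem_filter, Finset.mem_Ioc] at hc'
      obtain ⟨⟨h1, h2⟩, -, a, ha⟩ := hc'
      have e : c / 4 ^ (N - g) = a := by
        rw [ha]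
        exact Int.mul_ediv_cancel_left _ hpos.ne'
      simp only [Finset.coe_Icc, Set.mem_Icc]
      rw [e]
      have h5 : (0 : ℤ) ≤ 4 ^ N := by positivity
      have h3 : c ≤ 4 ^ N := by omega
      have h6 : -(4 : ℤ) ^ N ≤ c := by omega
      rw [ha, h4] at h3
      rw [ha, h4] at h6
      constructor
      · nlinarith
      · nlinarith
    · intro c hc d hd hcd
      have hc' := Finset.mem_coe.1 hc
      have hd' := Finset.mem_coe.1 hd
      simp only [Low, Finset.mem_filter] at hc' hd'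
      obtain ⟨-, -, a, ha⟩ := hc'
      obtain ⟨-, -, b, hb⟩ := hd'
      simp only at hcd
      rw [ha, hb, Int.mul_ediv_cancel_left _ hpos.ne', Int.mul_ediv_cancel_left _ hpos.ne'] at hcd
      rw [ha, hb, hcd]
  have h2 : (Icc (-(4 : ℤ) ^ g) (4 ^ g)).card ≤ 4 ^ (g + 1) := by
    rw [Int.card_Icc]
    have h5 : (1 : ℤ) ≤ 4 ^ g := one_le_pow₀ (by norm_num)
    have h6 : ((4 : ℤ) ^ g + 1 - -(4 : ℤ) ^ g).toNat ≤ (4 * (4 : ℤ) ^ g).toNat :=
      Int.toNat_le_toNat (by linarith)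
    have h7 : (4 * (4 : ℤ) ^ g).toNat = 4 ^ (g + 1) := by
      have : (4 * (4 : ℤ) ^ g) = ((4 ^ (g + 1) : ℕ) : ℤ) := by
        push_cast
        ring
      rw [this, Int.toNat_natCast]
    rw [← h7]
    exact h6
  exact_mod_cast h.trans h2

private theorem growth : (8.1 : ℝ) ≤ (1.0003 : ℝ) ^ 10000 := by
  have h1 : (1.03 : ℝ) ≤ (1.0003 : ℝ) ^ 100 := by
    have := one_add_mul_le_pow (R := ℝ) (a := 0.0003) (by norm_num) 100
    norm_num at this ⊢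
  have h2 : (1.3 : ℝ) ≤ (1.03 : ℝ) ^ 10 := by norm_num
  have h3 : (8.1 : ℝ) ≤ (1.3 : ℝ) ^ 10 := by norm_num
  calc (8.1 : ℝ) ≤ (1.3 : ℝ) ^ 10 := h3
    _ ≤ ((1.03 : ℝ) ^ 10) ^ 10 := pow_le_pow_left₀ (by norm_num) h2 _
    _ = (1.03 : ℝ) ^ 100 := by rw [← pow_mul]
    _ ≤ ((1.0003 : ℝ) ^ 100) ^ 100 := pow_le_pow_left₀ (by norm_num) h1 _
    _ = (1.0003 : ℝ) ^ 10000 := by rw [← pow_mul]

private theorem main_pow (N : ℕ) :
    (4 : ℝ) ^ (N / 10000 + 1) * (2 ^ N * (qq / 2) ^ (N - N / 10000)) ≤ 4 * (0.9973 : ℝ) ^ N := by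
  set g := N / 10000 with hg
  have hgN : g ≤ N := Nat.div_le_self _ _
  have hg2 : 10000 * g ≤ N := Nat.mul_div_le _ _
  have hqq : (0 : ℝ) < qq := by unfold qq; norm_num
  have e1 : (2 : ℝ) ^ N * (qq / 2) ^ (N - g) * qq ^ g = 2 ^ g * qq ^ N := by
    have a1 : (2 : ℝ) ^ N = 2 ^ (N - g) * 2 ^ g := by rw [← pow_add, Nat.sub_add_cancel hgN]
    have a2 : (qq : ℝ) ^ N = qq ^ (N - g) * qq ^ g := by rw [← pow_add, Nat.sub_add_cancel hgN]
    rw [a1, a2, div_pow]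
    have : (2 : ℝ) ^ (N - g) ≠ 0 := by positivity
    field_simp
  have e2 : (8 : ℝ) ^ g ≤ (1.0003 : ℝ) ^ N * qq ^ g := by
    have : (8 : ℝ) ≤ 8.1 * qq := by unfold qq; norm_num
    calc (8 : ℝ) ^ g ≤ (8.1 * qq) ^ g := pow_le_pow_left₀ (by norm_num) this _
      _ = 8.1 ^ g * qq ^ g := mul_pow _ _ _
      _ ≤ ((1.0003 : ℝ) ^ 10000) ^ g * qq ^ g := by
        refine mul_le_mul_of_nonneg_right (pow_le_pow_left₀ (by norm_num) growth _) (by positivity)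
      _ = (1.0003 : ℝ) ^ (10000 * g) * qq ^ g := by rw [← pow_mul]
      _ ≤ (1.0003 : ℝ) ^ N * qq ^ g := by
        refine mul_le_mul_of_nonneg_right (pow_le_pow_right₀ (by norm_num) hg2) (by positivity)
  have e3 : (1.0003 : ℝ) ^ N * qq ^ N ≤ (0.9973 : ℝ) ^ N := by
    rw [← mul_pow]
    refine pow_le_pow_left₀ (by positivity) ?_ _
    unfold qq
    norm_num
  have e4 : (4 : ℝ) ^ (g + 1) * (2 ^ N * (qq / 2) ^ (N - g)) * qq ^ g ≤
      4 * (0.9973 : ℝ) ^ N * qq ^ g := by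
    calc (4 : ℝ) ^ (g + 1) * (2 ^ N * (qq / 2) ^ (N - g)) * qq ^ g
        = 4 ^ (g + 1) * ((2 : ℝ) ^ N * (qq / 2) ^ (N - g) * qq ^ g) := by ring
      _ = 4 * (8 : ℝ) ^ g * qq ^ N := by
        rw [e1, pow_succ]
        have : (8 : ℝ) ^ g = 4 ^ g * 2 ^ g := by rw [← mul_pow]; norm_num
        rw [this]
        ring
      _ ≤ 4 * ((1.0003 : ℝ) ^ N * qq ^ g) * qq ^ N := by
        have := mul_le_mul_of_nonneg_left e2 (by norm_num : (0 : ℝ) ≤ 4)
        exact mul_le_mul_of_nonneg_right this (by positivity)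
      _ = 4 * ((1.0003 : ℝ) ^ N * qq ^ N) * qq ^ g := by ring
      _ ≤ 4 * (0.9973 : ℝ) ^ N * qq ^ g := by
        have := mul_le_mul_of_nonneg_left e3 (by norm_num : (0 : ℝ) ≤ 4)
        exact mul_le_mul_of_nonneg_right this (by positivity)
  exact le_of_mul_le_mul_right e4 (by positivity)

/-- Row E4.  For most `k` all low level `zL` are exponentially small.
Recipe: E3 with `g = N / 10000`, `card (Low N g) ≤ 4^(g+1)`, Markov and union bound (U1): proportion at most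
`4^(g+1) * C (N+1) 2^N (qq/2)^(N-g)/0.9986^N`, and `0.9969 * 8.1^(1/10000) < 0.9986`. -/
theorem E4 (ε : ℝ) (hε : 0 < ε) : ∃ N₀ : ℕ, ∀ N ≥ N₀,
    bad N (fun k => ∀ c ∈ Low N (N / 10000), zL N k c ≤ (0.9986 : ℝ) ^ N) ≤ ε := by
  obtain ⟨C, hC, hE3⟩ := Pool.Agent.C52.RE3.E3
  obtain ⟨U1a, -, U1c, -⟩ := Pool.Agent.C52.RU1.U1
  obtain ⟨-, -, -, E1d⟩ := Pool.Agent.C52.RE1.E1
  have hcb : ∀ (N : ℕ) (c n : ℤ), 0 ≤ cb N c n := by
    intro N c n
    unfold cb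
    split_ifs
    · norm_num
    · positivity
  have hzL : ∀ (N : ℕ) (k c : ℤ), 0 ≤ zL N k c := by
    intro N k c
    unfold zL
    refine Finset.sum_nonneg fun c₁ _ => mul_nonneg (E1d N c₁).1 ?_
    unfold ov
    exact Finset.sum_nonneg fun n _ => mul_nonneg (hcb N c n) (abs_nonneg _)
  -- the limit
  have hr : |(0.9973 / 0.9986 : ℝ)| < 1 := by norm_num [abs_lt]
  have hlim := (tendsto_pow_const_mul_const_pow_of_abs_lt_one 1 hr).const_mul (2 * (4 * C))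
  rw [mul_zero] at hlim
  obtain ⟨N₀, hN₀⟩ := Filter.eventually_atTop.1 (hlim.eventually (gt_mem_nhds hε))
  refine ⟨max N₀ 1, fun N hN => ?_⟩
  have hN1 : N₀ ≤ N := le_trans (le_max_left _ _) hN
  have hN2 : 1 ≤ N := le_trans (le_max_right _ _) hN
  have hgN : N / 10000 ≤ N := Nat.div_le_self _ _
  have ht : (0 : ℝ) < (0.9986 : ℝ) ^ N := by positivity
  have hstep : bad N (fun k => ∀ c ∈ Low N (N / 10000), zL N k c ≤ (0.9986 : ℝ) ^ N) ≤
      bad N (fun k => ∑ c ∈ Low N (N / 10000), zL N k c ≤ (0.9986 : ℝ) ^ N) := by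
    refine U1a N _ _ ?_
    intro k _ h c hc
    exact (Finset.single_le_sum (f := fun c => zL N k c) (fun c _ => hzL N k c) hc).trans h
  have hmark := U1c N (fun k => ∑ c ∈ Low N (N / 10000), zL N k c)
    (((Low N (N / 10000)).card : ℝ) * (C * ((N : ℝ) + 1) * 2 ^ N * (qq / 2) ^ (N - N / 10000)))
    ((0.9986 : ℝ) ^ N) (fun k _ => Finset.sum_nonneg fun c _ => hzL N k c) ht (by
      rw [Finset.sum_comm]
      calc ∑ c ∈ Low N (N / 10000), ∑ k ∈ Odds N, zL N k c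
          ≤ ∑ c ∈ Low N (N / 10000),
              C * ((N : ℝ) + 1) * 4 ^ N * 2 ^ N * (qq / 2) ^ (N - N / 10000) :=
            Finset.sum_le_sum fun c hc => hE3 N _ c hN2 hgN hc
        _ = _ := by
            rw [Finset.sum_const, nsmul_eq_mul]
            ring)
  refine hstep.trans (hmark.trans ?_)
  have hqq : (0 : ℝ) < qq := by unfold qq; norm_num
  have hA : ((Low N (N / 10000)).card : ℝ) *
      (C * ((N : ℝ) + 1) * 2 ^ N * (qq / 2) ^ (N - N / 10000)) ≤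
      C * ((N : ℝ) + 1) * (4 * (0.9973 : ℝ) ^ N) := by
    calc ((Low N (N / 10000)).card : ℝ) * (C * ((N : ℝ) + 1) * 2 ^ N * (qq / 2) ^ (N - N / 10000))
        ≤ 4 ^ (N / 10000 + 1) * (C * ((N : ℝ) + 1) * 2 ^ N * (qq / 2) ^ (N - N / 10000)) :=
          mul_le_mul_of_nonneg_right (card_Low hgN) (by positivity)
      _ = C * ((N : ℝ) + 1) * (4 ^ (N / 10000 + 1) * (2 ^ N * (qq / 2) ^ (N - N / 10000))) := by
          ring
      _ ≤ _ := mul_le_mul_of_nonneg_left (main_pow N) (by positivity)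
  have hfin := hN₀ N hN1
  rw [div_le_iff₀ ht]
  refine hA.trans ?_
  have e : (0.9973 : ℝ) ^ N = (0.9973 / 0.9986 : ℝ) ^ N * (0.9986 : ℝ) ^ N := by
    rw [← mul_pow]
    norm_num
  rw [e]
  have hNle : (N : ℝ) + 1 ≤ 2 * (N : ℝ) := by
    have : (1 : ℝ) ≤ (N : ℝ) := by exact_mod_cast hN2
    linarith
  have hp : (0 : ℝ) < (0.9973 / 0.9986 : ℝ) ^ N := by positivity
  calc C * ((N : ℝ) + 1) * (4 * ((0.9973 / 0.9986 : ℝ) ^ N * (0.9986 : ℝ) ^ N))
      = (((N : ℝ) + 1) * (4 * C * (0.9973 / 0.9986 : ℝ) ^ N)) * (0.9986 : ℝ) ^ N := by ring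
    _ ≤ ((2 * (N : ℝ)) * (4 * C * (0.9973 / 0.9986 : ℝ) ^ N)) * (0.9986 : ℝ) ^ N := by
        refine mul_le_mul_of_nonneg_right (mul_le_mul_of_nonneg_right hNle (by positivity)) ht.le
    _ = (2 * (4 * C) * ((N : ℝ) ^ 1 * (0.9973 / 0.9986 : ℝ) ^ N)) * (0.9986 : ℝ) ^ N := by ring
    _ ≤ ε * (0.9986 : ℝ) ^ N := mul_le_mul_of_nonneg_right hfin.le ht.le

end Pool.Agent.C52.RE4
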