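import Pool.Agent.Lib.MP_c52340_c5.Defs


set_option autoImplicit false

open Finset


namespace Pool.Agent.C52.RN6

private theorem N6_split {A : Type*} [AddCommMonoid A] (N : ℕ) (F : ℕ → A) :
    ∑ c ∈ range (4 ^ (N + 1)), F c = ∑ c ∈ range (4 ^ N), F (4 * c) +
      ∑ c ∈ (range (4 ^ (N + 1))).filter (fun c => ¬ 4 ∣ c), F c := by
  rw [← Finset.sum_filter_add_sum_filter_not (range (4 ^ (N + 1))) (fun c => 4 ∣ c)]
  congr 1
  have h : (range (4 ^ (N + 1))).filter (fun c => 4 ∣ c) = (range (4 ^ N)).image (fun c => 4 * c) := by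
    ext c
    simp only [mem_filter, mem_range, mem_image]
    constructor
    · rintro ⟨h1, d, rfl⟩
      refine ⟨d, ?_, rfl⟩
      rw [pow_succ] at h1
      omega
    · rintro ⟨d, hd, rfl⟩
      refine ⟨?_, d, rfl⟩
      rw [pow_succ]
      omega
  rw [h, Finset.sum_image]
  intro a _ b _ hab
  simp only at hab
  omega

/-- Row N6.  Decomposition of the frequencies by exact 2-adic (4-adic) level.
Recipe: every `0 < c < 4^N` is uniquely `4^(N-(i+1)) c'` with `4 ∤ c'`, `c' < 4^(i+1)`, `i < N`; induction on `N`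
(the multiples of `4` in `range (4^(N+1))`). -/
theorem N6 {A : Type*} [AddCommMonoid A] (N : ℕ) (F : ℕ → A) :
    ∑ c ∈ range (4 ^ N), F c =
      F 0 + ∑ i ∈ range N, ∑ c ∈ (range (4 ^ (i + 1))).filter (fun c => ¬ 4 ∣ c),
        F (4 ^ (N - (i + 1)) * c) := by
  induction N generalizing F with
  | zero => simp
  | succ N ih =>
    rw [N6_split, ih (fun c => F (4 * c)), Finset.sum_range_succ, ← add_assoc]
    congr 1
    · rw [mul_zero]
      congr 1
      apply Finset.sum_congr rfl
      intro i hi
      apply Finset.sum_congr rfl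
      intro c _
      rw [Finset.mem_range] at hi
      congr 1
      have : N + 1 - (i + 1) = N - (i + 1) + 1 := by omega
      rw [this, pow_succ]
      ring
    · apply Finset.sum_congr rfl
      intro c _
      simp

end Pool.Agent.C52.RN6
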