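import Pool.Agent.Lib.MP_c52340_c5.DefsS
import Pool.Agent.Lib.MP_c52340_c5.B12
import Pool.Agent.Lib.MP_c52340_c5.B13
import Pool.Agent.Lib.MP_c52340_c5.P5
import Pool.Agent.Lib.MP_c52340_c5.A1
import Pool.Agent.Lib.MP_c52340_c5.N6
import Pool.Agent.Lib.MP_c52340_c5.E1


set_option autoImplicit false

open Finset

open Pool.Agent.C52.RB12 (B12)
open Pool.Agent.C52.RB13 (B13)
open Pool.Agent.C52.RP5 (P5)
open Pool.Agent.C52.RA1 (A1)
open Pool.Agent.C52.RN6 (N6)
open Pool.Agent.C52.RE1 (E1)

namespace Pool.Agent.C52.RE5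

/-- Row E5.  High level frequencies against the constant function, on average.
Recipe: B12, N6 (levels `i + 1`), `Low` = the levels `≤ g`; A1 and P5 (`∑ GG (1/4) (i+1) ≤ 2^(i+1)`): `∑_{i ≥ g} C 4^N (qq/2)^(i+1) 2^(i+1)`. -/
theorem E5 : ∃ C : ℝ, 0 < C ∧ ∀ N g : ℕ, 1 ≤ N → g ≤ N → ∑ k ∈ Odds N, Xh N g k ≤ C * 4 ^ N * qq ^ g := by
  classical
  obtain ⟨C, hC, h⟩ := A1
  refine ⟨1000 * C, by positivity, ?_⟩
  intro N g hN hg
  obtain ⟨_, _, _, hE4⟩ := E1
  have hper : ∀ p x : ℝ, ∀ n : ℕ, ∀ z : ℤ, GG p n (x + z) = GG p n x := B13.2.2.2.2.2.1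
  have hred : ∀ p x : ℝ, ∀ i n : ℕ, ∀ z : ℤ, i ≤ n → 4 ^ i * x = z → GG p n x = GG p i x :=
    B13.2.2.2.2.2.2.2.2.2.2
  have hnn : ∀ p x : ℝ, ∀ n : ℕ, 0 ≤ p → p ≤ 1 / 4 → 0 ≤ GG p n x := B13.2.2.2.2.2.2.2.2.1
  set F : ℤ → ℝ := fun c => if (4 : ℤ) ^ (N - g) ∣ c then 0 else
    wt N c * ∑ k ∈ Odds N, |GG (1 / 3) N ((k : ℝ) * ((c : ℝ) / 4 ^ N))| with hF
  have h4 : (4 : ℝ) ^ N ≠ 0 := by positivity
  have hF0 : ∀ c, 0 ≤ F c := by
    intro c
    simp only [hF]
    split_ifs
    · exact le_refl _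
    · exact mul_nonneg (hE4 N c).1 (Finset.sum_nonneg (fun k _ => abs_nonneg _))
  have e1 : ∑ k ∈ Odds N, Xh N g k = ∑ c ∈ Fr N, F c := by
    unfold Xh
    rw [Finset.sum_comm]
    have hsub : ((Fr N).erase 0) \ Low N g = (Fr N).filter (fun c => ¬ (4 : ℤ) ^ (N - g) ∣ c) := by
      ext c
      simp only [mem_sdiff, mem_erase, Low, mem_filter, not_and]
      constructor
      · rintro ⟨⟨h1, h2⟩, h3⟩
        exact ⟨h2, h3 h2 h1⟩
      · rintro ⟨h1, h2⟩
        refine ⟨⟨?_, h1⟩, fun _ _ => h2⟩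
        rintro rfl
        exact h2 (dvd_zero _)
    rw [hsub, Finset.sum_filter]
    apply Finset.sum_congr rfl
    intro c _
    simp only [hF]
    by_cases hd : (4 : ℤ) ^ (N - g) ∣ c
    · simp [hd]
    · simp only [hd, not_false_eq_true, if_true, if_false]
      rw [Finset.mul_sum]
  have hFper : ∀ c, F (c + 4 ^ N) = F c := by
    intro c
    have hdvd : (4 : ℤ) ^ (N - g) ∣ 4 ^ N := pow_dvd_pow 4 (Nat.sub_le N g)
    have hiff : (4 : ℤ) ^ (N - g) ∣ c + 4 ^ N ↔ (4 : ℤ) ^ (N - g) ∣ c := by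
      constructor
      · intro h1
        have := dvd_sub h1 hdvd
        simpa using this
      · intro h1
        exact dvd_add h1 hdvd
    simp only [hF]
    by_cases hd : (4 : ℤ) ^ (N - g) ∣ c
    · rw [if_pos hd, if_pos (hiff.mpr hd)]
    · rw [if_neg hd, if_neg (fun h1 => hd (hiff.mp h1))]
      have ew : wt N (c + 4 ^ N) = wt N c := by
        unfold wt
        have : ((c + 4 ^ N : ℤ) : ℝ) / 4 ^ N = (c : ℝ) / 4 ^ N + ((1 : ℤ) : ℝ) := by
          push_cast
          field_simp
        rw [this, hper]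
      rw [ew]
      congr 1
      apply Finset.sum_congr rfl
      intro k _
      have : (k : ℝ) * (((c + 4 ^ N : ℤ) : ℝ) / 4 ^ N) = (k : ℝ) * ((c : ℝ) / 4 ^ N) + (k : ℝ) := by
        push_cast
        field_simp
      rw [this, hper]
  rw [e1, B12 N hN F hFper, N6 N (fun c : ℕ => F (c : ℤ))]
  have hz : F ((0 : ℕ) : ℤ) = 0 := by
    simp only [hF, Nat.cast_zero, dvd_zero, if_true]
  rw [hz, zero_add]
  have hlev : ∀ i ∈ range N, ∑ c ∈ (range (4 ^ (i + 1))).filter (fun c => ¬ 4 ∣ c),
      F ((4 ^ (N - (i + 1)) * c : ℕ) : ℤ) ≤ if i + 1 ≤ g then 0 else C * 4 ^ N * qq ^ (i + 1) := by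
    intro i hi
    have hiN : i + 1 ≤ N := by
      have := mem_range.mp hi
      omega
    split_ifs with hig
    · apply le_of_eq
      apply Finset.sum_eq_zero
      intro c _
      simp only [hF]
      rw [if_pos]
      push_cast
      apply Dvd.dvd.mul_right
      apply pow_dvd_pow
      omega
    · have hterm : ∀ c ∈ (range (4 ^ (i + 1))).filter (fun c => ¬ 4 ∣ c),
          F ((4 ^ (N - (i + 1)) * c : ℕ) : ℤ) ≤
            GG (1 / 4) (i + 1) ((c : ℝ) / 4 ^ (i + 1)) * (C * 4 ^ N * (qq / 2) ^ (i + 1)) := by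
        intro c hc
        simp only [mem_filter, mem_range] at hc
        have h4i : (4 : ℝ) ^ (i + 1) ≠ 0 := by positivity
        have hfrac : (((4 ^ (N - (i + 1)) * c : ℕ) : ℤ) : ℝ) / 4 ^ N = (c : ℝ) / 4 ^ (i + 1) := by
          push_cast
          have : (4 : ℝ) ^ N = 4 ^ (N - (i + 1)) * 4 ^ (i + 1) := by
            rw [← pow_add]; congr 1; omega
          rw [this]
          field_simp
        have hwt : wt N ((4 ^ (N - (i + 1)) * c : ℕ) : ℤ) = GG (1 / 4) (i + 1) ((c : ℝ) / 4 ^ (i + 1)) := by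
          unfold wt
          rw [hfrac]
          apply hred (1 / 4) _ (i + 1) N (c : ℤ) hiN
          push_cast
          field_simp
        have hsum : ∑ k ∈ Odds N, |GG (1 / 3) N ((k : ℝ) * ((((4 ^ (N - (i + 1)) * c : ℕ) : ℤ) : ℝ) / 4 ^ N))| ≤
            C * 4 ^ N * (qq / 2) ^ (i + 1) := by
          have hA := h (i + 1) N (c : ℤ) hiN (by
            intro hd
            apply hc.2
            exact_mod_cast hd)
          refine le_trans (le_of_eq ?_) hA
          apply Finset.sum_congr rfl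
          intro k _
          rw [hfrac]
          push_cast
          rw [mul_div_assoc]
        simp only [hF]
        split_ifs with hd
        · apply mul_nonneg (hnn _ _ _ (by norm_num) (by norm_num))
          apply mul_nonneg (by positivity)
          apply pow_nonneg
          unfold qq
          norm_num
        · rw [hwt]
          apply mul_le_mul_of_nonneg_left hsum
          exact hnn _ _ _ (by norm_num) (by norm_num)
      refine (Finset.sum_le_sum hterm).trans ?_
      rw [← Finset.sum_mul]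
      have hP5 : ∑ c ∈ (range (4 ^ (i + 1))).filter (fun c => ¬ 4 ∣ c),
          GG (1 / 4) (i + 1) ((c : ℝ) / 4 ^ (i + 1)) ≤ 2 ^ (i + 1) := by
        calc ∑ c ∈ (range (4 ^ (i + 1))).filter (fun c => ¬ 4 ∣ c),
            GG (1 / 4) (i + 1) ((c : ℝ) / 4 ^ (i + 1))
            ≤ ∑ c ∈ range (4 ^ (i + 1)), GG (1 / 4) (i + 1) ((c : ℝ) / 4 ^ (i + 1)) := by
              apply Finset.sum_le_sum_of_subset_of_nonneg (Finset.filter_subset _ _)
              intro c _ _
              exact hnn _ _ _ (by norm_num) (by norm_num)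
          _ = 2 ^ (i + 1) := by
              rw [P5]
              norm_num
      have hqn : (0 : ℝ) ≤ (qq / 2) ^ (i + 1) := by
        apply pow_nonneg
        unfold qq
        norm_num
      calc (∑ c ∈ (range (4 ^ (i + 1))).filter (fun c => ¬ 4 ∣ c),
            GG (1 / 4) (i + 1) ((c : ℝ) / 4 ^ (i + 1))) * (C * 4 ^ N * (qq / 2) ^ (i + 1))
          ≤ 2 ^ (i + 1) * (C * 4 ^ N * (qq / 2) ^ (i + 1)) :=
            mul_le_mul_of_nonneg_right hP5 (by positivity)
        _ = C * 4 ^ N * qq ^ (i + 1) := by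
            rw [div_pow]
            field_simp
  have hqq0 : (0 : ℝ) < qq := by unfold qq; norm_num
  have hqq1 : qq < 1 := by unfold qq; norm_num
  have hgeo : ∀ n : ℕ, ∑ i ∈ range n, (if i + 1 ≤ g then (0 : ℝ) else qq ^ (i + 1)) ≤ 1000 * qq ^ g := by
    intro n
    have hstrong : ∀ n : ℕ, ∑ i ∈ range n, (if i + 1 ≤ g then (0 : ℝ) else qq ^ (i + 1)) ≤
        1000 * (qq ^ g - (if n ≤ g then 0 else qq ^ n)) := by
      intro n
      induction n with
      | zero =>
        simp only [range_zero, sum_empty, Nat.zero_le, if_true, sub_zero]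
        positivity
      | succ n ih =>
        rw [Finset.sum_range_succ]
        by_cases h1 : n + 1 ≤ g
        · have h2 : n ≤ g := by omega
          simp only [h1, h2, if_true, sub_zero, add_zero] at ih ⊢
          exact ih
        · by_cases h2 : n ≤ g
          · have h3 : n = g := by omega
            subst h3
            simp only [le_refl, if_true, sub_zero, h1, if_false] at ih ⊢
            have hsum0 : ∑ i ∈ range n, (if i + 1 ≤ n then (0 : ℝ) else qq ^ (i + 1)) = 0 := by
              apply Finset.sum_eq_zero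
              intro i hi
              have := mem_range.mp hi
              rw [if_pos (by omega)]
            rw [hsum0, zero_add]
            have hp : 0 < qq ^ n := by positivity
            rw [pow_succ]
            unfold qq at hp ⊢
            nlinarith
          · simp only [h1, h2, if_false] at ih ⊢
            have hp : 0 < qq ^ n := by positivity
            have hq1 : qq ^ (n + 1) = qq ^ n * (9969 / 10000) := by
              rw [pow_succ]; unfold qq; ring
            rw [hq1]
            linarith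
    refine (hstrong n).trans ?_
    have : (0 : ℝ) ≤ (if n ≤ g then 0 else qq ^ n) := by
      split_ifs
      · exact le_refl _
      · positivity
    linarith
  calc ∑ i ∈ range N, ∑ c ∈ (range (4 ^ (i + 1))).filter (fun c => ¬ 4 ∣ c),
      F ((4 ^ (N - (i + 1)) * c : ℕ) : ℤ)
      ≤ ∑ i ∈ range N, (if i + 1 ≤ g then 0 else C * 4 ^ N * qq ^ (i + 1)) :=
        Finset.sum_le_sum hlev
    _ = C * 4 ^ N * ∑ i ∈ range N, (if i + 1 ≤ g then (0 : ℝ) else qq ^ (i + 1)) := by
        rw [Finset.mul_sum]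
        apply Finset.sum_congr rfl
        intro i _
        split_ifs
        · simp
        · rfl
    _ ≤ C * 4 ^ N * (1000 * qq ^ g) := mul_le_mul_of_nonneg_left (hgeo N) (by positivity)
    _ = 1000 * C * 4 ^ N * qq ^ g := by ring

end Pool.Agent.C52.RE5
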