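import Pool.Agent.Lib.MP_c52340_c5.DefsS
import Pool.Agent.Lib.MP_c52340_c5.F3

set_option autoImplicit false

open Finset

open Pool.Agent.C52.RF3 (F3)

namespace Pool.Agent.C52.RF4

theorem F4 : ∃ C : ℝ, 0 < C ∧ ∀ (N : ℕ) (g₀ : ℤ) (F : ℤ → ℝ), (∀ c, 0 ≤ F c) →
    ∑ c ∈ Fr N, F c * Sk N (((g₀ : ℝ) + (c : ℝ) / 4 ^ N) / 4 ^ N) ≤
      C * 4 ^ N * ∑ i ∈ range (N + 1), ∑ p ∈ Rt N g₀ i, ∑ j ∈ Icc i N, (qq / 2) ^ (i + (N - j)) *
        ∑ c ∈ Sh N (4 ^ N * (p.1 : ℝ) / (p.2 : ℝ) - (g₀ : ℝ)) j, F c := by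
  obtain ⟨C, hC, h⟩ := F3
  refine ⟨C, hC, fun N g₀ F hF => ?_⟩
  classical
  have hq : (0 : ℝ) ≤ qq / 2 := by unfold qq; norm_num
  -- the sum of indicator form
  set G : ℤ → ℕ → ℤ × ℕ → ℕ → ℝ := fun c i p j =>
    (qq / 2) ^ (i + (N - j)) *
      (if c ∈ Sh N (4 ^ N * (p.1 : ℝ) / (p.2 : ℝ) - (g₀ : ℝ)) j then F c else 0) with hG
  have hG0 : ∀ c i p j, 0 ≤ G c i p j := by
    intro c i p j
    rw [hG]
    dsimp only
    refine mul_nonneg (pow_nonneg hq _) ?_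
    split_ifs
    · exact hF c
    · exact le_refl _
  have hterm : ∀ c ∈ Fr N, F c * Sk N (((g₀ : ℝ) + (c : ℝ) / 4 ^ N) / 4 ^ N) ≤
      C * 4 ^ N * ∑ i ∈ range (N + 1), ∑ p ∈ Rt N g₀ i, ∑ j ∈ Icc i N, G c i p j := by
    intro c hc
    obtain ⟨b, r, i, j, hij, hjN, hr, hmem, hsh, hle⟩ := h N g₀ c hc
    have h1 : F c * Sk N (((g₀ : ℝ) + (c : ℝ) / 4 ^ N) / 4 ^ N) ≤ C * 4 ^ N * G c i (b, r) j := by
      have h2 := mul_le_mul_of_nonneg_left hle (hF c)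
      refine h2.trans (le_of_eq ?_)
      rw [hG]
      dsimp only
      rw [if_pos hsh]
      ring
    refine h1.trans ?_
    have hCN : (0 : ℝ) ≤ C * 4 ^ N := by positivity
    refine mul_le_mul_of_nonneg_left ?_ hCN
    calc G c i (b, r) j ≤ ∑ j ∈ Icc i N, G c i (b, r) j :=
          Finset.single_le_sum (f := fun j => G c i (b, r) j) (fun j _ => hG0 c i (b, r) j)
            (Finset.mem_Icc.2 ⟨hij, hjN⟩)
      _ ≤ ∑ p ∈ Rt N g₀ i, ∑ j ∈ Icc i N, G c i p j :=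
          Finset.single_le_sum (f := fun p => ∑ j ∈ Icc i N, G c i p j)
            (fun p _ => Finset.sum_nonneg (fun j _ => hG0 c i p j)) hmem
      _ ≤ ∑ i ∈ range (N + 1), ∑ p ∈ Rt N g₀ i, ∑ j ∈ Icc i N, G c i p j :=
          Finset.single_le_sum (f := fun i => ∑ p ∈ Rt N g₀ i, ∑ j ∈ Icc i N, G c i p j)
            (fun i _ => Finset.sum_nonneg (fun p _ => Finset.sum_nonneg (fun j _ => hG0 c i p j)))
            (Finset.mem_range.2 (by omega))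
  refine (Finset.sum_le_sum hterm).trans (le_of_eq ?_)
  rw [← Finset.mul_sum]
  congr 1
  rw [Finset.sum_comm]
  refine Finset.sum_congr rfl (fun i _ => ?_)
  rw [Finset.sum_comm]
  refine Finset.sum_congr rfl (fun p _ => ?_)
  rw [Finset.sum_comm]
  refine Finset.sum_congr rfl (fun j _ => ?_)
  rw [hG]
  dsimp only
  rw [← Finset.mul_sum]
  congr 1
  rw [← Finset.sum_filter]
  refine Finset.sum_congr ?_ (fun _ _ => rfl)
  ext c
  simp only [Sh, Finset.mem_filter]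
  tauto

end Pool.Agent.C52.RF4
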