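import Pool.Agent.Lib.MP_c52340_c5.DefsS
import Pool.Agent.Lib.MP_c52340_c5.B13
import Pool.Agent.Lib.MP_c52340_c5.C1
import Pool.Agent.Lib.MP_c52340_c5.C2


set_option autoImplicit false

open Finset

open Pool.Agent.C52.RB13 (B13)
open Pool.Agent.C52.RC1 (C1)
open Pool.Agent.C52.RC2 (C2)

namespace Pool.Agent.C52.RL2

private lemma l2_fr {N : ℕ} {c : ℤ} (hc : c ∈ Fr N) : 2 * |(c : ℝ)| ≤ 4 ^ N := by
  unfold Fr at hc
  rw [mem_Ioc] at hc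
  have h1 : |c| ≤ (4 : ℤ) ^ N / 2 := abs_le.mpr ⟨by omega, hc.2⟩
  have h2 : 2 * |c| ≤ (4 : ℤ) ^ N := by omega
  have h3 : ((2 * |c| : ℤ) : ℝ) ≤ (((4 : ℤ) ^ N : ℤ) : ℝ) := by exact_mod_cast h2
  push_cast at h3
  exact h3

private lemma l2_cb {N : ℕ} {c n : ℤ} (hn : n ≠ 0) :
    cb N c n * |(n : ℝ)| = 4 * |(c : ℝ)| / 4 ^ N := by
  unfold cb
  rw [if_neg hn]
  have hn' : |(n : ℝ)| ≠ 0 := by
    rw [abs_ne_zero]
    exact_mod_cast hn
  have h4 : (4 : ℝ) ^ N ≠ 0 := by positivity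
  field_simp

private lemma l2_cb2 {N : ℕ} {c n : ℤ} (hc : c ∈ Fr N) : cb N c n ≤ 2 := by
  unfold cb
  split_ifs with hn
  · norm_num
  · have hn' : (1 : ℝ) ≤ |(n : ℝ)| := by
      have : (1 : ℤ) ≤ |n| := Int.one_le_abs hn
      exact_mod_cast this
    have h4 : (0 : ℝ) < 4 ^ N := by positivity
    rw [div_le_iff₀ (by positivity)]
    have := l2_fr hc
    nlinarith

private lemma l2_key {C2c : ℝ} (hC2 : 0 < C2c) (hmass : ∀ (N j : ℕ) (x : ℝ), j ≤ N →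
    ∑ c ∈ Sh N x j, wt N c ≤ C2c * 2 ^ (N - j) * Cs j x)
    (N i : ℕ) (g₀ n : ℤ) (p : ℤ × ℕ) (s : ℝ)
    (hK : ∀ j ∈ Icc i N, ∀ c ∈ Sh N (4 ^ N * (p.1 : ℝ) / (p.2 : ℝ) - (g₀ : ℝ)) j,
      cb N c n * s ≤ 4 / 4 ^ j) :
    Tm N g₀ n i p * s ≤ 8 * C2c * qq ^ N := by
  obtain ⟨hCs, -, -, -, -⟩ := C1
  obtain ⟨-, -, -, -, -, -, -, -, hnn, -, -⟩ := B13
  have hq : (0 : ℝ) < qq := by unfold qq; norm_num
  have hq1 : (1 : ℝ) / 2 ≤ qq := by unfold qq; norm_num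
  have hq2 : qq / 2 ≤ 1 := by unfold qq; norm_num
  unfold Tm
  rw [Finset.sum_mul]
  have hterm : ∀ j ∈ Icc i N, (qq / 2) ^ (i + (N - j)) *
      (∑ c ∈ Sh N (4 ^ N * (p.1 : ℝ) / (p.2 : ℝ) - (g₀ : ℝ)) j, wt N c * cb N c n) * s ≤
      4 * C2c * qq ^ N * (1 / 2) ^ j := by
    intro j hj
    have hjN : j ≤ N := (mem_Icc.mp hj).2
    set x := 4 ^ N * (p.1 : ℝ) / (p.2 : ℝ) - (g₀ : ℝ) with hx
    have h1 : (∑ c ∈ Sh N x j, wt N c * cb N c n) * s ≤ (4 / 4 ^ j) * (C2c * 2 ^ (N - j)) := by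
      rw [Finset.sum_mul]
      calc ∑ c ∈ Sh N x j, wt N c * cb N c n * s ≤ ∑ c ∈ Sh N x j, wt N c * (4 / 4 ^ j) := by
            apply Finset.sum_le_sum
            intro c hc
            rw [mul_assoc]
            apply mul_le_mul_of_nonneg_left (hK j hj c hc)
            exact hnn _ _ _ (by norm_num) (by norm_num)
        _ = (4 / 4 ^ j) * ∑ c ∈ Sh N x j, wt N c := by rw [← Finset.sum_mul, mul_comm]
        _ ≤ (4 / 4 ^ j) * (C2c * 2 ^ (N - j)) := by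
            apply mul_le_mul_of_nonneg_left _ (by positivity)
            calc ∑ c ∈ Sh N x j, wt N c ≤ C2c * 2 ^ (N - j) * Cs j x := hmass N j x hjN
              _ ≤ C2c * 2 ^ (N - j) * 1 := by
                  apply mul_le_mul_of_nonneg_left (hCs j x).2 (by positivity)
              _ = _ := mul_one _
    rw [mul_assoc]
    calc (qq / 2) ^ (i + (N - j)) * ((∑ c ∈ Sh N x j, wt N c * cb N c n) * s)
        ≤ (qq / 2) ^ (i + (N - j)) * ((4 / 4 ^ j) * (C2c * 2 ^ (N - j))) := by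
          apply mul_le_mul_of_nonneg_left h1 (by positivity)
      _ = 4 * C2c * ((qq / 2) ^ i * (qq ^ (N - j) * (1 / 4) ^ j)) := by
          rw [pow_add, div_pow qq 2 (N - j), one_div, inv_pow]
          field_simp
      _ ≤ 4 * C2c * (1 * (qq ^ N * (1 / 2) ^ j)) := by
          apply mul_le_mul_of_nonneg_left _ (by positivity)
          apply mul_le_mul (pow_le_one₀ (by positivity) hq2) _ (by positivity) (by norm_num)
          obtain ⟨d, rfl⟩ := Nat.exists_eq_add_of_le' hjN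
          rw [Nat.add_sub_cancel, pow_add, mul_assoc]
          apply mul_le_mul_of_nonneg_left _ (by positivity)
          rw [← mul_pow]
          apply pow_le_pow_left₀ (by norm_num)
          linarith
      _ = 4 * C2c * qq ^ N * (1 / 2) ^ j := by ring
  calc ∑ j ∈ Icc i N, (qq / 2) ^ (i + (N - j)) *
      (∑ c ∈ Sh N (4 ^ N * (p.1 : ℝ) / (p.2 : ℝ) - (g₀ : ℝ)) j, wt N c * cb N c n) * s
      ≤ ∑ j ∈ Icc i N, 4 * C2c * qq ^ N * (1 / 2) ^ j := Finset.sum_le_sum hterm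
    _ ≤ ∑ j ∈ range (N + 1), 4 * C2c * qq ^ N * (1 / 2) ^ j := by
        apply Finset.sum_le_sum_of_subset_of_nonneg
        · intro j hj
          rw [mem_Icc] at hj
          rw [mem_range]
          omega
        · intro j _ _
          positivity
    _ = 4 * C2c * qq ^ N * ∑ j ∈ range (N + 1), (1 / 2 : ℝ) ^ j := by rw [Finset.mul_sum]
    _ ≤ 4 * C2c * qq ^ N * 2 := by
        apply mul_le_mul_of_nonneg_left _ (by positivity)
        exact sum_geometric_two_le (N + 1)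
    _ = 8 * C2c * qq ^ N := by ring

/-- Row L2.  Dyadic denominators.
Recipe: `p.2 = 2^u ∣ 4^N`, so `x = 4^N b/r - g₀` is an integer with `|x| ≤ 3/2`.  If `x = ±1`: `Sh N x j` is empty unless `j = 0` (`|c/4^N| ≤ 1/2`), so only
`i = j = 0`: `Tm ≤ (q/2)^N * ∑ wt cb ≤ q^N * cb`-bound.  If `x = 0` and `n ≠ 0`: for `c ∈ Sh N 0 j`, `cb N c n = 4 |c|/(4^N |n|) ≤ 4 * 4^{-j}/|n|`, C2:
`Tm ≤ (12/|n|) ∑_{j ≥ i} (q/2)^i q^(N-j) 4^{-j} ≤ (C/|n|) q^N`. -/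
theorem L2 : ∃ C : ℝ, 0 < C ∧ ∀ (N i u : ℕ) (g₀ n : ℤ) (p : ℤ × ℕ), 1 ≤ N → p ∈ Rt N g₀ i → p.2 = 2 ^ u →
    2 ^ u ≤ 4 ^ N →
    (n ≠ 0 → Tm N g₀ n i p * |(n : ℝ)| ≤ C * qq ^ N) ∧
    (4 ^ N * p.1 ≠ g₀ * (p.2 : ℤ) → Tm N g₀ n i p ≤ C * qq ^ N) := by
  obtain ⟨C2c, hC2, hmass⟩ := C2
  refine ⟨8 * C2c, by positivity, ?_⟩
  intro N i u g₀ n p hN hp hu hle
  unfold Rt at hp
  rw [mem_filter] at hp
  obtain ⟨-, -, habs⟩ := hp
  have hu2 : u ≤ 2 * N := by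
    have h1 : (2 : ℕ) ^ u ≤ 2 ^ (2 * N) := by rw [pow_mul]; exact hle
    exact (Nat.pow_le_pow_iff_right (by norm_num)).mp h1
  have hp2 : (p.2 : ℝ) = 2 ^ u := by rw [hu]; push_cast; ring
  have h2u : (2 : ℝ) ^ u ≠ 0 := by positivity
  have h4 : (4 : ℝ) ^ N = 2 ^ (2 * N - u) * 2 ^ u := by
    rw [← pow_add, Nat.sub_add_cancel hu2, pow_mul]; norm_num
  obtain ⟨z, hz⟩ : ∃ z : ℤ, 4 ^ N * (p.1 : ℝ) / (p.2 : ℝ) - (g₀ : ℝ) = z := by
    refine ⟨2 ^ (2 * N - u) * p.1 - g₀, ?_⟩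
    rw [hp2, h4]
    push_cast
    field_simp
  rw [hz] at habs
  -- facts on members of the shells
  have hsh : ∀ j : ℕ, ∀ c ∈ Sh N (4 ^ N * (p.1 : ℝ) / (p.2 : ℝ) - (g₀ : ℝ)) j,
      c ∈ Fr N ∧ |(c : ℝ) / 4 ^ N - z| ≤ 1 / 4 ^ j := by
    intro j c hc
    rw [hz] at hc
    unfold Sh at hc
    rw [mem_filter] at hc
    exact hc
  have hz0 : z ≠ 0 → ∀ j : ℕ, ∀ c ∈ Sh N (4 ^ N * (p.1 : ℝ) / (p.2 : ℝ) - (g₀ : ℝ)) j, j = 0 := by
    intro hz0 j c hc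
    obtain ⟨hcF, hcz⟩ := hsh j c hc
    by_contra hj
    have hj1 : 1 ≤ j := Nat.one_le_iff_ne_zero.mpr hj
    have h1 : (1 : ℝ) / 4 ^ j ≤ 1 / 4 := by
      apply one_div_le_one_div_of_le (by norm_num)
      calc (4 : ℝ) = 4 ^ 1 := (pow_one _).symm
        _ ≤ 4 ^ j := pow_le_pow_right₀ (by norm_num) hj1
    have h2 : (1 : ℝ) ≤ |(z : ℝ)| := by
      have : (1 : ℤ) ≤ |z| := Int.one_le_abs hz0
      exact_mod_cast this
    have h3 : |(c : ℝ) / 4 ^ N| ≤ 1 / 2 := by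
      rw [abs_div, abs_of_pos (by positivity : (0 : ℝ) < 4 ^ N), div_le_iff₀ (by positivity)]
      have := l2_fr hcF
      linarith
    have h5 : |(z : ℝ)| ≤ |(c : ℝ) / 4 ^ N| + |(c : ℝ) / 4 ^ N - z| := by
      have h6 := abs_sub_abs_le_abs_sub (z : ℝ) ((c : ℝ) / 4 ^ N)
      rw [abs_sub_comm] at h6
      linarith
    linarith
  refine ⟨fun hn => ?_, fun hne => ?_⟩
  · apply l2_key hC2 hmass
    intro j hj c hc
    obtain ⟨hcF, hcz⟩ := hsh j c hc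
    rw [l2_cb hn]
    by_cases hzz : z = 0
    · subst hzz
      rw [Int.cast_zero, sub_zero, abs_div, abs_of_pos (by positivity : (0 : ℝ) < 4 ^ N)] at hcz
      calc 4 * |(c : ℝ)| / 4 ^ N = 4 * (|(c : ℝ)| / 4 ^ N) := by ring
        _ ≤ 4 * (1 / 4 ^ j) := by linarith
        _ = 4 / 4 ^ j := by ring
    · have hj0 := hz0 hzz j c hc
      subst hj0
      rw [div_le_iff₀ (by positivity)]
      have := l2_fr hcF
      simp only [pow_zero, div_one]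
      linarith [abs_nonneg (c : ℝ)]
  · have hzz : z ≠ 0 := by
      intro h0
      rw [h0, Int.cast_zero, sub_eq_zero, hp2, div_eq_iff h2u] at hz
      apply hne
      rw [hu]
      exact_mod_cast hz
    have h1 := l2_key hC2 hmass N i g₀ n p 1 (by
      intro j hj c hc
      obtain ⟨hcF, hcz⟩ := hsh j c hc
      have hj0 := hz0 hzz j c hc
      subst hj0
      have := l2_cb2 (n := n) hcF
      simp only [pow_zero, div_one, mul_one]
      linarith)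
    rw [mul_one] at h1
    exact h1

end Pool.Agent.C52.RL2
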