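import Pool.Agent.Lib.MP_c52340_c5.DefsS
import Pool.Agent.Lib.MP_c52340_c5.W2
import Pool.Agent.Lib.MP_c52340_c5.L2


set_option autoImplicit false

open Finset

open Pool.Agent.C52.RW2 (W2)
open Pool.Agent.C52.RL2 (L2)

namespace Pool.Agent.C52.RL3

private theorem dy_data {N g i : ℕ} (hi : i < g) {g₀ : ℤ} {p : ℤ × ℕ} (hp : p ∈ RtD N g₀ i) :
    ∃ u : ℕ, p.2 = 2 ^ u ∧ u ≤ 2 * i + 1 ∧ 2 * i ≤ u ∧ p ∈ Rt N g₀ i ∧
      |4 ^ N * (p.1 : ℝ) / (p.2 : ℝ) - (g₀ : ℝ)| ≤ 3 / 2 := by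
  classical
  simp only [RtD, Finset.mem_filter] at hp
  obtain ⟨hp, u, hu⟩ := hp
  have hp' := hp
  simp only [Rt, Finset.mem_filter, Finset.mem_product, Finset.mem_Icc, Finset.mem_Ico] at hp'
  obtain ⟨⟨-, h1, h2⟩, -, h3⟩ := hp'
  rw [hu] at h1 h2
  have e1 : (4 : ℕ) ^ i = 2 ^ (2 * i) := by rw [pow_mul]; norm_num
  have e2 : (4 : ℕ) ^ (i + 1) = 2 ^ (2 * (i + 1)) := by rw [pow_mul]; norm_num
  rw [e1] at h1
  rw [e2] at h2
  have h4 : 2 * i ≤ u := (Nat.pow_le_pow_iff_right (by norm_num)).1 h1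
  have h5 : u < 2 * (i + 1) := (Nat.pow_lt_pow_iff_right (by norm_num)).1 h2
  exact ⟨u, hu, by omega, h4, hp, h3⟩

private theorem four_eq {N u : ℕ} (hu : u ≤ 2 * N) : (4 : ℤ) ^ N = 2 ^ u * 2 ^ (2 * N - u) := by
  rw [← pow_add, Nat.add_sub_cancel' hu, pow_mul]
  norm_num

private theorem card_RtD {N g i : ℕ} (hg : g ≤ N) (hi : i < g) (g₀ : ℤ) :
    (RtD N g₀ i).card ≤ 6 := by
  classical
  have h : (RtD N g₀ i).card ≤
      ((({-1, 0, 1} : Finset ℤ)) ×ˢ ({2 ^ (2 * i), 2 ^ (2 * i + 1)} : Finset ℕ)).card := by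
    refine Finset.card_le_card_of_injOn (fun p => ((4 ^ N * p.1) / (p.2 : ℤ) - g₀, p.2)) ?_ ?_
    · intro p hp
      obtain ⟨u, hu, h1, h2, h3, h4⟩ := dy_data hi (Finset.mem_coe.1 hp)
      have e := four_eq (N := N) (u := u) (by omega)
      have e2 : (4 ^ N * p.1) / (p.2 : ℤ) = 2 ^ (2 * N - u) * p.1 := by
        rw [hu, e]
        push_cast
        rw [mul_assoc, Int.mul_ediv_cancel_left _ (by positivity)]
      have e3 : 4 ^ N * (p.1 : ℝ) / (p.2 : ℝ) = ((2 ^ (2 * N - u) * p.1 : ℤ) : ℝ) := by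
        have e' : (4 : ℝ) ^ N = 2 ^ u * 2 ^ (2 * N - u) := by exact_mod_cast e
        rw [hu, e']
        push_cast
        field_simp
      rw [e3] at h4
      obtain ⟨h5, h6⟩ := abs_le.1 h4
      have h7 : 2 ^ (2 * N - u) * p.1 - g₀ < 2 := by
        have : ((2 ^ (2 * N - u) * p.1 - g₀ : ℤ) : ℝ) < 2 := by
          push_cast at h6 ⊢
          linarith
        exact_mod_cast this
      have h8 : -2 < 2 ^ (2 * N - u) * p.1 - g₀ := by
        have : (-2 : ℝ) < ((2 ^ (2 * N - u) * p.1 - g₀ : ℤ) : ℝ) := by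
          push_cast at h5 ⊢
          linarith
        exact_mod_cast this
      simp only [Finset.coe_product, Set.mem_prod, Finset.mem_coe]
      refine ⟨?_, ?_⟩
      · rw [e2]
        have h9 : 2 ^ (2 * N - u) * p.1 - g₀ = -1 ∨ 2 ^ (2 * N - u) * p.1 - g₀ = 0 ∨
            2 ^ (2 * N - u) * p.1 - g₀ = 1 := by omega
        simp only [Finset.mem_insert, Finset.mem_singleton]
        exact h9
      · have h9 : u = 2 * i ∨ u = 2 * i + 1 := by omega
        simp only [Finset.mem_insert, Finset.mem_singleton]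
        rw [hu]
        rcases h9 with h9 | h9
        · left
          rw [h9]
        · right
          rw [h9]
    · intro p hp p' hp' hpp
      obtain ⟨u, hu, h1, h2, h3, h4⟩ := dy_data hi (Finset.mem_coe.1 hp)
      obtain ⟨u', hu', h1', h2', h3', h4'⟩ := dy_data hi (Finset.mem_coe.1 hp')
      have e := four_eq (N := N) (u := u) (by omega)
      simp only [Prod.mk.injEq] at hpp
      obtain ⟨k1, k2⟩ := hpp
      rw [← k2] at k1
      have e2 : ∀ b : ℤ, (4 ^ N * b) / (p.2 : ℤ) = 2 ^ (2 * N - u) * b := by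
        intro b
        rw [hu, e]
        push_cast
        rw [mul_assoc, Int.mul_ediv_cancel_left _ (by positivity)]
      rw [e2, e2] at k1
      have k3 : (2 : ℤ) ^ (2 * N - u) * p.1 = 2 ^ (2 * N - u) * p'.1 := by linarith
      have k4 : p.1 = p'.1 := mul_left_cancel₀ (by positivity) k3
      exact Prod.ext k4 k2
  refine h.trans ?_
  rw [Finset.card_product]
  have a1 : (({-1, 0, 1} : Finset ℤ)).card ≤ 3 := Finset.card_le_three
  have a2 : ({2 ^ (2 * i), 2 ^ (2 * i + 1)} : Finset ℕ).card ≤ 2 := Finset.card_le_two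
  nlinarith

/-- Row L3.  All dyadic fractions of low level.
Recipe: for given `g₀, i` there are at most `8` dyadic `p ∈ Rt N g₀ i` (`r = 4^i` or `2 * 4^i`, and `4^N b/r`, `b ∈ ℤ`, has spacing `≥ 1`; note `r < 4^(i+1) ≤ 4^g ≤ 4^N`).
`n ≠ 0`: first part of L2, `∑_{n ∈ Fr N, n ≠ 0} 1/|n| ≤ C (N+1)`.  `n = 0`: `g₀ = c₁`; if `4^N b = c₁ 2^u` with `2^u < 4^g` then `4^(N-g) ∣ c₁`, so `c₁ ∈ Low`, excluded;
second part of L2. -/
theorem L3 : ∃ C : ℝ, 0 < C ∧ ∀ (N g : ℕ) (c₁ : ℤ), 1 ≤ N → g ≤ N → c₁ ∈ Fr N → c₁ ≠ 0 → c₁ ∉ Low N g →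
    ∑ n ∈ Fr N, ∑ i ∈ range g, ∑ p ∈ RtD N (c₁ + n) i, Tm N (c₁ + n) n i p ≤
      C * ((N : ℝ) + 1) ^ 2 * qq ^ N := by
  obtain ⟨C, hC, h⟩ := L2
  refine ⟨48 * C, by positivity, ?_⟩
  intro N g c₁ hN hg hc1 hc0 hlow
  have hq : (0 : ℝ) ≤ qq ^ N := by
    unfold qq
    positivity
  have hK : 0 ≤ C * qq ^ N := by positivity
  -- the comparison frequency
  have hc2 : ∃ c₂ ∈ Fr N, ((c₂ : ℤ) : ℝ) = 4 ^ N / 2 := by
    obtain ⟨M, rfl⟩ : ∃ M, N = M + 1 := ⟨N - 1, by omega⟩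
    have e : (4 : ℤ) ^ (M + 1) / 2 = 2 * 4 ^ M := by
      rw [pow_succ]
      omega
    have hp : (0 : ℤ) < 4 ^ M := by positivity
    refine ⟨2 * 4 ^ M, ?_, ?_⟩
    · unfold Fr
      rw [Finset.mem_Ioc, e]
      constructor
      · linarith
      · exact le_rfl
    · push_cast
      rw [pow_succ]
      ring
  obtain ⟨c₂, hc2, hc2v⟩ := hc2
  obtain ⟨w1, w2, -⟩ := W2 N hN c₂ hc2
  have h4 : (0 : ℝ) < 4 ^ N := by positivity
  have hcb0 : cb N c₂ 0 = 1 := by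
    unfold cb
    rw [if_pos rfl]
  have hcb : ∀ n : ℤ, n ≠ 0 → cb N c₂ n = 2 / |(n : ℝ)| := by
    intro n hn
    have hn' : 0 < |(n : ℝ)| := abs_pos.2 (by exact_mod_cast hn)
    unfold cb
    rw [if_neg hn, hc2v, abs_of_pos (by positivity)]
    field_simp
    norm_num
  -- one term
  have hterm : ∀ n : ℤ, ∀ i < g, ∀ p ∈ RtD N (c₁ + n) i,
      Tm N (c₁ + n) n i p ≤ C * qq ^ N * cb N c₂ n := by
    intro n i hi p hp
    obtain ⟨u, hu, h1, h2, h3, -⟩ := dy_data hi hp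
    have hu2 : (2 : ℕ) ^ u ≤ 4 ^ N := by
      have : (4 : ℕ) ^ N = 2 ^ (2 * N) := by rw [pow_mul]; norm_num
      rw [this]
      exact Nat.pow_le_pow_right (by norm_num) (by omega)
    obtain ⟨k1, k2⟩ := h N i u (c₁ + n) n p hN h3 hu hu2
    by_cases hn : n = 0
    · subst hn
      rw [hcb0, mul_one]
      refine k2 ?_
      intro hcon
      apply hlow
      rw [add_zero, hu, four_eq (N := N) (u := u) (by omega)] at hcon
      push_cast at hcon
      have hcon' : (2 : ℤ) ^ u * (2 ^ (2 * N - u) * p.1) = 2 ^ u * c₁ := by linarith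
      have hc : (2 : ℤ) ^ (2 * N - u) * p.1 = c₁ := mul_left_cancel₀ (by positivity) hcon'
      unfold Low
      rw [Finset.mem_filter]
      refine ⟨hc1, hc0, ?_⟩
      rw [← hc]
      refine Dvd.dvd.mul_right ?_ _
      have : (4 : ℤ) ^ (N - g) = 2 ^ (2 * (N - g)) := by
        rw [pow_mul]
        norm_num
      rw [this]
      exact pow_dvd_pow _ (by omega)
    · have hn' : 0 < |(n : ℝ)| := abs_pos.2 (by exact_mod_cast hn)
      rw [hcb n hn]
      have k3 := k1 hn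
      rw [← le_div_iff₀ hn'] at k3
      refine k3.trans ?_
      rw [div_eq_mul_inv, div_eq_mul_inv]
      have : (0 : ℝ) ≤ |(n : ℝ)|⁻¹ := by positivity
      nlinarith [mul_nonneg hK this]
  have hsum : ∀ n ∈ Fr N, ∑ i ∈ range g, ∑ p ∈ RtD N (c₁ + n) i, Tm N (c₁ + n) n i p ≤
      (6 * g) * (C * qq ^ N) * cb N c₂ n := by
    intro n _
    have hb : 0 ≤ C * qq ^ N * cb N c₂ n := mul_nonneg hK (w2 n)
    have h1 : ∀ i ∈ range g, ∑ p ∈ RtD N (c₁ + n) i, Tm N (c₁ + n) n i p ≤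
        6 * (C * qq ^ N * cb N c₂ n) := by
      intro i hi
      have hi' := Finset.mem_range.1 hi
      refine (Finset.sum_le_card_nsmul _ _ _ (hterm n i hi')).trans ?_
      rw [nsmul_eq_mul]
      have := card_RtD hg hi' (c₁ + n)
      have h6 : ((RtD N (c₁ + n) i).card : ℝ) ≤ 6 := by exact_mod_cast this
      exact mul_le_mul_of_nonneg_right h6 hb
    refine (Finset.sum_le_sum h1).trans ?_
    rw [Finset.sum_const, Finset.card_range, nsmul_eq_mul]
    apply le_of_eq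
    ring
  refine (Finset.sum_le_sum hsum).trans ?_
  rw [← Finset.mul_sum]
  have hgN : (g : ℝ) ≤ N + 1 := by
    have : (g : ℝ) ≤ N := by exact_mod_cast hg
    linarith
  have hg0 : (0 : ℝ) ≤ g := Nat.cast_nonneg g
  have hN0 : (0 : ℝ) ≤ (N : ℝ) + 1 := by positivity
  calc (6 * g) * (C * qq ^ N) * ∑ n ∈ Fr N, cb N c₂ n
      ≤ (6 * g) * (C * qq ^ N) * (8 * (N + 1)) := by
        refine mul_le_mul_of_nonneg_left w1 ?_
        positivity
    _ = 48 * (C * qq ^ N) * (g * ((N : ℝ) + 1)) := by ring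
    _ ≤ 48 * (C * qq ^ N) * (((N : ℝ) + 1) * ((N : ℝ) + 1)) := by
        refine mul_le_mul_of_nonneg_left ?_ (by positivity)
        exact mul_le_mul_of_nonneg_right hgN hN0
    _ = 48 * C * ((N : ℝ) + 1) ^ 2 * qq ^ N := by ring

end Pool.Agent.C52.RL3
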