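import Pool.Agent.Lib.MP_c52340_c5.DefsS
import Pool.Agent.Lib.MP_c52340_c5.W2
import Pool.Agent.Lib.MP_c52340_c5.C1
import Pool.Agent.Lib.MP_c52340_c5.C2


set_option autoImplicit false

open Finset

open Pool.Agent.C52.RW2 (W2)
open Pool.Agent.C52.RC1 (C1)
open Pool.Agent.C52.RC2 (C2)

namespace Pool.Agent.C52.RL1

private theorem wt_nonneg (N : ℕ) (c : ℤ) : 0 ≤ wt N c := by
  unfold wt GG
  refine Finset.prod_nonneg (fun i _ => ?_)
  unfold gf
  have := Real.neg_one_le_cos (2 * Real.pi * (4 ^ i * ((c : ℝ) / 4 ^ N)))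
  linarith

private theorem cb_mul_le (N : ℕ) (hN : 1 ≤ N) (c n : ℤ) (hc : c ∈ Fr N) :
    cb N c n * (1 + |(n : ℝ)|) ≤ 4 := by
  by_cases hn : n = 0
  · subst hn
    simp [cb]
  · have h1 := (W2 N hN c hc).2.2 n hn
    have h2 : (1 : ℝ) ≤ |(n : ℝ)| := by
      have : (1 : ℤ) ≤ |n| := Int.one_le_abs hn
      exact_mod_cast this
    have h3 : (0 : ℝ) < |(n : ℝ)| := by linarith
    calc cb N c n * (1 + |(n : ℝ)|) ≤ 2 / |(n : ℝ)| * (1 + |(n : ℝ)|) :=
          mul_le_mul_of_nonneg_right h1 (by linarith)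
      _ = 2 / |(n : ℝ)| + 2 := by field_simp
      _ ≤ 4 := by
          have : 2 / |(n : ℝ)| ≤ 2 := by
            rw [div_le_iff₀ h3]; linarith
          linarith

private theorem geo (N i : ℕ) : ∑ j ∈ Icc i N, qq ^ (N - j) ≤ 10000 / 31 := by
  have hq0 : (0 : ℝ) ≤ qq := by unfold qq; norm_num
  have hq1 : qq < 1 := by unfold qq; norm_num
  calc ∑ j ∈ Icc i N, qq ^ (N - j) ≤ ∑ j ∈ range (N + 1), qq ^ (N - j) := by
        refine Finset.sum_le_sum_of_subset_of_nonneg ?_ (fun j _ _ => pow_nonneg hq0 _)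
        intro j hj
        rw [Finset.mem_Icc] at hj
        rw [Finset.mem_range]
        omega
    _ = ∑ j ∈ range (N + 1), qq ^ j := by
        have := Finset.sum_range_reflect (fun j => qq ^ j) (N + 1)
        simpa using this
    _ ≤ 10000 / 31 := by
        have h := geom_sum_eq (ne_of_lt hq1) (N + 1)
        rw [h]
        have h1 : qq - 1 = -(31 / 10000) := by unfold qq; norm_num
        rw [h1]
        have h2 : (0 : ℝ) ≤ qq ^ (N + 1) := pow_nonneg hq0 _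
        have : (qq ^ (N + 1) - 1) / (-(31 / 10000)) = (1 - qq ^ (N + 1)) * (10000 / 31) := by
          field_simp
          ring
        rw [this]
        nlinarith

/-- Row L1.  Crude bound for one fraction.
Recipe: for `c ∈ Fr N` `cb N c n ≤ min 1 (2/|n|)` hence `(1 + |n|) cb N c n ≤ 4`; wait for `n = 0`: `cb = 1`; for `|n| ≥ 1`: `cb ≤ 2/|n|` (W2).  C2 (`Cs ≤ 1`):
`∑_j (q/2)^(i+N-j) * 3 * 2^(N-j) ≤ 3 (q/2)^i/(1-q)`. -/
theorem L1 : ∃ C : ℝ, 0 < C ∧ ∀ (N i : ℕ) (g₀ n : ℤ) (p : ℤ × ℕ), 1 ≤ N →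
    Tm N g₀ n i p * (1 + |(n : ℝ)|) ≤ C * (qq / 2) ^ i := by
  obtain ⟨C₂, hC₂, h₂⟩ := C2
  refine ⟨4 * C₂ * (10000 / 31), by positivity, ?_⟩
  intro N i g₀ n p hN
  have hq0 : (0 : ℝ) ≤ qq := by unfold qq; norm_num
  unfold Tm
  set x : ℝ := 4 ^ N * (p.1 : ℝ) / (p.2 : ℝ) - (g₀ : ℝ) with hx
  have key : ∀ j ∈ Icc i N, (qq / 2) ^ (i + (N - j)) * (∑ c ∈ Sh N x j, wt N c * cb N c n) *
      (1 + |(n : ℝ)|) ≤ 4 * C₂ * (qq / 2) ^ i * qq ^ (N - j) := by
    intro j hj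
    rw [Finset.mem_Icc] at hj
    have e1 : (∑ c ∈ Sh N x j, wt N c * cb N c n) * (1 + |(n : ℝ)|) ≤ 4 * (C₂ * 2 ^ (N - j)) := by
      calc (∑ c ∈ Sh N x j, wt N c * cb N c n) * (1 + |(n : ℝ)|)
          = ∑ c ∈ Sh N x j, wt N c * (cb N c n * (1 + |(n : ℝ)|)) := by
            rw [Finset.sum_mul]
            refine Finset.sum_congr rfl (fun c _ => by ring)
        _ ≤ ∑ c ∈ Sh N x j, wt N c * 4 := by
            refine Finset.sum_le_sum (fun c hc => ?_)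
            refine mul_le_mul_of_nonneg_left ?_ (wt_nonneg N c)
            unfold Sh at hc
            exact cb_mul_le N hN c n (Finset.mem_filter.1 hc).1
        _ = 4 * ∑ c ∈ Sh N x j, wt N c := by
            rw [← Finset.sum_mul]; ring
        _ ≤ 4 * (C₂ * 2 ^ (N - j)) := by
            have h3 := h₂ N j x hj.2
            have h4 := (C1.1 j x).2
            have h5 : C₂ * 2 ^ (N - j) * Cs j x ≤ C₂ * 2 ^ (N - j) * 1 :=
              mul_le_mul_of_nonneg_left h4 (by positivity)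
            linarith
    have e2 : (0 : ℝ) ≤ (qq / 2) ^ (i + (N - j)) := by positivity
    calc (qq / 2) ^ (i + (N - j)) * (∑ c ∈ Sh N x j, wt N c * cb N c n) * (1 + |(n : ℝ)|)
        = (qq / 2) ^ (i + (N - j)) * ((∑ c ∈ Sh N x j, wt N c * cb N c n) * (1 + |(n : ℝ)|)) := by
          ring
      _ ≤ (qq / 2) ^ (i + (N - j)) * (4 * (C₂ * 2 ^ (N - j))) :=
          mul_le_mul_of_nonneg_left e1 e2
      _ = 4 * C₂ * (qq / 2) ^ i * qq ^ (N - j) := by
          rw [pow_add, div_pow qq 2 (N - j)]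
          field_simp
  have hq2 : (0 : ℝ) ≤ (qq / 2) ^ i := by positivity
  calc (∑ j ∈ Icc i N, (qq / 2) ^ (i + (N - j)) * ∑ c ∈ Sh N x j, wt N c * cb N c n) *
        (1 + |(n : ℝ)|)
      = ∑ j ∈ Icc i N, (qq / 2) ^ (i + (N - j)) * (∑ c ∈ Sh N x j, wt N c * cb N c n) *
        (1 + |(n : ℝ)|) := by rw [Finset.sum_mul]
    _ ≤ ∑ j ∈ Icc i N, 4 * C₂ * (qq / 2) ^ i * qq ^ (N - j) := Finset.sum_le_sum key
    _ = 4 * C₂ * (qq / 2) ^ i * ∑ j ∈ Icc i N, qq ^ (N - j) := by rw [← Finset.mul_sum]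
    _ ≤ 4 * C₂ * (qq / 2) ^ i * (10000 / 31) :=
        mul_le_mul_of_nonneg_left (geo N i) (by positivity)
    _ = 4 * C₂ * (10000 / 31) * (qq / 2) ^ i := by ring

end Pool.Agent.C52.RL1
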