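import Pool.Agent.Lib.MP_c52340_c5.DefsS
import Pool.Agent.Lib.MP_c52340_c5.L1


set_option autoImplicit false

open Finset

open Pool.Agent.C52.RL1 (L1)

namespace Pool.Agent.C52.RL4

private lemma L4_Fr {N : ℕ} {c : ℤ} (hc : c ∈ Fr N) : 2 * |(c : ℝ)| ≤ 4 ^ N := by
  unfold Fr at hc
  rw [Finset.mem_Ioc] at hc
  have h5 : 2 * |c| ≤ (4 : ℤ) ^ N := by
    rcases abs_cases c with ⟨h6, _⟩ | ⟨h6, _⟩ <;> omega
  exact_mod_cast h5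

private lemma L4_card (x : ℝ) (S : Finset ℤ) (h : ∀ n ∈ S, |x - n| ≤ 3 / 2) : S.card ≤ 4 := by
  have hsub : S ⊆ Finset.Icc ⌈x - 3 / 2⌉ ⌊x + 3 / 2⌋ := by
    intro n hn
    have h1 := abs_le.1 (h n hn)
    rw [Finset.mem_Icc]
    exact ⟨Int.ceil_le.2 (by linarith [h1.2]), Int.le_floor.2 (by linarith [h1.1])⟩
  refine (Finset.card_le_card hsub).trans ?_
  rw [Int.card_Icc]
  have h2 : (⌊x + 3 / 2⌋ : ℝ) ≤ x + 3 / 2 := Int.floor_le _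
  have h3 : x - 3 / 2 ≤ (⌈x - 3 / 2⌉ : ℝ) := Int.le_ceil _
  have h4 : ((⌊x + 3 / 2⌋ + 1 - ⌈x - 3 / 2⌉ : ℤ) : ℝ) ≤ 4 := by
    push_cast
    linarith
  have h5 : ⌊x + 3 / 2⌋ + 1 - ⌈x - 3 / 2⌉ ≤ 4 := by exact_mod_cast h4
  omega

private lemma L4_mem {N i : ℕ} {c₁ n : ℤ} {p : ℤ × ℕ} (hN : 1 ≤ N) (hc : c₁ ∈ Fr N) (hn : n ∈ Fr N)
    (hp : p ∈ RtN N (c₁ + n) i) :
    p ∈ Fd i ∧ |4 ^ N * ((p.1 : ℝ) / (p.2 : ℝ)) - c₁ - n| ≤ 3 / 2 := by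
  classical
  unfold RtN at hp
  rw [Finset.mem_filter] at hp
  obtain ⟨hp1, hp2⟩ := hp
  unfold Rt at hp1
  rw [Finset.mem_filter, Finset.mem_product, Finset.mem_Ico] at hp1
  obtain ⟨⟨_, hr1, hr2⟩, hcop, hx⟩ := hp1
  have h4i : 1 ≤ 4 ^ i := Nat.one_le_pow _ _ (by norm_num)
  have hr0 : (0 : ℝ) < p.2 := by exact_mod_cast (by omega : 0 < p.2)
  have hM : (4 : ℝ) ≤ 4 ^ N := by
    calc (4 : ℝ) = 4 ^ 1 := (pow_one _).symm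
      _ ≤ 4 ^ N := pow_le_pow_right₀ (by norm_num) hN
  have hM0 : (0 : ℝ) < 4 ^ N := by positivity
  have hx' : |4 ^ N * ((p.1 : ℝ) / (p.2 : ℝ)) - c₁ - n| ≤ 3 / 2 := by
    have h1 : 4 ^ N * ((p.1 : ℝ) / (p.2 : ℝ)) - c₁ - n =
        4 ^ N * (p.1 : ℝ) / (p.2 : ℝ) - ((c₁ + n : ℤ) : ℝ) := by
      push_cast
      ring
    rw [h1]
    exact hx
  refine ⟨?_, hx'⟩
  have hc1 := L4_Fr hc
  have hn1 := L4_Fr hn
  have h2 : |4 ^ N * ((p.1 : ℝ) / (p.2 : ℝ))| ≤ 2 * 4 ^ N := by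
    have h3 : 4 ^ N * ((p.1 : ℝ) / (p.2 : ℝ)) =
        (4 ^ N * ((p.1 : ℝ) / (p.2 : ℝ)) - c₁ - n) + (c₁ + n) := by ring
    rw [h3]
    refine (abs_add_le _ _).trans ?_
    have h4 := abs_add_le (c₁ : ℝ) (n : ℝ)
    linarith
  have h5 : |(p.1 : ℝ) / (p.2 : ℝ)| ≤ 2 := by
    rw [abs_mul, abs_of_pos hM0, mul_comm] at h2
    exact le_of_mul_le_mul_right h2 hM0
  have h6 : |p.1| ≤ 2 * 4 ^ (i + 1) := by
    have h7 : |(p.1 : ℝ)| ≤ 2 * p.2 := by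
      rw [abs_div, abs_of_pos hr0, div_le_iff₀ hr0] at h5
      exact h5
    have h8 : (p.2 : ℝ) ≤ 4 ^ (i + 1) := by exact_mod_cast hr2.le
    have h9 : |(p.1 : ℝ)| ≤ 2 * 4 ^ (i + 1) := by linarith
    exact_mod_cast h9
  unfold Fd
  rw [Finset.mem_filter, Finset.mem_product, Finset.mem_Icc, Finset.mem_Ico]
  exact ⟨⟨abs_le.1 h6, hr1, hr2⟩, hcop, hp2, h5⟩

/-- Row L4.  All nondyadic fractions of low level.
Recipe: L1; if `p = (b, r) ∈ Rt N (c₁+n) i` then `|4^N b/r - c₁ - n| ≤ 3/2`, so `1 + |4^N b/r - c₁| ≤ (5/2) (1 + |n|)`, and `p ∈ Fd i` since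
`|c₁ + n| ≤ 4^N`; each `p ∈ Fd i` occurs for at most four `n`. -/
theorem L4 : ∃ C : ℝ, 0 < C ∧ ∀ (N g : ℕ) (c₁ : ℤ), 1 ≤ N → g ≤ N → c₁ ∈ Fr N →
    ∑ n ∈ Fr N, ∑ i ∈ range g, ∑ p ∈ RtN N (c₁ + n) i, Tm N (c₁ + n) n i p ≤
      C * ∑ i ∈ range g, (qq / 2) ^ i * ∑ p ∈ Fd i, 1 / (1 + |4 ^ N * ((p.1 : ℝ) / (p.2 : ℝ)) - c₁|) := by
  classical
  obtain ⟨C₁, hC₁, h₁⟩ := Pool.Agent.C52.RL1.L1
  refine ⟨10 * C₁, by positivity, ?_⟩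
  intro N g c₁ hN _ hc
  have hq0 : (0 : ℝ) ≤ qq / 2 := by
    unfold qq
    norm_num
  set w : ℤ × ℕ → ℝ := fun p => 1 / (1 + |4 ^ N * ((p.1 : ℝ) / (p.2 : ℝ)) - c₁|) with hw
  have hw0 : ∀ p, 0 ≤ w p := fun p => by
    rw [hw]
    positivity
  have key : ∀ i ∈ range g, ∑ n ∈ Fr N, ∑ p ∈ RtN N (c₁ + n) i, Tm N (c₁ + n) n i p ≤
      10 * C₁ * ((qq / 2) ^ i * ∑ p ∈ Fd i, w p) := by
    intro i _
    set K : ℝ := 5 / 2 * C₁ * (qq / 2) ^ i with hK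
    have hK0 : 0 ≤ K := by
      rw [hK]
      have := pow_nonneg hq0 i
      positivity
    have step1 : ∀ n ∈ Fr N, ∀ p ∈ RtN N (c₁ + n) i, Tm N (c₁ + n) n i p ≤ K * w p := by
      intro n hn p hp
      obtain ⟨_, hx⟩ := L4_mem hN hc hn hp
      have h2 := h₁ N i (c₁ + n) n p hN
      have h3 : (0 : ℝ) < 1 + |(n : ℝ)| := by positivity
      have h4 : (0 : ℝ) < 1 + |4 ^ N * ((p.1 : ℝ) / (p.2 : ℝ)) - c₁| := by positivity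
      have h5 : 1 + |4 ^ N * ((p.1 : ℝ) / (p.2 : ℝ)) - c₁| ≤ 5 / 2 * (1 + |(n : ℝ)|) := by
        have h6 : 4 ^ N * ((p.1 : ℝ) / (p.2 : ℝ)) - c₁ =
            (4 ^ N * ((p.1 : ℝ) / (p.2 : ℝ)) - c₁ - n) + n := by ring
        rw [h6]
        have h7 := abs_add_le (4 ^ N * ((p.1 : ℝ) / (p.2 : ℝ)) - c₁ - n) (n : ℝ)
        have h8 := abs_nonneg (n : ℝ)
        linarith
      have h9 : Tm N (c₁ + n) n i p ≤ C₁ * (qq / 2) ^ i / (1 + |(n : ℝ)|) := by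
        rw [le_div_iff₀ h3]
        exact h2
      refine h9.trans ?_
      rw [hK, hw]
      simp only
      rw [mul_one_div, div_le_div_iff₀ h3 h4]
      have h10 : 0 ≤ C₁ * (qq / 2) ^ i := mul_nonneg hC₁.le (pow_nonneg hq0 i)
      calc C₁ * (qq / 2) ^ i * (1 + |4 ^ N * ((p.1 : ℝ) / (p.2 : ℝ)) - c₁|)
          ≤ C₁ * (qq / 2) ^ i * (5 / 2 * (1 + |(n : ℝ)|)) := mul_le_mul_of_nonneg_left h5 h10
        _ = 5 / 2 * C₁ * (qq / 2) ^ i * (1 + |(n : ℝ)|) := by ring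
    have step2 : ∀ n ∈ Fr N, ∑ p ∈ RtN N (c₁ + n) i, K * w p =
        ∑ p ∈ Fd i, if p ∈ RtN N (c₁ + n) i then K * w p else 0 := by
      intro n hn
      rw [← Finset.sum_filter]
      refine Finset.sum_congr ?_ fun _ _ => rfl
      ext p
      rw [Finset.mem_filter]
      exact ⟨fun hp => ⟨(L4_mem hN hc hn hp).1, hp⟩, fun hp => hp.2⟩
    have step3 : ∀ p ∈ Fd i, ∑ n ∈ Fr N, (if p ∈ RtN N (c₁ + n) i then K * w p else 0) ≤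
        4 * (K * w p) := by
      intro p _
      rw [← Finset.sum_filter, Finset.sum_const, nsmul_eq_mul]
      refine mul_le_mul_of_nonneg_right ?_ (mul_nonneg hK0 (hw0 p))
      have hcard : ((Fr N).filter (fun n => p ∈ RtN N (c₁ + n) i)).card ≤ 4 := by
        refine L4_card (4 ^ N * ((p.1 : ℝ) / (p.2 : ℝ)) - c₁) _ fun n hn => ?_
        rw [Finset.mem_filter] at hn
        exact (L4_mem hN hc hn.1 hn.2).2
      exact_mod_cast hcard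
    calc ∑ n ∈ Fr N, ∑ p ∈ RtN N (c₁ + n) i, Tm N (c₁ + n) n i p
        ≤ ∑ n ∈ Fr N, ∑ p ∈ RtN N (c₁ + n) i, K * w p :=
          Finset.sum_le_sum fun n hn => Finset.sum_le_sum fun p hp => step1 n hn p hp
      _ = ∑ n ∈ Fr N, ∑ p ∈ Fd i, (if p ∈ RtN N (c₁ + n) i then K * w p else 0) :=
          Finset.sum_congr rfl step2
      _ = ∑ p ∈ Fd i, ∑ n ∈ Fr N, (if p ∈ RtN N (c₁ + n) i then K * w p else 0) :=
          Finset.sum_comm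
      _ ≤ ∑ p ∈ Fd i, 4 * (K * w p) := Finset.sum_le_sum step3
      _ = 10 * C₁ * ((qq / 2) ^ i * ∑ p ∈ Fd i, w p) := by
          rw [← Finset.mul_sum, ← Finset.mul_sum, hK]
          ring
  rw [Finset.sum_comm]
  refine (Finset.sum_le_sum key).trans (le_of_eq ?_)
  rw [← Finset.mul_sum]

end Pool.Agent.C52.RL4
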