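import Pool.Agent.Lib.MP_c52340_c5.DefsS
import Pool.Agent.Lib.MP_c52340_c5.W2
import Pool.Agent.Lib.MP_c52340_c5.F4
import Pool.Agent.Lib.MP_c52340_c5.C5
import Pool.Agent.Lib.MP_c52340_c5.L3
import Pool.Agent.Lib.MP_c52340_c5.L4
import Pool.Agent.Lib.MP_c52340_c5.E1


set_option autoImplicit false

open Finset

open Pool.Agent.C52.RW2 (W2)
open Pool.Agent.C52.RF4 (F4)
open Pool.Agent.C52.RC5 (C5)
open Pool.Agent.C52.RL3 (L3)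
open Pool.Agent.C52.RL4 (L4)
open Pool.Agent.C52.RE1 (E1)

namespace Pool.Agent.C52.RE6

private lemma E6_cb0 (N : ℕ) (c n : ℤ) : 0 ≤ cb N c n := by
  unfold cb
  split_ifs
  · norm_num
  · positivity

private lemma E6_half (N : ℕ) (hN : 1 ≤ N) : ((4 : ℤ) ^ N / 2) ∈ Fr N := by
  unfold Fr
  rw [mem_Ioc]
  have h1 : (4 : ℤ) ≤ 4 ^ N := by
    calc (4 : ℤ) = 4 ^ 1 := by norm_num
      _ ≤ 4 ^ N := pow_le_pow_right₀ (by norm_num) hN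
  constructor <;> omega

private lemma E6_cb (N : ℕ) (c n : ℤ) (hc : c ∈ Fr N) : cb N c n ≤ cb N ((4 : ℤ) ^ N / 2) n := by
  unfold Fr at hc
  rw [mem_Ioc] at hc
  have h1 : |c| ≤ |(4 : ℤ) ^ N / 2| := by
    have h4 : (0 : ℤ) ≤ (4 : ℤ) ^ N / 2 := by positivity
    rw [abs_of_nonneg h4, abs_le]
    constructor <;> omega
  have h2 : |(c : ℝ)| ≤ |(((4 : ℤ) ^ N / 2 : ℤ) : ℝ)| := by exact_mod_cast h1
  unfold cb
  split_ifs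
  · exact le_rfl
  · gcongr

private lemma E6_split (N : ℕ) (g₀ : ℤ) (i : ℕ) (f : ℤ × ℕ → ℝ) :
    ∑ p ∈ Rt N g₀ i, f p = ∑ p ∈ RtD N g₀ i, f p + ∑ p ∈ RtN N g₀ i, f p := by
  classical
  unfold RtD RtN
  rw [sum_filter_add_sum_filter_not]

private lemma E6_last (C₃ C₄ C₅ C₆ A H P : ℝ) (h3 : 0 ≤ C₃) (h4 : 0 ≤ C₄) (h5 : 0 ≤ C₅) (h6 : 0 ≤ C₆)
    (hA : 0 ≤ A) (hH : 0 ≤ H) (hP : 0 ≤ P) :
    C₄ * P * ((C₃ * A + C₆ * H) + 8 * C₅ * A) ≤ C₄ * (8 * C₅ + C₃ + C₆) * P * (A + H) := by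
  have a1 : 0 ≤ C₅ * H := mul_nonneg h5 hH
  have a2 : 0 ≤ C₃ * H := mul_nonneg h3 hH
  have a3 : 0 ≤ C₆ * A := mul_nonneg h6 hA
  have a4 : 0 ≤ C₄ * P := mul_nonneg h4 hP
  have h1 : (C₃ * A + C₆ * H) + 8 * C₅ * A ≤ (8 * C₅ + C₃ + C₆) * (A + H) := by
    have e : (8 * C₅ + C₃ + C₆) * (A + H) =
        (C₃ * A + C₆ * H) + 8 * C₅ * A + (8 * (C₅ * H) + C₃ * H + C₆ * A) := by ring
    rw [e]
    linarith
  calc C₄ * P * ((C₃ * A + C₆ * H) + 8 * C₅ * A)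
      ≤ C₄ * P * ((8 * C₅ + C₃ + C₆) * (A + H)) := mul_le_mul_of_nonneg_left h1 a4
    _ = C₄ * (8 * C₅ + C₃ + C₆) * P * (A + H) := by ring

/-- Row E6.  Average of `zR` for a frequency which is not of low level.
Recipe: E1, exchange sums, F4 with `F c = wt N c * cb N c n`, `g₀ = c₁ + n`: the inner sums are `Tm N (c₁+n) n i p`.  Levels `i ≥ g`: `cb N c n ≤ min 1 (2/|n|)` (W2), C5,
`∑_n min 1 (2/|n|) ≤ 8 (N+1)`; levels `i < g`: L3 and L4. -/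
theorem E6 : ∃ C : ℝ, 0 < C ∧ ∀ (N g : ℕ) (c₁ : ℤ), 1 ≤ N → g ≤ N → c₁ ∈ Fr N → c₁ ≠ 0 → c₁ ∉ Low N g →
    ∑ k ∈ Odds N, zR N k c₁ ≤ C * 4 ^ N * (((N : ℝ) + 1) ^ 2 * ((qq / 2) ^ g + qq ^ N) +
      ∑ i ∈ range g, (qq / 2) ^ i * ∑ p ∈ Fd i, 1 / (1 + |4 ^ N * ((p.1 : ℝ) / (p.2 : ℝ)) - c₁|)) := by
  obtain ⟨C₄, hC₄, hF4⟩ := F4
  obtain ⟨C₅, hC₅, hC5⟩ := C5
  obtain ⟨C₃, hC₃, hL3⟩ := L3
  obtain ⟨C₆, hC₆, hL4⟩ := L4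
  refine ⟨C₄ * (8 * C₅ + C₃ + C₆), by positivity, ?_⟩
  intro N g c₁ hN hg hc₁ hc₁0 hlow
  obtain ⟨hE1, hbet, -, hwt⟩ := E1
  have hqq0 : (0 : ℝ) < qq := by unfold qq; norm_num
  have hW2 := (W2 N hN ((4 : ℤ) ^ N / 2) (E6_half N hN)).1
  -- the sum over `k`
  have hk1 : ∑ k ∈ Odds N, zR N k c₁ ≤
      ∑ n ∈ Fr N, ∑ c ∈ Fr N, (wt N c * cb N c n) *
        Sk N ((((c₁ + n : ℤ) : ℝ) + (c : ℝ) / 4 ^ N) / 4 ^ N) := by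
    have e1 : ∑ k ∈ Odds N, zR N k c₁ =
        ∑ n ∈ Fr N, ∑ c ∈ Fr N, (wt N c * cb N c n) *
          ∑ k ∈ Odds N, |GG (1 / 3) N ((k : ℝ) * bet N c₁ c n)| := by
      unfold zR ov
      calc ∑ k ∈ Odds N, ∑ c ∈ Fr N, wt N c * ∑ n ∈ Fr N, cb N c n * |GG (1 / 3) N ((k : ℝ) * bet N c₁ c n)|
          = ∑ k ∈ Odds N, ∑ n ∈ Fr N, ∑ c ∈ Fr N,
              (wt N c * cb N c n) * |GG (1 / 3) N ((k : ℝ) * bet N c₁ c n)| := by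
            refine sum_congr rfl fun k _ => ?_
            rw [sum_comm]
            refine sum_congr rfl fun c _ => ?_
            rw [mul_sum]
            refine sum_congr rfl fun n _ => ?_
            ring
        _ = ∑ n ∈ Fr N, ∑ c ∈ Fr N, ∑ k ∈ Odds N,
              (wt N c * cb N c n) * |GG (1 / 3) N ((k : ℝ) * bet N c₁ c n)| := by
            rw [sum_comm]
            refine sum_congr rfl fun n _ => ?_
            rw [sum_comm]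
        _ = _ := by
            refine sum_congr rfl fun n _ => sum_congr rfl fun c _ => ?_
            rw [mul_sum]
    rw [e1]
    refine sum_le_sum fun n _ => sum_le_sum fun c _ => ?_
    have h1 := hE1 N (bet N c₁ c n)
    rw [← hbet]
    exact mul_le_mul_of_nonneg_left h1 (mul_nonneg (hwt N c).1 (E6_cb0 N c n))
  -- F4
  have hk2 : ∀ n ∈ Fr N, ∑ c ∈ Fr N, (wt N c * cb N c n) *
        Sk N ((((c₁ + n : ℤ) : ℝ) + (c : ℝ) / 4 ^ N) / 4 ^ N) ≤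
      C₄ * 4 ^ N * ∑ i ∈ range (N + 1), ∑ p ∈ Rt N (c₁ + n) i, Tm N (c₁ + n) n i p := by
    intro n _
    have := hF4 N (c₁ + n) (fun c => wt N c * cb N c n)
      (fun c => mul_nonneg (hwt N c).1 (E6_cb0 N c n))
    simpa only [Tm] using this
  -- high levels
  have hhigh : ∀ n ∈ Fr N, ∑ i ∈ Icc g N, ∑ p ∈ Rt N (c₁ + n) i, Tm N (c₁ + n) n i p ≤
      cb N ((4 : ℤ) ^ N / 2) n * (C₅ * ((qq / 2) ^ g + qq ^ N)) := by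
    intro n _
    have h5 := hC5 N g (c₁ + n)
    have hκ0 := E6_cb0 N ((4 : ℤ) ^ N / 2) n
    refine le_trans ?_ (mul_le_mul_of_nonneg_left h5 hκ0)
    rw [mul_sum]
    refine sum_le_sum fun i _ => ?_
    rw [mul_sum]
    refine sum_le_sum fun p _ => ?_
    unfold Tm
    rw [mul_sum]
    refine sum_le_sum fun j _ => ?_
    have hqp : (0 : ℝ) ≤ (qq / 2) ^ (i + (N - j)) := by positivity
    calc (qq / 2) ^ (i + (N - j)) *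
          ∑ c ∈ Sh N (4 ^ N * (p.1 : ℝ) / (p.2 : ℝ) - ((c₁ + n : ℤ) : ℝ)) j, wt N c * cb N c n
        ≤ (qq / 2) ^ (i + (N - j)) *
          ∑ c ∈ Sh N (4 ^ N * (p.1 : ℝ) / (p.2 : ℝ) - ((c₁ + n : ℤ) : ℝ)) j,
            wt N c * cb N ((4 : ℤ) ^ N / 2) n := by
          refine mul_le_mul_of_nonneg_left (sum_le_sum fun c hc => ?_) hqp
          have hcF : c ∈ Fr N := (mem_filter.1 hc).1
          exact mul_le_mul_of_nonneg_left (E6_cb N c n hcF) (hwt N c).1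
      _ = cb N ((4 : ℤ) ^ N / 2) n * ((qq / 2) ^ (i + (N - j)) *
          ∑ c ∈ Sh N (4 ^ N * (p.1 : ℝ) / (p.2 : ℝ) - ((c₁ + n : ℤ) : ℝ)) j, wt N c) := by
          rw [← sum_mul]; ring
  have hhigh2 : ∑ n ∈ Fr N, ∑ i ∈ Icc g N, ∑ p ∈ Rt N (c₁ + n) i, Tm N (c₁ + n) n i p ≤
      8 * C₅ * (((N : ℝ) + 1) ^ 2 * ((qq / 2) ^ g + qq ^ N)) := by
    refine (sum_le_sum hhigh).trans ?_
    rw [← sum_mul]
    have hX0 : 0 ≤ C₅ * ((qq / 2) ^ g + qq ^ N) := by positivity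
    have h1 : (∑ n ∈ Fr N, cb N ((4 : ℤ) ^ N / 2) n) * (C₅ * ((qq / 2) ^ g + qq ^ N)) ≤
        8 * ((N : ℝ) + 1) * (C₅ * ((qq / 2) ^ g + qq ^ N)) := mul_le_mul_of_nonneg_right hW2 hX0
    refine h1.trans ?_
    have h2 : ((N : ℝ) + 1) ≤ ((N : ℝ) + 1) ^ 2 := by
      have : (1 : ℝ) ≤ (N : ℝ) + 1 := by
        have : (0 : ℝ) ≤ N := Nat.cast_nonneg _
        linarith
      nlinarith
    calc 8 * ((N : ℝ) + 1) * (C₅ * ((qq / 2) ^ g + qq ^ N))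
        ≤ 8 * ((N : ℝ) + 1) ^ 2 * (C₅ * ((qq / 2) ^ g + qq ^ N)) := by gcongr
      _ = 8 * C₅ * (((N : ℝ) + 1) ^ 2 * ((qq / 2) ^ g + qq ^ N)) := by ring
  -- low levels
  have hlow2 : ∑ n ∈ Fr N, ∑ i ∈ range g, ∑ p ∈ Rt N (c₁ + n) i, Tm N (c₁ + n) n i p ≤
      C₃ * (((N : ℝ) + 1) ^ 2 * ((qq / 2) ^ g + qq ^ N)) +
      C₆ * ∑ i ∈ range g, (qq / 2) ^ i * ∑ p ∈ Fd i, 1 / (1 + |4 ^ N * ((p.1 : ℝ) / (p.2 : ℝ)) - c₁|) := by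
    have e1 : ∑ n ∈ Fr N, ∑ i ∈ range g, ∑ p ∈ Rt N (c₁ + n) i, Tm N (c₁ + n) n i p =
        ∑ n ∈ Fr N, ∑ i ∈ range g, ∑ p ∈ RtD N (c₁ + n) i, Tm N (c₁ + n) n i p +
        ∑ n ∈ Fr N, ∑ i ∈ range g, ∑ p ∈ RtN N (c₁ + n) i, Tm N (c₁ + n) n i p := by
      rw [← sum_add_distrib]
      refine sum_congr rfl fun n _ => ?_
      rw [← sum_add_distrib]
      exact sum_congr rfl fun i _ => E6_split N (c₁ + n) i _
    rw [e1]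
    have h3 := hL3 N g c₁ hN hg hc₁ hc₁0 hlow
    have h4 := hL4 N g c₁ hN hg hc₁
    have h5 : C₃ * ((N : ℝ) + 1) ^ 2 * qq ^ N ≤
        C₃ * (((N : ℝ) + 1) ^ 2 * ((qq / 2) ^ g + qq ^ N)) := by
      have : (0 : ℝ) ≤ (qq / 2) ^ g := by positivity
      calc C₃ * ((N : ℝ) + 1) ^ 2 * qq ^ N = C₃ * (((N : ℝ) + 1) ^ 2 * qq ^ N) := by ring
        _ ≤ C₃ * (((N : ℝ) + 1) ^ 2 * ((qq / 2) ^ g + qq ^ N)) := by
            gcongr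
            linarith
    linarith
  -- the split of the levels
  have hIcc : Icc g N = Ico g (N + 1) := by
    ext i
    simp only [mem_Icc, mem_Ico]
    omega
  have htot : ∑ n ∈ Fr N, ∑ i ∈ range (N + 1), ∑ p ∈ Rt N (c₁ + n) i, Tm N (c₁ + n) n i p =
      ∑ n ∈ Fr N, ∑ i ∈ range g, ∑ p ∈ Rt N (c₁ + n) i, Tm N (c₁ + n) n i p +
      ∑ n ∈ Fr N, ∑ i ∈ Icc g N, ∑ p ∈ Rt N (c₁ + n) i, Tm N (c₁ + n) n i p := by
    rw [← sum_add_distrib]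
    refine sum_congr rfl fun n _ => ?_
    rw [hIcc, sum_range_add_sum_Ico _ (by omega : g ≤ N + 1)]
  set A : ℝ := ((N : ℝ) + 1) ^ 2 * ((qq / 2) ^ g + qq ^ N) with hA
  set H : ℝ := ∑ i ∈ range g, (qq / 2) ^ i * ∑ p ∈ Fd i, 1 / (1 + |4 ^ N * ((p.1 : ℝ) / (p.2 : ℝ)) - c₁|)
    with hH
  have hA0 : 0 ≤ A := by positivity
  have hH0 : 0 ≤ H := by
    rw [hH]
    exact sum_nonneg fun i _ => mul_nonneg (by positivity) (sum_nonneg fun p _ => by positivity)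
  calc ∑ k ∈ Odds N, zR N k c₁
      ≤ _ := hk1
    _ ≤ ∑ n ∈ Fr N, C₄ * 4 ^ N * ∑ i ∈ range (N + 1), ∑ p ∈ Rt N (c₁ + n) i, Tm N (c₁ + n) n i p :=
        sum_le_sum hk2
    _ = C₄ * 4 ^ N * ∑ n ∈ Fr N, ∑ i ∈ range (N + 1), ∑ p ∈ Rt N (c₁ + n) i, Tm N (c₁ + n) n i p := by
        rw [mul_sum]
    _ ≤ C₄ * 4 ^ N * ((C₃ * A + C₆ * H) + 8 * C₅ * A) := by
        rw [htot]
        have : (0 : ℝ) ≤ C₄ * 4 ^ N := by positivity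
        exact mul_le_mul_of_nonneg_left (add_le_add hlow2 hhigh2) this
    _ ≤ C₄ * (8 * C₅ + C₃ + C₆) * 4 ^ N * (A + H) :=
        E6_last C₃ C₄ C₅ C₆ A H (4 ^ N) hC₃.le hC₄.le hC₅.le hC₆.le hA0 hH0 (by positivity)

end Pool.Agent.C52.RE6
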