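import Pool.Agent.Lib.MP_c52340_c5.DefsS
import Pool.Agent.Lib.MP_c52340_c5.B12
import Pool.Agent.Lib.MP_c52340_c5.B13
import Pool.Agent.Lib.MP_c52340_c5.P5
import Pool.Agent.Lib.MP_c52340_c5.C1
import Pool.Agent.Lib.MP_c52340_c5.C2


set_option autoImplicit false

open Finset

open Pool.Agent.C52.RB12 (B12)
open Pool.Agent.C52.RB13 (B13)
open Pool.Agent.C52.RP5 (P5)
open Pool.Agent.C52.RC1 (C1)
open Pool.Agent.C52.RC2 (C2)

namespace Pool.Agent.C52.RK1

private theorem k1_point (t : ℝ) (ht : 0 ≤ t) (N : ℕ) (h : t ≤ 4 ^ N) :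
    1 / (1 + t) ≤ ∑ j ∈ range (N + 1), (if t ≤ 4 ^ j then 4 / 4 ^ j else (0 : ℝ)) := by
  induction N with
  | zero =>
    rw [pow_zero] at h
    simp only [zero_add, sum_range_one, pow_zero]
    rw [if_pos h, div_one, div_le_iff₀ (by linarith)]
    linarith
  | succ N ih =>
    rw [sum_range_succ, if_pos h]
    rcases le_or_gt t (4 ^ N) with h1 | h1
    · have h2 := ih h1
      have h3 : (0 : ℝ) < 4 / 4 ^ (N + 1) := by positivity
      linarith
    · have h2 : (0 : ℝ) ≤ ∑ j ∈ range (N + 1), (if t ≤ 4 ^ j then 4 / 4 ^ j else (0 : ℝ)) := by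
        refine sum_nonneg fun j _ => ?_
        split_ifs
        · positivity
        · exact le_rfl
      have h3 : 1 / (1 + t) ≤ 4 / 4 ^ (N + 1) := by
        have h4 : (4 : ℝ) / 4 ^ (N + 1) = 1 / 4 ^ N := by
          rw [pow_succ]
          field_simp
        rw [h4]
        refine one_div_le_one_div_of_le (by positivity) (by linarith)
      linarith

private theorem k1_point' (t : ℝ) (ht : 0 ≤ t) (N : ℕ) :
    1 / (1 + t) ≤ ∑ j ∈ range (N + 1), (if t ≤ 4 ^ j then 4 / 4 ^ j else (0 : ℝ)) + 1 / 4 ^ N := by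
  have h0 : (0 : ℝ) < 1 / 4 ^ N := by positivity
  rcases le_or_gt t (4 ^ N) with h1 | h1
  · linarith [k1_point t ht N h1]
  · have h2 : (0 : ℝ) ≤ ∑ j ∈ range (N + 1), (if t ≤ 4 ^ j then 4 / 4 ^ j else (0 : ℝ)) := by
      refine sum_nonneg fun j _ => ?_
      split_ifs
      · positivity
      · exact le_rfl
    have h3 : 1 / (1 + t) ≤ 1 / 4 ^ N := one_div_le_one_div_of_le (by positivity) (by linarith)
    linarith

private theorem k1_wt_nonneg (N : ℕ) (c : ℤ) : 0 ≤ wt N c := by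
  unfold wt
  exact B13.2.2.2.2.2.2.2.2.1 (1 / 4) _ N (by norm_num) le_rfl

private theorem k1_mass (N : ℕ) (hN : 1 ≤ N) : ∑ c ∈ Fr N, wt N c = 2 ^ N := by
  have h1 := B12 N hN (fun c => wt N c) (by
    intro c
    unfold wt
    have h2 : (((c + 4 ^ N : ℤ)) : ℝ) / 4 ^ N = (c : ℝ) / 4 ^ N + ((1 : ℤ) : ℝ) := by
      push_cast
      field_simp
    rw [h2]
    exact B13.2.2.2.2.2.1 (1 / 4) _ N 1)
  rw [h1]
  have h3 := P5 (1 / 4) N
  have h4 : (4 * (1 - 2 * (1 / 4 : ℝ))) = 2 := by norm_num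
  rw [h4] at h3
  rw [← h3]
  refine sum_congr rfl fun c _ => ?_
  unfold wt
  push_cast
  rfl

/-- Row K1.  Harmonic weights by shells.
Recipe: shell `j = 0`: `|4^N x - c| ≤ 1`, `c ∈ Sh N x N`; shell `1 ≤ j ≤ N`: `4^(j-1) < |4^N x - c| ≤ 4^j`, `c ∈ Sh N x (N-j)`, weight `≤ 4 * 4^{-j}`, C2; the rest:
weight `≤ 4^{-N}`, total mass `2^N` (P5, B12), `Cs 0 = 1`. -/
theorem K1 : ∃ C : ℝ, 0 < C ∧ ∀ (N : ℕ) (x : ℝ), 1 ≤ N →
    Hw N x ≤ C * ∑ j ∈ range (N + 1), (1 / 2 : ℝ) ^ j * Cs (N - j) x := by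
  obtain ⟨C₂, hC₂, h2⟩ := C2
  refine ⟨4 * C₂ + 1, by positivity, fun N x hN => ?_⟩
  have h4N : (0 : ℝ) < 4 ^ N := by positivity
  unfold Hw
  have h1 : ∀ c ∈ Fr N, wt N c / (1 + |4 ^ N * x - c|) ≤
      ∑ j ∈ range (N + 1), (if |4 ^ N * x - c| ≤ 4 ^ j then 4 / 4 ^ j * wt N c else (0 : ℝ)) +
        wt N c * (1 / 4 ^ N) := by
    intro c _
    have h3 := mul_le_mul_of_nonneg_left (k1_point' |4 ^ N * x - c| (abs_nonneg _) N) (k1_wt_nonneg N c)
    rw [mul_one_div] at h3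
    refine h3.trans (le_of_eq ?_)
    rw [mul_add, mul_sum]
    congr 1
    refine sum_congr rfl fun j _ => ?_
    split_ifs
    · ring
    · ring
  refine (sum_le_sum h1).trans ?_
  rw [sum_add_distrib, sum_comm, ← sum_mul, k1_mass N hN]
  have h3 : ∀ j ∈ range (N + 1), ∑ c ∈ Fr N,
      (if |4 ^ N * x - c| ≤ 4 ^ j then 4 / 4 ^ j * wt N c else (0 : ℝ)) ≤
      4 * C₂ * ((1 / 2 : ℝ) ^ j * Cs (N - j) x) := by
    intro j hj
    rw [mem_range] at hj
    have hj' : j ≤ N := by omega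
    rw [← sum_filter]
    rw [← mul_sum]
    have h4 : (Fr N).filter (fun c : ℤ => |4 ^ N * x - (c : ℝ)| ≤ 4 ^ j) = Sh N x (N - j) := by
      unfold Sh
      refine filter_congr fun c _ => ?_
      have h5 : (4 : ℝ) ^ N = 4 ^ j * 4 ^ (N - j) := by
        rw [← pow_add]
        congr 1
        omega
      have h6 : |(c : ℝ) / 4 ^ N - x| = |4 ^ N * x - c| / 4 ^ N := by
        rw [← abs_of_pos h4N, ← abs_div, abs_of_pos h4N, ← abs_neg]
        congr 1
        field_simp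
        ring
      obtain ⟨t, ht⟩ : ∃ t : ℝ, t = |4 ^ N * x - c| := ⟨_, rfl⟩
      rw [h6, ← ht, div_le_div_iff₀ h4N (by positivity), one_mul, h5]
      have h8 : (0 : ℝ) < 4 ^ (N - j) := by positivity
      constructor
      · intro h7
        exact mul_le_mul_of_nonneg_right h7 h8.le
      · intro h7
        exact le_of_mul_le_mul_right h7 h8
    rw [h4]
    have h5 := h2 N (N - j) x (Nat.sub_le _ _)
    have h6 : N - (N - j) = j := by omega
    rw [h6] at h5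
    have h7 : (4 : ℝ) / 4 ^ j * (C₂ * 2 ^ j * Cs (N - j) x) = 4 * C₂ * ((1 / 2 : ℝ) ^ j * Cs (N - j) x) := by
      have h8 : (4 : ℝ) ^ j = 2 ^ j * 2 ^ j := by rw [← mul_pow]; norm_num
      rw [h8, one_div_pow]
      field_simp
    rw [← h7]
    exact mul_le_mul_of_nonneg_left h5 (by positivity)
  have h4 : (2 : ℝ) ^ N * (1 / 4 ^ N) ≤ ∑ j ∈ range (N + 1), (1 / 2 : ℝ) ^ j * Cs (N - j) x := by
    have h5 : (2 : ℝ) ^ N * (1 / 4 ^ N) = (1 / 2 : ℝ) ^ N * Cs (N - N) x := by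
      rw [Nat.sub_self, C1.2.2.2.2, mul_one, mul_one_div, ← div_pow]
      norm_num
    rw [h5]
    exact single_le_sum (f := fun j => (1 / 2 : ℝ) ^ j * Cs (N - j) x)
      (fun j _ => mul_nonneg (by positivity) (C1.1 _ _).1) (mem_range.mpr (by omega))
  refine (add_le_add (sum_le_sum h3) h4).trans (le_of_eq ?_)
  rw [← mul_sum]
  ring

end Pool.Agent.C52.RK1
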