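import Pool.Agent.Lib.MP_c52340_c5.DefsS
import Pool.Agent.Lib.MP_c52340_c5.B13
import Pool.Agent.Lib.MP_c52340_c5.T1
import Pool.Agent.Lib.MP_c52340_c5.C1
import Pool.Agent.Lib.MP_c52340_c5.K2


set_option autoImplicit false

open Finset

open Pool.Agent.C52.RB13 (B13)
open Pool.Agent.C52.RT1 (T1)
open Pool.Agent.C52.RC1 (C1)
open Pool.Agent.C52.RK2 (K2)

namespace Pool.Agent.C52.RK3

private lemma geoK3 (r : ℝ) (h0 : 0 ≤ r) (h1 : r < 1) (n : ℕ) :
    ∑ i ∈ range n, r ^ i ≤ 1 / (1 - r) := by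
  rw [le_div_iff₀ (by linarith), mul_comm, mul_neg_geom_sum]
  have := pow_nonneg h0 n
  linarith

private lemma pairsK3 (q : ℝ) (h0 : 0 ≤ q) (h1 : q < 1) (g : ℕ) :
    ∑ u ∈ range (2 * g), q ^ ((u + 1) / 2) ≤ 2 * (1 / (1 - q)) := by
  have h : ∑ u ∈ range (2 * g), q ^ ((u + 1) / 2) = ∑ v ∈ range g, (q ^ v + q ^ (v + 1)) := by
    induction g with
    | zero => simp
    | succ g ih =>
      rw [show 2 * (g + 1) = 2 * g + 1 + 1 by ring, Finset.sum_range_succ, Finset.sum_range_succ, ih,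
        Finset.sum_range_succ]
      have e1 : (2 * g + 1) / 2 = g := by omega
      have e2 : (2 * g + 1 + 1) / 2 = g + 1 := by omega
      rw [e1, e2]; ring
  rw [h]
  have h2 : ∑ v ∈ range g, (q ^ v + q ^ (v + 1)) ≤ ∑ v ∈ range g, 2 * q ^ v := by
    apply Finset.sum_le_sum
    intro v _
    have : q ^ (v + 1) ≤ q ^ v := pow_le_pow_of_le_one h0 h1.le (by omega)
    linarith
  rw [← Finset.mul_sum] at h2
  have h3 := geoK3 q h0 h1 g
  linarith

private lemma gf_nonneg (x : ℝ) : 0 ≤ gf (1 / 4) x := B13.2.2.2.1 (1 / 4) x (by norm_num) le_rfl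

private lemma gf_per (x : ℝ) (z : ℤ) : gf (1 / 4) (x + z) = gf (1 / 4) x := B13.1 (1 / 4) x z

private lemma Cs_split (m h : ℕ) (hm : h ≤ m) (y : ℝ) (t : ℕ) :
    Cs m ((y + t) / 4 ^ h) ≤
      (∏ i ∈ range h, (gf (1 / 4) (4 ^ i * (y + t) / 4 ^ h) + 4 * 4 ^ i / 4 ^ m)) * Cs (m - h) y := by
  have h4 : (0 : ℝ) < 4 ^ h := by positivity
  obtain ⟨n, rfl⟩ := Nat.exists_eq_add_of_le hm
  rw [show h + n - h = n by omega]
  unfold Cs
  rw [Finset.prod_range_add]
  have e2 : ∏ x ∈ range n, min 1 (gf (1 / 4) (4 ^ (h + x) * ((y + t) / 4 ^ h)) + 4 * 4 ^ (h + x) / 4 ^ (h + n))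
      = ∏ i ∈ range n, min 1 (gf (1 / 4) (4 ^ i * y) + 4 * 4 ^ i / 4 ^ n) := by
    apply Finset.prod_congr rfl
    intro l _
    have a1 : (4 : ℝ) ^ (h + l) * ((y + t) / 4 ^ h) = 4 ^ l * y + (((4 ^ l * t : ℕ) : ℤ) : ℝ) := by
      rw [pow_add]; push_cast; field_simp
    have a2 : (4 : ℝ) * 4 ^ (h + l) / 4 ^ (h + n) = 4 * 4 ^ l / 4 ^ n := by
      rw [pow_add, pow_add]; field_simp
    rw [a1, gf_per, a2]
  rw [e2]
  apply mul_le_mul_of_nonneg_right _
  · apply Finset.prod_nonneg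
    intro i _
    apply le_min zero_le_one
    have := gf_nonneg (4 ^ i * y)
    positivity
  · apply Finset.prod_le_prod
    · intro i _
      apply le_min zero_le_one
      have := gf_nonneg (4 ^ i * ((y + t) / 4 ^ h))
      positivity
    · intro i _
      refine (min_le_right _ _).trans (le_of_eq ?_)
      have : (4 : ℝ) ^ i * ((y + t) / 4 ^ h) = 4 ^ i * (y + t) / 4 ^ h := by ring
      rw [this]

private lemma sum_t (m h g : ℕ) (hm : h ≤ g) (hg : g ≤ m) (y : ℝ) :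
    ∑ t ∈ range (4 ^ h), Cs m ((y + t) / 4 ^ h) ≤ Real.exp 3 * 2 ^ h * Cs (m - g) y := by
  have hcs0 : 0 ≤ Cs (m - h) y := (C1.1 (m - h) y).1
  have hmono : Cs (m - h) y ≤ Cs (m - g) y := C1.2.2.1 (m - g) (m - h) y (by omega)
  have hk2 := K2 (fun i x => gf (1 / 4) x + 4 * 4 ^ i / 4 ^ m) (fun i => 2 + 16 * 4 ^ i / 4 ^ m)
    (by
      intro i x
      have := gf_nonneg x
      positivity)
    (by
      intro i x
      have := gf_per x 1
      push_cast at this
      rw [this])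
    (by
      intro i x
      rw [Finset.sum_add_distrib, T1]
      simp only [Finset.sum_const, Finset.card_range, nsmul_eq_mul]
      push_cast
      apply le_of_eq
      ring)
    h y
  have hprod : ∏ i ∈ range h, (2 + 16 * (4 : ℝ) ^ i / 4 ^ m) ≤ Real.exp 3 * 2 ^ h := by
    have s1 : ∏ i ∈ range h, (2 + 16 * (4 : ℝ) ^ i / 4 ^ m) ≤
        ∏ i ∈ range h, (2 * Real.exp (8 * 4 ^ i / 4 ^ m)) := by
      apply Finset.prod_le_prod
      · intro i _; positivity
      · intro i _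
        have := Real.add_one_le_exp (8 * (4 : ℝ) ^ i / 4 ^ m)
        have e : 2 + 16 * (4 : ℝ) ^ i / 4 ^ m = 2 * (8 * 4 ^ i / 4 ^ m + 1) := by ring
        rw [e]
        linarith
    refine s1.trans ?_
    rw [Finset.prod_mul_distrib, Finset.prod_const, Finset.card_range, ← Real.exp_sum, mul_comm]
    apply mul_le_mul_of_nonneg_right _ (by positivity)
    apply Real.exp_le_exp.2
    rw [← Finset.sum_div, ← Finset.mul_sum]
    have hgs : (∑ i ∈ range h, (4 : ℝ) ^ i) * 3 = 4 ^ h - 1 := by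
      have := geom_sum_mul (4 : ℝ) h
      linarith
    have h4h : (4 : ℝ) ^ h ≤ 4 ^ m := pow_le_pow_right₀ (by norm_num) (by omega)
    rw [div_le_iff₀ (by positivity)]
    nlinarith [show (0 : ℝ) < 4 ^ h by positivity]
  calc ∑ t ∈ range (4 ^ h), Cs m ((y + t) / 4 ^ h)
      ≤ ∑ t ∈ range (4 ^ h),
        (∏ i ∈ range h, (gf (1 / 4) (4 ^ i * (y + t) / 4 ^ h) + 4 * 4 ^ i / 4 ^ m)) * Cs (m - h) y :=
        Finset.sum_le_sum (fun t _ => Cs_split m h (by omega) y t)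
    _ = (∑ t ∈ range (4 ^ h),
        (∏ i ∈ range h, (gf (1 / 4) (4 ^ i * (y + t) / 4 ^ h) + 4 * 4 ^ i / 4 ^ m))) * Cs (m - h) y := by
        rw [Finset.sum_mul]
    _ ≤ (Real.exp 3 * 2 ^ h) * Cs (m - h) y :=
        mul_le_mul_of_nonneg_right (hk2.trans hprod) hcs0
    _ ≤ Real.exp 3 * 2 ^ h * Cs (m - g) y :=
        mul_le_mul_of_nonneg_left hmono (by positivity)

/-- the reduced fractions with denominator `r` -/
private noncomputable def Gr (m r : ℕ) : ℝ :=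
  ∑ b ∈ (range r).filter (fun b => Nat.Coprime b r), Cs m ((b : ℝ) / (r : ℝ))

private lemma Gr_le (m g u d : ℕ) (hd : Odd d) (hd3 : 3 ≤ d) (hu : (u + 1) / 2 ≤ g) (hg : g ≤ m) :
    Gr m (2 ^ u * d) ≤ Real.exp 3 * 2 ^ ((u + 1) / 2) * Gr (m - g) d := by
  set h := (u + 1) / 2 with hh
  have h2h : u ≤ 2 * h := by omega
  set P : ℕ := 2 ^ (2 * h - u) with hP
  have hP0 : 0 < P := by positivity
  have hPu : P * 2 ^ u = 4 ^ h := by
    rw [hP, ← pow_add, show 2 * h - u + u = 2 * h by omega, pow_mul]; norm_num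
  have hdpos : 0 < d := by omega
  have hright : Real.exp 3 * 2 ^ h * Gr (m - g) d =
      ∑ b ∈ (range d).filter (fun b => Nat.Coprime b d),
        Real.exp 3 * 2 ^ h * Cs (m - g) ((b : ℝ) / (d : ℝ)) := by
    unfold Gr; rw [Finset.mul_sum]
  rw [hright]
  have hstep : ∑ b ∈ (range d).filter (fun b => Nat.Coprime b d),
      ∑ t ∈ range (4 ^ h), Cs m (((b : ℝ) / (d : ℝ) + t) / 4 ^ h) ≤
      ∑ b ∈ (range d).filter (fun b => Nat.Coprime b d),
        Real.exp 3 * 2 ^ h * Cs (m - g) ((b : ℝ) / (d : ℝ)) :=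
    Finset.sum_le_sum (fun b _ => sum_t m h g hu hg _)
  refine le_trans ?_ hstep
  rw [← Finset.sum_product']
  unfold Gr
  set e : ℕ → ℕ × ℕ := fun b => ((P * b) % d, (P * b) / d) with he
  have hinj : Set.InjOn e ((range (2 ^ u * d)).filter (fun b => Nat.Coprime b (2 ^ u * d)) : Finset ℕ) := by
    intro x _ y _ hxy
    simp only [he, Prod.mk.injEq] at hxy
    have hx := Nat.mod_add_div (P * x) d
    have hy := Nat.mod_add_div (P * y) d
    rw [hxy.1, hxy.2] at hx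
    have : P * x = P * y := by rw [← hx, hy]
    exact Nat.eq_of_mul_eq_mul_left hP0 this
  have hterm : ∀ b ∈ (range (2 ^ u * d)).filter (fun b => Nat.Coprime b (2 ^ u * d)),
      Cs m ((b : ℝ) / ((2 ^ u * d : ℕ) : ℝ)) =
        Cs m ((((e b).1 : ℝ) / (d : ℝ) + ((e b).2 : ℝ)) / 4 ^ h) := by
    intro b _
    congr 1
    have hm := Nat.mod_add_div (P * b) d
    have hmR : (((P * b) % d : ℕ) : ℝ) + (d : ℝ) * (((P * b) / d : ℕ) : ℝ) = (P : ℝ) * b := by
      exact_mod_cast hm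
    have hPuR : (P : ℝ) * 2 ^ u = 4 ^ h := by exact_mod_cast hPu
    have hdR : (d : ℝ) ≠ 0 := by positivity
    have h1 : (((P * b) % d : ℕ) : ℝ) / (d : ℝ) + (((P * b) / d : ℕ) : ℝ) = (P : ℝ) * b / d := by
      rw [← hmR]; field_simp
    simp only [he]
    rw [h1, ← hPuR]
    push_cast
    have hPR : (P : ℝ) ≠ 0 := by positivity
    field_simp
  rw [Finset.sum_congr rfl hterm]
  rw [← Finset.sum_image (f := fun x : ℕ × ℕ => Cs m (((x.1 : ℝ) / (d : ℝ) + (x.2 : ℝ)) / 4 ^ h)) hinj]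
  apply Finset.sum_le_sum_of_subset_of_nonneg
  · intro x hx
    rw [Finset.mem_image] at hx
    obtain ⟨b, hb, rfl⟩ := hx
    rw [mem_filter, mem_range] at hb
    rw [mem_product, mem_filter, mem_range, mem_range]
    refine ⟨⟨Nat.mod_lt _ hdpos, ?_⟩, ?_⟩
    · have c1 : Nat.Coprime b d := Nat.Coprime.coprime_dvd_right (Dvd.intro_left _ rfl) hb.2
      have c2 : Nat.Coprime P d := by
        rw [hP]
        exact Nat.Coprime.pow_left _ (Nat.coprime_two_left.2 hd)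
      have c3 : Nat.Coprime (P * b) d := Nat.Coprime.mul_left c2 c1
      simp only [he]
      rw [Nat.Coprime, ← Nat.gcd_rec, Nat.gcd_comm]
      exact c3
    · simp only [he]
      rw [Nat.div_lt_iff_lt_mul hdpos, ← hPu, mul_assoc]
      exact Nat.mul_lt_mul_of_pos_left hb.1 hP0
  · intro x _ _
    exact (C1.1 m _).1

private lemma mem_Fd (i : ℕ) (p : ℤ × ℕ) : p ∈ Fd i ↔
    ((-(2 * 4 ^ (i + 1)) ≤ p.1 ∧ p.1 ≤ 2 * 4 ^ (i + 1)) ∧ 4 ^ i ≤ p.2 ∧ p.2 < 4 ^ (i + 1)) ∧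
    IsCoprime p.1 (p.2 : ℤ) ∧ ¬ Dy p ∧ |(p.1 : ℝ) / (p.2 : ℝ)| ≤ 2 := by
  unfold Fd
  simp only [Finset.mem_filter, Finset.mem_product, Finset.mem_Icc, Finset.mem_Ico]

/-- the summands with a given denominator -/
private lemma fiber_le (m i r : ℕ) (hr : 0 < r) :
    ∑ p ∈ (Fd i).filter (fun p => p.2 = r), Cs m ((p.1 : ℝ) / (p.2 : ℝ)) ≤ 5 * Gr m r := by
  have hrR : (0 : ℝ) < r := by positivity
  have hrZ : (0 : ℤ) < r := by exact_mod_cast hr
  have hright : (5 : ℝ) * Gr m r = ∑ q ∈ Icc (-2 : ℤ) 2,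
      ∑ b ∈ (range r).filter (fun b => Nat.Coprime b r), Cs m ((b : ℝ) / (r : ℝ)) := by
    rw [Finset.sum_const]
    have : (Icc (-2 : ℤ) 2).card = 5 := by decide
    rw [this]
    unfold Gr
    simp
  rw [hright, ← Finset.sum_product']
  set e : ℤ × ℕ → ℤ × ℕ := fun p => (p.1 / (r : ℤ), (p.1 % (r : ℤ)).toNat) with he
  have hmod : ∀ b : ℤ, ((b % (r : ℤ)).toNat : ℤ) = b % (r : ℤ) := by
    intro b
    exact Int.toNat_of_nonneg (Int.emod_nonneg _ hrZ.ne')
  have hinj : Set.InjOn e ((Fd i).filter (fun p => p.2 = r) : Finset (ℤ × ℕ)) := by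
    intro x hx y hy hxy
    rw [Finset.mem_coe, mem_filter] at hx hy
    simp only [he, Prod.mk.injEq] at hxy
    have e1 : x.1 % (r : ℤ) = y.1 % (r : ℤ) := by
      have := congrArg (fun n : ℕ => (n : ℤ)) hxy.2
      simp only [hmod] at this
      exact this
    have hx1 := Int.emod_add_mul_ediv x.1 (r : ℤ)
    have hy1 := Int.emod_add_mul_ediv y.1 (r : ℤ)
    rw [e1, hxy.1] at hx1
    ext
    · rw [← hx1, hy1]
    · rw [hx.2, hy.2]
  have hterm : ∀ p ∈ (Fd i).filter (fun p => p.2 = r),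
      Cs m ((p.1 : ℝ) / (p.2 : ℝ)) = Cs m (((e p).2 : ℝ) / (r : ℝ)) := by
    intro p hp
    rw [mem_filter] at hp
    rw [hp.2]
    have h1 := Int.emod_add_mul_ediv p.1 (r : ℤ)
    have h2 : (p.1 : ℝ) = (((p.1 % (r : ℤ)).toNat : ℕ) : ℝ) + (r : ℝ) * ((p.1 / (r : ℤ) : ℤ) : ℝ) := by
      have h3 : (p.1 : ℤ) = (((p.1 % (r : ℤ)).toNat : ℕ) : ℤ) + (r : ℤ) * (p.1 / (r : ℤ)) := by
        rw [hmod]; exact h1.symm
      exact_mod_cast h3
    have h4 : (p.1 : ℝ) / (r : ℝ) = (((p.1 % (r : ℤ)).toNat : ℕ) : ℝ) / (r : ℝ) +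
        ((p.1 / (r : ℤ) : ℤ) : ℝ) := by
      rw [h2]; field_simp
    rw [h4, C1.2.1]
  rw [Finset.sum_congr rfl hterm]
  rw [← Finset.sum_image (f := fun x : ℤ × ℕ => Cs m ((x.2 : ℝ) / (r : ℝ))) hinj]
  apply Finset.sum_le_sum_of_subset_of_nonneg
  · intro x hx
    rw [Finset.mem_image] at hx
    obtain ⟨p, hp, rfl⟩ := hx
    rw [mem_filter] at hp
    obtain ⟨hp1, hp2⟩ := hp
    rw [mem_Fd] at hp1
    rw [mem_product, mem_filter, mem_range, mem_Icc]
    simp only [he]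
    have hab := abs_le.1 hp1.2.2.2
    rw [hp2] at hab
    have hlo : -(2 * (r : ℤ)) ≤ p.1 := by
      have := hab.1
      rw [le_div_iff₀ hrR] at this
      have h5 : (-(2 * (r : ℤ)) : ℝ) ≤ (p.1 : ℝ) := by push_cast; linarith
      exact_mod_cast h5
    have hhi : p.1 ≤ 2 * (r : ℤ) := by
      have := hab.2
      rw [div_le_iff₀ hrR] at this
      exact_mod_cast this
    refine ⟨⟨?_, ?_⟩, ?_, ?_⟩
    · rw [Int.le_ediv_iff_mul_le hrZ]; linarith
    · have : p.1 / (r : ℤ) < 3 := by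
        rw [Int.ediv_lt_iff_lt_mul hrZ]; linarith
      omega
    · have := Int.emod_lt_of_pos p.1 hrZ
      have h6 := hmod p.1
      omega
    · have hc : IsCoprime p.1 (r : ℤ) := by rw [← hp2]; exact hp1.2.1
      have h1 := Int.emod_add_mul_ediv p.1 (r : ℤ)
      rw [← h1, IsCoprime.add_mul_left_left_iff, ← hmod, Nat.isCoprime_iff_coprime] at hc
      exact hc
  · intro x _ _
    exact (C1.1 m _).1

private lemma FS_eq (s m : ℕ) : FS s m =
    ∑ d ∈ (Ioc (4 ^ (s - 1)) (4 ^ s)).filter (fun d => Odd d ∧ 3 ≤ d), Gr m d := rfl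

private lemma Gr_nonneg (m r : ℕ) : 0 ≤ Gr m r :=
  Finset.sum_nonneg (fun _ _ => (C1.1 m _).1)

theorem K3 : ∃ C : ℝ, 0 < C ∧ ∀ g m : ℕ, g ≤ m →
    ∑ i ∈ range g, (qq / 2) ^ i * ∑ p ∈ Fd i, Cs m ((p.1 : ℝ) / (p.2 : ℝ)) ≤
      C * ∑ s ∈ Icc 1 g, (qq / 2) ^ s * FS s (m - g) := by
  have hq0 : (0 : ℝ) < qq := by unfold qq; norm_num
  have hq1 : qq < 1 := by unfold qq; norm_num
  have hq1' : 0 < 1 - qq := by linarith
  refine ⟨25 * Real.exp 3 * (2 * (1 / (1 - qq))), by positivity, ?_⟩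
  intro g m hgm
  classical
  set R : ℕ → Finset ℕ := fun i => (Ico (4 ^ i) (4 ^ (i + 1))).filter (fun r => ¬ ∃ u : ℕ, r = 2 ^ u)
    with hR
  have hRpos : ∀ i, ∀ r ∈ R i, 0 < r := by
    intro i r hr
    rw [hR, mem_filter, mem_Ico] at hr
    have : 0 < 4 ^ i := by positivity
    omega
  have h1 : ∀ i, ∑ p ∈ Fd i, Cs m ((p.1 : ℝ) / (p.2 : ℝ)) ≤ ∑ r ∈ R i, 5 * Gr m r := by
    intro i
    have hmaps : ∀ p ∈ Fd i, p.2 ∈ R i := by
      intro p hp
      rw [mem_Fd] at hp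
      rw [hR, mem_filter, mem_Ico]
      exact ⟨hp.1.2, hp.2.2.1⟩
    rw [← Finset.sum_fiberwise_of_maps_to hmaps]
    exact Finset.sum_le_sum (fun r hr => fiber_le m i r (hRpos i r hr))
  set w : ℕ → ℝ := fun d => (qq / 2) ^ (Nat.clog 4 d) * Gr (m - g) d with hw
  have hw0 : ∀ d, 0 ≤ w d := fun d => mul_nonneg (by positivity) (Gr_nonneg _ _)
  -- decomposition of a denominator
  have hdec : ∀ i, ∀ r ∈ R i, ∃ u d : ℕ, u = r.factorization 2 ∧ d = r / 2 ^ (r.factorization 2) ∧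
      2 ^ u * d = r ∧ Odd d ∧ 3 ≤ d := by
    intro i r hr
    have hr0 := hRpos i r hr
    refine ⟨_, _, rfl, rfl, Nat.ordProj_mul_ordCompl_eq_self r 2, ?_, ?_⟩
    · have := Nat.coprime_ordCompl Nat.prime_two hr0.ne'
      exact Nat.coprime_two_left.1 this
    · have hodd : Odd (r / 2 ^ (r.factorization 2)) :=
        Nat.coprime_two_left.1 (Nat.coprime_ordCompl Nat.prime_two hr0.ne')
      have hne : r / 2 ^ (r.factorization 2) ≠ 1 := by
        intro h1
        rw [hR, mem_filter] at hr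
        apply hr.2
        refine ⟨r.factorization 2, ?_⟩
        have := Nat.ordProj_mul_ordCompl_eq_self r 2
        rw [h1, mul_one] at this
        exact this.symm
      obtain ⟨t, ht⟩ := hodd
      omega
  have h2 : ∀ i ∈ range g, ∀ r ∈ R i, (qq / 2) ^ i * (5 * Gr m r) ≤
      25 * Real.exp 3 * (qq ^ ((r.factorization 2 + 1) / 2) * w (r / 2 ^ (r.factorization 2))) := by
    intro i hi r hr
    obtain ⟨u, d, hu, hd, hud, hodd, hd3⟩ := hdec i r hr
    rw [← hu, show r / 2 ^ u = d by rw [hu, hd]]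
    rw [mem_range] at hi
    rw [hR, mem_filter, mem_Ico] at hr
    set h := (u + 1) / 2 with hh
    set s := Nat.clog 4 d with hs
    have hug : u < 2 * g := by
      by_contra hcon
      rw [not_lt] at hcon
      have a1 : 2 ^ (2 * g) ≤ 2 ^ u := Nat.pow_le_pow_right (by norm_num) hcon
      have a2 : 4 ^ (i + 1) ≤ 4 ^ g := Nat.pow_le_pow_right (by norm_num) (by omega)
      have a3 : 2 ^ (2 * g) = 4 ^ g := by rw [pow_mul]; norm_num
      have a4 : 2 ^ u * 1 ≤ 2 ^ u * d := Nat.mul_le_mul_left _ (by omega)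
      omega
    have hgr := Gr_le m g u d hodd hd3 (by omega) hgm
    rw [hud] at hgr
    have hhs : h + s ≤ i + 2 := by
      have b1 : 4 ^ (s - 1) < d := by
        have := Nat.pow_pred_clog_lt_self (b := 4) (by norm_num) (x := d) (by omega)
        exact this
      have hs1 : 1 ≤ s := by
        rw [hs]; exact Nat.clog_pos (by norm_num) (by omega)
      have b2 : 4 ^ h ≤ 2 * 2 ^ u := by
        have : 4 ^ h = 2 ^ (2 * h) := by rw [pow_mul]; norm_num
        rw [this, ← pow_succ']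
        exact Nat.pow_le_pow_right (by norm_num) (by omega)
      have b3 : 4 ^ (h + (s - 1)) < 4 ^ (i + 2) := by
        calc 4 ^ (h + (s - 1)) = 4 ^ h * 4 ^ (s - 1) := pow_add _ _ _
          _ ≤ (2 * 2 ^ u) * 4 ^ (s - 1) := Nat.mul_le_mul_right _ b2
          _ ≤ (2 * 2 ^ u) * d := Nat.mul_le_mul_left _ b1.le
          _ = 2 * r := by rw [← hud]; ring
          _ < 4 ^ (i + 2) := by
            have : 4 ^ (i + 2) = 4 * 4 ^ (i + 1) := by ring
            omega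
      have b4 := (Nat.pow_lt_pow_iff_right (by norm_num : 1 < 4)).1 b3
      omega
    have hqpow : (qq / 2) ^ i ≤ 5 * (qq / 2) ^ (h + s) := by
      have c1 : (qq / 2) ^ (i + 2) ≤ (qq / 2) ^ (h + s) :=
        pow_le_pow_of_le_one (by positivity) (by linarith) hhs
      have c2 : (qq / 2) ^ (i + 2) = (qq / 2) ^ i * (qq / 2) ^ 2 := pow_add _ _ _
      have c3 : 1 ≤ 5 * (qq / 2) ^ 2 := by unfold qq; norm_num
      have c4 : 0 ≤ (qq / 2) ^ i := by positivity
      calc (qq / 2) ^ i = (qq / 2) ^ i * 1 := by ring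
        _ ≤ (qq / 2) ^ i * (5 * (qq / 2) ^ 2) := mul_le_mul_of_nonneg_left c3 c4
        _ = 5 * ((qq / 2) ^ i * (qq / 2) ^ 2) := by ring
        _ ≤ 5 * (qq / 2) ^ (h + s) := by rw [← c2]; linarith
    have hG0 := Gr_nonneg (m - g) d
    calc (qq / 2) ^ i * (5 * Gr m r)
        ≤ (5 * (qq / 2) ^ (h + s)) * (5 * (Real.exp 3 * 2 ^ h * Gr (m - g) d)) := by
          apply mul_le_mul hqpow
          · linarith
          · have := Gr_nonneg m r
            positivity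
          · positivity
      _ = 25 * Real.exp 3 * (((qq / 2) ^ h * 2 ^ h) * ((qq / 2) ^ s * Gr (m - g) d)) := by
          rw [pow_add]; ring
      _ = 25 * Real.exp 3 * (qq ^ h * ((qq / 2) ^ s * Gr (m - g) d)) := by
          rw [← mul_pow, div_mul_cancel₀ _ (two_ne_zero)]
  set D : Finset ℕ := (Icc 3 (4 ^ g)).filter (fun d => Odd d) with hD
  -- injection
  have h3 : ∑ i ∈ range g, ∑ r ∈ R i,
      (qq ^ ((r.factorization 2 + 1) / 2) * w (r / 2 ^ (r.factorization 2))) ≤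
      ∑ x ∈ (range (2 * g)) ×ˢ D, qq ^ ((x.1 + 1) / 2) * w x.2 := by
    rw [Finset.sum_sigma']
    set φ : (Σ _ : ℕ, ℕ) → ℕ × ℕ := fun x => (x.2.factorization 2, x.2 / 2 ^ (x.2.factorization 2))
      with hφ
    have hinj : Set.InjOn φ ((range g).sigma R : Finset (Σ _ : ℕ, ℕ)) := by
      intro x hx y hy hxy
      rw [Finset.mem_coe, Finset.mem_sigma] at hx hy
      simp only [hφ, Prod.mk.injEq] at hxy
      have e1 := Nat.ordProj_mul_ordCompl_eq_self x.2 2
      have e2 := Nat.ordProj_mul_ordCompl_eq_self y.2 2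
      have e3 : x.2 = y.2 := by
        rw [← e1, ← e2, hxy.2, hxy.1]
      have hx2 := hx.2
      have hy2 := hy.2
      rw [hR, mem_filter, mem_Ico] at hx2 hy2
      have e4 : x.1 = y.1 := by
        have l1 : Nat.log 4 x.2 = x.1 := Nat.log_eq_of_pow_le_of_lt_pow hx2.1.1 hx2.1.2
        have l2 : Nat.log 4 y.2 = y.1 := Nat.log_eq_of_pow_le_of_lt_pow hy2.1.1 hy2.1.2
        rw [← l1, ← l2, e3]
      exact Sigma.ext e4 (heq_of_eq e3)
    have := Finset.sum_image (s := (range g).sigma R)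
      (f := fun x : ℕ × ℕ => qq ^ ((x.1 + 1) / 2) * w x.2) hinj
    simp only [hφ] at this
    rw [← this]
    apply Finset.sum_le_sum_of_subset_of_nonneg
    · intro x hx
      rw [Finset.mem_image] at hx
      obtain ⟨y, hy, rfl⟩ := hx
      rw [Finset.mem_sigma, mem_range] at hy
      obtain ⟨u, d, hu, hd, hud, hodd, hd3⟩ := hdec y.1 y.2 hy.2
      have hy2 := hy.2
      rw [hR, mem_filter, mem_Ico] at hy2
      rw [← hu, show y.2 / 2 ^ u = d by rw [hu, hd]]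
      have a2 : 4 ^ (y.1 + 1) ≤ 4 ^ g := Nat.pow_le_pow_right (by norm_num) (by omega)
      rw [mem_product, mem_range, hD, mem_filter, mem_Icc]
      have hu0 : 0 < 2 ^ u := by positivity
      refine ⟨?_, ⟨hd3, ?_⟩, hodd⟩
      · by_contra hcon
        rw [not_lt] at hcon
        have a1 : 2 ^ (2 * g) ≤ 2 ^ u := Nat.pow_le_pow_right (by norm_num) hcon
        have a3 : 2 ^ (2 * g) = 4 ^ g := by rw [pow_mul]; norm_num
        have a4 : 2 ^ u * 1 ≤ 2 ^ u * d := Nat.mul_le_mul_left _ (by omega)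
        omega
      · have a5 : 1 * d ≤ 2 ^ u * d := Nat.mul_le_mul_right _ hu0
        omega
    · intro x _ _
      exact mul_nonneg (by positivity) (hw0 _)
  have h4 : ∑ x ∈ (range (2 * g)) ×ˢ D, qq ^ ((x.1 + 1) / 2) * w x.2 =
      (∑ u ∈ range (2 * g), qq ^ ((u + 1) / 2)) * ∑ d ∈ D, w d := by
    rw [Finset.sum_mul_sum, Finset.sum_product]
  have h5 : ∑ d ∈ D, w d ≤ ∑ s ∈ Icc 1 g, (qq / 2) ^ s * FS s (m - g) := by
    have hmaps : ∀ d ∈ D, Nat.clog 4 d ∈ Icc 1 g := by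
      intro d hd
      rw [hD, mem_filter, mem_Icc] at hd
      rw [mem_Icc]
      exact ⟨Nat.clog_pos (by norm_num) (by omega), Nat.clog_le_of_le_pow hd.1.2⟩
    rw [← Finset.sum_fiberwise_of_maps_to hmaps]
    apply Finset.sum_le_sum
    intro s _
    have e : ∑ d ∈ D with Nat.clog 4 d = s, w d =
        (qq / 2) ^ s * ∑ d ∈ D with Nat.clog 4 d = s, Gr (m - g) d := by
      rw [Finset.mul_sum]
      apply Finset.sum_congr rfl
      intro d hd
      rw [mem_filter] at hd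
      simp only [hw]
      rw [hd.2]
    rw [e, FS_eq]
    apply mul_le_mul_of_nonneg_left _ (by positivity)
    apply Finset.sum_le_sum_of_subset_of_nonneg
    · intro d hd
      rw [mem_filter, hD, mem_filter, mem_Icc] at hd
      rw [mem_filter, mem_Ioc]
      refine ⟨⟨?_, ?_⟩, hd.1.2, hd.1.1.1⟩
      · rw [← hd.2]
        exact Nat.pow_pred_clog_lt_self (by norm_num) (by omega)
      · rw [← hd.2]
        exact Nat.le_pow_clog (by norm_num) d
    · intro d _ _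
      exact Gr_nonneg _ _
  have hD0 : 0 ≤ ∑ d ∈ D, w d := Finset.sum_nonneg (fun d _ => hw0 d)
  calc ∑ i ∈ range g, (qq / 2) ^ i * ∑ p ∈ Fd i, Cs m ((p.1 : ℝ) / (p.2 : ℝ))
      ≤ ∑ i ∈ range g, (qq / 2) ^ i * ∑ r ∈ R i, 5 * Gr m r := by
        apply Finset.sum_le_sum
        intro i _
        exact mul_le_mul_of_nonneg_left (h1 i) (by positivity)
    _ = ∑ i ∈ range g, ∑ r ∈ R i, (qq / 2) ^ i * (5 * Gr m r) := by
        apply Finset.sum_congr rfl
        intro i _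
        rw [Finset.mul_sum]
    _ ≤ ∑ i ∈ range g, ∑ r ∈ R i, 25 * Real.exp 3 *
          (qq ^ ((r.factorization 2 + 1) / 2) * w (r / 2 ^ (r.factorization 2))) := by
        apply Finset.sum_le_sum
        intro i hi
        exact Finset.sum_le_sum (fun r hr => h2 i hi r hr)
    _ = 25 * Real.exp 3 * ∑ i ∈ range g, ∑ r ∈ R i,
          (qq ^ ((r.factorization 2 + 1) / 2) * w (r / 2 ^ (r.factorization 2))) := by
        rw [Finset.mul_sum]
        apply Finset.sum_congr rfl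
        intro i _
        rw [Finset.mul_sum]
    _ ≤ 25 * Real.exp 3 * ((∑ u ∈ range (2 * g), qq ^ ((u + 1) / 2)) * ∑ d ∈ D, w d) := by
        apply mul_le_mul_of_nonneg_left _ (by positivity)
        rw [← h4]; exact h3
    _ ≤ 25 * Real.exp 3 * ((2 * (1 / (1 - qq))) * ∑ s ∈ Icc 1 g, (qq / 2) ^ s * FS s (m - g)) := by
        apply mul_le_mul_of_nonneg_left _ (by positivity)
        apply mul_le_mul (pairsK3 qq hq0.le hq1 g) h5 hD0
        positivity
    _ = 25 * Real.exp 3 * (2 * (1 / (1 - qq))) * ∑ s ∈ Icc 1 g, (qq / 2) ^ s * FS s (m - g) := by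
        ring

end Pool.Agent.C52.RK3
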