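import Pool.Agent.Lib.MP_c52340_c5.DefsS
import Pool.Agent.Lib.MP_c52340_c5.B13
import Pool.Agent.Lib.MP_c52340_c5.T5
import Pool.Agent.Lib.MP_c52340_c5.P1


set_option autoImplicit false

open Finset

open Pool.Agent.C52.RB13 (B13)
open Pool.Agent.C52.RT5 (T5)
open Pool.Agent.C52.RP1 (P1)

namespace Pool.Agent.C52.RK4

private theorem K4_sum (n : ℕ) (S : Finset ℝ) (h0 : ∀ x ∈ S, 0 ≤ x ∧ x < 1)
    (hs : ∀ x ∈ S, ∀ y ∈ S, x ≠ y → 1 / (4 : ℝ) ^ n ≤ |x - y|)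
    (F : ℝ → ℝ) (G : ℕ → ℝ) (hG : ∀ c, 0 ≤ G c)
    (hF : ∀ (c : ℕ) (x : ℝ), (c : ℝ) / 4 ^ n ≤ x → x ≤ ((c : ℝ) + 1) / 4 ^ n → F x ≤ G c) :
    ∑ x ∈ S, F x ≤ ∑ c ∈ range (4 ^ n), G c := by
  have h4 : (0 : ℝ) < 4 ^ n := by positivity
  have hcell : ∀ x ∈ S, ((⌊4 ^ n * x⌋₊ : ℕ) : ℝ) ≤ 4 ^ n * x ∧
      4 ^ n * x < ((⌊4 ^ n * x⌋₊ : ℕ) : ℝ) + 1 := by
    intro x hx
    exact ⟨Nat.floor_le (mul_nonneg h4.le (h0 x hx).1), Nat.lt_floor_add_one _⟩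
  have hinj : Set.InjOn (fun x : ℝ => ⌊4 ^ n * x⌋₊) (S : Set ℝ) := by
    intro x hx y hy hxy
    have hxy' : ⌊4 ^ n * x⌋₊ = ⌊4 ^ n * y⌋₊ := hxy
    by_contra hne
    have h1 := hs x hx y hy hne
    have hcx := hcell x hx
    have hcy := hcell y hy
    rw [hxy'] at hcx
    have h2 : |4 ^ n * x - 4 ^ n * y| < 1 := by
      rw [abs_lt]; constructor <;> linarith [hcx.1, hcx.2, hcy.1, hcy.2]
    have h3 : |4 ^ n * x - 4 ^ n * y| = 4 ^ n * |x - y| := by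
      rw [← mul_sub, abs_mul, abs_of_pos h4]
    rw [h3] at h2
    rw [div_le_iff₀ h4] at h1
    linarith [mul_comm (4 ^ n : ℝ) |x - y|]
  calc ∑ x ∈ S, F x ≤ ∑ x ∈ S, G ⌊4 ^ n * x⌋₊ := by
        apply Finset.sum_le_sum
        intro x hx
        have hc := hcell x hx
        apply hF
        · rw [div_le_iff₀ h4]; linarith [hc.1, mul_comm (4 ^ n : ℝ) x]
        · rw [le_div_iff₀ h4]; linarith [hc.2, mul_comm (4 ^ n : ℝ) x]
    _ = ∑ c ∈ S.image (fun x : ℝ => ⌊4 ^ n * x⌋₊), G c := by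
        rw [Finset.sum_image hinj]
    _ ≤ ∑ c ∈ range (4 ^ n), G c := by
        apply Finset.sum_le_sum_of_subset_of_nonneg
        · intro c hc
          rw [Finset.mem_image] at hc
          obtain ⟨x, hx, rfl⟩ := hc
          rw [Finset.mem_range]
          have hc := hcell x hx
          have h5 : ((⌊4 ^ n * x⌋₊ : ℕ) : ℝ) < ((4 ^ n : ℕ) : ℝ) := by
            push_cast
            have := (h0 x hx).2
            nlinarith [hc.1]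
          exact_mod_cast h5
        · intro c _ _
          exact hG c

private theorem K4_geom (l : ℕ) : ∑ i ∈ range l, (4 : ℝ) ^ i ≤ 4 ^ l := by
  induction l with
  | zero => simp
  | succ l ih =>
    rw [sum_range_succ, pow_succ]
    have : (0 : ℝ) < 4 ^ l := by positivity
    linarith

private theorem K4_peel (g : ℝ → ℝ) (a b : ℝ) (hg : ∀ x, 0 ≤ g x) (hper : ∀ x, g (x + 1) = g x)
    (ha : 1 ≤ a) (hb : 0 ≤ b) (hA : ∀ x, ∑ j ∈ range 4, g ((x + j) / 4) ≤ a) (n : ℕ) :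
    ∑ c ∈ range (4 ^ n), ∏ i ∈ range n, (g (4 ^ i * c / 4 ^ n) + b * 4 ^ i / 4 ^ n) ≤
      Real.exp (4 * b) * a ^ n := by
  have h := P1 (fun i x => g x + b * 4 ^ i / 4 ^ n) (fun i => a + 4 * (b * 4 ^ i / 4 ^ n))
    (fun i x => add_nonneg (hg x) (by positivity)) (fun i x => by rw [hper x])
    (fun i x => by
      rw [sum_add_distrib, sum_const, card_range, nsmul_eq_mul]
      have := hA x
      push_cast
      linarith) n
  refine h.trans ?_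
  have hstep : ∀ i ∈ range n, a + 4 * (b * 4 ^ i / 4 ^ n) ≤ a * Real.exp (4 * b * (4 ^ i / 4 ^ n)) := by
    intro i _
    have h1 := Real.add_one_le_exp (4 * b * (4 ^ i / 4 ^ n))
    have h2 : (0 : ℝ) ≤ 4 * b * (4 ^ i / 4 ^ n) := by positivity
    have h3 : 4 * (b * 4 ^ i / 4 ^ n) = 4 * b * (4 ^ i / 4 ^ n) := by ring
    rw [h3]
    nlinarith [mul_le_mul_of_nonneg_left h1 (by linarith : (0 : ℝ) ≤ a),
      mul_le_mul_of_nonneg_right ha h2]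
  have hnn : ∀ i ∈ range n, 0 ≤ a + 4 * (b * 4 ^ i / 4 ^ n) := by
    intro i _
    have : (0 : ℝ) ≤ b * 4 ^ i / 4 ^ n := by positivity
    linarith
  refine (prod_le_prod hnn hstep).trans ?_
  rw [prod_mul_distrib, prod_const, card_range, ← Real.exp_sum, ← mul_sum, ← sum_div]
  have h10 : (∑ i ∈ range n, (4 : ℝ) ^ i) / 4 ^ n ≤ 1 := by
    rw [div_le_one (by positivity)]
    exact K4_geom n
  have h11 : Real.exp (4 * b * ((∑ i ∈ range n, (4 : ℝ) ^ i) / 4 ^ n)) ≤ Real.exp (4 * b) :=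
    Real.exp_le_exp.2 (mul_le_of_le_one_right (by positivity) h10)
  rw [mul_comm]
  exact mul_le_mul_of_nonneg_right h11 (pow_nonneg (by linarith) n)

private theorem K4_pow (u v δ : ℝ) (hu0 : 0 ≤ u) (hu1 : u ≤ 1) (hv0 : 0 ≤ v) (hv1 : v ≤ 1)
    (hδ : 0 ≤ δ) (h : u ≤ v + δ) (m : ℕ) : u ^ m ≤ v ^ m + m * δ := by
  induction m with
  | zero => simp
  | succ m ih =>
    have hvm : 0 ≤ v ^ m := pow_nonneg hv0 m
    have hvm1 : v ^ m ≤ 1 := pow_le_one₀ hv0 hv1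
    have hmδ : 0 ≤ (m : ℝ) * δ := mul_nonneg (Nat.cast_nonneg _) hδ
    have h1 : u ^ (m + 1) ≤ u * (v ^ m + m * δ) := by
      rw [pow_succ, mul_comm]
      exact mul_le_mul_of_nonneg_left ih hu0
    have h2 : u * (m * δ) ≤ m * δ := mul_le_of_le_one_left hmδ hu1
    have h3 : u * v ^ m ≤ (v + δ) * v ^ m := mul_le_mul_of_nonneg_right h hvm
    have h4 : δ * v ^ m ≤ δ := mul_le_of_le_one_right hδ hvm1
    push_cast
    have e : v ^ (m + 1) = v * v ^ m := by rw [pow_succ, mul_comm]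
    rw [e]
    nlinarith

/-- Row K4.  Power sums over separated points, with a small perturbation `κ`.
Recipe: as A4/P4 with `t = 30`: on a cell `[c/4^n, (c+1)/4^n)` `(min 1 (gf + κ))^30 ≤ gf (1/4) (4^l c/4^n)^30 + 31 κ + 150 * 4^l/4^n`-type bound; by T5 the sum over four
preimages is at most `1 + 3 (7/8)^30 + 124 κ + 600 * 4^l/4^n ≤ 1.055 + 600 * 4^l/4^n` (`3 (7/8)^30 ≤ 0.0547`); P1; `∏ (1 + 600 * 4^(l-n)) ≤ exp 200`. -/
theorem K4 : ∃ C : ℝ, 0 < C ∧ ∀ (n : ℕ) (κ : ℝ) (S : Finset ℝ), 0 ≤ κ → κ ≤ 1 / 10 ^ 6 →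
    (∀ x ∈ S, 0 ≤ x ∧ x < 1) → (∀ x ∈ S, ∀ y ∈ S, x ≠ y → 1 / (4 : ℝ) ^ n ≤ |x - y|) →
    ∑ x ∈ S, (∏ l ∈ range n, min 1 (gf (1 / 4) (4 ^ l * x) + κ)) ^ 30 ≤ C * (1.06 : ℝ) ^ n := by
  obtain ⟨hB1, -, hB3, hB4, hB5, -⟩ := B13
  have h0 : ∀ x : ℝ, 0 ≤ gf (1 / 4) x := fun x => hB4 (1 / 4) x (by norm_num) (by norm_num)
  have h1 : ∀ x : ℝ, gf (1 / 4) x ≤ 1 := fun x =>
    (le_abs_self _).trans (hB3 (1 / 4) x (by norm_num) (by norm_num))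
  have hp : ∀ x : ℝ, gf (1 / 4) (x + 1) = gf (1 / 4) x := fun x => by
    have := hB1 (1 / 4) x 1
    rwa [Int.cast_one] at this
  refine ⟨Real.exp (4 * 150), Real.exp_pos _, ?_⟩
  intro n κ S hκ0 hκ1 hS hsep
  have hP : (0 : ℝ) < 4 ^ n := by positivity
  have hpeel := K4_peel (fun x => gf (1 / 4) x ^ 30 + 30 * κ) 1.06 150
    (fun x => add_nonneg (pow_nonneg (h0 x) 30) (by positivity))
    (fun x => by rw [hp]) (by norm_num) (by norm_num)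
    (fun x => by
      rw [sum_add_distrib, sum_const, card_range, nsmul_eq_mul]
      have h5 := (T5 x 30 (by norm_num)).1
      have h6 : 1 + 3 * (7 / 8 : ℝ) ^ 30 ≤ 1.055 := by norm_num
      have h7 : ((4 : ℕ) : ℝ) * (30 * κ) ≤ 0.005 := by
        push_cast
        linarith
      linarith) n
  refine (K4_sum n S hS hsep
    (fun x => (∏ l ∈ range n, min 1 (gf (1 / 4) (4 ^ l * x) + κ)) ^ 30)
    (fun c => ∏ i ∈ range n, (gf (1 / 4) (4 ^ i * (c : ℝ) / 4 ^ n) ^ 30 + 30 * κ + 150 * 4 ^ i / 4 ^ n))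
    ?_ ?_).trans hpeel
  · intro c
    refine prod_nonneg fun i _ => ?_
    have := pow_nonneg (h0 (4 ^ i * (c : ℝ) / 4 ^ n)) 30
    positivity
  · intro c x hc1 hc2
    show (∏ l ∈ range n, min 1 (gf (1 / 4) (4 ^ l * x) + κ)) ^ 30 ≤
      ∏ i ∈ range n, (gf (1 / 4) (4 ^ i * (c : ℝ) / 4 ^ n) ^ 30 + 30 * κ + 150 * 4 ^ i / 4 ^ n)
    rw [← prod_pow]
    have hu0 : ∀ i : ℕ, 0 ≤ min 1 (gf (1 / 4) (4 ^ i * x) + κ) := fun i =>
      le_min zero_le_one (add_nonneg (h0 _) hκ0)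
    refine prod_le_prod (fun i _ => pow_nonneg (hu0 i) 30) fun i _ => ?_
    have hL := hB5 (1 / 4) (4 ^ i * x) (4 ^ i * (c : ℝ) / 4 ^ n) (by norm_num)
    have h4i : (0 : ℝ) < 4 ^ i := by positivity
    have hd : |4 ^ i * x - 4 ^ i * (c : ℝ) / 4 ^ n| ≤ 4 ^ i / 4 ^ n := by
      have e1 : 4 ^ i * x - 4 ^ i * (c : ℝ) / 4 ^ n = 4 ^ i * (x - (c : ℝ) / 4 ^ n) := by ring
      have e2 : (0 : ℝ) ≤ x - (c : ℝ) / 4 ^ n := by linarith
      have e3 : x - (c : ℝ) / 4 ^ n ≤ 1 / 4 ^ n := by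
        have : ((c : ℝ) + 1) / 4 ^ n = (c : ℝ) / 4 ^ n + 1 / 4 ^ n := by ring
        linarith
      rw [e1, abs_of_nonneg (mul_nonneg h4i.le e2)]
      calc 4 ^ i * (x - (c : ℝ) / 4 ^ n) ≤ 4 ^ i * (1 / 4 ^ n) := mul_le_mul_of_nonneg_left e3 h4i.le
        _ = 4 ^ i / 4 ^ n := by ring
    have hπ : Real.pi ≤ 4 := Real.pi_le_four
    have hpi0 : (0 : ℝ) ≤ Real.pi := Real.pi_pos.le
    have hr0 : (0 : ℝ) ≤ 4 ^ i / 4 ^ n := by positivity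
    have hL2 : |gf (1 / 4) (4 ^ i * x) - gf (1 / 4) (4 ^ i * (c : ℝ) / 4 ^ n)| ≤ 5 * (4 ^ i / 4 ^ n) := by
      refine hL.trans ?_
      have e1 : 4 * Real.pi * (1 / 4) = Real.pi := by ring
      rw [e1]
      calc Real.pi * |4 ^ i * x - 4 ^ i * (c : ℝ) / 4 ^ n| ≤ Real.pi * (4 ^ i / 4 ^ n) :=
            mul_le_mul_of_nonneg_left hd hpi0
        _ ≤ 5 * (4 ^ i / 4 ^ n) := mul_le_mul_of_nonneg_right (by linarith) hr0
    have hle : min 1 (gf (1 / 4) (4 ^ i * x) + κ) ≤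
        gf (1 / 4) (4 ^ i * (c : ℝ) / 4 ^ n) + (κ + 5 * (4 ^ i / 4 ^ n)) := by
      refine (min_le_right _ _).trans ?_
      have := (abs_le.1 hL2).2
      linarith
    have := K4_pow _ _ _ (hu0 i) (min_le_left _ _) (h0 _) (h1 _) (by positivity) hle 30
    refine this.trans (le_of_eq ?_)
    push_cast
    ring

end Pool.Agent.C52.RK4
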