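import Pool.Agent.Lib.MP_c52340_c5.Defs


set_option autoImplicit false

open Finset


namespace Pool.Agent.C52.RT6

/-- Row T6.  An orbit of `x ↦ 4 x` leaves the neighbourhood of the integers.
Recipe: induction on `s`: if some `n` has `|x - n| < 1/8`, then `4 x - 4 n` is within `1/2` of `4 n`,
so `|4 x - m| ≥ 4^{-(s-1)}` for every integer `m` (`m = 4 n`: `4 |x - n|`; other `m`: at least `1/2`). -/
theorem T6 (s : ℕ) (x : ℝ) (hx : ∀ n : ℤ, 1 / (4 : ℝ) ^ s ≤ |x - n|) :
    ∃ i ≤ s, ∀ n : ℤ, 1 / 8 ≤ |4 ^ i * x - n| := by
  induction s generalizing x with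
  | zero =>
    refine ⟨0, le_refl _, fun n => ?_⟩
    have h := hx n
    rw [pow_zero] at h ⊢
    rw [one_mul]
    linarith
  | succ s ih =>
    by_cases hall : ∀ n : ℤ, 1 / 8 ≤ |x - n|
    · refine ⟨0, Nat.zero_le _, fun n => ?_⟩
      rw [pow_zero, one_mul]
      exact hall n
    · push Not at hall
      obtain ⟨n, hn⟩ := hall
      have hs : 1 ≤ s := by
        by_contra hcon
        have hs0 : s = 0 := by omega
        subst hs0
        have h := hx n
        norm_num at h
        linarith
      have h4 : (0 : ℝ) < 4 ^ s := by positivity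
      obtain ⟨i, hi, h⟩ := ih (4 * x) (fun m => by
        by_cases hm : m = 4 * n
        · have h := hx n
          have e : |4 * x - (m : ℝ)| = 4 * |x - n| := by
            rw [hm]
            push_cast
            rw [← mul_sub, abs_mul]
            norm_num
          rw [e]
          have e2 : 1 / (4 : ℝ) ^ s = 4 * (1 / 4 ^ (s + 1)) := by
            rw [pow_succ]
            field_simp
          rw [e2]
          linarith
        · have h1 : (1 : ℝ) ≤ |((m - 4 * n : ℤ) : ℝ)| := by
            rw [← Int.cast_abs]
            have : m - 4 * n ≠ 0 := fun h => hm (by omega)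
            exact_mod_cast Int.one_le_abs this
          have h2 : |((m - 4 * n : ℤ) : ℝ)| ≤ |4 * x - m| + |4 * x - 4 * n| := by
            have e : ((m - 4 * n : ℤ) : ℝ) = (4 * x - 4 * n) - (4 * x - m) := by
              push_cast
              ring
            rw [e]
            have := abs_sub (4 * x - 4 * n) (4 * x - (m : ℝ))
            linarith
          have h3 : |4 * x - 4 * (n : ℝ)| ≤ 1 / 2 := by
            rw [← mul_sub, abs_mul, abs_of_pos (by norm_num : (0 : ℝ) < 4)]
            linarith
          have h5 : 1 / (4 : ℝ) ^ s ≤ 1 / 2 := by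
            apply one_div_le_one_div_of_le (by norm_num)
            calc (2 : ℝ) ≤ 4 ^ 1 := by norm_num
              _ ≤ 4 ^ s := pow_le_pow_right₀ (by norm_num) hs
          linarith)
      refine ⟨i + 1, by omega, fun m => ?_⟩
      have e : (4 : ℝ) ^ (i + 1) * x = 4 ^ i * (4 * x) := by
        rw [pow_succ]
        ring
      rw [e]
      exact h m

end Pool.Agent.C52.RT6
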