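import Pool.Agent.Lib.MP_c52340_c5.DefsS
import Pool.Agent.Lib.MP_c52340_c5.B13
import Pool.Agent.Lib.MP_c52340_c5.T4
import Pool.Agent.Lib.MP_c52340_c5.T6
import Pool.Agent.Lib.MP_c52340_c5.K4


set_option autoImplicit false

open Finset

open Pool.Agent.C52.RB13 (B13)
open Pool.Agent.C52.RT4 (T4)
open Pool.Agent.C52.RT6 (T6)
open Pool.Agent.C52.RK4 (K4)

namespace Pool.Agent.C52.RK5

private theorem k5_fac (y κ : ℝ) (hκ : 0 ≤ κ) :
    0 ≤ min 1 (gf (1 / 4) y + κ) ∧ min 1 (gf (1 / 4) y + κ) ≤ 1 := by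
  have h := B13.2.2.2.1 (1 / 4) y (by norm_num) (by norm_num)
  exact ⟨le_min zero_le_one (by linarith), min_le_left _ _⟩

private theorem k5_W0 (n : ℕ) (x : ℝ) :
    0 ≤ ∏ l ∈ range n, min 1 (gf (1 / 4) (4 ^ l * x) + 1 / 10 ^ 6) :=
  Finset.prod_nonneg (fun l _ => (k5_fac (4 ^ l * x) (1 / 10 ^ 6) (by norm_num)).1)

private theorem k5_Wper (n : ℕ) (x : ℝ) (z : ℤ) :
    ∏ l ∈ range n, min 1 (gf (1 / 4) (4 ^ l * (x + z)) + 1 / 10 ^ 6) =
      ∏ l ∈ range n, min 1 (gf (1 / 4) (4 ^ l * x) + 1 / 10 ^ 6) := by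
  apply Finset.prod_congr rfl
  intro l _
  have h : (4 : ℝ) ^ l * (x + z) = 4 ^ l * x + ((4 ^ l * z : ℤ) : ℝ) := by push_cast; ring
  rw [h, B13.1]

private theorem k5_split (a L : ℕ) (g : ℕ → ℝ) :
    ∏ i ∈ range (a * L), g i = ∏ w ∈ range L, ∏ l ∈ range a, g (a * w + l) := by
  induction L with
  | zero => simp
  | succ L ih =>
    rw [Nat.mul_succ, Finset.prod_range_add, ih, Finset.prod_range_succ]

private theorem k5_cs (s m L : ℕ) (hL : 4 * s * L ≤ m) (hm : 120 ≤ m) (x : ℝ) :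
    Cs m x ≤ ∏ w ∈ range L, ∏ l ∈ range (2 * s),
      min 1 (gf (1 / 4) (4 ^ l * (4 ^ (2 * s * w) * x)) + 1 / 10 ^ 6) := by
  have h1 : ∏ w ∈ range L, ∏ l ∈ range (2 * s),
      min 1 (gf (1 / 4) (4 ^ l * (4 ^ (2 * s * w) * x)) + 1 / 10 ^ 6) =
      ∏ i ∈ range (2 * s * L), min 1 (gf (1 / 4) (4 ^ i * x) + 1 / 10 ^ 6) := by
    rw [k5_split (2 * s) L (fun i => min 1 (gf (1 / 4) (4 ^ i * x) + 1 / 10 ^ 6))]
    apply Finset.prod_congr rfl
    intro w _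
    apply Finset.prod_congr rfl
    intro l _
    have h : (4 : ℝ) ^ l * (4 ^ (2 * s * w) * x) = 4 ^ (2 * s * w + l) * x := by
      rw [pow_add]; ring
    rw [h]
  rw [h1]
  have h2 : 2 * (2 * s * L) ≤ m := by
    calc 2 * (2 * s * L) = 4 * s * L := by ring
      _ ≤ m := hL
  obtain ⟨b, hb⟩ : ∃ b, m = 2 * s * L + b := ⟨m - 2 * s * L, by omega⟩
  have hpos : ∀ i, 0 ≤ (4 : ℝ) * 4 ^ i / 4 ^ m := fun i => by positivity
  have h3 : Cs m x ≤ ∏ i ∈ range (2 * s * L), min 1 (gf (1 / 4) (4 ^ i * x) + 4 * 4 ^ i / 4 ^ m) := by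
    unfold Cs
    have h4 : range m = range (2 * s * L + b) := by rw [← hb]
    rw [h4, Finset.prod_range_add]
    have h5 : ∏ i ∈ range b, min 1 (gf (1 / 4) (4 ^ (2 * s * L + i) * x) + 4 * 4 ^ (2 * s * L + i) / 4 ^ m) ≤ 1 :=
      Finset.prod_le_one (fun i _ => (k5_fac _ _ (hpos _)).1) (fun i _ => (k5_fac _ _ (hpos _)).2)
    have h6 : 0 ≤ ∏ i ∈ range (2 * s * L), min 1 (gf (1 / 4) (4 ^ i * x) + 4 * 4 ^ i / 4 ^ m) :=
      Finset.prod_nonneg (fun i _ => (k5_fac _ _ (hpos _)).1)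
    exact mul_le_of_le_one_right h6 h5
  refine h3.trans ?_
  apply Finset.prod_le_prod
  · intro i _
    exact (k5_fac _ _ (hpos _)).1
  · intro i hi
    apply min_le_min_left
    have hi' : i < 2 * s * L := Finset.mem_range.mp hi
    have h7 : (4 : ℝ) * 4 ^ i / 4 ^ m ≤ 1 / 10 ^ 6 := by
      rw [div_le_div_iff₀ (by positivity) (by norm_num)]
      have h8 : i + 61 ≤ m := by omega
      have h9 : (4 : ℝ) ^ (i + 61) ≤ 4 ^ m := pow_le_pow_right₀ (by norm_num) h8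
      have h10 : (0 : ℝ) < 4 ^ i := by positivity
      rw [pow_add] at h9
      have h11 : (4 : ℝ) * 10 ^ 6 ≤ 4 ^ 61 := by norm_num
      nlinarith
    linarith

private theorem k5_amgm (L : ℕ) (hL : 0 < L) (a : ℕ → ℝ) (ha : ∀ i, 0 ≤ a i) :
    ∏ i ∈ range L, a i ≤ (∑ i ∈ range L, a i ^ L) / L := by
  have hL' : (0 : ℝ) < L := by exact_mod_cast hL
  have h := Real.geom_mean_le_arith_mean_weighted (range L) (fun _ => ((L : ℝ))⁻¹) (fun i => a i ^ L)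
    (fun _ _ => by positivity) (by rw [Finset.sum_const, card_range, nsmul_eq_mul]; field_simp)
    (fun i _ => pow_nonneg (ha i) L)
  have h1 : ∏ i ∈ range L, (a i ^ L) ^ ((L : ℝ))⁻¹ = ∏ i ∈ range L, a i := by
    apply Finset.prod_congr rfl
    intro i _
    exact Real.pow_rpow_inv_natCast (ha i) (by omega)
  rw [h1] at h
  refine h.trans (le_of_eq ?_)
  rw [← Finset.mul_sum]
  field_simp

private theorem k5_perm (d j : ℕ) (hd : Odd d) (g : ℝ → ℝ) (hper : ∀ (x : ℝ) (z : ℤ), g (x + z) = g x) :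
    ∑ b ∈ (range d).filter (fun b => Nat.Coprime b d), g (4 ^ j * ((b : ℝ) / (d : ℝ))) =
      ∑ b ∈ (range d).filter (fun b => Nat.Coprime b d), g ((b : ℝ) / (d : ℝ)) := by
  have hd0 : 0 < d := hd.pos
  have hd0' : (d : ℝ) ≠ 0 := by exact_mod_cast hd0.ne'
  have hc4 : Nat.Coprime (4 ^ j) d := by
    apply Nat.Coprime.pow_left
    have : (4 : ℕ) = 2 ^ 2 := by norm_num
    rw [this]
    apply Nat.Coprime.pow_left
    exact (Nat.coprime_two_left).mpr hd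
  have hmaps : ∀ b ∈ (range d).filter (fun b => Nat.Coprime b d),
      (4 ^ j * b) % d ∈ (range d).filter (fun b => Nat.Coprime b d) := by
    intro b hb
    rw [Finset.mem_filter, Finset.mem_range] at hb ⊢
    refine ⟨Nat.mod_lt _ hd0, ?_⟩
    have h1 : Nat.Coprime (4 ^ j * b) d := Nat.Coprime.mul_left hc4 hb.2
    have h2 : Nat.gcd ((4 ^ j * b) % d) d = Nat.gcd (4 ^ j * b) d :=
      Nat.ModEq.gcd_eq (Nat.mod_modEq (4 ^ j * b) d)
    rw [Nat.Coprime] at h1 ⊢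
    rw [h2, h1]
  have hinj : Set.InjOn (fun b => (4 ^ j * b) % d)
      ((range d).filter (fun b => Nat.Coprime b d) : Finset ℕ) := by
    intro b hb b' hb' h
    rw [Finset.mem_coe, Finset.mem_filter, Finset.mem_range] at hb hb'
    have h1 : 4 ^ j * b ≡ 4 ^ j * b' [MOD d] := h
    have h2 : b ≡ b' [MOD d] := Nat.ModEq.cancel_left_of_coprime (by
      rw [Nat.gcd_comm]; exact hc4) h1
    have h3 := Nat.ModEq.eq_of_lt_of_lt h2 hb.1 hb'.1
    exact h3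
  have hsurj : Set.SurjOn (fun b => (4 ^ j * b) % d)
      ((range d).filter (fun b => Nat.Coprime b d) : Finset ℕ)
      ((range d).filter (fun b => Nat.Coprime b d) : Finset ℕ) :=
    Finset.surjOn_of_injOn_of_card_le _ (fun b hb => hmaps b hb) hinj le_rfl
  apply Finset.sum_nbij (fun b => (4 ^ j * b) % d) hmaps hinj hsurj
  intro b _
  have h1 : (4 : ℝ) ^ j * ((b : ℝ) / (d : ℝ)) =
      (((4 ^ j * b) % d : ℕ) : ℝ) / (d : ℝ) + (((4 ^ j * b / d : ℕ) : ℤ) : ℝ) := by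
    have h2 : (d : ℝ) * ((4 ^ j * b / d : ℕ) : ℝ) + (((4 ^ j * b) % d : ℕ) : ℝ) = 4 ^ j * b := by
      exact_mod_cast Nat.div_add_mod (4 ^ j * b) d
    rw [Int.cast_natCast]
    field_simp
    linarith
  rw [h1, hper]

private theorem k5_dist (b d : ℕ) (hd3 : 3 ≤ d) (hc : Nat.Coprime b d) (n : ℤ) :
    1 / (d : ℝ) ≤ |(b : ℝ) / (d : ℝ) - n| := by
  have hd0 : (0 : ℝ) < d := by exact_mod_cast (by omega : 0 < d)
  have h1 : (b : ℤ) - n * d ≠ 0 := by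
    intro h
    have h2 : (d : ℤ) ∣ (b : ℤ) := ⟨n, by linarith⟩
    have h3 : d ∣ b := by exact_mod_cast h2
    have h4 : d ∣ Nat.gcd b d := Nat.dvd_gcd h3 dvd_rfl
    rw [Nat.Coprime] at hc
    rw [hc] at h4
    have := Nat.le_of_dvd one_pos h4
    omega
  have h2 : (1 : ℤ) ≤ |(b : ℤ) - n * d| := Int.one_le_abs h1
  have h3 : (1 : ℝ) ≤ |(b : ℝ) - n * d| := by exact_mod_cast h2
  have h4 : (b : ℝ) / (d : ℝ) - n = ((b : ℝ) - n * d) / d := by field_simp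
  rw [h4, abs_div, abs_of_pos hd0]
  exact div_le_div_of_nonneg_right h3 hd0.le

private theorem k5_W87 (s b d : ℕ) (hs : 1 ≤ s) (hd3 : 3 ≤ d) (hd4 : d ≤ 4 ^ s) (hc : Nat.Coprime b d) :
    ∏ l ∈ range (2 * s), min 1 (gf (1 / 4) (4 ^ l * ((b : ℝ) / (d : ℝ))) + 1 / 10 ^ 6) ≤ 0.87 := by
  have hd0 : (0 : ℝ) < d := by exact_mod_cast (by omega : 0 < d)
  have h1 : ∀ n : ℤ, 1 / (4 : ℝ) ^ s ≤ |(b : ℝ) / (d : ℝ) - n| := by
    intro n
    refine le_trans ?_ (k5_dist b d hd3 hc n)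
    apply one_div_le_one_div_of_le hd0
    exact_mod_cast hd4
  obtain ⟨i, hi, hi8⟩ := T6 s ((b : ℝ) / (d : ℝ)) h1
  have h2 := (T4 (4 ^ i * ((b : ℝ) / (d : ℝ))) hi8).1
  have hmem : i ∈ range (2 * s) := Finset.mem_range.mpr (by omega)
  rw [← Finset.mul_prod_erase _ _ hmem]
  have h3 : min 1 (gf (1 / 4) (4 ^ i * ((b : ℝ) / (d : ℝ))) + 1 / 10 ^ 6) ≤ 0.87 := by
    refine (min_le_right _ _).trans ?_
    have : (43 : ℝ) / 50 + 1 / 10 ^ 6 ≤ 0.87 := by norm_num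
    linarith
  have h4 : ∏ l ∈ (range (2 * s)).erase i, min 1 (gf (1 / 4) (4 ^ l * ((b : ℝ) / (d : ℝ))) + 1 / 10 ^ 6) ≤ 1 :=
    Finset.prod_le_one (fun l _ => (k5_fac _ _ (by norm_num)).1) (fun l _ => (k5_fac _ _ (by norm_num)).2)
  have h5 : 0 ≤ ∏ l ∈ (range (2 * s)).erase i, min 1 (gf (1 / 4) (4 ^ l * ((b : ℝ) / (d : ℝ))) + 1 / 10 ^ 6) :=
    Finset.prod_nonneg (fun l _ => (k5_fac _ _ (by norm_num)).1)
  calc _ ≤ (0.87 : ℝ) * 1 := mul_le_mul h3 h4 h5 (by norm_num)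
    _ = 0.87 := by norm_num

/-- Row K5.  Windows.
Recipe.  `κ = 4^{-m/2}` (`≤ 10^{-6}`), `f y = min 1 (gf (1/4) y + κ)`; dropping the factors `i ≥ m/2` of `Cs m x` and `4 * 4^i/4^m ≤ κ` for `i < m/2`:
`Cs m x ≤ ∏_{w<L} Wd (4^(2 s w) x)`, `Wd x = ∏_{l<2s} f (4^l x)`, `L = m/(4 s) ≥ 30`.  AM-GM: `≤ (1/L) ∑_w (Wd (4^(2sw) x))^L`; for each `d` the map
`b/d ↦ 4^(2sw) b/d` mod `1` permutes the reduced fractions with denominator `d`; so `FS s m ≤ ∑_x (Wd x)^L ≤ (0.87)^(L-30) ∑_x (Wd x)^30` (T6 with `|b/d - n| ≥ 1/d ≥ 4^{-s}`,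
T4: some factor is `≤ 43/50 + κ ≤ 0.87`), and K4 with `n = 2 s` (different reduced fractions with denominators `≤ 4^s` differ by at least `4^{-2s}`). -/
theorem K5 : ∃ C : ℝ, 0 < C ∧ ∀ s m : ℕ, 1 ≤ s → 120 * s ≤ m →
    FS s m ≤ C * (1.06 : ℝ) ^ (2 * s) * (0.87 : ℝ) ^ (m / (4 * s)) := by
  obtain ⟨C, hC, hK⟩ := K4
  refine ⟨C / 0.87 ^ 30, by positivity, ?_⟩
  intro s m hs hm
  obtain ⟨L, hLdef⟩ : ∃ L, L = m / (4 * s) := ⟨_, rfl⟩
  rw [← hLdef]
  have hL30 : 30 ≤ L := by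
    rw [hLdef, Nat.le_div_iff_mul_le (by omega)]
    omega
  have hLm : 4 * s * L ≤ m := by
    rw [hLdef]
    exact Nat.mul_div_le m (4 * s)
  have hL0 : 0 < L := by omega
  have hLr : (0 : ℝ) < L := by exact_mod_cast hL0
  have hm120 : 120 ≤ m := by nlinarith
  -- inner sums
  have hinner : ∀ d ∈ (Ioc (4 ^ (s - 1)) (4 ^ s)).filter (fun d => Odd d ∧ 3 ≤ d),
      ∑ b ∈ (range d).filter (fun b => Nat.Coprime b d), Cs m ((b : ℝ) / (d : ℝ)) ≤
      ∑ b ∈ (range d).filter (fun b => Nat.Coprime b d), (0.87 : ℝ) ^ (L - 30) *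
        (∏ l ∈ range (2 * s), min 1 (gf (1 / 4) (4 ^ l * ((b : ℝ) / (d : ℝ))) + 1 / 10 ^ 6)) ^ 30 := by
    intro d hd
    rw [Finset.mem_filter, Finset.mem_Ioc] at hd
    obtain ⟨⟨_, hd4⟩, hodd, hd3⟩ := hd
    calc ∑ b ∈ (range d).filter (fun b => Nat.Coprime b d), Cs m ((b : ℝ) / (d : ℝ))
        ≤ ∑ b ∈ (range d).filter (fun b => Nat.Coprime b d), (∑ w ∈ range L,
          (∏ l ∈ range (2 * s), min 1 (gf (1 / 4) (4 ^ l * (4 ^ (2 * s * w) * ((b : ℝ) / (d : ℝ)))) + 1 / 10 ^ 6)) ^ L) / (L : ℝ) := by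
          apply Finset.sum_le_sum
          intro b _
          refine (k5_cs s m L hLm hm120 _).trans ?_
          exact k5_amgm L hL0 (fun w => ∏ l ∈ range (2 * s),
            min 1 (gf (1 / 4) (4 ^ l * (4 ^ (2 * s * w) * ((b : ℝ) / (d : ℝ)))) + 1 / 10 ^ 6))
            (fun w => k5_W0 _ _)
      _ = (∑ w ∈ range L, ∑ b ∈ (range d).filter (fun b => Nat.Coprime b d),
          (∏ l ∈ range (2 * s), min 1 (gf (1 / 4) (4 ^ l * (4 ^ (2 * s * w) * ((b : ℝ) / (d : ℝ)))) + 1 / 10 ^ 6)) ^ L) / (L : ℝ) := by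
          rw [← Finset.sum_div, Finset.sum_comm]
      _ = (∑ w ∈ range L, ∑ b ∈ (range d).filter (fun b => Nat.Coprime b d),
          (∏ l ∈ range (2 * s), min 1 (gf (1 / 4) (4 ^ l * ((b : ℝ) / (d : ℝ))) + 1 / 10 ^ 6)) ^ L) / (L : ℝ) := by
          congr 1
          apply Finset.sum_congr rfl
          intro w _
          exact k5_perm d (2 * s * w) hodd
            (fun x => (∏ l ∈ range (2 * s), min 1 (gf (1 / 4) (4 ^ l * x) + 1 / 10 ^ 6)) ^ L)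
            (fun x z => by
              show (∏ l ∈ range (2 * s), min 1 (gf (1 / 4) (4 ^ l * (x + z)) + 1 / 10 ^ 6)) ^ L = _
              rw [k5_Wper])
      _ = ∑ b ∈ (range d).filter (fun b => Nat.Coprime b d),
          (∏ l ∈ range (2 * s), min 1 (gf (1 / 4) (4 ^ l * ((b : ℝ) / (d : ℝ))) + 1 / 10 ^ 6)) ^ L := by
          rw [Finset.sum_const, card_range, nsmul_eq_mul]
          exact mul_div_cancel_left₀ _ hLr.ne'
      _ ≤ _ := by
          apply Finset.sum_le_sum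
          intro b hb
          rw [Finset.mem_filter, Finset.mem_range] at hb
          have hW0 := k5_W0 (2 * s) ((b : ℝ) / (d : ℝ))
          have hW1 := k5_W87 s b d hs hd3 hd4 hb.2
          obtain ⟨W, hW⟩ : ∃ W, W = ∏ l ∈ range (2 * s),
            min 1 (gf (1 / 4) (4 ^ l * ((b : ℝ) / (d : ℝ))) + 1 / 10 ^ 6) := ⟨_, rfl⟩
          rw [← hW] at hW0 hW1 ⊢
          have h1 : W ^ L = W ^ (L - 30) * W ^ 30 := by
            rw [← pow_add]
            congr 1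
            omega
          rw [h1]
          exact mul_le_mul_of_nonneg_right (pow_le_pow_left₀ hW0 hW1 _) (by positivity)
  -- all fractions
  have hFS : FS s m ≤ (0.87 : ℝ) ^ (L - 30) * (C * (1.06 : ℝ) ^ (2 * s)) := by
    unfold FS
    refine (Finset.sum_le_sum hinner).trans ?_
    rw [Finset.sum_sigma']
    rw [← Finset.mul_sum]
    apply mul_le_mul_of_nonneg_left _ (by positivity)
    obtain ⟨P, hP⟩ : ∃ P, P = ((Ioc (4 ^ (s - 1)) (4 ^ s)).filter (fun d => Odd d ∧ 3 ≤ d)).sigma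
      (fun d => (range d).filter (fun b => Nat.Coprime b d)) := ⟨_, rfl⟩
    rw [← hP]
    have hPm : ∀ p ∈ P, 3 ≤ p.1 ∧ p.1 ≤ 4 ^ s ∧ p.2 < p.1 ∧ Nat.Coprime p.2 p.1 := by
      intro p hp
      rw [hP, Finset.mem_sigma, Finset.mem_filter, Finset.mem_Ioc, Finset.mem_filter,
        Finset.mem_range] at hp
      exact ⟨hp.1.2.2, hp.1.1.2, hp.2.1, hp.2.2⟩
    have hsep : ∀ p ∈ P, ∀ p' ∈ P, p ≠ p' →
        1 / (4 : ℝ) ^ (2 * s) ≤ |(p.2 : ℝ) / (p.1 : ℝ) - (p'.2 : ℝ) / (p'.1 : ℝ)| := by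
      intro p hp p' hp' hne
      obtain ⟨h3, h4, hlt, hco⟩ := hPm p hp
      obtain ⟨h3', h4', hlt', hco'⟩ := hPm p' hp'
      have hd0 : (0 : ℝ) < p.1 := by exact_mod_cast (by omega : 0 < p.1)
      have hd0' : (0 : ℝ) < p'.1 := by exact_mod_cast (by omega : 0 < p'.1)
      have hne' : (p.2 : ℤ) * p'.1 - p'.2 * p.1 ≠ 0 := by
        intro h
        apply hne
        have h5 : p.2 * p'.1 = p'.2 * p.1 := by
          have : (p.2 : ℤ) * p'.1 = p'.2 * p.1 := by linarith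
          exact_mod_cast this
        have h6 : p.1 ∣ p'.1 := by
          have : p.1 ∣ p.2 * p'.1 := ⟨p'.2, by rw [h5]; ring⟩
          exact (Nat.Coprime.dvd_of_dvd_mul_left hco.symm this)
        have h7 : p'.1 ∣ p.1 := by
          have : p'.1 ∣ p'.2 * p.1 := ⟨p.2, by rw [← h5]; ring⟩
          exact (Nat.Coprime.dvd_of_dvd_mul_left hco'.symm this)
        have h8 : p.1 = p'.1 := Nat.dvd_antisymm h6 h7
        have h9 : p.2 = p'.2 := by
          rw [h8] at h5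
          exact Nat.eq_of_mul_eq_mul_right (by omega) h5
        obtain ⟨d, b⟩ := p
        obtain ⟨d', b'⟩ := p'
        simp only at h8 h9
        subst h8
        subst h9
        rfl
      have h5 : (1 : ℝ) ≤ |(p.2 : ℝ) * p'.1 - p'.2 * p.1| := by
        have := Int.one_le_abs hne'
        exact_mod_cast this
      have h6 : (p.2 : ℝ) / (p.1 : ℝ) - (p'.2 : ℝ) / (p'.1 : ℝ) =
          ((p.2 : ℝ) * p'.1 - p'.2 * p.1) / (p.1 * p'.1) := by
        field_simp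
      rw [h6, abs_div, abs_of_pos (mul_pos hd0 hd0')]
      have h7 : (p.1 : ℝ) * p'.1 ≤ 4 ^ (2 * s) := by
        have h8 : (p.1 : ℝ) ≤ 4 ^ s := by exact_mod_cast h4
        have h9 : (p'.1 : ℝ) ≤ 4 ^ s := by exact_mod_cast h4'
        calc (p.1 : ℝ) * p'.1 ≤ 4 ^ s * 4 ^ s := mul_le_mul h8 h9 hd0'.le (by positivity)
          _ = 4 ^ (2 * s) := by rw [← pow_add]; congr 1; ring
      exact div_le_div₀ (abs_nonneg _) h5 (mul_pos hd0 hd0') h7
    have hinj : Set.InjOn (fun p : (_ : ℕ) × ℕ => (p.2 : ℝ) / (p.1 : ℝ)) (P : Set ((_ : ℕ) × ℕ)) := by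
      intro p hp p' hp' h
      by_contra hne
      have h5 := hsep p hp p' hp' hne
      have h6 : (p.2 : ℝ) / (p.1 : ℝ) - (p'.2 : ℝ) / (p'.1 : ℝ) = 0 := by
        have : (p.2 : ℝ) / (p.1 : ℝ) = (p'.2 : ℝ) / (p'.1 : ℝ) := h
        linarith
      rw [h6, abs_zero] at h5
      have h7 : (0 : ℝ) < 1 / 4 ^ (2 * s) := by positivity
      linarith
    have hsum := Finset.sum_image (f := fun x : ℝ =>
      (∏ l ∈ range (2 * s), min 1 (gf (1 / 4) (4 ^ l * x) + 1 / 10 ^ 6)) ^ 30) hinj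
    rw [← hsum]
    apply hK (2 * s) (1 / 10 ^ 6) _ (by norm_num) le_rfl
    · intro x hx
      rw [Finset.mem_image] at hx
      obtain ⟨p, hp, rfl⟩ := hx
      obtain ⟨h3, h4, hlt, hco⟩ := hPm p hp
      have hd0 : (0 : ℝ) < p.1 := by exact_mod_cast (by omega : 0 < p.1)
      refine ⟨by positivity, ?_⟩
      rw [div_lt_one hd0]
      exact_mod_cast hlt
    · intro x hx y hy hxy
      rw [Finset.mem_image] at hx hy
      obtain ⟨p, hp, rfl⟩ := hx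
      obtain ⟨p', hp', rfl⟩ := hy
      apply hsep p hp p' hp'
      intro h
      apply hxy
      rw [h]
  refine hFS.trans (le_of_eq ?_)
  have h1 : (0.87 : ℝ) ^ L = 0.87 ^ (L - 30) * 0.87 ^ 30 := by
    rw [← pow_add]
    congr 1
    omega
  rw [h1]
  field_simp

end Pool.Agent.C52.RK5
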