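import Pool.Agent.Lib.MP_c52340_c5.DefsS
import Pool.Agent.Lib.MP_c52340_c5.K5


set_option autoImplicit false

open Finset

open Pool.Agent.C52.RK5 (K5)

namespace Pool.Agent.C52.RK6

private lemma geoK6 (r : ℝ) (h0 : 0 ≤ r) (h1 : r < 1) (s : Finset ℕ) :
    ∑ i ∈ s, r ^ i ≤ 1 / (1 - r) := by
  have h := (summable_geometric_of_lt_one h0 h1).sum_le_tsum s (fun i _ => pow_nonneg h0 i)
  rw [tsum_geometric_of_lt_one h0 h1] at h
  rw [one_div]; exact h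

/-- Row K6.  The sum over all odd denominators tends to zero.
Recipe: K5; `(qq/2) * 1.06^2 ≤ 0.57`; split at `s ≤ s₀`: the tail is `≤ C 0.57^(s₀)/0.43`, each of the other terms tends to zero as `m → ∞`. -/
theorem K6 (ε : ℝ) (hε : 0 < ε) : ∃ N₀ : ℕ, ∀ N ≥ N₀, ∀ g m : ℕ, g ≤ N / 10000 → N / 4 ≤ m →
    ∑ s ∈ Icc 1 g, (qq / 2) ^ s * FS s m ≤ ε := by
  obtain ⟨C, hC, hK⟩ := K5
  have hη : 0 < ε / (5 * C) := by positivity
  obtain ⟨s₀, hs₀⟩ := exists_pow_lt_of_lt_one hη (show (0.76 : ℝ) < 1 by norm_num)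
  obtain ⟨M, hM⟩ := exists_pow_lt_of_lt_one hη (show (0.87 : ℝ) < 1 by norm_num)
  refine ⟨16 * s₀ * M + 16, ?_⟩
  intro N hN g m hg hm
  have hterm : ∀ s ∈ Icc 1 g, (qq / 2) ^ s * FS s m ≤ C * (ε / (5 * C)) * (0.76 : ℝ) ^ s := by
    intro s hs
    rw [mem_Icc] at hs
    have h120 : 120 * s ≤ m := by omega
    have h1 := hK s m hs.1 h120
    have hq0 : (0 : ℝ) ≤ (qq / 2) ^ s := by unfold qq; positivity
    have h2 : (qq / 2) ^ s * FS s m ≤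
        (qq / 2) ^ s * (C * (1.06 : ℝ) ^ (2 * s) * (0.87 : ℝ) ^ (m / (4 * s))) :=
      mul_le_mul_of_nonneg_left h1 hq0
    have h3 : (qq / 2) ^ s * (C * (1.06 : ℝ) ^ (2 * s) * (0.87 : ℝ) ^ (m / (4 * s))) =
        C * ((qq / 2 * (1.06 : ℝ) ^ 2) ^ s * (0.87 : ℝ) ^ (m / (4 * s))) := by
      rw [mul_pow, pow_mul]; ring
    have h4 : (qq / 2 * (1.06 : ℝ) ^ 2) ^ s ≤ ((0.76 : ℝ) ^ 2) ^ s := by
      apply pow_le_pow_left₀
      · unfold qq; norm_num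
      · unfold qq; norm_num
    have h5 : ((0.76 : ℝ) ^ 2) ^ s = (0.76 : ℝ) ^ s * (0.76 : ℝ) ^ s := by
      rw [← pow_mul, two_mul, pow_add]
    have h6 : (0.76 : ℝ) ^ s * (0.87 : ℝ) ^ (m / (4 * s)) ≤ ε / (5 * C) := by
      have p76 : (0.76 : ℝ) ^ s ≤ 1 := pow_le_one₀ (by norm_num) (by norm_num)
      have p87 : (0.87 : ℝ) ^ (m / (4 * s)) ≤ 1 := pow_le_one₀ (by norm_num) (by norm_num)
      rcases le_or_gt s₀ s with h | h
      · have a1 : (0.76 : ℝ) ^ s ≤ (0.76 : ℝ) ^ s₀ :=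
          pow_le_pow_of_le_one (by norm_num) (by norm_num) h
        calc (0.76 : ℝ) ^ s * (0.87 : ℝ) ^ (m / (4 * s)) ≤ (0.76 : ℝ) ^ s * 1 :=
              mul_le_mul_of_nonneg_left p87 (by positivity)
          _ ≤ ε / (5 * C) := by linarith
      · have a2 : M ≤ m / (4 * s) := by
          rw [Nat.le_div_iff_mul_le (by omega)]
          have a3 : M * (4 * s) ≤ M * (4 * s₀) := Nat.mul_le_mul_left _ (by omega)
          have a4 : 16 * s₀ * M = 4 * (M * (4 * s₀)) := by ring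
          omega
        have a1 : (0.87 : ℝ) ^ (m / (4 * s)) ≤ (0.87 : ℝ) ^ M :=
          pow_le_pow_of_le_one (by norm_num) (by norm_num) a2
        calc (0.76 : ℝ) ^ s * (0.87 : ℝ) ^ (m / (4 * s)) ≤ 1 * (0.87 : ℝ) ^ (m / (4 * s)) :=
              mul_le_mul_of_nonneg_right p76 (by positivity)
          _ ≤ ε / (5 * C) := by linarith
    calc (qq / 2) ^ s * FS s m ≤
        C * ((qq / 2 * (1.06 : ℝ) ^ 2) ^ s * (0.87 : ℝ) ^ (m / (4 * s))) := h2.trans_eq h3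
      _ ≤ C * (((0.76 : ℝ) ^ s * (0.76 : ℝ) ^ s) * (0.87 : ℝ) ^ (m / (4 * s))) := by
          rw [← h5]
          exact mul_le_mul_of_nonneg_left (mul_le_mul_of_nonneg_right h4 (by positivity)) hC.le
      _ = C * ((0.76 : ℝ) ^ s * (0.87 : ℝ) ^ (m / (4 * s))) * (0.76 : ℝ) ^ s := by ring
      _ ≤ C * (ε / (5 * C)) * (0.76 : ℝ) ^ s :=
          mul_le_mul_of_nonneg_right (mul_le_mul_of_nonneg_left h6 hC.le) (by positivity)
  have hgeo := geoK6 (0.76 : ℝ) (by norm_num) (by norm_num) (Icc 1 g)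
  have hCη : C * (ε / (5 * C)) = ε / 5 := by field_simp
  calc ∑ s ∈ Icc 1 g, (qq / 2) ^ s * FS s m
      ≤ ∑ s ∈ Icc 1 g, C * (ε / (5 * C)) * (0.76 : ℝ) ^ s := Finset.sum_le_sum hterm
    _ = ε / 5 * ∑ s ∈ Icc 1 g, (0.76 : ℝ) ^ s := by rw [← Finset.mul_sum, hCη]
    _ ≤ ε / 5 * 5 := by
        apply mul_le_mul_of_nonneg_left _ (by positivity)
        refine hgeo.trans ?_
        norm_num
    _ = ε := by ring

end Pool.Agent.C52.RK6
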