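import Pool.Agent.Lib.MP_c52340_c5.DefsS
import Pool.Agent.Lib.MP_c52340_c5.C1
import Pool.Agent.Lib.MP_c52340_c5.K1
import Pool.Agent.Lib.MP_c52340_c5.K3
import Pool.Agent.Lib.MP_c52340_c5.K6


set_option autoImplicit false

open Finset

open Pool.Agent.C52.RC1 (C1)
open Pool.Agent.C52.RK1 (K1)
open Pool.Agent.C52.RK3 (K3)
open Pool.Agent.C52.RK6 (K6)

namespace Pool.Agent.C52.RK7

private theorem card_Fd (i : ℕ) : ((Fd i).card : ℝ) ≤ 51 * 16 ^ i := by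
  classical
  have h : (Fd i).card ≤ ((Icc (-(2 * (4 : ℤ) ^ (i + 1))) (2 * 4 ^ (i + 1))) ×ˢ
      (Ico (4 ^ i) (4 ^ (i + 1)) : Finset ℕ)).card := by
    unfold Fd
    exact Finset.card_filter_le _ _
  rw [Finset.card_product, Nat.card_Ico, Int.card_Icc] at h
  have e1 : (2 * (4 : ℤ) ^ (i + 1) + 1 - -(2 * (4 : ℤ) ^ (i + 1))).toNat = 16 * 4 ^ i + 1 := by
    have : (2 * (4 : ℤ) ^ (i + 1) + 1 - -(2 * (4 : ℤ) ^ (i + 1))) = ((16 * 4 ^ i + 1 : ℕ) : ℤ) := by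
      push_cast
      ring
    rw [this, Int.toNat_natCast]
  have e2 : 4 ^ (i + 1) - 4 ^ i = 3 * 4 ^ i := by
    rw [pow_succ]
    omega
  rw [e1, e2] at h
  have h2 : (16 * 4 ^ i + 1) * (3 * 4 ^ i) ≤ 51 * 16 ^ i := by
    have e3 : (16 : ℕ) ^ i = 4 ^ i * 4 ^ i := by rw [← mul_pow]; norm_num
    have h1 : 1 ≤ 4 ^ i := Nat.one_le_pow _ _ (by norm_num)
    rw [e3]
    nlinarith
  exact_mod_cast h.trans h2

private theorem geo16 (g : ℕ) : ∑ i ∈ range g, (16 : ℝ) ^ i ≤ 16 ^ g := by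
  induction g with
  | zero => simp
  | succ g ih =>
    rw [Finset.sum_range_succ, pow_succ]
    have : (0 : ℝ) < 16 ^ g := by positivity
    linarith

private theorem half_pow (N : ℕ) : (1 / 2 : ℝ) ^ (N / 4) ≤ 2 * (0.85 : ℝ) ^ N := by
  have h1 : (1 / 2 : ℝ) ^ (N / 4) ≤ (0.85 : ℝ) ^ (4 * (N / 4)) := by
    rw [pow_mul]
    exact pow_le_pow_left₀ (by norm_num) (by norm_num) _
  have h2 : (0.85 : ℝ) ^ (4 * (N / 4) + 3) ≤ (0.85 : ℝ) ^ N :=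
    pow_le_pow_of_le_one (by norm_num) (by norm_num) (by omega)
  rw [pow_add] at h2
  have h3 : (0 : ℝ) < (0.85 : ℝ) ^ (4 * (N / 4)) := by positivity
  have h4 : (1 / 2 : ℝ) ≤ 0.85 ^ 3 := by norm_num
  nlinarith

/-- Row K7.  The sum over all nondyadic fractions tends to zero.
Recipe: K1; for `j ≤ N/2`: K3 with `m = N - j`, K6 (`m - g ≥ N/4`), `∑ 2^{-j} ≤ 2`.  For `j > N/2`: `Cs ≤ 1`, `2^{-j} ≤ 2^{-N/2}`, `card (Fd i) ≤ 100 * 16^i`,
total `≤ 2^{-N/2} * C * 16^g` with `g = N/10000`. -/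
theorem K7 (ε : ℝ) (hε : 0 < ε) : ∃ N₀ : ℕ, ∀ N ≥ N₀,
    ∑ i ∈ range (N / 10000), (qq / 2) ^ i * ∑ p ∈ Fd i, Hw N ((p.1 : ℝ) / (p.2 : ℝ)) ≤ ε := by
  obtain ⟨C₁, hC₁, hK1⟩ := Pool.Agent.C52.RK1.K1
  obtain ⟨C₃, hC₃, hK3⟩ := Pool.Agent.C52.RK3.K3
  obtain ⟨C1a, -⟩ := Pool.Agent.C52.RC1.C1
  have hq0 : (0 : ℝ) ≤ qq / 2 := by unfold qq; norm_num
  have hq1 : (qq / 2 : ℝ) ≤ 1 := by unfold qq; norm_num
  have hδ : 0 < ε / (4 * C₁ * C₃) := by positivity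
  obtain ⟨N₁, hN₁⟩ := Pool.Agent.C52.RK6.K6 (ε / (4 * C₁ * C₃)) hδ
  have hr : |(0.85 : ℝ)| < 1 := by norm_num [abs_lt]
  have hlim := (tendsto_pow_const_mul_const_pow_of_abs_lt_one 1 hr).const_mul (C₁ * 204)
  rw [mul_zero] at hlim
  obtain ⟨N₂, hN₂⟩ := Filter.eventually_atTop.1 (hlim.eventually (gt_mem_nhds (half_pos hε)))
  refine ⟨max (max N₁ N₂) 1, fun N hN => ?_⟩
  have hNa : N₁ ≤ N := le_trans (le_trans (le_max_left _ _) (le_max_left _ _)) hN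
  have hNb : N₂ ≤ N := le_trans (le_trans (le_max_right _ _) (le_max_left _ _)) hN
  have hNc : 1 ≤ N := le_trans (le_max_right _ _) hN
  set g := N / 10000 with hg
  -- the inner sums
  set S : ℕ → ℝ := fun j =>
    ∑ i ∈ range g, (qq / 2) ^ i * ∑ p ∈ Fd i, Cs (N - j) ((p.1 : ℝ) / (p.2 : ℝ)) with hS
  have hstep1 : ∑ i ∈ range g, (qq / 2) ^ i * ∑ p ∈ Fd i, Hw N ((p.1 : ℝ) / (p.2 : ℝ)) ≤
      C₁ * ∑ j ∈ range (N + 1), (1 / 2 : ℝ) ^ j * S j := by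
    calc ∑ i ∈ range g, (qq / 2) ^ i * ∑ p ∈ Fd i, Hw N ((p.1 : ℝ) / (p.2 : ℝ))
        ≤ ∑ i ∈ range g, (qq / 2) ^ i * ∑ p ∈ Fd i,
            C₁ * ∑ j ∈ range (N + 1), (1 / 2 : ℝ) ^ j * Cs (N - j) ((p.1 : ℝ) / (p.2 : ℝ)) := by
          refine Finset.sum_le_sum fun i _ => mul_le_mul_of_nonneg_left ?_ (pow_nonneg hq0 _)
          exact Finset.sum_le_sum fun p _ => hK1 N _ hNc
      _ = C₁ * ∑ j ∈ range (N + 1), (1 / 2 : ℝ) ^ j * S j := by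
          simp only [hS, Finset.mul_sum]
          symm
          rw [Finset.sum_comm]
          refine Finset.sum_congr rfl fun i _ => ?_
          rw [Finset.sum_comm]
          refine Finset.sum_congr rfl fun p _ => Finset.sum_congr rfl fun j _ => ?_
          ring
  have hterm : ∀ j ∈ range (N + 1), (1 / 2 : ℝ) ^ j * S j ≤
      (1 / 2 : ℝ) ^ j * (C₃ * (ε / (4 * C₁ * C₃))) + 51 * (1 / 2 : ℝ) ^ (N / 4) := by
    intro j hj
    rw [Finset.mem_range] at hj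
    by_cases hjN : j ≤ N / 2
    · have h1 : S j ≤ C₃ * (ε / (4 * C₁ * C₃)) := by
        have h2 := hK3 g (N - j) (by omega)
        have h3 := hN₁ N hNa g (N - j - g) (le_refl _) (by omega)
        exact h2.trans (mul_le_mul_of_nonneg_left h3 hC₃.le)
      have h4 : (0 : ℝ) ≤ 51 * (1 / 2 : ℝ) ^ (N / 4) := by positivity
      have h5 : (1 / 2 : ℝ) ^ j * S j ≤ (1 / 2 : ℝ) ^ j * (C₃ * (ε / (4 * C₁ * C₃))) :=
        mul_le_mul_of_nonneg_left h1 (by positivity)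
      linarith
    · have h1 : S j ≤ 51 * 16 ^ g := by
        calc S j ≤ ∑ i ∈ range g, 51 * (16 : ℝ) ^ i := by
              refine Finset.sum_le_sum fun i _ => ?_
              have h2 : ∑ p ∈ Fd i, Cs (N - j) ((p.1 : ℝ) / (p.2 : ℝ)) ≤ ((Fd i).card : ℝ) := by
                calc ∑ p ∈ Fd i, Cs (N - j) ((p.1 : ℝ) / (p.2 : ℝ)) ≤ ∑ p ∈ Fd i, (1 : ℝ) :=
                      Finset.sum_le_sum fun p _ => (C1a _ _).2
                  _ = _ := by simp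
              have h3 : (0 : ℝ) ≤ ∑ p ∈ Fd i, Cs (N - j) ((p.1 : ℝ) / (p.2 : ℝ)) :=
                Finset.sum_nonneg fun p _ => (C1a _ _).1
              calc (qq / 2) ^ i * ∑ p ∈ Fd i, Cs (N - j) ((p.1 : ℝ) / (p.2 : ℝ))
                  ≤ 1 * ∑ p ∈ Fd i, Cs (N - j) ((p.1 : ℝ) / (p.2 : ℝ)) :=
                    mul_le_mul_of_nonneg_right (pow_le_one₀ hq0 hq1) h3
                _ ≤ ((Fd i).card : ℝ) := by rw [one_mul]; exact h2
                _ ≤ 51 * 16 ^ i := card_Fd i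
          _ = 51 * ∑ i ∈ range g, (16 : ℝ) ^ i := by rw [Finset.mul_sum]
          _ ≤ 51 * 16 ^ g := mul_le_mul_of_nonneg_left (geo16 g) (by norm_num)
      have h2 : (1 / 2 : ℝ) ^ j * (51 * 16 ^ g) ≤ 51 * (1 / 2 : ℝ) ^ (N / 4) := by
        have e1 : (16 : ℝ) ^ g = 2 ^ (4 * g) := by rw [pow_mul]; norm_num
        have e2 : (1 / 2 : ℝ) ^ j ≤ (1 / 2 : ℝ) ^ (N / 4 + 4 * g) :=
          pow_le_pow_of_le_one (by norm_num) (by norm_num) (by omega)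
        have e3 : (1 / 2 : ℝ) ^ (N / 4 + 4 * g) * 2 ^ (4 * g) = (1 / 2 : ℝ) ^ (N / 4) := by
          rw [pow_add, mul_assoc, ← mul_pow]
          norm_num
        calc (1 / 2 : ℝ) ^ j * (51 * 16 ^ g) = 51 * ((1 / 2 : ℝ) ^ j * 2 ^ (4 * g)) := by
              rw [e1]
              ring
          _ ≤ 51 * ((1 / 2 : ℝ) ^ (N / 4 + 4 * g) * 2 ^ (4 * g)) := by
              refine mul_le_mul_of_nonneg_left ?_ (by norm_num)
              exact mul_le_mul_of_nonneg_right e2 (by positivity)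
          _ = _ := by rw [e3]
      have h3 : (1 / 2 : ℝ) ^ j * S j ≤ (1 / 2 : ℝ) ^ j * (51 * 16 ^ g) :=
        mul_le_mul_of_nonneg_left h1 (by positivity)
      have h4 : (0 : ℝ) ≤ (1 / 2 : ℝ) ^ j * (C₃ * (ε / (4 * C₁ * C₃))) := by positivity
      linarith
  refine hstep1.trans ?_
  have hsum : ∑ j ∈ range (N + 1), (1 / 2 : ℝ) ^ j * S j ≤
      2 * (C₃ * (ε / (4 * C₁ * C₃))) + ((N : ℝ) + 1) * (51 * (1 / 2 : ℝ) ^ (N / 4)) := by
    refine (Finset.sum_le_sum hterm).trans ?_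
    rw [Finset.sum_add_distrib, ← Finset.sum_mul]
    have h1 := sum_geometric_two_le (N + 1)
    have h2 : (0 : ℝ) ≤ C₃ * (ε / (4 * C₁ * C₃)) := by positivity
    have h3 : ∑ j ∈ range (N + 1), 51 * (1 / 2 : ℝ) ^ (N / 4) =
        ((N : ℝ) + 1) * (51 * (1 / 2 : ℝ) ^ (N / 4)) := by
      rw [Finset.sum_const, Finset.card_range, nsmul_eq_mul]
      push_cast
      ring
    rw [h3]
    have h4 := mul_le_mul_of_nonneg_right h1 h2
    linarith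
  have hfin := hN₂ N hNb
  have hhp := half_pow N
  have hN1 : (1 : ℝ) ≤ (N : ℝ) := by exact_mod_cast hNc
  calc C₁ * ∑ j ∈ range (N + 1), (1 / 2 : ℝ) ^ j * S j
      ≤ C₁ * (2 * (C₃ * (ε / (4 * C₁ * C₃))) + ((N : ℝ) + 1) * (51 * (1 / 2 : ℝ) ^ (N / 4))) :=
        mul_le_mul_of_nonneg_left hsum hC₁.le
    _ = ε / 2 + C₁ * (((N : ℝ) + 1) * (51 * (1 / 2 : ℝ) ^ (N / 4))) := by
        field_simp
        ring
    _ ≤ ε / 2 + C₁ * ((2 * (N : ℝ)) * (51 * (2 * (0.85 : ℝ) ^ N))) := by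
        have h1 : ((N : ℝ) + 1) * (51 * (1 / 2 : ℝ) ^ (N / 4)) ≤
            (2 * (N : ℝ)) * (51 * (2 * (0.85 : ℝ) ^ N)) := by
          refine mul_le_mul (by linarith) (by linarith) (by positivity) (by positivity)
        have := mul_le_mul_of_nonneg_left h1 hC₁.le
        linarith
    _ = ε / 2 + C₁ * 204 * ((N : ℝ) ^ 1 * (0.85 : ℝ) ^ N) := by ring
    _ ≤ ε / 2 + ε / 2 := by linarith
    _ = ε := by ring

end Pool.Agent.C52.RK7
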