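import Pool.Agent.Lib.MP_c52340_c5.Defs
import Pool.Agent.Lib.MP_c52340_c5.B13
import Pool.Agent.Lib.MP_c52340_c5.T5
import Pool.Agent.Lib.MP_c52340_c5.P1


set_option autoImplicit false

open Finset

open Pool.Agent.C52.RB13 (B13)
open Pool.Agent.C52.RT5 (T5)
open Pool.Agent.C52.RP1 (P1)

namespace Pool.Agent.C52.RP6

/-- Row P6.  Power sums without perturbation.  Recipe: P1, T5. -/
theorem P6 (t : ℕ) (ht : 1 ≤ t) (n : ℕ) :
    ∑ c ∈ range (4 ^ n), GG (1 / 4) n ((c : ℝ) / 4 ^ n) ^ t ≤ (1 + 3 * (7 / 8 : ℝ) ^ t) ^ n := by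
  obtain ⟨h1, _, _, h4, _⟩ := B13
  have h0 : ∀ x : ℝ, 0 ≤ gf (1 / 4) x := fun x => h4 (1 / 4) x (by norm_num) (by norm_num)
  have h := P1 (fun _ x => gf (1 / 4) x ^ t) (fun _ => 1 + 3 * (7 / 8 : ℝ) ^ t)
    (fun _ x => pow_nonneg (h0 x) t) (fun _ x => by
      have := h1 (1 / 4) x 1
      push_cast at this
      simp only [this]) (fun _ x => (T5 x t ht).1) n
  rw [Finset.prod_const, card_range] at h
  refine le_trans (le_of_eq ?_) h
  refine Finset.sum_congr rfl fun c _ => ?_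
  unfold GG
  rw [← Finset.prod_pow]
  refine Finset.prod_congr rfl fun i _ => ?_
  simp only [mul_div_assoc]

end Pool.Agent.C52.RP6
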