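import Pool.Agent.Lib.MP_c52340_c5.Defs
import Pool.Agent.Lib.MP_c52340_c5.B12
import Pool.Agent.Lib.MP_c52340_c5.B13
import Pool.Agent.Lib.MP_c52340_c5.P6


set_option autoImplicit false

open Finset

open Pool.Agent.C52.RB12 (B12)
open Pool.Agent.C52.RB13 (B13)
open Pool.Agent.C52.RP6 (P6)

namespace Pool.Agent.C52.RW11

private theorem w11_count (N : ℕ) (hN : 1 ≤ N) (η : ℝ) (hη : 0 ≤ η) (t : ℕ) (ht : 1 ≤ t) :
    ((Ths N η).card : ℝ) * (η ^ N) ^ t ≤ (1 + 3 * (7 / 8 : ℝ) ^ t) ^ N := by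
  have hper : ∀ c : ℤ, GG (1 / 4) N (((c + 4 ^ N : ℤ) : ℝ) / 4 ^ N) ^ t =
      GG (1 / 4) N ((c : ℝ) / 4 ^ N) ^ t := by
    intro c
    have h := B13.2.2.2.2.2.1 (1 / 4) ((c : ℝ) / 4 ^ N) N 1
    rw [← h]
    congr 2
    push_cast
    have h4 : (4 : ℝ) ^ N ≠ 0 := by positivity
    field_simp
  have h1 := B12 N hN (fun c : ℤ => GG (1 / 4) N ((c : ℝ) / 4 ^ N) ^ t) hper
  have h2 := P6 t ht N
  have h3 : ∑ c ∈ range (4 ^ N), GG (1 / 4) N (((c : ℤ) : ℝ) / 4 ^ N) ^ t =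
      ∑ c ∈ range (4 ^ N), GG (1 / 4) N ((c : ℝ) / 4 ^ N) ^ t := by
    refine Finset.sum_congr rfl fun c _ => ?_
    norm_num
  have hsub : Ths N η ⊆ Fr N := by
    intro c hc
    rw [Ths, Finset.mem_filter] at hc
    exact hc.1
  have hnn : ∀ c : ℤ, 0 ≤ GG (1 / 4) N ((c : ℝ) / 4 ^ N) := fun c =>
    B13.2.2.2.2.2.2.2.2.1 (1 / 4) _ N (by norm_num) le_rfl
  have h4 : ∑ c ∈ Ths N η, (η ^ N) ^ t ≤ ∑ c ∈ Ths N η, GG (1 / 4) N ((c : ℝ) / 4 ^ N) ^ t := by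
    refine Finset.sum_le_sum fun c hc => ?_
    rw [Ths, Finset.mem_filter] at hc
    exact pow_le_pow_left₀ (by positivity) hc.2.2.le t
  have h5 : ∑ c ∈ Ths N η, GG (1 / 4) N ((c : ℝ) / 4 ^ N) ^ t ≤
      ∑ c ∈ Fr N, GG (1 / 4) N ((c : ℝ) / 4 ^ N) ^ t :=
    Finset.sum_le_sum_of_subset_of_nonneg hsub fun c _ _ => pow_nonneg (hnn c) t
  rw [Finset.sum_const, nsmul_eq_mul] at h4
  calc _ ≤ _ := h4
    _ ≤ _ := h5
    _ = _ := h1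
    _ = _ := h3
    _ ≤ _ := h2

/-- Row W11.  Few structured frequencies.
Recipe: `card * (η^N)^t ≤ (1 + 3 (7/8)^t)^N` by P6 (and B12); choose `t` with `1 + 3 (7/8)^t ≤ √σ`, then `η₁^(-t) ≤ √σ`. -/
theorem W11 (σ : ℝ) (hσ : 1 < σ) : ∃ η₁ : ℝ, 0 < η₁ ∧ η₁ < 1 ∧ ∀ η : ℝ, η₁ ≤ η → η < 1 → ∀ N : ℕ, 1 ≤ N →
    ((Ths N η).card : ℝ) ≤ σ ^ N := by
  set s := Real.sqrt σ with hs
  have hs1 : 1 < s := by
    rw [hs]
    exact Real.lt_sqrt_of_sq_lt (by linarith)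
  have hs0 : 0 < s := by linarith
  have hss : s * s = σ := Real.mul_self_sqrt (by linarith)
  obtain ⟨n, hn⟩ := exists_pow_lt_of_lt_one (show 0 < (s - 1) / 3 by linarith)
    (show (7 / 8 : ℝ) < 1 by norm_num)
  set t := n + 1 with ht
  have ht1 : 1 ≤ t := by omega
  have hts : 1 + 3 * (7 / 8 : ℝ) ^ t ≤ s := by
    have h1 : (7 / 8 : ℝ) ^ t ≤ (7 / 8 : ℝ) ^ n := by
      rw [ht, pow_succ]
      have : (0 : ℝ) < (7 / 8 : ℝ) ^ n := by positivity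
      linarith
    linarith
  have htpos : (0 : ℝ) < t := by exact_mod_cast ht1
  have htone : (1 : ℝ) ≤ t := by exact_mod_cast ht1
  set d := 1 - s⁻¹ with hd
  have hsi : s⁻¹ < 1 := inv_lt_one_of_one_lt₀ hs1
  have hsi0 : 0 < s⁻¹ := inv_pos.2 hs0
  have hd0 : 0 < d := by rw [hd]; linarith
  have hd1 : d < 1 := by rw [hd]; linarith
  have hdt : d / t ≤ d := div_le_self hd0.le htone
  have hdt0 : 0 < d / t := div_pos hd0 htpos
  refine ⟨1 - d / t, by linarith, by linarith, fun η h1 h2 N hN => ?_⟩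
  have hη0 : 0 < η := by linarith
  have hbern : s⁻¹ ≤ (1 - d / t) ^ t := by
    have h3 := one_add_mul_le_pow (show (-2 : ℝ) ≤ -(d / t) by linarith) t
    have h4 : (t : ℝ) * -(d / t) = -d := by field_simp
    rw [h4] at h3
    calc s⁻¹ = 1 + -d := by rw [hd]; ring
      _ ≤ (1 + -(d / t)) ^ t := h3
      _ = (1 - d / t) ^ t := by rw [sub_eq_add_neg]
  have hηt : s⁻¹ ≤ η ^ t := hbern.trans (pow_le_pow_left₀ (by linarith) h1 t)
  have h5 := w11_count N hN η hη0.le t ht1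
  have h6 : (1 + 3 * (7 / 8 : ℝ) ^ t) ^ N ≤ s ^ N := pow_le_pow_left₀ (by positivity) hts N
  have h7 : (s⁻¹) ^ N ≤ (η ^ N) ^ t := by
    rw [← pow_mul, mul_comm, pow_mul]
    exact pow_le_pow_left₀ hsi0.le hηt N
  have hcard : (0 : ℝ) ≤ (Ths N η).card := Nat.cast_nonneg _
  have h8 : ((Ths N η).card : ℝ) * (s⁻¹) ^ N ≤ s ^ N :=
    (mul_le_mul_of_nonneg_left h7 hcard).trans (h5.trans h6)
  have h9 : (s⁻¹) ^ N * s ^ N = 1 := by
    rw [← mul_pow, inv_mul_cancel₀ hs0.ne', one_pow]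
  calc ((Ths N η).card : ℝ) = ((Ths N η).card : ℝ) * (s⁻¹) ^ N * s ^ N := by
        rw [mul_assoc, h9, mul_one]
    _ ≤ s ^ N * s ^ N := mul_le_mul_of_nonneg_right h8 (by positivity)
    _ = σ ^ N := by rw [← mul_pow, hss]

end Pool.Agent.C52.RW11
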