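import Pool.Agent.Lib.MP_c52340_c5.DefsS
import Pool.Agent.Lib.MP_c52340_c5.W11
import Pool.Agent.Lib.MP_c52340_c5.K7
import Pool.Agent.Lib.MP_c52340_c5.E1
import Pool.Agent.Lib.MP_c52340_c5.E6


set_option autoImplicit false

open Finset

open Pool.Agent.C52.RW11 (W11)
open Pool.Agent.C52.RK7 (K7)
open Pool.Agent.C52.RE1 (E1)
open Pool.Agent.C52.RE6 (E6)

namespace Pool.Agent.C52.RE7

private lemma E7_s : (1.00006 : ℝ) ^ 10000 ≤ 1.9 := by
  have h1 : (1.00006 : ℝ) ≤ Real.exp 0.00006 := by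
    have := Real.add_one_le_exp (0.00006 : ℝ)
    linarith
  have h2 : (1.00006 : ℝ) ^ 10000 ≤ Real.exp 0.6 := by
    calc (1.00006 : ℝ) ^ 10000 ≤ (Real.exp 0.00006) ^ 10000 :=
          pow_le_pow_left₀ (by norm_num) h1 _
      _ = Real.exp 0.6 := by
          rw [← Real.exp_nat_mul]
          norm_num
  have h3 : Real.exp 0.6 ^ 5 ≤ (1.9 : ℝ) ^ 5 := by
    rw [← Real.exp_nat_mul]
    have e1 : ((5 : ℕ) : ℝ) * 0.6 = ((3 : ℕ) : ℝ) * 1 := by norm_num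
    rw [e1, Real.exp_nat_mul]
    have h4 : Real.exp 1 ≤ 2.7182818286 := Real.exp_one_lt_d9.le
    calc Real.exp 1 ^ 3 ≤ (2.7182818286 : ℝ) ^ 3 := pow_le_pow_left₀ (Real.exp_pos 1).le h4 _
      _ ≤ (1.9 : ℝ) ^ 5 := by norm_num
  have h5 : Real.exp 0.6 ≤ 1.9 := le_of_pow_le_pow_left₀ (by norm_num) (by norm_num) h3
  exact h2.trans h5

private lemma E7_lim (C ε : ℝ) (hC : 0 < C) (hε : 0 < ε) : ∃ N₂ : ℕ, ∀ N ≥ N₂,
    C * ((N : ℝ) + 1) ^ 2 * (1.00006 : ℝ) ^ N * ((qq / 2) ^ (N / 10000) + qq ^ N) ≤ ε := by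
  have hs0 : (0 : ℝ) < (1.00006 : ℝ) ^ 10000 := by positivity
  have hs := E7_s
  set s : ℝ := (1.00006 : ℝ) ^ 10000 with hsdef
  have hq : qq = 9969 / 10000 := rfl
  have hq0 : 0 < qq := by rw [hq]; norm_num
  set a : ℝ := s * (qq / 2) with ha
  have ha0 : 0 ≤ a := by positivity
  have ha1 : a < 1 := by
    rw [ha, hq]
    nlinarith
  set b : ℝ := 1.00006 * qq with hb
  have hb0 : 0 < b := by positivity
  have hb1 : b < 1 := by rw [hb, hq]; norm_num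
  have key : ∀ r : ℝ, 0 ≤ r → r < 1 →
      Filter.Tendsto (fun n : ℕ => ((n : ℝ) + 1) ^ 2 * r ^ n) Filter.atTop (nhds 0) := by
    intro r hr0 hr1
    have h2 := tendsto_pow_const_mul_const_pow_of_abs_lt_one 2 (by rwa [abs_of_nonneg hr0] : |r| < 1)
    have h1 := tendsto_pow_const_mul_const_pow_of_abs_lt_one 1 (by rwa [abs_of_nonneg hr0] : |r| < 1)
    have h0 := tendsto_pow_const_mul_const_pow_of_abs_lt_one 0 (by rwa [abs_of_nonneg hr0] : |r| < 1)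
    have h3 := (h2.add (h1.const_mul 2)).add h0
    simp only [add_zero, mul_zero] at h3
    refine h3.congr ?_
    intro n
    ring
  have hA : Filter.Tendsto (fun N : ℕ => C * (10000 ^ 2 * s) *
      ((((N / 10000 : ℕ) : ℝ) + 1) ^ 2 * a ^ (N / 10000))) Filter.atTop (nhds 0) := by
    have h1 : Filter.Tendsto (fun N : ℕ => N / 10000) Filter.atTop Filter.atTop :=
      Nat.tendsto_div_const_atTop (by norm_num)
    have h2 := ((key a ha0 ha1).comp h1).const_mul (C * (10000 ^ 2 * s))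
    simpa using h2
  have hB : Filter.Tendsto (fun N : ℕ => C * (((N : ℝ) + 1) ^ 2 * b ^ N)) Filter.atTop (nhds 0) := by
    have h2 := (key b hb0.le hb1).const_mul C
    simpa using h2
  have hAB := hA.add hB
  rw [add_zero] at hAB
  have hev := hAB.eventually (ge_mem_nhds hε)
  obtain ⟨N₂, hN₂⟩ := Filter.eventually_atTop.1 hev
  refine ⟨N₂, ?_⟩
  intro N hN
  refine le_trans ?_ (hN₂ N hN)
  set g := N / 10000 with hg
  have hNg : N < 10000 * (g + 1) := by omega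
  have hNg2 : 10000 * g ≤ N := by omega
  have h1 : (1.00006 : ℝ) ^ N ≤ s * s ^ g := by
    have e1 : s * s ^ g = (1.00006 : ℝ) ^ (10000 * (g + 1)) := by
      rw [hsdef, ← pow_mul, ← pow_add]
      congr 1; ring
    rw [e1]
    exact pow_le_pow_right₀ (by norm_num) hNg.le
  have h2 : ((N : ℝ) + 1) ≤ 10000 * ((g : ℝ) + 1) := by
    have : N + 1 ≤ 10000 * (g + 1) := by omega
    exact_mod_cast this
  have h3 : ((N : ℝ) + 1) ^ 2 ≤ (10000 * ((g : ℝ) + 1)) ^ 2 := pow_le_pow_left₀ (by positivity) h2 2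
  have hpart1 : C * ((N : ℝ) + 1) ^ 2 * (1.00006 : ℝ) ^ N * (qq / 2) ^ g ≤
      C * (10000 ^ 2 * s) * (((g : ℝ) + 1) ^ 2 * a ^ g) := by
    calc C * ((N : ℝ) + 1) ^ 2 * (1.00006 : ℝ) ^ N * (qq / 2) ^ g
        ≤ C * (10000 * ((g : ℝ) + 1)) ^ 2 * (s * s ^ g) * (qq / 2) ^ g := by gcongr
      _ = C * (10000 ^ 2 * s) * (((g : ℝ) + 1) ^ 2 * a ^ g) := by
          rw [ha, mul_pow s (qq / 2) g]; ring
  have hpart2 : C * ((N : ℝ) + 1) ^ 2 * (1.00006 : ℝ) ^ N * qq ^ N = C * (((N : ℝ) + 1) ^ 2 * b ^ N) := by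
    rw [hb, mul_pow]; ring
  rw [mul_add, hpart2]
  linarith

/-- Row E7.  The structured frequencies, on average over `k`: the total tends to zero.
Recipe: W11 with `σ = 1.00006` gives `η₀`.  E6 with `g = N/10000`: first part at most `card (Ths) * C (N+1)^2 ((qq/2)^g + qq^N)`, tends to `0` since
`1.00006 < (2/qq)^(1/10000)` and `1.00006 * qq < 1`; second part (enlarge `Ths` to `Fr N`): `C` times the sum of K7. -/
theorem E7 : ∃ η₀ : ℝ, 0 < η₀ ∧ η₀ < 1 ∧ ∀ η : ℝ, η₀ ≤ η → η < 1 → ∀ ε : ℝ, 0 < ε → ∃ N₀ : ℕ, ∀ N ≥ N₀,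
    ∑ k ∈ Odds N, ∑ c ∈ Ths N η \ Low N (N / 10000), wt N c * zR N k c ≤ ε * 4 ^ N := by
  obtain ⟨η₁, h0, h1, hW⟩ := W11 (1.00006) (by norm_num)
  obtain ⟨C, hC, hE6⟩ := E6
  refine ⟨η₁, h0, h1, ?_⟩
  intro η hη hη1 ε hε
  obtain ⟨N₁, hN₁⟩ := K7 (ε / (2 * C)) (by positivity)
  obtain ⟨N₂, hN₂⟩ := E7_lim C (ε / 2) hC (by positivity)
  refine ⟨max (max N₁ N₂) 1, ?_⟩
  intro N hN
  have hNpos : 1 ≤ N := le_trans (le_max_right _ _) hN
  have hNN₁ : N₁ ≤ N := le_trans (le_trans (le_max_left _ _) (le_max_left _ _)) hN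
  have hNN₂ : N₂ ≤ N := le_trans (le_trans (le_max_right _ _) (le_max_left _ _)) hN
  have hcard := hW η hη hη1 N hNpos
  have hK := hN₁ N hNN₁
  have hL := hN₂ N hNN₂
  set g := N / 10000 with hg
  have hgN : g ≤ N := Nat.div_le_self _ _
  obtain ⟨-, -, -, hwt⟩ := E1
  have hqq0 : (0 : ℝ) < qq := by unfold qq; norm_num
  set H : ℤ → ℝ := fun c =>
    ∑ i ∈ range g, (qq / 2) ^ i * ∑ p ∈ Fd i, 1 / (1 + |4 ^ N * ((p.1 : ℝ) / (p.2 : ℝ)) - c|) with hH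
  have hH0 : ∀ c, 0 ≤ H c := by
    intro c
    refine sum_nonneg fun i _ => mul_nonneg (by positivity) (sum_nonneg fun p _ => by positivity)
  set T : ℝ := ((N : ℝ) + 1) ^ 2 * ((qq / 2) ^ g + qq ^ N) with hT
  have hT0 : 0 ≤ T := by positivity
  have hsub : Ths N η \ Low N g ⊆ Fr N := by
    intro c hc
    have := (mem_sdiff.1 hc).1
    exact (mem_filter.1 this).1
  have hbound : ∀ c ∈ Ths N η \ Low N g, ∑ k ∈ Odds N, zR N k c ≤ C * 4 ^ N * (T + H c) := by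
    intro c hc
    obtain ⟨hc1, hc2⟩ := mem_sdiff.1 hc
    obtain ⟨hc3, hc4, -⟩ := mem_filter.1 hc1
    exact hE6 N g c hNpos hgN hc3 hc4 hc2
  have hsumH : ∑ c ∈ Fr N, wt N c * H c =
      ∑ i ∈ range g, (qq / 2) ^ i * ∑ p ∈ Fd i, Hw N ((p.1 : ℝ) / (p.2 : ℝ)) := by
    simp only [hH, Hw]
    calc ∑ c ∈ Fr N, wt N c * ∑ i ∈ range g, (qq / 2) ^ i * ∑ p ∈ Fd i,
          1 / (1 + |4 ^ N * ((p.1 : ℝ) / (p.2 : ℝ)) - (c : ℝ)|)
        = ∑ c ∈ Fr N, ∑ i ∈ range g, (qq / 2) ^ i * ∑ p ∈ Fd i,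
            wt N c / (1 + |4 ^ N * ((p.1 : ℝ) / (p.2 : ℝ)) - (c : ℝ)|) := by
          refine sum_congr rfl fun c _ => ?_
          rw [mul_sum]
          refine sum_congr rfl fun i _ => ?_
          rw [mul_left_comm, mul_sum]
          congr 1
          refine sum_congr rfl fun p _ => ?_
          rw [mul_one_div]
      _ = ∑ i ∈ range g, ∑ c ∈ Fr N, (qq / 2) ^ i * ∑ p ∈ Fd i,
            wt N c / (1 + |4 ^ N * ((p.1 : ℝ) / (p.2 : ℝ)) - (c : ℝ)|) := sum_comm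
      _ = ∑ i ∈ range g, (qq / 2) ^ i * ∑ p ∈ Fd i, ∑ c ∈ Fr N,
            wt N c / (1 + |4 ^ N * ((p.1 : ℝ) / (p.2 : ℝ)) - (c : ℝ)|) := by
          refine sum_congr rfl fun i _ => ?_
          rw [← mul_sum, sum_comm]
  rw [sum_comm]
  have hstep1 : ∑ c ∈ Ths N η \ Low N g, ∑ k ∈ Odds N, wt N c * zR N k c ≤
      ∑ c ∈ Ths N η \ Low N g, (C * 4 ^ N * T + C * 4 ^ N * (wt N c * H c)) := by
    refine sum_le_sum fun c hc => ?_
    rw [← mul_sum]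
    have hb := hbound c hc
    have hw0 := (hwt N c).1
    have hw1 := (hwt N c).2
    calc wt N c * ∑ k ∈ Odds N, zR N k c ≤ wt N c * (C * 4 ^ N * (T + H c)) :=
          mul_le_mul_of_nonneg_left hb hw0
      _ = wt N c * (C * 4 ^ N * T) + C * 4 ^ N * (wt N c * H c) := by ring
      _ ≤ C * 4 ^ N * T + C * 4 ^ N * (wt N c * H c) := by
          have : wt N c * (C * 4 ^ N * T) ≤ C * 4 ^ N * T :=
            mul_le_of_le_one_left (by positivity) hw1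
          linarith
  have hstep2 : ∑ c ∈ Ths N η \ Low N g, (C * 4 ^ N * T + C * 4 ^ N * (wt N c * H c)) ≤
      (1.00006 : ℝ) ^ N * (C * 4 ^ N * T) + C * 4 ^ N * (ε / (2 * C)) := by
    rw [sum_add_distrib, sum_const, nsmul_eq_mul, ← mul_sum]
    have hc1 : ((Ths N η \ Low N g).card : ℝ) ≤ (1.00006 : ℝ) ^ N := by
      refine le_trans ?_ hcard
      exact_mod_cast card_le_card sdiff_subset
    have hc2 : ∑ c ∈ Ths N η \ Low N g, wt N c * H c ≤ ε / (2 * C) := by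
      refine le_trans ?_ hK
      rw [← hsumH]
      exact sum_le_sum_of_subset_of_nonneg hsub fun c _ _ => mul_nonneg (hwt N c).1 (hH0 c)
    gcongr
  have hfin : (1.00006 : ℝ) ^ N * (C * 4 ^ N * T) + C * 4 ^ N * (ε / (2 * C)) ≤ ε * 4 ^ N := by
    have e1 : C * 4 ^ N * (ε / (2 * C)) = ε / 2 * 4 ^ N := by
      field_simp
    have e2 : (1.00006 : ℝ) ^ N * (C * 4 ^ N * T) =
        (C * ((N : ℝ) + 1) ^ 2 * (1.00006 : ℝ) ^ N * ((qq / 2) ^ g + qq ^ N)) * 4 ^ N := by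
      rw [hT]; ring
    rw [e1, e2]
    have h4 : (0 : ℝ) < 4 ^ N := by positivity
    have := mul_le_mul_of_nonneg_right hL h4.le
    linarith
  exact (hstep1.trans hstep2).trans hfin

end Pool.Agent.C52.RE7
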