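import Pool.Agent.Lib.MP_c52340_c5.Defs
import Pool.Agent.Lib.MP_c52340_c5.B3
import Pool.Agent.Lib.MP_c52340_c5.B5
import Pool.Agent.Lib.MP_c52340_c5.B6


set_option autoImplicit false

open Finset

open Pool.Agent.C52.RB3 (B3)
open Pool.Agent.C52.RB5 (B5)
open Pool.Agent.C52.RB6 (B6)

namespace Pool.Agent.C52.RG1

private theorem g1_Lset_one : Lset 1 = dig := by
  unfold Lset Lset dig
  decide

private theorem g1_wG_one (t : ℤ) (ht : t ∈ dig) : wG (1 / 4) 1 t = pg (1 / 4) t := by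
  have h0 : wG (1 / 4) 1 t = wG (1 / 4) (0 + 1) (4 * 0 + t) := by rw [mul_zero, zero_add, zero_add]
  rw [h0, B3 (1 / 4) 0 0 t ht]
  unfold wG
  rw [if_pos rfl, mul_one]

private theorem g1_term (h : ℕ) (F : ℤ → ℝ) (A u : ℤ) (c d : ℝ) :
    (if (4 : ℤ) ^ h ∣ A then c * (if (4 : ℤ) ∣ A / 4 ^ h + u then d * F ((A / 4 ^ h + u) / 4) else 0) else 0) =
      if (4 : ℤ) ^ (1 + h) ∣ A + 4 ^ h * u then c * d * F ((A + 4 ^ h * u) / 4 ^ (1 + h)) else 0 := by
  have h4 : (4 : ℤ) ^ h ≠ 0 := by positivity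
  by_cases hA : (4 : ℤ) ^ h ∣ A
  · obtain ⟨v, rfl⟩ := hA
    rw [if_pos (Dvd.intro _ rfl), Int.mul_ediv_cancel_left _ h4]
    have e1 : (4 : ℤ) ^ h * v + 4 ^ h * u = 4 ^ h * (v + u) := by ring
    have e2 : (4 : ℤ) ^ (1 + h) = 4 ^ h * 4 := by rw [pow_add, pow_one, mul_comm]
    rw [e1, e2]
    by_cases h5 : (4 : ℤ) ∣ v + u
    · rw [if_pos h5, if_pos (mul_dvd_mul_left _ h5), Int.mul_ediv_mul_of_pos _ _ (by positivity), mul_assoc]
    · rw [if_neg h5, if_neg, mul_zero]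
      intro h6
      exact h5 ((mul_dvd_mul_iff_left h4).1 h6)
  · rw [if_neg hA, if_neg]
    intro h5
    apply hA
    have h6 : (4 : ℤ) ^ h ∣ A + 4 ^ h * u := dvd_trans (pow_dvd_pow 4 (by omega)) h5
    exact (dvd_add_left (Dvd.intro _ rfl)).1 h6

/-- Row G1.  The iterates of the digit step.
Recipe: induction on `h` (`Function.iterate_succ`: `(Gop k)^[h+1] F = (Gop k)^[h] (Gop k F)`), the new digit is the TOP digit:
B5, B6 with `a = 1`, `b = h` (`Lset 1 = dig`, `wG (1/4) 1 t = pg (1/4) t`); `4^h ∣ z + k m - y` and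
`4 ∣ (z + k m - y)/4^h + k x - t` iff `4^(h+1) ∣ z + k (4^h x + m) - (4^h t + y)`. -/
theorem G1 (k : ℤ) (h : ℕ) (F : ℤ → ℝ) (z : ℤ) :
    (Gop k)^[h] F z = ∑ m ∈ Lset h, ∑ y ∈ Lset h,
      if (4 : ℤ) ^ h ∣ z + k * m - y then
        (4 / 3 : ℝ) ^ h * wG (1 / 4) h y * F ((z + k * m - y) / 4 ^ h) else 0 := by
  induction h generalizing F z with
  | zero =>
    simp [Lset, wG]
  | succ h ih =>
    rw [Function.iterate_succ_apply, ih (Gop k F) z]
    -- the right side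
    have hR : ∀ G : ℤ → ℤ → ℝ, ∑ m ∈ Lset (h + 1), ∑ y ∈ Lset (h + 1), G m y =
        ∑ m ∈ Lset h, ∑ y ∈ Lset h, ∑ x ∈ dig, ∑ t ∈ dig, G (4 ^ h * x + m) (4 ^ h * t + y) := by
      intro G
      rw [add_comm h 1, B5 1 h, g1_Lset_one, sum_comm]
      refine sum_congr rfl fun m _ => ?_
      have e : ∀ x ∈ dig, ∑ y ∈ Lset (1 + h), G (4 ^ h * x + m) y =
          ∑ y ∈ Lset h, ∑ t ∈ dig, G (4 ^ h * x + m) (4 ^ h * t + y) := by
        intro x _
        rw [B5 1 h, g1_Lset_one, sum_comm]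
      rw [sum_congr rfl e, sum_comm]
    rw [hR]
    refine sum_congr rfl fun m hm => sum_congr rfl fun y hy => ?_
    -- the left side
    have hL : (if (4 : ℤ) ^ h ∣ z + k * m - y then
        (4 / 3 : ℝ) ^ h * wG (1 / 4) h y * Gop k F ((z + k * m - y) / 4 ^ h) else 0) =
        ∑ x ∈ dig, ∑ t ∈ dig, if (4 : ℤ) ^ h ∣ z + k * m - y then
          (4 / 3 : ℝ) ^ h * wG (1 / 4) h y *
            (if (4 : ℤ) ∣ (z + k * m - y) / 4 ^ h + (k * x - t) then
              (4 / 3 * pg (1 / 4) t) * F (((z + k * m - y) / 4 ^ h + (k * x - t)) / 4) else 0) else 0 := by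
      split_ifs with hd
      · unfold Gop
        rw [mul_sum]
        refine sum_congr rfl fun x _ => ?_
        rw [mul_sum]
        refine sum_congr rfl fun t _ => ?_
        rw [add_sub_assoc]
      · simp
    rw [hL]
    refine sum_congr rfl fun x _ => sum_congr rfl fun t ht => ?_
    rw [g1_term h F (z + k * m - y) (k * x - t)]
    have e1 : z + k * m - y + 4 ^ h * (k * x - t) = z + k * (4 ^ h * x + m) - (4 ^ h * t + y) := by ring
    rw [e1, add_comm h 1, B6 (1 / 4) 1 h t y hy, g1_wG_one t ht, pow_add, pow_one]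
    split_ifs with hd
    · ring
    · rfl

end Pool.Agent.C52.RG1
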