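import Pool.Agent.Lib.MP_c52340_c5.Defs


set_option autoImplicit false

open Finset


namespace Pool.Agent.C52.RG10

private theorem G10_top {j : ℕ} : ∀ {m₀ x : ℤ}, m₀ ∈ Lset j → x ∈ dig →
    m₀ + 4 ^ j * x ∈ Lset (j + 1) := by
  induction j with
  | zero =>
    intro m₀ x hm hx
    have h0 : m₀ = 0 := by
      have : m₀ ∈ ({0} : Finset ℤ) := hm
      simpa using this
    subst h0
    show _ ∈ (Lset 0 ×ˢ dig).image (fun p => 4 * p.1 + p.2)
    refine Finset.mem_image.2 ⟨(0, x), Finset.mem_product.2 ⟨?_, hx⟩, ?_⟩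
    · show (0 : ℤ) ∈ ({0} : Finset ℤ)
      simp
    · simp
  | succ j ih =>
    intro m₀ x hm hx
    have hm' : m₀ ∈ (Lset j ×ˢ dig).image (fun p => 4 * p.1 + p.2) := hm
    obtain ⟨⟨a, t⟩, hat, rfl⟩ := Finset.mem_image.1 hm'
    obtain ⟨ha, ht⟩ := Finset.mem_product.1 hat
    have h := ih ha hx
    show _ ∈ (Lset (j + 1) ×ˢ dig).image (fun p => 4 * p.1 + p.2)
    refine Finset.mem_image.2 ⟨(a + 4 ^ j * x, t), Finset.mem_product.2 ⟨h, ht⟩, ?_⟩
    simp only
    ring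

/-- the digit of an integer -/
private def G10_dg (w : ℤ) : ℤ := if w % 4 = 3 then -1 else if w % 4 = 1 then 1 else 0

private theorem G10_dg_mem (w : ℤ) : G10_dg w ∈ dig := by
  unfold G10_dg
  split_ifs <;> decide

private theorem G10_dg_dvd (w : ℤ) (h : w % 4 ≠ 2) : (4 : ℤ) ∣ w - G10_dg w := by
  unfold G10_dg
  split_ifs with h1 h2
  · omega
  · omega
  · omega

private theorem G10_dg_congr (w w' : ℤ) (h : w % 4 = w' % 4) : G10_dg w = G10_dg w' := by
  unfold G10_dg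
  rw [h]

/-- the digit of `m` in the state `z` at time `j` -/
private def G10_x (j : ℕ) (z : ℤ) : ℤ := if j = 0 then 1 else if z % 4 = 2 then 1 else 0

private theorem G10_x_mem (j : ℕ) (z : ℤ) : G10_x j z ∈ dig := by
  unfold G10_x
  split_ifs <;> decide

/-- the path: `(m, y, z)` -/
private def G10_st (k : ℤ) : ℕ → ℤ × ℤ × ℤ
  | 0 => (0, 0, 0)
  | j + 1 => ((G10_st k j).1 + 4 ^ j * G10_x j (G10_st k j).2.2,
      (G10_st k j).2.1 + 4 ^ j * G10_dg ((G10_st k j).2.2 + k * G10_x j (G10_st k j).2.2),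
      ((G10_st k j).2.2 + k * G10_x j (G10_st k j).2.2 -
        G10_dg ((G10_st k j).2.2 + k * G10_x j (G10_st k j).2.2)) / 4)

private theorem G10_step (k : ℤ) (hk : Odd k) (j : ℕ) (z : ℤ) (hz : j = 0 → z = 0) :
    (z + k * G10_x j z) % 4 ≠ 2 := by
  unfold G10_x
  obtain ⟨a, rfl⟩ := hk
  by_cases hj : j = 0
  · rw [if_pos hj, hz hj]; omega
  · rw [if_neg hj]
    by_cases h2 : z % 4 = 2
    · rw [if_pos h2]; omega
    · rw [if_neg h2, mul_zero, add_zero]; exact h2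

private theorem G10_eq (k : ℤ) (hk : Odd k) (j : ℕ) :
    4 ^ j * (G10_st k j).2.2 = k * (G10_st k j).1 - (G10_st k j).2.1 := by
  induction j with
  | zero => simp [G10_st]
  | succ j ih =>
    have h1 := G10_dg_dvd _ (G10_step k hk j (G10_st k j).2.2 (by rintro rfl; rfl))
    obtain ⟨c, hc⟩ := h1
    simp only [G10_st]
    rw [hc, Int.mul_ediv_cancel_left _ (by norm_num), pow_succ]
    have : (4 : ℤ) ^ j * 4 * c = 4 ^ j * (4 * c) := by ring
    rw [this, ← hc]
    linear_combination ih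

private theorem G10_mem (k : ℤ) (j : ℕ) :
    (G10_st k j).1 ∈ Lset j ∧ (G10_st k j).2.1 ∈ Lset j := by
  induction j with
  | zero =>
    constructor
    · show (0 : ℤ) ∈ ({0} : Finset ℤ)
      simp
    · show (0 : ℤ) ∈ ({0} : Finset ℤ)
      simp
  | succ j ih =>
    exact ⟨G10_top ih.1 (G10_x_mem _ _), G10_top ih.2 (G10_dg_mem _)⟩

private theorem G10_odd (k : ℤ) (j : ℕ) : Odd (G10_st k (j + 1)).1 := by
  induction j with
  | zero =>
    simp [G10_st, G10_x]
  | succ j ih =>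
    have e : (G10_st k (j + 1 + 1)).1 =
        (G10_st k (j + 1)).1 + 4 ^ (j + 1) * G10_x (j + 1) (G10_st k (j + 1)).2.2 := rfl
    rw [e]
    apply Odd.add_even ih
    apply Even.mul_right
    exact (by decide : Even (4 : ℤ)).pow_of_ne_zero (by omega)

private theorem G10_congr (k : ℤ) (hk : Odd k) (j : ℕ) : ∀ t : ℤ, Odd (k + 4 ^ j * t) →
    (G10_st (k + 4 ^ j * t) j).1 = (G10_st k j).1 ∧
    (G10_st (k + 4 ^ j * t) j).2.1 = (G10_st k j).2.1 ∧
    (G10_st (k + 4 ^ j * t) j).2.2 = (G10_st k j).2.2 + (G10_st k j).1 * t := by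
  induction j with
  | zero => intro t _; simp [G10_st]
  | succ j ih =>
    intro t ht
    have e0 : k + 4 ^ (j + 1) * t = k + 4 ^ j * (4 * t) := by ring
    have ho : Odd (k + 4 ^ j * (4 * t)) := by rw [← e0]; exact ht
    obtain ⟨i1, i2, i3⟩ := ih (4 * t) ho
    have hx : G10_x j (G10_st (k + 4 ^ (j + 1) * t) j).2.2 = G10_x j (G10_st k j).2.2 := by
      rw [e0, i3]
      unfold G10_x
      have : ((G10_st k j).2.2 + (G10_st k j).1 * (4 * t)) % 4 = (G10_st k j).2.2 % 4 := by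
        have e : (G10_st k j).2.2 + (G10_st k j).1 * (4 * t) =
          (G10_st k j).2.2 + 4 * ((G10_st k j).1 * t) := by ring
        rw [e]; omega
      rw [this]
    have hd : G10_dg ((G10_st (k + 4 ^ (j + 1) * t) j).2.2 +
        (k + 4 ^ (j + 1) * t) * G10_x j (G10_st (k + 4 ^ (j + 1) * t) j).2.2) =
        G10_dg ((G10_st k j).2.2 + k * G10_x j (G10_st k j).2.2) := by
      apply G10_dg_congr
      rw [hx]
      rw [e0, i3]
      have e : (G10_st k j).2.2 + (G10_st k j).1 * (4 * t) +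
          (k + 4 ^ j * (4 * t)) * G10_x j (G10_st k j).2.2 =
        ((G10_st k j).2.2 + k * G10_x j (G10_st k j).2.2) +
          4 * ((G10_st k j).1 * t + 4 ^ j * t * G10_x j (G10_st k j).2.2) := by ring
      rw [e]; omega
    have r1 : (G10_st (k + 4 ^ (j + 1) * t) (j + 1)).1 = (G10_st k (j + 1)).1 := by
      show (G10_st (k + 4 ^ (j + 1) * t) j).1 +
        4 ^ j * G10_x j (G10_st (k + 4 ^ (j + 1) * t) j).2.2 =
        (G10_st k j).1 + 4 ^ j * G10_x j (G10_st k j).2.2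
      rw [hx]
      rw [e0, i1]
    have r2 : (G10_st (k + 4 ^ (j + 1) * t) (j + 1)).2.1 = (G10_st k (j + 1)).2.1 := by
      show (G10_st (k + 4 ^ (j + 1) * t) j).2.1 +
        4 ^ j * G10_dg ((G10_st (k + 4 ^ (j + 1) * t) j).2.2 +
          (k + 4 ^ (j + 1) * t) * G10_x j (G10_st (k + 4 ^ (j + 1) * t) j).2.2) =
        (G10_st k j).2.1 + 4 ^ j * G10_dg ((G10_st k j).2.2 + k * G10_x j (G10_st k j).2.2)
      rw [hd]
      rw [e0, i2]
    refine ⟨r1, r2, ?_⟩
    have q1 := G10_eq k hk (j + 1)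
    have q2 := G10_eq (k + 4 ^ (j + 1) * t) ht (j + 1)
    rw [r1, r2] at q2
    have q3 : (4 : ℤ) ^ (j + 1) * (G10_st (k + 4 ^ (j + 1) * t) (j + 1)).2.2 =
        4 ^ (j + 1) * ((G10_st k (j + 1)).2.2 + (G10_st k (j + 1)).1 * t) := by
      rw [q2, mul_add, q1]; ring
    exact mul_left_cancel₀ (by positivity) q3

/-- the bad residues modulo `4 ^ ((i + 1) l)` -/
private noncomputable def G10_S (l : ℕ) (zs : ℤ → ℤ) (i : ℕ) : Finset ℤ := by
  classical exact (Ico (0 : ℤ) (4 ^ ((i + 1) * l))).filter (fun k => Odd k ∧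
    ∀ i' : ℕ, 1 ≤ i' → i' ≤ i → ¬ (4 : ℤ) ^ l ∣ (G10_st k (i' * l)).2.2 - zs k)

private theorem G10_zs {l : ℕ} {zs : ℤ → ℤ} (hz : ∀ k j : ℤ, zs (k + 4 ^ l * j) = zs k)
    (k t : ℤ) (i : ℕ) : zs (k + 4 ^ ((i + 1) * l) * t) = zs k := by
  have e : (4 : ℤ) ^ ((i + 1) * l) = 4 ^ l * 4 ^ (i * l) := by
    rw [← pow_add]; congr 1; ring
  rw [e, mul_assoc]
  exact hz _ _

/-- the condition at the times `i' ≤ i` only depends on the residue modulo `4 ^ ((i + 1) l)` -/
private theorem G10_transfer {l : ℕ} {zs : ℤ → ℤ} (hl : 1 ≤ l)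
    (hz : ∀ k j : ℤ, zs (k + 4 ^ l * j) = zs k) (k₀ t : ℤ) (hk : Odd k₀) (i i' : ℕ) (hi : i' ≤ i)
    (h : ¬ (4 : ℤ) ^ l ∣ (G10_st (k₀ + 4 ^ ((i + 1) * l) * t) (i' * l)).2.2 -
      zs (k₀ + 4 ^ ((i + 1) * l) * t)) :
    ¬ (4 : ℤ) ^ l ∣ (G10_st k₀ (i' * l)).2.2 - zs k₀ := by
  rw [G10_zs hz] at h
  obtain ⟨c, rfl⟩ : ∃ c, i = i' + c := ⟨i - i', by omega⟩
  have e : k₀ + 4 ^ ((i' + c + 1) * l) * t = k₀ + 4 ^ (i' * l) * (4 ^ l * (4 ^ (c * l) * t)) := by
    have : (4 : ℤ) ^ ((i' + c + 1) * l) = 4 ^ (i' * l) * (4 ^ l * 4 ^ (c * l)) := by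
      rw [← pow_add, ← pow_add]; congr 1; ring
    rw [this]; ring
  have ho : Odd (k₀ + 4 ^ (i' * l) * (4 ^ l * (4 ^ (c * l) * t))) := by
    apply Odd.add_even hk
    apply Even.mul_left
    apply Even.mul_right
    exact (by decide : Even (4 : ℤ)).pow_of_ne_zero (by omega)
  have h3 := (G10_congr k₀ hk (i' * l) _ ho).2.2
  rw [e, h3] at h
  intro hd
  apply h
  have e2 : (G10_st k₀ (i' * l)).2.2 + (G10_st k₀ (i' * l)).1 * (4 ^ l * (4 ^ (c * l) * t)) -
      zs k₀ = ((G10_st k₀ (i' * l)).2.2 - zs k₀) +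
        4 ^ l * ((G10_st k₀ (i' * l)).1 * (4 ^ (c * l) * t)) := by ring
  rw [e2]
  exact dvd_add hd (Dvd.intro _ rfl)

private theorem G10_odd_mod {k : ℤ} (hk : Odd k) {n : ℕ} (hn : n ≠ 0) : Odd (k % 4 ^ n) := by
  have h1 : k % 4 ^ n = k - 4 ^ n * (k / 4 ^ n) := by
    have := Int.emod_add_mul_ediv k (4 ^ n)
    linarith
  rw [h1]
  apply Odd.sub_even hk
  apply Even.mul_right
  exact (by decide : Even (4 : ℤ)).pow_of_ne_zero hn

private theorem G10_card (l : ℕ) (hl : 1 ≤ l) (zs : ℤ → ℤ)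
    (hz : ∀ k j : ℤ, zs (k + 4 ^ l * j) = zs k) (i : ℕ) :
    (G10_S l zs i).card ≤ (4 ^ l - 1) ^ i * 4 ^ l := by
  classical
  induction i with
  | zero =>
    unfold G10_S
    refine le_trans (Finset.card_filter_le _ _) ?_
    rw [Int.card_Ico, pow_zero, one_mul, zero_add, one_mul, sub_zero]
    have : ((4 : ℤ) ^ l) = ((4 ^ l : ℕ) : ℤ) := by push_cast; ring
    rw [this, Int.toNat_natCast]
  | succ i ih =>
    -- the good pairs
    let M : ℤ := 4 ^ ((i + 1) * l)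
    have hM : 0 < M := by positivity
    let T : ℤ → Finset ℤ := fun k₀ => (Ico (0 : ℤ) (4 ^ l)).filter
      (fun t => ¬ (4 : ℤ) ^ l ∣ (G10_st k₀ ((i + 1) * l)).2.2 +
        (G10_st k₀ ((i + 1) * l)).1 * t - zs k₀)
    have hT : ∀ k₀, (T k₀).card ≤ 4 ^ l - 1 := by
      intro k₀
      obtain ⟨j, hj⟩ : ∃ j, (i + 1) * l = j + 1 := ⟨(i + 1) * l - 1, by
        have : 1 ≤ (i + 1) * l := Nat.mul_pos (by omega) hl
        omega⟩
      have hodd : Odd (G10_st k₀ ((i + 1) * l)).1 := by rw [hj]; exact G10_odd k₀ j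
      have hcop : IsCoprime (G10_st k₀ ((i + 1) * l)).1 ((4 : ℤ) ^ l) := by
        apply IsCoprime.pow_right
        have h2 : IsCoprime (G10_st k₀ ((i + 1) * l)).1 (2 : ℤ) := by
          obtain ⟨c, hc⟩ := hodd
          rw [hc]
          exact ⟨1, -c, by ring⟩
        have : (4 : ℤ) = 2 ^ 2 := by norm_num
        rw [this]
        exact h2.pow_right
      obtain ⟨u, v, huv⟩ := hcop
      -- a solution
      let t₀ : ℤ := (u * (zs k₀ - (G10_st k₀ ((i + 1) * l)).2.2)) % 4 ^ l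
      have ht₀ : t₀ ∈ Ico (0 : ℤ) (4 ^ l) := by
        rw [Finset.mem_Ico]
        exact ⟨Int.emod_nonneg _ (by positivity), Int.emod_lt_of_pos _ (by positivity)⟩
      have ht₁ : t₀ ∉ T k₀ := by
        intro h
        apply (Finset.mem_filter.1 h).2
        have h1 : t₀ = u * (zs k₀ - (G10_st k₀ ((i + 1) * l)).2.2) -
            4 ^ l * ((u * (zs k₀ - (G10_st k₀ ((i + 1) * l)).2.2)) / 4 ^ l) := by
          have := Int.emod_add_mul_ediv (u * (zs k₀ - (G10_st k₀ ((i + 1) * l)).2.2)) (4 ^ l)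
          show (u * (zs k₀ - (G10_st k₀ ((i + 1) * l)).2.2)) % 4 ^ l = _
          linarith
        rw [h1]
        refine ⟨-v * (zs k₀ - (G10_st k₀ ((i + 1) * l)).2.2) -
          (G10_st k₀ ((i + 1) * l)).1 * ((u * (zs k₀ - (G10_st k₀ ((i + 1) * l)).2.2)) / 4 ^ l), ?_⟩
        linear_combination (zs k₀ - (G10_st k₀ ((i + 1) * l)).2.2) * huv
      have hsub : T k₀ ⊆ (Ico (0 : ℤ) (4 ^ l)).erase t₀ := by
        intro t ht
        rw [Finset.mem_erase]
        exact ⟨fun h => ht₁ (h ▸ ht), (Finset.mem_filter.1 ht).1⟩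
      refine le_trans (Finset.card_le_card hsub) ?_
      rw [Finset.card_erase_of_mem ht₀, Int.card_Ico, sub_zero]
      have : ((4 : ℤ) ^ l) = ((4 ^ l : ℕ) : ℤ) := by push_cast; ring
      rw [this, Int.toNat_natCast]
    have hinj : (G10_S l zs (i + 1)).card ≤ ((G10_S l zs i).sigma T).card := by
      apply Finset.card_le_card_of_injOn (fun k => (⟨k % M, k / M⟩ : Σ _ : ℤ, ℤ))
      · intro k hk
        rw [Finset.mem_coe] at hk
        unfold G10_S at hk
        rw [Finset.mem_filter, Finset.mem_Ico] at hk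
        obtain ⟨⟨hk0, hk1⟩, hko, hkc⟩ := hk
        have hdec : k = k % M + M * (k / M) := (Int.emod_add_mul_ediv k M).symm
        have hodd : Odd (k % M) := G10_odd_mod hko (by
          have : 1 ≤ (i + 1) * l := Nat.mul_pos (by omega) hl
          omega)
        rw [Finset.mem_coe, Finset.mem_sigma]
        constructor
        · unfold G10_S
          rw [Finset.mem_filter, Finset.mem_Ico]
          refine ⟨⟨Int.emod_nonneg _ (ne_of_gt hM), Int.emod_lt_of_pos _ hM⟩, hodd, ?_⟩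
          intro i' h1 h2
          apply G10_transfer hl hz (k % M) (k / M) hodd i i' h2
          have := hkc i' h1 (by omega)
          rw [hdec] at this
          exact this
        · show k / M ∈ T (k % M)
          rw [Finset.mem_filter, Finset.mem_Ico]
          refine ⟨⟨Int.ediv_nonneg hk0 hM.le, ?_⟩, ?_⟩
          · apply Int.ediv_lt_of_lt_mul hM
            have e : (4 : ℤ) ^ l * M = 4 ^ ((i + 1 + 1) * l) := by
              show (4 : ℤ) ^ l * 4 ^ ((i + 1) * l) = 4 ^ ((i + 1 + 1) * l)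
              rw [← pow_add]; congr 1; ring
            rw [e]; exact hk1
          · have h3 := hkc (i + 1) (by omega) (le_refl _)
            have ho2 : Odd (k % M + M * (k / M)) := by rw [← hdec]; exact hko
            have h4 := (G10_congr (k % M) hodd ((i + 1) * l) (k / M) ho2).2.2
            have h5 : zs k = zs (k % M) := by
              have := G10_zs hz (k % M) (k / M) i
              rw [show k % M + 4 ^ ((i + 1) * l) * (k / M) = k from hdec.symm] at this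
              exact this
            rw [h5] at h3
            rw [show k % M + 4 ^ ((i + 1) * l) * (k / M) = k from hdec.symm] at h4
            rw [h4] at h3
            exact h3
      · intro a _ b _ hab
        simp only [Sigma.mk.injEq, heq_eq_eq] at hab
        rw [← Int.emod_add_mul_ediv a M, ← Int.emod_add_mul_ediv b M, hab.1, hab.2]
    refine le_trans hinj ?_
    rw [Finset.card_sigma]
    refine le_trans (Finset.sum_le_card_nsmul _ _ (4 ^ l - 1) fun k _ => hT k) ?_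
    rw [smul_eq_mul, pow_succ]
    calc (G10_S l zs i).card * (4 ^ l - 1) ≤ ((4 ^ l - 1) ^ i * 4 ^ l) * (4 ^ l - 1) :=
          Nat.mul_le_mul_right _ ih
      _ = (4 ^ l - 1) ^ i * (4 ^ l - 1) * 4 ^ l := by ring

/-- Row G10.  A path whose state modulo `4^l` is uniform at the times `l, 2l, ..., J l`.
Recipe.  Path from `0`: first `m`-digit `x = 1`; then, in state `z`, `x = 0` if `z ≢ 2 mod 4` and `x = 1` otherwise; `y ∈ {-1,0,1}` is the
digit with `4 ∣ z + k x - y` (it exists: `k` odd); `z' = (z + k x - y)/4`.  By induction after `j ≥ 1` steps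
`4^j z_j = k m_j - y_j` with `m_j ∈ Lset j` ODD, `y_j ∈ Lset j`, and `(m_j, y_j)` depends only on `k mod 4^j`.  Hence for
`k = k₀ + 4^j t` (`k₀ < 4^j`, `0 ≤ t`) `z_j = z_j⁰ + m_j t` runs through all residues modulo `4^l` as `t` does.  So, by induction on `i`, among
the odd `k < 4^N` the proportion of those with `z_{i' l} ≢ zs k mod 4^l` for all `1 ≤ i' ≤ i` is `(1 - 4^{-l})^i` (the conditions for
`i' ≤ i` depend on `k mod 4^{(i+1) l}` only; `zs k` depends on `k mod 4^l`). -/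
theorem G10 (l J N : ℕ) (hl : 1 ≤ l) (hN : (J + 1) * l ≤ N) (zs : ℤ → ℤ)
    (hz : ∀ k j : ℤ, zs (k + 4 ^ l * j) = zs k) :
    bad N (fun k => ∃ i, 1 ≤ i ∧ i ≤ J ∧ ∃ m ∈ Lset (i * l), ∃ y ∈ Lset (i * l),
      (4 : ℤ) ^ (i * l) ∣ k * m - y ∧ (4 : ℤ) ^ l ∣ (k * m - y) / 4 ^ (i * l) - zs k) ≤
        (1 - 1 / 4 ^ l : ℝ) ^ J := by
  classical
  let M : ℤ := 4 ^ ((J + 1) * l)
  have hM : 0 < M := by positivity
  obtain ⟨c, hc⟩ : ∃ c, N = (J + 1) * l + c := ⟨N - (J + 1) * l, by omega⟩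
  have h4N : (4 : ℤ) ^ N = 4 ^ c * M := by
    rw [hc, pow_add]
    show (4 : ℤ) ^ ((J + 1) * l) * 4 ^ c = 4 ^ c * 4 ^ ((J + 1) * l)
    ring
  unfold bad
  rw [div_le_iff₀ (by positivity)]
  have hcard : ((Odds N).filter (fun k => ¬ ∃ i, 1 ≤ i ∧ i ≤ J ∧ ∃ m ∈ Lset (i * l),
      ∃ y ∈ Lset (i * l), (4 : ℤ) ^ (i * l) ∣ k * m - y ∧
        (4 : ℤ) ^ l ∣ (k * m - y) / 4 ^ (i * l) - zs k)).card ≤
      (G10_S l zs J ×ˢ Ico (0 : ℤ) (4 ^ c)).card := by
    apply Finset.card_le_card_of_injOn (fun k => (k % M, k / M))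
    · intro k hk
      rw [Finset.mem_coe, Finset.mem_filter] at hk
      obtain ⟨hkO, hkc⟩ := hk
      unfold Odds at hkO
      rw [Finset.mem_filter, Finset.mem_Ico] at hkO
      obtain ⟨⟨hk0, hk1⟩, hko⟩ := hkO
      have hdec : k = k % M + M * (k / M) := (Int.emod_add_mul_ediv k M).symm
      have hodd : Odd (k % M) := G10_odd_mod hko (by
        have : 1 ≤ (J + 1) * l := Nat.mul_pos (by omega) hl
        omega)
      rw [Finset.mem_coe, Finset.mem_product]
      constructor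
      · show k % M ∈ G10_S l zs J
        unfold G10_S
        rw [Finset.mem_filter, Finset.mem_Ico]
        refine ⟨⟨Int.emod_nonneg _ (ne_of_gt hM), Int.emod_lt_of_pos _ hM⟩, hodd, ?_⟩
        intro i' h1 h2
        apply G10_transfer hl hz (k % M) (k / M) hodd J i' h2
        rw [show k % M + 4 ^ ((J + 1) * l) * (k / M) = k from hdec.symm]
        intro hd
        apply hkc
        have h6 := G10_eq k hko (i' * l)
        refine ⟨i', h1, h2, _, (G10_mem k (i' * l)).1, _, (G10_mem k (i' * l)).2,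
          ⟨_, h6.symm⟩, ?_⟩
        rw [← h6, Int.mul_ediv_cancel_left _ (by positivity)]
        exact hd
      · show k / M ∈ Ico (0 : ℤ) (4 ^ c)
        rw [Finset.mem_Ico]
        refine ⟨Int.ediv_nonneg hk0 hM.le, ?_⟩
        apply Int.ediv_lt_of_lt_mul hM
        rw [← h4N]; exact hk1
    · intro a _ b _ hab
      simp only [Prod.mk.injEq] at hab
      rw [← Int.emod_add_mul_ediv a M, ← Int.emod_add_mul_ediv b M, hab.1, hab.2]
  have hcard2 : (G10_S l zs J ×ˢ Ico (0 : ℤ) (4 ^ c)).card ≤ (4 ^ l - 1) ^ J * 4 ^ l * 4 ^ c := by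
    rw [Finset.card_product, Int.card_Ico, sub_zero]
    have : ((4 : ℤ) ^ c) = ((4 ^ c : ℕ) : ℤ) := by push_cast; ring
    rw [this, Int.toNat_natCast]
    exact Nat.mul_le_mul_right _ (G10_card l hl zs hz J)
  have hreal : (((4 ^ l - 1) ^ J * 4 ^ l * 4 ^ c : ℕ) : ℝ) = (1 - 1 / 4 ^ l : ℝ) ^ J * 4 ^ N := by
    have h1 : (((4 ^ l - 1 : ℕ)) : ℝ) = 4 ^ l - 1 := by
      rw [Nat.cast_sub (Nat.one_le_pow _ _ (by norm_num))]
      push_cast
      ring
    rw [Nat.cast_mul, Nat.cast_mul, Nat.cast_pow, h1]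
    push_cast
    have h2 : (4 : ℝ) ^ N = (4 ^ l) ^ J * 4 ^ l * 4 ^ c := by
      rw [hc, pow_add, ← pow_mul, ← pow_add]
      congr 2
      ring
    rw [h2]
    have h3 : ((4 : ℝ) ^ l - 1) = (1 - 1 / 4 ^ l) * 4 ^ l := by
      field_simp
    rw [h3, mul_pow]
    ring
  calc _ ≤ (((G10_S l zs J ×ˢ Ico (0 : ℤ) (4 ^ c)).card : ℕ) : ℝ) := by exact_mod_cast hcard
    _ ≤ (((4 ^ l - 1) ^ J * 4 ^ l * 4 ^ c : ℕ) : ℝ) := by exact_mod_cast hcard2
    _ = _ := hreal

end Pool.Agent.C52.RG10
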