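import Pool.Agent.Lib.MP_c52340_c5.Defs
import Pool.Agent.Lib.MP_c52340_c5.G1


set_option autoImplicit false

open Finset

open Pool.Agent.C52.RG1 (G1)

namespace Pool.Agent.C52.RG2

private theorem pg_nonneg (y : ℤ) : 0 ≤ 4 / 3 * pg (1 / 4) y := by
  unfold pg
  split_ifs <;> norm_num

private theorem Gop_mono (k : ℤ) (F F' : ℤ → ℝ) (h : ∀ z, F z ≤ F' z) (z : ℤ) :
    Gop k F z ≤ Gop k F' z := by
  unfold Gop
  refine Finset.sum_le_sum fun x _ => Finset.sum_le_sum fun y _ => ?_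
  split_ifs
  · exact mul_le_mul_of_nonneg_left (h _) (pg_nonneg y)
  · exact le_refl _

private theorem Gop_nonneg (k : ℤ) (F : ℤ → ℝ) (h : ∀ z, 0 ≤ F z) (z : ℤ) :
    0 ≤ Gop k F z := by
  unfold Gop
  refine Finset.sum_nonneg fun x _ => Finset.sum_nonneg fun y _ => ?_
  split_ifs
  · exact mul_nonneg (pg_nonneg y) (h _)
  · exact le_refl _

private theorem Gop_sub (k : ℤ) (F F' : ℤ → ℝ) (z : ℤ) :
    Gop k (fun w => F w - F' w) z = Gop k F z - Gop k F' z := by
  unfold Gop
  rw [← Finset.sum_sub_distrib]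
  refine Finset.sum_congr rfl fun x _ => ?_
  rw [← Finset.sum_sub_distrib]
  refine Finset.sum_congr rfl fun y _ => ?_
  split_ifs
  · ring
  · ring

private theorem Gop_smul (k : ℤ) (c : ℝ) (F : ℤ → ℝ) (z : ℤ) :
    Gop k (fun w => c * F w) z = c * Gop k F z := by
  unfold Gop
  rw [Finset.mul_sum]
  refine Finset.sum_congr rfl fun x _ => ?_
  rw [Finset.mul_sum]
  refine Finset.sum_congr rfl fun y _ => ?_
  split_ifs
  · ring
  · ring

private theorem gk_eq (k : ℤ) (h : ℕ) (z : ℤ) :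
    gk k h z = ∑ m ∈ Lset h, ∑ y ∈ Lset h,
      if (4 : ℤ) ^ h ∣ z + k * m - y then
        (4 / 3 : ℝ) ^ h * wG (1 / 4) h y * 1 else 0 := G1 k h (fun _ => 1) z

/-- Row G2.  Elementary properties of `Gop` and `gk`: monotone, sign, composition, `gk k 0 = 1`,
linear in `F`, periodicity modulo `4^h` in `z` and in `k`.
Recipe: definition, induction; the last two from G1 with `F = 1`. -/
theorem G2 :
    (∀ (k : ℤ) (h : ℕ) (F F' : ℤ → ℝ), (∀ z, F z ≤ F' z) → ∀ z, (Gop k)^[h] F z ≤ (Gop k)^[h] F' z) ∧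
    (∀ (k : ℤ) (h : ℕ) (z : ℤ), 0 ≤ gk k h z) ∧
    (∀ (k : ℤ) (a b : ℕ) (z : ℤ), gk k (a + b) z = (Gop k)^[a] (gk k b) z) ∧
    (∀ (k z : ℤ), gk k 0 z = 1) ∧
    (∀ (k : ℤ) (h : ℕ) (F F' : ℤ → ℝ) (z : ℤ),
      (Gop k)^[h] (fun w => F w - F' w) z = (Gop k)^[h] F z - (Gop k)^[h] F' z) ∧
    (∀ (k : ℤ) (h : ℕ) (c : ℝ) (F : ℤ → ℝ) (z : ℤ), (Gop k)^[h] (fun w => c * F w) z = c * (Gop k)^[h] F z) ∧
    (∀ (k : ℤ) (h : ℕ) (z j : ℤ), gk k h (z + 4 ^ h * j) = gk k h z) ∧
    (∀ (k : ℤ) (h : ℕ) (z j : ℤ), gk (k + 4 ^ h * j) h z = gk k h z) := by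
  refine ⟨?_, ?_, ?_, ?_, ?_, ?_, ?_, ?_⟩
  · intro k h F F' hF
    induction h with
    | zero => exact hF
    | succ n ih =>
      intro z
      rw [Function.iterate_succ_apply', Function.iterate_succ_apply']
      exact Gop_mono k _ _ ih z
  · intro k h
    unfold gk
    induction h with
    | zero =>
      intro z
      simp
    | succ n ih =>
      intro z
      rw [Function.iterate_succ_apply']
      exact Gop_nonneg k _ ih z
  · intro k a b z
    unfold gk
    rw [Function.iterate_add_apply]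
  · intro k z
    rfl
  · intro k h F F'
    induction h with
    | zero =>
      intro z
      rfl
    | succ n ih =>
      intro z
      rw [Function.iterate_succ_apply', Function.iterate_succ_apply', Function.iterate_succ_apply']
      have h1 : (Gop k)^[n] (fun w => F w - F' w) =
          fun w => (Gop k)^[n] F w - (Gop k)^[n] F' w := funext ih
      rw [h1, Gop_sub]
  · intro k h c F
    induction h with
    | zero =>
      intro z
      rfl
    | succ n ih =>
      intro z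
      rw [Function.iterate_succ_apply', Function.iterate_succ_apply']
      have h1 : (Gop k)^[n] (fun w => c * F w) = fun w => c * (Gop k)^[n] F w := funext ih
      rw [h1, Gop_smul]
  · intro k h z j
    rw [gk_eq, gk_eq]
    refine Finset.sum_congr rfl fun m _ => Finset.sum_congr rfl fun y _ => ?_
    have h1 : (4 : ℤ) ^ h ∣ z + 4 ^ h * j + k * m - y ↔ (4 : ℤ) ^ h ∣ z + k * m - y := by
      rw [show z + 4 ^ h * j + k * m - y = (z + k * m - y) + 4 ^ h * j by ring]
      exact dvd_add_left (dvd_mul_right _ _)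
    simp only [h1]
  · intro k h z j
    rw [gk_eq, gk_eq]
    refine Finset.sum_congr rfl fun m _ => Finset.sum_congr rfl fun y _ => ?_
    have h1 : (4 : ℤ) ^ h ∣ z + (k + 4 ^ h * j) * m - y ↔ (4 : ℤ) ^ h ∣ z + k * m - y := by
      rw [show z + (k + 4 ^ h * j) * m - y = (z + k * m - y) + 4 ^ h * (j * m) by ring]
      exact dvd_add_left (dvd_mul_right _ _)
    simp only [h1]

end Pool.Agent.C52.RG2
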