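import Pool.Agent.Lib.MP_c52340_c5.Defs
import Pool.Agent.Lib.MP_c52340_c5.B7
import Pool.Agent.Lib.MP_c52340_c5.B8
import Pool.Agent.Lib.MP_c52340_c5.B9
import Pool.Agent.Lib.MP_c52340_c5.B10
import Pool.Agent.Lib.MP_c52340_c5.B13
import Pool.Agent.Lib.MP_c52340_c5.G1


set_option autoImplicit false

open Finset

open Pool.Agent.C52.RB7 (B7)
open Pool.Agent.C52.RB8 (B8)
open Pool.Agent.C52.RB9 (B9)
open Pool.Agent.C52.RB10 (B10)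
open Pool.Agent.C52.RB13 (B13)
open Pool.Agent.C52.RG1 (G1)

namespace Pool.Agent.C52.RG3

/-- Row G3.  Fourier formula.
Recipe: G1 with `F = 1`; `4^h [4^h ∣ w] = ∑_c ee (c w/4^h)` (B10) with `w = z + k m - y`, then B8, B9 (`c ↦ -c`: `GG` is even). -/
theorem G3 (k : ℤ) (h : ℕ) (z : ℤ) :
    ((gk k h z : ℝ) : ℂ) = ∑ c ∈ range (4 ^ h), ee ((c : ℝ) * z / 4 ^ h) *
      (GG (1 / 3) h ((k : ℝ) * c / 4 ^ h) * GG (1 / 4) h ((c : ℝ) / 4 ^ h) : ℝ) := by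
  obtain ⟨hadd, -, -, -, -⟩ := B7
  obtain ⟨-, -, -, -, -, -, heven, -, -, -, -⟩ := B13
  have h4 : (4 : ℝ) ^ h ≠ 0 := by positivity
  have h4c : (4 : ℂ) ^ h ≠ 0 := pow_ne_zero _ (by norm_num)
  have h3c : (3 : ℂ) ^ h ≠ 0 := pow_ne_zero _ (by norm_num)
  have hgk : gk k h z = ∑ m ∈ Lset h, ∑ y ∈ Lset h,
      if (4 : ℤ) ^ h ∣ z + k * m - y then
        (4 / 3 : ℝ) ^ h * wG (1 / 4) h y * 1 else 0 := G1 k h (fun _ => 1) z
  have hterm : ∀ m y : ℤ, (((if (4 : ℤ) ^ h ∣ z + k * m - y then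
        (4 / 3 : ℝ) ^ h * wG (1 / 4) h y * 1 else 0 : ℝ)) : ℂ) =
      ∑ c ∈ range (4 ^ h), ee ((c : ℝ) * z / 4 ^ h) *
        ((ee (((k : ℝ) * c / 4 ^ h) * m) / 3 ^ h) *
          ((wG (1 / 4) h y : ℂ) * ee ((-((c : ℝ) / 4 ^ h)) * y))) := by
    intro m y
    have hsum : ∑ c ∈ range (4 ^ h), ee ((c : ℝ) * z / 4 ^ h) *
        ((ee (((k : ℝ) * c / 4 ^ h) * m) / 3 ^ h) *
          ((wG (1 / 4) h y : ℂ) * ee ((-((c : ℝ) / 4 ^ h)) * y))) =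
        ((wG (1 / 4) h y : ℂ) / 3 ^ h) *
          ∑ c ∈ range (4 ^ h), ee ((c : ℝ) * ((z + k * m - y : ℤ) : ℝ) / 4 ^ h) := by
      rw [Finset.mul_sum]
      refine Finset.sum_congr rfl fun c _ => ?_
      have harg : (c : ℝ) * ((z + k * m - y : ℤ) : ℝ) / 4 ^ h =
          (c : ℝ) * z / 4 ^ h + (((k : ℝ) * c / 4 ^ h) * m + (-((c : ℝ) / 4 ^ h)) * y) := by
        push_cast
        field_simp
        ring
      rw [harg, hadd, hadd]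
      ring
    rw [hsum, B10]
    split_ifs
    · push_cast
      rw [div_pow]
      field_simp
    · simp
  rw [hgk]
  push_cast
  have hcast : ∀ m y : ℤ, (((if (4 : ℤ) ^ h ∣ z + k * m - y then
        (4 / 3 : ℝ) ^ h * wG (1 / 4) h y * 1 else 0 : ℝ)) : ℂ) =
      if (4 : ℤ) ^ h ∣ z + k * m - y then
        (4 / 3 : ℂ) ^ h * (wG (1 / 4) h y : ℂ) * 1 else 0 := by
    intro m y
    split_ifs
    · push_cast; rfl
    · simp
  have hL : ∑ m ∈ Lset h, ∑ y ∈ Lset h, (((if (4 : ℤ) ^ h ∣ z + k * m - y then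
        (4 / 3 : ℝ) ^ h * wG (1 / 4) h y * 1 else 0 : ℝ)) : ℂ) =
      ∑ c ∈ range (4 ^ h), ee ((c : ℝ) * z / 4 ^ h) *
        ((GG (1 / 3) h ((k : ℝ) * c / 4 ^ h) : ℂ) * (GG (1 / 4) h ((c : ℝ) / 4 ^ h) : ℂ)) := by
    calc ∑ m ∈ Lset h, ∑ y ∈ Lset h, (((if (4 : ℤ) ^ h ∣ z + k * m - y then
        (4 / 3 : ℝ) ^ h * wG (1 / 4) h y * 1 else 0 : ℝ)) : ℂ)
        = ∑ m ∈ Lset h, ∑ y ∈ Lset h, ∑ c ∈ range (4 ^ h), ee ((c : ℝ) * z / 4 ^ h) *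
        ((ee (((k : ℝ) * c / 4 ^ h) * m) / 3 ^ h) *
          ((wG (1 / 4) h y : ℂ) * ee ((-((c : ℝ) / 4 ^ h)) * y))) :=
          Finset.sum_congr rfl fun m _ => Finset.sum_congr rfl fun y _ => hterm m y
      _ = ∑ m ∈ Lset h, ∑ c ∈ range (4 ^ h), ∑ y ∈ Lset h, ee ((c : ℝ) * z / 4 ^ h) *
        ((ee (((k : ℝ) * c / 4 ^ h) * m) / 3 ^ h) *
          ((wG (1 / 4) h y : ℂ) * ee ((-((c : ℝ) / 4 ^ h)) * y))) :=
          Finset.sum_congr rfl fun m _ => Finset.sum_comm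
      _ = ∑ c ∈ range (4 ^ h), ∑ m ∈ Lset h, ∑ y ∈ Lset h, ee ((c : ℝ) * z / 4 ^ h) *
        ((ee (((k : ℝ) * c / 4 ^ h) * m) / 3 ^ h) *
          ((wG (1 / 4) h y : ℂ) * ee ((-((c : ℝ) / 4 ^ h)) * y))) := Finset.sum_comm
      _ = ∑ c ∈ range (4 ^ h), ee ((c : ℝ) * z / 4 ^ h) *
          ((∑ m ∈ Lset h, ee (((k : ℝ) * c / 4 ^ h) * m) / 3 ^ h) *
            (∑ y ∈ Lset h, (wG (1 / 4) h y : ℂ) * ee ((-((c : ℝ) / 4 ^ h)) * y))) := by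
          refine Finset.sum_congr rfl fun c _ => ?_
          rw [Finset.sum_mul_sum, Finset.mul_sum]
          refine Finset.sum_congr rfl fun m _ => ?_
          rw [Finset.mul_sum]
      _ = ∑ c ∈ range (4 ^ h), ee ((c : ℝ) * z / 4 ^ h) *
        ((GG (1 / 3) h ((k : ℝ) * c / 4 ^ h) : ℂ) * (GG (1 / 4) h ((c : ℝ) / 4 ^ h) : ℂ)) := by
          refine Finset.sum_congr rfl fun c _ => ?_
          rw [B8 (1 / 4) h (-((c : ℝ) / 4 ^ h)), heven]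
          have h9 := B9 h ((k : ℝ) * c / 4 ^ h)
          unfold avgC at h9
          rw [← h9, Finset.sum_div]
  rw [← hL]

end Pool.Agent.C52.RG3
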