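import Pool.Agent.Lib.MP_c52340_c5.Defs
import Pool.Agent.Lib.MP_c52340_c5.B7
import Pool.Agent.Lib.MP_c52340_c5.B13
import Pool.Agent.Lib.MP_c52340_c5.G3


set_option autoImplicit false

open Finset

open Pool.Agent.C52.RB7 (B7)
open Pool.Agent.C52.RB13 (B13)
open Pool.Agent.C52.RG3 (G3)

namespace Pool.Agent.C52.RG4

private theorem g4_div (k : ℤ) (h : ℕ) (z : ℤ) :
    ∑ c ∈ (range (4 ^ (h + 1))).filter (fun c => 4 ∣ c), ee ((c : ℝ) * z / 4 ^ (h + 1)) *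
      (GG (1 / 3) (h + 1) ((k : ℝ) * c / 4 ^ (h + 1)) *
        GG (1 / 4) (h + 1) ((c : ℝ) / 4 ^ (h + 1)) : ℝ) =
    ∑ c ∈ range (4 ^ h), ee ((c : ℝ) * z / 4 ^ h) *
      (GG (1 / 3) h ((k : ℝ) * c / 4 ^ h) * GG (1 / 4) h ((c : ℝ) / 4 ^ h) : ℝ) := by
  obtain ⟨_, _, _, _, _, _, _, _, _, _, hG⟩ := B13
  refine Finset.sum_nbij' (fun c => c / 4) (fun c => 4 * c) ?_ ?_ ?_ ?_ ?_
  · intro c hc
    rw [mem_filter, mem_range] at hc
    rw [mem_range]
    have := hc.1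
    rw [pow_succ] at this
    omega
  · intro c hc
    rw [mem_range] at hc
    rw [mem_filter, mem_range, pow_succ]
    exact ⟨by omega, dvd_mul_right 4 c⟩
  · intro c hc
    exact Nat.mul_div_cancel' (mem_filter.1 hc).2
  · intro c _
    simp
  · intro c hc
    obtain ⟨c', rfl⟩ := (mem_filter.1 hc).2
    have e0 : (4 * c' : ℕ) / 4 = c' := by simp
    have h4 : (4 : ℝ) ^ (h + 1) ≠ 0 := by positivity
    have h4' : (4 : ℝ) ^ h ≠ 0 := by positivity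
    have e1 : ((4 * c' : ℕ) : ℝ) * z / 4 ^ (h + 1) = (c' : ℝ) * z / 4 ^ h := by
      push_cast
      rw [pow_succ]
      field_simp
    have e2 : (k : ℝ) * ((4 * c' : ℕ) : ℝ) / 4 ^ (h + 1) = (k : ℝ) * c' / 4 ^ h := by
      push_cast
      rw [pow_succ]
      field_simp
    have e3 : ((4 * c' : ℕ) : ℝ) / 4 ^ (h + 1) = (c' : ℝ) / 4 ^ h := by
      push_cast
      rw [pow_succ]
      field_simp
    simp only [e0]
    rw [e1, e2, e3, hG (1 / 3) ((k : ℝ) * c' / 4 ^ h) h (h + 1) (k * c') (Nat.le_succ h) (by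
      push_cast
      field_simp), hG (1 / 4) ((c' : ℝ) / 4 ^ h) h (h + 1) c' (Nat.le_succ h) (by
      push_cast
      field_simp)]

/-- Row G4.  One more digit changes `gk` by at most `Xi`.
Recipe: in G3 for `h+1` the frequencies `c = 4 c'` give exactly the sum for `h` (B13, last item, and periodicity). -/
theorem G4 (k : ℤ) (h : ℕ) (z : ℤ) : |gk k (h + 1) z - gk k h z| ≤ Xi k (h + 1) := by
  have h1 := G3 k (h + 1) z
  have h0 := G3 k h z
  rw [← Finset.sum_filter_add_sum_filter_not _ (fun c => 4 ∣ c), g4_div, ← h0] at h1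
  have h2 : ((gk k (h + 1) z - gk k h z : ℝ) : ℂ) =
      ∑ c ∈ (range (4 ^ (h + 1))).filter (fun c => ¬ 4 ∣ c), ee ((c : ℝ) * z / 4 ^ (h + 1)) *
      (GG (1 / 3) (h + 1) ((k : ℝ) * c / 4 ^ (h + 1)) *
        GG (1 / 4) (h + 1) ((c : ℝ) / 4 ^ (h + 1)) : ℝ) := by
    rw [Complex.ofReal_sub, h1]
    ring
  have h3 : |gk k (h + 1) z - gk k h z| = ‖((gk k (h + 1) z - gk k h z : ℝ) : ℂ)‖ := by
    rw [Complex.norm_real, Real.norm_eq_abs]
  rw [h3, h2]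
  refine (norm_sum_le _ _).trans ?_
  unfold Xi
  refine Finset.sum_le_sum fun c _ => ?_
  obtain ⟨_, _, _, _, _, _, _, _, hnn, _, _⟩ := B13
  obtain ⟨_, hee, _, _, _⟩ := B7
  rw [norm_mul, hee, one_mul, Complex.norm_real, Real.norm_eq_abs, abs_mul]
  rw [abs_of_nonneg (hnn (1 / 4) ((c : ℝ) / 4 ^ (h + 1)) (h + 1) (by norm_num) le_rfl)]

end Pool.Agent.C52.RG4
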