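import Pool.Agent.Lib.MP_c52340_c5.Defs
import Pool.Agent.Lib.MP_c52340_c5.B13
import Pool.Agent.Lib.MP_c52340_c5.P5
import Pool.Agent.Lib.MP_c52340_c5.A1


set_option autoImplicit false

open Finset

open Pool.Agent.C52.RB13 (B13)
open Pool.Agent.C52.RP5 (P5)
open Pool.Agent.C52.RA1 (A1)

namespace Pool.Agent.C52.RG6

/-- Row G6.  Average of `Xi`.  Recipe: A1 (reduce `DD N` to `DD i`, B13) and P5: `C 4^N (qq/2)^i 2^i`. -/
theorem G6 : ∃ C : ℝ, 0 < C ∧ ∀ N i : ℕ, i ≤ N → ∑ k ∈ Odds N, Xi k i ≤ C * 4 ^ N * qq ^ i := by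
  obtain ⟨C, hC, hA⟩ := A1
  obtain ⟨-, -, -, -, -, -, -, -, hnn, -, hred⟩ := B13
  refine ⟨C, hC, fun N i hi => ?_⟩
  have hred' : ∀ (k : ℤ) (c : ℕ), GG (1 / 3) i ((k : ℝ) * c / 4 ^ i) =
      GG (1 / 3) N ((k : ℝ) * ((c : ℤ) : ℝ) / 4 ^ i) := by
    intro k c
    have h4 : (4 : ℝ) ^ i ≠ 0 := by positivity
    have := hred (1 / 3) ((k : ℝ) * ((c : ℤ) : ℝ) / 4 ^ i) i N (k * c) hi (by
      push_cast
      field_simp)
    rw [this]
    push_cast
    rfl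
  have hpos : ∀ c : ℕ, 0 ≤ GG (1 / 4) i ((c : ℝ) / 4 ^ i) := fun c =>
    hnn (1 / 4) _ i (by norm_num) (by norm_num)
  calc ∑ k ∈ Odds N, Xi k i
      = ∑ c ∈ (range (4 ^ i)).filter (fun c => ¬ 4 ∣ c), ∑ k ∈ Odds N,
          |GG (1 / 3) N ((k : ℝ) * ((c : ℤ) : ℝ) / 4 ^ i)| * GG (1 / 4) i ((c : ℝ) / 4 ^ i) := by
        unfold Xi
        rw [Finset.sum_comm]
        refine Finset.sum_congr rfl fun c _ => Finset.sum_congr rfl fun k _ => ?_
        rw [hred' k c]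
    _ ≤ ∑ c ∈ (range (4 ^ i)).filter (fun c => ¬ 4 ∣ c),
          C * 4 ^ N * (qq / 2) ^ i * GG (1 / 4) i ((c : ℝ) / 4 ^ i) := by
        refine Finset.sum_le_sum fun c hc => ?_
        rw [← Finset.sum_mul]
        refine mul_le_mul_of_nonneg_right ?_ (hpos c)
        refine hA i N (c : ℤ) hi ?_
        have := (Finset.mem_filter.1 hc).2
        exact_mod_cast this
    _ = C * 4 ^ N * (qq / 2) ^ i * ∑ c ∈ (range (4 ^ i)).filter (fun c => ¬ 4 ∣ c),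
          GG (1 / 4) i ((c : ℝ) / 4 ^ i) := by
        rw [← Finset.mul_sum]
    _ ≤ C * 4 ^ N * (qq / 2) ^ i * ∑ c ∈ range (4 ^ i), GG (1 / 4) i ((c : ℝ) / 4 ^ i) := by
        refine mul_le_mul_of_nonneg_left ?_ ?_
        · exact Finset.sum_le_sum_of_subset_of_nonneg (Finset.filter_subset _ _)
            (fun c _ _ => hpos c)
        · have : (0 : ℝ) < qq := by unfold qq; norm_num
          positivity
    _ = C * 4 ^ N * (qq / 2) ^ i * 2 ^ i := by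
        rw [P5 (1 / 4) i]
        norm_num
    _ = C * 4 ^ N * qq ^ i := by
        rw [mul_assoc, ← mul_pow]
        congr 2
        ring

end Pool.Agent.C52.RG6
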