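import Pool.Agent.Lib.MP_c52340_c5.Defs
import Pool.Agent.Lib.MP_c52340_c5.G2
import Pool.Agent.Lib.MP_c52340_c5.G4


set_option autoImplicit false

open Finset

open Pool.Agent.C52.RG2 (G2)
open Pool.Agent.C52.RG4 (G4)

namespace Pool.Agent.C52.RG5

/-- Row G5.  Windows.
Recipe: G2: `gk (H+r) - gk (H+r-1) = (Gop)^[H] (gk r - gk (r-1))`, G4, monotonicity, `(Gop)^[H] 1 = gk H`. -/
theorem G5 (k : ℤ) (H r : ℕ) (hr : 1 ≤ r) (z : ℤ) :
    |gk k (H + r) z - gk k (H + r - 1) z| ≤ Xi k r * gk k H z := by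
  obtain ⟨hmono, -, hadd, -, hsub, hmul, -, -⟩ := G2
  obtain ⟨s, rfl⟩ : ∃ s, r = s + 1 := ⟨r - 1, by omega⟩
  have e1 : H + (s + 1) - 1 = H + s := by omega
  rw [e1, hadd k H (s + 1) z, hadd k H s z, ← hsub]
  have key : ∀ w, |gk k (s + 1) w - gk k s w| ≤ Xi k (s + 1) := fun w => G4 k s w
  have hgk : gk k H z = (Gop k)^[H] (fun _ => 1) z := rfl
  have hup : (Gop k)^[H] (fun w => gk k (s + 1) w - gk k s w) z ≤ Xi k (s + 1) * gk k H z := by
    rw [hgk, ← hmul k H (Xi k (s + 1)) (fun _ => 1) z]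
    refine hmono k H _ _ (fun w => ?_) z
    have := (abs_le.1 (key w)).2
    simpa using this
  have hlo : -(Xi k (s + 1) * gk k H z) ≤ (Gop k)^[H] (fun w => gk k (s + 1) w - gk k s w) z := by
    have h1 : -(Xi k (s + 1) * gk k H z) = (-Xi k (s + 1)) * gk k H z := by ring
    rw [h1, hgk, ← hmul k H (-Xi k (s + 1)) (fun _ => 1) z]
    refine hmono k H _ _ (fun w => ?_) z
    have := (abs_le.1 (key w)).1
    simpa using this
  exact abs_le.2 ⟨hlo, hup⟩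

end Pool.Agent.C52.RG5
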