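import Pool.Agent.Lib.MP_c52340_c5.Defs
import Pool.Agent.Lib.MP_c52340_c5.B13
import Pool.Agent.Lib.MP_c52340_c5.U1
import Pool.Agent.Lib.MP_c52340_c5.G2
import Pool.Agent.Lib.MP_c52340_c5.G4
import Pool.Agent.Lib.MP_c52340_c5.G5
import Pool.Agent.Lib.MP_c52340_c5.G6


set_option autoImplicit false

open Finset

open Pool.Agent.C52.RB13 (B13)
open Pool.Agent.C52.RU1 (U1)
open Pool.Agent.C52.RG2 (G2)
open Pool.Agent.C52.RG4 (G4)
open Pool.Agent.C52.RG5 (G5)
open Pool.Agent.C52.RG6 (G6)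

namespace Pool.Agent.C52.RG7

private lemma geo7 (r : ℝ) (h0 : 0 ≤ r) (h1 : r < 1) (n : ℕ) :
    ∑ i ∈ range n, r ^ i ≤ 1 / (1 - r) := by
  rw [le_div_iff₀ (by linarith), mul_comm, mul_neg_geom_sum]
  have := pow_nonneg h0 n
  linarith

private lemma Xi_nonneg7 (k : ℤ) (i : ℕ) : 0 ≤ Xi k i := by
  unfold Xi
  apply Finset.sum_nonneg
  intro c _
  exact mul_nonneg (abs_nonneg _) (B13.2.2.2.2.2.2.2.2.1 (1 / 4) _ i (by norm_num) (by norm_num))

private lemma exp_half7 : Real.exp (1 / 2) ≤ 2 := by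
  have h1 : Real.exp (1 / 2) * Real.exp (1 / 2) = Real.exp 1 := by
    rw [← Real.exp_add]; norm_num
  have h2 := Real.exp_one_lt_d9
  have h3 := Real.exp_pos (1 / 2)
  nlinarith

theorem G7 (ε : ℝ) (hε : 0 < ε) (n₁ : ℕ) : ∃ B r : ℝ, 0 < B ∧ 0 < r ∧ r < 1 ∧ ∃ N₀ : ℕ, ∀ N ≥ N₀,
    bad N (fun k => (∀ H ≤ n₁ * N, gk k H 0 ≤ B) ∧
      ∀ H, N ≤ H → H ≤ n₁ * N → |gk k (H + 1) 0 - gk k H 0| ≤ r ^ N) ≤ ε := by
  obtain ⟨C, hC, h6⟩ := G6
  have hq0 : (0 : ℝ) < qq := by unfold qq; norm_num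
  have hq1 : qq < 1 := by unfold qq; norm_num
  set s : ℝ := Real.sqrt qq with hs
  have hs0 : 0 < s := Real.sqrt_pos.2 hq0
  have hs1 : s < 1 := by
    rw [hs, Real.sqrt_lt' one_pos]; simpa using hq1
  have hss : s * s = qq := Real.mul_self_sqrt hq0.le
  set A : ℝ := C * (1 / (1 - qq)) with hA
  have hA0 : 0 < A := by
    have : 0 < 1 - qq := by linarith
    positivity
  set B0 : ℝ := 2 * A / ε with hB0
  have hB00 : 0 < B0 := by positivity
  set r : ℝ := (1 + s) / 2 with hr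
  have hr0 : 0 < r := by rw [hr]; linarith
  have hr1 : r < 1 := by rw [hr]; linarith
  have hsr : s / r < 1 := by rw [div_lt_one hr0, hr]; linarith
  have hsr0 : 0 ≤ s / r := by positivity
  have e1 : ∀ᶠ N : ℕ in Filter.atTop, C * s ^ N ≤ ε / 2 := by
    have ht : Filter.Tendsto (fun N : ℕ => C * s ^ N) Filter.atTop (nhds (C * 0)) :=
      (tendsto_pow_atTop_nhds_zero_of_lt_one hs0.le hs1).const_mul C
    rw [mul_zero] at ht
    exact (ht.eventually (ge_mem_nhds (by linarith))).mono (fun _ h => h)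
  have e2 : ∀ᶠ N : ℕ in Filter.atTop, 2 * (1 + B0) * (s / r) ^ N ≤ 1 := by
    have ht : Filter.Tendsto (fun N : ℕ => 2 * (1 + B0) * (s / r) ^ N) Filter.atTop
        (nhds (2 * (1 + B0) * 0)) :=
      (tendsto_pow_atTop_nhds_zero_of_lt_one hsr0 hsr).const_mul _
    rw [mul_zero] at ht
    exact (ht.eventually (ge_mem_nhds (by linarith))).mono (fun _ h => h)
  have e3 : ∀ᶠ N : ℕ in Filter.atTop, (n₁ : ℝ) * ((N : ℝ) * s ^ N) ≤ 1 / 2 := by
    have ht : Filter.Tendsto (fun N : ℕ => (n₁ : ℝ) * ((N : ℝ) * s ^ N)) Filter.atTop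
        (nhds ((n₁ : ℝ) * 0)) :=
      (tendsto_self_mul_const_pow_of_lt_one hs0.le hs1).const_mul _
    rw [mul_zero] at ht
    exact (ht.eventually (ge_mem_nhds (by norm_num))).mono (fun _ h => h)
  obtain ⟨N₀, hN₀⟩ := Filter.eventually_atTop.1 ((e1.and e2).and e3)
  refine ⟨2 * (1 + B0), r, by positivity, hr0, hr1, max N₀ 1, ?_⟩
  intro N hN
  have hN1 : 1 ≤ N := le_trans (le_max_right _ _) hN
  obtain ⟨⟨f1, f2⟩, f3⟩ := hN₀ N (le_trans (le_max_left _ _) hN)
  have h4 : (0 : ℝ) < 4 ^ N := by positivity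
  have hsN : 0 < s ^ N := by positivity
  -- the two events
  have hE1 : bad N (fun k => ∑ i ∈ range N, Xi k (i + 1) ≤ B0) ≤ ε / 2 := by
    have := U1.2.2.1 N (fun k => ∑ i ∈ range N, Xi k (i + 1)) A B0
      (fun k _ => Finset.sum_nonneg (fun i _ => Xi_nonneg7 k (i + 1))) hB00 (by
        rw [Finset.sum_comm]
        calc ∑ i ∈ range N, ∑ k ∈ Odds N, Xi k (i + 1)
            ≤ ∑ i ∈ range N, C * 4 ^ N * qq ^ i := by
              apply Finset.sum_le_sum
              intro i hi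
              rw [mem_range] at hi
              refine (h6 N (i + 1) (by omega)).trans ?_
              have : qq ^ (i + 1) ≤ qq ^ i := pow_le_pow_of_le_one hq0.le hq1.le (by omega)
              exact mul_le_mul_of_nonneg_left this (by positivity)
          _ = C * 4 ^ N * ∑ i ∈ range N, qq ^ i := by rw [Finset.mul_sum]
          _ ≤ C * 4 ^ N * (1 / (1 - qq)) :=
              mul_le_mul_of_nonneg_left (geo7 qq hq0.le hq1 N) (by positivity)
          _ = A * 4 ^ N := by rw [hA]; ring)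
    have h2 : A / B0 = ε / 2 := by
      rw [hB0]; field_simp
    rw [h2] at this
    exact this
  have hE2 : bad N (fun k => Xi k N ≤ s ^ N) ≤ ε / 2 := by
    have := U1.2.2.1 N (fun k => Xi k N) (C * qq ^ N) (s ^ N)
      (fun k _ => Xi_nonneg7 k N) hsN (by
        refine (h6 N N le_rfl).trans (le_of_eq ?_)
        ring)
    refine this.trans ?_
    have h2 : C * qq ^ N / s ^ N = C * s ^ N := by
      rw [← hss, mul_pow]; field_simp
    rw [h2]
    exact f1
  refine le_trans (U1.1 N (fun k => (∑ i ∈ range N, Xi k (i + 1) ≤ B0) ∧ Xi k N ≤ s ^ N) _ ?_)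
    (le_trans (U1.2.1 N _ _) (by linarith))
  intro k _ hk
  obtain ⟨k1, k2⟩ := hk
  -- small H
  have hsmall : ∀ H ≤ N, gk k H 0 ≤ 1 + B0 := by
    intro H hH
    have h1 : ∀ H, gk k H 0 ≤ 1 + ∑ i ∈ range H, Xi k (i + 1) := by
      intro H
      induction H with
      | zero => simp [G2.2.2.2.1 k 0]
      | succ H ih =>
        rw [Finset.sum_range_succ]
        have := (abs_le.1 (G4 k H 0)).2
        linarith
    have h2 : ∑ i ∈ range H, Xi k (i + 1) ≤ ∑ i ∈ range N, Xi k (i + 1) :=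
      Finset.sum_le_sum_of_subset_of_nonneg (Finset.range_mono hH)
        (fun i _ _ => Xi_nonneg7 k (i + 1))
    linarith [h1 H]
  have hx1 : 1 ≤ 1 + s ^ N := by linarith
  have hall : ∀ H, gk k H 0 ≤ (1 + B0) * (1 + s ^ N) ^ (H - N) ∧
      (N ≤ H → |gk k (H + 1) 0 - gk k H 0| ≤ s ^ N * ((1 + B0) * (1 + s ^ N) ^ (H - N))) := by
    intro H
    induction H using Nat.strong_induction_on with
    | _ H ih =>
      have hfirst : gk k H 0 ≤ (1 + B0) * (1 + s ^ N) ^ (H - N) := by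
        by_cases hH : H ≤ N
        · have : H - N = 0 := by omega
          rw [this, pow_zero, mul_one]
          exact hsmall H hH
        · rw [not_le] at hH
          obtain ⟨H', rfl⟩ : ∃ H', H = H' + 1 := ⟨H - 1, by omega⟩
          have i1 := ih H' (by omega)
          have i2 := (abs_le.1 (i1.2 (by omega))).2
          have e : H' + 1 - N = (H' - N) + 1 := by omega
          rw [e, pow_succ]
          have i3 := i1.1
          nlinarith
      refine ⟨hfirst, ?_⟩
      intro hH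
      have g5 := G5 k (H + 1 - N) N hN1 0
      have e1 : H + 1 - N + N = H + 1 := by omega
      have e2 : H + 1 - 1 = H := by omega
      rw [e1, e2] at g5
      refine g5.trans ?_
      have hb : gk k (H + 1 - N) 0 ≤ (1 + B0) * (1 + s ^ N) ^ (H - N) := by
        by_cases hHN : H + 1 - N < H
        · refine (ih (H + 1 - N) hHN).1.trans ?_
          apply mul_le_mul_of_nonneg_left _ (by positivity)
          exact pow_le_pow_right₀ hx1 (by omega)
        · have : H + 1 - N = H := by omega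
          rw [this]; exact hfirst
      have g0 : 0 ≤ gk k (H + 1 - N) 0 := G2.2.1 k _ 0
      exact mul_le_mul k2 hb g0 hsN.le
  have hpow : ∀ H ≤ n₁ * N, (1 + s ^ N) ^ (H - N) ≤ 2 := by
    intro H hH
    calc (1 + s ^ N) ^ (H - N) ≤ (1 + s ^ N) ^ (n₁ * N) := pow_le_pow_right₀ hx1 (by omega)
      _ ≤ (Real.exp (s ^ N)) ^ (n₁ * N) := by
          apply pow_le_pow_left₀ (by positivity)
          have := Real.add_one_le_exp (s ^ N)
          linarith
      _ = Real.exp (((n₁ * N : ℕ) : ℝ) * s ^ N) := by rw [← Real.exp_nat_mul]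
      _ ≤ Real.exp (1 / 2) := by
          apply Real.exp_le_exp.2
          push_cast
          linarith
      _ ≤ 2 := exp_half7
  constructor
  · intro H hH
    have h1 := (hall H).1
    have h2 := hpow H hH
    have : (1 + B0) * (1 + s ^ N) ^ (H - N) ≤ (1 + B0) * 2 :=
      mul_le_mul_of_nonneg_left h2 (by positivity)
    linarith
  · intro H h1 h2
    refine ((hall H).2 h1).trans ?_
    have h3 := hpow H h2
    have h5 : s ^ N * ((1 + B0) * (1 + s ^ N) ^ (H - N)) ≤ s ^ N * ((1 + B0) * 2) := by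
      apply mul_le_mul_of_nonneg_left _ hsN.le
      exact mul_le_mul_of_nonneg_left h3 (by positivity)
    refine h5.trans ?_
    have h6' : 2 * (1 + B0) * (s ^ N / r ^ N) ≤ 1 := by
      rw [← div_pow]; exact f2
    have hrN : 0 < r ^ N := by positivity
    have h7 : 2 * (1 + B0) * (s ^ N / r ^ N) * r ^ N ≤ 1 * r ^ N :=
      mul_le_mul_of_nonneg_right h6' hrN.le
    have h8 : 2 * (1 + B0) * (s ^ N / r ^ N) * r ^ N = s ^ N * ((1 + B0) * 2) := by
      field_simp
    rw [h8, one_mul] at h7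
    exact h7

end Pool.Agent.C52.RG7
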