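import Pool.Agent.Lib.MP_c52340_c5.Defs
import Pool.Agent.Lib.MP_c52340_c5.B10
import Pool.Agent.Lib.MP_c52340_c5.G3


set_option autoImplicit false

open Finset

open Pool.Agent.C52.RB10 (B10)
open Pool.Agent.C52.RG3 (G3)

namespace Pool.Agent.C52.RG8

private theorem GG_zero (p : ℝ) (n : ℕ) : GG p n 0 = 1 := by
  unfold GG gf
  simp

/-- Row G8.  Mean value one.
Recipe: G3 and orthogonality in `z` (B10). -/
theorem G8 (k : ℤ) (h : ℕ) : ∑ z ∈ range (4 ^ h), gk k h z = 4 ^ h := by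
  have key : ((∑ z ∈ range (4 ^ h), gk k h z : ℝ) : ℂ) = ((4 ^ h : ℝ) : ℂ) := by
    rw [Complex.ofReal_sum]
    have e1 : ∀ z ∈ range (4 ^ h), ((gk k h (z : ℤ) : ℝ) : ℂ) =
        ∑ c ∈ range (4 ^ h), ee ((z : ℝ) * ((c : ℤ) : ℝ) / 4 ^ h) *
          (GG (1 / 3) h ((k : ℝ) * c / 4 ^ h) * GG (1 / 4) h ((c : ℝ) / 4 ^ h) : ℝ) := by
      intro z _
      rw [G3]
      refine Finset.sum_congr rfl fun c _ => ?_
      congr 2
      push_cast
      ring
    rw [Finset.sum_congr rfl e1, Finset.sum_comm]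
    have e2 : ∀ c ∈ range (4 ^ h), ∑ z ∈ range (4 ^ h), ee ((z : ℝ) * ((c : ℤ) : ℝ) / 4 ^ h) *
          ((GG (1 / 3) h ((k : ℝ) * c / 4 ^ h) * GG (1 / 4) h ((c : ℝ) / 4 ^ h) : ℝ) : ℂ) =
        if c = 0 then (4 : ℂ) ^ h else 0 := by
      intro c hc
      rw [← Finset.sum_mul, B10]
      by_cases h0 : c = 0
      · subst h0
        simp [GG_zero]
      · rw [if_neg h0, if_neg, zero_mul]
        intro hd
        have h1 : (4 ^ h : ℕ) ∣ c := by exact_mod_cast hd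
        have h2 := Nat.le_of_dvd (Nat.pos_of_ne_zero h0) h1
        exact absurd (Finset.mem_range.1 hc) (not_lt.2 h2)
    rw [Finset.sum_congr rfl e2, Finset.sum_ite_eq' (range (4 ^ h)) 0, if_pos]
    · push_cast
      rfl
    · exact Finset.mem_range.2 (by positivity)
  exact_mod_cast key

end Pool.Agent.C52.RG8
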