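import Pool.Agent.Lib.MP_c52340_c5.Defs
import Pool.Agent.Lib.MP_c52340_c5.B4
import Pool.Agent.Lib.MP_c52340_c5.G1
import Pool.Agent.Lib.MP_c52340_c5.G2


set_option autoImplicit false

open Finset

open Pool.Agent.C52.RB4 (B4)
open Pool.Agent.C52.RG1 (G1)
open Pool.Agent.C52.RG2 (G2)

namespace Pool.Agent.C52.RG9

/-- Row G9.  Lower bound through a prefix.
Recipe: `gk k (j + h) 0 = (Gop k)^[j] (gk k h) 0` (G2), keep one term of G1; `(4/3)^j wG (1/4) j y ≥ (4/3)^j (1/4)^j`. -/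
theorem G9 (k : ℤ) (j h : ℕ) (m y : ℤ) (hm : m ∈ Lset j) (hy : y ∈ Lset j)
    (hd : (4 : ℤ) ^ j ∣ k * m - y) :
    (1 / 3 : ℝ) ^ j * gk k h ((k * m - y) / 4 ^ j) ≤ gk k (j + h) 0 := by
  have hg0 : ∀ z, 0 ≤ gk k h z := fun z => G2.2.1 k h z
  rw [G2.2.2.1 k j h 0, G1]
  have hw : ∀ y, 0 ≤ wG (1 / 4) j y := fun y => B4.1 (1 / 4) (by norm_num) (by norm_num) j y
  have hnn : ∀ m' y' : ℤ, 0 ≤ (if (4 : ℤ) ^ j ∣ 0 + k * m' - y' then
        (4 / 3 : ℝ) ^ j * wG (1 / 4) j y' * gk k h ((0 + k * m' - y') / 4 ^ j) else 0) := by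
    intro m' y'
    split_ifs
    · exact mul_nonneg (mul_nonneg (by positivity) (hw y')) (hg0 _)
    · exact le_refl 0
  have h1 : (1 / 3 : ℝ) ^ j * gk k h ((k * m - y) / 4 ^ j) ≤
      (if (4 : ℤ) ^ j ∣ 0 + k * m - y then
        (4 / 3 : ℝ) ^ j * wG (1 / 4) j y * gk k h ((0 + k * m - y) / 4 ^ j) else 0) := by
    rw [zero_add, if_pos hd]
    apply mul_le_mul_of_nonneg_right _ (hg0 _)
    have h2 := B4.2.2.2.2.1 j y hy
    calc (1 / 3 : ℝ) ^ j = (4 / 3 : ℝ) ^ j * (1 / 4) ^ j := by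
          rw [← mul_pow]; norm_num
      _ ≤ (4 / 3 : ℝ) ^ j * wG (1 / 4) j y :=
          mul_le_mul_of_nonneg_left h2 (by positivity)
  refine h1.trans ?_
  refine le_trans ?_ (Finset.single_le_sum (fun m' _ => Finset.sum_nonneg (fun y' _ => hnn m' y')) hm)
  exact Finset.single_le_sum (fun y' _ => hnn m y') hy

end Pool.Agent.C52.RG9
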