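import Pool.Agent.Lib.MP_c52340_c5.Defs
import Pool.Agent.Lib.MP_c52340_c5.B13
import Pool.Agent.Lib.MP_c52340_c5.U1
import Pool.Agent.Lib.MP_c52340_c5.G2
import Pool.Agent.Lib.MP_c52340_c5.G4
import Pool.Agent.Lib.MP_c52340_c5.G6
import Pool.Agent.Lib.MP_c52340_c5.G7
import Pool.Agent.Lib.MP_c52340_c5.G8
import Pool.Agent.Lib.MP_c52340_c5.G9
import Pool.Agent.Lib.MP_c52340_c5.G10


set_option autoImplicit false

open Finset

open Pool.Agent.C52.RB13 (B13)
open Pool.Agent.C52.RU1 (U1)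
open Pool.Agent.C52.RG2 (G2)
open Pool.Agent.C52.RG4 (G4)
open Pool.Agent.C52.RG6 (G6)
open Pool.Agent.C52.RG7 (G7)
open Pool.Agent.C52.RG8 (G8)
open Pool.Agent.C52.RG9 (G9)
open Pool.Agent.C52.RG10 (G10)

namespace Pool.Agent.C52.RG11

private theorem Xi_nonneg (k : ℤ) (i : ℕ) : 0 ≤ Xi k i := by
  unfold Xi
  apply sum_nonneg
  intro c _
  apply mul_nonneg (abs_nonneg _)
  exact B13.2.2.2.2.2.2.2.2.1 (1 / 4) _ i (by norm_num) (by norm_num)

private theorem tele (k : ℤ) (l h : ℕ) (hl : l ≤ h) (z : ℤ) :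
    |gk k h z - gk k l z| ≤ ∑ i ∈ Ico (l + 1) (h + 1), Xi k i := by
  induction h, hl using Nat.le_induction with
  | base => simp
  | succ h hl ih =>
    rw [sum_Ico_succ_top (by omega)]
    have h1 := G4 k h z
    have h2 : gk k (h + 1) z - gk k l z =
        (gk k h z - gk k l z) + (gk k (h + 1) z - gk k h z) := by ring
    rw [h2]
    exact (abs_add_le _ _).trans (add_le_add ih h1)

private theorem exists_zs (l : ℕ) : ∃ zs : ℤ → ℤ, (∀ k j : ℤ, zs (k + 4 ^ l * j) = zs k) ∧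
    ∀ k : ℤ, 1 ≤ gk k l (zs k) := by
  have h1 : ∀ k : ℤ, ∃ z : ℤ, 1 ≤ gk k l z := by
    intro k
    have h2 : ∑ z ∈ range (4 ^ l), (1 : ℝ) ≤ ∑ z ∈ range (4 ^ l), gk k l z := by
      rw [G8]
      simp
    obtain ⟨z, -, hz⟩ := exists_le_of_sum_le (nonempty_range_iff.2 (by positivity)) h2
    exact ⟨z, hz⟩
  choose Z hZ using h1
  refine ⟨fun k => Z (k % 4 ^ l), ?_, ?_⟩
  · intro k j
    show Z ((k + 4 ^ l * j) % 4 ^ l) = Z (k % 4 ^ l)
    rw [Int.add_mul_emod_self_left]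
  · intro k
    have h3 := hZ (k % 4 ^ l)
    have h4 := G2.2.2.2.2.2.2.2 (k % 4 ^ l) l (Z (k % 4 ^ l)) (k / 4 ^ l)
    rw [Int.emod_add_mul_ediv] at h4
    show 1 ≤ gk k l (Z (k % 4 ^ l))
    rw [h4]
    exact h3

/-- Row G11.  Positivity of the 2-adic end for most `k`.
Recipe: choose `l` with `4 ∑_{i > l} C qq^i ≤ ε/4` (G6): `∑_{l < i ≤ N} Xi k i ≤ 1/4` outside proportion `ε/4` (U1), then
`gk k h z ≥ gk k l z - 1/4` for `l ≤ h ≤ N` and all `z` (G4).  G8: some residue `zs k` modulo `4^l` has `gk k l (zs k) ≥ 1` (choose it as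
a function of `k mod 4^l`; G2 periodicity), so `gk k h z ≥ 3/4` for `z ≡ zs k`.  `J` with `(1 - 4^{-l})^J ≤ ε/4`, G10, G9:
`gk k H 0 ≥ 3^{-J l} * 3/4` for `(J+1) l ≤ H ≤ N`.  For `H ≥ N` use G7 (differences `≤ r^N`, at most `n₁ N` of them). -/
theorem G11 (ε : ℝ) (hε : 0 < ε) (n₁ : ℕ) : ∃ δ : ℝ, 0 < δ ∧ ∃ N₀ : ℕ, ∀ N ≥ N₀,
    bad N (fun k => ∀ H, N ≤ H → H ≤ n₁ * N → δ ≤ gk k H 0) ≤ ε := by
  obtain ⟨C, hC, hG6⟩ := G6
  have hq0 : 0 < qq := by unfold qq; norm_num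
  have hq1 : qq < 1 := by unfold qq; norm_num
  have hq2 : 0 < 1 - qq := sub_pos.2 hq1
  -- the level `l`
  obtain ⟨l, hl1, hl2⟩ : ∃ l : ℕ, 1 ≤ l ∧ C * qq ^ (l + 1) / (1 - qq) / (1 / 4) ≤ ε / 4 := by
    obtain ⟨n, hn⟩ := exists_pow_lt_of_lt_one
      (show 0 < ε / 16 * (1 - qq) / C from div_pos (mul_pos (by linarith) hq2) hC) hq1
    refine ⟨n + 1, by omega, ?_⟩
    have h1 : qq ^ (n + 1 + 1) ≤ qq ^ n := pow_le_pow_of_le_one hq0.le hq1.le (by omega)
    have h2 := h1.trans hn.le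
    rw [le_div_iff₀ hC] at h2
    have h3 : C * qq ^ (n + 1 + 1) / (1 - qq) ≤ ε / 16 := by
      rw [div_le_iff₀ hq2]
      linarith
    rw [div_le_iff₀ (by norm_num)]
    linarith
  obtain ⟨zs, hzs1, hzs2⟩ := exists_zs l
  have h4l : (0 : ℝ) < 1 / 4 ^ l := by positivity
  have h4l1 : (1 : ℝ) / 4 ^ l ≤ 1 := by
    rw [div_le_one (by positivity)]
    exact one_le_pow₀ (by norm_num)
  obtain ⟨J, hJ⟩ := exists_pow_lt_of_lt_one (show 0 < ε / 4 by linarith)
    (show 1 - 1 / (4 : ℝ) ^ l < 1 by linarith)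
  obtain ⟨B, r, -, hr0, hr1, N₁, hG7⟩ := G7 (ε / 4) (by linarith) n₁
  set δ₀ : ℝ := (1 / 3) ^ (J * l) * (3 / 4) with hδ₀
  have hδpos : 0 < δ₀ := by positivity
  have ht : Filter.Tendsto (fun N : ℕ => (n₁ : ℝ) * ((N : ℝ) * r ^ N)) Filter.atTop (nhds 0) := by
    have := (tendsto_self_mul_const_pow_of_lt_one hr0.le hr1).const_mul (n₁ : ℝ)
    rwa [mul_zero] at this
  obtain ⟨N₂, hN₂⟩ := Filter.eventually_atTop.1 (ht.eventually (gt_mem_nhds (half_pos hδpos)))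
  refine ⟨δ₀ / 2, half_pos hδpos, max (max N₁ N₂) ((J + 1) * l), fun N hN => ?_⟩
  have hNN1 : N₁ ≤ N := (le_max_left _ _).trans ((le_max_left _ _).trans hN)
  have hNN2 : N₂ ≤ N := (le_max_right _ _).trans ((le_max_left _ _).trans hN)
  have hNJ : (J + 1) * l ≤ N := (le_max_right _ _).trans hN
  have hlN : l ≤ N := by
    refine le_trans ?_ hNJ
    calc l = 1 * l := (one_mul l).symm
      _ ≤ (J + 1) * l := Nat.mul_le_mul_right _ (by omega)
  obtain ⟨hmono, hsub, hmarkov, -⟩ := U1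
  -- first exceptional set
  have hE1 : bad N (fun k => ∑ i ∈ Ico (l + 1) (N + 1), Xi k i ≤ 1 / 4) ≤ ε / 4 := by
    refine (hmarkov N _ (C * qq ^ (l + 1) / (1 - qq)) (1 / 4)
      (fun k _ => sum_nonneg fun i _ => Xi_nonneg k i) (by norm_num) ?_).trans hl2
    rw [sum_comm]
    calc ∑ i ∈ Ico (l + 1) (N + 1), ∑ k ∈ Odds N, Xi k i
        ≤ ∑ i ∈ Ico (l + 1) (N + 1), C * 4 ^ N * qq ^ i := by
          apply sum_le_sum
          intro i hi
          rw [mem_Ico] at hi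
          exact hG6 N i (by omega)
      _ = C * 4 ^ N * ∑ i ∈ Ico (l + 1) (N + 1), qq ^ i := by rw [mul_sum]
      _ ≤ C * 4 ^ N * (qq ^ (l + 1) / (1 - qq)) := by
          apply mul_le_mul_of_nonneg_left (geom_sum_Ico_le_of_lt_one hq0.le hq1)
          positivity
      _ = C * qq ^ (l + 1) / (1 - qq) * 4 ^ N := by ring
  have hE2 := (G10 l J N hl1 hNJ zs hzs1).trans hJ.le
  have hE3 := hG7 N hNN1
  have htot := (hsub N _ _).trans (add_le_add ((hsub N _ _).trans (add_le_add hE1 hE2)) hE3)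
  refine (hmono N _ _ ?_).trans (htot.trans (by linarith))
  rintro k - ⟨⟨h1, i, hi1, hiJ, m, hm, y, hy, hd, hz⟩, -, h3⟩
  -- lower bound at `N`
  have hil : i * l ≤ J * l := Nat.mul_le_mul_right _ hiJ
  have hJl : (J + 1) * l = J * l + l := by ring
  have hlower : δ₀ ≤ gk k N 0 := by
    set z : ℤ := (k * m - y) / 4 ^ (i * l) with hzdef
    have h5 : gk k l z = gk k l (zs k) := by
      obtain ⟨j, hj⟩ := hz
      have h6 : z = zs k + 4 ^ l * j := by linarith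
      rw [h6]
      exact G2.2.2.2.2.2.2.1 k l (zs k) j
    have h7 := tele k l (N - i * l) (by omega) z
    have h8 : ∑ i ∈ Ico (l + 1) (N - i * l + 1), Xi k i ≤ 1 / 4 := by
      refine le_trans ?_ h1
      apply sum_le_sum_of_subset_of_nonneg
      · apply Ico_subset_Ico le_rfl
        omega
      · intro a _ _
        exact Xi_nonneg k a
    have h9 : 3 / 4 ≤ gk k (N - i * l) z := by
      have h10 := (abs_le.1 (h7.trans h8)).1
      rw [h5] at h10
      have h11 := hzs2 k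
      linarith
    have h12 := G9 k (i * l) (N - i * l) m y hm hy hd
    have h13 : i * l + (N - i * l) = N := by omega
    rw [h13] at h12
    refine le_trans ?_ h12
    rw [hδ₀]
    apply mul_le_mul _ h9 (by norm_num) (by positivity)
    exact pow_le_pow_of_le_one (by norm_num) (by norm_num) hil
  have hind : ∀ H, N ≤ H → H ≤ n₁ * N → δ₀ - ((H : ℝ) - N) * r ^ N ≤ gk k H 0 := by
    intro H hH
    induction H, hH using Nat.le_induction with
    | base =>
      intro _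
      rw [sub_self, zero_mul, sub_zero]
      exact hlower
    | succ H hH ih =>
      intro hH2
      have h5 := ih (by omega)
      have h6 := (abs_le.1 (h3 H hH (by omega))).1
      push_cast
      have h7 : δ₀ - ((H : ℝ) + 1 - N) * r ^ N = (δ₀ - ((H : ℝ) - N) * r ^ N) - r ^ N := by ring
      rw [h7]
      linarith
  intro H hH1 hH2
  refine le_trans ?_ (hind H hH1 hH2)
  have h5 := hN₂ N hNN2
  have h6 : ((H : ℝ) - N) * r ^ N ≤ (n₁ : ℝ) * ((N : ℝ) * r ^ N) := by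
    rw [← mul_assoc]
    apply mul_le_mul_of_nonneg_right _ (by positivity)
    have h7 : (H : ℝ) ≤ (n₁ : ℝ) * N := by exact_mod_cast hH2
    have h8 : (0 : ℝ) ≤ N := by positivity
    linarith
  linarith

end Pool.Agent.C52.RG11
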