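import Pool.Agent.Lib.MP_c52340_c5.Defs
import Pool.Agent.Lib.MP_c52340_c5.B14
import Pool.Agent.Lib.MP_c52340_c5.G1


set_option autoImplicit false

open Finset

open Pool.Agent.C52.RB14 (B14)
open Pool.Agent.C52.RG1 (G1)

namespace Pool.Agent.C52.RG12

theorem G12_key (N : ℕ) (hN : 1 ≤ N) (k : ℤ) (hk : 0 < k) (hk2 : 2 * k < 4 ^ N) (F : ℤ → ℝ) (z : ℤ)
    (hz : |(z : ℝ)| ≤ k / 3 - k / (3 * 4 ^ N) + 1 / 2) :
    (∑ m ∈ Lset N, 4 ^ N * wmod N (k * m + z) * F (hi N k m)) / 3 ^ N = (Gop k)^[N] F z := by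
  rw [G1 k N F z, Finset.sum_div]
  refine Finset.sum_congr rfl fun m hm => ?_
  rw [wmod, Finset.mul_sum, Finset.sum_mul, Finset.sum_div]
  refine Finset.sum_congr rfl fun y hy => ?_
  have e : k * m + z - y = z + k * m - y := by ring
  rw [e]
  by_cases hd : (4 : ℤ) ^ N ∣ z + k * m - y
  · rw [if_pos hd, if_pos hd]
    obtain ⟨w, hw⟩ := hd
    have h1 : w = hi N k m := (B14 N hN k hk hk2).1 m hm y hy z w hz hw.symm
    have h2 : (z + k * m - y) / 4 ^ N = hi N k m := by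
      rw [hw, h1]
      exact Int.mul_ediv_cancel_left _ (by positivity)
    rw [h2, div_pow]
    ring
  · rw [if_neg hd, if_neg hd]
    ring

/-- Row G12.  The block operator and the digit step.
Recipe: G1 with `h = N`, `z = hi N k m'`; `Qop N k (F ∘ hi) m' = 3^{-N} ∑_m 4^N (∑_y [4^N ∣ k m + z - y] wG y) F (hi m)` and by
B14 the integer `(z + k m - y)/4^N` equals `hi N k m`. -/
theorem G12 (N : ℕ) (hN : 1 ≤ N) (k : ℤ) (hk : 0 < k) (hk2 : 2 * k < 4 ^ N) (F : ℤ → ℝ) :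
    (∀ m' ∈ Lset N, Qop N k (fun m => F (hi N k m)) m' = (Gop k)^[N] F (hi N k m')) ∧
    ip N (vv N k) (fun m => F (hi N k m)) = (Gop k)^[N] F 0 := by
  refine ⟨fun m' hm' => ?_, ?_⟩
  · rw [← G12_key N hN k hk hk2 F (hi N k m') ((B14 N hN k hk hk2).2 m' hm')]
    rfl
  · have h0 : |((0 : ℤ) : ℝ)| ≤ k / 3 - k / (3 * 4 ^ N) + 1 / 2 := by
      have hk' : (0 : ℝ) < k := by exact_mod_cast hk
      have h4 : (1 : ℝ) ≤ 4 ^ N := one_le_pow₀ (by norm_num)
      have : (k : ℝ) / (3 * 4 ^ N) ≤ k / 3 := by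
        apply div_le_div_of_nonneg_left hk'.le (by norm_num) (by linarith)
      simp only [Int.cast_zero, abs_zero]
      linarith
    rw [← G12_key N hN k hk hk2 F 0 h0]
    simp only [ip, avg, vv, add_zero]

end Pool.Agent.C52.RG12
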