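import Pool.Agent.Lib.MP_c52340_c5.Defs
import Pool.Agent.Lib.MP_c52340_c5.G12


set_option autoImplicit false

open Finset

open Pool.Agent.C52.RG12 (G12)

namespace Pool.Agent.C52.RG13

private theorem qop_congr (N : ℕ) (k : ℤ) (f g : ℤ → ℝ) (h : ∀ m ∈ Lset N, f m = g m) (m' : ℤ) :
    Qop N k f m' = Qop N k g m' := by
  unfold Qop avg
  congr 1
  refine Finset.sum_congr rfl (fun m hm => ?_)
  simp only [h m hm]

private theorem ip_congr (N : ℕ) (v : ℤ → ℝ) (f g : ℤ → ℝ) (h : ∀ m ∈ Lset N, f m = g m) :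
    ip N v f = ip N v g := by
  unfold ip avg
  congr 1
  refine Finset.sum_congr rfl (fun m hm => ?_)
  simp only [h m hm]

/-- Row G13.  Iterates of the block operator.
Recipe: G12 and induction (`Qop N k f` only depends on the values of `f` on `Lset N`), `(Gop)^[a] ∘ (Gop)^[b] = (Gop)^[a+b]`. -/
theorem G13 (N : ℕ) (hN : 1 ≤ N) (k : ℤ) (hk : 0 < k) (hk2 : 2 * k < 4 ^ N) (F : ℤ → ℝ) (n : ℕ) :
    (∀ m' ∈ Lset N, (Qop N k)^[n] (fun m => F (hi N k m)) m' = (Gop k)^[n * N] F (hi N k m')) ∧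
    ip N (vv N k) ((Qop N k)^[n] (fun m => F (hi N k m))) = (Gop k)^[(n + 1) * N] F 0 := by
  have h1 : ∀ n : ℕ, ∀ m' ∈ Lset N,
      (Qop N k)^[n] (fun m => F (hi N k m)) m' = (Gop k)^[n * N] F (hi N k m') := by
    intro n
    induction n with
    | zero => intro m' _; simp
    | succ n ih =>
      intro m' hm'
      rw [Function.iterate_succ_apply']
      rw [qop_congr N k _ (fun m => ((Gop k)^[n * N] F) (hi N k m)) ih m']
      rw [(G12 N hN k hk hk2 ((Gop k)^[n * N] F)).1 m' hm']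
      rw [← Function.iterate_add_apply]
      have e : N + n * N = (n + 1) * N := by ring
      rw [e]
  refine ⟨h1 n, ?_⟩
  rw [ip_congr N _ _ (fun m => ((Gop k)^[n * N] F) (hi N k m)) (h1 n)]
  rw [(G12 N hN k hk hk2 ((Gop k)^[n * N] F)).2]
  rw [← Function.iterate_add_apply]
  have e : N + n * N = (n + 1) * N := by ring
  rw [e]

end Pool.Agent.C52.RG13
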