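import Pool.Agent.Lib.MP_c52340_c5.Defs
import Pool.Agent.Lib.MP_c52340_c5.B2
import Pool.Agent.Lib.MP_c52340_c5.B7
import Pool.Agent.Lib.MP_c52340_c5.B9
import Pool.Agent.Lib.MP_c52340_c5.B10
import Pool.Agent.Lib.MP_c52340_c5.B12


set_option autoImplicit false

open Finset

open Pool.Agent.C52.RB2 (B2)
open Pool.Agent.C52.RB7 (B7)
open Pool.Agent.C52.RB9 (B9)
open Pool.Agent.C52.RB10 (B10)
open Pool.Agent.C52.RB12 (B12)

namespace Pool.Agent.C52.RW1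

lemma w1_norm_sub_one (x : ℝ) : ‖ee x - 1‖ = 2 * |Real.sin (Real.pi * x)| := by
  unfold ee
  have h : (2 * Real.pi * x * Complex.I : ℂ) = Complex.I * ((2 * Real.pi * x : ℝ) : ℂ) := by
    push_cast; ring
  rw [h, Complex.norm_exp_I_mul_ofReal_sub_one]
  rw [show 2 * Real.pi * x / 2 = Real.pi * x by ring, Real.norm_eq_abs, abs_mul, abs_two]

lemma w1_sin_lower (x a : ℝ) (h1 : a ≤ 2 * |x|) (h2 : a ≤ 1 / 2) (h3 : |x| ≤ 3 / 4) :
    a ≤ |Real.sin (Real.pi * x)| := by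
  have hpi := Real.pi_pos
  have e : |Real.sin (Real.pi * x)| = |Real.sin (Real.pi * |x|)| := by
    rcases abs_cases x with ⟨h, _⟩ | ⟨h, _⟩
    · rw [h]
    · rw [h, mul_neg, Real.sin_neg, abs_neg]
  rw [e]
  refine le_trans ?_ (le_abs_self _)
  have hx0 := abs_nonneg x
  generalize |x| = y at h1 h3 hx0
  rcases le_total y (1 / 2) with hy | hy
  · have h := Real.mul_le_sin (x := Real.pi * y) (by positivity) (by nlinarith)
    have : 2 / Real.pi * (Real.pi * y) = 2 * y := by field_simp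
    linarith
  · have h := Real.mul_le_sin (x := Real.pi * (1 - y)) (by nlinarith) (by nlinarith)
    have e1 : 2 / Real.pi * (Real.pi * (1 - y)) = 2 * (1 - y) := by field_simp
    have e2 : Real.sin (Real.pi * (1 - y)) = Real.sin (Real.pi * y) := by
      rw [mul_sub, mul_one, Real.sin_pi_sub]
    rw [e1, e2] at h
    linarith

lemma w1_sum_Ioc (a b : ℤ) (F : ℤ → ℂ) (h : a ≤ b) :
    ∑ s ∈ Ioc a b, F s = ∑ j ∈ range (b - a).toNat, F (a + 1 + j) := by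
  refine Finset.sum_nbij' (fun s => (s - a - 1).toNat) (fun j : ℕ => a + 1 + (j : ℤ)) ?_ ?_ ?_ ?_ ?_
  · intro s hs
    rw [Finset.mem_Ioc] at hs
    rw [Finset.mem_range]
    omega
  · intro j hj
    rw [Finset.mem_range] at hj
    rw [Finset.mem_Ioc]
    omega
  · intro s hs
    rw [Finset.mem_Ioc] at hs
    have : ((s - a - 1).toNat : ℤ) = s - a - 1 := Int.toNat_of_nonneg (by omega)
    rw [this]; ring
  · intro j _
    show ((a + 1 + (j : ℤ)) - a - 1).toNat = j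
    omega
  · intro s hs
    rw [Finset.mem_Ioc] at hs
    have : ((s - a - 1).toNat : ℤ) = s - a - 1 := Int.toNat_of_nonneg (by omega)
    rw [this]; congr 1; ring

lemma w1_tele (a b : ℤ) (h : a ≤ b) (x : ℝ) :
    (ee x - 1) * ∑ s ∈ Ioc a b, ee (x * s) = ee (x * (b + 1)) - ee (x * (a + 1)) := by
  rw [w1_sum_Ioc a b _ h, Finset.mul_sum]
  have e : ∀ j ∈ range (b - a).toNat, (ee x - 1) * ee (x * ((a + 1 + (j : ℤ) : ℤ) : ℝ)) =
      (fun j : ℕ => ee (x * (a + 1 + j))) (j + 1) - (fun j : ℕ => ee (x * (a + 1 + j))) j := by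
    intro j _
    simp only
    rw [sub_mul, one_mul, ← B7.1]
    congr 2
    · push_cast; ring
    · push_cast; ring
  rw [Finset.sum_congr rfl e]
  refine (Finset.sum_range_sub (fun j : ℕ => ee (x * (a + 1 + j))) (b - a).toNat).trans ?_
  have hcast : (((b - a).toNat : ℕ) : ℝ) = b - a := by
    have : (((b - a).toNat : ℕ) : ℤ) = b - a := Int.toNat_of_nonneg (by omega)
    exact_mod_cast congrArg (Int.cast : ℤ → ℝ) this
  simp only [Nat.cast_zero, add_zero, hcast]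
  congr 2
  ring

lemma w1_half (N : ℕ) (hN : 1 ≤ N) : 2 * ((4 : ℤ) ^ N / 2) = 4 ^ N := by
  obtain ⟨n, rfl⟩ : ∃ n, N = n + 1 := ⟨N - 1, by omega⟩
  rw [pow_succ]; omega

/-- the Fourier coefficient -/
noncomputable def w1g (N : ℕ) (c₂ n : ℤ) : ℂ :=
  (∑ s ∈ Fr N, ee (-(((c₂ : ℝ) / 4 ^ N + n) / 4 ^ N) * s)) / 4 ^ N

lemma w1_g (N : ℕ) (hN : 1 ≤ N) (c₂ n : ℤ) (hc : c₂ ∈ Fr N) (hn : n ∈ Fr N) :
    ‖w1g N c₂ n‖ ≤ cb N c₂ n := by
  have hH := w1_half N hN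
  have hM : (0 : ℝ) < 4 ^ N := by positivity
  have hM1 : (4 : ℝ) ≤ 4 ^ N := by
    calc (4 : ℝ) = 4 ^ 1 := by norm_num
      _ ≤ 4 ^ N := pow_le_pow_right₀ (by norm_num) hN
  set H : ℤ := 4 ^ N / 2 with hHd
  have hHr : 2 * (H : ℝ) = 4 ^ N := by exact_mod_cast hH
  have hHp : (0 : ℤ) < H := by
    have : (0 : ℤ) < 4 ^ N := by positivity
    omega
  unfold w1g cb
  rw [norm_div, norm_pow, Complex.norm_ofNat]
  by_cases h0 : n = 0
  · rw [if_pos h0, div_le_one hM]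
    refine (norm_sum_le _ _).trans ?_
    have : ∀ s ∈ Fr N, ‖ee (-(((c₂ : ℝ) / 4 ^ N + n) / 4 ^ N) * s)‖ = 1 := fun s _ => B7.2.1 _
    rw [Finset.sum_congr rfl this, Finset.sum_const, nsmul_eq_mul, mul_one]
    unfold Fr
    rw [← hHd, Int.card_Ioc]
    have e : (((H - -H).toNat : ℕ) : ℝ) = 4 ^ N := by
      have : (((H - -H).toNat : ℕ) : ℤ) = 2 * H := by
        rw [Int.toNat_of_nonneg (by omega)]; ring
      rw [← hHr]
      exact_mod_cast congrArg (Int.cast : ℤ → ℝ) this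
    rw [e]
  · rw [if_neg h0]
    have hn' : -H < n ∧ n ≤ H := by
      unfold Fr at hn; rw [← hHd, Finset.mem_Ioc] at hn; exact hn
    have hc' : -H < c₂ ∧ c₂ ≤ H := by
      unfold Fr at hc; rw [← hHd, Finset.mem_Ioc] at hc; exact hc
    have hnabs : |(n : ℝ)| ≤ H := by
      rw [abs_le]; constructor
      · have : (-H : ℤ) ≤ n := hn'.1.le
        exact_mod_cast this
      · exact_mod_cast hn'.2
    have hcabs : |(c₂ : ℝ)| ≤ H := by
      rw [abs_le]; constructor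
      · have : (-H : ℤ) ≤ c₂ := hc'.1.le
        exact_mod_cast this
      · exact_mod_cast hc'.2
    have hn1 : (1 : ℝ) ≤ |(n : ℝ)| := by
      have : (1 : ℤ) ≤ |n| := Int.one_le_abs h0
      exact_mod_cast this
    set θ : ℝ := (c₂ : ℝ) / 4 ^ N with hθ
    have hθ1 : |θ| ≤ 1 / 2 := by
      rw [hθ, abs_div, abs_of_pos hM, div_le_iff₀ hM]
      linarith
    set x : ℝ := -((θ + n) / 4 ^ N) with hx
    have hxabs : |x| = |θ + n| / 4 ^ N := by
      rw [hx, abs_neg, abs_div, abs_of_pos hM]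
    have hlow : |(n : ℝ)| / 2 ≤ |θ + n| := by
      have := abs_sub_abs_le_abs_sub (n : ℝ) (-θ)
      rw [abs_neg] at this
      have e : |(n : ℝ) - -θ| = |θ + n| := by congr 1; ring
      rw [e] at this
      linarith
    have hup : |θ + n| ≤ 1 / 2 + H := by
      refine (abs_add_le _ _).trans ?_
      linarith
    have hsin : |(n : ℝ)| / 4 ^ N ≤ |Real.sin (Real.pi * x)| := by
      apply w1_sin_lower
      · rw [hxabs]
        rw [← mul_div_assoc]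
        apply div_le_div_of_nonneg_right _ hM.le
        linarith
      · rw [div_le_iff₀ hM]; linarith
      · rw [hxabs, div_le_iff₀ hM]; linarith
    have htele := w1_tele (-H) H (by omega) x
    have hFr : Fr N = Ioc (-H) H := by unfold Fr; rw [← hHd]
    rw [hFr]
    set S : ℂ := ∑ s ∈ Ioc (-H) H, ee (x * s) with hS
    have hnum : ‖ee (x * (H + 1)) - ee (x * (((-H : ℤ) : ℝ) + 1))‖ ≤ 2 * Real.pi * |θ| := by
      have e1 : ee (x * (H + 1)) = ee (x * (((-H : ℤ) : ℝ) + 1)) * ee (-θ) := by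
        have e2 : ee (-θ) = ee (-θ + ((-n : ℤ) : ℝ)) := by
          rw [B7.1, B7.2.2.1, mul_one]
        rw [e2, ← B7.1]
        congr 1
        rw [hx]
        push_cast
        field_simp
        have : (H : ℝ) = 4 ^ N / 2 := by linarith
        rw [this]; ring
      rw [e1]
      have e3 : ee (x * (((-H : ℤ) : ℝ) + 1)) * ee (-θ) - ee (x * (((-H : ℤ) : ℝ) + 1)) =
          ee (x * (((-H : ℤ) : ℝ) + 1)) * (ee (-θ) - 1) := by ring
      rw [e3, norm_mul, B7.2.1, one_mul, w1_norm_sub_one, mul_neg, Real.sin_neg, abs_neg]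
      have : |Real.sin (Real.pi * θ)| ≤ |Real.pi * θ| := Real.abs_sin_le_abs
      rw [abs_mul, abs_of_pos Real.pi_pos] at this
      linarith
    have hprod : ‖ee x - 1‖ * ‖S‖ ≤ 2 * Real.pi * |θ| := by
      rw [← norm_mul, htele]; exact hnum
    rw [w1_norm_sub_one] at hprod
    have hS0 : 0 ≤ ‖S‖ := norm_nonneg _
    have h5 : 2 * (|(n : ℝ)| / 4 ^ N) * ‖S‖ ≤ 2 * Real.pi * |θ| := by
      refine le_trans ?_ hprod
      apply mul_le_mul_of_nonneg_right _ hS0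
      linarith
    have hθ2 : |θ| = |(c₂ : ℝ)| / 4 ^ N := by rw [hθ, abs_div, abs_of_pos hM]
    have h6 : |(n : ℝ)| * (‖S‖ / 4 ^ N) ≤ Real.pi * (|(c₂ : ℝ)| / 4 ^ N) := by
      rw [hθ2] at h5
      have : 2 * (|(n : ℝ)| / 4 ^ N) * ‖S‖ = 2 * (|(n : ℝ)| * (‖S‖ / 4 ^ N)) := by ring
      rw [this] at h5
      linarith
    have h7 : Real.pi * (|(c₂ : ℝ)| / 4 ^ N) ≤ 4 * (|(c₂ : ℝ)| / 4 ^ N) :=
      mul_le_mul_of_nonneg_right Real.pi_le_four (by positivity)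
    have hn0 : 0 < |(n : ℝ)| := by linarith
    have e9 : 4 * |(c₂ : ℝ)| / (4 ^ N * |(n : ℝ)|) = 4 * (|(c₂ : ℝ)| / 4 ^ N) / |(n : ℝ)| := by
      field_simp
    rw [e9, le_div_iff₀ hn0]
    linarith

lemma w1_orth (N : ℕ) (hN : 1 ≤ N) (s s₀ : ℤ) (hs : s ∈ Fr N) (hs₀ : s₀ ∈ Fr N) :
    ∑ n ∈ Fr N, ee ((n : ℝ) * (s₀ - s : ℤ) / 4 ^ N) = if s = s₀ then (4 : ℂ) ^ N else 0 := by
  have hH := w1_half N hN
  have hper : ∀ c : ℤ, ee (((c + 4 ^ N : ℤ) : ℝ) * (s₀ - s : ℤ) / 4 ^ N) = ee ((c : ℝ) * (s₀ - s : ℤ) / 4 ^ N) := by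
    intro c
    have : ((c + 4 ^ N : ℤ) : ℝ) * (s₀ - s : ℤ) / 4 ^ N = (c : ℝ) * (s₀ - s : ℤ) / 4 ^ N + ((s₀ - s : ℤ) : ℝ) := by
      push_cast; field_simp
    rw [this, B7.1, B7.2.2.1, mul_one]
  rw [B12 N hN (fun n : ℤ => ee ((n : ℝ) * (s₀ - s : ℤ) / 4 ^ N)) hper]
  simp only [Int.cast_natCast]
  rw [B10]
  unfold Fr at hs hs₀
  rw [Finset.mem_Ioc] at hs hs₀
  by_cases h : s = s₀
  · rw [if_pos h, if_pos (by rw [h, sub_self]; exact dvd_zero _)]
  · rw [if_neg h, if_neg]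
    intro hd
    apply h
    have h0 : s₀ - s = 0 := by
      apply Int.eq_zero_of_abs_lt_dvd hd
      rw [abs_lt]
      constructor <;> omega
    omega

lemma w1_four (N : ℕ) (hN : 1 ≤ N) (c₂ s₀ : ℤ) (hs₀ : s₀ ∈ Fr N) :
    ee (-((c₂ : ℝ) / 4 ^ N / 4 ^ N) * s₀) = ∑ n ∈ Fr N, w1g N c₂ n * ee ((n : ℝ) * s₀ / 4 ^ N) := by
  have h4 : (4 : ℂ) ^ N ≠ 0 := pow_ne_zero _ (by norm_num)
  unfold w1g
  have e1 : ∀ n ∈ Fr N, (∑ s ∈ Fr N, ee (-(((c₂ : ℝ) / 4 ^ N + n) / 4 ^ N) * s)) / 4 ^ N * ee ((n : ℝ) * s₀ / 4 ^ N) =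
      ∑ s ∈ Fr N, ee (-((c₂ : ℝ) / 4 ^ N / 4 ^ N) * s) * ee ((n : ℝ) * (s₀ - s : ℤ) / 4 ^ N) / 4 ^ N := by
    intro n _
    rw [div_mul_eq_mul_div, Finset.sum_mul, Finset.sum_div]
    refine Finset.sum_congr rfl (fun s _ => ?_)
    rw [← B7.1, ← B7.1]
    congr 2
    push_cast
    field_simp
    ring
  rw [Finset.sum_congr rfl e1, Finset.sum_comm]
  have e2 : ∀ s ∈ Fr N, ∑ n ∈ Fr N, ee (-((c₂ : ℝ) / 4 ^ N / 4 ^ N) * s) * ee ((n : ℝ) * (s₀ - s : ℤ) / 4 ^ N) / 4 ^ N =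
      if s = s₀ then ee (-((c₂ : ℝ) / 4 ^ N / 4 ^ N) * s) else 0 := by
    intro s hs
    rw [← Finset.sum_div, ← Finset.mul_sum, w1_orth N hN s s₀ hs hs₀]
    split_ifs with h
    · field_simp
    · simp
  rw [Finset.sum_congr rfl e2, Finset.sum_ite_eq', if_pos hs₀]

lemma w1_res (N : ℕ) (hN : 1 ≤ N) (k m : ℤ) (hk : Odd k) (hm : m ∈ Lset N) :
    k * m - 4 ^ N * hi N k m ∈ Fr N := by
  have hH := w1_half N hN
  have hM : (0 : ℝ) < 4 ^ N := by positivity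
  unfold Fr
  rw [Finset.mem_Ioc]
  set H : ℤ := 4 ^ N / 2 with hHd
  have hHr : 2 * (H : ℝ) = 4 ^ N := by exact_mod_cast hH
  have hHp : (0 : ℤ) < H := by
    have : (0 : ℤ) < 4 ^ N := by positivity
    omega
  have h1 : |((k * m : ℤ) : ℝ) / 4 ^ N - hi N k m| ≤ 1 / 2 := by
    unfold hi; exact abs_sub_round _
  have h2 : |((k * m - 4 ^ N * hi N k m : ℤ) : ℝ)| ≤ H := by
    have e : ((k * m - 4 ^ N * hi N k m : ℤ) : ℝ) = (((k * m : ℤ) : ℝ) / 4 ^ N - hi N k m) * 4 ^ N := by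
      push_cast; field_simp
    rw [e, abs_mul, abs_of_pos hM]
    nlinarith
  have h3 : |k * m - 4 ^ N * hi N k m| ≤ H := by exact_mod_cast h2
  rw [abs_le] at h3
  refine ⟨lt_of_le_of_ne h3.1 ?_, h3.2⟩
  intro heq
  have hdvd : H ∣ k * m := ⟨2 * hi N k m - 1, by linear_combination (-heq) - hi N k m * hH⟩
  have hcop : IsCoprime H k := by
    have h4 : IsCoprime ((4 : ℤ) ^ N) k := by
      apply IsCoprime.pow_left
      have : IsCoprime ((2 : ℤ) * 2) k := by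
        have h2 : IsCoprime (2 : ℤ) k := by
          rw [Int.isCoprime_iff_gcd_eq_one]
          obtain ⟨j, rfl⟩ := hk
          have : Int.gcd 2 (2 * j + 1) = 1 := by
            rw [← Int.isCoprime_iff_gcd_eq_one]
            exact ⟨-j, 1, by ring⟩
          exact this
        exact h2.mul_left h2
      simpa using this
    rw [← hH] at h4
    exact h4.of_mul_left_right
  have hdm : H ∣ m := hcop.dvd_of_dvd_mul_left hdvd
  have hmb := B2.1 N m hm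
  have hm0 : m = 0 := by
    apply Int.eq_zero_of_abs_lt_dvd hdm
    omega
  rw [hm0] at heq
  have : H * (2 * hi N k 0 - 1) = 0 := by
    rw [← hH] at heq
    linear_combination heq
  rcases mul_eq_zero.1 this with h | h
  · omega
  · omega

/-- Row W1.  Fourier expansion of the rounding phase, integrated: bound for the overlaps. -/
theorem W1 (N : ℕ) (hN : 1 ≤ N) (k c₁ c₂ : ℤ) (hk : Odd k) (hc : c₂ ∈ Fr N) :
    ‖Wov N k c₁ c₂‖ ≤ ∑ n ∈ Fr N, cb N c₂ n * |GG (1 / 3) N (k * bet N c₁ c₂ n)| := by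
  have hM : (0 : ℝ) < 4 ^ N := by positivity
  have key : Wov N k c₁ c₂ = ∑ n ∈ Fr N, w1g N c₂ n * (GG (1 / 3) N (k * bet N c₁ c₂ n) : ℂ) := by
    have e1 : ∀ m ∈ Lset N, ee ((c₁ : ℝ) * (k * m : ℤ) / 4 ^ N) * ee ((c₂ : ℝ) * hi N k m / 4 ^ N) =
        ∑ n ∈ Fr N, w1g N c₂ n * ee (k * bet N c₁ c₂ n * m) := by
      intro m hm
      have hs₀ := w1_res N hN k m hk hm
      have h1 : ee ((c₂ : ℝ) * hi N k m / 4 ^ N) = ee ((c₂ : ℝ) / 4 ^ N * (k * m : ℤ) / 4 ^ N) *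
          ee (-((c₂ : ℝ) / 4 ^ N / 4 ^ N) * (k * m - 4 ^ N * hi N k m : ℤ)) := by
        rw [← B7.1]
        congr 1
        push_cast
        field_simp
        ring
      rw [h1, w1_four N hN c₂ _ hs₀, ← mul_assoc, Finset.mul_sum]
      refine Finset.sum_congr rfl (fun n _ => ?_)
      have h2 : ee ((n : ℝ) * (k * m - 4 ^ N * hi N k m : ℤ) / 4 ^ N) = ee ((n : ℝ) * (k * m : ℤ) / 4 ^ N) := by
        have : (n : ℝ) * (k * m - 4 ^ N * hi N k m : ℤ) / 4 ^ N =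
            (n : ℝ) * (k * m : ℤ) / 4 ^ N + ((-(n * hi N k m) : ℤ) : ℝ) := by
          push_cast; field_simp; ring
        rw [this, B7.1, B7.2.2.1, mul_one]
      rw [h2]
      have h3 : ee (k * bet N c₁ c₂ n * m) = ee ((c₁ : ℝ) * (k * m : ℤ) / 4 ^ N) *
          ee ((c₂ : ℝ) / 4 ^ N * (k * m : ℤ) / 4 ^ N) * ee ((n : ℝ) * (k * m : ℤ) / 4 ^ N) := by
        rw [← B7.1, ← B7.1]
        congr 1
        unfold bet
        push_cast
        field_simp
        ring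
      rw [h3]; ring
    unfold Wov avgC
    rw [Finset.sum_congr rfl e1, Finset.sum_comm, Finset.sum_div]
    refine Finset.sum_congr rfl (fun n _ => ?_)
    rw [← Finset.mul_sum, mul_div_assoc]
    congr 1
    have := B9 N (k * bet N c₁ c₂ n)
    unfold avgC at this
    exact this
  rw [key]
  refine (norm_sum_le _ _).trans (Finset.sum_le_sum (fun n hn => ?_))
  rw [norm_mul, Complex.norm_real, Real.norm_eq_abs]
  exact mul_le_mul_of_nonneg_right (w1_g N hN c₂ n hc hn) (abs_nonneg _)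

end Pool.Agent.C52.RW1
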