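import Pool.Agent.Lib.MP_c52340_c5.Defs


set_option autoImplicit false

open Finset


namespace Pool.Agent.C52.RW3

private lemma single_W3 (N g : ℕ) (hN : 1 ≤ N) (hg : 4 * g + 1 ≤ N) (c₁ c₂ : ℤ) (d : ℕ) (hd : 1 ≤ d)
    (S : Finset ℤ) (hS : S ⊆ Fr N)
    (hr : ∀ n ∈ S, |2 * d * bet N c₁ c₂ n - round (2 * d * bet N c₁ c₂ n)| ≤ 4 ^ (4 * g) / 4 ^ (2 * N)) :
    S.card ≤ 2 * d := by
  rcases S.eq_empty_or_nonempty with h0 | ⟨n₀, hn₀⟩
  · rw [h0]; simp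
  have hM : (0 : ℝ) < 4 ^ N := by positivity
  have hMz : (0 : ℤ) < 4 ^ N := by positivity
  -- divisibility
  have hdiv : ∀ n ∈ S, ∃ t : ℤ, 2 * d * (n - n₀) = 4 ^ N * t := by
    intro n hn
    refine ⟨round (2 * d * bet N c₁ c₂ n) - round (2 * d * bet N c₁ c₂ n₀), ?_⟩
    have h1 := hr n hn
    have h2 := hr n₀ hn₀
    set r1 := round (2 * d * bet N c₁ c₂ n) with hr1
    set r2 := round (2 * d * bet N c₁ c₂ n₀) with hr2
    have e1 : 2 * (d : ℝ) * bet N c₁ c₂ n - 2 * d * bet N c₁ c₂ n₀ = 2 * d * (n - n₀) / 4 ^ N := by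
      unfold bet
      field_simp
      ring
    have h3 : |2 * (d : ℝ) * (n - n₀) / 4 ^ N - (r1 - r2)| ≤ 2 * (4 ^ (4 * g) / 4 ^ (2 * N)) := by
      rw [← e1]
      have : 2 * (d : ℝ) * bet N c₁ c₂ n - 2 * d * bet N c₁ c₂ n₀ - (r1 - r2) =
          (2 * d * bet N c₁ c₂ n - r1) - (2 * d * bet N c₁ c₂ n₀ - r2) := by ring
      rw [this]
      calc |(2 * d * bet N c₁ c₂ n - r1) - (2 * d * bet N c₁ c₂ n₀ - r2)|
          ≤ |2 * d * bet N c₁ c₂ n - r1| + |2 * d * bet N c₁ c₂ n₀ - r2| := abs_sub _ _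
        _ ≤ _ := by linarith
    have h4 : |2 * (d : ℝ) * (n - n₀) - 4 ^ N * (r1 - r2)| < 1 := by
      have e2 : 2 * (d : ℝ) * (n - n₀) - 4 ^ N * (r1 - r2) =
          4 ^ N * (2 * (d : ℝ) * (n - n₀) / 4 ^ N - (r1 - r2)) := by
        field_simp
      rw [e2, abs_mul, abs_of_pos hM]
      have h5 : (4 : ℝ) ^ N * |2 * (d : ℝ) * (n - n₀) / 4 ^ N - (r1 - r2)| ≤
          4 ^ N * (2 * (4 ^ (4 * g) / 4 ^ (2 * N))) := mul_le_mul_of_nonneg_left h3 hM.le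
      have h6 : (4 : ℝ) ^ (4 * g + 1) ≤ 4 ^ N := pow_le_pow_right₀ (by norm_num) hg
      have h7 : (4 : ℝ) ^ N * (2 * (4 ^ (4 * g) / 4 ^ (2 * N))) = 2 * 4 ^ (4 * g) / 4 ^ N := by
        have : (4 : ℝ) ^ (2 * N) = 4 ^ N * 4 ^ N := by rw [two_mul, pow_add]
        rw [this]
        field_simp
      have h8 : 2 * (4 : ℝ) ^ (4 * g) / 4 ^ N < 1 := by
        rw [div_lt_one hM]
        have h9 : (4 : ℝ) ^ (4 * g + 1) = 4 * 4 ^ (4 * g) := by ring
        have h10 : (0 : ℝ) < 4 ^ (4 * g) := by positivity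
        linarith
      linarith
    have h5 : |(2 * (d : ℤ) * (n - n₀) - 4 ^ N * (r1 - r2) : ℤ)| < 1 := by
      have : ((|(2 * (d : ℤ) * (n - n₀) - 4 ^ N * (r1 - r2) : ℤ)| : ℤ) : ℝ) < 1 := by
        push_cast
        exact h4
      exact_mod_cast this
    have h6 : (2 * (d : ℤ) * (n - n₀) - 4 ^ N * (r1 - r2) : ℤ) = 0 := Int.abs_lt_one_iff.mp h5
    linarith
  choose! t ht using hdiv
  have hinj : Set.InjOn t S := by
    intro n hn n' hn' h
    have h1 := ht n hn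
    have h2 := ht n' hn'
    rw [h] at h1
    have h3 : 2 * (d : ℤ) * (n - n') = 0 := by linarith
    have h4 : (2 * (d : ℤ)) ≠ 0 := by
      have : (0 : ℤ) < d := by exact_mod_cast hd
      linarith
    rcases mul_eq_zero.mp h3 with h5 | h5
    · exact absurd h5 h4
    · linarith
  obtain ⟨N', rfl⟩ := Nat.exists_eq_add_of_le' hN
  have hM2 : (4 : ℤ) ^ (N' + 1) / 2 = 2 * 4 ^ N' := by
    have : (4 : ℤ) ^ (N' + 1) = 2 * (2 * 4 ^ N') := by ring
    omega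
  have hM3 : (4 : ℤ) ^ (N' + 1) = 2 * (2 * 4 ^ N') := by ring
  have hmap : Set.MapsTo t S (Finset.Ioc ((2 * d * (-(2 * 4 ^ N') - n₀)) / 4 ^ (N' + 1))
      ((2 * d * (-(2 * 4 ^ N') - n₀)) / 4 ^ (N' + 1) + 2 * d) : Finset ℤ) := by
    intro n hn
    have h1 := ht n hn
    have h2 := hS hn
    simp only [Fr, mem_Ioc, hM2] at h2
    have hd0 : (0 : ℤ) < d := by exact_mod_cast hd
    simp only [Finset.coe_Ioc, Set.mem_Ioc]
    constructor
    · apply Int.ediv_lt_of_lt_mul hMz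
      rw [mul_comm (t n), ← h1]
      nlinarith [h2.1]
    · have : t n - 2 * d ≤ (2 * d * (-(2 * 4 ^ N') - n₀)) / 4 ^ (N' + 1) := by
        apply Int.le_ediv_of_mul_le hMz
        have h3 : (t n - 2 * d) * 4 ^ (N' + 1) = 4 ^ (N' + 1) * t n - 2 * d * (2 * (2 * 4 ^ N')) := by
          rw [hM3]; ring
        rw [h3, ← h1]
        nlinarith [h2.2]
      linarith
  have hcard := Finset.card_le_card_of_injOn t hmap hinj
  rw [Int.card_Ioc] at hcard
  have : ((2 * d * (-(2 * 4 ^ N') - n₀)) / 4 ^ (N' + 1) + 2 * d -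
      (2 * d * (-(2 * 4 ^ N') - n₀)) / 4 ^ (N' + 1) : ℤ).toNat = 2 * d := by
    rw [add_sub_cancel_left]
    exact_mod_cast Int.toNat_natCast (2 * d)
  rw [this] at hcard
  exact hcard

/-- Row W3.  Counting resonances.
Recipe: fix `1 ≤ d ≤ 4^g`; if `n, n'` are resonant with this `d` then `2 d (n - n')/M` is within
`2 * 4^(4g)/4^(2N) < 1/M` of an integer, hence `M ∣ 2 d (n - n')`, i.e. `n ≡ n'` modulo `M/gcd(2d, M)`: at most `gcd ≤ 2d`
values in the complete residue system `Fr N`.  Sum over `d`: `4^g (4^g + 1) ≤ 2 * 16^g`. -/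
theorem W3 (N g : ℕ) (hN : 1 ≤ N) (hg : 4 * g + 1 ≤ N) (c₁ c₂ : ℤ) :
    ((resF N g c₁ c₂).card : ℝ) ≤ 2 * 16 ^ g := by
  classical
  have hsub : resF N g c₁ c₂ ⊆ (Finset.Icc 1 (4 ^ g)).biUnion (fun d : ℕ => (Fr N).filter
      (fun n => |2 * d * bet N c₁ c₂ n - round (2 * d * bet N c₁ c₂ n)| ≤ 4 ^ (4 * g) / 4 ^ (2 * N))) := by
    intro n hn
    unfold resF at hn
    simp only [mem_filter] at hn
    obtain ⟨hn1, d, hd1, hd2, hd3⟩ := hn
    simp only [mem_biUnion, mem_filter, mem_Icc]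
    exact ⟨d, ⟨hd1, hd2⟩, hn1, hd3⟩
  have h1 : (resF N g c₁ c₂).card ≤ 2 * 4 ^ g * 4 ^ g := by
    calc (resF N g c₁ c₂).card ≤ _ := Finset.card_le_card hsub
      _ ≤ ∑ d ∈ Finset.Icc (1 : ℕ) (4 ^ g), ((Fr N).filter
      (fun n => |2 * (d : ℝ) * bet N c₁ c₂ n - round (2 * d * bet N c₁ c₂ n)| ≤ 4 ^ (4 * g) / 4 ^ (2 * N))).card :=
          Finset.card_biUnion_le
      _ ≤ ∑ d ∈ Finset.Icc (1 : ℕ) (4 ^ g), 2 * 4 ^ g := by
          apply Finset.sum_le_sum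
          intro d hd
          simp only [mem_Icc] at hd
          refine (single_W3 N g hN hg c₁ c₂ d hd.1 _ (Finset.filter_subset _ _) ?_).trans ?_
          · intro n hn
            simp only [mem_filter] at hn
            exact hn.2
          · exact Nat.mul_le_mul_left 2 hd.2
      _ = 2 * 4 ^ g * 4 ^ g := by
          rw [Finset.sum_const, Nat.card_Icc, smul_eq_mul]
          simp
          ring
  have h2 : (2 * 4 ^ g * 4 ^ g : ℕ) = 2 * 16 ^ g := by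
    rw [mul_assoc, ← mul_pow]; norm_num
  rw [h2] at h1
  exact_mod_cast h1

end Pool.Agent.C52.RW3
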