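import Pool.Agent.Lib.MP_c52340_c5.Defs
import Pool.Agent.Lib.MP_c52340_c5.A7
import Pool.Agent.Lib.MP_c52340_c5.W2


set_option autoImplicit false

open Finset

open Pool.Agent.C52.RA7 (A7)
open Pool.Agent.C52.RW2 (W2)

namespace Pool.Agent.C52.RW4

private lemma card_Odds (N : ℕ) : ((Odds N).card : ℝ) ≤ 4 ^ N := by
  have h : (Odds N).card ≤ 4 ^ N := by
    unfold Odds
    refine (Finset.card_filter_le _ _).trans ?_
    rw [Int.card_Ico, sub_zero]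
    have : ((4 : ℤ) ^ N).toNat = 4 ^ N := by
      have : ((4 : ℤ) ^ N) = ((4 ^ N : ℕ) : ℤ) := by push_cast; rfl
      rw [this, Int.toNat_natCast]
    rw [this]
  exact_mod_cast h

/-- Row W4.  Average over `k` of the nonresonant part.
Recipe: A7, Cauchy-Schwarz over `k` (`(Odds N).card ≤ 4^N`), W2: `8 (N+1) * 4^N * sqrt(10/3^g)`. -/
theorem W4 (N g : ℕ) (hN : 1 ≤ N) (hg : 3 * g ≤ N) (c₁ c₂ : ℤ) (hc : c₂ ∈ Fr N) :
    ∑ k ∈ Odds N, ∑ n ∈ nresF N g c₁ c₂,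
      cb N c₂ n * |GG (1 / 3) N (k * bet N c₁ c₂ n)| ≤ 32 * (N + 1) * 4 ^ N / Real.sqrt (3 ^ g) := by
  classical
  obtain ⟨hW1, hW2, _⟩ := W2 N hN c₂ hc
  have hs3 : 0 < Real.sqrt (3 ^ g) := Real.sqrt_pos.2 (by positivity)
  have h4 : (0 : ℝ) < 4 ^ N := by positivity
  -- one n
  have hone : ∀ n ∈ nresF N g c₁ c₂,
      ∑ k ∈ Odds N, |GG (1 / 3) N (k * bet N c₁ c₂ n)| ≤ 4 * 4 ^ N / Real.sqrt (3 ^ g) := by
    intro n hn
    have hnr : ¬ Res N g (bet N c₁ c₂ n) := by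
      unfold nresF at hn
      exact (Finset.mem_filter.1 hn).2
    have h1 := A7 N g hg (bet N c₁ c₂ n) hnr
    have h2 := sq_sum_le_card_mul_sum_sq (s := Odds N)
      (f := fun k : ℤ => |GG (1 / 3) N (k * bet N c₁ c₂ n)|)
    have h0 : 0 ≤ ∑ k ∈ Odds N, |GG (1 / 3) N ((k : ℝ) * bet N c₁ c₂ n)| :=
      Finset.sum_nonneg fun _ _ => abs_nonneg _
    have h3 : (∑ k ∈ Odds N, |GG (1 / 3) N ((k : ℝ) * bet N c₁ c₂ n)|) ^ 2 ≤
        4 ^ N * (10 * 4 ^ N / 3 ^ g) := by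
      refine h2.trans ?_
      refine mul_le_mul (card_Odds N) h1 (Finset.sum_nonneg fun _ _ => by positivity) h4.le
    apply abs_le_of_sq_le_sq' _ (by positivity) |>.2
    refine h3.trans ?_
    rw [div_pow, Real.sq_sqrt (by positivity)]
    have h5 : (0 : ℝ) < 3 ^ g := by positivity
    rw [← mul_div_assoc, div_le_div_iff_of_pos_right h5]
    nlinarith [mul_pos h4 h4]
  rw [Finset.sum_comm]
  have hsub : nresF N g c₁ c₂ ⊆ Fr N := by
    unfold nresF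
    exact Finset.filter_subset _ _
  calc ∑ n ∈ nresF N g c₁ c₂, ∑ k ∈ Odds N, cb N c₂ n * |GG (1 / 3) N (k * bet N c₁ c₂ n)|
      ≤ ∑ n ∈ nresF N g c₁ c₂, cb N c₂ n * (4 * 4 ^ N / Real.sqrt (3 ^ g)) := by
        apply Finset.sum_le_sum
        intro n hn
        rw [← Finset.mul_sum]
        exact mul_le_mul_of_nonneg_left (hone n hn) (hW2 n)
    _ = (∑ n ∈ nresF N g c₁ c₂, cb N c₂ n) * (4 * 4 ^ N / Real.sqrt (3 ^ g)) := by
        rw [Finset.sum_mul]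
    _ ≤ (8 * (N + 1)) * (4 * 4 ^ N / Real.sqrt (3 ^ g)) := by
        apply mul_le_mul_of_nonneg_right _ (by positivity)
        exact (Finset.sum_le_sum_of_subset_of_nonneg hsub fun n _ _ => hW2 n).trans hW1
    _ = 32 * (N + 1) * 4 ^ N / Real.sqrt (3 ^ g) := by ring

end Pool.Agent.C52.RW4
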