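import Pool.Agent.Lib.MP_c52340_c5.Defs
import Pool.Agent.Lib.MP_c52340_c5.B13
import Pool.Agent.Lib.MP_c52340_c5.W1
import Pool.Agent.Lib.MP_c52340_c5.W2
import Pool.Agent.Lib.MP_c52340_c5.W3
import Pool.Agent.Lib.MP_c52340_c5.W4


set_option autoImplicit false

open Finset

open Pool.Agent.C52.RB13 (B13)
open Pool.Agent.C52.RW1 (W1)
open Pool.Agent.C52.RW2 (W2)
open Pool.Agent.C52.RW3 (W3)
open Pool.Agent.C52.RW4 (W4)

namespace Pool.Agent.C52.RG14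

private theorem g14_num : ∃ N₀ : ℕ, ∀ N ≥ N₀,
    32 * ((N : ℝ) + 1) / Real.sqrt (3 ^ (N / 16)) + 16 * 16 ^ (N / 16) / 4 ^ (N - N / 16) ≤
      (0.975 : ℝ) ^ N := by
  have h1 : Filter.Tendsto (fun n : ℕ => (n : ℝ) * (20 / 23 : ℝ) ^ n) Filter.atTop (nhds 0) :=
    tendsto_self_mul_const_pow_of_lt_one (by norm_num) (by norm_num)
  have h2 : Filter.Tendsto (fun n : ℕ => (20 / 23 : ℝ) ^ n) Filter.atTop (nhds 0) :=
    tendsto_pow_atTop_nhds_zero_of_lt_one (by norm_num) (by norm_num)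
  have h3 := h1.add h2
  rw [add_zero] at h3
  have h4 := h3.eventually (gt_mem_nhds (show (0 : ℝ) < 0.975 ^ 15 / 1024 by positivity))
  rw [Filter.eventually_atTop] at h4
  obtain ⟨g₀, hg₀⟩ := h4
  refine ⟨16 * g₀ + 16, fun N hN => ?_⟩
  obtain ⟨g, hg⟩ : ∃ g, g = N / 16 := ⟨_, rfl⟩
  rw [← hg]
  have hgN : 16 * g ≤ N := by omega
  have hgN' : N ≤ 16 * g + 15 := by omega
  have h5 := hg₀ g (by omega)
  have h6 : (1.73 : ℝ) ^ g ≤ Real.sqrt (3 ^ g) := by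
    rw [Real.le_sqrt' (by positivity), ← pow_mul, mul_comm g 2, pow_mul]
    exact pow_le_pow_left₀ (by norm_num) (by norm_num) g
  have h7 : (0 : ℝ) < 1.73 ^ g := by positivity
  have h8 : (N : ℝ) + 1 ≤ 16 * (g + 1) := by
    have : (N : ℝ) ≤ 16 * g + 15 := by exact_mod_cast hgN'
    linarith
  have hg0 : (0 : ℝ) ≤ g := Nat.cast_nonneg g
  have hP1 : 32 * ((N : ℝ) + 1) / Real.sqrt (3 ^ g) ≤ 512 * ((g : ℝ) + 1) / 1.73 ^ g := by
    refine div_le_div₀ (by positivity) (by linarith) h7 h6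
  have hP2 : (16 : ℝ) * 16 ^ g / 4 ^ (N - g) ≤ 512 * ((g : ℝ) + 1) / 1.73 ^ g := by
    have h9 : (4 : ℝ) ^ (15 * g) ≤ 4 ^ (N - g) := pow_le_pow_right₀ (by norm_num) (by omega)
    have h10 : (16 : ℝ) * 16 ^ g / 4 ^ (N - g) ≤ 16 * 16 ^ g / 4 ^ (15 * g) :=
      div_le_div_of_nonneg_left (by positivity) (by positivity) h9
    refine h10.trans ?_
    rw [div_le_div_iff₀ (by positivity) (by positivity)]
    have h11 : (16 : ℝ) ^ g * 1.73 ^ g ≤ 4 ^ (15 * g) := by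
      rw [← mul_pow, pow_mul]
      exact pow_le_pow_left₀ (by norm_num) (by norm_num) g
    have h12 : (0 : ℝ) < 4 ^ (15 * g) := by positivity
    nlinarith [mul_nonneg hg0 h12.le]
  have hP3 : 1024 * (((g : ℝ) + 1) / 1.73 ^ g) ≤ (0.975 : ℝ) ^ (16 * g + 15) := by
    have h9 : ((g : ℝ) + 1) * (20 / 23) ^ g ≤ 0.975 ^ 15 / 1024 := by
      have : ((g : ℝ) + 1) * (20 / 23) ^ g = (g : ℝ) * (20 / 23) ^ g + (20 / 23) ^ g := by ring
      rw [this]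
      exact h5.le
    have h10 : 1 / (1.73 : ℝ) ^ g ≤ (20 / 23) ^ g * (0.975 ^ 16) ^ g := by
      rw [← mul_pow, ← one_div_pow]
      exact pow_le_pow_left₀ (by norm_num) (by norm_num) g
    have h11 : (0 : ℝ) < (0.975 ^ 16) ^ g := by positivity
    rw [pow_add, pow_mul]
    calc 1024 * (((g : ℝ) + 1) / 1.73 ^ g) = 1024 * (((g : ℝ) + 1) * (1 / 1.73 ^ g)) := by ring
      _ ≤ 1024 * (((g : ℝ) + 1) * ((20 / 23) ^ g * (0.975 ^ 16) ^ g)) := by gcongr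
      _ = 1024 * ((((g : ℝ) + 1) * (20 / 23) ^ g) * (0.975 ^ 16) ^ g) := by ring
      _ ≤ 1024 * ((0.975 ^ 15 / 1024) * (0.975 ^ 16) ^ g) := by gcongr
      _ = _ := by ring
  have hP4 : (0.975 : ℝ) ^ (16 * g + 15) ≤ 0.975 ^ N :=
    pow_le_pow_of_le_one (by norm_num) (by norm_num) hgN'
  have hP5 : 512 * ((g : ℝ) + 1) / 1.73 ^ g + 512 * ((g : ℝ) + 1) / 1.73 ^ g =
      1024 * (((g : ℝ) + 1) / 1.73 ^ g) := by ring
  linarith

/-- a resonance with `c₁ = 0` and `c₂` of low level forces `n` to be large -/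
private theorem g14_res (N g h : ℕ) (hhg : h + 4 * g < N) (c₂ n : ℤ) (hc : c₂ ∈ Fr N) (hc0 : c₂ ≠ 0)
    (hd : (4 : ℤ) ^ (N - h) ∣ c₂) (hres : Res N g (bet N 0 c₂ n)) :
    n ≠ 0 ∧ (4 : ℝ) ^ (N - g) / 4 ≤ |(n : ℝ)| := by
  obtain ⟨d, hd1, hd2, hdr⟩ := hres
  obtain ⟨c', hc'⟩ := hd
  obtain ⟨A, hA⟩ : ∃ A : ℤ, A = round (2 * (d : ℝ) * bet N 0 c₂ n) := ⟨_, rfl⟩
  rw [← hA] at hdr
  have hpow : (4 : ℝ) ^ h * 4 ^ (N - h) = 4 ^ N := by
    rw [← pow_add]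
    congr 1
    omega
  have hpowZ : (4 : ℤ) ^ h * 4 ^ (N - h) = 4 ^ N := by
    rw [← pow_add]
    congr 1
    omega
  have hcR : (c₂ : ℝ) = 4 ^ (N - h) * c' := by rw [hc']; push_cast; ring
  have h4N : (0 : ℝ) < 4 ^ N := by positivity
  have h4h : (0 : ℝ) < 4 ^ h := by positivity
  -- the integer `Z`
  have h1 : ((2 * d * (c' + 4 ^ h * n) - A * 4 ^ (N + h) : ℤ) : ℝ) =
      4 ^ (N + h) * (2 * (d : ℝ) * bet N 0 c₂ n - A) := by
    unfold bet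
    rw [hcR]
    push_cast
    rw [pow_add]
    have h2 : (4 : ℝ) ^ (N - h) * c' / 4 ^ N = c' / 4 ^ h := by
      rw [div_eq_div_iff h4N.ne' h4h.ne', ← hpow]
      ring
    rw [h2]
    field_simp
    ring
  have h3 : |((2 * d * (c' + 4 ^ h * n) - A * 4 ^ (N + h) : ℤ) : ℝ)| < 1 := by
    rw [h1, abs_mul, abs_of_pos (show (0 : ℝ) < 4 ^ (N + h) by positivity)]
    have h4 : (4 : ℝ) ^ (N + h) * |2 * (d : ℝ) * bet N 0 c₂ n - A| ≤
        4 ^ (N + h) * (4 ^ (4 * g) / 4 ^ (2 * N)) := mul_le_mul_of_nonneg_left hdr (by positivity)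
    refine h4.trans_lt ?_
    rw [← mul_div_assoc, div_lt_one (by positivity), ← pow_add]
    exact pow_lt_pow_right₀ (by norm_num) (by omega)
  have hZ : 2 * (d : ℤ) * (c' + 4 ^ h * n) - A * 4 ^ (N + h) = 0 := by
    rw [← Int.cast_abs] at h3
    have h4 : |2 * (d : ℤ) * (c' + 4 ^ h * n) - A * 4 ^ (N + h)| < 1 := by exact_mod_cast h3
    exact Int.abs_lt_one_iff.mp h4
  -- nonvanishing
  have hFr : 2 * |c₂| ≤ 4 ^ N := by
    unfold Fr at hc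
    rw [mem_Ioc] at hc
    have h5 : 2 * ((4 : ℤ) ^ N / 2) ≤ 4 ^ N := Int.mul_ediv_self_le (by norm_num)
    have h6 : |c₂| ≤ 4 ^ N / 2 := abs_le.mpr ⟨hc.1.le, hc.2⟩
    linarith
  have h4NZ : (0 : ℤ) < 4 ^ N := by positivity
  have hne : c₂ + 4 ^ N * n ≠ 0 := by
    intro h0
    rcases eq_or_ne n 0 with hn | hn
    · rw [hn] at h0
      apply hc0
      linarith
    · have h5 : |c₂| = 4 ^ N * |n| := by
        have h6 : c₂ = -(4 ^ N * n) := by linarith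
        rw [h6, abs_neg, abs_mul, abs_of_pos h4NZ]
      have h6 : 1 ≤ |n| := Int.one_le_abs hn
      nlinarith
  have hne' : c' + 4 ^ h * n ≠ 0 := by
    intro h0
    apply hne
    rw [hc', ← hpowZ]
    calc 4 ^ (N - h) * c' + 4 ^ h * 4 ^ (N - h) * n = 4 ^ (N - h) * (c' + 4 ^ h * n) := by ring
      _ = 0 := by rw [h0, mul_zero]
  have hA0 : A ≠ 0 := by
    intro h0
    rw [h0, zero_mul, sub_zero] at hZ
    rcases mul_eq_zero.mp hZ with h5 | h5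
    · have : (d : ℤ) ≠ 0 := by
        have : 0 < d := hd1
        exact_mod_cast this.ne'
      omega
    · exact hne' h5
  -- size
  have h5 : (4 : ℤ) ^ (N + h) ≤ 2 * d * |c' + 4 ^ h * n| := by
    have h6 : 2 * (d : ℤ) * (c' + 4 ^ h * n) = A * 4 ^ (N + h) := by linarith
    have h7 : |2 * (d : ℤ) * (c' + 4 ^ h * n)| = |A| * 4 ^ (N + h) := by
      rw [h6, abs_mul, abs_of_pos (show (0 : ℤ) < 4 ^ (N + h) by positivity)]
    have h8 : |2 * (d : ℤ) * (c' + 4 ^ h * n)| = 2 * d * |c' + 4 ^ h * n| := by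
      rw [abs_mul, abs_of_nonneg (show (0 : ℤ) ≤ 2 * d by positivity)]
    have h9 : 1 ≤ |A| := Int.one_le_abs hA0
    rw [← h8, h7]
    exact le_mul_of_one_le_left (by positivity) h9
  have h6 : (4 : ℝ) ^ (N + h) ≤ 2 * d * |(c' : ℝ) + 4 ^ h * n| := by exact_mod_cast h5
  have h7 : |(c' : ℝ) + 4 ^ h * n| ≤ |(c' : ℝ)| + 4 ^ h * |(n : ℝ)| := by
    refine (abs_add_le _ _).trans ?_
    rw [abs_mul, abs_of_pos h4h]
  have h8 : 2 * |(c' : ℝ)| ≤ 4 ^ h := by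
    have h9 : 2 * |(c₂ : ℝ)| ≤ 4 ^ N := by exact_mod_cast hFr
    rw [hcR, abs_mul, abs_of_pos (show (0 : ℝ) < 4 ^ (N - h) by positivity), ← hpow] at h9
    have h10 : (0 : ℝ) < 4 ^ (N - h) := by positivity
    nlinarith
  have h9 : (d : ℝ) ≤ 4 ^ g := by exact_mod_cast hd2
  have h10 : (4 : ℝ) ^ (N + h) ≤ 2 * 4 ^ g * (4 ^ h / 2 + 4 ^ h * |(n : ℝ)|) := by
    refine h6.trans ?_
    have h11 : |(c' : ℝ) + 4 ^ h * n| ≤ 4 ^ h / 2 + 4 ^ h * |(n : ℝ)| := by linarith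
    exact mul_le_mul (by linarith) h11 (abs_nonneg _) (by positivity)
  have h11 : (4 : ℝ) ^ N ≤ 4 ^ g * (1 + 2 * |(n : ℝ)|) := by
    rw [pow_add] at h10
    have h12 : 2 * (4 : ℝ) ^ g * (4 ^ h / 2 + 4 ^ h * |(n : ℝ)|) =
        (4 ^ g * (1 + 2 * |(n : ℝ)|)) * 4 ^ h := by ring
    rw [h12] at h10
    exact le_of_mul_le_mul_right h10 h4h
  have h12 : (4 : ℝ) ^ N = 4 ^ g * 4 ^ (N - g) := by
    rw [← pow_add]
    congr 1
    omega
  have h13 : (4 : ℝ) ^ (N - g) ≤ 1 + 2 * |(n : ℝ)| := by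
    rw [h12] at h11
    exact le_of_mul_le_mul_left h11 (by positivity)
  have h14 : (4 : ℝ) ≤ 4 ^ (N - g) := by
    calc (4 : ℝ) = 4 ^ 1 := by norm_num
      _ ≤ 4 ^ (N - g) := pow_le_pow_right₀ (by norm_num) (by omega)
  refine ⟨?_, by linarith⟩
  rintro rfl
  simp at h13
  linarith

/-- Row G14.  Overlaps of a low 2-adic level frequency with the constant, on average over `k`.
Recipe: `g = N / 16`.  W1, W4 (nonresonant part: `32 (N+1) 4^N / sqrt(3^g)`, `3^{-1/32} < 0.967`).  Resonant `n`: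
`2 d (c₂/M + n)/M` is within `e = 4^{4g}/4^{2N}` of an integer `A`; `D (c₂/M + n)` (`D = 2d`) is a multiple of `4^{-h}`, `h ≤ N/64`,
and within `M e < 4^{-h}` of `A M`: equality; `c₂/M` is not an integer so `A ≠ 0` and `|n| ≥ M/D - 1 ≥ 4^{N-g}/4`; with W2, W3 these contribute
at most `2 * 16^g * 8/4^{N-g}` for every `k`. -/
theorem G14 : ∃ N₀ : ℕ, ∀ N ≥ N₀, ∀ h ≤ N / 64, ∀ c₂ ∈ Fr N, c₂ ≠ 0 → (4 : ℤ) ^ (N - h) ∣ c₂ →
    ∑ k ∈ Odds N, ‖Wov N k 0 c₂‖ ≤ (0.975 : ℝ) ^ N * 4 ^ N := by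
  obtain ⟨N₀, hN₀⟩ := g14_num
  refine ⟨max N₀ 16, fun N hN h hh c₂ hc hc0 hd => ?_⟩
  have hN1 : N₀ ≤ N := (le_max_left _ _).trans hN
  have hN2 : 16 ≤ N := (le_max_right _ _).trans hN
  obtain ⟨g, hg⟩ : ∃ g, g = N / 16 := ⟨_, rfl⟩
  have hnum := hN₀ N hN1
  rw [← hg] at hnum
  have h4N : (0 : ℝ) < 4 ^ N := by positivity
  have hW2 := W2 N (by omega) c₂ hc
  -- the split
  have hsplit : ∀ F : ℤ → ℝ, ∑ n ∈ Fr N, F n = ∑ n ∈ resF N g 0 c₂, F n + ∑ n ∈ nresF N g 0 c₂, F n := by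
    intro F
    have : DecidablePred (fun n : ℤ => Res N g (bet N 0 c₂ n)) := Classical.decPred _
    have h0 := sum_filter_add_sum_filter_not (Fr N) (fun n => Res N g (bet N 0 c₂ n)) F
    unfold resF nresF
    convert h0.symm
  -- the resonant part
  have hres : ∀ k : ℤ, ∑ n ∈ resF N g 0 c₂, cb N c₂ n * |GG (1 / 3) N (k * bet N 0 c₂ n)| ≤
      16 * 16 ^ g / 4 ^ (N - g) := by
    intro k
    have h1 : ∀ n ∈ resF N g 0 c₂, cb N c₂ n * |GG (1 / 3) N (k * bet N 0 c₂ n)| ≤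
        8 / 4 ^ (N - g) := by
      intro n hn
      have hn' : Res N g (bet N 0 c₂ n) := by
        unfold resF at hn
        simp only [mem_filter] at hn
        exact hn.2
      obtain ⟨hn0, hn1⟩ := g14_res N g h (by omega) c₂ n hc hc0 hd hn'
      have h2 := hW2.2.2 n hn0
      have h3 : |GG (1 / 3) N (k * bet N 0 c₂ n)| ≤ 1 :=
        B13.2.2.2.2.2.2.2.1 (1 / 3) _ N (by norm_num) (by norm_num)
      have h4 : (0 : ℝ) < 4 ^ (N - g) := by positivity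
      have h5 : 2 / |(n : ℝ)| ≤ 8 / 4 ^ (N - g) := by
        rw [div_le_div_iff₀ (by linarith) h4]
        linarith
      calc cb N c₂ n * |GG (1 / 3) N (k * bet N 0 c₂ n)| ≤ cb N c₂ n * 1 :=
            mul_le_mul_of_nonneg_left h3 (hW2.2.1 n)
        _ ≤ 8 / 4 ^ (N - g) := by rw [mul_one]; exact h2.trans h5
    refine (sum_le_sum h1).trans ?_
    rw [sum_const, nsmul_eq_mul]
    have h3 := W3 N g (by omega) (by omega) 0 c₂
    calc ((resF N g 0 c₂).card : ℝ) * (8 / 4 ^ (N - g)) ≤ (2 * 16 ^ g) * (8 / 4 ^ (N - g)) :=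
          mul_le_mul_of_nonneg_right h3 (by positivity)
      _ = _ := by ring
  have hcard : ((Odds N).card : ℝ) ≤ 4 ^ N := by
    have h1 : (Odds N).card ≤ (Ico (0 : ℤ) (4 ^ N)).card := by
      unfold Odds
      exact card_filter_le _ _
    rw [Int.card_Ico, sub_zero] at h1
    have h2 : ((4 : ℤ) ^ N).toNat = 4 ^ N := by
      rw [show (4 : ℤ) ^ N = ((4 ^ N : ℕ) : ℤ) by push_cast; rfl, Int.toNat_natCast]
    rw [h2] at h1
    exact_mod_cast h1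
  have hW4 := W4 N g (by omega) (by omega) 0 c₂ hc
  calc ∑ k ∈ Odds N, ‖Wov N k 0 c₂‖
      ≤ ∑ k ∈ Odds N, (16 * 16 ^ g / 4 ^ (N - g) +
          ∑ n ∈ nresF N g 0 c₂, cb N c₂ n * |GG (1 / 3) N (k * bet N 0 c₂ n)|) := by
        refine sum_le_sum fun k hk => ?_
        have hk' : Odd k := by
          unfold Odds at hk
          exact (mem_filter.mp hk).2
        have h1 := W1 N (by omega) k 0 c₂ hk' hc
        rw [hsplit] at h1
        linarith [hres k]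
    _ = (Odds N).card * (16 * 16 ^ g / 4 ^ (N - g)) + ∑ k ∈ Odds N, ∑ n ∈ nresF N g 0 c₂,
          cb N c₂ n * |GG (1 / 3) N (k * bet N 0 c₂ n)| := by
        rw [sum_add_distrib, sum_const, nsmul_eq_mul]
    _ ≤ 4 ^ N * (16 * 16 ^ g / 4 ^ (N - g)) + 32 * (N + 1) * 4 ^ N / Real.sqrt (3 ^ g) := by
        refine add_le_add (mul_le_mul_of_nonneg_right hcard (by positivity)) hW4
    _ = (32 * ((N : ℝ) + 1) / Real.sqrt (3 ^ g) + 16 * 16 ^ g / 4 ^ (N - g)) * 4 ^ N := by ring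
    _ ≤ (0.975 : ℝ) ^ N * 4 ^ N := mul_le_mul_of_nonneg_right hnum h4N.le

end Pool.Agent.C52.RG14
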