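import Pool.Agent.Lib.MP_c52340_c5.Defs
import Pool.Agent.Lib.MP_c52340_c5.B2
import Pool.Agent.Lib.MP_c52340_c5.B7
import Pool.Agent.Lib.MP_c52340_c5.B13
import Pool.Agent.Lib.MP_c52340_c5.P5
import Pool.Agent.Lib.MP_c52340_c5.U1
import Pool.Agent.Lib.MP_c52340_c5.G2
import Pool.Agent.Lib.MP_c52340_c5.G3
import Pool.Agent.Lib.MP_c52340_c5.G5
import Pool.Agent.Lib.MP_c52340_c5.G6
import Pool.Agent.Lib.MP_c52340_c5.G14


set_option autoImplicit false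

open Finset

open Pool.Agent.C52.RB2 (B2)
open Pool.Agent.C52.RB7 (B7)
open Pool.Agent.C52.RB13 (B13)
open Pool.Agent.C52.RP5 (P5)
open Pool.Agent.C52.RU1 (U1)
open Pool.Agent.C52.RG2 (G2)
open Pool.Agent.C52.RG3 (G3)
open Pool.Agent.C52.RG5 (G5)
open Pool.Agent.C52.RG6 (G6)
open Pool.Agent.C52.RG14 (G14)

namespace Pool.Agent.C52.RG15

/-- representative in the centered system -/
private theorem g15_rep (N h : ℕ) (hh : h ≤ N) (hN : 1 ≤ N) (c : ℕ) (hc0 : c ≠ 0) (hc : c < 4 ^ h) :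
    ∃ c₂ ∈ Fr N, c₂ ≠ 0 ∧ (4 : ℤ) ^ (N - h) ∣ c₂ ∧ ∃ j : ℤ, c₂ = 4 ^ (N - h) * c + 4 ^ N * j := by
  obtain ⟨P, hP⟩ : ∃ P : ℤ, P = 4 ^ (N - h) := ⟨_, rfl⟩
  obtain ⟨M, hM⟩ : ∃ M : ℤ, M = 4 ^ N := ⟨_, rfl⟩
  have hpow : P * 4 ^ h = M := by
    rw [hP, hM, ← pow_add]
    congr 1
    omega
  have hPpos : 0 < P := by rw [hP]; positivity
  have hM2 : 2 * (M / 2) = M := by
    have : (2 : ℤ) ∣ M := by
      rw [hM]
      exact dvd_pow (by norm_num) (by omega)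
    exact Int.mul_ediv_cancel' this
  have hz0 : 0 < P * c := mul_pos hPpos (by exact_mod_cast Nat.pos_of_ne_zero hc0)
  have hz1 : P * c < M := by
    rw [← hpow]
    have : (c : ℤ) < 4 ^ h := by exact_mod_cast hc
    exact mul_lt_mul_of_pos_left this hPpos
  unfold Fr
  rw [← hP, ← hM]
  rcases le_or_gt (P * c) (M / 2) with h1 | h1
  · refine ⟨P * c, ?_, hz0.ne', dvd_mul_right _ _, 0, by ring⟩
    rw [mem_Ioc]
    constructor <;> linarith
  · refine ⟨P * c - M, ?_, by linarith, ?_, -1, by ring⟩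
    · rw [mem_Ioc]
      constructor <;> linarith
    · rw [← hpow]
      exact dvd_sub (dvd_mul_right _ _) (dvd_mul_right _ _)

private theorem g15_ee_zero : ee 0 = 1 := by
  have := B7.2.2.1 0
  simpa using this

private theorem g15_wov (N h : ℕ) (hh : h ≤ N) (k c₂ j : ℤ) (c : ℕ)
    (hc : c₂ = 4 ^ (N - h) * c + 4 ^ N * j) :
    Wov N k 0 c₂ = avgC N (fun m => ee ((c : ℝ) * (hi N k m : ℤ) / 4 ^ h)) := by
  unfold Wov avgC
  congr 1
  refine sum_congr rfl fun m _ => ?_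
  obtain ⟨w, hw⟩ : ∃ w : ℤ, w = hi N k m := ⟨_, rfl⟩
  dsimp only
  rw [← hw]
  have h1 : ((0 : ℤ) : ℝ) * (k * m : ℤ) / 4 ^ N = 0 := by simp
  have hpow : (4 : ℝ) ^ h * 4 ^ (N - h) = 4 ^ N := by
    rw [← pow_add]
    congr 1
    omega
  have h4N : (4 : ℝ) ^ N ≠ 0 := by positivity
  have h4h : (4 : ℝ) ^ h ≠ 0 := by positivity
  have h2 : (c₂ : ℝ) * w / 4 ^ N = (c : ℝ) * w / 4 ^ h + ((j * w : ℤ) : ℝ) := by
    rw [hc]
    push_cast
    rw [div_add' _ _ _ h4h, div_eq_div_iff h4N h4h, ← hpow]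
    ring
  rw [h1, g15_ee_zero, one_mul, h2, B7.1, B7.2.2.1, mul_one]

private theorem g15_GG_zero (p : ℝ) (h : ℕ) : GG p h 0 = 1 := by
  unfold GG gf
  refine prod_eq_one fun i _ => ?_
  simp

/-- deviation of the average from `1` -/
private theorem g15_dev (N h : ℕ) (k : ℤ) :
    |avg N (fun m => gk k h (hi N k m)) - 1| ≤
      ∑ c ∈ (range (4 ^ h)).erase 0, GG (1 / 4) h ((c : ℝ) / 4 ^ h) *
        ‖avgC N (fun m => ee ((c : ℝ) * (hi N k m : ℤ) / 4 ^ h))‖ := by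
  have h1 : ((avg N (fun m => gk k h (hi N k m)) : ℝ) : ℂ) =
      ∑ c ∈ range (4 ^ h), (GG (1 / 3) h ((k : ℝ) * c / 4 ^ h) * GG (1 / 4) h ((c : ℝ) / 4 ^ h) : ℝ) *
        avgC N (fun m => ee ((c : ℝ) * (hi N k m : ℤ) / 4 ^ h)) := by
    unfold avg avgC
    push_cast
    simp_rw [G3]
    rw [sum_comm]
    rw [sum_div]
    refine sum_congr rfl fun c _ => ?_
    rw [← sum_mul]
    push_cast
    ring
  have h2 : avgC N (fun m => ee (((0 : ℕ) : ℝ) * (hi N k m : ℤ) / 4 ^ h)) = 1 := by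
    unfold avgC
    have h3 : ∀ m ∈ Lset N, ee (((0 : ℕ) : ℝ) * (hi N k m : ℤ) / 4 ^ h) = 1 := by
      intro m _
      rw [Nat.cast_zero, zero_mul, zero_div, g15_ee_zero]
    rw [sum_congr rfl h3, sum_const, B2.2.1]
    rw [nsmul_eq_mul, mul_one]
    push_cast
    exact div_self (pow_ne_zero _ (by norm_num))
  have h0 : (0 : ℕ) ∈ range (4 ^ h) := mem_range.mpr (by positivity)
  rw [← add_sum_erase _ _ h0, h2] at h1
  have h3 : GG (1 / 3) h ((k : ℝ) * (0 : ℕ) / 4 ^ h) * GG (1 / 4) h (((0 : ℕ) : ℝ) / 4 ^ h) = 1 := by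
    rw [Nat.cast_zero, mul_zero, zero_div, g15_GG_zero, g15_GG_zero, one_mul]
  rw [h3] at h1
  have h4 : ((avg N (fun m => gk k h (hi N k m)) - 1 : ℝ) : ℂ) =
      ∑ c ∈ (range (4 ^ h)).erase 0,
        (GG (1 / 3) h ((k : ℝ) * c / 4 ^ h) * GG (1 / 4) h ((c : ℝ) / 4 ^ h) : ℝ) *
        avgC N (fun m => ee ((c : ℝ) * (hi N k m : ℤ) / 4 ^ h)) := by
    rw [Complex.ofReal_sub, h1]
    push_cast
    ring
  rw [← Real.norm_eq_abs, ← Complex.norm_real, h4]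
  refine (norm_sum_le _ _).trans (sum_le_sum fun c _ => ?_)
  rw [norm_mul, Complex.norm_real, Real.norm_eq_abs, abs_mul]
  have h5 : |GG (1 / 3) h ((k : ℝ) * c / 4 ^ h)| ≤ 1 :=
    B13.2.2.2.2.2.2.2.1 (1 / 3) _ h (by norm_num) (by norm_num)
  have h6 : 0 ≤ GG (1 / 4) h ((c : ℝ) / 4 ^ h) :=
    B13.2.2.2.2.2.2.2.2.1 (1 / 4) _ h (by norm_num) le_rfl
  rw [abs_of_nonneg h6]
  refine mul_le_mul_of_nonneg_right ?_ (norm_nonneg _)
  exact mul_le_of_le_one_left h6 h5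

/-- the average over `k` of the deviation -/
private theorem g15_avgdev {N : ℕ} (hN : 1 ≤ N)
    (h14 : ∀ h ≤ N / 64, ∀ c₂ ∈ Fr N, c₂ ≠ 0 → (4 : ℤ) ^ (N - h) ∣ c₂ →
      ∑ k ∈ Odds N, ‖Wov N k 0 c₂‖ ≤ (0.975 : ℝ) ^ N * 4 ^ N) (h : ℕ) (hh : h ≤ N / 64) :
    ∑ k ∈ Odds N, |avg N (fun m => gk k h (hi N k m)) - 1| ≤ 2 ^ h * (0.975 : ℝ) ^ N * 4 ^ N := by
  have hhN : h ≤ N := by omega
  refine (sum_le_sum fun k _ => g15_dev N h k).trans ?_
  rw [sum_comm]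
  have h1 : ∀ c ∈ (range (4 ^ h)).erase 0, ∑ k ∈ Odds N, GG (1 / 4) h ((c : ℝ) / 4 ^ h) *
      ‖avgC N (fun m => ee ((c : ℝ) * (hi N k m : ℤ) / 4 ^ h))‖ ≤
      GG (1 / 4) h ((c : ℝ) / 4 ^ h) * ((0.975 : ℝ) ^ N * 4 ^ N) := by
    intro c hc
    rw [mem_erase, mem_range] at hc
    obtain ⟨c₂, hc2, hc20, hd, j, hj⟩ := g15_rep N h hhN hN c hc.1 hc.2
    rw [← mul_sum]
    refine mul_le_mul_of_nonneg_left ?_ (B13.2.2.2.2.2.2.2.2.1 (1 / 4) _ h (by norm_num) le_rfl)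
    refine le_trans (le_of_eq (sum_congr rfl fun k _ => ?_)) (h14 h hh c₂ hc2 hc20 hd)
    rw [g15_wov N h hhN k c₂ j c hj]
  refine (sum_le_sum h1).trans ?_
  rw [← sum_mul]
  have h2 : ∑ c ∈ (range (4 ^ h)).erase 0, GG (1 / 4) h ((c : ℝ) / 4 ^ h) ≤ 2 ^ h := by
    refine (sum_le_sum_of_subset_of_nonneg (erase_subset _ _) fun c _ _ =>
      B13.2.2.2.2.2.2.2.2.1 (1 / 4) _ h (by norm_num) le_rfl).trans ?_
    rw [P5]
    norm_num
  calc (∑ c ∈ (range (4 ^ h)).erase 0, GG (1 / 4) h ((c : ℝ) / 4 ^ h)) * ((0.975 : ℝ) ^ N * 4 ^ N) ≤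
        2 ^ h * ((0.975 : ℝ) ^ N * 4 ^ N) := mul_le_mul_of_nonneg_right h2 (by positivity)
    _ = _ := by ring

/-- propagation of the bounds -/
private theorem g15_prop {f : ℕ → ℝ} {r M : ℕ} {β B₁ d : ℝ} (hB : 0 < B₁) (hβ : 0 ≤ β) (hd : d ≤ B₁)
    (h1 : ∀ h ≤ r, f h ≤ B₁) (h2 : ∀ H, 1 ≤ H → |f (H + r) - f (H + r - 1)| ≤ β * f H)
    (h3 : M * β * (2 * B₁) ≤ d) (hr : 1 ≤ r) :
    ∀ h ≤ M, f h ≤ 2 * B₁ ∧ (r ≤ h → |f h - f r| ≤ ((h - r : ℕ) : ℝ) * β * (2 * B₁)) := by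
  intro h
  induction h using Nat.strong_induction_on with
  | _ h ih =>
    intro hM
    rcases le_or_gt h r with hhr | hhr
    · refine ⟨by linarith [h1 h hhr], fun hrh => ?_⟩
      have : h = r := le_antisymm hhr hrh
      subst this
      simp
    · obtain ⟨H, rfl⟩ : ∃ H, h = H + r := ⟨h - r, by omega⟩
      have hH : 1 ≤ H := by omega
      have h4 := h2 H hH
      have h5 := (ih H (by omega) (by omega)).1
      have h6 := (ih (H + r - 1) (by omega) (by omega)).2 (by omega)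
      have h7 : |f (H + r) - f (H + r - 1)| ≤ β * (2 * B₁) :=
        h4.trans (mul_le_mul_of_nonneg_left h5 hβ)
      have h8 : |f (H + r) - f r| ≤ ((H + r - r : ℕ) : ℝ) * β * (2 * B₁) := by
        have h9 : f (H + r) - f r = (f (H + r) - f (H + r - 1)) + (f (H + r - 1) - f r) := by ring
        rw [h9]
        refine (abs_add_le _ _).trans ?_
        have h10 : ((H + r - 1 - r : ℕ) : ℝ) = (H : ℝ) - 1 := by
          have : H + r - 1 - r = H - 1 := by omega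
          rw [this, Nat.cast_sub hH]
          norm_num
        have h11 : ((H + r - r : ℕ) : ℝ) = (H : ℝ) := by
          have : H + r - r = H := by omega
          rw [this]
        rw [h10] at h6
        rw [h11]
        linarith
      refine ⟨?_, fun _ => h8⟩
      have h12 : ((H + r - r : ℕ) : ℝ) * β * (2 * B₁) ≤ M * β * (2 * B₁) := by
        have h13 : ((H + r - r : ℕ) : ℝ) ≤ M := by
          have : H + r - r ≤ M := by omega
          exact_mod_cast this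
        gcongr
      have h14 := (le_abs_self _).trans (h8.trans (h12.trans h3))
      linarith [h1 r le_rfl]

private theorem g15_lim {s e : ℝ} (hs0 : 0 ≤ s) (hs1 : s < 1) (he : 0 < e) :
    ∃ n₀ : ℕ, ∀ n ≥ n₀, ((n : ℝ) + 1) * s ^ n ≤ e := by
  have h1 : Filter.Tendsto (fun n : ℕ => (n : ℝ) * s ^ n) Filter.atTop (nhds 0) :=
    tendsto_self_mul_const_pow_of_lt_one hs0 hs1
  have h2 : Filter.Tendsto (fun n : ℕ => s ^ n) Filter.atTop (nhds 0) :=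
    tendsto_pow_atTop_nhds_zero_of_lt_one hs0 hs1
  have h3 := h1.add h2
  rw [add_zero] at h3
  have h4 := h3.eventually (gt_mem_nhds he)
  rw [Filter.eventually_atTop] at h4
  obtain ⟨n₀, hn₀⟩ := h4
  refine ⟨n₀, fun n hn => ?_⟩
  have h5 := hn₀ n hn
  have h6 : ((n : ℝ) + 1) * s ^ n = (n : ℝ) * s ^ n + s ^ n := by ring
  rw [h6]
  exact h5.le

private theorem g15_num1 {e : ℝ} (he : 0 < e) : ∃ N₀ : ℕ, ∀ N ≥ N₀,
    ((N / 64 + 1 : ℕ) : ℝ) * (2 ^ (N / 64) * (0.975 : ℝ) ^ N) ≤ e * 0.996 ^ N := by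
  obtain ⟨n₀, hn₀⟩ := g15_lim (s := 0.99) (by norm_num) (by norm_num) he
  refine ⟨n₀, fun N hN => ?_⟩
  have h1 := hn₀ N hN
  have h2 : ((N / 64 + 1 : ℕ) : ℝ) ≤ (N : ℝ) + 1 := by
    have : N / 64 + 1 ≤ N + 1 := by omega
    exact_mod_cast this
  have h3 : (2 : ℝ) ^ (N / 64) ≤ 1.011 ^ N := by
    calc (2 : ℝ) ^ (N / 64) ≤ (1.011 ^ 64) ^ (N / 64) :=
          pow_le_pow_left₀ (by norm_num) (by norm_num) _
      _ = 1.011 ^ (64 * (N / 64)) := by rw [← pow_mul]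
      _ ≤ 1.011 ^ N := pow_le_pow_right₀ (by norm_num) (by omega)
  have h4 : (1.011 : ℝ) ^ N * 0.975 ^ N ≤ 0.99 ^ N * 0.996 ^ N := by
    rw [← mul_pow, ← mul_pow]
    exact pow_le_pow_left₀ (by norm_num) (by norm_num) _
  have h5 : (2 : ℝ) ^ (N / 64) * 0.975 ^ N ≤ 0.99 ^ N * 0.996 ^ N :=
    (mul_le_mul_of_nonneg_right h3 (by positivity)).trans h4
  calc ((N / 64 + 1 : ℕ) : ℝ) * (2 ^ (N / 64) * (0.975 : ℝ) ^ N) ≤
        ((N : ℝ) + 1) * (0.99 ^ N * 0.996 ^ N) := mul_le_mul h2 h5 (by positivity) (by positivity)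
    _ = (((N : ℝ) + 1) * 0.99 ^ N) * 0.996 ^ N := by ring
    _ ≤ e * 0.996 ^ N := mul_le_mul_of_nonneg_right h1 (by positivity)

private theorem g15_num3 (n₁ : ℕ) : ∃ N₀ : ℕ, ∀ N ≥ N₀,
    (0.996 : ℝ) ^ N + ((n₁ * N : ℕ) : ℝ) * 0.998 ^ (N / 64) * (2 * 2) ≤ 0.99999 ^ N := by
  obtain ⟨e, he⟩ : ∃ e : ℝ, e = 0.99999 ^ 63 / (1 + 256 * n₁) := ⟨_, rfl⟩
  have hn1 : (0 : ℝ) ≤ n₁ := Nat.cast_nonneg _
  have he0 : 0 < e := by rw [he]; positivity
  obtain ⟨n₀, hn₀⟩ := g15_lim (s := 0.999) (by norm_num) (by norm_num) he0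
  refine ⟨64 * n₀ + 64, fun N hN => ?_⟩
  obtain ⟨g, hg⟩ : ∃ g, g = N / 64 := ⟨_, rfl⟩
  rw [← hg]
  have h1 := hn₀ g (by omega)
  have hgN : g ≤ N := by omega
  have hgN' : N ≤ 64 * g + 63 := by omega
  have h2 : (0.996 : ℝ) ^ N ≤ 0.998 ^ g := by
    calc (0.996 : ℝ) ^ N ≤ 0.996 ^ g := pow_le_pow_of_le_one (by norm_num) (by norm_num) hgN
      _ ≤ 0.998 ^ g := pow_le_pow_left₀ (by norm_num) (by norm_num) _
  have h3 : (N : ℝ) ≤ 64 * (g + 1) := by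
    have : (N : ℝ) ≤ 64 * g + 63 := by exact_mod_cast hgN'
    linarith
  have hg0 : (0 : ℝ) ≤ g := Nat.cast_nonneg _
  have h4 : (0.998 : ℝ) ^ g ≤ 0.999 ^ g * (0.99999 ^ 64) ^ g := by
    rw [← mul_pow]
    exact pow_le_pow_left₀ (by norm_num) (by norm_num) _
  have h5 : (0.99999 : ℝ) ^ (64 * g + 63) ≤ 0.99999 ^ N :=
    pow_le_pow_of_le_one (by norm_num) (by norm_num) hgN'
  refine le_trans ?_ h5
  have h6 : (0 : ℝ) < 0.998 ^ g := by positivity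
  have h7 : ((n₁ * N : ℕ) : ℝ) * 0.998 ^ g * (2 * 2) ≤ (256 * n₁ * (g + 1)) * 0.998 ^ g := by
    push_cast
    have : (n₁ : ℝ) * N ≤ n₁ * (64 * (g + 1)) := mul_le_mul_of_nonneg_left h3 hn1
    nlinarith
  have h8 : (0.998 : ℝ) ^ g ≤ (g + 1) * 0.998 ^ g := le_mul_of_one_le_left h6.le (by linarith)
  calc (0.996 : ℝ) ^ N + ((n₁ * N : ℕ) : ℝ) * 0.998 ^ g * (2 * 2) ≤
        (g + 1) * 0.998 ^ g + (256 * n₁ * (g + 1)) * 0.998 ^ g := by linarith
    _ = (1 + 256 * n₁) * ((g + 1) * 0.998 ^ g) := by ring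
    _ ≤ (1 + 256 * n₁) * ((g + 1) * (0.999 ^ g * (0.99999 ^ 64) ^ g)) := by gcongr
    _ = (1 + 256 * n₁) * (((g + 1) * 0.999 ^ g) * (0.99999 ^ 64) ^ g) := by ring
    _ ≤ (1 + 256 * n₁) * (e * (0.99999 ^ 64) ^ g) := by gcongr
    _ = (0.99999 : ℝ) ^ (64 * g + 63) := by
        rw [he, pow_add, pow_mul]
        field_simp

/-- Row G15.  The mean of `gk` over the block states is exponentially close to `1`, for most `k`.
Recipe.  `s h := avg N (fun m => gk k h (hi N k m))`, `s 0 = 1`.  For `h ≤ h₁ := N/64`: by G3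
`s h - 1 = ∑_{0 < c < 4^h} GG GG * avg (ee (c hi/4^h))`, `c/4^h ≡ c₂/M`, `c₂ ∈ Fr N`, `4^{N-h} ∣ c₂`, so
`|s h - 1| ≤ ∑_c GG (1/4) h (c/4^h) ‖Wov N k 0 c₂‖`, average over `k` `≤ 2^h 0.975^N ≤ 0.99^N` (G14, P5; `2^{1/64} < 1.011`); Markov
(U1) and union over `h ≤ h₁`.  For `h ≥ h₁`: averaging G5 with `r = h₁`: `|s (h+1) - s h| ≤ Xi k h₁ * s (h + 1 - h₁)` and `Xi k h₁ ≤ √qq^{h₁}` outside a
small set (G6).  Running maximum `≤ 2`. -/
theorem G15 (ε : ℝ) (hε : 0 < ε) (n₁ : ℕ) : ∃ r : ℝ, 0 < r ∧ r < 1 ∧ ∃ N₀ : ℕ, ∀ N ≥ N₀,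
    bad N (fun k => ∀ h ≤ n₁ * N, |avg N (fun m => gk k h (hi N k m)) - 1| ≤ r ^ N) ≤ ε := by
  obtain ⟨N₁, h14⟩ := G14
  obtain ⟨C, hC, h6⟩ := G6
  obtain ⟨N₂, hN₂⟩ := g15_num1 (show (0 : ℝ) < ε / 2 by positivity)
  obtain ⟨N₃, hN₃⟩ := g15_num3 n₁
  obtain ⟨s, hs⟩ : ∃ s : ℝ, s = qq / 0.998 := ⟨_, rfl⟩
  have hs0 : 0 ≤ s := by rw [hs]; unfold qq; norm_num
  have hs1 : s < 1 := by rw [hs]; unfold qq; norm_num
  obtain ⟨n₄, hn₄⟩ := g15_lim hs0 hs1 (show 0 < ε / 2 / C by positivity)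
  refine ⟨0.99999, by norm_num, by norm_num, max (max N₁ N₂) (max N₃ (64 * n₄ + 64)), fun N hN => ?_⟩
  have hN1 : N₁ ≤ N := le_trans (le_trans (le_max_left _ _) (le_max_left _ _)) hN
  have hN2 : N₂ ≤ N := le_trans (le_trans (le_max_right _ _) (le_max_left _ _)) hN
  have hN3 : N₃ ≤ N := le_trans (le_trans (le_max_left _ _) (le_max_right _ _)) hN
  have hN4 : 64 * n₄ + 64 ≤ N := le_trans (le_trans (le_max_right _ _) (le_max_right _ _)) hN
  have h4N : (0 : ℝ) < 4 ^ N := by positivity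
  -- first bad set
  have hb1 : bad N (fun k => ∑ h ∈ range (N / 64 + 1), |avg N (fun m => gk k h (hi N k m)) - 1| ≤
      0.996 ^ N) ≤ ε / 2 := by
    have h1 := U1.2.2.1 N (fun k => ∑ h ∈ range (N / 64 + 1), |avg N (fun m => gk k h (hi N k m)) - 1|)
      (((N / 64 + 1 : ℕ) : ℝ) * (2 ^ (N / 64) * (0.975 : ℝ) ^ N)) (0.996 ^ N)
      (fun k _ => sum_nonneg fun _ _ => abs_nonneg _) (by positivity) (by
        rw [sum_comm]
        have h2 : ∀ h ∈ range (N / 64 + 1), ∑ k ∈ Odds N, |avg N (fun m => gk k h (hi N k m)) - 1| ≤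
            2 ^ (N / 64) * (0.975 : ℝ) ^ N * 4 ^ N := by
          intro h hh
          rw [mem_range] at hh
          refine (g15_avgdev (by omega) (h14 N hN1) h (by omega)).trans ?_
          have h3 : (2 : ℝ) ^ h ≤ 2 ^ (N / 64) := pow_le_pow_right₀ (by norm_num) (by omega)
          gcongr
        refine (sum_le_sum h2).trans (le_of_eq ?_)
        rw [sum_const, card_range, nsmul_eq_mul]
        ring)
    refine h1.trans ?_
    rw [div_le_iff₀ (by positivity)]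
    exact hN₂ N hN2
  -- second bad set
  have hXi : ∀ k, 0 ≤ Xi k (N / 64) := by
    intro k
    unfold Xi
    exact sum_nonneg fun c _ => mul_nonneg (abs_nonneg _)
      (B13.2.2.2.2.2.2.2.2.1 (1 / 4) _ _ (by norm_num) le_rfl)
  have hb2 : bad N (fun k => Xi k (N / 64) ≤ 0.998 ^ (N / 64)) ≤ ε / 2 := by
    have h1 := U1.2.2.1 N (fun k => Xi k (N / 64)) (C * qq ^ (N / 64)) (0.998 ^ (N / 64))
      (fun k _ => hXi k) (by positivity) (by
        refine (h6 N (N / 64) (by omega)).trans (le_of_eq ?_)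
        ring)
    refine h1.trans ?_
    have h2 : C * qq ^ (N / 64) / 0.998 ^ (N / 64) = C * s ^ (N / 64) := by
      rw [hs, div_pow, mul_div_assoc]
    rw [h2]
    have h3 := hn₄ (N / 64) (by omega)
    have h4 : s ^ (N / 64) ≤ (((N / 64 : ℕ) : ℝ) + 1) * s ^ (N / 64) :=
      le_mul_of_one_le_left (by positivity) (by linarith [Nat.cast_nonneg (α := ℝ) (N / 64)])
    have h5 := h4.trans h3
    rw [le_div_iff₀ hC] at h5
    linarith
  have hbad := (U1.2.1 N _ _).trans (add_le_add hb1 hb2)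
  refine (U1.1 N _ _ ?_).trans (hbad.trans (by linarith))
  rintro k - ⟨hk1, hk2⟩
  have hsmall : ∀ h ≤ N / 64, |avg N (fun m => gk k h (hi N k m)) - 1| ≤ 0.996 ^ N := by
    intro h hh
    refine le_trans ?_ hk1
    exact single_le_sum (f := fun h => |avg N (fun m => gk k h (hi N k m)) - 1|)
      (fun _ _ => abs_nonneg _) (mem_range.mpr (by omega))
  have h996 : (0.996 : ℝ) ^ N ≤ 1 := pow_le_one₀ (by norm_num) (by norm_num)
  have hnum := hN₃ N hN3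
  have h9 : (0.99999 : ℝ) ^ N ≤ 1 := pow_le_one₀ (by norm_num) (by norm_num)
  have h996' : (0 : ℝ) < 0.996 ^ N := by positivity
  -- step
  have hstep : ∀ H, 1 ≤ H → |avg N (fun m => gk k (H + N / 64) (hi N k m)) -
      avg N (fun m => gk k (H + N / 64 - 1) (hi N k m))| ≤
      0.998 ^ (N / 64) * avg N (fun m => gk k H (hi N k m)) := by
    intro H _
    unfold avg
    rw [← sub_div, ← sum_sub_distrib, abs_div, abs_of_pos (show (0 : ℝ) < 3 ^ N by positivity),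
      ← mul_div_assoc]
    refine div_le_div_of_nonneg_right ?_ (by positivity)
    rw [mul_sum]
    refine (abs_sum_le_sum_abs _ _).trans (sum_le_sum fun m _ => ?_)
    refine (G5 k H (N / 64) (by omega) (hi N k m)).trans ?_
    exact mul_le_mul_of_nonneg_right hk2 (G2.2.1 k H _)
  have hprop := g15_prop (f := fun h => avg N (fun m => gk k h (hi N k m))) (r := N / 64)
    (M := n₁ * N) (β := 0.998 ^ (N / 64)) (B₁ := 2)
    (d := ((n₁ * N : ℕ) : ℝ) * 0.998 ^ (N / 64) * (2 * 2)) (by norm_num) (by positivity)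
    (by linarith) (fun h hh => by
      have h10 := (le_abs_self _).trans (hsmall h hh)
      linarith) hstep le_rfl (by omega)
  intro h hh
  rcases le_or_gt h (N / 64) with hhN | hhN
  · have h10 : 0 ≤ ((n₁ * N : ℕ) : ℝ) * (0.998 : ℝ) ^ (N / 64) * (2 * 2) := by positivity
    linarith [hsmall h hhN]
  · have h10 := (hprop h hh).2 hhN.le
    have h11 := hsmall (N / 64) le_rfl
    have h12 : ((h - N / 64 : ℕ) : ℝ) * (0.998 : ℝ) ^ (N / 64) * (2 * 2) ≤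
        ((n₁ * N : ℕ) : ℝ) * 0.998 ^ (N / 64) * (2 * 2) := by
      have h13 : ((h - N / 64 : ℕ) : ℝ) ≤ ((n₁ * N : ℕ) : ℝ) := by
        exact_mod_cast (Nat.sub_le _ _).trans hh
      gcongr
    have h14' : avg N (fun m => gk k h (hi N k m)) - 1 =
        (avg N (fun m => gk k h (hi N k m)) - avg N (fun m => gk k (N / 64) (hi N k m))) +
        (avg N (fun m => gk k (N / 64) (hi N k m)) - 1) := by ring
    rw [h14']
    refine (abs_add_le _ _).trans ?_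
    linarith

end Pool.Agent.C52.RG15
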