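import Pool.Agent.Lib.MP_c52340_c5.Defs


set_option autoImplicit false

open Finset


namespace Pool.Agent.C52.RN0

/-- Row N0.  Schur test for a nonnegative symmetric kernel.
Recipe: `K a a' ≤ K (a² + a'²)/2`, symmetry, row sums. -/
theorem N0 (L : Finset ℤ) (K : ℤ → ℤ → ℝ) (R : ℝ) (hK : ∀ m ∈ L, ∀ m' ∈ L, 0 ≤ K m m')
    (hs : ∀ m ∈ L, ∀ m' ∈ L, K m m' = K m' m) (hR : ∀ m ∈ L, ∑ m' ∈ L, K m m' ≤ R) (a : ℤ → ℝ) :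
    ∑ m ∈ L, ∑ m' ∈ L, K m m' * (a m * a m') ≤ R * ∑ m ∈ L, a m ^ 2 := by
  have h1 : ∑ m ∈ L, ∑ m' ∈ L, K m m' * (a m * a m') ≤
      ∑ m ∈ L, ∑ m' ∈ L, (K m m' * a m ^ 2 / 2 + K m m' * a m' ^ 2 / 2) := by
    refine Finset.sum_le_sum fun m hm => Finset.sum_le_sum fun m' hm' => ?_
    have h := hK m hm m' hm'
    nlinarith [mul_nonneg h (sq_nonneg (a m - a m'))]
  have h2 : ∑ m ∈ L, ∑ m' ∈ L, K m m' * a m ^ 2 ≤ R * ∑ m ∈ L, a m ^ 2 := by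
    rw [Finset.mul_sum]
    refine Finset.sum_le_sum fun m hm => ?_
    rw [← Finset.sum_mul]
    exact mul_le_mul_of_nonneg_right (hR m hm) (sq_nonneg _)
  have h3 : ∑ m ∈ L, ∑ m' ∈ L, K m m' * a m' ^ 2 = ∑ m ∈ L, ∑ m' ∈ L, K m m' * a m ^ 2 := by
    rw [Finset.sum_comm]
    refine Finset.sum_congr rfl fun m hm => Finset.sum_congr rfl fun m' hm' => ?_
    rw [hs m hm m' hm']
  have h4 : ∑ m ∈ L, ∑ m' ∈ L, (K m m' * a m ^ 2 / 2 + K m m' * a m' ^ 2 / 2) =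
      (∑ m ∈ L, ∑ m' ∈ L, K m m' * a m ^ 2) / 2 + (∑ m ∈ L, ∑ m' ∈ L, K m m' * a m' ^ 2) / 2 := by
    simp only [Finset.sum_add_distrib, Finset.sum_div]
  rw [h4, h3] at h1
  linarith

end Pool.Agent.C52.RN0
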