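import Pool.Agent.Lib.MP_c52340_c5.Defs
import Pool.Agent.Lib.MP_c52340_c5.B4
import Pool.Agent.Lib.MP_c52340_c5.B7
import Pool.Agent.Lib.MP_c52340_c5.B8
import Pool.Agent.Lib.MP_c52340_c5.B9
import Pool.Agent.Lib.MP_c52340_c5.B10
import Pool.Agent.Lib.MP_c52340_c5.B13
import Pool.Agent.Lib.MP_c52340_c5.N0


set_option autoImplicit false

open Finset

open Pool.Agent.C52.RB4 (B4)
open Pool.Agent.C52.RB7 (B7)
open Pool.Agent.C52.RB8 (B8)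
open Pool.Agent.C52.RB9 (B9)
open Pool.Agent.C52.RB10 (B10)
open Pool.Agent.C52.RB13 (B13)
open Pool.Agent.C52.RN0 (N0)

namespace Pool.Agent.C52.RN1

private noncomputable def KK (N : ℕ) (z : ℤ) : ℝ :=
  4 ^ N * ∑ y ∈ Lset N, if (4 : ℤ) ^ N ∣ y - z then wG pd N y else 0

private theorem pd_le : (0 : ℝ) ≤ pd ∧ pd ≤ 1 / 4 := by
  unfold pd
  constructor <;> norm_num

private theorem KK_nonneg (N : ℕ) (z : ℤ) : 0 ≤ KK N z := by
  unfold KK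
  apply mul_nonneg (by positivity)
  apply Finset.sum_nonneg
  intro y _
  split_ifs
  · exact B4.1 pd pd_le.1 (by linarith [pd_le.2]) N y
  · exact le_refl _

private theorem KK_fourier (N : ℕ) (z : ℤ) :
    ∑ c ∈ range (4 ^ N), (GG pd N ((c : ℝ) / 4 ^ N) : ℂ) * ee (-((c : ℝ) * z / 4 ^ N)) = (KK N z : ℂ) := by
  obtain ⟨hadd, hnorm, hint, hconj, _⟩ := B7
  have h1 : ∀ c ∈ range (4 ^ N), (GG pd N ((c : ℝ) / 4 ^ N) : ℂ) * ee (-((c : ℝ) * z / 4 ^ N)) =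
      ∑ y ∈ Lset N, (wG pd N y : ℂ) * ee ((c : ℝ) * ((y - z : ℤ) : ℝ) / 4 ^ N) := by
    intro c _
    rw [← B8, Finset.sum_mul]
    apply Finset.sum_congr rfl
    intro y _
    rw [mul_assoc, ← hadd]
    congr 2
    push_cast
    ring
  rw [Finset.sum_congr rfl h1, Finset.sum_comm]
  unfold KK
  push_cast
  rw [Finset.mul_sum]
  apply Finset.sum_congr rfl
  intro y _
  rw [← Finset.mul_sum]
  have h2 := B10 N (y - z)
  have h3 : ∑ c ∈ range (4 ^ N), ee ((c : ℝ) * ((y - z : ℤ) : ℝ) / 4 ^ N) =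
      if (4 : ℤ) ^ N ∣ y - z then (4 : ℂ) ^ N else 0 := h2
  have h4 : ∑ i ∈ range (4 ^ N), ee ((i : ℝ) * ((y : ℝ) - (z : ℝ)) / 4 ^ N) =
      ∑ c ∈ range (4 ^ N), ee ((c : ℝ) * ((y - z : ℤ) : ℝ) / 4 ^ N) := by
    apply Finset.sum_congr rfl
    intro c _
    push_cast
    rfl
  rw [h4, h3]
  split_ifs
  · ring
  · push_cast
    ring

private theorem KK_neg (N : ℕ) (z : ℤ) : KK N (-z) = KK N z := by
  obtain ⟨hadd, hnorm, hint, hconj, _⟩ := B7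
  have h1 : (KK N (-z) : ℂ) = (starRingEnd ℂ) (KK N z : ℂ) := by
    rw [← KK_fourier, ← KK_fourier, map_sum]
    apply Finset.sum_congr rfl
    intro c _
    rw [map_mul, Complex.conj_ofReal, hconj]
    congr 2
    push_cast
    ring
  rw [Complex.conj_ofReal] at h1
  exact_mod_cast h1

private theorem schur (N : ℕ) (φ : ℤ → ℤ) (R : ℝ)
    (hR : ∀ m ∈ Lset N, ∑ m' ∈ Lset N, KK N (φ m - φ m') ≤ 3 ^ N * R) (f : ℤ → ℂ) :
    ∑ c ∈ range (4 ^ N), GG pd N ((c : ℝ) / 4 ^ N) *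
      ‖avgC N (fun m => ee (-((c : ℝ) * (φ m : ℤ) / 4 ^ N)) * f m)‖ ^ 2 ≤ R * nsqC N f := by
  obtain ⟨hadd, hnorm, hint, hconj, _⟩ := B7
  have hG : ∀ x : ℝ, 0 ≤ GG pd N x := fun x => B13.2.2.2.2.2.2.2.2.1 pd x N pd_le.1 pd_le.2
  have h9 : (3 : ℂ) ^ N * 3 ^ N = 9 ^ N := by rw [← mul_pow]; norm_num
  have hsq : ∀ c : ℕ, ((‖avgC N (fun m => ee (-((c : ℝ) * (φ m : ℤ) / 4 ^ N)) * f m)‖ ^ 2 : ℝ) : ℂ) =
      (1 / 9 ^ N : ℂ) * ∑ m ∈ Lset N, ∑ m' ∈ Lset N,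
        ee (-((c : ℝ) * ((φ m - φ m' : ℤ) : ℝ) / 4 ^ N)) * (f m * (starRingEnd ℂ) (f m')) := by
    intro c
    have h2 : ((‖avgC N (fun m => ee (-((c : ℝ) * (φ m : ℤ) / 4 ^ N)) * f m)‖ ^ 2 : ℝ) : ℂ) =
        avgC N (fun m => ee (-((c : ℝ) * (φ m : ℤ) / 4 ^ N)) * f m) *
        (starRingEnd ℂ) (avgC N (fun m => ee (-((c : ℝ) * (φ m : ℤ) / 4 ^ N)) * f m)) := by
      rw [Complex.mul_conj, Complex.normSq_eq_norm_sq]
    rw [h2]
    unfold avgC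
    rw [map_div₀, map_sum, div_mul_div_comm, Finset.sum_mul_sum]
    have h3 : (starRingEnd ℂ) (3 ^ N) = 3 ^ N := by
      rw [map_pow]
      congr 1
      exact Complex.conj_ofReal 3
    rw [h3, h9, div_eq_mul_one_div, mul_comm]
    congr 1
    apply Finset.sum_congr rfl
    intro m _
    apply Finset.sum_congr rfl
    intro m' _
    rw [map_mul, hconj, mul_mul_mul_comm, ← hadd]
    congr 2
    push_cast
    ring
  have htot : ((∑ c ∈ range (4 ^ N), GG pd N ((c : ℝ) / 4 ^ N) *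
      ‖avgC N (fun m => ee (-((c : ℝ) * (φ m : ℤ) / 4 ^ N)) * f m)‖ ^ 2 : ℝ) : ℂ) =
      (1 / 9 ^ N : ℂ) * ∑ m ∈ Lset N, ∑ m' ∈ Lset N,
        (KK N (φ m - φ m') : ℂ) * (f m * (starRingEnd ℂ) (f m')) := by
    rw [Complex.ofReal_sum]
    rw [Finset.sum_congr rfl (fun c _ => by
      rw [Complex.ofReal_mul, hsq c])]
    have e1 : ∀ c ∈ range (4 ^ N), ((GG pd N ((c : ℝ) / 4 ^ N) : ℝ) : ℂ) * ((1 / 9 ^ N : ℂ) *
        ∑ m ∈ Lset N, ∑ m' ∈ Lset N,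
        ee (-((c : ℝ) * ((φ m - φ m' : ℤ) : ℝ) / 4 ^ N)) * (f m * (starRingEnd ℂ) (f m'))) =
        (1 / 9 ^ N : ℂ) * ∑ m ∈ Lset N, ∑ m' ∈ Lset N,
        (((GG pd N ((c : ℝ) / 4 ^ N) : ℝ) : ℂ) * ee (-((c : ℝ) * ((φ m - φ m' : ℤ) : ℝ) / 4 ^ N))) *
          (f m * (starRingEnd ℂ) (f m')) := by
      intro c _
      rw [mul_left_comm, Finset.mul_sum]
      congr 1
      apply Finset.sum_congr rfl
      intro m _
      rw [Finset.mul_sum]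
      apply Finset.sum_congr rfl
      intro m' _
      ring
    rw [Finset.sum_congr rfl e1, ← Finset.mul_sum, Finset.sum_comm]
    congr 1
    apply Finset.sum_congr rfl
    intro m _
    rw [Finset.sum_comm]
    apply Finset.sum_congr rfl
    intro m' _
    rw [← Finset.sum_mul, KK_fourier]
  have hnn : 0 ≤ ∑ c ∈ range (4 ^ N), GG pd N ((c : ℝ) / 4 ^ N) *
      ‖avgC N (fun m => ee (-((c : ℝ) * (φ m : ℤ) / 4 ^ N)) * f m)‖ ^ 2 :=
    Finset.sum_nonneg (fun c _ => mul_nonneg (hG _) (by positivity))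
  have h1 : ∑ c ∈ range (4 ^ N), GG pd N ((c : ℝ) / 4 ^ N) *
      ‖avgC N (fun m => ee (-((c : ℝ) * (φ m : ℤ) / 4 ^ N)) * f m)‖ ^ 2 =
      ‖((∑ c ∈ range (4 ^ N), GG pd N ((c : ℝ) / 4 ^ N) *
      ‖avgC N (fun m => ee (-((c : ℝ) * (φ m : ℤ) / 4 ^ N)) * f m)‖ ^ 2 : ℝ) : ℂ)‖ := by
    rw [Complex.norm_real, Real.norm_eq_abs, abs_of_nonneg hnn]
  rw [h1, htot, norm_mul]
  have hn9 : ‖(1 / 9 ^ N : ℂ)‖ = 1 / 9 ^ N := by
    rw [norm_div, norm_one, norm_pow]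
    norm_num
  rw [hn9]
  have hN0 := N0 (Lset N) (fun m m' => KK N (φ m - φ m')) (3 ^ N * R)
    (fun m _ m' _ => KK_nonneg N _)
    (fun m _ m' _ => by
      show KK N (φ m - φ m') = KK N (φ m' - φ m)
      rw [← KK_neg]
      congr 1
      ring) hR (fun m => ‖f m‖)
  have hle : ‖∑ m ∈ Lset N, ∑ m' ∈ Lset N,
        (KK N (φ m - φ m') : ℂ) * (f m * (starRingEnd ℂ) (f m'))‖ ≤
      ∑ m ∈ Lset N, ∑ m' ∈ Lset N, KK N (φ m - φ m') * (‖f m‖ * ‖f m'‖) := by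
    refine le_trans (norm_sum_le _ _) (Finset.sum_le_sum (fun m _ => ?_))
    refine le_trans (norm_sum_le _ _) (Finset.sum_le_sum (fun m' _ => ?_))
    rw [norm_mul, norm_mul, Complex.norm_real, Real.norm_eq_abs, abs_of_nonneg (KK_nonneg N _),
      RCLike.norm_conj]
  calc (1 / 9 ^ N : ℝ) * ‖∑ m ∈ Lset N, ∑ m' ∈ Lset N,
        (KK N (φ m - φ m') : ℂ) * (f m * (starRingEnd ℂ) (f m'))‖
      ≤ (1 / 9 ^ N) * (3 ^ N * R * ∑ m ∈ Lset N, ‖f m‖ ^ 2) :=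
        mul_le_mul_of_nonneg_left (le_trans hle hN0) (by positivity)
    _ = R * nsqC N f := by
        unfold nsqC
        have h9' : (9 : ℝ) ^ N = 3 ^ N * 3 ^ N := by rw [← mul_pow]; norm_num
        rw [h9']
        field_simp

/-- Row N1.  2-adic side of the norm estimate.
Recipe: expand `‖avgC ...‖²` as a double sum over `m, m'`; the sum over `c` of `GG pd N (c/M) ee (-c k (m-m')/M)` is
`K m m' = 4^N ∑_{y ∈ Lset N} if 4^N ∣ y - k (m - m') then wG pd N y else 0` (B8, B10), real, nonnegative, symmetric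
(`wG pd N (-y) = wG pd N y`, or symmetrise); row sums (B9): `3^{-N} ∑_{m'} K m m' = ∑_c GG pd (c/M) ee(..) GG (1/3) N (k c/M) ≤ Xs`.
Then N0 with `a m = ‖f m‖`. -/
theorem N1 (N : ℕ) (k : ℤ) (f : ℤ → ℂ) :
    ∑ c ∈ range (4 ^ N), GG pd N ((c : ℝ) / 4 ^ N) *
      ‖avgC N (fun m => ee (-((c : ℝ) * (k * m : ℤ) / 4 ^ N)) * f m)‖ ^ 2 ≤ Xs N k * nsqC N f := by
  obtain ⟨hadd, hnorm, hint, hconj, _⟩ := B7
  have hG : ∀ x : ℝ, 0 ≤ GG pd N x := fun x => B13.2.2.2.2.2.2.2.2.1 pd x N pd_le.1 pd_le.2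
  apply schur N (fun m => k * m) (Xs N k)
  intro m _
  have hnn : 0 ≤ ∑ m' ∈ Lset N, KK N (k * m - k * m') := Finset.sum_nonneg (fun m' _ => KK_nonneg N _)
  have h1 : ∑ m' ∈ Lset N, KK N (k * m - k * m') =
      ‖((∑ m' ∈ Lset N, KK N (k * m - k * m') : ℝ) : ℂ)‖ := by
    rw [Complex.norm_real, Real.norm_eq_abs, abs_of_nonneg hnn]
  have h2 : ((∑ m' ∈ Lset N, KK N (k * m - k * m') : ℝ) : ℂ) =
      ∑ c ∈ range (4 ^ N), (GG pd N ((c : ℝ) / 4 ^ N) : ℂ) *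
        (ee (-((k : ℝ) * c / 4 ^ N * m)) * (3 ^ N * (GG (1 / 3) N ((k : ℝ) * c / 4 ^ N) : ℂ))) := by
    rw [Complex.ofReal_sum, Finset.sum_congr rfl (fun m' _ => (KK_fourier N (k * m - k * m')).symm),
      Finset.sum_comm]
    apply Finset.sum_congr rfl
    intro c _
    rw [← Finset.mul_sum]
    congr 1
    rw [← B9]
    unfold avgC
    have h3 : (3 : ℂ) ^ N ≠ 0 := pow_ne_zero _ (by norm_num)
    rw [mul_div_cancel₀ _ h3, Finset.mul_sum]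
    apply Finset.sum_congr rfl
    intro m' _
    rw [← hadd]
    congr 1
    push_cast
    ring
  show ∑ m' ∈ Lset N, KK N (k * m - k * m') ≤ 3 ^ N * Xs N k
  rw [h1, h2]
  refine le_trans (norm_sum_le _ _) ?_
  unfold Xs
  rw [Finset.mul_sum]
  apply Finset.sum_le_sum
  intro c _
  rw [norm_mul, norm_mul, norm_mul, hnorm, Complex.norm_real, Complex.norm_real, Real.norm_eq_abs,
    Real.norm_eq_abs, abs_of_nonneg (hG _), norm_pow]
  have : ‖(3 : ℂ)‖ = 3 := by norm_num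
  rw [this]
  apply le_of_eq
  ring

end Pool.Agent.C52.RN1
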