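import Pool.Agent.Lib.MP_c52340_c5.Defs


set_option autoImplicit false

open Finset


namespace Pool.Agent.C52.RN10

private theorem N10_c0 (x : ℝ) : 0 ≤ gf (1 / 4) x := by
  unfold gf
  have := Real.neg_one_le_cos (2 * Real.pi * x)
  linarith

private theorem N10_c1 (x : ℝ) : gf (1 / 4) x ≤ 1 := by
  unfold gf
  have := Real.cos_le_one (2 * Real.pi * x)
  linarith

private theorem N10_pd (x : ℝ) : gf pd x = 499 / 500 * gf (1 / 4) x + 1 / 500 := by
  unfold gf pd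
  ring

private theorem N10_amgm (x : ℝ) : gf (1 / 4) x ^ (499 / 500 : ℝ) ≤ gf pd x := by
  have h := Real.geom_mean_le_arith_mean2_weighted (w₁ := 499 / 500) (w₂ := 1 / 500)
    (p₁ := gf (1 / 4) x) (p₂ := 1) (by norm_num) (by norm_num) (N10_c0 x) (by norm_num) (by norm_num)
  rw [Real.one_rpow, mul_one, mul_one] at h
  rw [N10_pd]
  exact h

/-- Row N10.  The positive definite majorant dominates.
Recipe: weighted AM-GM `c^(1-δ) ≤ (1-δ) c + δ = gf pd x` for `c = gf (1/4) x ∈ [0,1]`, `δ = 1/500`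
(`Real.rpow` , `Real.inner_le_nnorm_mul_nnorm` not needed: `Real.geom_mean_le_arith_mean2_weighted`), `η' = η^(1/500)`. -/
theorem N10 (η : ℝ) (h0 : 0 < η) (h1 : η < 1) : ∃ η' : ℝ, 0 < η' ∧ η' < 1 ∧ ∀ (N : ℕ) (x : ℝ),
    GG (1 / 4) N x ≤ GG pd N x ∧ (GG (1 / 4) N x ≤ η ^ N → GG (1 / 4) N x ≤ η' ^ N * GG pd N x) := by
  refine ⟨η ^ (1 / 500 : ℝ), Real.rpow_pos_of_pos h0 _, Real.rpow_lt_one h0.le h1 (by norm_num), ?_⟩
  intro N x
  have hG0 : 0 ≤ GG (1 / 4) N x := Finset.prod_nonneg (fun i _ => N10_c0 _)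
  refine ⟨?_, fun hη => ?_⟩
  · unfold GG
    refine Finset.prod_le_prod (fun i _ => N10_c0 _) (fun i _ => ?_)
    rw [N10_pd]
    have := N10_c1 (4 ^ i * x)
    linarith
  · have h2 : GG (1 / 4) N x ^ (499 / 500 : ℝ) ≤ GG pd N x := by
      unfold GG
      rw [← Real.finsetProd_rpow _ _ (fun i _ => N10_c0 _)]
      exact Finset.prod_le_prod (fun i _ => Real.rpow_nonneg (N10_c0 _) _) (fun i _ => N10_amgm _)
    have h3 : GG (1 / 4) N x = GG (1 / 4) N x ^ (1 / 500 : ℝ) * GG (1 / 4) N x ^ (499 / 500 : ℝ) := by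
      rw [← Real.rpow_add' hG0 (by norm_num)]
      norm_num
    rw [h3]
    have h4 : GG (1 / 4) N x ^ (1 / 500 : ℝ) ≤ (η ^ (1 / 500 : ℝ)) ^ N := by
      rw [← Real.rpow_natCast (η ^ (1 / 500 : ℝ)) N, ← Real.rpow_mul h0.le, mul_comm,
        Real.rpow_mul h0.le, Real.rpow_natCast]
      exact Real.rpow_le_rpow hG0 hη (by norm_num)
    exact mul_le_mul h4 h2 (Real.rpow_nonneg hG0 _) (by positivity)

end Pool.Agent.C52.RN10
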