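import Pool.Agent.Lib.MP_c52340_c5.Defs
import Pool.Agent.Lib.MP_c52340_c5.B7
import Pool.Agent.Lib.MP_c52340_c5.B11
import Pool.Agent.Lib.MP_c52340_c5.B12
import Pool.Agent.Lib.MP_c52340_c5.B13


set_option autoImplicit false

open Finset

open Pool.Agent.C52.RB7 (B7)
open Pool.Agent.C52.RB11 (B11)
open Pool.Agent.C52.RB12 (B12)
open Pool.Agent.C52.RB13 (B13)

namespace Pool.Agent.C52.RN11

/-- Row N11.  Fourier decomposition of the operator on real functions.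
Recipe: B11, B12 (frequencies in `Fr N`), the frequency `0` gives `avg N f`. -/
theorem N11 (N : ℕ) (hN : 1 ≤ N) (k : ℤ) (η : ℝ) (f : ℤ → ℝ) (m' : ℤ) :
    ((Qp N k f m' : ℝ) : ℂ) =
      QT N k (Ths N η) (fun m => (f m : ℂ)) m' + QT N k (Thr N η) (fun m => (f m : ℂ)) m' := by
  classical
  obtain ⟨c1, c2, c3, c4, c5⟩ := B7
  obtain ⟨b1, b2, b3, b4, b5, b6, b7, b8, b9, b10, b11⟩ := B13
  have h4 : (4 : ℝ) ^ N ≠ 0 := by positivity
  -- the summand
  set T : ℤ → ℂ := fun c => (GG (1 / 4) N ((c : ℝ) / 4 ^ N) : ℂ) * ee (-((c : ℝ) * hi N k m' / 4 ^ N)) *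
    avgC N (fun m => ee (-((c : ℝ) * (k * m : ℤ) / 4 ^ N)) * (f m : ℂ)) with hT
  -- kernel over the centered frequencies
  have hker : ∀ z : ℤ, ((4 ^ N * wmod N z : ℝ) : ℂ) =
      ∑ c ∈ Fr N, (GG (1 / 4) N ((c : ℝ) / 4 ^ N) : ℂ) * ee (-((c : ℝ) * z / 4 ^ N)) := by
    intro z
    rw [B11, B12 N hN (fun c : ℤ => (GG (1 / 4) N ((c : ℝ) / 4 ^ N) : ℂ) *
      ee (-((c : ℝ) * z / 4 ^ N)))]
    · apply Finset.sum_congr rfl
      intro c _
      push_cast
      rfl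
    · intro c
      have e1 : (((c + 4 ^ N : ℤ) : ℝ) / 4 ^ N) = (c : ℝ) / 4 ^ N + ((1 : ℤ) : ℝ) := by
        push_cast; field_simp
      have e2 : -(((c + 4 ^ N : ℤ) : ℝ) * z / 4 ^ N) = -((c : ℝ) * z / 4 ^ N) + ((-z : ℤ) : ℝ) := by
        push_cast; field_simp; ring
      show (GG (1 / 4) N (((c + 4 ^ N : ℤ) : ℝ) / 4 ^ N) : ℂ) *
        ee (-(((c + 4 ^ N : ℤ) : ℝ) * z / 4 ^ N)) = _
      rw [e1, e2, b6, c1, c3, mul_one]
  have hQ : ((Qop N k f m' : ℝ) : ℂ) = ∑ c ∈ Fr N, T c := by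
    unfold Qop avg
    rw [Complex.ofReal_div, Complex.ofReal_sum]
    have e1 : ∀ m ∈ Lset N, ((4 ^ N * wmod N (k * m + hi N k m') * f m : ℝ) : ℂ) =
        ∑ c ∈ Fr N, (GG (1 / 4) N ((c : ℝ) / 4 ^ N) : ℂ) * ee (-((c : ℝ) * hi N k m' / 4 ^ N)) *
          (ee (-((c : ℝ) * (k * m : ℤ) / 4 ^ N)) * (f m : ℂ)) := by
      intro m _
      rw [Complex.ofReal_mul, hker, Finset.sum_mul]
      apply Finset.sum_congr rfl
      intro c _
      have e2 : -((c : ℝ) * ((k * m + hi N k m' : ℤ) : ℝ) / 4 ^ N) =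
          -((c : ℝ) * hi N k m' / 4 ^ N) + -((c : ℝ) * (k * m : ℤ) / 4 ^ N) := by
        push_cast; ring
      rw [e2, c1]
      ring
    rw [Finset.sum_congr rfl e1, Finset.sum_comm, Finset.sum_div]
    apply Finset.sum_congr rfl
    intro c _
    rw [hT]
    simp only [avgC]
    rw [← Finset.mul_sum, mul_div_assoc]
    push_cast
    rfl
  have h0 : T 0 = ((avg N f : ℝ) : ℂ) := by
    rw [hT]
    simp only [Int.cast_zero, zero_div, zero_mul, neg_zero]
    have e0 : ee 0 = 1 := by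
      have := c3 0
      simpa using this
    have g0 : GG (1 / 4) N 0 = 1 := by
      unfold GG gf
      apply Finset.prod_eq_one
      intro i _
      simp
    rw [e0, g0]
    simp only [one_mul, Complex.ofReal_one]
    unfold avgC avg
    push_cast
    rfl
  have hmem : (0 : ℤ) ∈ Fr N := by
    unfold Fr
    rw [Finset.mem_Ioc]
    have h1 : (4 : ℤ) ^ N = 4 * 4 ^ (N - 1) := by
      rw [← pow_succ']; congr 1; omega
    have h2 : (0 : ℤ) < 4 ^ (N - 1) := by positivity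
    constructor
    · omega
    · omega
  have hsplit : ∑ c ∈ Fr N, T c = T 0 + (∑ c ∈ Ths N η, T c + ∑ c ∈ Thr N η, T c) := by
    rw [← Finset.add_sum_erase _ _ hmem]
    congr 1
    have e1 : (Fr N).erase 0 = (Fr N).filter (fun c => c ≠ 0) := by
      ext c
      simp only [Finset.mem_erase, Finset.mem_filter, ne_eq]
      tauto
    rw [e1, ← Finset.sum_filter_add_sum_filter_not ((Fr N).filter (fun c => c ≠ 0))
      (fun c => η ^ N < GG (1 / 4) N ((c : ℝ) / 4 ^ N))]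
    rw [Finset.filter_filter, Finset.filter_filter]
    congr 1
    · unfold Thr
      simp only [not_lt]
  have hQT : ∀ Θ : Finset ℤ, QT N k Θ (fun m => (f m : ℂ)) m' = ∑ c ∈ Θ, T c := fun Θ => rfl
  unfold Qp
  rw [Complex.ofReal_sub, hQ, hsplit, h0, hQT, hQT]
  ring

end Pool.Agent.C52.RN11
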