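import Pool.Agent.Lib.MP_c52340_c5.Defs
import Pool.Agent.Lib.MP_c52340_c5.B2
import Pool.Agent.Lib.MP_c52340_c5.B7
import Pool.Agent.Lib.MP_c52340_c5.B13


set_option autoImplicit false

open Finset

open Pool.Agent.C52.RB2 (B2)
open Pool.Agent.C52.RB7 (B7)
open Pool.Agent.C52.RB13 (B13)

namespace Pool.Agent.C52.RN12

private noncomputable def AA (N : ℕ) (k c : ℤ) (f : ℤ → ℂ) : ℂ :=
  avgC N (fun m => ee (-((c : ℝ) * (k * m : ℤ) / 4 ^ N)) * f m)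

private noncomputable def VV (N : ℕ) (k c c' : ℤ) : ℂ :=
  avgC N (fun m => ee (-((c : ℝ) * (k * m : ℤ) / 4 ^ N)) * ee (-((c' : ℝ) * hi N k m / 4 ^ N)))

private theorem VV_norm (N : ℕ) (k c c' : ℤ) : ‖VV N k c c'‖ = ‖Wov N k c c'‖ := by
  have h : VV N k c c' = (starRingEnd ℂ) (Wov N k c c') := by
    unfold VV Wov avgC
    rw [map_div₀, map_sum]
    congr 1
    · refine Finset.sum_congr rfl fun m _ => ?_
      rw [map_mul, (B7.2.2.2.1 _), (B7.2.2.2.1 _)]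
    · rw [map_pow, map_ofNat]
  rw [h, Complex.norm_conj]

private theorem QT_eq (N : ℕ) (k : ℤ) (Θ : Finset ℤ) (f : ℤ → ℂ) (m' : ℤ) :
    QT N k Θ f m' = ∑ c ∈ Θ, (GG (1 / 4) N ((c : ℝ) / 4 ^ N) : ℂ) *
      ee (-((c : ℝ) * hi N k m' / 4 ^ N)) * AA N k c f := rfl

private theorem AA_QT (N : ℕ) (k : ℤ) (Θ : Finset ℤ) (c : ℤ) (f : ℤ → ℂ) :
    AA N k c (QT N k Θ f) = ∑ c' ∈ Θ, (GG (1 / 4) N ((c' : ℝ) / 4 ^ N) : ℂ) *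
      VV N k c c' * AA N k c' f := by
  have h1 : AA N k c (QT N k Θ f) =
      (∑ m ∈ Lset N, ee (-((c : ℝ) * (k * m : ℤ) / 4 ^ N)) * QT N k Θ f m) / 3 ^ N := rfl
  rw [h1]
  simp only [QT_eq, Finset.mul_sum]
  rw [Finset.sum_comm, Finset.sum_div]
  refine Finset.sum_congr rfl fun c' _ => ?_
  have h2 : VV N k c c' = (∑ m ∈ Lset N, ee (-((c : ℝ) * (k * m : ℤ) / 4 ^ N)) *
      ee (-((c' : ℝ) * hi N k m / 4 ^ N))) / 3 ^ N := rfl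
  rw [h2]
  rw [show ∀ x y z : ℂ, x * (y / 3 ^ N) * z = (y * (x * z)) / 3 ^ N from fun x y z => by ring]
  congr 1
  rw [Finset.sum_mul]
  refine Finset.sum_congr rfl fun m _ => ?_
  ring

private theorem AA_norm (N : ℕ) (k c : ℤ) (f : ℤ → ℂ) : ‖AA N k c f‖ ≤ Real.sqrt (nsqC N f) := by
  apply Real.le_sqrt_of_sq_le
  have h1 : ‖AA N k c f‖ ≤ (∑ m ∈ Lset N, ‖f m‖) / 3 ^ N := by
    have h2 : AA N k c f =
      (∑ m ∈ Lset N, ee (-((c : ℝ) * (k * m : ℤ) / 4 ^ N)) * f m) / 3 ^ N := rfl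
    rw [h2, norm_div]
    have h3 : ‖(3 : ℂ) ^ N‖ = 3 ^ N := by simp
    rw [h3]
    refine div_le_div_of_nonneg_right ?_ (by positivity)
    refine le_trans (norm_sum_le _ _) (Finset.sum_le_sum fun m _ => ?_)
    rw [norm_mul, B7.2.1, one_mul]
  have h4 : (∑ m ∈ Lset N, ‖f m‖) ^ 2 ≤ 3 ^ N * ∑ m ∈ Lset N, ‖f m‖ ^ 2 := by
    have h5 := sq_sum_le_card_mul_sum_sq (s := Lset N) (f := fun m => ‖f m‖)
    rw [B2.2.1] at h5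
    push_cast at h5
    exact h5
  have h6 : (0 : ℝ) < 3 ^ N := by positivity
  calc ‖AA N k c f‖ ^ 2 ≤ ((∑ m ∈ Lset N, ‖f m‖) / 3 ^ N) ^ 2 :=
        pow_le_pow_left₀ (norm_nonneg _) h1 2
    _ = (∑ m ∈ Lset N, ‖f m‖) ^ 2 / (3 ^ N * 3 ^ N) := by rw [div_pow]; ring
    _ ≤ (3 ^ N * ∑ m ∈ Lset N, ‖f m‖ ^ 2) / (3 ^ N * 3 ^ N) :=
        div_le_div_of_nonneg_right h4 (by positivity)
    _ = nsqC N f := by
        unfold nsqC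
        field_simp

private theorem GG_norm (N : ℕ) (c : ℤ) : ‖(GG (1 / 4) N ((c : ℝ) / 4 ^ N) : ℂ)‖ ≤ 1 := by
  rw [Complex.norm_real, Real.norm_eq_abs]
  exact B13.2.2.2.2.2.2.2.1 _ _ _ (by norm_num) (by norm_num)

/-- Row N12.  Triple products on structured frequencies.
Recipe: `QT Θ (QT Θ (QT Θ f)) m' = ∑_{c₁,c₂,c₃} G G G ee(-c₁ hi m'/M) conj(Wov c₁ c₂) conj(Wov c₂ c₃) avgC (ee(-c₃ k m/M) f)`,
`0 ≤ GG (1/4) ≤ 1`, `‖avgC (ee * f)‖² ≤ nsqC f`. -/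
theorem N12 (N : ℕ) (k : ℤ) (Θ : Finset ℤ) (r : ℝ) (hr : 0 ≤ r)
    (h : ∀ c₁ ∈ Θ, ∀ c₂ ∈ Θ, ∀ c₃ ∈ Θ, ‖Wov N k c₁ c₂‖ * ‖Wov N k c₂ c₃‖ ≤ r) (f : ℤ → ℂ) :
    nsqC N (QT N k Θ (QT N k Θ (QT N k Θ f))) ≤ ((Θ.card : ℝ) ^ 3 * r) ^ 2 * nsqC N f := by
  set S := Real.sqrt (nsqC N f) with hS
  have hS0 : 0 ≤ S := Real.sqrt_nonneg _
  have hn0 : 0 ≤ nsqC N f := by
    unfold nsqC
    positivity
  have hSS : S ^ 2 = nsqC N f := Real.sq_sqrt hn0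
  have e1 : ∀ c₁ ∈ Θ, ‖AA N k c₁ (QT N k Θ (QT N k Θ f))‖ ≤ (Θ.card : ℝ) ^ 2 * r * S := by
    intro c₁ h1
    rw [AA_QT]
    refine le_trans (norm_sum_le _ _) ?_
    have e2 : ∀ c₂ ∈ Θ, ‖(GG (1 / 4) N ((c₂ : ℝ) / 4 ^ N) : ℂ) * VV N k c₁ c₂ *
        AA N k c₂ (QT N k Θ f)‖ ≤ (Θ.card : ℝ) * r * S := by
      intro c₂ h2
      rw [AA_QT, Finset.mul_sum]
      refine le_trans (norm_sum_le _ _) ?_
      have e3 : ∀ c₃ ∈ Θ, ‖(GG (1 / 4) N ((c₂ : ℝ) / 4 ^ N) : ℂ) * VV N k c₁ c₂ *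
          ((GG (1 / 4) N ((c₃ : ℝ) / 4 ^ N) : ℂ) * VV N k c₂ c₃ * AA N k c₃ f)‖ ≤ r * S := by
        intro c₃ h3
        rw [norm_mul, norm_mul, norm_mul, norm_mul, VV_norm, VV_norm]
        have a1 := GG_norm N c₂
        have a2 := GG_norm N c₃
        have a3 := AA_norm N k c₃ f
        have a4 := h c₁ h1 c₂ h2 c₃ h3
        have a5 : ‖(GG (1 / 4) N ((c₂ : ℝ) / 4 ^ N) : ℂ)‖ * ‖(GG (1 / 4) N ((c₃ : ℝ) / 4 ^ N) : ℂ)‖ ≤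
            1 := by
          calc _ ≤ (1 : ℝ) * 1 := mul_le_mul a1 a2 (norm_nonneg _) (by norm_num)
            _ = 1 := by norm_num
        calc ‖(GG (1 / 4) N ((c₂ : ℝ) / 4 ^ N) : ℂ)‖ * ‖Wov N k c₁ c₂‖ *
              (‖(GG (1 / 4) N ((c₃ : ℝ) / 4 ^ N) : ℂ)‖ * ‖Wov N k c₂ c₃‖ * ‖AA N k c₃ f‖)
            = (‖(GG (1 / 4) N ((c₂ : ℝ) / 4 ^ N) : ℂ)‖ * ‖(GG (1 / 4) N ((c₃ : ℝ) / 4 ^ N) : ℂ)‖) *
              ((‖Wov N k c₁ c₂‖ * ‖Wov N k c₂ c₃‖) * ‖AA N k c₃ f‖) := by ring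
          _ ≤ 1 * (r * S) := by
              refine mul_le_mul a5 ?_ (by positivity) (by norm_num)
              exact mul_le_mul a4 a3 (norm_nonneg _) hr
          _ = r * S := one_mul _
      refine le_trans (Finset.sum_le_sum e3) ?_
      rw [Finset.sum_const, nsmul_eq_mul]
      linarith
    refine le_trans (Finset.sum_le_sum e2) ?_
    rw [Finset.sum_const, nsmul_eq_mul]
    linarith
  have e4 : ∀ m' : ℤ, ‖QT N k Θ (QT N k Θ (QT N k Θ f)) m'‖ ≤ (Θ.card : ℝ) ^ 3 * r * S := by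
    intro m'
    rw [QT_eq]
    refine le_trans (norm_sum_le _ _) ?_
    have e5 : ∀ c ∈ Θ, ‖(GG (1 / 4) N ((c : ℝ) / 4 ^ N) : ℂ) * ee (-((c : ℝ) * hi N k m' / 4 ^ N)) *
        AA N k c (QT N k Θ (QT N k Θ f))‖ ≤ (Θ.card : ℝ) ^ 2 * r * S := by
      intro c hc
      rw [norm_mul, norm_mul, B7.2.1, mul_one]
      calc _ ≤ 1 * ((Θ.card : ℝ) ^ 2 * r * S) :=
            mul_le_mul (GG_norm N c) (e1 c hc) (norm_nonneg _) (by norm_num)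
        _ = _ := one_mul _
    refine le_trans (Finset.sum_le_sum e5) ?_
    rw [Finset.sum_const, nsmul_eq_mul]
    linarith
  have e6 : ∑ m ∈ Lset N, ‖QT N k Θ (QT N k Θ (QT N k Θ f)) m‖ ^ 2 ≤
      3 ^ N * ((Θ.card : ℝ) ^ 3 * r * S) ^ 2 := by
    refine le_trans (Finset.sum_le_sum fun m _ => pow_le_pow_left₀ (norm_nonneg _) (e4 m) 2) ?_
    rw [Finset.sum_const, nsmul_eq_mul, B2.2.1]
    push_cast
    exact le_refl _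
  have h6 : (0 : ℝ) < 3 ^ N := by positivity
  have e7 : nsqC N (QT N k Θ (QT N k Θ (QT N k Θ f))) =
      (∑ m ∈ Lset N, ‖QT N k Θ (QT N k Θ (QT N k Θ f)) m‖ ^ 2) / 3 ^ N := rfl
  rw [e7, div_le_iff₀ h6]
  calc _ ≤ 3 ^ N * ((Θ.card : ℝ) ^ 3 * r * S) ^ 2 := e6
    _ = ((Θ.card : ℝ) ^ 3 * r) ^ 2 * S ^ 2 * 3 ^ N := by ring
    _ = ((Θ.card : ℝ) ^ 3 * r) ^ 2 * nsqC N f * 3 ^ N := by rw [hSS]

end Pool.Agent.C52.RN12
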