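import Pool.Agent.Lib.MP_c52340_c5.Defs
import Pool.Agent.Lib.MP_c52340_c5.N11


set_option autoImplicit false

open Finset

open Pool.Agent.C52.RN11 (N11)

namespace Pool.Agent.C52.RN13

private noncomputable def TT (N : ℕ) (f : ℤ → ℂ) : ℝ :=
  ‖(WithLp.toLp 2 (fun i : Lset N => f (i : ℤ)) : EuclideanSpace ℂ (Lset N))‖

private theorem TT_sq (N : ℕ) (f : ℤ → ℂ) : TT N f ^ 2 = 3 ^ N * nsqC N f := by
  unfold TT nsqC
  rw [EuclideanSpace.norm_sq_eq]
  have h3 : (3 : ℝ) ^ N ≠ 0 := pow_ne_zero _ (by norm_num)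
  rw [mul_div_cancel₀ _ h3]
  exact Finset.sum_coe_sort (Lset N) (fun i => ‖f i‖ ^ 2)

private theorem TT_nonneg (N : ℕ) (f : ℤ → ℂ) : 0 ≤ TT N f := norm_nonneg _

private theorem TT_add (N : ℕ) (f g : ℤ → ℂ) : TT N (fun m => f m + g m) ≤ TT N f + TT N g := by
  unfold TT
  exact norm_add_le (WithLp.toLp 2 (fun i : Lset N => f (i : ℤ)) : EuclideanSpace ℂ (Lset N))
    (WithLp.toLp 2 (fun i : Lset N => g (i : ℤ)) : EuclideanSpace ℂ (Lset N))

private theorem QT_add (N : ℕ) (k : ℤ) (Θ : Finset ℤ) (f g : ℤ → ℂ) :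
    QT N k Θ (fun m => f m + g m) = fun m => QT N k Θ f m + QT N k Θ g m := by
  funext m'
  unfold QT
  rw [← Finset.sum_add_distrib]
  apply Finset.sum_congr rfl
  intro c _
  rw [← mul_add]
  congr 1
  unfold avgC
  rw [← add_div, ← Finset.sum_add_distrib]
  congr 1
  apply Finset.sum_congr rfl
  intro m _
  ring

private theorem TT_le (N : ℕ) (f g : ℤ → ℂ) (a : ℝ) (ha : 0 ≤ a)
    (h : nsqC N f ≤ a ^ 2 * nsqC N g) : TT N f ≤ a * TT N g := by
  have h1 : TT N f ^ 2 ≤ (a * TT N g) ^ 2 := by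
    rw [mul_pow, TT_sq, TT_sq]
    have h3 : (0 : ℝ) ≤ 3 ^ N := by positivity
    nlinarith [mul_le_mul_of_nonneg_left h h3]
  exact le_of_sq_le_sq h1 (mul_nonneg ha (TT_nonneg N g))

/-- Row N13.  Cube of the sum.
Recipe: `sqrt (nsqC ·)` is a seminorm (`EuclideanSpace` norm or Minkowski), `QT` is linear; expand
`(A + B)^3`: `A³` costs `t`, the seven other words cost at most `b a²` each (`b ≤ a`). -/
theorem N13 (N : ℕ) (hN : 1 ≤ N) (k : ℤ) (η a b t : ℝ) (hb : 0 ≤ b) (hba : b ≤ a) (ht : 0 ≤ t)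
    (hA : ∀ f : ℤ → ℂ, nsqC N (QT N k (Ths N η) f) ≤ a ^ 2 * nsqC N f)
    (hB : ∀ f : ℤ → ℂ, nsqC N (QT N k (Thr N η) f) ≤ b ^ 2 * nsqC N f)
    (hA3 : ∀ f : ℤ → ℂ,
      nsqC N (QT N k (Ths N η) (QT N k (Ths N η) (QT N k (Ths N η) f))) ≤ t ^ 2 * nsqC N f)
    (f : ℤ → ℝ) : nsq N ((Qp N k)^[3] f) ≤ (t + 7 * b * a ^ 2) ^ 2 * nsq N f := by
  have ha : 0 ≤ a := le_trans hb hba
  set A : (ℤ → ℂ) → (ℤ → ℂ) := QT N k (Ths N η) with hAdef
  set B : (ℤ → ℂ) → (ℤ → ℂ) := QT N k (Thr N η) with hBdef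
  have hAadd : ∀ f g : ℤ → ℂ, A (fun m => f m + g m) = fun m => A f m + A g m := QT_add N k _
  have hBadd : ∀ f g : ℤ → ℂ, B (fun m => f m + g m) = fun m => B f m + B g m := QT_add N k _
  have hA' : ∀ f, TT N (A f) ≤ a * TT N f := fun f => TT_le N _ _ a ha (hA f)
  have hB' : ∀ f, TT N (B f) ≤ b * TT N f := fun f => TT_le N _ _ b hb (hB f)
  have hA3' : ∀ f, TT N (A (A (A f))) ≤ t * TT N f := fun f => TT_le N _ _ t ht (hA3 f)
  set P : (ℤ → ℂ) → (ℤ → ℂ) := fun g m => A g m + B g m with hPdef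
  have hP : ∀ g, TT N (P g) ≤ (a + b) * TT N g := by
    intro g
    have h1 := TT_add N (A g) (B g)
    have h2 := hA' g
    have h3 := hB' g
    have h4 : TT N (P g) ≤ TT N (A g) + TT N (B g) := h1
    linarith
  have hPPP : ∀ g, TT N (P (P (P g))) ≤ (t + 7 * b * a ^ 2) * TT N g := by
    intro g
    have hg := TT_nonneg N g
    -- split the outer factor
    have h1 : TT N (P (P (P g))) ≤ TT N (A (P (P g))) + TT N (B (P (P g))) :=
      TT_add N (A (P (P g))) (B (P (P g)))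
    have h2 : TT N (B (P (P g))) ≤ b * ((a + b) * ((a + b) * TT N g)) :=
      le_trans (hB' _) (mul_le_mul_of_nonneg_left
        (le_trans (hP _) (mul_le_mul_of_nonneg_left (hP _) (by linarith))) hb)
    have h3 : TT N (A (P (P g))) ≤ TT N (A (A (P g))) + TT N (A (B (P g))) := by
      have e : A (P (P g)) = fun m => A (A (P g)) m + A (B (P g)) m := hAadd (A (P g)) (B (P g))
      rw [e]
      exact TT_add N _ _
    have h4 : TT N (A (B (P g))) ≤ a * (b * ((a + b) * TT N g)) :=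
      le_trans (hA' _) (mul_le_mul_of_nonneg_left
        (le_trans (hB' _) (mul_le_mul_of_nonneg_left (hP _) hb)) ha)
    have h5 : TT N (A (A (P g))) ≤ TT N (A (A (A g))) + TT N (A (A (B g))) := by
      have e1 : A (P g) = fun m => A (A g) m + A (B g) m := hAadd (A g) (B g)
      rw [e1]
      have e2 : A (fun m => A (A g) m + A (B g) m) = fun m => A (A (A g)) m + A (A (B g)) m :=
        hAadd (A (A g)) (A (B g))
      rw [e2]
      exact TT_add N _ _
    have h6 : TT N (A (A (B g))) ≤ a * (a * (b * TT N g)) :=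
      le_trans (hA' _) (mul_le_mul_of_nonneg_left
        (le_trans (hA' _) (mul_le_mul_of_nonneg_left (hB' _) ha)) ha)
    have h7 := hA3' g
    have hab : b * ((a + b) * (a + b)) + a * (b * (a + b)) + a * (a * b) ≤ 7 * b * a ^ 2 := by
      have k1 : (a + b) * (a + b) ≤ (2 * a) * (2 * a) :=
        mul_le_mul (by linarith) (by linarith) (by linarith) (by linarith)
      have k2 : b * ((a + b) * (a + b)) ≤ b * ((2 * a) * (2 * a)) := mul_le_mul_of_nonneg_left k1 hb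
      have k3 : b * (a + b) ≤ b * (2 * a) := mul_le_mul_of_nonneg_left (by linarith) hb
      have k4 : a * (b * (a + b)) ≤ a * (b * (2 * a)) := mul_le_mul_of_nonneg_left k3 ha
      nlinarith
    have hfin := mul_le_mul_of_nonneg_right hab hg
    nlinarith
  -- the real operator
  have hreal : ∀ g : ℤ → ℝ, (fun m => ((Qp N k g m : ℝ) : ℂ)) = P (fun m => (g m : ℂ)) := by
    intro g
    funext m
    exact N11 N hN k η g m
  have hiter : (fun m => (((Qp N k)^[3] f m : ℝ) : ℂ)) = P (P (P (fun m => (f m : ℂ)))) := by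
    show (fun m => ((Qp N k (Qp N k (Qp N k f)) m : ℝ) : ℂ)) = _
    rw [hreal, hreal, hreal]
  have hns : ∀ g : ℤ → ℝ, nsq N g = nsqC N (fun m => (g m : ℂ)) := by
    intro g
    unfold nsq nsqC
    congr 1
    apply Finset.sum_congr rfl
    intro m _
    rw [Complex.norm_real, Real.norm_eq_abs, sq_abs]
  have h1 := hPPP (fun m => (f m : ℂ))
  rw [← hiter] at h1
  have hc : 0 ≤ t + 7 * b * a ^ 2 := by positivity
  have h2 : TT N (fun m => (((Qp N k)^[3] f m : ℝ) : ℂ)) ^ 2 ≤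
      ((t + 7 * b * a ^ 2) * TT N (fun m => (f m : ℂ))) ^ 2 :=
    pow_le_pow_left₀ (TT_nonneg N _) h1 2
  rw [mul_pow, TT_sq, TT_sq] at h2
  rw [hns, hns]
  have h3 : (0 : ℝ) < 3 ^ N := by positivity
  have h4 : (3 : ℝ) ^ N * nsqC N (fun m => (((Qp N k)^[3] f m : ℝ) : ℂ)) ≤
      3 ^ N * ((t + 7 * b * a ^ 2) ^ 2 * nsqC N (fun m => (f m : ℂ))) := by
    calc _ ≤ _ := h2
      _ = _ := by ring
  exact le_of_mul_le_mul_left h4 h3

end Pool.Agent.C52.RN13
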