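import Pool.Agent.Lib.MP_c52340_c5.Defs
import Pool.Agent.Lib.MP_c52340_c5.B7
import Pool.Agent.Lib.MP_c52340_c5.B10


set_option autoImplicit false

open Finset

open Pool.Agent.C52.RB7 (B7)
open Pool.Agent.C52.RB10 (B10)

namespace Pool.Agent.C52.RN2

private theorem n2_inner (K : ℕ) (w : ℤ) (i : ℕ) :
    ∑ j ∈ range K, (if (i : ℤ) - j + w = 0 then (1 : ℕ) else 0) =
      if 0 ≤ (i : ℤ) + w ∧ (i : ℤ) + w < K then 1 else 0 := by
  split_ifs with h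
  · rw [sum_eq_single ((i : ℤ) + w).toNat]
    · rw [if_pos]
      have : (((i : ℤ) + w).toNat : ℤ) = i + w := Int.toNat_of_nonneg h.1
      omega
    · intro j _ hj
      rw [if_neg]
      omega
    · intro hj
      exfalso
      apply hj
      rw [mem_range]
      omega
  · refine sum_eq_zero fun j hj => ?_
    rw [mem_range] at hj
    rw [if_neg]
    omega

private theorem n2_cnt (K : ℕ) (w : ℤ) :
    ∑ i ∈ range K, ∑ j ∈ range K, (if (i : ℤ) - j + w = 0 then (1 : ℕ) else 0) =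
      ((K : ℤ) - |w|).toNat := by
  simp only [n2_inner]
  rw [← sum_filter, sum_const, smul_eq_mul, mul_one]
  have h1 : (range K).filter (fun i : ℕ => 0 ≤ (i : ℤ) + w ∧ (i : ℤ) + w < K) =
      Ico (-w).toNat (min (K : ℤ) (K - w)).toNat := by
    ext i
    simp only [mem_filter, mem_range, mem_Ico]
    omega
  rw [h1, Nat.card_Ico]
  rcases abs_cases w with h | h <;> omega

/-- Row N2.  Fourier expansion of the tent function modulo `16 ^ N`.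
Recipe: `bh N c = (4^N)^{-3} ∑_{i,j < 2*4^N} ee ((i - j) c / 16^N)`; orthogonality B10 (with `2 N` digits,
`16^N = 4^(2N)`): the right side is `4^{-N} #{(i,j) : 16^N ∣ i - j + w}`, and `|i - j + w| < 16^N`, so this is
`4^{-N} #{(i,j) : i - j = -w} = 4^{-N} max 0 (2*4^N - |w|)`. -/
theorem N2 (N : ℕ) (w : ℤ) (hw : |w| ≤ 16 ^ N - 2 * 4 ^ N) :
    ((2 * max 0 (1 - |(w : ℝ)| / (2 * 4 ^ N)) : ℝ) : ℂ) =
      ∑ c ∈ range (16 ^ N), (bh N c : ℂ) * ee ((c : ℝ) * w / 16 ^ N) := by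
  obtain ⟨hadd, hnorm, hint, hconj, -⟩ := B7
  have hM : (0 : ℝ) < 4 ^ N := by positivity
  have h16 : (16 : ℝ) ^ N = 4 ^ N * 4 ^ N := by rw [← mul_pow]; norm_num
  have h16C : (16 : ℂ) ^ N = 4 ^ N * 4 ^ N := by rw [← mul_pow]; norm_num
  have h162 : (16 : ℝ) ^ N = 4 ^ (2 * N) := by rw [pow_mul]; norm_num
  -- expansion of bh
  have hbh : ∀ c : ℕ, (bh N c : ℂ) * ee ((c : ℝ) * w / 16 ^ N) =
      ∑ i ∈ range (2 * 4 ^ N), ∑ j ∈ range (2 * 4 ^ N),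
        ee ((c : ℝ) * (((i : ℤ) - j + w : ℤ) : ℝ) / 4 ^ (2 * N)) / (4 ^ N) ^ 3 := by
    intro c
    unfold bh
    have h1 : ((‖∑ i ∈ range (2 * 4 ^ N), ee ((i : ℝ) * ((c : ℤ) : ℝ) / 16 ^ N)‖ ^ 2 / (4 ^ N) ^ 3 : ℝ) : ℂ) =
        (∑ i ∈ range (2 * 4 ^ N), ee ((i : ℝ) * ((c : ℤ) : ℝ) / 16 ^ N)) *
          (starRingEnd ℂ) (∑ i ∈ range (2 * 4 ^ N), ee ((i : ℝ) * ((c : ℤ) : ℝ) / 16 ^ N)) /
          (4 ^ N) ^ 3 := by
      rw [Complex.mul_conj, Complex.normSq_eq_norm_sq]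
      push_cast
      rfl
    rw [h1, map_sum, sum_mul_sum, div_mul_eq_mul_div, sum_mul, sum_div]
    refine sum_congr rfl fun i _ => ?_
    rw [sum_mul, sum_div]
    refine sum_congr rfl fun j _ => ?_
    congr 1
    rw [hconj, ← hadd, ← hadd]
    congr 1
    rw [← h162]
    push_cast
    ring
  have hsw : ∑ c ∈ range (16 ^ N), (bh N c : ℂ) * ee ((c : ℝ) * w / 16 ^ N) =
      ∑ i ∈ range (2 * 4 ^ N), ∑ j ∈ range (2 * 4 ^ N),
        (if (i : ℤ) - j + w = 0 then (1 : ℂ) else 0) / 4 ^ N := by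
    simp only [hbh]
    rw [sum_comm]
    refine sum_congr rfl fun i hi => ?_
    rw [sum_comm]
    refine sum_congr rfl fun j hj => ?_
    rw [← sum_div]
    have h3 : (16 : ℕ) ^ N = 4 ^ (2 * N) := by rw [pow_mul]; norm_num
    rw [h3, B10 (2 * N) ((i : ℤ) - j + w)]
    rw [mem_range] at hi hj
    have hi' : ((i : ℕ) : ℤ) < 2 * 4 ^ N := by exact_mod_cast hi
    have hj' : ((j : ℕ) : ℤ) < 2 * 4 ^ N := by exact_mod_cast hj
    have h4 : (4 : ℤ) ^ (2 * N) = 16 ^ N := by rw [pow_mul]; norm_num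
    have hiff : (4 : ℤ) ^ (2 * N) ∣ (i : ℤ) - j + w ↔ (i : ℤ) - j + w = 0 := by
      constructor
      · intro h
        by_contra hne
        have h5 := Int.le_of_dvd (abs_pos.2 hne) ((dvd_abs _ _).2 h)
        rw [h4] at h5
        rcases abs_cases w with h6 | h6 <;> rcases abs_cases ((i : ℤ) - j + w) with h7 | h7 <;> omega
      · intro h
        rw [h]
        exact dvd_zero _
    have h5 : (4 : ℂ) ^ (2 * N) = 4 ^ N * 4 ^ N := by rw [two_mul, pow_add]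
    have h6 : (4 : ℂ) ^ N ≠ 0 := pow_ne_zero _ (by norm_num)
    by_cases h : (i : ℤ) - j + w = 0
    · rw [if_pos (hiff.2 h), if_pos h, h5]
      field_simp
    · rw [if_neg (fun h' => h (hiff.1 h')), if_neg h, zero_div, zero_div]
  rw [hsw]
  have hcnt : ∑ i ∈ range (2 * 4 ^ N), ∑ j ∈ range (2 * 4 ^ N),
        (if (i : ℤ) - j + w = 0 then (1 : ℂ) else 0) / 4 ^ N =
      ((((2 * 4 ^ N : ℕ) : ℤ) - |w|).toNat : ℂ) / 4 ^ N := by
    rw [← n2_cnt (2 * 4 ^ N) w]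
    push_cast
    rw [sum_div]
    refine sum_congr rfl fun i _ => ?_
    rw [sum_div]
  rw [hcnt]
  have hre : (2 * max 0 (1 - |(w : ℝ)| / (2 * 4 ^ N)) : ℝ) =
      ((((2 * 4 ^ N : ℕ) : ℤ) - |w|).toNat : ℝ) / 4 ^ N := by
    have h1 : ((((2 * 4 ^ N : ℕ) : ℤ) - |w|).toNat : ℝ) = max 0 (2 * 4 ^ N - |(w : ℝ)|) := by
      have h2 : (((((2 * 4 ^ N : ℕ) : ℤ) - |w|).toNat : ℤ) : ℝ) =
          ((max 0 (((2 * 4 ^ N : ℕ) : ℤ) - |w|) : ℤ) : ℝ) := by
        congr 1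
        rw [Int.toNat_eq_max, max_comm]
      rw [Int.cast_natCast] at h2
      rw [h2]
      push_cast
      rfl
    rw [h1, eq_div_iff hM.ne']
    have h3 : (2 : ℝ) * 4 ^ N - |(w : ℝ)| = (2 * 4 ^ N) * (1 - |(w : ℝ)| / (2 * 4 ^ N)) := by
      field_simp
    rw [h3]
    have h4 : (0 : ℝ) = (2 * 4 ^ N) * 0 := by ring
    conv_rhs => rw [h4]
    rw [← mul_max_of_nonneg _ _ (by positivity)]
    ring
  rw [hre]
  push_cast
  rfl

end Pool.Agent.C52.RN2
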