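import Pool.Agent.Lib.MP_c52340_c5.Defs
import Pool.Agent.Lib.MP_c52340_c5.B2
import Pool.Agent.Lib.MP_c52340_c5.B4
import Pool.Agent.Lib.MP_c52340_c5.B7
import Pool.Agent.Lib.MP_c52340_c5.B8
import Pool.Agent.Lib.MP_c52340_c5.B9
import Pool.Agent.Lib.MP_c52340_c5.B10
import Pool.Agent.Lib.MP_c52340_c5.B13
import Pool.Agent.Lib.MP_c52340_c5.B14
import Pool.Agent.Lib.MP_c52340_c5.N0
import Pool.Agent.Lib.MP_c52340_c5.N2


set_option autoImplicit false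

open Finset

open Pool.Agent.C52.RB2 (B2)
open Pool.Agent.C52.RB4 (B4)
open Pool.Agent.C52.RB7 (B7)
open Pool.Agent.C52.RB8 (B8)
open Pool.Agent.C52.RB9 (B9)
open Pool.Agent.C52.RB10 (B10)
open Pool.Agent.C52.RB13 (B13)
open Pool.Agent.C52.RB14 (B14)
open Pool.Agent.C52.RN0 (N0)
open Pool.Agent.C52.RN2 (N2)

namespace Pool.Agent.C52.RN3

private noncomputable def KK (N : ℕ) (z : ℤ) : ℝ :=
  4 ^ N * ∑ y ∈ Lset N, if (4 : ℤ) ^ N ∣ y - z then wG pd N y else 0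

private theorem pd_le : (0 : ℝ) ≤ pd ∧ pd ≤ 1 / 4 := by
  unfold pd
  constructor <;> norm_num

private theorem KK_nonneg (N : ℕ) (z : ℤ) : 0 ≤ KK N z := by
  unfold KK
  apply mul_nonneg (by positivity)
  apply Finset.sum_nonneg
  intro y _
  split_ifs
  · exact B4.1 pd pd_le.1 (by linarith [pd_le.2]) N y
  · exact le_refl _

private theorem KK_fourier (N : ℕ) (z : ℤ) :
    ∑ c ∈ range (4 ^ N), (GG pd N ((c : ℝ) / 4 ^ N) : ℂ) * ee (-((c : ℝ) * z / 4 ^ N)) = (KK N z : ℂ) := by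
  obtain ⟨hadd, hnorm, hint, hconj, _⟩ := B7
  have h1 : ∀ c ∈ range (4 ^ N), (GG pd N ((c : ℝ) / 4 ^ N) : ℂ) * ee (-((c : ℝ) * z / 4 ^ N)) =
      ∑ y ∈ Lset N, (wG pd N y : ℂ) * ee ((c : ℝ) * ((y - z : ℤ) : ℝ) / 4 ^ N) := by
    intro c _
    rw [← B8, Finset.sum_mul]
    apply Finset.sum_congr rfl
    intro y _
    rw [mul_assoc, ← hadd]
    congr 2
    push_cast
    ring
  rw [Finset.sum_congr rfl h1, Finset.sum_comm]
  unfold KK
  push_cast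
  rw [Finset.mul_sum]
  apply Finset.sum_congr rfl
  intro y _
  rw [← Finset.mul_sum]
  have h2 := B10 N (y - z)
  have h3 : ∑ c ∈ range (4 ^ N), ee ((c : ℝ) * ((y - z : ℤ) : ℝ) / 4 ^ N) =
      if (4 : ℤ) ^ N ∣ y - z then (4 : ℂ) ^ N else 0 := h2
  have h4 : ∑ i ∈ range (4 ^ N), ee ((i : ℝ) * ((y : ℝ) - (z : ℝ)) / 4 ^ N) =
      ∑ c ∈ range (4 ^ N), ee ((c : ℝ) * ((y - z : ℤ) : ℝ) / 4 ^ N) := by
    apply Finset.sum_congr rfl
    intro c _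
    push_cast
    rfl
  rw [h4, h3]
  split_ifs
  · ring
  · push_cast
    ring

private theorem KK_neg (N : ℕ) (z : ℤ) : KK N (-z) = KK N z := by
  obtain ⟨hadd, hnorm, hint, hconj, _⟩ := B7
  have h1 : (KK N (-z) : ℂ) = (starRingEnd ℂ) (KK N z : ℂ) := by
    rw [← KK_fourier, ← KK_fourier, map_sum]
    apply Finset.sum_congr rfl
    intro c _
    rw [map_mul, Complex.conj_ofReal, hconj]
    congr 2
    push_cast
    ring
  rw [Complex.conj_ofReal] at h1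
  exact_mod_cast h1

private theorem schur (N : ℕ) (φ : ℤ → ℤ) (R : ℝ)
    (hR : ∀ m ∈ Lset N, ∑ m' ∈ Lset N, KK N (φ m - φ m') ≤ 3 ^ N * R) (f : ℤ → ℂ) :
    ∑ c ∈ range (4 ^ N), GG pd N ((c : ℝ) / 4 ^ N) *
      ‖avgC N (fun m => ee (-((c : ℝ) * (φ m : ℤ) / 4 ^ N)) * f m)‖ ^ 2 ≤ R * nsqC N f := by
  obtain ⟨hadd, hnorm, hint, hconj, _⟩ := B7
  have hG : ∀ x : ℝ, 0 ≤ GG pd N x := fun x => B13.2.2.2.2.2.2.2.2.1 pd x N pd_le.1 pd_le.2
  have h9 : (3 : ℂ) ^ N * 3 ^ N = 9 ^ N := by rw [← mul_pow]; norm_num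
  have hsq : ∀ c : ℕ, ((‖avgC N (fun m => ee (-((c : ℝ) * (φ m : ℤ) / 4 ^ N)) * f m)‖ ^ 2 : ℝ) : ℂ) =
      (1 / 9 ^ N : ℂ) * ∑ m ∈ Lset N, ∑ m' ∈ Lset N,
        ee (-((c : ℝ) * ((φ m - φ m' : ℤ) : ℝ) / 4 ^ N)) * (f m * (starRingEnd ℂ) (f m')) := by
    intro c
    have h2 : ((‖avgC N (fun m => ee (-((c : ℝ) * (φ m : ℤ) / 4 ^ N)) * f m)‖ ^ 2 : ℝ) : ℂ) =
        avgC N (fun m => ee (-((c : ℝ) * (φ m : ℤ) / 4 ^ N)) * f m) *
        (starRingEnd ℂ) (avgC N (fun m => ee (-((c : ℝ) * (φ m : ℤ) / 4 ^ N)) * f m)) := by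
      rw [Complex.mul_conj, Complex.normSq_eq_norm_sq]
    rw [h2]
    unfold avgC
    rw [map_div₀, map_sum, div_mul_div_comm, Finset.sum_mul_sum]
    have h3 : (starRingEnd ℂ) (3 ^ N) = 3 ^ N := by
      rw [map_pow]
      congr 1
      exact Complex.conj_ofReal 3
    rw [h3, h9, div_eq_mul_one_div, mul_comm]
    congr 1
    apply Finset.sum_congr rfl
    intro m _
    apply Finset.sum_congr rfl
    intro m' _
    rw [map_mul, hconj, mul_mul_mul_comm, ← hadd]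
    congr 2
    push_cast
    ring
  have htot : ((∑ c ∈ range (4 ^ N), GG pd N ((c : ℝ) / 4 ^ N) *
      ‖avgC N (fun m => ee (-((c : ℝ) * (φ m : ℤ) / 4 ^ N)) * f m)‖ ^ 2 : ℝ) : ℂ) =
      (1 / 9 ^ N : ℂ) * ∑ m ∈ Lset N, ∑ m' ∈ Lset N,
        (KK N (φ m - φ m') : ℂ) * (f m * (starRingEnd ℂ) (f m')) := by
    rw [Complex.ofReal_sum]
    rw [Finset.sum_congr rfl (fun c _ => by
      rw [Complex.ofReal_mul, hsq c])]
    have e1 : ∀ c ∈ range (4 ^ N), ((GG pd N ((c : ℝ) / 4 ^ N) : ℝ) : ℂ) * ((1 / 9 ^ N : ℂ) *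
        ∑ m ∈ Lset N, ∑ m' ∈ Lset N,
        ee (-((c : ℝ) * ((φ m - φ m' : ℤ) : ℝ) / 4 ^ N)) * (f m * (starRingEnd ℂ) (f m'))) =
        (1 / 9 ^ N : ℂ) * ∑ m ∈ Lset N, ∑ m' ∈ Lset N,
        (((GG pd N ((c : ℝ) / 4 ^ N) : ℝ) : ℂ) * ee (-((c : ℝ) * ((φ m - φ m' : ℤ) : ℝ) / 4 ^ N))) *
          (f m * (starRingEnd ℂ) (f m')) := by
      intro c _
      rw [mul_left_comm, Finset.mul_sum]
      congr 1
      apply Finset.sum_congr rfl
      intro m _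
      rw [Finset.mul_sum]
      apply Finset.sum_congr rfl
      intro m' _
      ring
    rw [Finset.sum_congr rfl e1, ← Finset.mul_sum, Finset.sum_comm]
    congr 1
    apply Finset.sum_congr rfl
    intro m _
    rw [Finset.sum_comm]
    apply Finset.sum_congr rfl
    intro m' _
    rw [← Finset.sum_mul, KK_fourier]
  have hnn : 0 ≤ ∑ c ∈ range (4 ^ N), GG pd N ((c : ℝ) / 4 ^ N) *
      ‖avgC N (fun m => ee (-((c : ℝ) * (φ m : ℤ) / 4 ^ N)) * f m)‖ ^ 2 :=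
    Finset.sum_nonneg (fun c _ => mul_nonneg (hG _) (by positivity))
  have h1 : ∑ c ∈ range (4 ^ N), GG pd N ((c : ℝ) / 4 ^ N) *
      ‖avgC N (fun m => ee (-((c : ℝ) * (φ m : ℤ) / 4 ^ N)) * f m)‖ ^ 2 =
      ‖((∑ c ∈ range (4 ^ N), GG pd N ((c : ℝ) / 4 ^ N) *
      ‖avgC N (fun m => ee (-((c : ℝ) * (φ m : ℤ) / 4 ^ N)) * f m)‖ ^ 2 : ℝ) : ℂ)‖ := by
    rw [Complex.norm_real, Real.norm_eq_abs, abs_of_nonneg hnn]
  rw [h1, htot, norm_mul]
  have hn9 : ‖(1 / 9 ^ N : ℂ)‖ = 1 / 9 ^ N := by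
    rw [norm_div, norm_one, norm_pow]
    norm_num
  rw [hn9]
  have hN0 := N0 (Lset N) (fun m m' => KK N (φ m - φ m')) (3 ^ N * R)
    (fun m _ m' _ => KK_nonneg N _)
    (fun m _ m' _ => by
      show KK N (φ m - φ m') = KK N (φ m' - φ m)
      rw [← KK_neg]
      congr 1
      ring) hR (fun m => ‖f m‖)
  have hle : ‖∑ m ∈ Lset N, ∑ m' ∈ Lset N,
        (KK N (φ m - φ m') : ℂ) * (f m * (starRingEnd ℂ) (f m'))‖ ≤
      ∑ m ∈ Lset N, ∑ m' ∈ Lset N, KK N (φ m - φ m') * (‖f m‖ * ‖f m'‖) := by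
    refine le_trans (norm_sum_le _ _) (Finset.sum_le_sum (fun m _ => ?_))
    refine le_trans (norm_sum_le _ _) (Finset.sum_le_sum (fun m' _ => ?_))
    rw [norm_mul, norm_mul, Complex.norm_real, Real.norm_eq_abs, abs_of_nonneg (KK_nonneg N _),
      RCLike.norm_conj]
  calc (1 / 9 ^ N : ℝ) * ‖∑ m ∈ Lset N, ∑ m' ∈ Lset N,
        (KK N (φ m - φ m') : ℂ) * (f m * (starRingEnd ℂ) (f m'))‖
      ≤ (1 / 9 ^ N) * (3 ^ N * R * ∑ m ∈ Lset N, ‖f m‖ ^ 2) :=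
        mul_le_mul_of_nonneg_left (le_trans hle hN0) (by positivity)
    _ = R * nsqC N f := by
        unfold nsqC
        have h9' : (9 : ℝ) ^ N = 3 ^ N * 3 ^ N := by rw [← mul_pow]; norm_num
        rw [h9']
        field_simp

/-- Row N3.  Real side of the norm estimate.
Recipe: as N1 with `K m m' = 4^N wG pd N (hi m - hi m')` (`|hi m - hi m'| ≤ 2k/3 + 1` by B14 and `|y| < M/3`, so
`M ∣ y - (hi m - hi m')` forces equality; `N ≥ 2`).  Domination: `|k (m - m') - M (hi m - hi m')| ≤ M`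
(`abs_sub_round`), so `wG pd N (hi m - hi m') ≤ ∑_{z ∈ Lset N} wG pd N z * b (k (m-m') - M z)`,
`b w = 2 max 0 (1 - |w|/(2M))`; by N2 (`|k(m-m') - M z| ≤ 2M²/3 ≤ M² - 2M`, `M ≥ 6`) and B8, B9 the row sums
`3^{-N} ∑_{m'}` of the right side times `4^N` are `4^N ∑_c bh N c GG pd N (c/M) ee(..) GG (1/3) N (k c/M²) ≤ Ys`. -/
theorem N3 (N : ℕ) (hN : 2 ≤ N) (k : ℤ) (hk : 0 < k) (hk2 : 2 * k < 4 ^ N) (f : ℤ → ℂ) :
    ∑ c ∈ range (4 ^ N), GG pd N ((c : ℝ) / 4 ^ N) *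
      ‖avgC N (fun m => ee (-((c : ℝ) * hi N k m / 4 ^ N)) * f m)‖ ^ 2 ≤ Ys N k * nsqC N f := by
  obtain ⟨hadd, hnorm, hint, hconj, _⟩ := B7
  have hG : ∀ x : ℝ, 0 ≤ GG pd N x := fun x => B13.2.2.2.2.2.2.2.2.1 pd x N pd_le.1 pd_le.2
  have hGneg : ∀ x : ℝ, GG pd N (-x) = GG pd N x := fun x => B13.2.2.2.2.2.2.1 pd x N
  have hG3neg : ∀ x : ℝ, GG (1 / 3) N (-x) = GG (1 / 3) N x := fun x => B13.2.2.2.2.2.2.1 (1 / 3) x N
  have hw : ∀ y, 0 ≤ wG pd N y := fun y => B4.1 pd pd_le.1 (by linarith [pd_le.2]) N y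
  have hbh : ∀ c : ℕ, 0 ≤ bh N c := fun c => by unfold bh; positivity
  have h16 : (16 : ℝ) ^ N = 4 ^ N * 4 ^ N := by rw [← mul_pow]; norm_num
  have h16z : (16 : ℤ) ^ N = 4 ^ N * 4 ^ N := by rw [← mul_pow]; norm_num
  have hM16 : (16 : ℤ) ≤ 4 ^ N := by
    calc (16 : ℤ) = 4 ^ 2 := by norm_num
      _ ≤ 4 ^ N := pow_le_pow_right₀ (by norm_num) hN
  have hM : (0 : ℝ) < 4 ^ N := by positivity
  have hLb : ∀ m ∈ Lset N, 3 * |m| ≤ (4 : ℤ) ^ N - 1 := B2.1 N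
  apply schur N (hi N k) (Ys N k)
  intro m hm
  -- domination
  have hdom : ∀ m' ∈ Lset N, KK N (hi N k m - hi N k m') ≤
      4 ^ N * ∑ z ∈ Lset N, wG pd N z *
        (2 * max 0 (1 - |((k * (m - m') - 4 ^ N * z : ℤ) : ℝ)| / (2 * 4 ^ N))) := by
    intro m' hm'
    unfold KK
    apply mul_le_mul_of_nonneg_left _ (by positivity)
    apply Finset.sum_le_sum
    intro y hy
    have hterm : 0 ≤ wG pd N y *
        (2 * max 0 (1 - |((k * (m - m') - 4 ^ N * y : ℤ) : ℝ)| / (2 * 4 ^ N))) :=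
      mul_nonneg (hw y) (mul_nonneg (by norm_num) (le_max_left _ _))
    split_ifs with hd
    · -- `y = hi m - hi m'`
      have hb1 := (B14 N (by omega) k hk hk2).2 m hm
      have hb2 := (B14 N (by omega) k hk hk2).2 m' hm'
      have hy3 := hLb y hy
      have hyeq : y - (hi N k m - hi N k m') = 0 := by
        apply Int.eq_zero_of_abs_lt_dvd hd
        have hyR : 3 * |(y : ℝ)| ≤ 4 ^ N - 1 := by exact_mod_cast hy3
        have hkR : 2 * (k : ℝ) + 1 ≤ 4 ^ N := by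
          have : 2 * k + 1 ≤ (4 : ℤ) ^ N := by omega
          exact_mod_cast this
        have hkpos : (0 : ℝ) < k := by exact_mod_cast hk
        have hkM : (0 : ℝ) ≤ (k : ℝ) / (3 * 4 ^ N) := by positivity
        have hMR : (16 : ℝ) ≤ 4 ^ N := by exact_mod_cast hM16
        have h3 : |(y : ℝ) - ((hi N k m : ℝ) - (hi N k m' : ℝ))| < 4 ^ N := by
          have a1 := abs_sub (y : ℝ) ((hi N k m : ℝ) - (hi N k m' : ℝ))
          have a2 := abs_sub (hi N k m : ℝ) (hi N k m' : ℝ)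
          linarith
        have h4 : ((|y - (hi N k m - hi N k m')| : ℤ) : ℝ) < ((4 ^ N : ℤ) : ℝ) := by
          push_cast
          exact h3
        exact_mod_cast h4
      have hyz : y = hi N k m - hi N k m' := by linarith
      have hr1 : |((k * m : ℤ) : ℝ) / 4 ^ N - hi N k m| ≤ 1 / 2 := abs_sub_round _
      have hr2 : |((k * m' : ℤ) : ℝ) / 4 ^ N - hi N k m'| ≤ 1 / 2 := abs_sub_round _
      have hmain : |((k * (m - m') - 4 ^ N * y : ℤ) : ℝ)| ≤ 4 ^ N := by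
        have e1 : ((k * (m - m') - 4 ^ N * y : ℤ) : ℝ) =
            4 ^ N * ((((k * m : ℤ) : ℝ) / 4 ^ N - hi N k m) -
              (((k * m' : ℤ) : ℝ) / 4 ^ N - hi N k m')) := by
          rw [hyz]
          push_cast
          field_simp
          ring
        rw [e1, abs_mul, abs_of_pos hM]
        have a3 := abs_sub (((k * m : ℤ) : ℝ) / 4 ^ N - hi N k m)
          (((k * m' : ℤ) : ℝ) / 4 ^ N - hi N k m')
        calc (4 : ℝ) ^ N * |(((k * m : ℤ) : ℝ) / 4 ^ N - hi N k m) -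
              (((k * m' : ℤ) : ℝ) / 4 ^ N - hi N k m')| ≤ 4 ^ N * 1 := by
              apply mul_le_mul_of_nonneg_left _ hM.le
              linarith
          _ = 4 ^ N := mul_one _
      have hhalf : |((k * (m - m') - 4 ^ N * y : ℤ) : ℝ)| / (2 * 4 ^ N) ≤ 1 / 2 := by
        rw [div_le_div_iff₀ (by positivity) (by norm_num)]
        linarith
      have hone : (1 : ℝ) ≤ 2 * max 0 (1 - |((k * (m - m') - 4 ^ N * y : ℤ) : ℝ)| / (2 * 4 ^ N)) := by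
        have := le_max_right (0 : ℝ) (1 - |((k * (m - m') - 4 ^ N * y : ℤ) : ℝ)| / (2 * 4 ^ N))
        linarith
      calc wG pd N y = wG pd N y * 1 := (mul_one _).symm
        _ ≤ _ := mul_le_mul_of_nonneg_left hone (hw y)
    · exact hterm
  -- Fourier expansion of the dominating sum
  have hfour : ((∑ m' ∈ Lset N, 4 ^ N * ∑ z ∈ Lset N, wG pd N z *
        (2 * max 0 (1 - |((k * (m - m') - 4 ^ N * z : ℤ) : ℝ)| / (2 * 4 ^ N))) : ℝ) : ℂ) =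
      4 ^ N * ∑ c ∈ range (16 ^ N), (bh N c : ℂ) * (ee ((k : ℝ) * c / 16 ^ N * m) *
        ((3 ^ N * (GG (1 / 3) N (-((k : ℝ) * c / 16 ^ N)) : ℂ)) *
          (GG pd N (-((c : ℝ) / 4 ^ N)) : ℂ))) := by
    have e1 : ((∑ m' ∈ Lset N, 4 ^ N * ∑ z ∈ Lset N, wG pd N z *
        (2 * max 0 (1 - |((k * (m - m') - 4 ^ N * z : ℤ) : ℝ)| / (2 * 4 ^ N))) : ℝ) : ℂ) =
        4 ^ N * ∑ m' ∈ Lset N, ∑ z ∈ Lset N, (wG pd N z : ℂ) *
          ((2 * max 0 (1 - |((k * (m - m') - 4 ^ N * z : ℤ) : ℝ)| / (2 * 4 ^ N)) : ℝ) : ℂ) := by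
      rw [← Finset.mul_sum]
      push_cast
      rfl
    rw [e1]
    congr 1
    have e2 : ∀ m' ∈ Lset N, ∀ z ∈ Lset N, (wG pd N z : ℂ) *
          ((2 * max 0 (1 - |((k * (m - m') - 4 ^ N * z : ℤ) : ℝ)| / (2 * 4 ^ N)) : ℝ) : ℂ) =
        ∑ c ∈ range (16 ^ N), (bh N c : ℂ) * (ee ((k : ℝ) * c / 16 ^ N * m) *
          (ee (-((k : ℝ) * c / 16 ^ N) * m') *
            ((wG pd N z : ℂ) * ee (-((c : ℝ) / 4 ^ N) * z)))) := by
      intro m' hm' z hz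
      rw [N2 N (k * (m - m') - 4 ^ N * z), Finset.mul_sum]
      · apply Finset.sum_congr rfl
        intro c _
        have e3 : ee ((c : ℝ) * ((k * (m - m') - 4 ^ N * z : ℤ) : ℝ) / 16 ^ N) =
            ee ((k : ℝ) * c / 16 ^ N * m) * (ee (-((k : ℝ) * c / 16 ^ N) * m') *
              ee (-((c : ℝ) / 4 ^ N) * z)) := by
          rw [← hadd, ← hadd]
          congr 1
          rw [h16]
          push_cast
          field_simp
          ring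
        rw [e3]
        ring
      · have b1 := hLb m hm
        have b2 := hLb m' hm'
        have b3 := hLb z hz
        have a1 : |k * (m - m') - 4 ^ N * z| ≤ |k * (m - m')| + |4 ^ N * z| := abs_sub _ _
        have a2 : |m - m'| ≤ |m| + |m'| := abs_sub _ _
        rw [abs_mul, abs_mul, abs_of_pos hk, abs_of_pos (by positivity : (0 : ℤ) < 4 ^ N)] at a1
        rw [h16z]
        have a4 : k * |m - m'| ≤ k * (|m| + |m'|) := mul_le_mul_of_nonneg_left a2 hk.le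
        have a5 : k * (3 * (|m| + |m'|)) ≤ k * (2 * (4 ^ N - 1)) :=
          mul_le_mul_of_nonneg_left (by linarith) hk.le
        have a6 : 4 ^ N * (3 * |z|) ≤ 4 ^ N * ((4 : ℤ) ^ N - 1) :=
          mul_le_mul_of_nonneg_left b3 (by positivity)
        have a7 : (2 * k) * ((4 : ℤ) ^ N - 1) ≤ (4 : ℤ) ^ N * (4 ^ N - 1) :=
          mul_le_mul_of_nonneg_right hk2.le (by linarith)
        nlinarith
    have e4 : ∀ m' ∈ Lset N, ∑ z ∈ Lset N, (wG pd N z : ℂ) *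
          ((2 * max 0 (1 - |((k * (m - m') - 4 ^ N * z : ℤ) : ℝ)| / (2 * 4 ^ N)) : ℝ) : ℂ) =
        ∑ c ∈ range (16 ^ N), (bh N c : ℂ) * (ee ((k : ℝ) * c / 16 ^ N * m) *
          (ee (-((k : ℝ) * c / 16 ^ N) * m') * (GG pd N (-((c : ℝ) / 4 ^ N)) : ℂ))) := by
      intro m' hm'
      rw [Finset.sum_congr rfl (e2 m' hm'), Finset.sum_comm]
      apply Finset.sum_congr rfl
      intro c _
      rw [← Finset.mul_sum, ← Finset.mul_sum, ← Finset.mul_sum, B8]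
    rw [Finset.sum_congr rfl e4, Finset.sum_comm]
    apply Finset.sum_congr rfl
    intro c _
    rw [← Finset.mul_sum, ← Finset.mul_sum, ← Finset.sum_mul]
    congr 3
    rw [← B9]
    unfold avgC
    have h3 : (3 : ℂ) ^ N ≠ 0 := pow_ne_zero _ (by norm_num)
    rw [mul_div_cancel₀ _ h3]
  have hnn : 0 ≤ ∑ m' ∈ Lset N, 4 ^ N * ∑ z ∈ Lset N, wG pd N z *
        (2 * max 0 (1 - |((k * (m - m') - 4 ^ N * z : ℤ) : ℝ)| / (2 * 4 ^ N))) :=
    Finset.sum_nonneg (fun m' _ => mul_nonneg hM.le (Finset.sum_nonneg (fun z _ =>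
      mul_nonneg (hw z) (mul_nonneg (by norm_num) (le_max_left _ _)))))
  refine le_trans (Finset.sum_le_sum hdom) ?_
  have h1 : ∑ m' ∈ Lset N, 4 ^ N * ∑ z ∈ Lset N, wG pd N z *
        (2 * max 0 (1 - |((k * (m - m') - 4 ^ N * z : ℤ) : ℝ)| / (2 * 4 ^ N))) =
      ‖((∑ m' ∈ Lset N, 4 ^ N * ∑ z ∈ Lset N, wG pd N z *
        (2 * max 0 (1 - |((k * (m - m') - 4 ^ N * z : ℤ) : ℝ)| / (2 * 4 ^ N))) : ℝ) : ℂ)‖ := by
    rw [Complex.norm_real, Real.norm_eq_abs, abs_of_nonneg hnn]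
  rw [h1, hfour, norm_mul, norm_pow]
  have hn4 : ‖(4 : ℂ)‖ = 4 := by norm_num
  have hn3 : ‖(3 : ℂ)‖ = 3 := by norm_num
  rw [hn4]
  unfold Ys
  rw [mul_left_comm ((3 : ℝ) ^ N)]
  apply mul_le_mul_of_nonneg_left _ hM.le
  refine le_trans (norm_sum_le _ _) ?_
  rw [Finset.mul_sum]
  apply Finset.sum_le_sum
  intro c _
  rw [hG3neg, hGneg]
  rw [norm_mul, norm_mul, norm_mul, norm_mul, hnorm, Complex.norm_real, Complex.norm_real,
    Complex.norm_real, Real.norm_eq_abs, Real.norm_eq_abs, Real.norm_eq_abs,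
    abs_of_nonneg (hG _), abs_of_nonneg (hbh c), norm_pow, hn3]
  apply le_of_eq
  ring

end Pool.Agent.C52.RN3
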