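import Pool.Agent.Lib.MP_c52340_c5.Defs
import Pool.Agent.Lib.MP_c52340_c5.B7
import Pool.Agent.Lib.MP_c52340_c5.B12
import Pool.Agent.Lib.MP_c52340_c5.B13
import Pool.Agent.Lib.MP_c52340_c5.N1
import Pool.Agent.Lib.MP_c52340_c5.N3


set_option autoImplicit false

open Finset

open Pool.Agent.C52.RB7 (B7)
open Pool.Agent.C52.RB12 (B12)
open Pool.Agent.C52.RB13 (B13)
open Pool.Agent.C52.RN1 (N1)
open Pool.Agent.C52.RN3 (N3)

namespace Pool.Agent.C52.RN4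

private theorem N4_avgC_add (N : ℕ) (F G : ℤ → ℂ) :
    avgC N (fun m => F m + G m) = avgC N F + avgC N G := by
  unfold avgC
  rw [Finset.sum_add_distrib, add_div]

private theorem N4_avgC_sum (N : ℕ) (Θ : Finset ℤ) (F : ℤ → ℤ → ℂ) :
    avgC N (fun m => ∑ c ∈ Θ, F c m) = ∑ c ∈ Θ, avgC N (F c) := by
  unfold avgC
  rw [Finset.sum_comm, Finset.sum_div]

private theorem N4_avgC_mul (N : ℕ) (z : ℂ) (F : ℤ → ℂ) :
    avgC N (fun m => z * F m) = z * avgC N F := by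
  unfold avgC
  rw [← Finset.mul_sum, mul_div_assoc]

private theorem N4_ee_int (z : ℤ) : ee (z : ℝ) = 1 := B7.2.2.1 z

private theorem N4_per (N : ℕ) (c w : ℤ) :
    ee (-(((c + 4 ^ N : ℤ) : ℝ) * w / 4 ^ N)) = ee (-((c : ℝ) * w / 4 ^ N)) := by
  have h : -(((c + 4 ^ N : ℤ) : ℝ) * w / 4 ^ N) = -((c : ℝ) * w / 4 ^ N) + ((-w : ℤ) : ℝ) := by
    push_cast
    have : (4 : ℝ) ^ N ≠ 0 := by positivity
    field_simp
    ring
  rw [h, B7.1, N4_ee_int, mul_one]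

private theorem N4_GG_nonneg (p : ℝ) (h0 : 0 ≤ p) (h1 : p ≤ 1 / 4) (N : ℕ) (x : ℝ) :
    0 ≤ GG p N x := by
  obtain ⟨_, _, _, _, _, _, _, _, h, _⟩ := B13
  exact h p x N h0 h1

private theorem N4_GG_per (p : ℝ) (N : ℕ) (c : ℤ) :
    GG p N (((c + 4 ^ N : ℤ) : ℝ) / 4 ^ N) = GG p N ((c : ℝ) / 4 ^ N) := by
  obtain ⟨_, _, _, _, _, h, _⟩ := B13
  have e : ((c + 4 ^ N : ℤ) : ℝ) / 4 ^ N = (c : ℝ) / 4 ^ N + ((1 : ℤ) : ℝ) := by
    push_cast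
    have : (4 : ℝ) ^ N ≠ 0 := by positivity
    field_simp
  rw [e, h]

/-- Row N4.  Norm of a part of the transfer operator.
Recipe: duality.  With `g = QT N k Θ f`: `nsqC g = avgC (conj g * g)` `= ∑_{c ∈ Θ} GG (1/4) (c/M) * conj (avgC (ee(c hi/M)...g)) * avgC (..f)`;
`GG (1/4) ≤ B * GG pd`, Cauchy-Schwarz with the weights `GG pd`, N1 for `f`, N3 for `g` (the modulus of
`avgC (fun m => ee (-(c hi/M)) * g m)` and of its conjugate variants agree; `c ↦ -c`), enlarge `Θ ⊆ Fr N` to a complete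
residue system (B12, all terms are periodic in `c`).  So `nsqC g ≤ B (Xs Ys)^{1/2} (nsqC f nsqC g)^{1/2}`. -/
theorem N4 (N : ℕ) (hN : 2 ≤ N) (k : ℤ) (hk : 0 < k) (hk2 : 2 * k < 4 ^ N) (Θ : Finset ℤ)
    (hΘ : Θ ⊆ Fr N) (B : ℝ) (hB : 0 ≤ B)
    (h : ∀ c ∈ Θ, GG (1 / 4) N ((c : ℝ) / 4 ^ N) ≤ B * GG pd N ((c : ℝ) / 4 ^ N)) (f : ℤ → ℂ) :
    nsqC N (QT N k Θ f) ≤ B ^ 2 * (Xs N k * Ys N k) * nsqC N f := by
  have hpd0 : (0 : ℝ) ≤ pd := by unfold pd; norm_num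
  have hpd1 : (pd : ℝ) ≤ 1 / 4 := by unfold pd; norm_num
  obtain ⟨g, hg⟩ : ∃ g, g = QT N k Θ f := ⟨_, rfl⟩
  obtain ⟨P, hP⟩ : ∃ P : ℤ → ℝ, P = fun c : ℤ => GG pd N ((c : ℝ) / 4 ^ N) := ⟨_, rfl⟩
  obtain ⟨Af, hAf⟩ : ∃ Af : ℤ → ℂ, Af = fun c : ℤ =>
    avgC N (fun m => ee (-((c : ℝ) * (k * m : ℤ) / 4 ^ N)) * f m) := ⟨_, rfl⟩
  obtain ⟨Hg, hHg⟩ : ∃ Hg : ℤ → ℂ, Hg = fun c : ℤ =>
    avgC N (fun m => ee (-((c : ℝ) * hi N k m / 4 ^ N)) * (starRingEnd ℂ) (g m)) := ⟨_, rfl⟩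
  have hP0 : ∀ c, 0 ≤ P c := fun c => by rw [hP]; exact N4_GG_nonneg pd hpd0 hpd1 N _
  have hG0 : ∀ c : ℤ, 0 ≤ GG (1 / 4) N ((c : ℝ) / 4 ^ N) := fun c =>
    N4_GG_nonneg (1 / 4) (by norm_num) le_rfl N _
  have hx0 : 0 ≤ nsqC N g := by unfold nsqC; positivity
  have hf0 : 0 ≤ nsqC N f := by unfold nsqC; positivity
  have hX0 : 0 ≤ Xs N k := by
    unfold Xs
    exact Finset.sum_nonneg fun c _ => mul_nonneg (N4_GG_nonneg pd hpd0 hpd1 N _) (abs_nonneg _)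
  have hY0 : 0 ≤ Ys N k := by
    unfold Ys
    refine mul_nonneg (by positivity) (Finset.sum_nonneg fun c _ => ?_)
    refine mul_nonneg (mul_nonneg ?_ (N4_GG_nonneg pd hpd0 hpd1 N _)) (abs_nonneg _)
    unfold bh
    positivity
  -- duality
  have hdual : ((nsqC N g : ℝ) : ℂ) = ∑ c ∈ Θ, (GG (1 / 4) N ((c : ℝ) / 4 ^ N) : ℂ) * Af c * Hg c := by
    have e1 : ((nsqC N g : ℝ) : ℂ) = avgC N (fun m => (starRingEnd ℂ) (g m) * g m) := by
      unfold nsqC avgC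
      push_cast
      congr 1
      refine Finset.sum_congr rfl fun m _ => ?_
      rw [mul_comm, Complex.mul_conj, Complex.normSq_eq_norm_sq]
      push_cast
      ring
    have e2 : (fun m => (starRingEnd ℂ) (g m) * g m) = fun m => ∑ c ∈ Θ,
        ((GG (1 / 4) N ((c : ℝ) / 4 ^ N) : ℂ) * Af c) *
          (ee (-((c : ℝ) * hi N k m / 4 ^ N)) * (starRingEnd ℂ) (g m)) := by
      funext m
      have e3 : g m = ∑ c ∈ Θ, (GG (1 / 4) N ((c : ℝ) / 4 ^ N) : ℂ) *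
          ee (-((c : ℝ) * hi N k m / 4 ^ N)) * Af c := by
        rw [hg, hAf]; rfl
      conv_lhs => rw [show (starRingEnd ℂ) (g m) * g m = (starRingEnd ℂ) (g m) *
        (∑ c ∈ Θ, (GG (1 / 4) N ((c : ℝ) / 4 ^ N) : ℂ) *
          ee (-((c : ℝ) * hi N k m / 4 ^ N)) * Af c) from by rw [← e3]]
      rw [Finset.mul_sum]
      refine Finset.sum_congr rfl fun c _ => ?_
      ring
    rw [e1, e2, N4_avgC_sum]
    refine Finset.sum_congr rfl fun c _ => ?_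
    rw [N4_avgC_mul, hHg]
  have hle : nsqC N g ≤ B * ∑ c ∈ Fr N, P c * (‖Af c‖ * ‖Hg c‖) := by
    have e1 : nsqC N g = ‖((nsqC N g : ℝ) : ℂ)‖ := by
      rw [Complex.norm_real, Real.norm_eq_abs, abs_of_nonneg hx0]
    rw [e1, hdual]
    refine (norm_sum_le _ _).trans ?_
    rw [Finset.mul_sum]
    calc ∑ c ∈ Θ, ‖(GG (1 / 4) N ((c : ℝ) / 4 ^ N) : ℂ) * Af c * Hg c‖
        ≤ ∑ c ∈ Θ, B * (P c * (‖Af c‖ * ‖Hg c‖)) := by
          refine Finset.sum_le_sum fun c hc => ?_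
          rw [norm_mul, norm_mul, Complex.norm_real, Real.norm_eq_abs, abs_of_nonneg (hG0 c),
            mul_assoc, ← mul_assoc B]
          refine mul_le_mul_of_nonneg_right ?_ (by positivity)
          rw [hP]
          exact h c hc
      _ ≤ ∑ c ∈ Fr N, B * (P c * (‖Af c‖ * ‖Hg c‖)) :=
          Finset.sum_le_sum_of_subset_of_nonneg hΘ fun c _ _ =>
            mul_nonneg hB (mul_nonneg (hP0 c) (by positivity))
  -- Cauchy-Schwarz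
  have hcs : (∑ c ∈ Fr N, P c * (‖Af c‖ * ‖Hg c‖)) ^ 2
      ≤ (∑ c ∈ Fr N, P c * ‖Af c‖ ^ 2) * ∑ c ∈ Fr N, P c * ‖Hg c‖ ^ 2 := by
    have hc := Finset.sum_mul_sq_le_sq_mul_sq (Fr N) (fun c => Real.sqrt (P c) * ‖Af c‖)
      (fun c => Real.sqrt (P c) * ‖Hg c‖)
    have a1 : ∀ c, (Real.sqrt (P c) * ‖Af c‖) * (Real.sqrt (P c) * ‖Hg c‖)
        = P c * (‖Af c‖ * ‖Hg c‖) := fun c => by
      calc _ = (Real.sqrt (P c) * Real.sqrt (P c)) * (‖Af c‖ * ‖Hg c‖) := by ring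
        _ = _ := by rw [Real.mul_self_sqrt (hP0 c)]
    have a2 : ∀ c, (Real.sqrt (P c) * ‖Af c‖) ^ 2 = P c * ‖Af c‖ ^ 2 := fun c => by
      rw [mul_pow, Real.sq_sqrt (hP0 c)]
    have a3 : ∀ c, (Real.sqrt (P c) * ‖Hg c‖) ^ 2 = P c * ‖Hg c‖ ^ 2 := fun c => by
      rw [mul_pow, Real.sq_sqrt (hP0 c)]
    simp only [a1, a2, a3] at hc
    exact hc
  have hA : ∑ c ∈ Fr N, P c * ‖Af c‖ ^ 2 ≤ Xs N k * nsqC N f := by
    rw [B12 N (by omega) (fun c => P c * ‖Af c‖ ^ 2)]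
    · have := N1 N k f
      rw [hP, hAf]
      simp only [Int.cast_natCast]
      exact this
    · intro c
      rw [hP, hAf]
      simp only [N4_GG_per, N4_per]
  have hH : ∑ c ∈ Fr N, P c * ‖Hg c‖ ^ 2 ≤ Ys N k * nsqC N g := by
    have hgg : nsqC N (fun m => (starRingEnd ℂ) (g m)) = nsqC N g := by
      unfold nsqC
      simp only [RCLike.norm_conj]
    rw [B12 N (by omega) (fun c => P c * ‖Hg c‖ ^ 2)]
    · have := N3 N hN k hk hk2 (fun m => (starRingEnd ℂ) (g m))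
      rw [hgg] at this
      rw [hP, hHg]
      simp only [Int.cast_natCast]
      exact this
    · intro c
      rw [hP, hHg]
      simp only [N4_GG_per, N4_per]
  rw [← hg]
  have hfin : nsqC N g ^ 2 ≤ (B ^ 2 * (Xs N k * Ys N k) * nsqC N f) * nsqC N g := by
    have hS0 : 0 ≤ ∑ c ∈ Fr N, P c * (‖Af c‖ * ‖Hg c‖) :=
      Finset.sum_nonneg fun c _ => mul_nonneg (hP0 c) (by positivity)
    calc nsqC N g ^ 2 ≤ (B * ∑ c ∈ Fr N, P c * (‖Af c‖ * ‖Hg c‖)) ^ 2 :=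
          pow_le_pow_left₀ hx0 hle 2
      _ = B ^ 2 * (∑ c ∈ Fr N, P c * (‖Af c‖ * ‖Hg c‖)) ^ 2 := by ring
      _ ≤ B ^ 2 * ((Xs N k * nsqC N f) * (Ys N k * nsqC N g)) := by
          refine mul_le_mul_of_nonneg_left (hcs.trans ?_) (by positivity)
          exact mul_le_mul hA hH (Finset.sum_nonneg fun c _ => mul_nonneg (hP0 c) (by positivity))
            (by positivity)
      _ = _ := by ring
  rcases hx0.eq_or_lt with h0 | h0
  · rw [← h0]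
    positivity
  · rw [sq] at hfin
    exact le_of_mul_le_mul_right hfin h0

end Pool.Agent.C52.RN4
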