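import Pool.Agent.Lib.MP_c52340_c5.Defs
import Pool.Agent.Lib.MP_c52340_c5.B7


set_option autoImplicit false

open Finset

open Pool.Agent.C52.RB7 (B7)

namespace Pool.Agent.C52.RN5

/-- Row N5.  Size of `bh`.  Recipe: trivial bound `2*4^N` for the geometric sum, resp.
`1/|sin (π c/16^N)| ≤ 16^N/(2|c|)`. -/
theorem N5 (N : ℕ) (c : ℤ) :
    0 ≤ bh N c ∧ bh N c ≤ 4 / 4 ^ N ∧ (c ≠ 0 → 2 * |c| ≤ 16 ^ N → bh N c ≤ 4 ^ N / (4 * (c : ℝ) ^ 2)) ∧
    bh N (c + 16 ^ N) = bh N c ∧ bh N (-c) = bh N c := by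
  obtain ⟨hadd, hnorm, hint, hconj, -⟩ := B7
  have hM : (0 : ℝ) < 4 ^ N := by positivity
  have h16 : (16 : ℝ) ^ N = 4 ^ N * 4 ^ N := by rw [← mul_pow]; norm_num
  refine ⟨?_, ?_, ?_, ?_, ?_⟩
  · unfold bh; positivity
  · unfold bh
    have h1 : ‖∑ i ∈ range (2 * 4 ^ N), ee ((i : ℝ) * c / 16 ^ N)‖ ≤ 2 * 4 ^ N := by
      refine (norm_sum_le _ _).trans ?_
      simp [hnorm]
    have h2 : ‖∑ i ∈ range (2 * 4 ^ N), ee ((i : ℝ) * c / 16 ^ N)‖ ^ 2 ≤ (2 * 4 ^ N) ^ 2 :=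
      pow_le_pow_left₀ (norm_nonneg _) h1 2
    rw [div_le_div_iff₀ (by positivity) (by positivity)]
    calc _ ≤ (2 * 4 ^ N) ^ 2 * (4 : ℝ) ^ N := by gcongr
      _ = 4 * (4 ^ N) ^ 3 := by ring
  · intro hc hle
    have hc' : (0 : ℝ) < |(c : ℝ)| := by
      rw [abs_pos]; exact_mod_cast hc
    have hle' : 2 * |(c : ℝ)| ≤ 16 ^ N := by exact_mod_cast hle
    set θ : ℝ := (c : ℝ) / 16 ^ N with hθ
    have hθ0 : 0 < |θ| := by rw [hθ, abs_div]; positivity
    have hθ1 : |θ| ≤ 1 / 2 := by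
      rw [hθ, abs_div, abs_of_pos (by positivity : (0 : ℝ) < 16 ^ N), div_le_iff₀ (by positivity)]
      linarith
    have hz : ∀ i : ℕ, ee ((i : ℝ) * c / 16 ^ N) = ee θ ^ i := by
      intro i
      induction i with
      | zero =>
        have := hint 0
        simp only [Int.cast_zero] at this
        simp [this]
      | succ i ih =>
        rw [pow_succ, ← ih, ← hadd, hθ]
        congr 1
        push_cast
        ring
    have hnz : ‖ee θ - 1‖ = 2 * |Real.sin (Real.pi * θ)| := by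
      have h := Complex.norm_exp_I_mul_ofReal_sub_one (2 * Real.pi * θ)
      have e1 : Complex.exp (Complex.I * ((2 * Real.pi * θ : ℝ) : ℂ)) = ee θ := by
        unfold ee
        congr 1
        push_cast
        ring
      rw [e1] at h
      rw [h, show 2 * Real.pi * θ / 2 = Real.pi * θ by ring, norm_mul, Real.norm_eq_abs,
        Real.norm_eq_abs, abs_two]
    have hsin : 2 * |θ| ≤ |Real.sin (Real.pi * θ)| := by
      have h := Real.mul_abs_le_abs_sin (x := Real.pi * θ) (by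
        rw [abs_mul, abs_of_pos Real.pi_pos]
        nlinarith [Real.pi_pos])
      rw [abs_mul, abs_of_pos Real.pi_pos] at h
      have : 2 / Real.pi * (Real.pi * |θ|) = 2 * |θ| := by
        field_simp
      linarith
    have hlow : 4 * |θ| ≤ ‖ee θ - 1‖ := by rw [hnz]; linarith
    have hgeo : (∑ i ∈ range (2 * 4 ^ N), ee ((i : ℝ) * c / 16 ^ N)) * (ee θ - 1) =
        ee θ ^ (2 * 4 ^ N) - 1 := by
      rw [← geom_sum_mul]
      congr 1
      exact Finset.sum_congr rfl fun i _ => hz i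
    have hup : ‖ee θ ^ (2 * 4 ^ N) - 1‖ ≤ 2 := by
      refine (norm_sub_le _ _).trans ?_
      rw [norm_pow, hnorm, one_pow, norm_one]
      norm_num
    rw [← hgeo, norm_mul] at hup
    unfold bh
    set A : ℝ := ‖∑ i ∈ range (2 * 4 ^ N), ee ((i : ℝ) * c / 16 ^ N)‖ with hA
    have hA0 : 0 ≤ A := norm_nonneg _
    have hAθ : A * (2 * |θ|) ≤ 1 := by nlinarith
    have hAc : A * (2 * |(c : ℝ)|) ≤ 4 ^ N * 4 ^ N := by
      rw [hθ, abs_div, abs_of_pos (by positivity : (0 : ℝ) < 16 ^ N), h16] at hAθ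
      have : A * (2 * (|(c : ℝ)| / (4 ^ N * 4 ^ N))) = A * (2 * |(c : ℝ)|) / (4 ^ N * 4 ^ N) := by
        ring
      rw [this, div_le_iff₀ (by positivity)] at hAθ
      linarith
    have hsq : (A * (2 * |(c : ℝ)|)) ^ 2 ≤ (4 ^ N * 4 ^ N) ^ 2 :=
      pow_le_pow_left₀ (by positivity) hAc 2
    have habs : |(c : ℝ)| ^ 2 = (c : ℝ) ^ 2 := sq_abs _
    have hc2 : (0 : ℝ) < (c : ℝ) ^ 2 := by rw [← habs]; positivity
    rw [div_le_div_iff₀ (by positivity) (by positivity)]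
    calc A ^ 2 * (4 * (c : ℝ) ^ 2) = (A * (2 * |(c : ℝ)|)) ^ 2 := by rw [← habs]; ring
      _ ≤ (4 ^ N * 4 ^ N) ^ 2 := hsq
      _ = 4 ^ N * (4 ^ N) ^ 3 := by ring
  · unfold bh
    have h : ∀ i : ℕ, ee ((i : ℝ) * ((c + 16 ^ N : ℤ) : ℝ) / 16 ^ N) = ee ((i : ℝ) * c / 16 ^ N) := by
      intro i
      have e1 : (i : ℝ) * ((c + 16 ^ N : ℤ) : ℝ) / 16 ^ N = (i : ℝ) * c / 16 ^ N + ((i : ℤ) : ℝ) := by
        push_cast
        field_simp
      rw [e1, hadd, hint, mul_one]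
    simp only [h]
  · unfold bh
    have h : ∑ i ∈ range (2 * 4 ^ N), ee ((i : ℝ) * ((-c : ℤ) : ℝ) / 16 ^ N) =
        (starRingEnd ℂ) (∑ i ∈ range (2 * 4 ^ N), ee ((i : ℝ) * c / 16 ^ N)) := by
      rw [map_sum]
      refine Finset.sum_congr rfl fun i _ => ?_
      rw [hconj]
      congr 1
      push_cast
      ring
    rw [h, Complex.norm_conj]

end Pool.Agent.C52.RN5
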