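import Pool.Agent.Lib.MP_c52340_c5.Defs
import Pool.Agent.Lib.MP_c52340_c5.B13
import Pool.Agent.Lib.MP_c52340_c5.P5
import Pool.Agent.Lib.MP_c52340_c5.A1
import Pool.Agent.Lib.MP_c52340_c5.N6


set_option autoImplicit false

open Finset

open Pool.Agent.C52.RB13 (B13)
open Pool.Agent.C52.RP5 (P5)
open Pool.Agent.C52.RA1 (A1)
open Pool.Agent.C52.RN6 (N6)

namespace Pool.Agent.C52.RN7

private theorem N7_card (N : ℕ) : ((Odds N).card : ℝ) ≤ 4 ^ N := by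
  have h : (Odds N).card ≤ 4 ^ N := by
    unfold Odds
    refine le_trans (Finset.card_filter_le _ _) ?_
    rw [Int.card_Ico]
    have : ((4 : ℤ) ^ N - 0) = ((4 ^ N : ℕ) : ℤ) := by push_cast; ring
    rw [this, Int.toNat_natCast]
  exact_mod_cast h

/-- Row N7.  Average of the 2-adic Schur sum.
Recipe: N6; level `i`: A1, `∑_{c<4^i} GG pd i (c/4^i) = (4 (1 - 2 pd))^i = 2.004^i` (P5), and
`2.004 * qq / 2 < 1`: geometric series. -/
theorem N7 : ∃ C : ℝ, 0 < C ∧ ∀ N : ℕ, ∑ k ∈ Odds N, Xs N k ≤ C * 4 ^ N := by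
  obtain ⟨C, hC, hA⟩ := A1
  obtain ⟨b1, b2, b3, b4, b5, b6, b7, b8, b9, b10, b11⟩ := B13
  have hpd0 : (0 : ℝ) ≤ pd := by unfold pd; norm_num
  have hpd1 : pd ≤ (1 / 4 : ℝ) := by unfold pd; norm_num
  set r : ℝ := 4 * (1 - 2 * pd) * (qq / 2) with hr
  have hr0 : 0 < r := by rw [hr]; unfold pd qq; norm_num
  have hr1 : r < 1 := by rw [hr]; unfold pd qq; norm_num
  refine ⟨1 + C / (1 - r), by have : 0 < 1 - r := by linarith
                              positivity, ?_⟩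
  intro N
  have e1 : ∑ k ∈ Odds N, Xs N k = ∑ c ∈ range (4 ^ N), ∑ k ∈ Odds N,
      GG pd N ((c : ℝ) / 4 ^ N) * |GG (1 / 3) N ((k : ℝ) * c / 4 ^ N)| := by
    unfold Xs
    rw [Finset.sum_comm]
  rw [e1, Pool.Agent.C52.RN6.N6 N (fun c : ℕ => ∑ k ∈ Odds N,
      GG pd N ((c : ℝ) / 4 ^ N) * |GG (1 / 3) N ((k : ℝ) * c / 4 ^ N)|)]
  have h0 : ∑ k ∈ Odds N, GG pd N (((0 : ℕ) : ℝ) / 4 ^ N) *
      |GG (1 / 3) N ((k : ℝ) * ((0 : ℕ) : ℝ) / 4 ^ N)| ≤ 4 ^ N := by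
    have : ∑ k ∈ Odds N, GG pd N (((0 : ℕ) : ℝ) / 4 ^ N) *
      |GG (1 / 3) N ((k : ℝ) * ((0 : ℕ) : ℝ) / 4 ^ N)| ≤ ∑ k ∈ Odds N, (1 : ℝ) := by
      apply Finset.sum_le_sum
      intro k _
      have g1 := b9 pd (((0 : ℕ) : ℝ) / 4 ^ N) N hpd0 hpd1
      have g2 := b8 pd (((0 : ℕ) : ℝ) / 4 ^ N) N hpd0 (by linarith)
      have g3 := b8 (1 / 3) ((k : ℝ) * ((0 : ℕ) : ℝ) / 4 ^ N) N (by norm_num) (by norm_num)
      exact mul_le_one₀ (le_trans (le_abs_self _) g2) (abs_nonneg _) g3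
    refine le_trans this ?_
    rw [Finset.sum_const, nsmul_eq_mul, mul_one]
    exact N7_card N
  have hi : ∀ i ∈ range N, ∑ c ∈ (range (4 ^ (i + 1))).filter (fun c => ¬ 4 ∣ c),
      ∑ k ∈ Odds N, GG pd N (((4 ^ (N - (i + 1)) * c : ℕ) : ℝ) / 4 ^ N) *
        |GG (1 / 3) N ((k : ℝ) * ((4 ^ (N - (i + 1)) * c : ℕ) : ℝ) / 4 ^ N)| ≤
      C * 4 ^ N * r ^ (i + 1) := by
    intro i hi
    rw [Finset.mem_range] at hi
    have hpow : (4 : ℝ) ^ N = 4 ^ (N - (i + 1)) * 4 ^ (i + 1) := by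
      rw [← pow_add]; congr 1; omega
    have hne : (4 : ℝ) ^ (N - (i + 1)) ≠ 0 := by positivity
    have hne2 : (4 : ℝ) ^ (i + 1) ≠ 0 := by positivity
    have hterm : ∀ c ∈ (range (4 ^ (i + 1))).filter (fun c => ¬ 4 ∣ c),
        ∑ k ∈ Odds N, GG pd N (((4 ^ (N - (i + 1)) * c : ℕ) : ℝ) / 4 ^ N) *
        |GG (1 / 3) N ((k : ℝ) * ((4 ^ (N - (i + 1)) * c : ℕ) : ℝ) / 4 ^ N)| ≤
        GG pd (i + 1) ((c : ℝ) / 4 ^ (i + 1)) * (C * 4 ^ N * (qq / 2) ^ (i + 1)) := by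
      intro c hc
      have hc4 : ¬ (4 : ℤ) ∣ (c : ℤ) := by
        have := (Finset.mem_filter.1 hc).2
        intro h
        apply this
        exact_mod_cast h
      have ea : (((4 ^ (N - (i + 1)) * c : ℕ) : ℝ) / 4 ^ N) = (c : ℝ) / 4 ^ (i + 1) := by
        rw [hpow]; push_cast
        field_simp
      have eb : ∀ k : ℤ, ((k : ℝ) * ((4 ^ (N - (i + 1)) * c : ℕ) : ℝ) / 4 ^ N) =
          (k : ℝ) * ((c : ℤ) : ℝ) / 4 ^ (i + 1) := by
        intro k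
        rw [hpow]; push_cast
        field_simp
      have ec : GG pd N ((c : ℝ) / 4 ^ (i + 1)) = GG pd (i + 1) ((c : ℝ) / 4 ^ (i + 1)) := by
        apply b11 pd ((c : ℝ) / 4 ^ (i + 1)) (i + 1) N (c : ℤ) (by omega)
        push_cast
        field_simp
      rw [← Finset.mul_sum, ea, ec]
      apply mul_le_mul_of_nonneg_left _ (b9 pd _ _ hpd0 hpd1)
      have := hA (i + 1) N (c : ℤ) (by omega) hc4
      refine le_trans (le_of_eq ?_) this
      apply Finset.sum_congr rfl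
      intro k _
      rw [eb k]
    refine le_trans (Finset.sum_le_sum hterm) ?_
    rw [← Finset.sum_mul]
    have hsum : ∑ c ∈ (range (4 ^ (i + 1))).filter (fun c => ¬ 4 ∣ c),
        GG pd (i + 1) ((c : ℝ) / 4 ^ (i + 1)) ≤ (4 * (1 - 2 * pd)) ^ (i + 1) := by
      rw [← P5 pd (i + 1)]
      exact Finset.sum_le_sum_of_subset_of_nonneg (Finset.filter_subset _ _)
        (fun c _ _ => b9 pd _ _ hpd0 hpd1)
    have hq : (0 : ℝ) ≤ qq / 2 := by unfold qq; norm_num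
    calc (∑ c ∈ (range (4 ^ (i + 1))).filter (fun c => ¬ 4 ∣ c),
          GG pd (i + 1) ((c : ℝ) / 4 ^ (i + 1))) * (C * 4 ^ N * (qq / 2) ^ (i + 1)) ≤
        (4 * (1 - 2 * pd)) ^ (i + 1) * (C * 4 ^ N * (qq / 2) ^ (i + 1)) :=
          mul_le_mul_of_nonneg_right hsum (by positivity)
      _ = C * 4 ^ N * r ^ (i + 1) := by
          have hrp : r ^ (i + 1) = (4 * (1 - 2 * pd)) ^ (i + 1) * (qq / 2) ^ (i + 1) := by
            rw [hr]; exact mul_pow _ _ _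
          rw [hrp]
          ring
  have hgeo : ∑ i ∈ range N, r ^ (i + 1) ≤ 1 / (1 - r) := by
    have h1 : ∑ i ∈ range N, r ^ i ≤ 1 / (1 - r) := by
      have := geom_sum_eq (ne_of_lt hr1) N
      rw [this]
      have hpos : 0 < 1 - r := by linarith
      have e : (r ^ N - 1) / (r - 1) = (1 - r ^ N) / (1 - r) := by
        rw [← neg_sub 1 (r ^ N), ← neg_sub 1 r, neg_div_neg_eq]
      rw [e]
      apply div_le_div_of_nonneg_right _ hpos.le
      have : 0 ≤ r ^ N := pow_nonneg hr0.le N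
      linarith
    refine le_trans ?_ h1
    apply Finset.sum_le_sum
    intro i _
    rw [pow_succ]
    exact mul_le_of_le_one_right (pow_nonneg hr0.le i) hr1.le
  calc _ ≤ (4 : ℝ) ^ N + ∑ i ∈ range N, C * 4 ^ N * r ^ (i + 1) :=
        add_le_add h0 (Finset.sum_le_sum hi)
    _ = 4 ^ N + C * 4 ^ N * ∑ i ∈ range N, r ^ (i + 1) := by rw [Finset.mul_sum]
    _ ≤ 4 ^ N + C * 4 ^ N * (1 / (1 - r)) := by
        have := mul_le_mul_of_nonneg_left hgeo (by positivity : (0 : ℝ) ≤ C * 4 ^ N)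
        linarith
    _ = (1 + C / (1 - r)) * 4 ^ N := by ring

end Pool.Agent.C52.RN7
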