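import Pool.Agent.Lib.MP_c52340_c5.Defs
import Pool.Agent.Lib.MP_c52340_c5.B13
import Pool.Agent.Lib.MP_c52340_c5.A3


set_option autoImplicit false

open Finset

open Pool.Agent.C52.RB13 (B13)
open Pool.Agent.C52.RA3 (A3)

namespace Pool.Agent.C52.RN8

private lemma N8_drop_hi (N n : ℕ) (hn : n ≤ N) (x : ℝ) : |GG (1 / 3) N x| ≤ |GG (1 / 3) n x| := by
  obtain ⟨-, -, -, -, -, -, -, hle, -, hsplit, -⟩ := B13
  obtain ⟨m, rfl⟩ := Nat.exists_eq_add_of_le hn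
  rw [hsplit, abs_mul]
  exact mul_le_of_le_one_right (abs_nonneg _) (hle _ _ _ (by norm_num) (by norm_num))

private lemma N8_drop_lo (a b : ℕ) (x : ℝ) : |GG (1 / 3) (a + b) x| ≤ |GG (1 / 3) b (4 ^ a * x)| := by
  obtain ⟨-, -, -, -, -, -, -, hle, -, hsplit, -⟩ := B13
  rw [hsplit, abs_mul]
  exact mul_le_of_le_one_left (abs_nonneg _) (hle _ _ _ (by norm_num) (by norm_num))

private lemma N8_card (N : ℕ) : ((Odds N).card : ℝ) ≤ 4 ^ N := by
  have h1 : (Odds N).card ≤ (Ico (0 : ℤ) (4 ^ N)).card := card_le_card (filter_subset _ _)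
  have h2 : (Ico (0 : ℤ) (4 ^ N)).card = 4 ^ N := by
    rw [Int.card_Ico, sub_zero]
    have : ((4 : ℤ) ^ N) = ((4 ^ N : ℕ) : ℤ) := by push_cast; rfl
    rw [this, Int.toNat_natCast]
  rw [h2] at h1
  exact_mod_cast h1

/-- Row N8.  Averages for the real Schur sum.
Recipe: if `j < N`: `|GG (1/3) N x| ≤ |GG (1/3) j (4^(N-1-j) x)|` (drop factors, `j ≤ N - 1`), A3 with
`n = j`, `β = 4^(N-1-j) c/16^N`: `2 β 4^j = 2 c 4^(N-1)/16^N = c/(2*4^N) ≤ 1`, `1/β ≤ 4*4^N`.  If `j ≥ N`: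
A3 with the lowest `n = 2N - j - 2` digits (if `j ≤ 2N - 2`; trivial bound if `j = 2N-1`), `β = c/16^N`. -/
theorem N8 : ∃ C : ℝ, 0 < C ∧ ∀ (N j c : ℕ), 1 ≤ N → 4 ^ j ≤ c → c < 4 ^ (j + 1) → 2 * c ≤ 16 ^ N →
    ∑ k ∈ Odds N, |GG (1 / 3) N ((k : ℝ) * c / 16 ^ N)| ≤ C * 4 ^ N * (qq / 2) ^ (min j (2 * N - j)) := by
  obtain ⟨C₃, hC₃, hA⟩ := A3
  refine ⟨10 * C₃ + 3, by positivity, ?_⟩
  intro N j c hN hc1 hc2 hc3
  have h16 : (16 : ℝ) ^ N = 4 ^ (2 * N) := by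
    rw [pow_mul]; norm_num
  have h16n : (16 : ℕ) ^ N = 4 ^ (2 * N) := by
    rw [pow_mul]; norm_num
  have hcR1 : (4 : ℝ) ^ j ≤ c := by exact_mod_cast hc1
  have hcR2 : (c : ℝ) < 4 ^ (j + 1) := by exact_mod_cast hc2
  have hcpos : (0 : ℝ) < c := lt_of_lt_of_le (by positivity) hcR1
  have h4N : (0 : ℝ) < 4 ^ N := by positivity
  have hq0 : (0 : ℝ) < qq / 2 := by unfold qq; norm_num
  rcases lt_or_ge j N with hj | hj
  · -- low range
    have hmin : min j (2 * N - j) = j := by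
      apply min_eq_left; omega
    rw [hmin]
    set a := N - 1 - j with ha
    set β : ℝ := 4 ^ a * c / 16 ^ N with hβ
    have hβpos : 0 < β := by rw [hβ]; positivity
    have hNeq : a + (j + 1) = N := by omega
    have hstep : ∀ k ∈ Odds N, |GG (1 / 3) N ((k : ℝ) * c / 16 ^ N)| ≤ |GG (1 / 3) j (k * β)| := by
      intro k _
      have h1 : |GG (1 / 3) N ((k : ℝ) * c / 16 ^ N)| ≤
          |GG (1 / 3) (j + 1) (4 ^ a * ((k : ℝ) * c / 16 ^ N))| := by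
        conv_lhs => rw [← hNeq]
        have := N8_drop_lo a (j + 1) ((k : ℝ) * c / 16 ^ N)
        rw [hNeq] at this ⊢
        exact this
      have h2 := N8_drop_hi (j + 1) j (by omega) (4 ^ a * ((k : ℝ) * c / 16 ^ N))
      have h3 : (4 : ℝ) ^ a * ((k : ℝ) * c / 16 ^ N) = k * β := by rw [hβ]; ring
      rw [h3] at h1 h2
      exact h1.trans h2
    have hβ1 : 2 * |β| * 4 ^ j ≤ 1 := by
      rw [abs_of_pos hβpos, hβ, h16]
      have e1 : (4 : ℝ) ^ (2 * N) = 4 ^ a * 4 ^ j * 4 * 4 ^ N := by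
        rw [← pow_add, ← pow_succ, ← pow_add]
        congr 1; omega
      have e2 : (4 : ℝ) ^ (j + 1) ≤ 4 ^ N := pow_le_pow_right₀ (by norm_num) (by omega)
      have e3 : 2 * (4 ^ a * (c : ℝ) / 4 ^ (2 * N)) * 4 ^ j = 2 * (4 ^ a * 4 ^ j * c) / 4 ^ (2 * N) := by ring
      rw [e3, div_le_one (by positivity), e1]
      have hp : (0 : ℝ) < 4 ^ a * 4 ^ j := by positivity
      have : (4 : ℝ) ^ a * 4 ^ j * c ≤ 4 ^ a * 4 ^ j * 4 ^ N :=
        mul_le_mul_of_nonneg_left (hcR2.le.trans e2) hp.le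
      have hq : (0 : ℝ) ≤ 4 ^ a * 4 ^ j * 4 ^ N := by positivity
      nlinarith
    have hinv : 1 / |β| ≤ 4 * 4 ^ N := by
      rw [abs_of_pos hβpos, div_le_iff₀ hβpos, hβ, h16]
      have e1 : (4 : ℝ) ^ (2 * N) = 4 ^ a * 4 ^ j * 4 * 4 ^ N := by
        rw [← pow_add, ← pow_succ, ← pow_add]
        congr 1; omega
      have e3 : 4 * (4 : ℝ) ^ N * (4 ^ a * (c : ℝ) / 4 ^ (2 * N)) = 4 ^ a * c * 4 * 4 ^ N / 4 ^ (2 * N) := by
        ring
      rw [e3, le_div_iff₀ (by positivity), one_mul, e1]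
      gcongr
    have hAA := hA N j β hβpos.ne' hβ1
    calc ∑ k ∈ Odds N, |GG (1 / 3) N ((k : ℝ) * c / 16 ^ N)|
        ≤ ∑ k ∈ Odds N, |GG (1 / 3) j (k * β)| := sum_le_sum hstep
      _ ≤ C₃ * (4 ^ N + 1 / |β|) * (qq / 2) ^ j := hAA
      _ ≤ C₃ * (4 ^ N + 4 * 4 ^ N) * (qq / 2) ^ j := by gcongr
      _ = (5 * C₃) * 4 ^ N * (qq / 2) ^ j := by ring
      _ ≤ (10 * C₃ + 3) * 4 ^ N * (qq / 2) ^ j := by
          gcongr
          linarith
  · -- high range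
    have hj2 : j ≤ 2 * N - 1 := by
      by_contra hcon
      have h2N : 2 * N ≤ j := by omega
      have : (4 : ℕ) ^ (2 * N) ≤ 4 ^ j := Nat.pow_le_pow_right (by norm_num) h2N
      have h1 : 0 < (4 : ℕ) ^ (2 * N) := by positivity
      rw [h16n] at hc3
      omega
    have hmin : min j (2 * N - j) = 2 * N - j := by
      apply min_eq_right; omega
    rw [hmin]
    rcases Nat.lt_or_ge (2 * N - 2) j with hj3 | hj3
    · -- j = 2 N - 1
      have e : 2 * N - j = 1 := by omega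
      rw [e, pow_one]
      have hle : ∀ k ∈ Odds N, |GG (1 / 3) N ((k : ℝ) * c / 16 ^ N)| ≤ 1 := by
        intro k _
        obtain ⟨-, -, -, -, -, -, -, hle, -⟩ := B13
        exact hle _ _ _ (by norm_num) (by norm_num)
      calc ∑ k ∈ Odds N, |GG (1 / 3) N ((k : ℝ) * c / 16 ^ N)|
          ≤ ∑ k ∈ Odds N, (1 : ℝ) := sum_le_sum hle
        _ = ((Odds N).card : ℝ) := by simp
        _ ≤ 4 ^ N := N8_card N
        _ ≤ 3 * 4 ^ N * (qq / 2) := by
            unfold qq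
            nlinarith
        _ ≤ (10 * C₃ + 3) * 4 ^ N * (qq / 2) := by
            gcongr
            linarith
    · set n := 2 * N - j - 2 with hn
      set β : ℝ := c / 16 ^ N with hβ
      have hβpos : 0 < β := by rw [hβ]; positivity
      have hstep : ∀ k ∈ Odds N, |GG (1 / 3) N ((k : ℝ) * c / 16 ^ N)| ≤ |GG (1 / 3) n (k * β)| := by
        intro k _
        have h2 := N8_drop_hi N n (by omega) ((k : ℝ) * c / 16 ^ N)
        have h3 : (k : ℝ) * c / 16 ^ N = k * β := by rw [hβ]; ring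
        rw [h3] at h2 ⊢
        exact h2
      have e1 : (4 : ℝ) ^ (2 * N) = 4 ^ n * 4 ^ (j + 1) * 4 := by
        rw [← pow_add, ← pow_succ]
        congr 1; omega
      have hβ1 : 2 * |β| * 4 ^ n ≤ 1 := by
        rw [abs_of_pos hβpos, hβ, h16]
        have e3 : 2 * ((c : ℝ) / 4 ^ (2 * N)) * 4 ^ n = 2 * (4 ^ n * c) / 4 ^ (2 * N) := by ring
        rw [e3, div_le_one (by positivity), e1]
        have hp : (0 : ℝ) < 4 ^ n := by positivity
        have : (4 : ℝ) ^ n * c ≤ 4 ^ n * 4 ^ (j + 1) := mul_le_mul_of_nonneg_left hcR2.le hp.le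
        have hq : (0 : ℝ) ≤ 4 ^ n * 4 ^ (j + 1) := by positivity
        linarith
      have hinv : 1 / |β| ≤ 4 ^ N := by
        rw [abs_of_pos hβpos, div_le_iff₀ hβpos, hβ, h16]
        have e3 : (4 : ℝ) ^ N * ((c : ℝ) / 4 ^ (2 * N)) = 4 ^ N * c / 4 ^ (2 * N) := by ring
        rw [e3, le_div_iff₀ (by positivity), one_mul]
        have e4 : (4 : ℝ) ^ (2 * N) = 4 ^ N * 4 ^ N := by rw [← pow_add]; congr 1; omega
        rw [e4]
        have e5 : (4 : ℝ) ^ N ≤ 4 ^ j := pow_le_pow_right₀ (by norm_num) hj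
        gcongr
        exact e5.trans hcR1
      have hAA := hA N n β hβpos.ne' hβ1
      have hpw : (qq / 2) ^ n ≤ 5 * (qq / 2) ^ (2 * N - j) := by
        have e6 : 2 * N - j = n + 2 := by omega
        rw [e6, pow_add]
        have hx : (0 : ℝ) ≤ (qq / 2) ^ n := by positivity
        have hy : (1 : ℝ) ≤ 5 * (qq / 2) ^ 2 := by unfold qq; norm_num
        nlinarith
      calc ∑ k ∈ Odds N, |GG (1 / 3) N ((k : ℝ) * c / 16 ^ N)|
          ≤ ∑ k ∈ Odds N, |GG (1 / 3) n (k * β)| := sum_le_sum hstep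
        _ ≤ C₃ * (4 ^ N + 1 / |β|) * (qq / 2) ^ n := hAA
        _ ≤ C₃ * (4 ^ N + 4 ^ N) * (5 * (qq / 2) ^ (2 * N - j)) := by gcongr
        _ = (10 * C₃) * 4 ^ N * (qq / 2) ^ (2 * N - j) := by ring
        _ ≤ (10 * C₃ + 3) * 4 ^ N * (qq / 2) ^ (2 * N - j) := by
            gcongr
            linarith

end Pool.Agent.C52.RN8
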