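import Pool.Agent.Lib.MP_c52340_c5.Defs
import Pool.Agent.Lib.MP_c52340_c5.B13
import Pool.Agent.Lib.MP_c52340_c5.P5


set_option autoImplicit false

open Finset

open Pool.Agent.C52.RB13 (B13)
open Pool.Agent.C52.RP5 (P5)

namespace Pool.Agent.C52.RP7

private lemma aux_P7 (p : ℝ) (hp0 : 0 ≤ p) (hp : p ≤ 1 / 4) (N j : ℕ) (hj : j ≤ N) :
    ∑ c ∈ range (4 ^ j), GG p N ((c : ℝ) / 4 ^ N) ≤ (4 * (1 - 2 * p)) ^ j := by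
  have habs : ∀ p x : ℝ, ∀ n : ℕ, 0 ≤ p → p ≤ 1 / 2 → |GG p n x| ≤ 1 := B13.2.2.2.2.2.2.2.1
  have hnn : ∀ p x : ℝ, ∀ n : ℕ, 0 ≤ p → p ≤ 1 / 4 → 0 ≤ GG p n x := B13.2.2.2.2.2.2.2.2.1
  have hadd : ∀ p x : ℝ, ∀ a b : ℕ, GG p (a + b) x = GG p a x * GG p b (4 ^ a * x) :=
    B13.2.2.2.2.2.2.2.2.2.1
  rw [← P5 p j]
  apply Finset.sum_le_sum
  intro c _
  obtain ⟨a, rfl⟩ := Nat.exists_eq_add_of_le' hj
  rw [hadd]
  have e : (4 : ℝ) ^ a * ((c : ℝ) / 4 ^ (a + j)) = (c : ℝ) / 4 ^ j := by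
    rw [pow_add]
    field_simp
  rw [e]
  have h1 : GG p a ((c : ℝ) / 4 ^ (a + j)) ≤ 1 := (abs_le.mp (habs p _ a hp0 (by linarith))).2
  have h2 : 0 ≤ GG p j ((c : ℝ) / 4 ^ j) := hnn p _ j hp0 hp
  calc GG p a ((c : ℝ) / 4 ^ (a + j)) * GG p j ((c : ℝ) / 4 ^ j)
      ≤ 1 * GG p j ((c : ℝ) / 4 ^ j) := mul_le_mul_of_nonneg_right h1 h2
    _ = _ := one_mul _

/-- Row P7.  Partial sums near zero.
Recipe: `GG pd N (c/4^N) ≤ GG pd j (4^{N-j} c / 4^N) = GG pd j (c/4^j)` (drop the first `N - j` factors, all in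
`[0,1]`), then P5. -/
theorem P7 (N j : ℕ) (hj : j ≤ N) :
    ∑ c ∈ range (4 ^ j), GG pd N ((c : ℝ) / 4 ^ N) ≤ (4 * (1 - 2 * pd)) ^ j ∧
    ∑ c ∈ range (4 ^ j), GG (1 / 4) N ((c : ℝ) / 4 ^ N) ≤ 2 ^ j := by
  constructor
  · apply aux_P7 pd _ _ N j hj
    · unfold pd; norm_num
    · unfold pd; norm_num
  · have h := aux_P7 (1 / 4) (by norm_num) (by norm_num) N j hj
    have e : (4 * (1 - 2 * (1 / 4 : ℝ))) = 2 := by norm_num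
    rw [e] at h
    exact h

end Pool.Agent.C52.RP7
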