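import Pool.Agent.Lib.MP_c52340_c5.Defs
import Pool.Agent.Lib.MP_c52340_c5.B13
import Pool.Agent.Lib.MP_c52340_c5.P5
import Pool.Agent.Lib.MP_c52340_c5.P7
import Pool.Agent.Lib.MP_c52340_c5.N5
import Pool.Agent.Lib.MP_c52340_c5.N8


set_option autoImplicit false

open Finset

open Pool.Agent.C52.RB13 (B13)
open Pool.Agent.C52.RP5 (P5)
open Pool.Agent.C52.RP7 (P7)
open Pool.Agent.C52.RN5 (N5)
open Pool.Agent.C52.RN8 (N8)

namespace Pool.Agent.C52.RN9

private lemma geo (r : ℝ) (h0 : 0 ≤ r) (h1 : r < 1) (n : ℕ) :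
    ∑ i ∈ range n, r ^ i ≤ 1 / (1 - r) := by
  rw [le_div_iff₀ (by linarith), mul_comm, mul_neg_geom_sum]
  have := pow_nonneg h0 n
  linarith

private lemma per_shift (f : ℕ → ℝ) (b : ℕ) (hf : ∀ c, f (c + b) = f c) (a x : ℕ) :
    f (a * b + x) = f x := by
  induction a with
  | zero => simp
  | succ a ih =>
    rw [show (a + 1) * b + x = (a * b + x) + b by ring, hf, ih]

private lemma per_sum (f : ℕ → ℝ) (b : ℕ) (hf : ∀ c, f (c + b) = f c) (a : ℕ) :
    ∑ c ∈ range (a * b), f c = a * ∑ c ∈ range b, f c := by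
  induction a with
  | zero => simp
  | succ a ih =>
    rw [Nat.succ_mul, Finset.sum_range_add, ih,
      Finset.sum_congr rfl (fun x _ => per_shift f b hf a x)]
    push_cast
    ring

/-- the summand after summation over `k` -/
private noncomputable def Fc (N : ℕ) (c : ℕ) : ℝ :=
  bh N c * GG pd N ((c : ℝ) / 4 ^ N) * ∑ k ∈ Odds N, |GG (1 / 3) N ((k : ℝ) * c / 16 ^ N)|

private lemma pd0 : (0 : ℝ) ≤ pd := by unfold pd; norm_num
private lemma pd1 : pd ≤ 1 / 4 := by unfold pd; norm_num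

private lemma GG0 (N : ℕ) (x : ℝ) : 0 ≤ GG pd N x := B13.2.2.2.2.2.2.2.2.1 pd x N pd0 pd1

private lemma GG1 (N : ℕ) (x : ℝ) : GG pd N x ≤ 1 := by
  have := B13.2.2.2.2.2.2.2.1 pd x N pd0 (by unfold pd; norm_num)
  exact (abs_le.1 this).2

private lemma Fc_nonneg (N c : ℕ) : 0 ≤ Fc N c := by
  unfold Fc
  exact mul_nonneg (mul_nonneg (N5 N c).1 (GG0 _ _)) (Finset.sum_nonneg (fun _ _ => abs_nonneg _))

private lemma Fc_symm (N c : ℕ) (hc : c ≤ 16 ^ N) : Fc N (16 ^ N - c) = Fc N c := by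
  have h16 : (16 : ℝ) ^ N = 4 ^ N * 4 ^ N := by rw [← mul_pow]; norm_num
  have h4 : (0 : ℝ) < 4 ^ N := by positivity
  unfold Fc
  have e1 : bh N (((16 ^ N - c : ℕ)) : ℤ) = bh N c := by
    have h5 := N5 N (-(c : ℤ))
    have h6 := N5 N (c : ℤ)
    rw [Nat.cast_sub hc]
    push_cast
    rw [show (16 : ℤ) ^ N - c = -(c : ℤ) + 16 ^ N by ring, h5.2.2.2.1, h6.2.2.2.2]
  have e2 : GG pd N (((16 ^ N - c : ℕ) : ℝ) / 4 ^ N) = GG pd N ((c : ℝ) / 4 ^ N) := by
    rw [Nat.cast_sub hc]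
    push_cast
    have : ((16 : ℝ) ^ N - c) / 4 ^ N = -((c : ℝ) / 4 ^ N) + ((4 ^ N : ℤ) : ℝ) := by
      rw [h16]; push_cast; field_simp; ring
    rw [this, B13.2.2.2.2.2.1, B13.2.2.2.2.2.2.1]
  have e3 : ∀ k : ℤ, |GG (1 / 3) N ((k : ℝ) * ((16 ^ N - c : ℕ) : ℝ) / 16 ^ N)| =
      |GG (1 / 3) N ((k : ℝ) * c / 16 ^ N)| := by
    intro k
    rw [Nat.cast_sub hc]
    push_cast
    have : (k : ℝ) * ((16 : ℝ) ^ N - c) / 16 ^ N = -((k : ℝ) * c / 16 ^ N) + (k : ℝ) := by
      field_simp; ring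
    rw [this, B13.2.2.2.2.2.1, B13.2.2.2.2.2.2.1]
  rw [e1, e2, Finset.sum_congr rfl (fun k _ => e3 k)]

private lemma sum_half (N : ℕ) :
    ∑ c ∈ range (16 ^ N), Fc N c ≤
      Fc N 0 + 2 * ∑ c ∈ (range (16 ^ N)).filter (fun c => 1 ≤ c ∧ 2 * c ≤ 16 ^ N), Fc N c := by
  classical
  set A := (range (16 ^ N)).filter (fun c => 1 ≤ c ∧ 2 * c ≤ 16 ^ N) with hA
  have hpos : 0 < 16 ^ N := by positivity
  have hsub : range (16 ^ N) ⊆ ({0} ∪ A) ∪ A.image (fun c => 16 ^ N - c) := by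
    intro c hc
    rw [mem_range] at hc
    rw [mem_union, mem_union, mem_singleton, mem_image]
    by_cases h0 : c = 0
    · left; left; exact h0
    · by_cases h1 : 2 * c ≤ 16 ^ N
      · left; right
        rw [hA, mem_filter, mem_range]
        exact ⟨hc, by omega, h1⟩
      · right
        refine ⟨16 ^ N - c, ?_, by omega⟩
        rw [hA, mem_filter, mem_range]
        refine ⟨by omega, by omega, by omega⟩
  have s1 : ∑ c ∈ range (16 ^ N), Fc N c ≤
      ∑ c ∈ ({0} ∪ A) ∪ A.image (fun c => 16 ^ N - c), Fc N c :=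
    Finset.sum_le_sum_of_subset_of_nonneg hsub (fun c _ _ => Fc_nonneg N c)
  have union_le : ∀ S T : Finset ℕ, ∑ c ∈ S ∪ T, Fc N c ≤ ∑ c ∈ S, Fc N c + ∑ c ∈ T, Fc N c := by
    intro S T
    rw [← Finset.sum_union_inter]
    have : 0 ≤ ∑ c ∈ S ∩ T, Fc N c := Finset.sum_nonneg (fun c _ => Fc_nonneg N c)
    linarith
  have s2 := union_le ({0} ∪ A) (A.image (fun c => 16 ^ N - c))
  have s3 := union_le {0} A
  have s4 : ∑ c ∈ A.image (fun c => 16 ^ N - c), Fc N c = ∑ c ∈ A, Fc N c := by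
    rw [Finset.sum_image]
    · apply Finset.sum_congr rfl
      intro c hc
      rw [hA, mem_filter, mem_range] at hc
      exact Fc_symm N c hc.1.le
    · intro x hx y hy hxy
      have hx' := hx
      have hy' := hy
      rw [Finset.mem_coe, hA, mem_filter, mem_range] at hx' hy'
      simp only at hxy
      omega
  rw [Finset.sum_singleton] at s3
  linarith

theorem N9 : ∃ C : ℝ, 0 < C ∧ ∀ N : ℕ, ∑ k ∈ Odds N, Ys N k ≤ C * 4 ^ N := by
  obtain ⟨C8, hC8, h8⟩ := N8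
  refine ⟨4 + 20000 * C8, by positivity, ?_⟩
  intro N
  rcases Nat.eq_zero_or_pos N with h0 | hN
  · subst h0
    have : Odds 0 = ∅ := by decide
    rw [this, Finset.sum_empty]
    positivity
  have h4 : (0 : ℝ) < 4 ^ N := by positivity
  have hrew : ∑ k ∈ Odds N, Ys N k = 4 ^ N * ∑ c ∈ range (16 ^ N), Fc N c := by
    unfold Ys Fc
    rw [← Finset.mul_sum, Finset.sum_comm]
    congr 1
    apply Finset.sum_congr rfl
    intro c _
    rw [Finset.mul_sum]
  rw [hrew]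
  have hhalf := sum_half N
  -- the term c = 0
  have hcard : ((Odds N).card : ℝ) ≤ 4 ^ N := by
    have : (Odds N).card ≤ 4 ^ N := by
      unfold Odds
      refine (Finset.card_filter_le _ _).trans ?_
      rw [Int.card_Ico]
      simp
    calc ((Odds N).card : ℝ) ≤ ((4 ^ N : ℕ) : ℝ) := by exact_mod_cast this
      _ = 4 ^ N := by push_cast; rfl
  have hS1 : ∀ c : ℕ, ∑ k ∈ Odds N, |GG (1 / 3) N ((k : ℝ) * c / 16 ^ N)| ≤ 4 ^ N := by
    intro c
    refine le_trans (Finset.sum_le_card_nsmul _ _ 1 ?_) ?_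
    · intro k _
      exact B13.2.2.2.2.2.2.2.1 _ _ _ (by norm_num) (by norm_num)
    · rw [nsmul_eq_mul, mul_one]; exact hcard
  have hF0 : Fc N 0 ≤ 4 := by
    unfold Fc
    have b1 : bh N ((0 : ℕ) : ℤ) ≤ 4 / 4 ^ N := (N5 N _).2.1
    have b0 : 0 ≤ bh N ((0 : ℕ) : ℤ) := (N5 N _).1
    calc bh N ((0 : ℕ) : ℤ) * GG pd N (((0 : ℕ) : ℝ) / 4 ^ N) *
          ∑ k ∈ Odds N, |GG (1 / 3) N ((k : ℝ) * ((0 : ℕ) : ℝ) / 16 ^ N)|
        ≤ (4 / 4 ^ N * 1) * 4 ^ N := by
          apply mul_le_mul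
          · exact mul_le_mul b1 (GG1 _ _) (GG0 _ _) (by positivity)
          · exact hS1 0
          · exact Finset.sum_nonneg (fun _ _ => abs_nonneg _)
          · positivity
      _ = 4 := by field_simp
  -- blocks
  set A := (range (16 ^ N)).filter (fun c => 1 ≤ c ∧ 2 * c ≤ 16 ^ N) with hA
  have hmaps : ∀ c ∈ A, Nat.log 4 c ∈ range (2 * N) := by
    intro c hc
    rw [hA, mem_filter, mem_range] at hc
    rw [mem_range]
    apply Nat.log_lt_of_lt_pow (by omega)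
    have : (4 : ℕ) ^ (2 * N) = 16 ^ N := by rw [pow_mul]; norm_num
    rw [this]; exact hc.1
  have hfib := Finset.sum_fiberwise_of_maps_to hmaps (fun c => Fc N c)
  set r : ℝ := 2.004 * (qq / 2) with hr
  have hr0 : 0 ≤ r := by rw [hr]; unfold qq; norm_num
  have hr1 : r < 1 := by rw [hr]; unfold qq; norm_num
  have hq0 : (0 : ℝ) < qq := by unfold qq; norm_num
  have hpdv : 4 * (1 - 2 * pd) = 2.004 := by unfold pd; norm_num
  have hblock : ∀ j, ∀ (u v : ℝ), 0 ≤ u → 0 ≤ v →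
      (∀ c ∈ A, Nat.log 4 c = j → bh N (c : ℤ) ≤ u) →
      (∀ c ∈ A, Nat.log 4 c = j →
        ∑ k ∈ Odds N, |GG (1 / 3) N ((k : ℝ) * c / 16 ^ N)| ≤ v) →
      ∑ c ∈ A with Nat.log 4 c = j, Fc N c ≤
        u * v * ∑ c ∈ range (4 ^ (j + 1)), GG pd N ((c : ℝ) / 4 ^ N) := by
    intro j u v hu hv h1 h2
    have t1 : ∑ c ∈ A with Nat.log 4 c = j, Fc N c ≤
        ∑ c ∈ A with Nat.log 4 c = j, u * v * GG pd N ((c : ℝ) / 4 ^ N) := by
      apply Finset.sum_le_sum
      intro c hc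
      rw [mem_filter] at hc
      unfold Fc
      have a1 := h1 c hc.1 hc.2
      have a2 := h2 c hc.1 hc.2
      have g0 := GG0 N ((c : ℝ) / 4 ^ N)
      calc bh N (c : ℤ) * GG pd N ((c : ℝ) / 4 ^ N) *
            ∑ k ∈ Odds N, |GG (1 / 3) N ((k : ℝ) * c / 16 ^ N)|
          ≤ (u * GG pd N ((c : ℝ) / 4 ^ N)) * v := by
            apply mul_le_mul
            · exact mul_le_mul_of_nonneg_right a1 g0
            · exact a2
            · exact Finset.sum_nonneg (fun _ _ => abs_nonneg _)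
            · positivity
        _ = u * v * GG pd N ((c : ℝ) / 4 ^ N) := by ring
    refine t1.trans ?_
    rw [Finset.mul_sum]
    apply Finset.sum_le_sum_of_subset_of_nonneg
    · intro c hc
      rw [mem_filter] at hc
      rw [mem_range, ← hc.2]
      exact Nat.lt_pow_succ_log_self (by norm_num) c
    · intro c _ _
      exact mul_nonneg (mul_nonneg hu hv) (GG0 _ _)
  have hlog : ∀ c ∈ A, ∀ j, Nat.log 4 c = j → 4 ^ j ≤ c ∧ c < 4 ^ (j + 1) ∧ 2 * c ≤ 16 ^ N := by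
    intro c hc j hj
    rw [hA, mem_filter, mem_range] at hc
    refine ⟨?_, ?_, hc.2.2⟩
    · rw [← hj]; exact Nat.pow_log_le_self 4 (by omega)
    · rw [← hj]; exact Nat.lt_pow_succ_log_self (by norm_num) c
  -- small blocks
  have hsmall : ∀ j ∈ range N, ∑ c ∈ A with Nat.log 4 c = j, Fc N c ≤ 9 * C8 * r ^ j := by
    intro j hj
    rw [mem_range] at hj
    have hmin : min j (2 * N - j) = j := by omega
    have hb := hblock j (4 / 4 ^ N) (C8 * 4 ^ N * (qq / 2) ^ j) (by positivity)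
      (by positivity) (fun c _ _ => (N5 N _).2.1)
      (fun c hc hcj => by
        obtain ⟨l1, l2, l3⟩ := hlog c hc j hcj
        have := h8 N j c hN l1 l2 l3
        rw [hmin] at this
        exact this)
    refine hb.trans ?_
    have h7 := (P7 N (j + 1) (by omega)).1
    rw [hpdv] at h7
    calc 4 / 4 ^ N * (C8 * 4 ^ N * (qq / 2) ^ j) *
          ∑ c ∈ range (4 ^ (j + 1)), GG pd N ((c : ℝ) / 4 ^ N)
        ≤ 4 / 4 ^ N * (C8 * 4 ^ N * (qq / 2) ^ j) * (2.004) ^ (j + 1) := by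
          apply mul_le_mul_of_nonneg_left h7
          positivity
      _ = 8.016 * C8 * r ^ j := by
          rw [hr, mul_pow, pow_succ]
          field_simp
          ring
      _ ≤ 9 * C8 * r ^ j := by
          have : 0 ≤ C8 * r ^ j := by positivity
          nlinarith
  -- large blocks
  have hlarge : ∀ t ∈ range N, ∑ c ∈ A with Nat.log 4 c = N + t, Fc N c ≤
      C8 * (1 / (2 * qq)) ^ t := by
    intro t ht
    rw [mem_range] at ht
    have hmin : min (N + t) (2 * N - (N + t)) = N - t := by omega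
    have hb := hblock (N + t) (4 ^ N / (4 * 16 ^ (N + t))) (C8 * 4 ^ N * (qq / 2) ^ (N - t))
      (by positivity) (by positivity)
      (fun c hc hcj => by
        obtain ⟨l1, l2, l3⟩ := hlog c hc _ hcj
        have hc0 : (c : ℤ) ≠ 0 := by
          have : 0 < 4 ^ (N + t) := by positivity
          omega
        have := (N5 N (c : ℤ)).2.2.1 hc0 (by
          rw [abs_of_nonneg (by positivity)]
          exact_mod_cast l3)
        refine this.trans ?_
        have hcR : (4 : ℝ) ^ (N + t) ≤ (c : ℝ) := by exact_mod_cast l1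
        have h16 : (16 : ℝ) ^ (N + t) = (4 ^ (N + t)) ^ 2 := by
          rw [← pow_mul, mul_comm, pow_mul]; norm_num
        rw [h16]
        apply div_le_div_of_nonneg_left (by positivity) (by positivity)
        push_cast
        have := pow_le_pow_left₀ (by positivity) hcR 2
        linarith)
      (fun c hc hcj => by
        obtain ⟨l1, l2, l3⟩ := hlog c hc _ hcj
        have := h8 N (N + t) c hN l1 l2 l3
        rw [hmin] at this
        exact this)
    refine hb.trans ?_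
    have hper : ∑ c ∈ range (4 ^ (N + t + 1)), GG pd N ((c : ℝ) / 4 ^ N) =
        4 ^ (t + 1) * (2.004) ^ N := by
      have h1 := per_sum (fun c : ℕ => GG pd N ((c : ℝ) / 4 ^ N)) (4 ^ N) (fun c => by
        have : (((c + 4 ^ N : ℕ)) : ℝ) / 4 ^ N = (c : ℝ) / 4 ^ N + ((1 : ℤ) : ℝ) := by
          push_cast; field_simp
        rw [this, B13.2.2.2.2.2.1]) (4 ^ (t + 1))
      rw [← pow_add, show t + 1 + N = N + t + 1 by ring] at h1
      rw [h1, P5, hpdv]
      push_cast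
      rfl
    rw [hper]
    have hqt : (qq / 2) ^ (N - t) * (qq / 2) ^ t = (qq / 2) ^ N := by
      rw [← pow_add]; congr 1; omega
    have hq2 : (qq / 2) ^ t ≠ 0 := by positivity
    have e1 : (qq / 2) ^ (N - t) = (qq / 2) ^ N / (qq / 2) ^ t := by
      rw [eq_div_iff hq2, hqt]
    have e2 : 4 ^ N / (4 * 16 ^ (N + t)) * (C8 * 4 ^ N * (qq / 2) ^ (N - t)) *
        (4 ^ (t + 1) * (2.004 : ℝ) ^ N) = C8 * (1 / (2 * qq)) ^ t * r ^ N := by
      rw [e1, hr, mul_pow, pow_add, pow_succ]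
      have h16N : (16 : ℝ) ^ N = 4 ^ N * 4 ^ N := by rw [← mul_pow]; norm_num
      have h16t : (16 : ℝ) ^ t = 4 ^ t * 4 ^ t := by rw [← mul_pow]; norm_num
      have h2t : (4 : ℝ) ^ t = 2 ^ t * 2 ^ t := by rw [← mul_pow]; norm_num
      rw [h16N, h16t, div_pow, div_pow, div_pow, mul_pow, one_pow, h2t]
      field_simp
    rw [e2]
    have hrN : r ^ N ≤ 1 := pow_le_one₀ hr0 hr1.le
    have : 0 ≤ C8 * (1 / (2 * qq)) ^ t := by positivity
    nlinarith
  have htot : ∑ c ∈ A, Fc N c ≤ 9 * C8 * (1 / (1 - r)) + C8 * (1 / (1 - 1 / (2 * qq))) := by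
    rw [← hfib, two_mul, Finset.sum_range_add]
    have g1 := geo r hr0 hr1 N
    have g2 := geo (1 / (2 * qq)) (by positivity) (by unfold qq; norm_num) N
    have s1 : ∑ j ∈ range N, ∑ c ∈ A with Nat.log 4 c = j, Fc N c ≤
        ∑ j ∈ range N, 9 * C8 * r ^ j := Finset.sum_le_sum hsmall
    have s2 : ∑ t ∈ range N, ∑ c ∈ A with Nat.log 4 c = N + t, Fc N c ≤
        ∑ t ∈ range N, C8 * (1 / (2 * qq)) ^ t := Finset.sum_le_sum hlarge
    rw [← Finset.mul_sum] at s1 s2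
    have s3 : 9 * C8 * ∑ j ∈ range N, r ^ j ≤ 9 * C8 * (1 / (1 - r)) :=
      mul_le_mul_of_nonneg_left g1 (by positivity)
    have s4 : C8 * ∑ t ∈ range N, (1 / (2 * qq)) ^ t ≤ C8 * (1 / (1 - 1 / (2 * qq))) :=
      mul_le_mul_of_nonneg_left g2 (by positivity)
    linarith
  have hnum1 : 1 / (1 - r) ≤ 1000 := by
    rw [hr]; unfold qq; norm_num
  have hnum2 : 1 / (1 - 1 / (2 * qq)) ≤ 3 := by
    unfold qq; norm_num
  have hfin : ∑ c ∈ range (16 ^ N), Fc N c ≤ 4 + 20000 * C8 := by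
    have a1 : 9 * C8 * (1 / (1 - r)) ≤ 9 * C8 * 1000 :=
      mul_le_mul_of_nonneg_left hnum1 (by positivity)
    have a2 : C8 * (1 / (1 - 1 / (2 * qq))) ≤ C8 * 3 :=
      mul_le_mul_of_nonneg_left hnum2 (by positivity)
    linarith
  rw [mul_comm]
  exact mul_le_mul_of_nonneg_right hfin (by positivity)

end Pool.Agent.C52.RN9
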