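import Pool.Agent.Lib.MP_c52340_c5.DefsS
import Pool.Agent.Lib.MP_c52340_c5.B7
import Pool.Agent.Lib.MP_c52340_c5.B9
import Pool.Agent.Lib.MP_c52340_c5.B11
import Pool.Agent.Lib.MP_c52340_c5.B13
import Pool.Agent.Lib.MP_c52340_c5.N10


set_option autoImplicit false

open Finset

open Pool.Agent.C52.RB7 (B7)
open Pool.Agent.C52.RB9 (B9)
open Pool.Agent.C52.RB11 (B11)
open Pool.Agent.C52.RB13 (B13)
open Pool.Agent.C52.RN10 (N10)

namespace Pool.Agent.C52.RO1

private theorem o1_fourier (N : ℕ) (k z : ℤ) :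
    ((avg N (fun m => 4 ^ N * wmod N (k * m + z)) : ℝ) : ℂ) =
      ∑ c ∈ range (4 ^ N), (GG (1 / 4) N ((c : ℝ) / 4 ^ N) : ℂ) * ee (-((c : ℝ) * z / 4 ^ N)) *
        (GG (1 / 3) N (-((k : ℝ) * c / 4 ^ N)) : ℂ) := by
  have h9 : ∀ x : ℝ, (GG (1 / 3) N x : ℂ) = (∑ m ∈ Lset N, ee (x * m)) / 3 ^ N := by
    intro x
    have := B9 N x
    unfold avgC at this
    exact this.symm
  unfold avg
  rw [Complex.ofReal_div, Complex.ofReal_sum]
  rw [Finset.sum_congr rfl (fun m _ => B11 N (k * m + z)), Finset.sum_comm, Finset.sum_div]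
  refine Finset.sum_congr rfl fun c _ => ?_
  rw [h9, mul_div_assoc', Finset.mul_sum]
  congr 1
  · refine Finset.sum_congr rfl fun m _ => ?_
    rw [mul_assoc, ← B7.1]
    congr 2
    push_cast
    ring
  · push_cast
    rfl

/-- Row O1.  Row sums of the kernel.
Recipe: B11, B9, `GG (1/4) ≤ GG pd` (N10). -/
theorem O1 (N : ℕ) (k z : ℤ) : avg N (fun m => 4 ^ N * wmod N (k * m + z)) ≤ Xs N k := by
  obtain ⟨_, _, _, _, _, _, heven, _, hnn, _, _⟩ := B13
  obtain ⟨_, hee, _, _, _⟩ := B7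
  obtain ⟨_, _, _, h10⟩ := N10 (1 / 2) (by norm_num) (by norm_num)
  have h2 : avg N (fun m => 4 ^ N * wmod N (k * m + z)) ≤
      ‖((avg N (fun m => 4 ^ N * wmod N (k * m + z)) : ℝ) : ℂ)‖ := by
    rw [Complex.norm_real]
    exact le_abs_self _
  refine h2.trans ?_
  rw [o1_fourier]
  refine (norm_sum_le _ _).trans ?_
  unfold Xs
  refine Finset.sum_le_sum fun c _ => ?_
  rw [norm_mul, norm_mul, hee, mul_one, Complex.norm_real, Complex.norm_real, Real.norm_eq_abs,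
    Real.norm_eq_abs, heven,
    abs_of_nonneg (hnn (1 / 4) ((c : ℝ) / 4 ^ N) N (by norm_num) le_rfl)]
  exact mul_le_mul_of_nonneg_right (h10 N _).1 (abs_nonneg _)

end Pool.Agent.C52.RO1
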