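import Pool.Agent.Lib.MP_c52340_c5.DefsS
import Pool.Agent.Lib.MP_c52340_c5.B2
import Pool.Agent.Lib.MP_c52340_c5.B4
import Pool.Agent.Lib.MP_c52340_c5.B7
import Pool.Agent.Lib.MP_c52340_c5.B8
import Pool.Agent.Lib.MP_c52340_c5.B9
import Pool.Agent.Lib.MP_c52340_c5.B13
import Pool.Agent.Lib.MP_c52340_c5.B14
import Pool.Agent.Lib.MP_c52340_c5.N2
import Pool.Agent.Lib.MP_c52340_c5.N10


set_option autoImplicit false

open Finset

open Pool.Agent.C52.RB2 (B2)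
open Pool.Agent.C52.RB4 (B4)
open Pool.Agent.C52.RB7 (B7)
open Pool.Agent.C52.RB8 (B8)
open Pool.Agent.C52.RB9 (B9)
open Pool.Agent.C52.RB13 (B13)
open Pool.Agent.C52.RB14 (B14)
open Pool.Agent.C52.RN2 (N2)
open Pool.Agent.C52.RN10 (N10)

namespace Pool.Agent.C52.RO2

private theorem o2_rep (N : ℕ) (hN : 1 ≤ N) (w : ℤ) : ∃ h ∈ Fr N, ∃ t : ℤ, h = w + 4 ^ N * t := by
  obtain ⟨P, hP⟩ : ∃ P : ℤ, P = 4 ^ N / 2 := ⟨_, rfl⟩
  have hP2 : (4 : ℤ) ^ N = 2 * P := by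
    have : (2 : ℤ) ∣ 4 ^ N := dvd_pow (by norm_num) (by omega)
    rw [hP]
    exact (Int.mul_ediv_cancel' this).symm
  have hPpos : 0 < P := by
    have : (0 : ℤ) < 4 ^ N := by positivity
    linarith
  have h1 := Int.emod_add_mul_ediv (w - 1 + P) (2 * P)
  have h2 := Int.emod_nonneg (w - 1 + P) (show (2 * P) ≠ 0 by omega)
  have h3 := Int.emod_lt_of_pos (w - 1 + P) (show 0 < 2 * P by omega)
  refine ⟨w + 4 ^ N * (-((w - 1 + P) / (2 * P))), ?_, _, rfl⟩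
  unfold Fr
  rw [← hP, hP2, mem_Ioc]
  have h4 : w + 2 * P * (-((w - 1 + P) / (2 * P))) = (w - 1 + P) % (2 * P) + 1 - P := by
    linarith
  rw [h4]
  constructor <;> linarith

/-- Row O2.  Column sums of the kernel.
Recipe: as N3.  `4^N wmod N (z + hi N k m)`: the `y ∈ Lset N` with `4^N ∣ z + hi - y` are those with `hi N k m = h_y`, `h_y ∈ Fr N` the representative of `y - z`
(`|hi| < 4^N/2`); `[hi N k m = h_y] ≤ b (k m - 4^N h_y)`, `b w = 2 max 0 (1 - |w|/(2*4^N))`, since then `|k m - 4^N h_y| ≤ 4^N/2`; `|k m - 4^N h_y| ≤ (2/3) 16^N` always, N2;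
average over `m` (B9), sum over `y` (B8; `h_y = y - z` modulo `4^N`): at most `4^N ∑_c bh N c GG (1/4) N (c/4^N) |GG (1/3) N (k c/16^N)| ≤ Ys` (N10). -/
theorem O2 (N : ℕ) (hN : 2 ≤ N) (k : ℤ) (hk : 0 < k) (hk2 : 2 * k < 4 ^ N) (z : ℤ) :
    avg N (fun m => 4 ^ N * wmod N (z + hi N k m)) ≤ Ys N k := by
  obtain ⟨hadd, hnorm, hint, hconj, _⟩ := B7
  obtain ⟨_, _, _, hN10⟩ := N10 (1 / 2) (by norm_num) (by norm_num)
  have hG : ∀ x : ℝ, 0 ≤ GG (1 / 4) N x := fun x =>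
    B13.2.2.2.2.2.2.2.2.1 (1 / 4) x N (by norm_num) le_rfl
  have hGneg : ∀ x : ℝ, GG (1 / 4) N (-x) = GG (1 / 4) N x := fun x => B13.2.2.2.2.2.2.1 (1 / 4) x N
  have hw : ∀ y, 0 ≤ wG (1 / 4) N y := fun y => B4.1 (1 / 4) (by norm_num) (by norm_num) N y
  have hbh : ∀ c : ℕ, 0 ≤ bh N c := fun c => by unfold bh; positivity
  have h16 : (16 : ℝ) ^ N = 4 ^ N * 4 ^ N := by rw [← mul_pow]; norm_num
  have h16z : (16 : ℤ) ^ N = 4 ^ N * 4 ^ N := by rw [← mul_pow]; norm_num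
  have hM16 : (16 : ℤ) ≤ 4 ^ N := by
    calc (16 : ℤ) = 4 ^ 2 := by norm_num
      _ ≤ 4 ^ N := pow_le_pow_right₀ (by norm_num) hN
  have hM : (0 : ℝ) < 4 ^ N := by positivity
  have hLb : ∀ m ∈ Lset N, 3 * |m| ≤ (4 : ℤ) ^ N - 1 := B2.1 N
  choose g hgF t hgt using fun y : ℤ => o2_rep N (by omega) (y - z)
  have hgb : ∀ y, 2 * |g y| ≤ 4 ^ N := by
    intro y
    have h1 := hgF y
    unfold Fr at h1
    rw [mem_Ioc] at h1
    have h5 : 2 * ((4 : ℤ) ^ N / 2) ≤ 4 ^ N := Int.mul_ediv_self_le (by norm_num)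
    have h6 : |g y| ≤ 4 ^ N / 2 := abs_le.mpr ⟨h1.1.le, h1.2⟩
    linarith
  -- domination
  have hdom : ∀ m ∈ Lset N, 4 ^ N * wmod N (z + hi N k m) ≤
      4 ^ N * ∑ y ∈ Lset N, wG (1 / 4) N y *
        (2 * max 0 (1 - |((k * m - 4 ^ N * g y : ℤ) : ℝ)| / (2 * 4 ^ N))) := by
    intro m hm
    unfold wmod
    apply mul_le_mul_of_nonneg_left _ (by positivity)
    apply Finset.sum_le_sum
    intro y hy
    have hterm : 0 ≤ wG (1 / 4) N y *
        (2 * max 0 (1 - |((k * m - 4 ^ N * g y : ℤ) : ℝ)| / (2 * 4 ^ N))) :=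
      mul_nonneg (hw y) (mul_nonneg (by norm_num) (le_max_left _ _))
    split_ifs with hd
    · have hb1 := (B14 N (by omega) k hk hk2).2 m hm
      have hkR : 2 * (k : ℝ) + 1 ≤ 4 ^ N := by
        have : 2 * k + 1 ≤ (4 : ℤ) ^ N := by omega
        exact_mod_cast this
      have hkpos : (0 : ℝ) < k := by exact_mod_cast hk
      have hkM : (0 : ℝ) ≤ (k : ℝ) / (3 * 4 ^ N) := by positivity
      have hMR : (16 : ℝ) ≤ 4 ^ N := by exact_mod_cast hM16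
      have hb2 : 2 * |(hi N k m : ℝ)| < 4 ^ N := by linarith
      have hgR : 2 * |(g y : ℝ)| ≤ 4 ^ N := by exact_mod_cast hgb y
      have hyeq : hi N k m - g y = 0 := by
        apply Int.eq_zero_of_abs_lt_dvd (m := 4 ^ N)
        · obtain ⟨q, hq⟩ := hd
          refine ⟨q - t y, ?_⟩
          rw [hgt y, mul_sub, ← hq]
          ring
        · have a2 := abs_sub (hi N k m : ℝ) (g y : ℝ)
          have h4 : ((|hi N k m - g y| : ℤ) : ℝ) < ((4 ^ N : ℤ) : ℝ) := by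
            push_cast
            linarith
          exact_mod_cast h4
      have hyz : g y = hi N k m := by linarith
      have hr1 : |((k * m : ℤ) : ℝ) / 4 ^ N - hi N k m| ≤ 1 / 2 := abs_sub_round _
      have hmain : |((k * m - 4 ^ N * g y : ℤ) : ℝ)| ≤ 4 ^ N := by
        have e1 : ((k * m - 4 ^ N * g y : ℤ) : ℝ) =
            4 ^ N * (((k * m : ℤ) : ℝ) / 4 ^ N - hi N k m) := by
          rw [hyz]
          push_cast
          field_simp
        rw [e1, abs_mul, abs_of_pos hM]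
        calc (4 : ℝ) ^ N * |((k * m : ℤ) : ℝ) / 4 ^ N - hi N k m| ≤ 4 ^ N * 1 := by
              apply mul_le_mul_of_nonneg_left _ hM.le
              linarith
          _ = 4 ^ N := mul_one _
      have hhalf : |((k * m - 4 ^ N * g y : ℤ) : ℝ)| / (2 * 4 ^ N) ≤ 1 / 2 := by
        rw [div_le_div_iff₀ (by positivity) (by norm_num)]
        linarith
      have hone : (1 : ℝ) ≤ 2 * max 0 (1 - |((k * m - 4 ^ N * g y : ℤ) : ℝ)| / (2 * 4 ^ N)) := by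
        have := le_max_right (0 : ℝ) (1 - |((k * m - 4 ^ N * g y : ℤ) : ℝ)| / (2 * 4 ^ N))
        linarith
      calc wG (1 / 4) N y = wG (1 / 4) N y * 1 := (mul_one _).symm
        _ ≤ _ := mul_le_mul_of_nonneg_left hone (hw y)
    · exact hterm
  -- Fourier expansion of the dominating sum
  have hfour : ((∑ m ∈ Lset N, 4 ^ N * ∑ y ∈ Lset N, wG (1 / 4) N y *
        (2 * max 0 (1 - |((k * m - 4 ^ N * g y : ℤ) : ℝ)| / (2 * 4 ^ N))) : ℝ) : ℂ) =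
      4 ^ N * ∑ c ∈ range (16 ^ N), (bh N c : ℂ) * (ee ((c : ℝ) / 4 ^ N * z) *
        ((3 ^ N * (GG (1 / 3) N ((k : ℝ) * c / 16 ^ N) : ℂ)) *
          (GG (1 / 4) N (-((c : ℝ) / 4 ^ N)) : ℂ))) := by
    have e1 : ((∑ m ∈ Lset N, 4 ^ N * ∑ y ∈ Lset N, wG (1 / 4) N y *
        (2 * max 0 (1 - |((k * m - 4 ^ N * g y : ℤ) : ℝ)| / (2 * 4 ^ N))) : ℝ) : ℂ) =
        4 ^ N * ∑ m ∈ Lset N, ∑ y ∈ Lset N, (wG (1 / 4) N y : ℂ) *
          ((2 * max 0 (1 - |((k * m - 4 ^ N * g y : ℤ) : ℝ)| / (2 * 4 ^ N)) : ℝ) : ℂ) := by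
      rw [← Finset.mul_sum]
      push_cast
      rfl
    rw [e1]
    congr 1
    have e2 : ∀ m ∈ Lset N, ∀ y ∈ Lset N, (wG (1 / 4) N y : ℂ) *
          ((2 * max 0 (1 - |((k * m - 4 ^ N * g y : ℤ) : ℝ)| / (2 * 4 ^ N)) : ℝ) : ℂ) =
        ∑ c ∈ range (16 ^ N), (bh N c : ℂ) * (ee ((c : ℝ) / 4 ^ N * z) *
          (ee ((k : ℝ) * c / 16 ^ N * m) *
            ((wG (1 / 4) N y : ℂ) * ee (-((c : ℝ) / 4 ^ N) * y)))) := by
      intro m hm y hy
      rw [N2 N (k * m - 4 ^ N * g y), Finset.mul_sum]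
      · apply Finset.sum_congr rfl
        intro c _
        have e3 : ee ((c : ℝ) * ((k * m - 4 ^ N * g y : ℤ) : ℝ) / 16 ^ N) =
            ee ((c : ℝ) / 4 ^ N * z) * (ee ((k : ℝ) * c / 16 ^ N * m) *
              ee (-((c : ℝ) / 4 ^ N) * y)) := by
          have e4 : (c : ℝ) * ((k * m - 4 ^ N * g y : ℤ) : ℝ) / 16 ^ N =
              ((c : ℝ) / 4 ^ N * z + ((k : ℝ) * c / 16 ^ N * m + -((c : ℝ) / 4 ^ N) * y)) +
                ((-(c * t y) : ℤ) : ℝ) := by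
            rw [hgt y, h16]
            push_cast
            field_simp
            ring
          rw [e4, hadd, hint, mul_one, hadd, hadd]
        rw [e3]
        ring
      · have b1 := hLb m hm
        have b3 := hgb y
        have a1 : |k * m - 4 ^ N * g y| ≤ |k * m| + |4 ^ N * g y| := abs_sub _ _
        rw [abs_mul, abs_mul, abs_of_pos hk, abs_of_pos (by positivity : (0 : ℤ) < 4 ^ N)] at a1
        rw [h16z]
        have a5 : k * (3 * |m|) ≤ k * (4 ^ N - 1) := mul_le_mul_of_nonneg_left b1 hk.le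
        have a6 : 4 ^ N * (2 * |g y|) ≤ 4 ^ N * ((4 : ℤ) ^ N) :=
          mul_le_mul_of_nonneg_left b3 (by positivity)
        have a7 : (2 * k) * ((4 : ℤ) ^ N - 1) ≤ (4 : ℤ) ^ N * (4 ^ N - 1) :=
          mul_le_mul_of_nonneg_right hk2.le (by linarith)
        nlinarith
    have e4 : ∀ m ∈ Lset N, ∑ y ∈ Lset N, (wG (1 / 4) N y : ℂ) *
          ((2 * max 0 (1 - |((k * m - 4 ^ N * g y : ℤ) : ℝ)| / (2 * 4 ^ N)) : ℝ) : ℂ) =
        ∑ c ∈ range (16 ^ N), (bh N c : ℂ) * (ee ((c : ℝ) / 4 ^ N * z) *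
          (ee ((k : ℝ) * c / 16 ^ N * m) * (GG (1 / 4) N (-((c : ℝ) / 4 ^ N)) : ℂ))) := by
      intro m hm
      rw [Finset.sum_congr rfl (e2 m hm), Finset.sum_comm]
      apply Finset.sum_congr rfl
      intro c _
      rw [← Finset.mul_sum, ← Finset.mul_sum, ← Finset.mul_sum, B8]
    rw [Finset.sum_congr rfl e4, Finset.sum_comm]
    apply Finset.sum_congr rfl
    intro c _
    rw [← Finset.mul_sum, ← Finset.mul_sum, ← Finset.sum_mul]
    congr 3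
    rw [← B9]
    unfold avgC
    have h3 : (3 : ℂ) ^ N ≠ 0 := pow_ne_zero _ (by norm_num)
    rw [mul_div_cancel₀ _ h3]
  have hnn : 0 ≤ ∑ m ∈ Lset N, 4 ^ N * ∑ y ∈ Lset N, wG (1 / 4) N y *
        (2 * max 0 (1 - |((k * m - 4 ^ N * g y : ℤ) : ℝ)| / (2 * 4 ^ N))) :=
    Finset.sum_nonneg (fun m' _ => mul_nonneg hM.le (Finset.sum_nonneg (fun z _ =>
      mul_nonneg (hw z) (mul_nonneg (by norm_num) (le_max_left _ _)))))
  have h3N : (0 : ℝ) < 3 ^ N := by positivity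
  unfold avg
  rw [div_le_iff₀ h3N, mul_comm]
  refine le_trans (Finset.sum_le_sum hdom) ?_
  have h1 : ∑ m ∈ Lset N, 4 ^ N * ∑ y ∈ Lset N, wG (1 / 4) N y *
        (2 * max 0 (1 - |((k * m - 4 ^ N * g y : ℤ) : ℝ)| / (2 * 4 ^ N))) =
      ‖((∑ m ∈ Lset N, 4 ^ N * ∑ y ∈ Lset N, wG (1 / 4) N y *
        (2 * max 0 (1 - |((k * m - 4 ^ N * g y : ℤ) : ℝ)| / (2 * 4 ^ N))) : ℝ) : ℂ)‖ := by
    rw [Complex.norm_real, Real.norm_eq_abs, abs_of_nonneg hnn]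
  rw [h1, hfour, norm_mul, norm_pow]
  have hn4 : ‖(4 : ℂ)‖ = 4 := by norm_num
  have hn3 : ‖(3 : ℂ)‖ = 3 := by norm_num
  rw [hn4]
  unfold Ys
  rw [mul_left_comm ((3 : ℝ) ^ N)]
  apply mul_le_mul_of_nonneg_left _ hM.le
  refine le_trans (norm_sum_le _ _) ?_
  rw [Finset.mul_sum]
  apply Finset.sum_le_sum
  intro c _
  rw [hGneg]
  rw [norm_mul, norm_mul, norm_mul, norm_mul, hnorm, Complex.norm_real, Complex.norm_real,
    Complex.norm_real, Real.norm_eq_abs, Real.norm_eq_abs, Real.norm_eq_abs,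
    abs_of_nonneg (hG _), abs_of_nonneg (hbh c), norm_pow, hn3, one_mul]
  have h5 := (hN10 N ((c : ℝ) / 4 ^ N)).1
  calc bh N c * (3 ^ N * |GG (1 / 3) N ((k : ℝ) * c / 16 ^ N)| * GG (1 / 4) N ((c : ℝ) / 4 ^ N)) ≤
        bh N c * (3 ^ N * |GG (1 / 3) N ((k : ℝ) * c / 16 ^ N)| * GG pd N ((c : ℝ) / 4 ^ N)) := by
        have h6 := hbh c
        gcongr
    _ = _ := by ring

end Pool.Agent.C52.RO2
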