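import Pool.Agent.Lib.MP_c52340_c5.DefsS
import Pool.Agent.Lib.MP_c52340_c5.B2
import Pool.Agent.Lib.MP_c52340_c5.B4
import Pool.Agent.Lib.MP_c52340_c5.B7
import Pool.Agent.Lib.MP_c52340_c5.B11
import Pool.Agent.Lib.MP_c52340_c5.B12
import Pool.Agent.Lib.MP_c52340_c5.B13
import Pool.Agent.Lib.MP_c52340_c5.B14


set_option autoImplicit false

open Finset

open Pool.Agent.C52.RB2 (B2)
open Pool.Agent.C52.RB4 (B4)
open Pool.Agent.C52.RB7 (B7)
open Pool.Agent.C52.RB11 (B11)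
open Pool.Agent.C52.RB12 (B12)
open Pool.Agent.C52.RB13 (B13)
open Pool.Agent.C52.RB14 (B14)

namespace Pool.Agent.C52.RO3

theorem O3_kernel (N : ℕ) (hN : 1 ≤ N) (z : ℤ) :
    ((4 ^ N * wmod N z : ℝ) : ℂ) = ∑ c ∈ Fr N, ((wt N c : ℝ) : ℂ) * ee (-((c : ℝ) * z / 4 ^ N)) := by
  obtain ⟨b1, b2, b3, b4, b5⟩ := B7
  obtain ⟨-, -, -, -, -, g6, -⟩ := B13
  have h4 : (4 ^ N : ℝ) ≠ 0 := by positivity
  rw [B11, B12 N hN (fun c : ℤ => ((wt N c : ℝ) : ℂ) * ee (-((c : ℝ) * z / 4 ^ N)))]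
  · refine sum_congr rfl fun c _ => ?_
    unfold wt
    simp
  · intro c
    have h1 : wt N (c + 4 ^ N) = wt N c := by
      unfold wt
      have h2 : (((c + 4 ^ N : ℤ) : ℝ)) / 4 ^ N = (c : ℝ) / 4 ^ N + (1 : ℤ) := by
        push_cast
        rw [add_div, div_self h4]
      rw [h2, g6]
    have h3 : ee (-((((c + 4 ^ N : ℤ) : ℝ)) * z / 4 ^ N)) = ee (-((c : ℝ) * z / 4 ^ N)) := by
      have h2 : (-((((c + 4 ^ N : ℤ) : ℝ)) * z / 4 ^ N)) = -((c : ℝ) * z / 4 ^ N) + ((-z : ℤ) : ℝ) := by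
        push_cast
        field_simp
        ring
      rw [h2, b1, b3, mul_one]
    simp only [h1, h3]

/-- Row O3.  The linear maps in terms of `QT`, the kernel of `QL` for all nonzero frequencies, sizes and expansions of the end vectors.
Recipe: definitions; B11, B12; `uu N k m = 4^N wmod N (hi N k m)` since `|hi| < 4^N/2` (B14). -/
theorem O3 (N : ℕ) (hN : 2 ≤ N) (k : ℤ) (hk : 0 < k) (hk2 : 2 * k < 4 ^ N) :
    (∀ (c : ℤ) (f : ℤ → ℂ), bL N k c f = avgC N (fun m => ee (-((c : ℝ) * (k * m : ℤ) / 4 ^ N)) * f m)) ∧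
    (∀ (Θ : Finset ℤ) (f : ℤ → ℂ), QL N k Θ f = QT N k Θ f) ∧
    (∀ (f : ℤ → ℂ) (m' : ℤ), QL N k ((Fr N).erase 0) f m' =
      avgC N (fun m => (((4 ^ N * wmod N (k * m + hi N k m') - 1 : ℝ)) : ℂ) * f m)) ∧
    (∀ f : ℤ → ℂ, VL N k f = ∑ c ∈ Fr N, ((wt N c : ℝ) : ℂ) * bL N k c f) ∧
    (∀ m ∈ Lset N, uC N k m = ∑ c ∈ Fr N, ((wt N c : ℝ) : ℂ) * Af N k c m) ∧
    (∀ m ∈ Lset N, uu N k m = 4 ^ N * wmod N (hi N k m)) := by
  obtain ⟨b1, b2, b3, b4, b5⟩ := B7
  obtain ⟨-, -, -, -, -, g6, -, -, -, -, g11⟩ := B13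
  have hN1 : 1 ≤ N := by omega
  have h4 : (4 ^ N : ℝ) ≠ 0 := by positivity
  have ee0 : ee 0 = 1 := by
    have := b3 0
    simpa using this
  have hbL : ∀ (c : ℤ) (f : ℤ → ℂ), bL N k c f
      = avgC N (fun m => ee (-((c : ℝ) * (k * m : ℤ) / 4 ^ N)) * f m) := by
    intro c f
    unfold bL avgC
    rw [LinearMap.sum_apply, sum_div]
    refine sum_congr rfl fun m _ => ?_
    rw [LinearMap.smul_apply, LinearMap.proj_apply, smul_eq_mul]
    ring
  have hQL : ∀ (Θ : Finset ℤ) (f : ℤ → ℂ), QL N k Θ f = QT N k Θ f := by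
    intro Θ f
    funext m'
    unfold QL QT
    rw [LinearMap.sum_apply, Finset.sum_apply]
    refine sum_congr rfl fun c _ => ?_
    rw [LinearMap.smul_apply, LinearMap.smulRight_apply, Pi.smul_apply, Pi.smul_apply, smul_eq_mul,
      smul_eq_mul, hbL]
    unfold Af wt
    ring
  have h0Fr : (0 : ℤ) ∈ Fr N := by
    unfold Fr
    rw [mem_Ioc]
    have : (4 : ℤ) ^ 1 ≤ 4 ^ N := pow_le_pow_right₀ (by norm_num) hN1
    constructor <;> omega
  have hwt0 : wt N 0 = 1 := by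
    unfold wt
    rw [Int.cast_zero, zero_div, g11 (1 / 4) 0 0 N 0 (Nat.zero_le _) (by simp)]
    simp [GG]
  have hexch : ∀ (S : Finset ℤ) (g : ℤ → ℤ → ℂ) (f : ℤ → ℂ),
      avgC N (fun m => (∑ c ∈ S, g c m) * f m) = ∑ c ∈ S, avgC N (fun m => g c m * f m) := by
    intro S g f
    unfold avgC
    rw [← sum_div]
    congr 1
    rw [sum_comm]
    exact sum_congr rfl fun m _ => sum_mul _ _ _
  have hsplit : ∀ z : ℤ, ((4 ^ N * wmod N z - 1 : ℝ) : ℂ)
      = ∑ c ∈ (Fr N).erase 0, ((wt N c : ℝ) : ℂ) * ee (-((c : ℝ) * z / 4 ^ N)) := by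
    intro z
    have h5 := O3_kernel N hN1 z
    rw [← add_sum_erase _ _ h0Fr, hwt0] at h5
    simp only [Int.cast_zero, zero_mul, zero_div, neg_zero, ee0, Complex.ofReal_one, mul_one] at h5
    rw [Complex.ofReal_sub, h5]
    simp
  have hee : ∀ (c m m' : ℤ), ee (-((c : ℝ) * ((k * m + hi N k m' : ℤ) : ℝ) / 4 ^ N))
      = ee (-((c : ℝ) * hi N k m' / 4 ^ N)) * ee (-((c : ℝ) * (k * m : ℤ) / 4 ^ N)) := by
    intro c m m'
    rw [← b1]
    congr 1
    push_cast
    ring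
  have huu : ∀ m ∈ Lset N, uu N k m = 4 ^ N * wmod N (hi N k m) := by
    intro m hm
    obtain ⟨-, s2⟩ := B14 N hN1 k hk hk2
    have h6 := s2 m hm
    have hkr : (2 * k : ℝ) < 4 ^ N := by exact_mod_cast hk2
    have hk0 : (0 : ℝ) < k := by exact_mod_cast hk
    have h16 : (16 : ℝ) ≤ 4 ^ N := by
      calc (16 : ℝ) = 4 ^ 2 := by norm_num
        _ ≤ 4 ^ N := pow_le_pow_right₀ (by norm_num) hN
    have h7 : |(hi N k m : ℝ)| < 4 ^ N / 2 := by
      have h8 : (0:ℝ) ≤ (k : ℝ) / (3 * 4 ^ N) := by positivity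
      linarith
    have h9 : ∀ y ∈ Lset N, ((4 : ℤ) ^ N ∣ hi N k m - y ↔ hi N k m = y) := by
      intro y hy
      constructor
      · intro hd
        have h10 := B2.1 N y hy
        have h11 : (2 * |hi N k m| : ℤ) < 4 ^ N := by
          have h12 : (2 * |(hi N k m : ℝ)|) < 4 ^ N := by linarith
          exact_mod_cast h12
        have h13 : |hi N k m - y| < 4 ^ N := by
          have := abs_sub (hi N k m) y
          have h14 := abs_nonneg (hi N k m)
          have h15 := abs_nonneg y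
          omega
        have := Int.eq_zero_of_abs_lt_dvd hd h13
        omega
      · rintro rfl
        simp
    unfold uu wmod
    congr 1
    have h17 : ∑ y ∈ Lset N, (if (4 : ℤ) ^ N ∣ hi N k m - y then wG (1 / 4) N y else 0)
        = ∑ y ∈ Lset N, (if hi N k m = y then wG (1 / 4) N y else 0) := by
      refine sum_congr rfl fun y hy => ?_
      simp only [h9 y hy]
    rw [h17, sum_ite_eq]
    split_ifs with hc
    · rfl
    · by_contra hne
      exact hc (B4.2.1 (1 / 4) N _ hne)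
  refine ⟨hbL, hQL, ?_, ?_, ?_, huu⟩
  · intro f m'
    rw [hQL]
    unfold QT
    have h5 : (fun m => (((4 ^ N * wmod N (k * m + hi N k m') - 1 : ℝ)) : ℂ) * f m)
        = fun m => (∑ c ∈ (Fr N).erase 0, (((wt N c : ℝ) : ℂ) * ee (-((c : ℝ) * hi N k m' / 4 ^ N)))
          * ee (-((c : ℝ) * (k * m : ℤ) / 4 ^ N))) * f m := by
      funext m
      rw [hsplit]
      congr 1
      refine sum_congr rfl fun c _ => ?_
      rw [hee]
      ring
    rw [h5, hexch]
    refine sum_congr rfl fun c _ => ?_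
    unfold avgC wt
    rw [← mul_div_assoc, mul_sum]
    congr 1
    refine sum_congr rfl fun m _ => ?_
    ring
  · intro f
    have h5 : VL N k f = avgC N (fun m => (((vv N k m : ℝ)) : ℂ) * f m) := by
      unfold VL avgC
      rw [LinearMap.sum_apply, sum_div]
      refine sum_congr rfl fun m _ => ?_
      rw [LinearMap.smul_apply, LinearMap.proj_apply, smul_eq_mul]
      ring
    have h6 : (fun m => (((vv N k m : ℝ)) : ℂ) * f m)
        = fun m => (∑ c ∈ Fr N, ((wt N c : ℝ) : ℂ) * ee (-((c : ℝ) * (k * m : ℤ) / 4 ^ N))) * f m := by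
      funext m
      unfold vv
      rw [O3_kernel N hN1]
    rw [h5, h6, hexch]
    refine sum_congr rfl fun c _ => ?_
    rw [hbL]
    unfold avgC
    rw [← mul_div_assoc, mul_sum]
    congr 1
    refine sum_congr rfl fun m _ => ?_
    ring
  · intro m hm
    unfold uC
    rw [huu m hm, O3_kernel N hN1]
    rfl

end Pool.Agent.C52.RO3
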