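import Pool.Agent.Lib.MP_c52340_c5.DefsS
import Pool.Agent.Lib.MP_c52340_c5.B2
import Pool.Agent.Lib.MP_c52340_c5.B4
import Pool.Agent.Lib.MP_c52340_c5.O1
import Pool.Agent.Lib.MP_c52340_c5.O2
import Pool.Agent.Lib.MP_c52340_c5.O3


set_option autoImplicit false

open Finset

open Pool.Agent.C52.RB2 (B2)
open Pool.Agent.C52.RB4 (B4)
open Pool.Agent.C52.RO1 (O1)
open Pool.Agent.C52.RO2 (O2)
open Pool.Agent.C52.RO3 (O3)

namespace Pool.Agent.C52.RO4

private lemma wmod_nonneg_O4 (N : ℕ) (z : ℤ) : 0 ≤ wmod N z := by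
  unfold wmod
  apply Finset.sum_nonneg
  intro y _
  split_ifs
  · exact B4.1 (1 / 4) (by norm_num) (by norm_num) N y
  · exact le_refl _

private lemma avg_one_O4 (N : ℕ) (f : ℤ → ℝ) : avg N (fun m => f m + 1) = avg N f + 1 := by
  unfold avg
  rw [Finset.sum_add_distrib, Finset.sum_const, (B2.2.1 N), add_div]
  congr 1
  rw [nsmul_eq_mul]
  push_cast
  rw [mul_one]
  exact div_self (by positivity)

private lemma avg_mono_O4 (N : ℕ) (f g : ℤ → ℝ) (h : ∀ m ∈ Lset N, f m ≤ g m) : avg N f ≤ avg N g := by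
  unfold avg
  exact div_le_div_of_nonneg_right (Finset.sum_le_sum h) (by positivity)

private lemma avg_mul_O4 (N : ℕ) (f : ℤ → ℝ) (a : ℝ) : avg N (fun m => f m * a) = avg N f * a := by
  unfold avg
  rw [← Finset.sum_mul]
  ring

private lemma norm_avgC_O4 (N : ℕ) (f : ℤ → ℂ) : ‖avgC N f‖ ≤ avg N (fun m => ‖f m‖) := by
  unfold avgC avg
  rw [norm_div]
  have : ‖(3 : ℂ) ^ N‖ = 3 ^ N := by
    rw [norm_pow]
    norm_num
  rw [this]
  exact div_le_div_of_nonneg_right (norm_sum_le _ _) (by positivity)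

private lemma avg_nonneg_O4 (N : ℕ) (f : ℤ → ℝ) (h : ∀ m, 0 ≤ f m) : 0 ≤ avg N f := by
  unfold avg
  apply div_nonneg (Finset.sum_nonneg (fun m _ => h m)) (by positivity)

/-- Row O4.  Sup norm and mean norm.
Recipe: O3 (kernel), O1, O2; `0 ≤ wmod`. -/
theorem O4 (N : ℕ) (hN : 2 ≤ N) (k : ℤ) (hk : 0 < k) (hk2 : 2 * k < 4 ^ N) :
    (∀ (f : ℤ → ℂ) (a : ℝ), 0 ≤ a → (∀ m ∈ Lset N, ‖f m‖ ≤ a) →
      ∀ m', ‖QL N k ((Fr N).erase 0) f m'‖ ≤ (Xs N k + 1) * a) ∧
    (∀ f : ℤ → ℂ, avg N (fun m' => ‖QL N k ((Fr N).erase 0) f m'‖) ≤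
      (Ys N k + 1) * avg N (fun m => ‖f m‖)) ∧
    avg N (fun m => ‖((vv N k m : ℝ) : ℂ)‖) ≤ Xs N k ∧ avg N (fun m => ‖uC N k m‖) ≤ Ys N k ∧
    0 ≤ Xs N k ∧ 0 ≤ Ys N k := by
  obtain ⟨_, _, hker, _, _, huu⟩ := O3 N hN k hk hk2
  have hw : ∀ z, 0 ≤ (4 : ℝ) ^ N * wmod N z := fun z => mul_nonneg (by positivity) (wmod_nonneg_O4 N z)
  have hX : 0 ≤ Xs N k := (avg_nonneg_O4 N _ (fun m => hw _)).trans (O1 N k 0)
  have hY : 0 ≤ Ys N k := (avg_nonneg_O4 N _ (fun m => hw _)).trans (O2 N hN k hk hk2 0)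
  have hkn : ∀ (f : ℤ → ℂ) (m' m : ℤ),
      ‖(((4 ^ N * wmod N (k * m + hi N k m') - 1 : ℝ)) : ℂ) * f m‖ ≤
        (4 ^ N * wmod N (k * m + hi N k m') + 1) * ‖f m‖ := by
    intro f m' m
    rw [norm_mul, Complex.norm_real, Real.norm_eq_abs]
    apply mul_le_mul_of_nonneg_right _ (norm_nonneg _)
    have := hw (k * m + hi N k m')
    rw [abs_le]
    constructor <;> linarith
  refine ⟨?_, ?_, ?_, ?_, hX, hY⟩
  · intro f a ha hf m'
    rw [hker f m']
    refine (norm_avgC_O4 N _).trans ?_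
    refine (avg_mono_O4 N _ (fun m => (4 ^ N * wmod N (k * m + hi N k m') + 1) * a) ?_).trans ?_
    · intro m hm
      refine (hkn f m' m).trans ?_
      apply mul_le_mul_of_nonneg_left (hf m hm)
      have := hw (k * m + hi N k m')
      linarith
    · rw [avg_mul_O4, avg_one_O4]
      apply mul_le_mul_of_nonneg_right _ ha
      have := O1 N k (hi N k m')
      linarith
  · intro f
    have h1 : avg N (fun m' => ‖QL N k ((Fr N).erase 0) f m'‖) ≤
        avg N (fun m' => avg N (fun m => (4 ^ N * wmod N (k * m + hi N k m') + 1) * ‖f m‖)) := by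
      apply avg_mono_O4
      intro m' _
      rw [hker f m']
      refine (norm_avgC_O4 N _).trans ?_
      apply avg_mono_O4
      intro m _
      exact hkn f m' m
    refine h1.trans ?_
    have h2 : avg N (fun m' => avg N (fun m => (4 ^ N * wmod N (k * m + hi N k m') + 1) * ‖f m‖)) =
        avg N (fun m => avg N (fun m' => (4 ^ N * wmod N (k * m + hi N k m') + 1) * ‖f m‖)) := by
      unfold avg
      rw [← Finset.sum_div, ← Finset.sum_div, Finset.sum_comm]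
    rw [h2]
    have h3 : ∀ m ∈ Lset N, avg N (fun m' => (4 ^ N * wmod N (k * m + hi N k m') + 1) * ‖f m‖) ≤
        (Ys N k + 1) * ‖f m‖ := by
      intro m _
      rw [avg_mul_O4, avg_one_O4]
      apply mul_le_mul_of_nonneg_right _ (norm_nonneg _)
      have := O2 N hN k hk hk2 (k * m)
      linarith
    refine (avg_mono_O4 N _ _ h3).trans (le_of_eq ?_)
    have : (fun m => (Ys N k + 1) * ‖f m‖) = (fun m => ‖f m‖ * (Ys N k + 1)) := by
      funext m
      ring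
    rw [this, avg_mul_O4]
    ring
  · refine le_trans (avg_mono_O4 N _ (fun m => 4 ^ N * wmod N (k * m + 0)) ?_) (O1 N k 0)
    intro m _
    rw [Complex.norm_real, Real.norm_eq_abs]
    unfold vv
    rw [abs_of_nonneg (hw _), add_zero]
  · refine le_trans (avg_mono_O4 N _ (fun m => 4 ^ N * wmod N (0 + hi N k m)) ?_) (O2 N hN k hk hk2 0)
    intro m hm
    unfold uC
    rw [Complex.norm_real, Real.norm_eq_abs, huu m hm, zero_add, abs_of_nonneg (hw _)]

end Pool.Agent.C52.RO4
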