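import Pool.Agent.Lib.MP_c52340_c5.DefsS
import Pool.Agent.Lib.MP_c52340_c5.B2
import Pool.Agent.Lib.MP_c52340_c5.B7
import Pool.Agent.Lib.MP_c52340_c5.O3
import Pool.Agent.Lib.MP_c52340_c5.O4


set_option autoImplicit false

open Finset

open Pool.Agent.C52.RB2 (B2)
open Pool.Agent.C52.RB7 (B7)
open Pool.Agent.C52.RO3 (O3)
open Pool.Agent.C52.RO4 (O4)

namespace Pool.Agent.C52.RO5

/-- Row O5.  All matrix elements of at most `n` steps are bounded by `Bd N k n`.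
Recipe: O4 and induction on `j` (`‖Af‖ = 1`, `|ee| = 1`; values on `Lset N`), `(Xs+1)^j, (Ys+1)^j ≤ (Xs+Ys+2)^j`. -/
theorem O5 (N : ℕ) (hN : 2 ≤ N) (k : ℤ) (hk : 0 < k) (hk2 : 2 * k < 4 ^ N) (n : ℕ) :
    1 ≤ Bd N k n ∧
    (∀ j ≤ n, ∀ c : ℤ, ‖VL N k (((QL N k ((Fr N).erase 0)) ^ j) (Af N k c))‖ ≤ Bd N k n) ∧
    (∀ j ≤ n, ∀ c c' : ℤ, ‖bL N k c (((QL N k ((Fr N).erase 0)) ^ j) (Af N k c'))‖ ≤ Bd N k n) ∧
    (∀ j ≤ n, ∀ c : ℤ, ‖bL N k c (((QL N k ((Fr N).erase 0)) ^ j) (uC N k))‖ ≤ Bd N k n) := by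
  obtain ⟨s1, s2, s3, s4, hX, hY⟩ := O4 N hN k hk hk2
  obtain ⟨o1, -, -, -, -, -⟩ := O3 N hN k hk hk2
  set Q := QL N k ((Fr N).erase 0) with hQdef
  have hT : 1 ≤ Xs N k + Ys N k + 2 := by linarith
  have hee : ∀ x : ℝ, ‖ee x‖ = 1 := B7.2.1
  have hAf : ∀ c m, ‖Af N k c m‖ = 1 := fun c m => hee _
  -- sup norm of iterates
  have hsup : ∀ (c' : ℤ) (j : ℕ), ∀ m ∈ Lset N, ‖(Q ^ j) (Af N k c') m‖ ≤ (Xs N k + 1) ^ j := by
    intro c' j
    induction j with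
    | zero => intro m _; rw [pow_zero, pow_zero, Module.End.one_apply, hAf]
    | succ j ih =>
      intro m hm
      rw [pow_succ', Module.End.mul_apply, pow_succ, mul_comm]
      exact s1 _ _ (by positivity) ih m
  have hmean : ∀ j : ℕ, avg N (fun m => ‖(Q ^ j) (uC N k) m‖) ≤ (Ys N k + 1) ^ j * Ys N k := by
    intro j
    induction j with
    | zero => rw [pow_zero, pow_zero, Module.End.one_apply, one_mul]; exact s4
    | succ j ih =>
      rw [pow_succ', Module.End.mul_apply]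
      refine le_trans (s2 _) ?_
      calc (Ys N k + 1) * avg N (fun m => ‖(Q ^ j) (uC N k) m‖)
          ≤ (Ys N k + 1) * ((Ys N k + 1) ^ j * Ys N k) :=
            mul_le_mul_of_nonneg_left ih (by linarith)
        _ = (Ys N k + 1) ^ (j + 1) * Ys N k := by ring
  have hpX : ∀ j ≤ n, (Xs N k + 1) ^ j ≤ (Xs N k + Ys N k + 2) ^ n := by
    intro j hj
    calc (Xs N k + 1) ^ j ≤ (Xs N k + Ys N k + 2) ^ j :=
          pow_le_pow_left₀ (by linarith) (by linarith) _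
      _ ≤ (Xs N k + Ys N k + 2) ^ n := pow_le_pow_right₀ hT hj
  have hpY : ∀ j ≤ n, (Ys N k + 1) ^ j ≤ (Xs N k + Ys N k + 2) ^ n := by
    intro j hj
    calc (Ys N k + 1) ^ j ≤ (Xs N k + Ys N k + 2) ^ j :=
          pow_le_pow_left₀ (by linarith) (by linarith) _
      _ ≤ (Xs N k + Ys N k + 2) ^ n := pow_le_pow_right₀ hT hj
  have hBd : Bd N k n = (Xs N k + Ys N k + 2) ^ n * (Xs N k + Ys N k + 2) ^ 2 := by
    unfold Bd; rw [pow_add]
  have hTn : 1 ≤ (Xs N k + Ys N k + 2) ^ n := one_le_pow₀ hT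
  have hT2 : 1 ≤ (Xs N k + Ys N k + 2) ^ 2 := one_le_pow₀ hT
  have hTX : Xs N k ≤ (Xs N k + Ys N k + 2) ^ 2 := by nlinarith
  have hTY : Ys N k ≤ (Xs N k + Ys N k + 2) ^ 2 := by nlinarith
  -- norms of functionals
  have hcard : ((Lset N).card : ℝ) = 3 ^ N := by
    rw [B2.2.1 N]; push_cast; rfl
  have h3 : (0 : ℝ) < 3 ^ N := by positivity
  have hbL : ∀ (c : ℤ) (f : ℤ → ℂ), ‖bL N k c f‖ ≤ avg N (fun m => ‖f m‖) := by
    intro c f
    rw [o1]
    unfold avgC avg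
    rw [norm_div, norm_pow]
    have : ‖(3 : ℂ)‖ = 3 := by simp
    rw [this]
    apply div_le_div_of_nonneg_right _ h3.le
    refine le_trans (norm_sum_le _ _) (sum_le_sum fun m _ => ?_)
    rw [norm_mul, hee, one_mul]
  have havg_le : ∀ (f : ℤ → ℝ) (a : ℝ), (∀ m ∈ Lset N, f m ≤ a) → avg N f ≤ a := by
    intro f a h
    unfold avg
    rw [div_le_iff₀ h3]
    calc ∑ m ∈ Lset N, f m ≤ ∑ _m ∈ Lset N, a := sum_le_sum h
      _ = a * 3 ^ N := by rw [sum_const, nsmul_eq_mul, hcard, mul_comm]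
  have hVL : ∀ (f : ℤ → ℂ) (a : ℝ), 0 ≤ a → (∀ m ∈ Lset N, ‖f m‖ ≤ a) → ‖VL N k f‖ ≤ Xs N k * a := by
    intro f a ha h
    have e : VL N k f = avgC N (fun m => ((vv N k m : ℝ) : ℂ) * f m) := by
      unfold VL avgC
      rw [LinearMap.sum_apply, sum_div]
      refine sum_congr rfl fun m _ => ?_
      rw [LinearMap.smul_apply, LinearMap.proj_apply, smul_eq_mul]
      ring
    rw [e]
    unfold avgC
    rw [norm_div, norm_pow]
    have : ‖(3 : ℂ)‖ = 3 := by simp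
    rw [this]
    have h2 : ‖∑ m ∈ Lset N, ((vv N k m : ℝ) : ℂ) * f m‖ ≤
        (∑ m ∈ Lset N, ‖((vv N k m : ℝ) : ℂ)‖) * a := by
      rw [sum_mul]
      refine le_trans (norm_sum_le _ _) (sum_le_sum fun m hm => ?_)
      rw [norm_mul]
      exact mul_le_mul_of_nonneg_left (h m hm) (norm_nonneg _)
    calc ‖∑ m ∈ Lset N, ((vv N k m : ℝ) : ℂ) * f m‖ / 3 ^ N
        ≤ ((∑ m ∈ Lset N, ‖((vv N k m : ℝ) : ℂ)‖) * a) / 3 ^ N :=
          div_le_div_of_nonneg_right h2 h3.le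
      _ = avg N (fun m => ‖((vv N k m : ℝ) : ℂ)‖) * a := by unfold avg; ring
      _ ≤ Xs N k * a := mul_le_mul_of_nonneg_right s3 ha
  refine ⟨?_, ?_, ?_, ?_⟩
  · rw [hBd]; nlinarith
  · intro j hj c
    have h := hVL _ _ (by positivity) (hsup c j)
    refine le_trans h ?_
    rw [hBd]
    calc Xs N k * (Xs N k + 1) ^ j ≤ (Xs N k + Ys N k + 2) ^ 2 * (Xs N k + Ys N k + 2) ^ n :=
          mul_le_mul hTX (hpX j hj) (by positivity) (by positivity)
      _ = _ := by ring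
  · intro j hj c c'
    have h := le_trans (hbL c _) (havg_le _ _ (hsup c' j))
    refine le_trans h (le_trans (hpX j hj) ?_)
    rw [hBd]
    nlinarith
  · intro j hj c
    have h := le_trans (hbL c _) (hmean j)
    refine le_trans h ?_
    rw [hBd]
    exact mul_le_mul (hpY j hj) hTY hY (by positivity)

end Pool.Agent.C52.RO5
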