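import Pool.Agent.Lib.MP_c52340_c5.DefsS
import Pool.Agent.Lib.MP_c52340_c5.B2
import Pool.Agent.Lib.MP_c52340_c5.W1


set_option autoImplicit false

open Finset

open Pool.Agent.C52.RB2 (B2)
open Pool.Agent.C52.RW1 (W1)

namespace Pool.Agent.C52.RO6

private theorem ee_norm (x : ℝ) : ‖ee x‖ = 1 := by
  unfold ee
  rw [show (2 * Real.pi * x * Complex.I : ℂ) = ((2 * Real.pi * x : ℝ) : ℂ) * Complex.I by
    push_cast; ring]
  exact Complex.norm_exp_ofReal_mul_I _

private theorem ee_neg_conj (x : ℝ) : ee (-x) = (starRingEnd ℂ) (ee x) := by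
  unfold ee
  rw [← Complex.exp_conj]
  congr 1
  simp only [map_mul, Complex.conj_I, Complex.conj_ofReal, Complex.ofReal_neg]
  rw [show (starRingEnd ℂ) (2 : ℂ) = 2 from Complex.conj_ofNat 2]
  ring

private theorem bL_apply (N : ℕ) (k c : ℤ) (f : ℤ → ℂ) :
    bL N k c f = ∑ m ∈ Lset N, (ee (-((c : ℝ) * (k * m : ℤ) / 4 ^ N)) / 3 ^ N) * f m := by
  unfold bL
  rw [LinearMap.sum_apply]
  apply Finset.sum_congr rfl
  intro m _
  simp [LinearMap.smul_apply, smul_eq_mul]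

/-- Row O6.  Overlaps.
Recipe: O3 (first part): `bL N k c (Af N k c') = conj (Wov N k c c')`, W1; modulus at most `1`. -/
theorem O6 (N : ℕ) (hN : 2 ≤ N) (k : ℤ) (hk : Odd k) (c c' : ℤ) (hc' : c' ∈ Fr N) :
    ‖bL N k c (Af N k c')‖ ≤ ov N k c c' ∧ ‖bL N k c (Af N k c')‖ ≤ 1 ∧ 0 ≤ ov N k c c' := by
  have hconj : bL N k c (Af N k c') = (starRingEnd ℂ) (Wov N k c c') := by
    rw [bL_apply]
    unfold Wov avgC
    rw [map_div₀, map_sum, Finset.sum_div]
    apply Finset.sum_congr rfl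
    intro m _
    unfold Af
    rw [ee_neg_conj, ee_neg_conj, map_mul]
    rw [map_pow, show (starRingEnd ℂ) (3 : ℂ) = 3 from Complex.conj_ofNat 3]
    ring
  have h1 : ‖bL N k c (Af N k c')‖ ≤ ov N k c c' := by
    rw [hconj, RCLike.norm_conj]
    have := W1 N (by omega) k c c' hk hc'
    unfold ov
    exact this
  have h3 : 0 ≤ ov N k c c' := le_trans (norm_nonneg _) h1
  refine ⟨h1, ?_, h3⟩
  rw [bL_apply]
  have hcard : (Lset N).card = 3 ^ N := B2.2.1 N
  calc ‖∑ m ∈ Lset N, (ee (-((c : ℝ) * (k * m : ℤ) / 4 ^ N)) / 3 ^ N) * Af N k c' m‖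
      ≤ ∑ m ∈ Lset N, ‖(ee (-((c : ℝ) * (k * m : ℤ) / 4 ^ N)) / 3 ^ N) * Af N k c' m‖ :=
        norm_sum_le _ _
    _ = ∑ m ∈ Lset N, (1 / 3 ^ N : ℝ) := by
        apply Finset.sum_congr rfl
        intro m _
        unfold Af
        rw [norm_mul, norm_div, ee_norm, ee_norm, norm_pow, mul_one]
        norm_num
    _ = 1 := by
        rw [Finset.sum_const, hcard, nsmul_eq_mul]
        push_cast
        field_simp

end Pool.Agent.C52.RO6
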