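import Pool.Agent.Lib.MP_c52340_c5.DefsS


set_option autoImplicit false

open Finset


namespace Pool.Agent.C52.RO7

/-- Row O7.  Matrix elements in terms of `zL`, `zR` (abstract form).
Recipe: `Q^(j+1) x = Q^j (Q x)`, expand `Q (A c')`; resp. `Q^(j+1) x = Q (Q^j x)`; for `j = 0` expand `V`, resp. `u`. -/
theorem O7 {E : Type*} [AddCommGroup E] [Module ℂ E] (F : Finset ℤ) (w : ℤ → ℝ) (hw : ∀ c, 0 ≤ w c)
    (A : ℤ → E) (β : ℤ → E →ₗ[ℂ] ℂ) (V : E →ₗ[ℂ] ℂ) (u : E) (Q : E →ₗ[ℂ] E)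
    (hQ : ∀ x, Q x = ∑ c ∈ F.erase 0, ((w c : ℂ) * β c x) • A c)
    (hV : ∀ x, V x = ∑ c ∈ F, (w c : ℂ) * β c x)
    (hu : ∀ c ∈ F, β c u = ∑ c' ∈ F, (w c' : ℂ) * β c (A c'))
    (om : ℤ → ℤ → ℝ) (hom : ∀ c ∈ F, ∀ c' ∈ F, ‖β c (A c')‖ ≤ om c c')
    (B : ℝ) (hB : 1 ≤ B) (n : ℕ)
    (b1 : ∀ j ≤ n, ∀ c ∈ F, ‖V ((Q ^ j) (A c))‖ ≤ B)
    (b2 : ∀ j ≤ n, ∀ c ∈ F, ∀ c' ∈ F, ‖β c ((Q ^ j) (A c'))‖ ≤ B)
    (b3 : ∀ j ≤ n, ∀ c ∈ F, ‖β c ((Q ^ j) u)‖ ≤ B) :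
    (∀ j ≤ n, ∀ c' ∈ F, ‖V ((Q ^ j) (A c'))‖ ≤ B * ∑ c ∈ F, w c * om c c') ∧
    (∀ j ≤ n, 1 ≤ j → ∀ c ∈ F, ∀ c' ∈ F, ‖β c ((Q ^ j) (A c'))‖ ≤ B * ∑ c'' ∈ F, w c'' * om c c'') ∧
    (∀ j ≤ n, 1 ≤ j → ∀ c ∈ F, ∀ c' ∈ F, ‖β c ((Q ^ j) (A c'))‖ ≤ B * ∑ c'' ∈ F, w c'' * om c'' c') ∧
    (∀ j ≤ n, ∀ c ∈ F, ‖β c ((Q ^ j) u)‖ ≤ B * ∑ c'' ∈ F, w c'' * om c c'') := by
  have hB0 : 0 ≤ B := by linarith
  have hom0 : ∀ c ∈ F, ∀ c' ∈ F, 0 ≤ om c c' := fun c hc c' hc' =>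
    le_trans (norm_nonneg _) (hom c hc c' hc')
  have hnw : ∀ c, ‖(w c : ℂ)‖ = w c := fun c => by
    rw [Complex.norm_real, Real.norm_of_nonneg (hw c)]
  have key : ∀ (x : ℤ → ℂ) (y : ℤ → ℂ) (o : ℤ → ℝ), (∀ c ∈ F, ‖x c‖ ≤ o c) → (∀ c ∈ F, 0 ≤ o c) →
      (∀ c ∈ F, ‖y c‖ ≤ B) →
      ‖∑ c ∈ F.erase 0, (w c : ℂ) * x c * y c‖ ≤ B * ∑ c ∈ F, w c * o c := by
    intro x y o hx ho hy
    calc ‖∑ c ∈ F.erase 0, (w c : ℂ) * x c * y c‖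
        ≤ ∑ c ∈ F.erase 0, ‖(w c : ℂ) * x c * y c‖ := norm_sum_le _ _
      _ ≤ ∑ c ∈ F.erase 0, (w c * o c) * B := by
          refine sum_le_sum fun c hc => ?_
          have hc' := mem_of_mem_erase hc
          rw [norm_mul, norm_mul, hnw]
          apply mul_le_mul (mul_le_mul_of_nonneg_left (hx c hc') (hw c)) (hy c hc') (norm_nonneg _)
          exact mul_nonneg (hw c) (ho c hc')
      _ ≤ ∑ c ∈ F, (w c * o c) * B := sum_le_sum_of_subset_of_nonneg (erase_subset _ _)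
          (fun c hc _ => mul_nonneg (mul_nonneg (hw c) (ho c hc)) hB0)
      _ = B * ∑ c ∈ F, w c * o c := by rw [← sum_mul, mul_comm]
  have key1 : ∀ (x : ℤ → ℂ) (o : ℤ → ℝ), (∀ c ∈ F, ‖x c‖ ≤ o c) → (∀ c ∈ F, 0 ≤ o c) →
      ‖∑ c ∈ F, (w c : ℂ) * x c‖ ≤ B * ∑ c ∈ F, w c * o c := by
    intro x o hx ho
    have h1 : ‖∑ c ∈ F, (w c : ℂ) * x c‖ ≤ ∑ c ∈ F, w c * o c := by
      refine le_trans (norm_sum_le _ _) (sum_le_sum fun c hc => ?_)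
      rw [norm_mul, hnw]
      exact mul_le_mul_of_nonneg_left (hx c hc) (hw c)
    have h2 : 0 ≤ ∑ c ∈ F, w c * o c := sum_nonneg fun c hc => mul_nonneg (hw c) (ho c hc)
    nlinarith
  refine ⟨?_, ?_, ?_, ?_⟩
  · intro j hj c' hc'
    rcases j with _ | j
    · rw [pow_zero, Module.End.one_apply, hV]
      exact key1 _ _ (fun c hc => hom c hc c' hc') (fun c hc => hom0 c hc c' hc')
    · rw [pow_succ, Module.End.mul_apply, hQ, map_sum, map_sum]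
      have : ∑ c ∈ F.erase 0, V ((Q ^ j) (((w c : ℂ) * β c (A c')) • A c)) =
          ∑ c ∈ F.erase 0, (w c : ℂ) * β c (A c') * V ((Q ^ j) (A c)) := by
        refine sum_congr rfl fun c _ => ?_
        rw [map_smul, map_smul, smul_eq_mul]
      rw [this]
      exact key _ _ _ (fun c hc => hom c hc c' hc') (fun c hc => hom0 c hc c' hc')
        (fun c hc => b1 j (by omega) c hc)
  · intro j hj hj1 c hc c' hc'
    obtain ⟨j, rfl⟩ : ∃ j', j = j' + 1 := ⟨j - 1, by omega⟩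
    rw [pow_succ', Module.End.mul_apply, hQ, map_sum]
    have : ∑ c'' ∈ F.erase 0, β c (((w c'' : ℂ) * β c'' ((Q ^ j) (A c'))) • A c'') =
        ∑ c'' ∈ F.erase 0, (w c'' : ℂ) * β c (A c'') * β c'' ((Q ^ j) (A c')) := by
      refine sum_congr rfl fun c'' _ => ?_
      rw [map_smul, smul_eq_mul]; ring
    rw [this]
    exact key _ _ _ (fun c'' hc'' => hom c hc c'' hc'') (fun c'' hc'' => hom0 c hc c'' hc'')
      (fun c'' hc'' => b2 j (by omega) c'' hc'' c' hc')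
  · intro j hj hj1 c hc c' hc'
    obtain ⟨j, rfl⟩ : ∃ j', j = j' + 1 := ⟨j - 1, by omega⟩
    rw [pow_succ, Module.End.mul_apply, hQ, map_sum, map_sum]
    have : ∑ c'' ∈ F.erase 0, β c ((Q ^ j) (((w c'' : ℂ) * β c'' (A c')) • A c'')) =
        ∑ c'' ∈ F.erase 0, (w c'' : ℂ) * β c'' (A c') * β c ((Q ^ j) (A c'')) := by
      refine sum_congr rfl fun c'' _ => ?_
      rw [map_smul, map_smul, smul_eq_mul]
    rw [this]
    exact key _ _ _ (fun c'' hc'' => hom c'' hc'' c' hc') (fun c'' hc'' => hom0 c'' hc'' c' hc')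
      (fun c'' hc'' => b2 j (by omega) c hc c'' hc'')
  · intro j hj c hc
    rcases j with _ | j
    · rw [pow_zero, Module.End.one_apply, hu c hc]
      exact key1 _ _ (fun c'' hc'' => hom c hc c'' hc'') (fun c'' hc'' => hom0 c hc c'' hc'')
    · rw [pow_succ', Module.End.mul_apply, hQ, map_sum]
      have : ∑ c'' ∈ F.erase 0, β c (((w c'' : ℂ) * β c'' ((Q ^ j) u)) • A c'') =
          ∑ c'' ∈ F.erase 0, (w c'' : ℂ) * β c (A c'') * β c'' ((Q ^ j) u) := by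
        refine sum_congr rfl fun c'' _ => ?_
        rw [map_smul, smul_eq_mul]; ring
      rw [this]
      exact key _ _ _ (fun c'' hc'' => hom c hc c'' hc'') (fun c'' hc'' => hom0 c hc c'' hc'')
        (fun c'' hc'' => b3 j (by omega) c'' hc'')

end Pool.Agent.C52.RO7
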