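import Pool.Agent.Lib.MP_c52340_c5.DefsS


set_option autoImplicit false

open Finset


namespace Pool.Agent.C52.RO8

/-- Row O8.  The word lemma (abstract form).
Recipe.  Call `x` good with constant `b` up to `J` if `‖β c (Q^j x)‖ ≤ b (min 1 (zr c) + ε₂)` for all `j ≤ J`, `c ∈ Θ`.  `u` is good with `B` up to `n`.  If `x` is good then `Q x`
is good up to `J - 1` with the same `b`, and `Qs x` is good up to `J` with the constant `(2 B + 2) b`: expand `β c (Q^j (Qs x)) = ∑_{c' ∈ Θ} w c' β c' x β c (Q^j (A c'))`; `c' ∈ Θ₂`: `≤ ∑ w c' 2 b B ζ ≤ 2 b B ε₂`;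
`c' ∉ Θ₂`, `j ≥ 1`: `≤ b B min 1 (zr c) ∑ w c' (zr c' + ε₂) ≤ 2 b B min 1 (zr c)`; `c' ∉ Θ₂`, `j = 0`: at most `2 b ∑ w c' ‖β c (A c')‖ ≤ 2 b zr c` and at most `b ∑ w c' (zr c' + ε₂) ≤ 2 b`.
So `x_i = (Q - Qs)^(n-1-i) u` is good with `B (2 B + 3)^(n-1-i)` (up to `i + 1`).  Telescoping: `Q^n - (Q-Qs)^n = ∑_{i<n} Q^i Qs (Q-Qs)^(n-1-i)` and
`V (Q^i (Qs x_i)) = ∑_{c ∈ Θ} w c β c x_i V (Q^i (A c))`: `Θ₂`: `≤ 2 b B ε₂`, the rest `≤ b B (ε₁ + ε₃)`. -/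
theorem O8 {E : Type*} [AddCommGroup E] [Module ℂ E] (Θ Θ₂ : Finset ℤ) (h2 : Θ₂ ⊆ Θ) (w : ℤ → ℝ)
    (hw : ∀ c, 0 ≤ w c) (A : ℤ → E) (β : ℤ → E →ₗ[ℂ] ℂ) (V : E →ₗ[ℂ] ℂ) (u : E) (Q Qs : E →ₗ[ℂ] E)
    (hQs : ∀ x, Qs x = ∑ c ∈ Θ, ((w c : ℂ) * β c x) • A c)
    (zr : ℤ → ℝ) (hzr : ∀ c, 0 ≤ zr c) (B ζ ε₁ ε₂ ε₃ : ℝ) (hB : 1 ≤ B) (hζ : 0 ≤ ζ) (n : ℕ)
    (h0 : ∀ c ∈ Θ, ∀ c' ∈ Θ, ‖β c (A c')‖ ≤ 1)
    (h0' : ∀ c ∈ Θ, ∑ c' ∈ Θ, w c' * ‖β c (A c')‖ ≤ zr c)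
    (h1 : ∀ j ≤ n, 1 ≤ j → ∀ c ∈ Θ, ∀ c' ∈ Θ, ‖β c ((Q ^ j) (A c'))‖ ≤ B * min 1 (zr c))
    (h3 : ∀ j ≤ n, ∀ c ∈ Θ, ∀ c' ∈ Θ₂, ‖β c ((Q ^ j) (A c'))‖ ≤ B * ζ)
    (h6 : ∀ j ≤ n, ∀ c ∈ Θ, ‖V ((Q ^ j) (A c))‖ ≤ B)
    (h6' : ∀ j ≤ n, ∀ c ∈ Θ₂, ‖V ((Q ^ j) (A c))‖ ≤ B * ζ)
    (h7 : ∀ j ≤ n, ∀ c ∈ Θ, ‖β c ((Q ^ j) u)‖ ≤ B * min 1 (zr c))
    (e2 : ∑ c ∈ Θ₂, w c * ζ ≤ ε₂) (e2' : ε₂ ≤ 1) (e1 : ∑ c ∈ Θ \ Θ₂, w c * zr c ≤ ε₁) (e1' : ε₁ ≤ 1)
    (e3 : ∑ c ∈ Θ, w c * ε₂ ≤ ε₃) (e3' : ε₃ ≤ 1) :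
    ‖V ((Q ^ n) u) - V (((Q - Qs) ^ n) u)‖ ≤ n * (2 * B + 3) ^ n * B ^ 2 * (ε₁ + 2 * ε₂ + ε₃) := by
  have hB0 : 0 ≤ B := by linarith
  have hε2 : 0 ≤ ε₂ := le_trans (Finset.sum_nonneg (fun c _ => mul_nonneg (hw c) hζ)) e2
  have hε1 : 0 ≤ ε₁ := le_trans (Finset.sum_nonneg (fun c _ => mul_nonneg (hw c) (hzr c))) e1
  have hε3 : 0 ≤ ε₃ := le_trans (Finset.sum_nonneg (fun c _ => mul_nonneg (hw c) hε2)) e3
  have hμ0 : ∀ c, 0 ≤ min 1 (zr c) := fun c => le_min zero_le_one (hzr c)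
  have hμ1 : ∀ c, min 1 (zr c) ≤ 1 := fun c => min_le_left _ _
  have hμz : ∀ c, min 1 (zr c) ≤ zr c := fun c => min_le_right _ _
  -- expansion
  have hexp : ∀ (L : E →ₗ[ℂ] ℂ) (x : E), ‖L (Qs x)‖ ≤
      ∑ c' ∈ Θ₂, w c' * ‖β c' x‖ * ‖L (A c')‖ + ∑ c' ∈ Θ \ Θ₂, w c' * ‖β c' x‖ * ‖L (A c')‖ := by
    intro L x
    have h : L (Qs x) = ∑ c' ∈ Θ, ((w c' : ℂ) * β c' x) * L (A c') := by
      rw [hQs, map_sum]
      apply Finset.sum_congr rfl
      intro c' _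
      rw [map_smul, smul_eq_mul]
    have h' : ∑ c' ∈ Θ₂, w c' * ‖β c' x‖ * ‖L (A c')‖ + ∑ c' ∈ Θ \ Θ₂, w c' * ‖β c' x‖ * ‖L (A c')‖ =
        ∑ c' ∈ Θ, w c' * ‖β c' x‖ * ‖L (A c')‖ := by
      rw [add_comm]
      exact Finset.sum_sdiff h2
    rw [h, h']
    refine (norm_sum_le _ _).trans (le_of_eq ?_)
    apply Finset.sum_congr rfl
    intro c' _
    rw [norm_mul, norm_mul, Complex.norm_real, Real.norm_of_nonneg (hw c')]
  -- the part in `Θ₂`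
  have hpart2 : ∀ (L : E →ₗ[ℂ] ℂ) (x : E) (b : ℝ), 0 ≤ b →
      (∀ c ∈ Θ, ‖β c x‖ ≤ b * (min 1 (zr c) + ε₂)) → (∀ c' ∈ Θ₂, ‖L (A c')‖ ≤ B * ζ) →
      ∑ c' ∈ Θ₂, w c' * ‖β c' x‖ * ‖L (A c')‖ ≤ 2 * b * B * ε₂ := by
    intro L x b hb hx hL
    calc ∑ c' ∈ Θ₂, w c' * ‖β c' x‖ * ‖L (A c')‖ ≤ ∑ c' ∈ Θ₂, (2 * b * B) * (w c' * ζ) := by
          apply Finset.sum_le_sum
          intro c' hc'
          have h4 : ‖β c' x‖ ≤ 2 * b := by
            refine (hx c' (h2 hc')).trans ?_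
            have := hμ1 c'
            nlinarith
          calc w c' * ‖β c' x‖ * ‖L (A c')‖ ≤ w c' * (2 * b) * (B * ζ) := by
                apply mul_le_mul _ (hL c' hc') (norm_nonneg _) (mul_nonneg (hw c') (by linarith))
                exact mul_le_mul_of_nonneg_left h4 (hw c')
            _ = (2 * b * B) * (w c' * ζ) := by ring
      _ = (2 * b * B) * ∑ c' ∈ Θ₂, w c' * ζ := by rw [Finset.mul_sum]
      _ ≤ (2 * b * B) * ε₂ := mul_le_mul_of_nonneg_left e2 (by positivity)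
      _ = 2 * b * B * ε₂ := by ring
  -- the other part
  have hpart1 : ∀ (L : E →ₗ[ℂ] ℂ) (x : E) (b a : ℝ), 0 ≤ b → 0 ≤ a →
      (∀ c ∈ Θ, ‖β c x‖ ≤ b * (min 1 (zr c) + ε₂)) → (∀ c' ∈ Θ, ‖L (A c')‖ ≤ a) →
      ∑ c' ∈ Θ \ Θ₂, w c' * ‖β c' x‖ * ‖L (A c')‖ ≤ b * a * (ε₁ + ε₃) := by
    intro L x b a hb ha hx hL
    have hsub : Θ \ Θ₂ ⊆ Θ := Finset.sdiff_subset
    calc ∑ c' ∈ Θ \ Θ₂, w c' * ‖β c' x‖ * ‖L (A c')‖
        ≤ ∑ c' ∈ Θ \ Θ₂, (b * a) * (w c' * zr c' + w c' * ε₂) := by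
          apply Finset.sum_le_sum
          intro c' hc'
          have h4 : ‖β c' x‖ ≤ b * (zr c' + ε₂) := by
            refine (hx c' (hsub hc')).trans ?_
            apply mul_le_mul_of_nonneg_left _ hb
            linarith [hμz c']
          calc w c' * ‖β c' x‖ * ‖L (A c')‖ ≤ w c' * (b * (zr c' + ε₂)) * a := by
                apply mul_le_mul _ (hL c' (hsub hc')) (norm_nonneg _)
                  (mul_nonneg (hw c') (mul_nonneg hb (add_nonneg (hzr c') hε2)))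
                exact mul_le_mul_of_nonneg_left h4 (hw c')
            _ = (b * a) * (w c' * zr c' + w c' * ε₂) := by ring
      _ = (b * a) * (∑ c' ∈ Θ \ Θ₂, w c' * zr c' + ∑ c' ∈ Θ \ Θ₂, w c' * ε₂) := by
          rw [← Finset.sum_add_distrib, Finset.mul_sum]
      _ ≤ (b * a) * (ε₁ + ε₃) := by
          apply mul_le_mul_of_nonneg_left _ (mul_nonneg hb ha)
          apply add_le_add e1
          refine le_trans ?_ e3
          exact Finset.sum_le_sum_of_subset_of_nonneg hsub (fun c _ _ => mul_nonneg (hw c) hε2)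
      _ = b * a * (ε₁ + ε₃) := by ring
  -- one step
  have hstep : ∀ (x : E) (b : ℝ) (J : ℕ), 0 ≤ b → J ≤ n →
      (∀ j ≤ J, ∀ c ∈ Θ, ‖β c ((Q ^ j) x)‖ ≤ b * (min 1 (zr c) + ε₂)) →
      (∀ j ≤ J, ∀ c ∈ Θ, ‖β c ((Q ^ j) (Qs x))‖ ≤ ((2 * B + 2) * b) * (min 1 (zr c) + ε₂)) := by
    intro x b J hb hJ hx j hj c hc
    have hx0 : ∀ c ∈ Θ, ‖β c x‖ ≤ b * (min 1 (zr c) + ε₂) := by
      intro c hc
      have := hx 0 (Nat.zero_le _) c hc
      simpa using this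
    have hE := hexp ((β c).comp (Q ^ j)) x
    have hP2 := hpart2 ((β c).comp (Q ^ j)) x b hb hx0 (fun c' hc' => h3 j (hj.trans hJ) c hc c' hc')
    have hμc := hμ0 c
    have hμc1 := hμ1 c
    have hrest : ∑ c' ∈ Θ \ Θ₂, w c' * ‖β c' x‖ * ‖((β c).comp (Q ^ j)) (A c')‖ ≤
        2 * b * B * min 1 (zr c) := by
      rcases Nat.eq_zero_or_pos j with hj0 | hjpos
      · subst hj0
        have hr1 : ∑ c' ∈ Θ \ Θ₂, w c' * ‖β c' x‖ * ‖((β c).comp (Q ^ 0)) (A c')‖ ≤ 2 * b * 1 := by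
          refine (hpart1 ((β c).comp (Q ^ 0)) x b 1 hb zero_le_one hx0 ?_).trans ?_
          · intro c' hc'
            have := h0 c hc c' hc'
            simpa using this
          · nlinarith
        have hr2 : ∑ c' ∈ Θ \ Θ₂, w c' * ‖β c' x‖ * ‖((β c).comp (Q ^ 0)) (A c')‖ ≤ 2 * b * zr c := by
          calc ∑ c' ∈ Θ \ Θ₂, w c' * ‖β c' x‖ * ‖((β c).comp (Q ^ 0)) (A c')‖
              ≤ ∑ c' ∈ Θ \ Θ₂, (2 * b) * (w c' * ‖β c (A c')‖) := by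
                apply Finset.sum_le_sum
                intro c' hc'
                have hc'' : c' ∈ Θ := (Finset.mem_sdiff.mp hc').1
                have h4 : ‖β c' x‖ ≤ 2 * b := by
                  refine (hx0 c' hc'').trans ?_
                  have := hμ1 c'
                  nlinarith
                have h5 : ((β c).comp (Q ^ 0)) (A c') = β c (A c') := by simp
                rw [h5]
                calc w c' * ‖β c' x‖ * ‖β c (A c')‖ ≤ w c' * (2 * b) * ‖β c (A c')‖ := by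
                      apply mul_le_mul_of_nonneg_right _ (norm_nonneg _)
                      exact mul_le_mul_of_nonneg_left h4 (hw c')
                  _ = (2 * b) * (w c' * ‖β c (A c')‖) := by ring
            _ = (2 * b) * ∑ c' ∈ Θ \ Θ₂, w c' * ‖β c (A c')‖ := by rw [Finset.mul_sum]
            _ ≤ (2 * b) * ∑ c' ∈ Θ, w c' * ‖β c (A c')‖ := by
                apply mul_le_mul_of_nonneg_left _ (by linarith)
                exact Finset.sum_le_sum_of_subset_of_nonneg Finset.sdiff_subset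
                  (fun c' _ _ => mul_nonneg (hw c') (norm_nonneg _))
            _ ≤ (2 * b) * zr c := mul_le_mul_of_nonneg_left (h0' c hc) (by linarith)
        have hr3 : ∑ c' ∈ Θ \ Θ₂, w c' * ‖β c' x‖ * ‖((β c).comp (Q ^ 0)) (A c')‖ ≤
            2 * b * min 1 (zr c) := by
          rcases min_choice 1 (zr c) with hm | hm
          · rw [hm]; exact hr1
          · rw [hm]; exact hr2
        refine hr3.trans ?_
        have : 0 ≤ 2 * b * min 1 (zr c) := by positivity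
        nlinarith
      · refine (hpart1 ((β c).comp (Q ^ j)) x b (B * min 1 (zr c)) hb (mul_nonneg hB0 hμc) hx0 ?_).trans ?_
        · intro c' hc'
          exact h1 j (hj.trans hJ) hjpos c hc c' hc'
        · have h5 : 0 ≤ b * (B * min 1 (zr c)) := mul_nonneg hb (mul_nonneg hB0 hμc)
          nlinarith
    have hEq : ((β c).comp (Q ^ j)) (Qs x) = β c ((Q ^ j) (Qs x)) := rfl
    rw [hEq] at hE
    refine hE.trans ((add_le_add hP2 hrest).trans ?_)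
    have h6 : 0 ≤ b * (min 1 (zr c) + ε₂) := mul_nonneg hb (add_nonneg hμc hε2)
    nlinarith
  -- good vectors
  have hgood : ∀ i ≤ n, ∀ j ≤ n - i, ∀ c ∈ Θ,
      ‖β c ((Q ^ j) (((Q - Qs) ^ i) u))‖ ≤ (B * (2 * B + 3) ^ i) * (min 1 (zr c) + ε₂) := by
    intro i
    induction i with
    | zero =>
      intro _ j hj c hc
      rw [pow_zero, pow_zero, mul_one, Module.End.one_apply]
      refine (h7 j (by omega) c hc).trans ?_
      apply mul_le_mul_of_nonneg_left _ hB0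
      linarith
    | succ i ih =>
      intro hi j hj c hc
      have ih' := ih (by omega)
      have hb : 0 ≤ B * (2 * B + 3) ^ i := by positivity
      have hs := hstep (((Q - Qs) ^ i) u) (B * (2 * B + 3) ^ i) (n - i) hb (by omega) ih' j (by omega) c hc
      have hq := ih' (j + 1) (by omega) c hc
      have hdec : (Q ^ j) (((Q - Qs) ^ (i + 1)) u) =
          (Q ^ (j + 1)) (((Q - Qs) ^ i) u) - (Q ^ j) (Qs (((Q - Qs) ^ i) u)) := by
        rw [pow_succ' (Q - Qs) i, Module.End.mul_apply, LinearMap.sub_apply, map_sub, pow_succ Q j,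
          Module.End.mul_apply]
      rw [hdec, map_sub]
      refine (norm_sub_le _ _).trans ((add_le_add hq hs).trans (le_of_eq ?_))
      ring
  -- telescoping
  have htel : ∀ m ≤ n, ‖V ((Q ^ n) u) - V ((Q ^ (n - m)) (((Q - Qs) ^ m) u))‖ ≤
      m * (2 * B + 3) ^ n * B ^ 2 * (ε₁ + 2 * ε₂ + ε₃) := by
    intro m
    induction m with
    | zero =>
      intro _
      simp
    | succ m ih =>
      intro hm
      have ih' := ih (by omega)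
      have hb : 0 ≤ B * (2 * B + 3) ^ m := by positivity
      have hx0 : ∀ c ∈ Θ, ‖β c (((Q - Qs) ^ m) u)‖ ≤ (B * (2 * B + 3) ^ m) * (min 1 (zr c) + ε₂) := by
        intro c hc
        have := hgood m (by omega) 0 (Nat.zero_le _) c hc
        simpa using this
      have hle : n - (m + 1) ≤ n := by omega
      have hE := hexp (V.comp (Q ^ (n - (m + 1)))) (((Q - Qs) ^ m) u)
      have hP2 := hpart2 (V.comp (Q ^ (n - (m + 1)))) (((Q - Qs) ^ m) u) _ hb hx0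
        (fun c' hc' => h6' _ hle c' hc')
      have hP1 := hpart1 (V.comp (Q ^ (n - (m + 1)))) (((Q - Qs) ^ m) u) _ B hb hB0 hx0
        (fun c' hc' => h6 _ hle c' hc')
      have hEq : (V.comp (Q ^ (n - (m + 1)))) (Qs (((Q - Qs) ^ m) u)) =
          V ((Q ^ (n - (m + 1))) (Qs (((Q - Qs) ^ m) u))) := rfl
      rw [hEq] at hE
      have hone : ‖V ((Q ^ (n - (m + 1))) (Qs (((Q - Qs) ^ m) u)))‖ ≤
          (2 * B + 3) ^ n * B ^ 2 * (ε₁ + 2 * ε₂ + ε₃) := by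
        refine hE.trans ((add_le_add hP2 hP1).trans ?_)
        have hpow : (2 * B + 3) ^ m ≤ (2 * B + 3) ^ n := pow_le_pow_right₀ (by linarith) (by omega)
        calc 2 * (B * (2 * B + 3) ^ m) * B * ε₂ + B * (2 * B + 3) ^ m * B * (ε₁ + ε₃)
            = (2 * B + 3) ^ m * (B ^ 2 * (ε₁ + 2 * ε₂ + ε₃)) := by ring
          _ ≤ (2 * B + 3) ^ n * (B ^ 2 * (ε₁ + 2 * ε₂ + ε₃)) :=
              mul_le_mul_of_nonneg_right hpow (by positivity)
          _ = (2 * B + 3) ^ n * B ^ 2 * (ε₁ + 2 * ε₂ + ε₃) := by ring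
      have hdec : V ((Q ^ (n - m)) (((Q - Qs) ^ m) u)) =
          V ((Q ^ (n - (m + 1))) (((Q - Qs) ^ (m + 1)) u)) +
            V ((Q ^ (n - (m + 1))) (Qs (((Q - Qs) ^ m) u))) := by
        have h8 : n - m = (n - (m + 1)) + 1 := by omega
        rw [h8, pow_succ Q, Module.End.mul_apply, pow_succ' (Q - Qs) m, Module.End.mul_apply,
          LinearMap.sub_apply, map_sub, map_sub]
        ring
      have hsplit : V ((Q ^ n) u) - V ((Q ^ (n - (m + 1))) (((Q - Qs) ^ (m + 1)) u)) =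
          (V ((Q ^ n) u) - V ((Q ^ (n - m)) (((Q - Qs) ^ m) u))) +
            V ((Q ^ (n - (m + 1))) (Qs (((Q - Qs) ^ m) u))) := by
        rw [hdec]; ring
      rw [hsplit]
      refine (norm_add_le _ _).trans ((add_le_add ih' hone).trans (le_of_eq ?_))
      push_cast
      ring
  have hfin := htel n le_rfl
  rw [Nat.sub_self, pow_zero, Module.End.one_apply] at hfin
  exact hfin

end Pool.Agent.C52.RO8
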