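import Pool.Agent.Lib.MP_c52340_c5.DefsS
import Pool.Agent.Lib.MP_c52340_c5.B2
import Pool.Agent.Lib.MP_c52340_c5.B4
import Pool.Agent.Lib.MP_c52340_c5.N4
import Pool.Agent.Lib.MP_c52340_c5.O3
import Pool.Agent.Lib.MP_c52340_c5.O4


set_option autoImplicit false

open Finset

open Pool.Agent.C52.RB2 (B2)
open Pool.Agent.C52.RB4 (B4)
open Pool.Agent.C52.RN4 (N4)
open Pool.Agent.C52.RO3 (O3)
open Pool.Agent.C52.RO4 (O4)

namespace Pool.Agent.C52.RO9

private theorem o9_wmod (N : ℕ) (z : ℤ) : 0 ≤ wmod N z ∧ wmod N z ≤ (1 / 2) ^ N := by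
  obtain ⟨b1, _, _, _, _, b6, _⟩ := B4
  constructor
  · unfold wmod
    apply Finset.sum_nonneg
    intro y _
    split_ifs
    · exact b1 (1 / 4) (by norm_num) (by norm_num) N y
    · exact le_refl _
  · unfold wmod
    by_cases h : ∃ y ∈ Lset N, (4 : ℤ) ^ N ∣ z - y
    · obtain ⟨y₀, hy₀, hd⟩ := h
      rw [Finset.sum_eq_single y₀]
      · rw [if_pos hd]
        exact b6 N y₀
      · intro y hy hne
        rw [if_neg]
        intro hd'
        have h1 := B2.1 N y hy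
        have h2 := B2.1 N y₀ hy₀
        have h3 : (4 : ℤ) ^ N ∣ y - y₀ := by
          have : y - y₀ = (z - y₀) - (z - y) := by ring
          rw [this]
          exact dvd_sub hd hd'
        have h4 : |y - y₀| < (4 : ℤ) ^ N := by
          have h5 : |y - y₀| ≤ |y| + |y₀| := abs_sub y y₀
          have h6 : (0 : ℤ) < 4 ^ N := by positivity
          linarith
        have h7 := Int.eq_zero_of_abs_lt_dvd h3 h4
        exact hne (by linarith)
      · intro hn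
        exact absurd hy₀ hn
    · rw [Finset.sum_eq_zero]
      · positivity
      · intro y hy
        rw [if_neg]
        intro hd
        exact h ⟨y, hy, hd⟩

private theorem o9_avg (N : ℕ) (f : ℤ → ℂ) (h : ∀ m, ‖f m‖ ≤ 2 ^ N) : nsqC N f ≤ 4 ^ N := by
  unfold nsqC
  rw [div_le_iff₀ (by positivity)]
  calc ∑ m ∈ Lset N, ‖f m‖ ^ 2 ≤ ∑ m ∈ Lset N, (4 : ℝ) ^ N := by
        apply Finset.sum_le_sum
        intro m _
        have h1 : ‖f m‖ ^ 2 ≤ ((2 : ℝ) ^ N) ^ 2 := pow_le_pow_left₀ (norm_nonneg _) (h m) 2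
        have h2 : ((2 : ℝ) ^ N) ^ 2 = 4 ^ N := by
          rw [← pow_mul, mul_comm, pow_mul]; norm_num
        rw [h2] at h1
        exact h1
    _ = 4 ^ N * 3 ^ N := by
        rw [Finset.sum_const, B2.2.1 N, nsmul_eq_mul]
        push_cast
        ring

private theorem o9_four (N : ℕ) : (4 : ℝ) ^ N * (1 / 2) ^ N = 2 ^ N := by
  rw [← mul_pow]; norm_num

private theorem o9_nsqC_nonneg (N : ℕ) (f : ℤ → ℂ) : 0 ≤ nsqC N f := by
  unfold nsqC
  positivity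

private theorem o9_VL (N : ℕ) (k : ℤ) (f : ℤ → ℂ) :
    ‖VL N k f‖ ^ 2 ≤ nsqC N (fun m => ((vv N k m : ℝ) : ℂ)) * nsqC N f := by
  have h3 : (0 : ℝ) < 3 ^ N := by positivity
  have e1 : VL N k f = ∑ m ∈ Lset N, (((vv N k m : ℝ) : ℂ) / 3 ^ N) * f m := by
    unfold VL
    rw [LinearMap.sum_apply]
    apply Finset.sum_congr rfl
    intro m _
    rw [LinearMap.smul_apply, LinearMap.proj_apply, smul_eq_mul]
  have e2 : ‖VL N k f‖ ≤ (∑ m ∈ Lset N, ‖((vv N k m : ℝ) : ℂ)‖ * ‖f m‖) / 3 ^ N := by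
    rw [e1]
    refine (norm_sum_le _ _).trans ?_
    rw [Finset.sum_div]
    apply Finset.sum_le_sum
    intro m _
    rw [norm_mul, norm_div, norm_pow]
    have : ‖(3 : ℂ)‖ = 3 := by simp
    rw [this]
    apply le_of_eq
    ring
  have e3 : 0 ≤ (∑ m ∈ Lset N, ‖((vv N k m : ℝ) : ℂ)‖ * ‖f m‖) / 3 ^ N := by positivity
  calc ‖VL N k f‖ ^ 2 ≤ ((∑ m ∈ Lset N, ‖((vv N k m : ℝ) : ℂ)‖ * ‖f m‖) / 3 ^ N) ^ 2 :=
        pow_le_pow_left₀ (norm_nonneg _) e2 2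
    _ = (∑ m ∈ Lset N, ‖((vv N k m : ℝ) : ℂ)‖ * ‖f m‖) ^ 2 / (3 ^ N * 3 ^ N) := by
        rw [div_pow]; ring
    _ ≤ ((∑ m ∈ Lset N, ‖((vv N k m : ℝ) : ℂ)‖ ^ 2) * (∑ m ∈ Lset N, ‖f m‖ ^ 2)) /
          (3 ^ N * 3 ^ N) := by
        apply div_le_div_of_nonneg_right _ (by positivity)
        exact Finset.sum_mul_sq_le_sq_mul_sq _ _ _
    _ = nsqC N (fun m => ((vv N k m : ℝ) : ℂ)) * nsqC N f := by
        unfold nsqC
        rw [div_mul_div_comm]

private theorem o9_vv (N : ℕ) (k : ℤ) : nsqC N (fun m => ((vv N k m : ℝ) : ℂ)) ≤ 4 ^ N := by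
  apply o9_avg
  intro m
  obtain ⟨h1, h2⟩ := o9_wmod N (k * m)
  rw [Complex.norm_real, Real.norm_eq_abs]
  unfold vv
  rw [abs_of_nonneg (by positivity), ← o9_four]
  exact mul_le_mul_of_nonneg_left h2 (by positivity)

private theorem o9_uC (N : ℕ) (k : ℤ) : nsqC N (uC N k) ≤ 4 ^ N := by
  obtain ⟨b1, _, _, _, _, b6, _⟩ := B4
  apply o9_avg
  intro m
  unfold uC uu
  have h0 := b1 (1 / 4) (by norm_num) (by norm_num) N (hi N k m)
  have h1 := b6 N (hi N k m)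
  rw [Complex.norm_real, Real.norm_eq_abs, abs_of_nonneg (by positivity), ← o9_four]
  exact mul_le_mul_of_nonneg_left h1 (by positivity)

/-- Row O9.  The pure word: only unstructured frequencies.
Recipe: O3 (`QL = QT`), N4 with `B = η'^N`, iterate `n` times; `‖VL f‖² ≤ nsqC (vv) nsqC f`, `nsqC vv, nsqC uC ≤ 4^N` (as in Z7: `0 ≤ wmod ≤ (1/2)^N`, `wG ≤ (1/2)^N`);
`sqrt (Xs Ys) ≤ Xs Ys + 1`. -/
theorem O9 (N : ℕ) (hN : 2 ≤ N) (k : ℤ) (hk : 0 < k) (hk2 : 2 * k < 4 ^ N) (η η' : ℝ) (h0 : 0 < η') 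
    (h : ∀ x : ℝ, GG (1 / 4) N x ≤ η ^ N → GG (1 / 4) N x ≤ η' ^ N * GG pd N x) (n : ℕ) :
    ‖VL N k (((QL N k (Thr N η)) ^ n) (uC N k))‖ ≤ 4 ^ N * (η' ^ N * (Xs N k * Ys N k + 1)) ^ n := by
  obtain ⟨_, _, _, _, hX, hY⟩ := O4 N hN k hk hk2
  obtain ⟨_, hQ, _⟩ := O3 N hN k hk hk2
  have hXY : 0 ≤ Xs N k * Ys N k := mul_nonneg hX hY
  have ha : 0 ≤ η' ^ N * (Xs N k * Ys N k + 1) := by positivity
  have c1 : ∀ f : ℤ → ℂ, nsqC N (QL N k (Thr N η) f) ≤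
      (η' ^ N * (Xs N k * Ys N k + 1)) ^ 2 * nsqC N f := by
    intro f
    rw [hQ]
    refine (N4 N hN k hk hk2 (Thr N η) (Finset.filter_subset _ _) (η' ^ N) (by positivity) ?_ f).trans ?_
    · intro c hc
      exact h _ ((Finset.mem_filter.mp hc).2.2)
    · apply mul_le_mul_of_nonneg_right _ (o9_nsqC_nonneg N f)
      rw [mul_pow]
      apply mul_le_mul_of_nonneg_left _ (by positivity)
      nlinarith
  have c2 : ∀ (j : ℕ) (f : ℤ → ℂ), nsqC N (((QL N k (Thr N η)) ^ j) f) ≤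
      ((η' ^ N * (Xs N k * Ys N k + 1)) ^ j) ^ 2 * nsqC N f := by
    intro j
    induction j with
    | zero => intro f; simp
    | succ j ih =>
      intro f
      rw [pow_succ', Module.End.mul_apply]
      refine (c1 _).trans ?_
      calc (η' ^ N * (Xs N k * Ys N k + 1)) ^ 2 * nsqC N (((QL N k (Thr N η)) ^ j) f) ≤
            (η' ^ N * (Xs N k * Ys N k + 1)) ^ 2 *
              (((η' ^ N * (Xs N k * Ys N k + 1)) ^ j) ^ 2 * nsqC N f) :=
            mul_le_mul_of_nonneg_left (ih f) (by positivity)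
        _ = ((η' ^ N * (Xs N k * Ys N k + 1)) ^ (j + 1)) ^ 2 * nsqC N f := by ring
  have c3 : ‖VL N k (((QL N k (Thr N η)) ^ n) (uC N k))‖ ^ 2 ≤
      (4 ^ N * (η' ^ N * (Xs N k * Ys N k + 1)) ^ n) ^ 2 := by
    refine (o9_VL N k _).trans ?_
    calc nsqC N (fun m => ((vv N k m : ℝ) : ℂ)) * nsqC N (((QL N k (Thr N η)) ^ n) (uC N k)) ≤
          4 ^ N * (((η' ^ N * (Xs N k * Ys N k + 1)) ^ n) ^ 2 * 4 ^ N) := by
          apply mul_le_mul (o9_vv N k) _ (o9_nsqC_nonneg _ _) (by positivity)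
          refine (c2 n _).trans ?_
          exact mul_le_mul_of_nonneg_left (o9_uC N k) (by positivity)
      _ = (4 ^ N * (η' ^ N * (Xs N k * Ys N k + 1)) ^ n) ^ 2 := by ring
  exact (le_abs_self _).trans (abs_le_of_sq_le_sq c3 (by positivity))

end Pool.Agent.C52.RO9
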