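import Pool.Agent.Lib.MP_c52340_c5.Defs


set_option autoImplicit false

open Finset


namespace Pool.Agent.C52.RR1

private theorem R1_sinc (a : ℝ) (ha : 0 < a) (x : ℝ) :
    sc a x = (a * Real.sinc (Real.pi * a * x)) ^ 2 := by
  unfold sc
  by_cases hx : x = 0
  · rw [if_pos hx, hx, mul_zero, Real.sinc_zero, mul_one]
  · have h1 : Real.pi * a * x ≠ 0 := by
      have := Real.pi_pos
      positivity
    rw [if_neg hx, Real.sinc_of_ne_zero h1]
    have hpi := Real.pi_pos.ne'
    have ha' := ha.ne'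
    congr 1
    field_simp

private theorem R1_cont (a : ℝ) (ha : 0 < a) : Continuous (sc a) := by
  have h : sc a = fun x => (a * Real.sinc (Real.pi * a * x)) ^ 2 := funext (R1_sinc a ha)
  rw [h]
  exact (continuous_const.mul (Real.continuous_sinc.comp (continuous_const.mul continuous_id))).pow 2

private theorem R1_nonneg (a : ℝ) (ha : 0 < a) (x : ℝ) : 0 ≤ sc a x := by
  rw [R1_sinc a ha]; positivity

private theorem R1_le1 (a : ℝ) (ha : 0 < a) (x : ℝ) : sc a x ≤ a ^ 2 := by
  rw [R1_sinc a ha, mul_pow]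
  have h1 : Real.sinc (Real.pi * a * x) ^ 2 ≤ 1 := by
    have := Real.abs_sinc_le_one (Real.pi * a * x)
    rw [← sq_abs]
    exact pow_le_one₀ (abs_nonneg _) this
  exact mul_le_of_le_one_right (by positivity) h1

private theorem R1_le2 (a : ℝ) (x : ℝ) : sc a x * x ^ 2 ≤ 1 := by
  by_cases hx : x = 0
  · rw [hx]; norm_num
  · unfold sc
    rw [if_neg hx, div_pow, mul_pow]
    have hpi := Real.pi_gt_three
    have h1 : Real.sin (Real.pi * a * x) ^ 2 ≤ 1 := Real.sin_sq_le_one _
    have h2 : Real.sin (Real.pi * a * x) ^ 2 / (Real.pi ^ 2 * x ^ 2) * x ^ 2 =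
        Real.sin (Real.pi * a * x) ^ 2 / Real.pi ^ 2 := by
      field_simp
    rw [h2, div_le_one (by positivity)]
    nlinarith

private theorem R1_int (a : ℝ) (ha : 0 < a) : MeasureTheory.Integrable (sc a) := by
  have h1 : MeasureTheory.Integrable (fun x : ℝ => (a ^ 2 + 1) * (1 + x ^ 2)⁻¹) :=
    integrable_inv_one_add_sq.const_mul _
  refine h1.mono' (R1_cont a ha).aestronglyMeasurable ?_
  refine Filter.Eventually.of_forall fun x => ?_
  rw [Real.norm_eq_abs, abs_of_nonneg (R1_nonneg a ha x), ← div_eq_mul_inv,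
    le_div_iff₀ (by positivity)]
  have h2 := R1_le1 a ha x
  have h3 := R1_le2 a x
  linarith [mul_add (sc a x) 1 (x ^ 2)]

/-- the tent -/
private noncomputable def R1_g (a : ℝ) (t : ℝ) : ℂ := ((max 0 (a - |t|) : ℝ) : ℂ)

private theorem R1_g_cont (a : ℝ) : Continuous (R1_g a) := by
  unfold R1_g
  fun_prop

private theorem R1_g_zero (a : ℝ) (t : ℝ) (ht : t ∉ Set.Ioc (-a) a) : R1_g a t = 0 := by
  unfold R1_g
  have : a ≤ |t| := by
    by_contra h
    push Not at h
    rw [abs_lt] at h
    exact ht ⟨h.1, h.2.le⟩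
  rw [max_eq_left (by linarith)]
  simp

private theorem R1_g_int (a : ℝ) : MeasureTheory.Integrable (R1_g a) := by
  apply (R1_g_cont a).integrable_of_hasCompactSupport
  apply HasCompactSupport.intro (isCompact_Icc : IsCompact (Set.Icc (-a) a))
  intro x hx
  apply R1_g_zero
  exact fun h => hx ⟨h.1.le, h.2⟩

private theorem R1_reduce (a : ℝ) (ha : 0 < a) (e : ℝ → ℂ) (he : Continuous e) :
    ∫ t : ℝ, e t * R1_g a t =
      (∫ t in (-a)..0, e t * ((a : ℂ) + t)) + ∫ t in (0 : ℝ)..a, e t * ((a : ℂ) - t) := by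
  have h1 : ∫ t : ℝ, e t * R1_g a t = ∫ t in (-a)..a, e t * R1_g a t := by
    rw [intervalIntegral.integral_of_le (by linarith)]
    rw [MeasureTheory.setIntegral_eq_integral_of_forall_compl_eq_zero]
    intro t ht
    rw [R1_g_zero a t ht, mul_zero]
  have hc : Continuous fun t => e t * R1_g a t := he.mul (R1_g_cont a)
  rw [h1, ← intervalIntegral.integral_add_adjacent_intervals (hc.intervalIntegrable _ 0)
    (hc.intervalIntegrable _ _)]
  congr 1
  · apply intervalIntegral.integral_congr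
    intro t ht
    rw [Set.uIcc_of_le (by linarith)] at ht
    simp only
    congr 1
    unfold R1_g
    rw [abs_of_nonpos ht.2, max_eq_right (by linarith [ht.1])]
    push_cast; ring
  · apply intervalIntegral.integral_congr
    intro t ht
    rw [Set.uIcc_of_le ha.le] at ht
    simp only
    congr 1
    unfold R1_g
    rw [abs_of_nonneg ht.1, max_eq_right (by linarith [ht.2])]
    push_cast; ring

private theorem R1_exp (a : ℝ) (ha : 0 < a) (c : ℂ) (hc : c ≠ 0) :
    ∫ t : ℝ, Complex.exp (-c * t) * R1_g a t =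
      (Complex.exp (c * a) + Complex.exp (-c * a) - 2) / c ^ 2 := by
  have hcont : Continuous fun t : ℝ => Complex.exp (-c * t) := by fun_prop
  rw [R1_reduce a ha _ hcont]
  have hexp : ∀ z : ℂ, HasDerivAt (fun z : ℂ => Complex.exp (-c * z)) (Complex.exp (-c * z) * (-c)) z := by
    intro z
    have h1 : HasDerivAt (fun z : ℂ => -c * z) (-c) z := by
      simpa using (hasDerivAt_id z).const_mul (-c)
    exact h1.cexp
  have h1 : ∫ t in (0 : ℝ)..a, Complex.exp (-c * t) * ((a : ℂ) - t) =
      ((((a : ℝ) : ℂ) - a) * Complex.exp (-c * (a : ℝ)) / c + Complex.exp (-c * (a : ℝ)) / c ^ 2) -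
      ((((0 : ℝ) : ℂ) - a) * Complex.exp (-c * (0 : ℝ)) / c + Complex.exp (-c * (0 : ℝ)) / c ^ 2) := by
    apply intervalIntegral.integral_eq_sub_of_hasDerivAt (f := fun t : ℝ =>
      ((t : ℂ) - a) * Complex.exp (-c * t) / c + Complex.exp (-c * t) / c ^ 2)
    · intro t _
      have h2 : HasDerivAt (fun z : ℂ => z - a) 1 (t : ℂ) := (hasDerivAt_id (t : ℂ)).sub_const (a : ℂ)
      have h3 : HasDerivAt (fun z : ℂ => (z - a) * Complex.exp (-c * z) / c +
          Complex.exp (-c * z) / c ^ 2)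
          ((1 * Complex.exp (-c * (t : ℂ)) + ((t : ℂ) - a) * (Complex.exp (-c * (t : ℂ)) * (-c))) / c +
            (Complex.exp (-c * (t : ℂ)) * (-c)) / c ^ 2) (t : ℂ) :=
        ((h2.mul (hexp t)).div_const c).add ((hexp t).div_const (c ^ 2))
      have h4 := h3.comp_ofReal
      refine h4.congr_deriv ?_
      field_simp
      ring
    · apply Continuous.intervalIntegrable
      fun_prop
  have h2 : ∫ t in (-a)..(0 : ℝ), Complex.exp (-c * t) * ((a : ℂ) + t) =
      (-((((0 : ℝ) : ℂ) + a) * Complex.exp (-c * (0 : ℝ)) / c) - Complex.exp (-c * (0 : ℝ)) / c ^ 2) -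
      (-((((-a : ℝ) : ℂ) + a) * Complex.exp (-c * (-a : ℝ)) / c) - Complex.exp (-c * (-a : ℝ)) / c ^ 2) := by
    apply intervalIntegral.integral_eq_sub_of_hasDerivAt (f := fun t : ℝ =>
      -(((t : ℂ) + a) * Complex.exp (-c * t) / c) - Complex.exp (-c * t) / c ^ 2)
    · intro t _
      have h2 : HasDerivAt (fun z : ℂ => z + a) 1 (t : ℂ) := (hasDerivAt_id (t : ℂ)).add_const (a : ℂ)
      have h3 : HasDerivAt (fun z : ℂ => -((z + a) * Complex.exp (-c * z) / c) -
          Complex.exp (-c * z) / c ^ 2)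
          (-((1 * Complex.exp (-c * (t : ℂ)) + ((t : ℂ) + a) * (Complex.exp (-c * (t : ℂ)) * (-c))) / c) -
            (Complex.exp (-c * (t : ℂ)) * (-c)) / c ^ 2) (t : ℂ) :=
        (((h2.mul (hexp t)).div_const c).neg).sub ((hexp t).div_const (c ^ 2))
      have h4 := h3.comp_ofReal
      refine h4.congr_deriv ?_
      field_simp
      ring
    · apply Continuous.intervalIntegrable
      fun_prop
  rw [h1, h2]
  have e1 : -c * ((-a : ℝ) : ℂ) = c * a := by push_cast; ring
  rw [e1]
  simp only [Complex.ofReal_zero, mul_zero, Complex.exp_zero, Complex.ofReal_neg]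
  field_simp
  ring

private theorem R1_zero (a : ℝ) (ha : 0 < a) : ∫ t : ℝ, (1 : ℂ) * R1_g a t = ((a ^ 2 : ℝ) : ℂ) := by
  rw [R1_reduce a ha (fun _ => 1) continuous_const]
  have h1 : ∫ t in (0 : ℝ)..a, (1 : ℂ) * ((a : ℂ) - t) =
      ((a : ℂ) * (a : ℝ) - ((a : ℝ) : ℂ) ^ 2 / 2) - ((a : ℂ) * (0 : ℝ) - ((0 : ℝ) : ℂ) ^ 2 / 2) := by
    apply intervalIntegral.integral_eq_sub_of_hasDerivAt (f := fun t : ℝ =>
      (a : ℂ) * t - (t : ℂ) ^ 2 / 2)
    · intro t _
      have h3 : HasDerivAt (fun z : ℂ => (a : ℂ) * z - z ^ 2 / 2) ((a : ℂ) * 1 - (2 * (t : ℂ)) / 2) (t : ℂ) := by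
        apply HasDerivAt.sub
        · exact (hasDerivAt_id (t : ℂ)).const_mul (a : ℂ)
        · have := (hasDerivAt_pow 2 (t : ℂ)).div_const 2
          simpa using this
      have h4 := h3.comp_ofReal
      refine h4.congr_deriv ?_
      ring
    · apply Continuous.intervalIntegrable
      fun_prop
  have h2 : ∫ t in (-a)..(0 : ℝ), (1 : ℂ) * ((a : ℂ) + t) =
      ((a : ℂ) * (0 : ℝ) + ((0 : ℝ) : ℂ) ^ 2 / 2) - ((a : ℂ) * (-a : ℝ) + ((-a : ℝ) : ℂ) ^ 2 / 2) := by
    apply intervalIntegral.integral_eq_sub_of_hasDerivAt (f := fun t : ℝ =>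
      (a : ℂ) * t + (t : ℂ) ^ 2 / 2)
    · intro t _
      have h3 : HasDerivAt (fun z : ℂ => (a : ℂ) * z + z ^ 2 / 2) ((a : ℂ) * 1 + (2 * (t : ℂ)) / 2) (t : ℂ) := by
        apply HasDerivAt.add
        · exact (hasDerivAt_id (t : ℂ)).const_mul (a : ℂ)
        · have := (hasDerivAt_pow 2 (t : ℂ)).div_const 2
          simpa using this
      have h4 := h3.comp_ofReal
      refine h4.congr_deriv ?_
      ring
    · apply Continuous.intervalIntegrable
      fun_prop
  rw [h1, h2]
  push_cast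
  ring

private theorem R1_fourier (a : ℝ) (ha : 0 < a) :
    FourierTransform.fourier (R1_g a) = fun x => ((sc a x : ℝ) : ℂ) := by
  funext x
  rw [Real.fourier_real_eq_integral_exp_smul]
  by_cases hx : x = 0
  · subst hx
    have e : ∀ t : ℝ, Complex.exp (((-2 * Real.pi * t * 0 : ℝ) : ℂ) * Complex.I) • R1_g a t =
        (1 : ℂ) * R1_g a t := by
      intro t
      simp
    rw [MeasureTheory.integral_congr_ae (Filter.Eventually.of_forall e), R1_zero a ha]
    simp [sc]
  · have hpi : (Real.pi : ℂ) ≠ 0 := by exact_mod_cast Real.pi_pos.ne'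
    have hx' : (x : ℂ) ≠ 0 := by exact_mod_cast hx
    have hc : (2 * Real.pi * x * Complex.I : ℂ) ≠ 0 := by
      simp [hpi, hx', Complex.I_ne_zero]
    have e : ∀ t : ℝ, Complex.exp (((-2 * Real.pi * t * x : ℝ) : ℂ) * Complex.I) • R1_g a t =
        Complex.exp (-(2 * Real.pi * x * Complex.I : ℂ) * t) * R1_g a t := by
      intro t
      rw [smul_eq_mul]
      congr 2
      push_cast; ring
    rw [MeasureTheory.integral_congr_ae (Filter.Eventually.of_forall e), R1_exp a ha _ hc]
    have e2 : Complex.exp ((2 * Real.pi * x * Complex.I : ℂ) * a) +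
        Complex.exp (-(2 * Real.pi * x * Complex.I : ℂ) * a) =
        2 * Complex.cos ((2 * (Real.pi * a * x) : ℝ) : ℂ) := by
      rw [Complex.cos]
      have e3 : (2 * Real.pi * x * Complex.I : ℂ) * a = ((2 * (Real.pi * a * x) : ℝ) : ℂ) * Complex.I := by
        push_cast; ring
      have e4 : -(2 * Real.pi * x * Complex.I : ℂ) * a = -((2 * (Real.pi * a * x) : ℝ) : ℂ) * Complex.I := by
        push_cast; ring
      rw [e3, e4]
      ring
    rw [e2, ← Complex.ofReal_cos, Real.cos_two_mul, Real.cos_sq']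
    unfold sc
    rw [if_neg hx]
    have e5 : (2 * Real.pi * x * Complex.I : ℂ) ^ 2 = -(4 * Real.pi ^ 2 * x ^ 2) := by
      rw [mul_pow, Complex.I_sq]; ring
    rw [e5]
    push_cast
    field_simp
    ring

/-- Row R1.  Fourier transform of the tent function.
Recipe: the tent `t ↦ max 0 (a - |t|)` is continuous, integrable, its Fourier transform is `x ↦ sc a x` (explicit
integral over `[-a, a]`, e.g. `2 ∫_0^a (a - t) cos (2 π x t) dt`, antiderivative), which is integrable (`≤ min (a²) (1/(π x)²)`);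
Fourier inversion (`MeasureTheory.Integrable.fourier_inversion` / `Continuous.fourier_inversion`), real part.  Or a direct proof. -/
theorem R1 (a : ℝ) (ha : 0 < a) :
    MeasureTheory.Integrable (sc a) ∧ Continuous (sc a) ∧
    ∀ t : ℝ, ∫ x : ℝ, sc a x * Real.cos (2 * Real.pi * x * t) = max 0 (a - |t|) := by
  refine ⟨R1_int a ha, R1_cont a ha, ?_⟩
  intro t
  have hF := R1_fourier a ha
  have hFint : MeasureTheory.Integrable (FourierTransform.fourier (R1_g a)) := by
    rw [hF]
    exact (R1_int a ha).ofReal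
  have hinv := (R1_g_cont a).fourierInv_fourier_eq (R1_g_int a) hFint
  have hinv2 := congrFun hinv t
  rw [hF, Real.fourierInv_eq'] at hinv2
  have hint : MeasureTheory.Integrable (fun x : ℝ =>
      Complex.exp (((2 * Real.pi * (inner ℝ x t) : ℝ) : ℂ) * Complex.I) • ((sc a x : ℝ) : ℂ)) := by
    have h0 : MeasureTheory.Integrable (fun x : ℝ => ((sc a x : ℝ) : ℂ)) := (R1_int a ha).ofReal
    refine h0.mono ?_ ?_
    · apply Continuous.aestronglyMeasurable
      have := R1_cont a ha
      fun_prop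
    · refine Filter.Eventually.of_forall fun x => ?_
      rw [norm_smul, Complex.norm_exp_ofReal_mul_I, one_mul]
  have hre := congrArg Complex.re hinv2
  have hre2 := integral_re hint
  have h3 : ∫ x : ℝ, sc a x * Real.cos (2 * Real.pi * x * t) =
      ∫ x : ℝ, RCLike.re (Complex.exp (((2 * Real.pi * (inner ℝ x t) : ℝ) : ℂ) * Complex.I) •
        ((sc a x : ℝ) : ℂ)) := by
    apply MeasureTheory.integral_congr_ae
    refine Filter.Eventually.of_forall fun x => ?_
    simp only [smul_eq_mul, RCLike.re_to_complex, Complex.re_mul_ofReal, Complex.exp_ofReal_mul_I_re,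
      RCLike.inner_apply, conj_trivial]
    rw [mul_comm]
    congr 2
    ring
  rw [h3, hre2]
  have h4 : (R1_g a t).re = max 0 (a - |t|) := by
    unfold R1_g
    exact Complex.ofReal_re _
  rw [← h4]
  exact hre

end Pool.Agent.C52.RR1
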