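import Pool.Agent.Lib.MP_c52340_c5.Defs


set_option autoImplicit false

open Finset


namespace Pool.Agent.C52.RR2

private lemma cos_lip (u v : ℝ) : |Real.cos u - Real.cos v| ≤ |u - v| := by
  rw [Real.cos_sub_cos, abs_mul, abs_mul]
  have h1 : |Real.sin ((u + v) / 2)| ≤ 1 := Real.abs_sin_le_one _
  have h2 : |Real.sin ((u - v) / 2)| ≤ |(u - v) / 2| := Real.abs_sin_le_abs
  have h3 : |(u - v) / 2| = |u - v| / 2 := by rw [abs_div]; norm_num
  have h4 : |(-2 : ℝ)| = 2 := by norm_num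
  rw [h4]
  have h5 : 0 ≤ |Real.sin ((u - v) / 2)| := abs_nonneg _
  have h6 : 0 ≤ |Real.sin ((u + v) / 2)| := abs_nonneg _
  calc 2 * |Real.sin ((u + v) / 2)| * |Real.sin ((u - v) / 2)|
      ≤ 2 * 1 * (|u - v| / 2) := by
        apply mul_le_mul _ (h2.trans (le_of_eq h3)) h5 (by norm_num)
        linarith
    _ = |u - v| := by ring

private noncomputable def gg (a x : ℝ) : ℝ := ∫ s in (-(a / 2))..(a / 2), Real.cos (2 * Real.pi * x * s)

private lemma gg_ne (a x : ℝ) (hx : x ≠ 0) :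
    gg a x = Real.sin (Real.pi * a * x) / (Real.pi * x) := by
  have hpi := Real.pi_pos
  have hc : 2 * Real.pi * x ≠ 0 := by positivity
  unfold gg
  rw [intervalIntegral.integral_comp_mul_left (fun s => Real.cos s) hc, integral_cos]
  have e1 : 2 * Real.pi * x * (a / 2) = Real.pi * a * x := by ring
  have e2 : 2 * Real.pi * x * -(a / 2) = -(Real.pi * a * x) := by ring
  rw [e1, e2, Real.sin_neg, smul_eq_mul]
  field_simp
  ring

private lemma gg_zero (a : ℝ) : gg a 0 = a := by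
  unfold gg
  simp

private lemma sc_eq (a x : ℝ) : sc a x = gg a x ^ 2 := by
  unfold sc
  split_ifs with h
  · rw [h, gg_zero]
  · rw [gg_ne a x h]

private lemma gg_abs (a x : ℝ) (ha : 0 ≤ a) : |gg a x| ≤ a := by
  unfold gg
  have := intervalIntegral.norm_integral_le_of_norm_le_const (a := -(a / 2)) (b := a / 2)
    (f := fun s => Real.cos (2 * Real.pi * x * s)) (C := 1) (by
      intro s _
      rw [Real.norm_eq_abs]
      exact Real.abs_cos_le_one _)
  rw [Real.norm_eq_abs] at this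
  refine this.trans (le_of_eq ?_)
  rw [abs_of_nonneg (by linarith)]
  ring

private lemma gg_lip (a x y : ℝ) (ha : 0 ≤ a) :
    |gg a x - gg a y| ≤ Real.pi * a ^ 2 * |x - y| := by
  have hpi := Real.pi_pos
  unfold gg
  rw [← intervalIntegral.integral_sub (by apply Continuous.intervalIntegrable; fun_prop)
    (by apply Continuous.intervalIntegrable; fun_prop)]
  have := intervalIntegral.norm_integral_le_of_norm_le_const (a := -(a / 2)) (b := a / 2)
    (f := fun s => Real.cos (2 * Real.pi * x * s) - Real.cos (2 * Real.pi * y * s))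
    (C := Real.pi * a * |x - y|) (by
      intro s hs
      rw [Real.norm_eq_abs]
      refine (cos_lip _ _).trans ?_
      have e : 2 * Real.pi * x * s - 2 * Real.pi * y * s = (2 * Real.pi * s) * (x - y) := by ring
      rw [e, abs_mul]
      apply mul_le_mul_of_nonneg_right _ (abs_nonneg _)
      rw [Set.uIoc_of_le (by linarith), Set.mem_Ioc] at hs
      rw [abs_mul, abs_of_pos (by positivity)]
      have : |s| ≤ a / 2 := abs_le.2 ⟨hs.1.le, hs.2⟩
      nlinarith)
  rw [Real.norm_eq_abs] at this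
  refine this.trans (le_of_eq ?_)
  rw [abs_of_nonneg (show (0 : ℝ) ≤ a / 2 - -(a / 2) by linarith)]
  ring

private lemma sc_bd (a x : ℝ) (ha : 0 ≤ a) : 0 ≤ sc a x ∧ sc a x ≤ a ^ 2 := by
  rw [sc_eq]
  refine ⟨sq_nonneg _, ?_⟩
  have := gg_abs a x ha
  rw [← sq_abs]
  exact pow_le_pow_left₀ (abs_nonneg _) this 2

private lemma sc_sq (a x : ℝ) : sc a x * x ^ 2 ≤ 1 := by
  unfold sc
  split_ifs with h
  · rw [h]; norm_num
  · have hpi := Real.pi_gt_three
    have e : (Real.sin (Real.pi * a * x) / (Real.pi * x)) ^ 2 * x ^ 2 =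
        Real.sin (Real.pi * a * x) ^ 2 / Real.pi ^ 2 := by
      field_simp
    rw [e, div_le_one (by positivity)]
    have h1 := Real.sin_sq_le_one (Real.pi * a * x)
    nlinarith

private lemma sc_lip (a x y : ℝ) (ha : 0 ≤ a) :
    |sc a x - sc a y| ≤ 2 * Real.pi * a ^ 3 * |x - y| := by
  rw [sc_eq, sc_eq, sq_sub_sq, abs_mul]
  have h1 := gg_lip a x y ha
  have h2 : |gg a x + gg a y| ≤ 2 * a := by
    have := abs_add_le (gg a x) (gg a y)
    have h3 := gg_abs a x ha
    have h4 := gg_abs a y ha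
    linarith
  calc |gg a x + gg a y| * |gg a x - gg a y|
      ≤ (2 * a) * (Real.pi * a ^ 2 * |x - y|) :=
        mul_le_mul h2 h1 (abs_nonneg _) (by linarith)
    _ = 2 * Real.pi * a ^ 3 * |x - y| := by ring

theorem R2 (ρ : ℝ) (h0 : 0 < ρ) (h1 : ρ < 1 / 2) :
    (∀ t, trap ρ t = (max 0 (1 / 2 - |t|) - max 0 (ρ - |t|)) / (1 / 2 - ρ)) ∧
    (∀ t, 0 ≤ trap ρ t ∧ trap ρ t ≤ 1) ∧ (∀ t, |t| ≤ ρ → trap ρ t = 1) ∧ (∀ t, 1 / 2 ≤ |t| → trap ρ t = 0) ∧
    (∀ s t, |trap ρ s - trap ρ t| ≤ |s - t| / (1 / 2 - ρ)) ∧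
    (∃ C : ℝ, 0 < C ∧ (∀ x, |psi ρ x| ≤ C) ∧ (∀ x, |psi ρ x| * x ^ 2 ≤ C) ∧
      ∀ x y, |psi ρ x - psi ρ y| ≤ C * |x - y|) := by
  have hD : 0 < 1 / 2 - ρ := by linarith
  have hone : ∀ t, |t| ≤ ρ → trap ρ t = 1 := by
    intro t ht
    unfold trap
    have : 1 ≤ (1 / 2 - |t|) / (1 / 2 - ρ) := by
      rw [le_div_iff₀ hD]; linarith
    rw [min_eq_left this, max_eq_right zero_le_one]
  have hzero : ∀ t, 1 / 2 ≤ |t| → trap ρ t = 0 := by
    intro t ht
    unfold trap
    have h2 : (1 / 2 - |t|) / (1 / 2 - ρ) ≤ 0 := div_nonpos_of_nonpos_of_nonneg (by linarith) hD.le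
    rw [min_eq_right (by linarith), max_eq_left h2]
  refine ⟨?_, ?_, hone, hzero, ?_, ?_⟩
  · intro t
    rcases le_or_gt |t| ρ with ht | ht
    · rw [hone t ht, max_eq_right (by linarith), max_eq_right (by linarith), eq_div_iff hD.ne']
      ring
    · rcases le_or_gt (1 / 2) |t| with ht2 | ht2
      · rw [hzero t ht2, max_eq_left (by linarith), max_eq_left (by linarith)]
        simp
      · unfold trap
        have h2 : (1 / 2 - |t|) / (1 / 2 - ρ) ≤ 1 := by
          rw [div_le_one hD]; linarith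
        have h3 : 0 ≤ (1 / 2 - |t|) / (1 / 2 - ρ) := div_nonneg (by linarith) hD.le
        rw [min_eq_right h2, max_eq_right h3, max_eq_right (by linarith), max_eq_left (by linarith),
          sub_zero]
  · intro t
    unfold trap
    exact ⟨le_max_left _ _, max_le (by norm_num) (min_le_left _ _)⟩
  · intro s t
    unfold trap
    have e1 : |max 0 (min 1 ((1 / 2 - |s|) / (1 / 2 - ρ))) - max 0 (min 1 ((1 / 2 - |t|) / (1 / 2 - ρ)))|
        ≤ |min 1 ((1 / 2 - |s|) / (1 / 2 - ρ)) - min 1 ((1 / 2 - |t|) / (1 / 2 - ρ))| := by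
      have := abs_max_sub_max_le_max (0 : ℝ) (min 1 ((1 / 2 - |s|) / (1 / 2 - ρ))) 0
        (min 1 ((1 / 2 - |t|) / (1 / 2 - ρ)))
      refine this.trans (le_of_eq ?_)
      rw [sub_self, abs_zero]
      exact max_eq_right (abs_nonneg _)
    have e2 : |min 1 ((1 / 2 - |s|) / (1 / 2 - ρ)) - min 1 ((1 / 2 - |t|) / (1 / 2 - ρ))|
        ≤ |(1 / 2 - |s|) / (1 / 2 - ρ) - (1 / 2 - |t|) / (1 / 2 - ρ)| := by
      have := abs_min_sub_min_le_max (1 : ℝ) ((1 / 2 - |s|) / (1 / 2 - ρ)) 1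
        ((1 / 2 - |t|) / (1 / 2 - ρ))
      refine this.trans (le_of_eq ?_)
      rw [sub_self, abs_zero]
      exact max_eq_right (abs_nonneg _)
    have e3 : |(1 / 2 - |s|) / (1 / 2 - ρ) - (1 / 2 - |t|) / (1 / 2 - ρ)| ≤ |s - t| / (1 / 2 - ρ) := by
      rw [← sub_div, abs_div, abs_of_pos hD]
      apply div_le_div_of_nonneg_right _ hD.le
      have : 1 / 2 - |s| - (1 / 2 - |t|) = -(|s| - |t|) := by ring
      rw [this, abs_neg]
      exact abs_abs_sub_abs_le_abs_sub s t
    exact e1.trans (e2.trans e3)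
  · refine ⟨2 / (1 / 2 - ρ), by positivity, ?_, ?_, ?_⟩
    · intro x
      unfold psi
      rw [abs_div, abs_of_pos hD]
      apply div_le_div_of_nonneg_right _ hD.le
      have a1 := sc_bd (1 / 2) x (by norm_num)
      have a2 := sc_bd ρ x h0.le
      rw [abs_le]
      constructor <;> nlinarith
    · intro x
      unfold psi
      rw [abs_div, abs_of_pos hD, div_mul_eq_mul_div]
      apply div_le_div_of_nonneg_right _ hD.le
      have a1 := sc_bd (1 / 2) x (by norm_num)
      have a2 := sc_bd ρ x h0.le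
      have b1 := sc_sq (1 / 2) x
      have b2 := sc_sq ρ x
      have hx2 := sq_nonneg x
      have h3 : |sc (1 / 2) x - sc ρ x| ≤ sc (1 / 2) x + sc ρ x := by
        rw [abs_le]; constructor <;> linarith [a1.1, a2.1]
      calc |sc (1 / 2) x - sc ρ x| * x ^ 2 ≤ (sc (1 / 2) x + sc ρ x) * x ^ 2 :=
            mul_le_mul_of_nonneg_right h3 hx2
        _ ≤ 2 := by rw [add_mul]; linarith
    · intro x y
      unfold psi
      rw [← sub_div, abs_div, abs_of_pos hD, div_mul_eq_mul_div]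
      apply div_le_div_of_nonneg_right _ hD.le
      have a1 := sc_lip (1 / 2) x y (by norm_num)
      have a2 := sc_lip ρ x y h0.le
      have e : sc (1 / 2) x - sc ρ x - (sc (1 / 2) y - sc ρ y) =
          (sc (1 / 2) x - sc (1 / 2) y) - (sc ρ x - sc ρ y) := by ring
      rw [e]
      have h3 := abs_sub (sc (1 / 2) x - sc (1 / 2) y) (sc ρ x - sc ρ y)
      have hρ3 : ρ ^ 3 ≤ 1 / 8 := by
        have := pow_le_pow_left₀ h0.le h1.le 3
        norm_num at this ⊢
        exact this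
      have hpi := Real.pi_lt_four
      have hpi0 := Real.pi_pos
      have hxy := abs_nonneg (x - y)
      have h4 : 2 * Real.pi * ρ ^ 3 * |x - y| ≤ 2 * Real.pi * (1 / 8) * |x - y| := by
        apply mul_le_mul_of_nonneg_right _ hxy
        exact mul_le_mul_of_nonneg_left hρ3 (by positivity)
      have h5 : 2 * Real.pi * (1 / 8) * |x - y| ≤ 1 * |x - y| := by
        apply mul_le_mul_of_nonneg_right _ hxy
        linarith
      have h6 : 2 * Real.pi * (1 / 2) ^ 3 * |x - y| = 2 * Real.pi * (1 / 8) * |x - y| := by ring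
      rw [h6] at a1
      linarith

end Pool.Agent.C52.RR2
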