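import Pool.Agent.Lib.MP_c52340_c5.Defs
import Pool.Agent.Lib.MP_c52340_c5.B2
import Pool.Agent.Lib.MP_c52340_c5.B4
import Pool.Agent.Lib.MP_c52340_c5.B5
import Pool.Agent.Lib.MP_c52340_c5.B6
import Pool.Agent.Lib.MP_c52340_c5.R2


set_option autoImplicit false

open Finset

open Pool.Agent.C52.RB2 (B2)
open Pool.Agent.C52.RB4 (B4)
open Pool.Agent.C52.RB5 (B5)
open Pool.Agent.C52.RB6 (B6)
open Pool.Agent.C52.RR2 (R2)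

namespace Pool.Agent.C52.RR9

private theorem R9_comp (ρ : ℝ) (a b : ℕ) (κ D : ℝ) : eta ρ (a + b) κ D =
      4 ^ a * ∑ m ∈ Lset a, ∑ y ∈ Lset a, (1 / 3 : ℝ) ^ a * wG (1 / 4) a y *
        eta ρ b κ (4 ^ a * D + κ * m - y) := by
  unfold eta
  rw [B5, pow_add, mul_assoc]
  congr 1
  rw [Finset.mul_sum]
  refine Finset.sum_congr rfl fun m₁ _ => ?_
  rw [Finset.mul_sum]
  -- left: 4^b * ∑ m₀, ∑ y ∈ Lset (a+b), ...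
  have h1 : ∀ m₀ ∈ Lset b, (∑ y ∈ Lset (a + b), (1 / 3 : ℝ) ^ (a + b) * wG (1 / 4) (a + b) y *
      trap ρ (4 ^ a * 4 ^ b * D + κ * ((4 ^ b * m₁ + m₀ : ℤ) : ℝ) - y)) =
      ∑ y₁ ∈ Lset a, ∑ y₀ ∈ Lset b, (1 / 3 : ℝ) ^ a * wG (1 / 4) a y₁ *
        ((1 / 3 : ℝ) ^ b * wG (1 / 4) b y₀ *
          trap ρ (4 ^ b * (4 ^ a * D + κ * m₁ - y₁) + κ * m₀ - y₀)) := by
    intro m₀ _
    rw [B5]
    refine Finset.sum_congr rfl fun y₁ _ => Finset.sum_congr rfl fun y₀ hy₀ => ?_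
    rw [B6 _ _ _ _ _ hy₀]
    have e : (4 ^ a * 4 ^ b * D + κ * ((4 ^ b * m₁ + m₀ : ℤ) : ℝ) - ((4 ^ b * y₁ + y₀ : ℤ) : ℝ)) =
        4 ^ b * (4 ^ a * D + κ * m₁ - y₁) + κ * m₀ - y₀ := by
      push_cast
      ring
    rw [e, pow_add]
    ring
  rw [← Finset.mul_sum, Finset.sum_congr rfl h1, Finset.sum_comm, Finset.mul_sum]
  refine Finset.sum_congr rfl fun y₁ _ => ?_
  simp only [← Finset.mul_sum]
  ring

private theorem R9_nonneg (ρ : ℝ) (h0 : 0 < ρ) (h1 : ρ < 1 / 2) (h : ℕ) (κ D : ℝ) :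
    0 ≤ eta ρ h κ D := by
  unfold eta
  refine mul_nonneg (by positivity) (Finset.sum_nonneg fun m _ => Finset.sum_nonneg fun y _ => ?_)
  refine mul_nonneg (mul_nonneg (by positivity) ?_) ?_
  · exact (B4).1 (1 / 4) (by norm_num) (by norm_num) h y
  · exact ((R2 ρ h0 h1).2.1 _).1

private theorem R9_supp (ρ : ℝ) (h0 : 0 < ρ) (h1 : ρ < 1 / 2) (h : ℕ) (κ D : ℝ) (hκ : 0 ≤ κ)
    (hD : (1 + κ) / 3 + (1 / 2 - (1 + κ) / 3) / 4 ^ h ≤ |D|) : eta ρ h κ D = 0 := by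
  unfold eta
  rw [Finset.sum_eq_zero, mul_zero]
  intro m hm
  refine Finset.sum_eq_zero fun y hy => ?_
  have hb : ∀ z ∈ Lset h, |(z : ℝ)| ≤ ((4 : ℝ) ^ h - 1) / 3 := by
    intro z hz
    have := (B2).1 h z hz
    have h2 : (3 : ℝ) * |(z : ℝ)| ≤ (4 : ℝ) ^ h - 1 := by exact_mod_cast this
    linarith
  have hm' := hb m hm
  have hy' := hb y hy
  have hp : (0 : ℝ) < 4 ^ h := by positivity
  have hD2 : (4 : ℝ) ^ h * ((1 + κ) / 3) + (1 / 2 - (1 + κ) / 3) ≤ |4 ^ h * D| := by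
    rw [abs_mul, abs_of_pos hp]
    have := mul_le_mul_of_nonneg_left hD hp.le
    rw [mul_add, mul_div_cancel₀ _ hp.ne'] at this
    exact this
  have hκm : |κ * (m : ℝ)| ≤ κ * (((4 : ℝ) ^ h - 1) / 3) := by
    rw [abs_mul, abs_of_nonneg hκ]
    exact mul_le_mul_of_nonneg_left hm' hκ
  have key : 1 / 2 ≤ |4 ^ h * D + κ * (m : ℝ) - (y : ℝ)| := by
    have t1 : |4 ^ h * D| ≤ |4 ^ h * D + κ * (m : ℝ) - (y : ℝ)| + |κ * (m : ℝ)| + |(y : ℝ)| := by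
      have e : 4 ^ h * D = (4 ^ h * D + κ * (m : ℝ) - (y : ℝ)) - κ * (m : ℝ) + y := by ring
      calc |4 ^ h * D| = |(4 ^ h * D + κ * (m : ℝ) - (y : ℝ)) - κ * (m : ℝ) + y| := by rw [← e]
        _ ≤ |(4 ^ h * D + κ * (m : ℝ) - (y : ℝ)) - κ * (m : ℝ)| + |(y : ℝ)| := abs_add_le _ _
        _ ≤ _ := by
          have := abs_sub (4 ^ h * D + κ * (m : ℝ) - (y : ℝ)) (κ * (m : ℝ))
          linarith
    nlinarith
  rw [(R2 ρ h0 h1).2.2.2.1 _ key, mul_zero]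

private theorem R9_zero (ρ : ℝ) (κ D : ℝ) : eta ρ 0 κ D = trap ρ D := by
  unfold eta
  simp [Lset, wG]

/-- Row R9.  Composition, sign, support.
Recipe: B5, B6: `4^(a+b) D + κ (4^b m₁ + m₀) - (4^b y₁ + y₀) = 4^b (4^a D + κ m₁ - y₁) + κ m₀ - y₀`.  Support:
`|4^h D + κ m - y| ≥ 4^h |D| - (1 + κ)(4^h - 1)/3 ≥ 1/2` (B2, R2). -/
theorem R9 (ρ : ℝ) (h0 : 0 < ρ) (h1 : ρ < 1 / 2) :
    (∀ (a b : ℕ) (κ D : ℝ), eta ρ (a + b) κ D =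
      4 ^ a * ∑ m ∈ Lset a, ∑ y ∈ Lset a, (1 / 3 : ℝ) ^ a * wG (1 / 4) a y *
        eta ρ b κ (4 ^ a * D + κ * m - y)) ∧
    (∀ (h : ℕ) (κ D : ℝ), 0 ≤ eta ρ h κ D) ∧
    (∀ (h : ℕ) (κ D : ℝ), 0 ≤ κ → (1 + κ) / 3 + (1 / 2 - (1 + κ) / 3) / 4 ^ h ≤ |D| → eta ρ h κ D = 0) ∧
    (∀ (κ D : ℝ), eta ρ 0 κ D = trap ρ D) :=
  ⟨R9_comp ρ, R9_nonneg ρ h0 h1, R9_supp ρ h0 h1, R9_zero ρ⟩

end Pool.Agent.C52.RR9
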