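import Pool.Agent.Lib.MP_c52340_c5.Defs
import Pool.Agent.Lib.MP_c52340_c5.B4
import Pool.Agent.Lib.MP_c52340_c5.R2
import Pool.Agent.Lib.MP_c52340_c5.R9


set_option autoImplicit false

open Finset

open Pool.Agent.C52.RB4 (B4)
open Pool.Agent.C52.RR2 (R2)
open Pool.Agent.C52.RR9 (R9)

namespace Pool.Agent.C52.RR10

/-- Row R10.  Windows.
Recipe: R9 with `a = H` and `b = r`, `b = r - 1 ≥ 1`: both `eta r` and `eta (r-1)` vanish at `D'` unless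
`|D'| < (1+κ)/3 + (1/2 - (1+κ)/3)/4 = (3/2 + κ)/4 ≤ ρ`, and then `trap ρ D' = 1`; so the difference is at most
`b * 4^H ∑ 3^{-H} w trap ρ (4^H D + κ m - y) = b * eta ρ H κ D`. -/
theorem R10 (ρ : ℝ) (h0 : 0 < ρ) (h1 : ρ < 1 / 2) (κ : ℝ) (hκ : 0 ≤ κ) (hκ' : κ ≤ 1 / 2) (hρ : (3 / 2 + κ) / 4 ≤ ρ)
    (H r : ℕ) (hr : 2 ≤ r) (b : ℝ) (hb : ∀ D', |eta ρ r κ D' - eta ρ (r - 1) κ D'| ≤ b) (D : ℝ) :
    |eta ρ (H + r) κ D - eta ρ (H + r - 1) κ D| ≤ b * eta ρ H κ D := by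
  have hb0 : 0 ≤ b := le_trans (abs_nonneg _) (hb 0)
  have e0 : ∀ h : ℕ, 1 ≤ h → ∀ D', ρ < |D'| → eta ρ h κ D' = 0 := by
    intro h hh D' hD'
    apply (R9 ρ h0 h1).2.2.1 h κ D' hκ
    have h4 : (4 : ℝ) ≤ 4 ^ h := by
      calc (4 : ℝ) = 4 ^ 1 := by norm_num
        _ ≤ 4 ^ h := pow_le_pow_right₀ (by norm_num) hh
    have h5 : (1 / 2 - (1 + κ) / 3) / 4 ^ h ≤ (1 / 2 - (1 + κ) / 3) / 4 :=
      div_le_div_of_nonneg_left (by linarith) (by norm_num) h4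
    linarith
  have e1 : ∀ D', |eta ρ r κ D' - eta ρ (r - 1) κ D'| ≤ b * trap ρ D' := by
    intro D'
    by_cases hD' : |D'| ≤ ρ
    · rw [(R2 ρ h0 h1).2.2.1 D' hD', mul_one]
      exact hb D'
    · push Not at hD'
      rw [e0 r (by omega) D' hD', e0 (r - 1) (by omega) D' hD', sub_self, abs_zero]
      exact mul_nonneg hb0 ((R2 ρ h0 h1).2.1 D').1
  have e2 := (R9 ρ h0 h1).1 H r κ D
  have e3 := (R9 ρ h0 h1).1 H (r - 1) κ D
  rw [show H + r - 1 = H + (r - 1) by omega, e2, e3, ← mul_sub, ← Finset.sum_sub_distrib, abs_mul,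
    abs_of_nonneg (by positivity : (0 : ℝ) ≤ 4 ^ H)]
  have e4 : b * eta ρ H κ D = 4 ^ H * ∑ m ∈ Lset H, ∑ y ∈ Lset H,
      (1 / 3 : ℝ) ^ H * wG (1 / 4) H y * (b * trap ρ (4 ^ H * D + κ * m - y)) := by
    unfold eta
    rw [mul_left_comm, Finset.mul_sum]
    congr 1
    refine Finset.sum_congr rfl fun m _ => ?_
    rw [Finset.mul_sum]
    refine Finset.sum_congr rfl fun y _ => ?_
    ring
  rw [e4]
  refine mul_le_mul_of_nonneg_left ?_ (by positivity)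
  refine le_trans (Finset.abs_sum_le_sum_abs _ _) (Finset.sum_le_sum fun m _ => ?_)
  rw [← Finset.sum_sub_distrib]
  refine le_trans (Finset.abs_sum_le_sum_abs _ _) (Finset.sum_le_sum fun y _ => ?_)
  have hw : 0 ≤ (1 / 3 : ℝ) ^ H * wG (1 / 4) H y :=
    mul_nonneg (by positivity) (B4.1 (1 / 4) (by norm_num) (by norm_num) H y)
  rw [← mul_sub, abs_mul, abs_of_nonneg hw]
  exact mul_le_mul_of_nonneg_left (e1 _) hw

end Pool.Agent.C52.RR10
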