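import Pool.Agent.Lib.MP_c52340_c5.Defs
import Pool.Agent.Lib.MP_c52340_c5.B1
import Pool.Agent.Lib.MP_c52340_c5.B3
import Pool.Agent.Lib.MP_c52340_c5.B4
import Pool.Agent.Lib.MP_c52340_c5.R2


set_option autoImplicit false

open Finset

open Pool.Agent.C52.RB1 (B1)
open Pool.Agent.C52.RB3 (B3)
open Pool.Agent.C52.RB4 (B4)
open Pool.Agent.C52.RR2 (R2)

namespace Pool.Agent.C52.RR11

private lemma R11_pg (t : ℤ) : 0 ≤ pg (1 / 4) t ∧ pg (1 / 4) t ≤ 1 := by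
  unfold pg
  split_ifs <;> norm_num

private lemma R11_dig (t : ℤ) (ht : t ∈ dig) : |(t : ℝ)| ≤ 1 := by
  unfold dig at ht
  simp only [mem_insert, mem_singleton] at ht
  rcases ht with rfl | rfl | rfl <;> norm_num

/-- Row R11.  The sharp count is sandwiched.
Recipe: lower bound: `trap ρ (κ m - y) ≤ [round (κ m) = y]` (`trap = 0` if `|κ m - y| ≥ 1/2`).  Upper bound: `round (κ m) = y` gives
`|κ m - y| ≤ 1/2`; write `m = 4 m₁ + x`, `y = 4 y₁ + t`: `|κ m₁ - y₁| ≤ (1/2 + κ + 1)/4 ≤ ρ`, so `trap ρ (κ m₁ - y₁) = 1`;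
B1, B3, the digit probabilities sum to at most `1`. -/
theorem R11 (ρ : ℝ) (h0 : 0 < ρ) (h1 : ρ < 1 / 2) (κ : ℝ) (hκ : 0 ≤ κ) (hκ' : κ ≤ 1 / 2) (hρ : (3 / 2 + κ) / 4 ≤ ρ)
    (h : ℕ) : eta ρ h κ 0 ≤ sig h κ ∧ sig (h + 1) κ ≤ 4 * eta ρ h κ 0 := by
  obtain ⟨-, htr01, htr1, htr0, -, -⟩ := R2 ρ h0 h1
  obtain ⟨hnn, hsupp, -, -, -, -, -⟩ := B4
  have hw : ∀ n y, 0 ≤ wG (1 / 4) n y := hnn (1 / 4) (by norm_num) (by norm_num)
  constructor
  · unfold eta sig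
    refine mul_le_mul_of_nonneg_left ?_ (by positivity)
    refine sum_le_sum ?_
    intro m _
    have hzero : ∀ y ∈ Lset h, y ≠ round (κ * m) →
        (1 / 3 : ℝ) ^ h * wG (1 / 4) h y * trap ρ (4 ^ h * 0 + κ * m - y) = 0 := by
      intro y _ hy
      have habs : 1 / 2 ≤ |4 ^ h * (0 : ℝ) + κ * m - y| := by
        by_contra hcon
        push Not at hcon
        apply hy
        have h2 : |κ * m - y| < 1 / 2 := by
          have : (4 : ℝ) ^ h * 0 + κ * m - y = κ * m - y := by ring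
          rwa [this] at hcon
        have h3 := abs_lt.1 h2
        symm
        rw [round_eq_iff] <;> constructor <;> linarith
      rw [htr0 _ habs, mul_zero]
    by_cases hr : round (κ * m) ∈ Lset h
    · rw [sum_eq_single_of_mem _ hr hzero]
      refine mul_le_of_le_one_right ?_ (htr01 _).2
      exact mul_nonneg (by positivity) (hw _ _)
    · rw [sum_eq_zero]
      · exact mul_nonneg (by positivity) (hw _ _)
      · intro y hy
        refine hzero y hy ?_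
        rintro rfl
        exact hr hy
  · unfold eta sig
    rw [B1]
    have key : ∀ m₁ ∈ Lset h, ∀ x ∈ dig, wG (1 / 4) (h + 1) (round (κ * ((4 * m₁ + x : ℤ) : ℝ))) ≤
        ∑ y ∈ Lset h, wG (1 / 4) h y * trap ρ (4 ^ h * 0 + κ * m₁ - y) := by
      intro m₁ _ x hx
      have hnnt : ∀ y ∈ Lset h, 0 ≤ wG (1 / 4) h y * trap ρ (4 ^ h * 0 + κ * m₁ - y) := by
        intro y _
        exact mul_nonneg (hw _ _) (htr01 _).1
      by_cases hz : wG (1 / 4) (h + 1) (round (κ * ((4 * m₁ + x : ℤ) : ℝ))) = 0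
      · rw [hz]
        exact sum_nonneg hnnt
      · have hmem := hsupp _ _ _ hz
        obtain ⟨⟨y₁, t⟩, hyt, hyt2⟩ : ∃ p ∈ Lset h ×ˢ dig,
            4 * p.1 + p.2 = round (κ * ((4 * m₁ + x : ℤ) : ℝ)) := by
          have : round (κ * ((4 * m₁ + x : ℤ) : ℝ)) ∈ (Lset h ×ˢ dig).image (fun p => 4 * p.1 + p.2) := hmem
          obtain ⟨p, hp, hp2⟩ := mem_image.1 this
          exact ⟨p, hp, hp2⟩
        obtain ⟨hy₁, ht⟩ := mem_product.1 hyt
        simp only at hy₁ ht hyt2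
        have hround : |κ * ((4 * m₁ + x : ℤ) : ℝ) - ((4 * y₁ + t : ℤ) : ℝ)| ≤ 1 / 2 := by
          rw [hyt2]
          exact abs_sub_round _
        have htrap : trap ρ (4 ^ h * 0 + κ * m₁ - y₁) = 1 := by
          apply htr1
          refine le_trans ?_ hρ
          have e1 : (4 : ℝ) ^ h * 0 + κ * m₁ - y₁ =
              ((κ * ((4 * m₁ + x : ℤ) : ℝ) - ((4 * y₁ + t : ℤ) : ℝ)) - κ * x + t) / 4 := by
            push_cast; ring
          rw [e1, abs_div, abs_of_pos (by norm_num : (0 : ℝ) < 4)]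
          have hx1 := R11_dig x hx
          have ht1 := R11_dig t ht
          have hκx : |κ * (x : ℝ)| ≤ κ := by
            rw [abs_mul, abs_of_nonneg hκ]
            exact mul_le_of_le_one_right hκ hx1
          have tri : |(κ * ((4 * m₁ + x : ℤ) : ℝ) - ((4 * y₁ + t : ℤ) : ℝ)) - κ * x + t| ≤
              |κ * ((4 * m₁ + x : ℤ) : ℝ) - ((4 * y₁ + t : ℤ) : ℝ)| + |κ * (x : ℝ)| + |(t : ℝ)| :=
            (abs_add_le _ _).trans (add_le_add (abs_sub _ _) le_rfl)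
          linarith
        rw [← hyt2, B3 _ _ _ _ ht]
        calc pg (1 / 4) t * wG (1 / 4) h y₁ ≤ wG (1 / 4) h y₁ :=
              mul_le_of_le_one_left (hw _ _) (R11_pg t).2
          _ = wG (1 / 4) h y₁ * trap ρ (4 ^ h * 0 + κ * m₁ - y₁) := by rw [htrap, mul_one]
          _ ≤ ∑ y ∈ Lset h, wG (1 / 4) h y * trap ρ (4 ^ h * 0 + κ * m₁ - y) :=
              single_le_sum hnnt hy₁
    have hcard : dig.card = 3 := by decide
    have h3 : ∀ m₁ ∈ Lset h,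
        ∑ x ∈ dig, (1 / 3 : ℝ) ^ (h + 1) * wG (1 / 4) (h + 1) (round (κ * ((4 * m₁ + x : ℤ) : ℝ))) ≤
        ∑ y ∈ Lset h, (1 / 3 : ℝ) ^ h * wG (1 / 4) h y * trap ρ (4 ^ h * 0 + κ * m₁ - y) := by
      intro m₁ hm₁
      calc ∑ x ∈ dig, (1 / 3 : ℝ) ^ (h + 1) * wG (1 / 4) (h + 1) (round (κ * ((4 * m₁ + x : ℤ) : ℝ)))
          ≤ ∑ x ∈ dig, (1 / 3 : ℝ) ^ (h + 1) *
              ∑ y ∈ Lset h, wG (1 / 4) h y * trap ρ (4 ^ h * 0 + κ * m₁ - y) := by
            refine sum_le_sum ?_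
            intro x hx
            exact mul_le_mul_of_nonneg_left (key m₁ hm₁ x hx) (by positivity)
        _ = (1 / 3 : ℝ) ^ h * ∑ y ∈ Lset h, wG (1 / 4) h y * trap ρ (4 ^ h * 0 + κ * m₁ - y) := by
            rw [sum_const, hcard, nsmul_eq_mul, pow_succ]
            push_cast
            ring
        _ = ∑ y ∈ Lset h, (1 / 3 : ℝ) ^ h * wG (1 / 4) h y * trap ρ (4 ^ h * 0 + κ * m₁ - y) := by
            rw [mul_sum]
            refine sum_congr rfl ?_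
            intro y _
            ring
    calc 4 ^ (h + 1) * ∑ m₁ ∈ Lset h, ∑ x ∈ dig,
          (1 / 3 : ℝ) ^ (h + 1) * wG (1 / 4) (h + 1) (round (κ * ((4 * m₁ + x : ℤ) : ℝ)))
        ≤ 4 ^ (h + 1) * ∑ m₁ ∈ Lset h, ∑ y ∈ Lset h,
          (1 / 3 : ℝ) ^ h * wG (1 / 4) h y * trap ρ (4 ^ h * 0 + κ * m₁ - y) :=
          mul_le_mul_of_nonneg_left (sum_le_sum h3) (by positivity)
      _ = 4 * (4 ^ h * ∑ m ∈ Lset h, ∑ y ∈ Lset h,
          (1 / 3 : ℝ) ^ h * wG (1 / 4) h y * trap ρ (4 ^ h * 0 + κ * m - y)) := by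
          rw [pow_succ]; ring

end Pool.Agent.C52.RR11
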