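import Pool.Agent.Lib.MP_c52340_c5.Defs
import Pool.Agent.Lib.MP_c52340_c5.B4
import Pool.Agent.Lib.MP_c52340_c5.R9


set_option autoImplicit false

open Finset

open Pool.Agent.C52.RB4 (B4)
open Pool.Agent.C52.RR9 (R9)

namespace Pool.Agent.C52.RR12

/-- Row R12.  Lower bound through a prefix.
Recipe: R9 with `a = i`, `b = h`, `D = 0`, keep one term; `wG (1/4) i y ≥ (1/4)^i` (B4). -/
theorem R12 (ρ : ℝ) (h0 : 0 < ρ) (h1 : ρ < 1 / 2) (κ : ℝ) (i h : ℕ) (m y : ℤ) (hm : m ∈ Lset i)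
    (hy : y ∈ Lset i) : (1 / 3 : ℝ) ^ i * eta ρ h κ (κ * m - y) ≤ eta ρ (i + h) κ 0 := by
  obtain ⟨hcomp, hpos, -, -⟩ := R9 ρ h0 h1
  rw [hcomp i h κ 0]
  have hw : ∀ z, 0 ≤ wG (1 / 4) i z := fun z => B4.1 (1 / 4) (by norm_num) (by norm_num) i z
  have hterm : ∀ m' y' : ℤ, 0 ≤ (1 / 3 : ℝ) ^ i * wG (1 / 4) i y' *
      eta ρ h κ (4 ^ i * 0 + κ * m' - y') := fun m' y' =>
    mul_nonneg (mul_nonneg (by positivity) (hw y')) (hpos h κ _)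
  have e1 : (1 / 3 : ℝ) ^ i * wG (1 / 4) i y * eta ρ h κ (4 ^ i * 0 + κ * m - y) ≤
      ∑ y' ∈ Lset i, (1 / 3 : ℝ) ^ i * wG (1 / 4) i y' * eta ρ h κ (4 ^ i * 0 + κ * m - y') :=
    Finset.single_le_sum (f := fun y' : ℤ => (1 / 3 : ℝ) ^ i * wG (1 / 4) i y' *
      eta ρ h κ (4 ^ i * 0 + κ * m - y')) (fun y' _ => hterm m y') hy
  have e2 : ∑ y' ∈ Lset i, (1 / 3 : ℝ) ^ i * wG (1 / 4) i y' *
        eta ρ h κ (4 ^ i * 0 + κ * m - y') ≤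
      ∑ m' ∈ Lset i, ∑ y' ∈ Lset i, (1 / 3 : ℝ) ^ i * wG (1 / 4) i y' *
        eta ρ h κ (4 ^ i * 0 + κ * m' - y') :=
    Finset.single_le_sum (f := fun m' : ℤ => ∑ y' ∈ Lset i, (1 / 3 : ℝ) ^ i * wG (1 / 4) i y' *
      eta ρ h κ (4 ^ i * 0 + κ * m' - y')) (fun m' _ => Finset.sum_nonneg fun y' _ => hterm m' y') hm
  have e3 : (1 / 4 : ℝ) ^ i ≤ wG (1 / 4) i y := B4.2.2.2.2.1 i y hy
  have e4 : (0 : ℝ) ≤ eta ρ h κ (κ * m - y) := hpos h κ _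
  have e5 : (4 : ℝ) ^ i * (1 / 4) ^ i = 1 := by
    rw [← mul_pow]
    norm_num
  have e6 : (4 : ℝ) ^ i * 0 + κ * m - y = κ * m - y := by ring
  rw [e6] at e1
  calc (1 / 3 : ℝ) ^ i * eta ρ h κ (κ * m - y)
      = (4 ^ i * (1 / 4) ^ i) * ((1 / 3 : ℝ) ^ i * eta ρ h κ (κ * m - y)) := by rw [e5, one_mul]
    _ = 4 ^ i * ((1 / 3 : ℝ) ^ i * (1 / 4) ^ i * eta ρ h κ (κ * m - y)) := by ring
    _ ≤ 4 ^ i * ((1 / 3 : ℝ) ^ i * wG (1 / 4) i y * eta ρ h κ (κ * m - y)) := by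
        refine mul_le_mul_of_nonneg_left ?_ (by positivity)
        refine mul_le_mul_of_nonneg_right ?_ e4
        exact mul_le_mul_of_nonneg_left e3 (by positivity)
    _ ≤ _ := mul_le_mul_of_nonneg_left (e1.trans e2) (by positivity)

end Pool.Agent.C52.RR12
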