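import Pool.Agent.Lib.MP_c52340_c5.Defs


set_option autoImplicit false

open Finset


namespace Pool.Agent.C52.RR13

private theorem R13_mem {n : ℕ} {m t : ℤ} (hm : m ∈ Lset n) (ht : t ∈ dig) :
    4 * m + t ∈ Lset (n + 1) := by
  show _ ∈ (Lset n ×ˢ dig).image (fun p => 4 * p.1 + p.2)
  exact Finset.mem_image.2 ⟨(m, t), Finset.mem_product.2 ⟨hm, ht⟩, rfl⟩

private theorem R13_choice_pos (κ E : ℝ) (h1 : 1 / 8 ≤ κ) (h2 : κ ≤ 1 / 2) (h0 : 0 ≤ E)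
    (hE : E ≤ 4 * ((1 + κ) / 3)) :
    ∃ x ∈ dig, ∃ t ∈ dig, |E + κ * (x : ℝ) - (t : ℝ)| ≤ (1 + κ) / 3 := by
  have d0 : (0 : ℤ) ∈ dig := by decide
  have d1 : (1 : ℤ) ∈ dig := by decide
  have dm : (-1 : ℤ) ∈ dig := by decide
  by_cases e1 : E ≤ (1 + κ) / 3
  · exact ⟨0, d0, 0, d0, by push_cast; rw [abs_le]; constructor <;> linarith⟩
  by_cases e2 : E ≤ κ + (1 + κ) / 3
  · exact ⟨-1, dm, 0, d0, by push_cast; rw [abs_le]; constructor <;> linarith⟩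
  by_cases e3 : E ≤ (1 - κ) + (1 + κ) / 3
  · exact ⟨1, d1, 1, d1, by push_cast; rw [abs_le]; constructor <;> linarith⟩
  by_cases e4 : E ≤ 1 + (1 + κ) / 3
  · exact ⟨0, d0, 1, d1, by push_cast; rw [abs_le]; constructor <;> linarith⟩
  · exact ⟨-1, dm, 1, d1, by push_cast; rw [abs_le]; constructor <;> linarith⟩

private theorem R13_choice (κ E : ℝ) (h1 : 1 / 8 ≤ κ) (h2 : κ ≤ 1 / 2)
    (hE : |E| ≤ 4 * ((1 + κ) / 3)) :
    ∃ x ∈ dig, ∃ t ∈ dig, |E + κ * (x : ℝ) - (t : ℝ)| ≤ (1 + κ) / 3 := by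
  rw [abs_le] at hE
  rcases le_total 0 E with h | h
  · exact R13_choice_pos κ E h1 h2 h hE.2
  · obtain ⟨x, hx, t, ht, hxt⟩ := R13_choice_pos κ (-E) h1 h2 (by linarith) (by linarith)
    have hneg : ∀ z ∈ dig, -z ∈ dig := by decide
    refine ⟨-x, hneg x hx, -t, hneg t ht, ?_⟩
    rw [← abs_neg]
    have e : -(E + κ * ((-x : ℤ) : ℝ) - ((-t : ℤ) : ℝ)) = -E + κ * (x : ℝ) - (t : ℝ) := by
      push_cast; ring
    rw [e]; exact hxt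

/-- Row R13.  Greedy prefixes.
Recipe: induction on `i` (new LOW digits): `i = 1`: `m = 1`, `y = 0`.  Step: `D = κ m - y`, `|D| ≤ (1+κ)/3`; choose
`(x, t) ∈ {-1,0,1}²` with `|4 D + κ x - t| ≤ (1+κ)/3`: for `4 D > 0` the candidates subtract one of
`0, κ, 1-κ, 1, 1+κ` (gaps `κ`, `1 - 2κ`, `κ`, `κ`, all `≤ 2(1+κ)/3` since `1/8 ≤ κ ≤ 1/2`) and
`4 D ≤ 4(1+κ)/3 = (1+κ) + (1+κ)/3`; symmetric for `4 D < 0`.  `3 m ≥ 2*4^(i-1)` persists in the form `3 m ≥ 2*4^(i-1) + 1`. -/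
theorem R13 (κ : ℝ) (h1 : 1 / 8 ≤ κ) (h2 : κ ≤ 1 / 2) (i : ℕ) (hi : 1 ≤ i) :
    ∃ m ∈ Lset i, ∃ y ∈ Lset i, 2 * 4 ^ (i - 1) ≤ 3 * m ∧ |κ * m - y| ≤ (1 + κ) / 3 := by
  have key : ∀ j : ℕ, ∃ m ∈ Lset (j + 1), ∃ y ∈ Lset (j + 1),
      2 * 4 ^ j + 1 ≤ 3 * m ∧ |κ * (m : ℝ) - (y : ℝ)| ≤ (1 + κ) / 3 := by
    intro j
    induction j with
    | zero =>
      refine ⟨1, by decide, 0, by decide, by norm_num, ?_⟩
      push_cast
      rw [abs_le]; constructor <;> linarith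
    | succ j ih =>
      obtain ⟨m, hm, y, hy, h3, h4⟩ := ih
      have h5 : |4 * (κ * (m : ℝ) - (y : ℝ))| ≤ 4 * ((1 + κ) / 3) := by
        rw [abs_mul, abs_of_pos (by norm_num : (0 : ℝ) < 4)]
        linarith
      obtain ⟨x, hx, t, ht, hxt⟩ := R13_choice κ _ h1 h2 h5
      refine ⟨4 * m + x, R13_mem hm hx, 4 * y + t, R13_mem hy ht, ?_, ?_⟩
      · have hx1 : -1 ≤ x := by
          have : ∀ z ∈ dig, -1 ≤ z := by decide
          exact this x hx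
        have h6 : (4 : ℤ) ^ (j + 1) = 4 * 4 ^ j := by ring
        rw [h6]
        omega
      · have e : κ * ((4 * m + x : ℤ) : ℝ) - ((4 * y + t : ℤ) : ℝ) =
            4 * (κ * (m : ℝ) - (y : ℝ)) + κ * (x : ℝ) - (t : ℝ) := by
          push_cast; ring
        rw [e]; exact hxt
  obtain ⟨j, rfl⟩ : ∃ j, i = j + 1 := ⟨i - 1, by omega⟩
  obtain ⟨m, hm, y, hy, h3, h4⟩ := key j
  refine ⟨m, hm, y, hy, ?_, h4⟩
  simp only [Nat.add_sub_cancel]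
  omega

end Pool.Agent.C52.RR13
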