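import Pool.Agent.Lib.MP_c52340_c5.Defs
import Pool.Agent.Lib.MP_c52340_c5.B2
import Pool.Agent.Lib.MP_c52340_c5.R13


set_option autoImplicit false

open Finset

open Pool.Agent.C52.RB2 (B2)
open Pool.Agent.C52.RR13 (R13)

namespace Pool.Agent.C52.RR14

/-- Row R14.  One step of the hitting argument.
Recipe: `κ₀` the centre, `i ≥ 1` with `3 ≤ 4^(i-1) (v - u) < 12`, `(m, y)` from R13 for `κ₀`: `κ m - y` is increasing in `κ`, at the ends of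
`[u, v]` it is `≤ 1/2 - 1` and `≥ -1/2 + 1` since `m (v-u)/2 ≥ (2/3) 4^(i-1) (v-u)/2 ≥ 1`; take `u' = (s + y)/m`, `v' = (s + τ + y)/m`, and
`m (v - u) ≤ (4^i/3)(v-u) ≤ 16`. -/
theorem R14 (u v s τ : ℝ) (hu : 1 / 8 ≤ u) (huv : u < v) (hv : v ≤ 1 / 2) (hs : -(1 / 2) ≤ s) (hτ : 0 < τ)
    (hst : s + τ ≤ 1 / 2) :
    ∃ (i : ℕ) (m y : ℤ) (u' v' : ℝ), m ∈ Lset i ∧ y ∈ Lset i ∧ u ≤ u' ∧ u' ≤ v' ∧ v' ≤ v ∧
      τ * (v - u) / 16 ≤ v' - u' ∧ ∀ κ, u' ≤ κ → κ ≤ v' → s ≤ κ * m - y ∧ κ * m - y ≤ s + τ := by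
  have hd : 0 < v - u := by linarith
  have hx : 1 ≤ 3 / (v - u) := by
    rw [le_div_iff₀ hd]
    linarith
  obtain ⟨n, hn1, hn2⟩ := exists_nat_pow_near hx (by norm_num : (1 : ℝ) < 4)
  rw [le_div_iff₀ hd] at hn1
  rw [div_lt_iff₀ hd] at hn2
  obtain ⟨m, hm, y, hy, h1, h2⟩ := R13 ((u + v) / 2) (by linarith) (by linarith) (n + 2) (by omega)
  have h1' : (2 : ℝ) * 4 ^ (n + 1) ≤ 3 * m := by
    have : (2 : ℤ) * 4 ^ (n + 1) ≤ 3 * m := by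
      have e : n + 2 - 1 = n + 1 := by omega
      rw [e] at h1
      exact h1
    exact_mod_cast this
  have h3 : (3 : ℝ) * m ≤ 4 ^ (n + 2) := by
    have h4 := B2.1 (n + 2) m hm
    have h5 := le_abs_self m
    have : (3 : ℤ) * m ≤ 4 ^ (n + 2) := by omega
    exact_mod_cast this
  have h4p : (0 : ℝ) < 4 ^ n := by positivity
  have e1 : (4 : ℝ) ^ (n + 1) = 4 * 4 ^ n := by rw [pow_succ]; ring
  have e2 : (4 : ℝ) ^ (n + 2) = 16 * 4 ^ n := by rw [pow_succ, pow_succ]; ring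
  rw [e1] at h1' hn2
  rw [e2] at h3
  have hm0 : (0 : ℝ) < m := by linarith
  rw [abs_le] at h2
  obtain ⟨h2a, h2b⟩ := h2
  have hmd : 2 ≤ (m : ℝ) * (v - u) := by nlinarith
  have hmd2 : (m : ℝ) * (v - u) ≤ 16 := by nlinarith
  refine ⟨n + 2, m, y, (s + y) / m, (s + τ + y) / m, hm, hy, ?_, ?_, ?_, ?_, ?_⟩
  · rw [le_div_iff₀ hm0]
    nlinarith
  · rw [div_le_div_iff_of_pos_right hm0]
    linarith
  · rw [div_le_iff₀ hm0]
    nlinarith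
  · have e3 : (s + τ + y) / m - (s + y) / m = τ / m := by
      rw [← sub_div]
      ring
    rw [e3, div_le_div_iff₀ (by norm_num) hm0]
    nlinarith
  · intro κ hκ1 hκ2
    rw [div_le_iff₀ hm0] at hκ1
    rw [le_div_iff₀ hm0] at hκ2
    constructor <;> linarith

end Pool.Agent.C52.RR14
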