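import Pool.Agent.Lib.MP_c52340_c5.Defs
import Pool.Agent.Lib.MP_c52340_c5.R14


set_option autoImplicit false

open Finset

open Pool.Agent.C52.RR14 (R14)

namespace Pool.Agent.C52.RR15

private lemma Hit_mono {I I' : ℕ} (h : I ≤ I') {s τ κ : ℝ} (hh : Hit I s τ κ) : Hit I' s τ κ := by
  obtain ⟨i, hi, r⟩ := hh
  exact ⟨i, hi.trans h, r⟩

/-- one round on a list of intervals -/
private lemma round_step (s τ : ℝ) (hs : -(1 / 2) ≤ s) (hτ : 0 < τ) (hst : s + τ ≤ 1 / 2) :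
    ∀ l : List (ℝ × ℝ), (∀ p ∈ l, 1 / 8 ≤ p.1 ∧ p.1 ≤ p.2 ∧ p.2 ≤ 1 / 2) →
      ∃ (I₀ : ℕ) (l' : List (ℝ × ℝ)), (∀ p ∈ l', 1 / 8 ≤ p.1 ∧ p.1 ≤ p.2 ∧ p.2 ≤ 1 / 2) ∧
        (l'.map (fun p => p.2 - p.1)).sum ≤ (1 - τ / 16) * (l.map (fun p => p.2 - p.1)).sum ∧
        ∀ p ∈ l, ∀ κ, p.1 ≤ κ → κ ≤ p.2 → Hit I₀ s τ κ ∨ ∃ q ∈ l', q.1 ≤ κ ∧ κ ≤ q.2 := by
  intro l
  induction l with
  | nil =>
    intro _
    exact ⟨0, [], by simp, by simp, by simp⟩
  | cons p l ih =>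
    intro hl
    obtain ⟨I₁, l₁, h1, h2, h3⟩ := ih (fun q hq => hl q (List.mem_cons_of_mem _ hq))
    obtain ⟨p1, p2, p3⟩ := hl p List.mem_cons_self
    rcases p2.lt_or_eq with hlt | heq
    · obtain ⟨i, m, y, u', v', hm, hy, g1, g2, g3, g4, g5⟩ := R14 p.1 p.2 s τ p1 hlt p3 hs hτ hst
      refine ⟨max i I₁, (p.1, u') :: (v', p.2) :: l₁, ?_, ?_, ?_⟩
      · intro q hq
        rcases List.mem_cons.1 hq with rfl | hq
        · exact ⟨p1, g1, by show u' ≤ 1 / 2; linarith⟩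
        · rcases List.mem_cons.1 hq with rfl | hq
          · exact ⟨by show 1 / 8 ≤ v'; linarith, g3, p3⟩
          · exact h1 q hq
      · simp only [List.map_cons, List.sum_cons]
        have e : (1 - τ / 16) * (p.2 - p.1 + (l.map (fun p => p.2 - p.1)).sum) =
            (p.2 - p.1 - τ * (p.2 - p.1) / 16) + (1 - τ / 16) * (l.map (fun p => p.2 - p.1)).sum := by
          ring
        rw [e]
        linarith
      · intro q hq κ hκ1 hκ2
        rcases List.mem_cons.1 hq with rfl | hq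
        · rcases le_total κ u' with h | h
          · exact Or.inr ⟨(q.1, u'), List.mem_cons_self, hκ1, h⟩
          · rcases le_total κ v' with h' | h'
            · left
              exact ⟨i, le_max_left _ _, m, hm, y, hy, g5 κ h h'⟩
            · exact Or.inr ⟨(v', q.2), List.mem_cons_of_mem _ List.mem_cons_self, h', hκ2⟩
        · rcases h3 q hq κ hκ1 hκ2 with h | ⟨q', hq', h⟩
          · exact Or.inl (Hit_mono (le_max_right _ _) h)
          · exact Or.inr ⟨q', List.mem_cons_of_mem _ (List.mem_cons_of_mem _ hq'), h⟩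
    · refine ⟨I₁, p :: l₁, ?_, ?_, ?_⟩
      · intro q hq
        rcases List.mem_cons.1 hq with rfl | hq
        · exact ⟨p1, p2, p3⟩
        · exact h1 q hq
      · simp only [List.map_cons, List.sum_cons]
        rw [heq, sub_self, zero_add, zero_add]
        exact h2
      · intro q hq κ hκ1 hκ2
        rcases List.mem_cons.1 hq with rfl | hq
        · exact Or.inr ⟨q, List.mem_cons_self, hκ1, hκ2⟩
        · rcases h3 q hq κ hκ1 hκ2 with h | ⟨q', hq', h⟩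
          · exact Or.inl h
          · exact Or.inr ⟨q', List.mem_cons_of_mem _ hq', h⟩

/-- Row R15.  Iterated hitting.
Recipe: induction on the number `n` of rounds: there are `I₀` and a finite list of intervals of total length `≤ (1 - τ/16)^n (v-u)` outside
which `Hit` holds; in a round replace each (nondegenerate) interval by the two pieces left by R14 (`Hit` is monotone in `I₀`). -/
theorem R15 (u v s τ : ℝ) (hu : 1 / 8 ≤ u) (huv : u < v) (hv : v ≤ 1 / 2) (hs : -(1 / 2) ≤ s) (hτ : 0 < τ)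
    (hst : s + τ ≤ 1 / 2) (ε : ℝ) (hε : 0 < ε) :
    ∃ (I₀ : ℕ) (l : List (ℝ × ℝ)), (∀ p ∈ l, p.1 ≤ p.2) ∧ (l.map (fun p => p.2 - p.1)).sum ≤ ε ∧
      ∀ κ, u ≤ κ → κ ≤ v → Hit I₀ s τ κ ∨ ∃ p ∈ l, p.1 ≤ κ ∧ κ ≤ p.2 := by
  have hr0 : 0 ≤ 1 - τ / 16 := by linarith
  have hr1 : 1 - τ / 16 < 1 := by linarith
  have key : ∀ n : ℕ, ∃ (I₀ : ℕ) (l : List (ℝ × ℝ)), (∀ p ∈ l, 1 / 8 ≤ p.1 ∧ p.1 ≤ p.2 ∧ p.2 ≤ 1 / 2) ∧
      (l.map (fun p => p.2 - p.1)).sum ≤ (1 - τ / 16) ^ n * (v - u) ∧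
      ∀ κ, u ≤ κ → κ ≤ v → Hit I₀ s τ κ ∨ ∃ p ∈ l, p.1 ≤ κ ∧ κ ≤ p.2 := by
    intro n
    induction n with
    | zero =>
      refine ⟨0, [(u, v)], ?_, ?_, ?_⟩
      · intro p hp
        rw [List.mem_singleton] at hp
        subst hp
        exact ⟨hu, huv.le, hv⟩
      · simp
      · intro κ h1 h2
        exact Or.inr ⟨(u, v), List.mem_singleton.2 rfl, h1, h2⟩
    | succ n ih =>
      obtain ⟨I₁, l₁, h1, h2, h3⟩ := ih
      obtain ⟨I₂, l₂, g1, g2, g3⟩ := round_step s τ hs hτ hst l₁ h1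
      refine ⟨max I₁ I₂, l₂, g1, ?_, ?_⟩
      · refine g2.trans ?_
        rw [pow_succ, mul_comm ((1 - τ / 16) ^ n), mul_assoc]
        exact mul_le_mul_of_nonneg_left h2 hr0
      · intro κ hκ1 hκ2
        rcases h3 κ hκ1 hκ2 with h | ⟨p, hp, hp1, hp2⟩
        · exact Or.inl (Hit_mono (le_max_left _ _) h)
        · rcases g3 p hp κ hp1 hp2 with h | h
          · exact Or.inl (Hit_mono (le_max_right _ _) h)
          · exact Or.inr h
  obtain ⟨n, hn⟩ := exists_pow_lt_of_lt_one hε hr1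
  obtain ⟨I₀, l, h1, h2, h3⟩ := key n
  refine ⟨I₀, l, fun p hp => (h1 p hp).2.1, h2.trans ?_, h3⟩
  have h5 : (0 : ℝ) ≤ (1 - τ / 16) ^ n := pow_nonneg hr0 n
  nlinarith

end Pool.Agent.C52.RR15
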