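import Pool.Agent.Lib.MP_c52340_c5.Defs
import Pool.Agent.Lib.MP_c52340_c5.B2
import Pool.Agent.Lib.MP_c52340_c5.B4
import Pool.Agent.Lib.MP_c52340_c5.R2


set_option autoImplicit false

open Finset

open Pool.Agent.C52.RB2 (B2)
open Pool.Agent.C52.RB4 (B4)
open Pool.Agent.C52.RR2 (R2)

namespace Pool.Agent.C52.RR16

private lemma Lset_bd' (N : ℕ) (m : ℤ) (hm : m ∈ Lset N) : |(m : ℝ)| ≤ (4 ^ N - 1) / 3 := by
  have h := B2.1 N m hm
  have h' : (3 : ℝ) * |(m : ℝ)| ≤ 4 ^ N - 1 := by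
    rw [← Int.cast_abs]
    exact_mod_cast h
  linarith

private lemma wG_nonneg' (n : ℕ) (y : ℤ) : 0 ≤ wG (1 / 4) n y := B4.1 (1 / 4) (by norm_num) (by norm_num) n y

private lemma total_mass (l : ℕ) : ∑ m ∈ Lset l, ∑ y ∈ Lset l, (1 / 3 : ℝ) ^ l * wG (1 / 4) l y = 1 := by
  have h1 : ∀ m ∈ Lset l, ∑ y ∈ Lset l, (1 / 3 : ℝ) ^ l * wG (1 / 4) l y = (1 / 3 : ℝ) ^ l := by
    intro m _
    rw [← Finset.mul_sum, B4.2.2.1 (1 / 4) l, mul_one]
  rw [Finset.sum_congr rfl h1, Finset.sum_const, B2.2.1 l, nsmul_eq_mul]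
  push_cast
  rw [← mul_pow]
  norm_num

private lemma trap_cont (ρ : ℝ) : Continuous (trap ρ) := by
  unfold trap
  fun_prop

private lemma trap_integral (ρ : ℝ) (h0 : 0 < ρ) (h1 : ρ < 1 / 2) :
    ∫ t in (-(1 / 2) : ℝ)..(1 / 2), trap ρ t = 1 / 2 + ρ := by
  have hi : ∀ a b : ℝ, IntervalIntegrable (trap ρ) MeasureTheory.volume a b :=
    fun a b => (trap_cont ρ).intervalIntegrable a b
  have hd : 0 < 1 / 2 - ρ := by linarith
  rw [← intervalIntegral.integral_add_adjacent_intervals (hi (-(1 / 2)) ρ) (hi ρ (1 / 2)),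
    ← intervalIntegral.integral_add_adjacent_intervals (hi (-(1 / 2)) (-ρ)) (hi (-ρ) ρ)]
  have e1 : ∫ t in (-(1 / 2) : ℝ)..(-ρ), trap ρ t = (1 / 2 - ρ) / 2 := by
    have : ∫ t in (-(1 / 2) : ℝ)..(-ρ), trap ρ t = ∫ t in (-(1 / 2) : ℝ)..(-ρ), (1 / 2 + t) / (1 / 2 - ρ) := by
      apply intervalIntegral.integral_congr
      intro t ht
      rw [Set.uIcc_of_le (by linarith)] at ht
      obtain ⟨t1, t2⟩ := ht
      show trap ρ t = (1 / 2 + t) / (1 / 2 - ρ)
      unfold trap
      rw [abs_of_nonpos (by linarith)]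
      have a1 : (1 / 2 - -t) / (1 / 2 - ρ) ≤ 1 := by
        rw [div_le_one hd]
        linarith
      have a2 : 0 ≤ (1 / 2 - -t) / (1 / 2 - ρ) := div_nonneg (by linarith) hd.le
      rw [min_eq_right a1, max_eq_right a2]
      ring
    rw [this, intervalIntegral.integral_div, intervalIntegral.integral_add (by simp) (by simp),
      integral_id, intervalIntegral.integral_const, smul_eq_mul, div_eq_iff hd.ne']
    ring
  have e2 : ∫ t in (-ρ)..ρ, trap ρ t = 2 * ρ := by
    have : ∫ t in (-ρ)..ρ, trap ρ t = ∫ _t in (-ρ)..ρ, (1 : ℝ) := by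
      apply intervalIntegral.integral_congr
      intro t ht
      rw [Set.uIcc_of_le (by linarith)] at ht
      obtain ⟨t1, t2⟩ := ht
      show trap ρ t = 1
      exact (R2 ρ h0 h1).2.2.1 t (abs_le.2 ⟨t1, t2⟩)
    rw [this, intervalIntegral.integral_const, smul_eq_mul]
    ring
  have e3 : ∫ t in ρ..(1 / 2), trap ρ t = (1 / 2 - ρ) / 2 := by
    have : ∫ t in ρ..(1 / 2), trap ρ t = ∫ t in ρ..(1 / 2), (1 / 2 - t) / (1 / 2 - ρ) := by
      apply intervalIntegral.integral_congr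
      intro t ht
      rw [Set.uIcc_of_le (by linarith)] at ht
      obtain ⟨t1, t2⟩ := ht
      show trap ρ t = (1 / 2 - t) / (1 / 2 - ρ)
      unfold trap
      rw [abs_of_nonneg (by linarith)]
      have a1 : (1 / 2 - t) / (1 / 2 - ρ) ≤ 1 := by
        rw [div_le_one hd]
        linarith
      have a2 : 0 ≤ (1 / 2 - t) / (1 / 2 - ρ) := div_nonneg (by linarith) hd.le
      rw [min_eq_right a1, max_eq_right a2]
    rw [this, intervalIntegral.integral_div, intervalIntegral.integral_sub (by simp) (by simp),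
      integral_id, intervalIntegral.integral_const, smul_eq_mul, div_eq_iff hd.ne']
    ring
  rw [e1, e2, e3]
  ring

/-- Row R16.  A good target.
Recipe: the integral of `D ↦ eta ρ l κ D` over `[-1/2, 1/2]` is `1/2 + ρ ≥ 0.9` (support R9; `∫ trap ρ (4^l D + c) dD = 4^{-l} (1/2 + ρ)`,
total mass one), so some `D` has `eta ρ l κ D ≥ 0.9`.  Lipschitz in `(κ, D)`: R2 and `|m| ≤ 4^l`. -/
theorem R16 (ρ : ℝ) (h0 : 2 / 5 ≤ ρ) (h1 : ρ < 1 / 2) (l : ℕ) :
    (∀ κ, 0 ≤ κ → κ ≤ 1 / 2 → ∃ D, -(1 / 2) ≤ D ∧ D ≤ 1 / 2 ∧ 9 / 10 ≤ eta ρ l κ D) ∧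
    (∃ C : ℝ, 0 < C ∧ ∀ κ κ' D D' : ℝ, |eta ρ l κ D - eta ρ l κ' D'| ≤ C * (|κ - κ'| + |D - D'|)) := by
  have h4 : (0 : ℝ) < 4 ^ l := by positivity
  have hρ0 : 0 < ρ := by linarith
  have hd : 0 < 1 / 2 - ρ := by linarith
  obtain ⟨_, htr, _, _, hLip, _⟩ := R2 ρ hρ0 h1
  constructor
  · intro κ hκ0 hκ1
    by_contra hcon
    push Not at hcon
    have hcontF : Continuous (fun D => eta ρ l κ D) := by
      unfold eta
      have := trap_cont ρ
      fun_prop
    -- lower bound for the integral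
    have hint : 9 / 10 ≤ ∫ D in (-(1 / 2) : ℝ)..(1 / 2), eta ρ l κ D := by
      have hii : ∀ m y : ℤ, IntervalIntegrable (fun D : ℝ => (1 / 3 : ℝ) ^ l * wG (1 / 4) l y *
          trap ρ (4 ^ l * D + κ * m - y)) MeasureTheory.volume (-(1 / 2)) (1 / 2) := by
        intro m y
        apply Continuous.intervalIntegrable
        have := trap_cont ρ
        fun_prop
      have e1 : ∫ D in (-(1 / 2) : ℝ)..(1 / 2), eta ρ l κ D = 4 ^ l * ∑ m ∈ Lset l, ∑ y ∈ Lset l,
          (1 / 3 : ℝ) ^ l * wG (1 / 4) l y * ∫ D in (-(1 / 2) : ℝ)..(1 / 2), trap ρ (4 ^ l * D + κ * m - y) := by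
        unfold eta
        rw [intervalIntegral.integral_const_mul, intervalIntegral.integral_finsetSum]
        · congr 1
          apply Finset.sum_congr rfl
          intro m _
          rw [intervalIntegral.integral_finsetSum]
          · apply Finset.sum_congr rfl
            intro y _
            rw [intervalIntegral.integral_const_mul]
          · intro y _
            exact hii m y
        · intro m _
          apply Continuous.intervalIntegrable
          have := trap_cont ρ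
          fun_prop
      have e2 : ∀ m ∈ Lset l, ∀ y ∈ Lset l,
          (1 / 4 ^ l) * (9 / 10) ≤ ∫ D in (-(1 / 2) : ℝ)..(1 / 2), trap ρ (4 ^ l * D + κ * m - y) := by
        intro m hm y hy
        have hm' := abs_le.1 (Lset_bd' l m hm)
        have hy' := abs_le.1 (Lset_bd' l y hy)
        have e3 : ∫ D in (-(1 / 2) : ℝ)..(1 / 2), trap ρ (4 ^ l * D + κ * m - y) =
            ∫ D in (-(1 / 2) : ℝ)..(1 / 2), trap ρ (4 ^ l * D + (κ * m - y)) := by
          congr 1
          funext D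
          congr 1
          ring
        rw [e3, intervalIntegral.integral_comp_mul_add _ h4.ne', smul_eq_mul, one_div]
        apply mul_le_mul_of_nonneg_left _ (by positivity)
        have hκm : |κ * (m : ℝ)| ≤ (4 ^ l - 1) / 6 := by
          rw [abs_mul, abs_of_nonneg hκ0]
          have h5 := Lset_bd' l m hm
          have h6 := abs_nonneg (m : ℝ)
          nlinarith
        have hκm' := abs_le.1 hκm
        have h7 := trap_integral ρ hρ0 h1
        have h8 : ∫ t in (-(1 / 2) : ℝ)..(1 / 2), trap ρ t ≤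
            ∫ t in (4 ^ l * (-(1 / 2)) + (κ * m - y))..(4 ^ l * (1 / 2) + (κ * m - y)), trap ρ t := by
          apply intervalIntegral.integral_mono_interval
          · linarith [hκm'.2, hy'.1]
          · norm_num
          · linarith [hκm'.1, hy'.2]
          · exact Filter.Eventually.of_forall fun t => (htr t).1
          · exact (trap_cont ρ).intervalIntegrable _ _
        linarith
      rw [e1]
      have e4 : ∑ m ∈ Lset l, ∑ y ∈ Lset l, (1 / 3 : ℝ) ^ l * wG (1 / 4) l y * ((1 / 4 ^ l) * (9 / 10)) ≤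
          ∑ m ∈ Lset l, ∑ y ∈ Lset l,
          (1 / 3 : ℝ) ^ l * wG (1 / 4) l y * ∫ D in (-(1 / 2) : ℝ)..(1 / 2), trap ρ (4 ^ l * D + κ * m - y) := by
        apply Finset.sum_le_sum
        intro m hm
        apply Finset.sum_le_sum
        intro y hy
        apply mul_le_mul_of_nonneg_left (e2 m hm y hy)
        exact mul_nonneg (by positivity) (wG_nonneg' l y)
      have e5 : ∑ m ∈ Lset l, ∑ y ∈ Lset l, (1 / 3 : ℝ) ^ l * wG (1 / 4) l y * ((1 / 4 ^ l) * (9 / 10)) =
          (1 / 4 ^ l) * (9 / 10) := by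
        have : ∑ m ∈ Lset l, ∑ y ∈ Lset l, (1 / 3 : ℝ) ^ l * wG (1 / 4) l y * ((1 / 4 ^ l) * (9 / 10)) =
            (∑ m ∈ Lset l, ∑ y ∈ Lset l, (1 / 3 : ℝ) ^ l * wG (1 / 4) l y) * ((1 / 4 ^ l) * (9 / 10)) := by
          rw [Finset.sum_mul]
          apply Finset.sum_congr rfl
          intro m _
          rw [Finset.sum_mul]
        rw [this, total_mass, one_mul]
      rw [e5] at e4
      have e6 := mul_le_mul_of_nonneg_left e4 h4.le
      have e7 : (4 : ℝ) ^ l * (1 / 4 ^ l * (9 / 10)) = 9 / 10 := by field_simp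
      rw [e7] at e6
      exact e6
    have hlt : ∫ D in (-(1 / 2) : ℝ)..(1 / 2), eta ρ l κ D < ∫ _D in (-(1 / 2) : ℝ)..(1 / 2), (9 / 10 : ℝ) := by
      apply intervalIntegral.integral_lt_integral_of_continuousOn_of_le_of_exists_lt (by norm_num)
      · exact hcontF.continuousOn
      · exact continuousOn_const
      · intro x hx
        exact (hcon x hx.1.le hx.2).le
      · exact ⟨0, ⟨by norm_num, by norm_num⟩, hcon 0 (by norm_num) (by norm_num)⟩
    rw [intervalIntegral.integral_const, smul_eq_mul] at hlt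
    norm_num at hlt hint
    linarith
  · refine ⟨4 ^ l * (4 ^ l / (1 / 2 - ρ)), by positivity, ?_⟩
    intro κ κ' D D'
    unfold eta
    rw [← mul_sub, abs_mul, abs_of_pos h4, mul_assoc]
    apply mul_le_mul_of_nonneg_left _ h4.le
    rw [← Finset.sum_sub_distrib]
    have hterm : ∀ m ∈ Lset l, ∀ y ∈ Lset l,
        |trap ρ (4 ^ l * D + κ * m - y) - trap ρ (4 ^ l * D' + κ' * m - y)| ≤
          4 ^ l / (1 / 2 - ρ) * (|κ - κ'| + |D - D'|) := by
      intro m hm y _
      refine (hLip _ _).trans ?_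
      rw [div_mul_eq_mul_div, div_le_div_iff_of_pos_right hd]
      have e : 4 ^ l * D + κ * m - y - (4 ^ l * D' + κ' * m - y) = 4 ^ l * (D - D') + (κ - κ') * m := by ring
      rw [e]
      have h5 := Lset_bd' l m hm
      refine (abs_add_le _ _).trans ?_
      rw [abs_mul, abs_mul, abs_of_pos h4]
      have h6 : |κ - κ'| * |(m : ℝ)| ≤ |κ - κ'| * 4 ^ l :=
        mul_le_mul_of_nonneg_left (by linarith) (abs_nonneg _)
      linarith
    calc |∑ m ∈ Lset l, (∑ y ∈ Lset l, (1 / 3 : ℝ) ^ l * wG (1 / 4) l y * trap ρ (4 ^ l * D + κ * m - y) -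
            ∑ y ∈ Lset l, (1 / 3 : ℝ) ^ l * wG (1 / 4) l y * trap ρ (4 ^ l * D' + κ' * m - y))|
        ≤ ∑ m ∈ Lset l, |∑ y ∈ Lset l, (1 / 3 : ℝ) ^ l * wG (1 / 4) l y * trap ρ (4 ^ l * D + κ * m - y) -
            ∑ y ∈ Lset l, (1 / 3 : ℝ) ^ l * wG (1 / 4) l y * trap ρ (4 ^ l * D' + κ' * m - y)| :=
          Finset.abs_sum_le_sum_abs _ _
      _ ≤ ∑ m ∈ Lset l, ∑ y ∈ Lset l, (1 / 3 : ℝ) ^ l * wG (1 / 4) l y *
            (4 ^ l / (1 / 2 - ρ) * (|κ - κ'| + |D - D'|)) := by
          apply Finset.sum_le_sum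
          intro m hm
          rw [← Finset.sum_sub_distrib]
          refine (Finset.abs_sum_le_sum_abs _ _).trans ?_
          apply Finset.sum_le_sum
          intro y hy
          rw [← mul_sub, abs_mul, abs_of_nonneg (mul_nonneg (by positivity) (wG_nonneg' l y))]
          exact mul_le_mul_of_nonneg_left (hterm m hm y hy) (mul_nonneg (by positivity) (wG_nonneg' l y))
      _ = (∑ m ∈ Lset l, ∑ y ∈ Lset l, (1 / 3 : ℝ) ^ l * wG (1 / 4) l y) *
            (4 ^ l / (1 / 2 - ρ) * (|κ - κ'| + |D - D'|)) := by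
          rw [Finset.sum_mul]
          apply Finset.sum_congr rfl
          intro m _
          rw [Finset.sum_mul]
      _ = 4 ^ l / (1 / 2 - ρ) * (|κ - κ'| + |D - D'|) := by rw [total_mass, one_mul]

end Pool.Agent.C52.RR16
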