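import Pool.Agent.Lib.MP_c52340_c5.Defs
import Pool.Agent.Lib.MP_c52340_c5.R15
import Pool.Agent.Lib.MP_c52340_c5.R16


set_option autoImplicit false

open Finset

open Pool.Agent.C52.RR15 (R15)
open Pool.Agent.C52.RR16 (R16)

namespace Pool.Agent.C52.RR17

/-- Row R17.  Most `κ` reach, after a bounded number of digits, a state with `eta ρ l ≥ 3/5`.
Recipe: partition `[1/8, 1/2]` into small intervals `J₀` of length `≤ 1/(20 C)` (C from R16), for each the target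
`[s, s + τ]` = points of `[-1/2, 1/2]` within `τ = 1/(20 C)` of a good `D` for the centre: on it `eta ρ l κ ≥ 9/10 - 2/20 * ...≥ 3/5` for all
`κ ∈ J₀`; R15 for each piece. -/
theorem R17 (ρ : ℝ) (h0 : 2 / 5 ≤ ρ) (h1 : ρ < 1 / 2) (l : ℕ) (ε : ℝ) (hε : 0 < ε) :
    ∃ (I₀ : ℕ) (L : List (ℝ × ℝ)), (∀ p ∈ L, p.1 ≤ p.2) ∧ (L.map (fun p => p.2 - p.1)).sum ≤ ε ∧
      ∀ κ, 1 / 8 ≤ κ → κ ≤ 1 / 2 → (∃ i ≤ I₀, ∃ m ∈ Lset i, ∃ y ∈ Lset i, 3 / 5 ≤ eta ρ l κ (κ * m - y)) ∨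
        ∃ p ∈ L, p.1 ≤ κ ∧ κ ≤ p.2 := by
  obtain ⟨hgood, C, hC, hLip⟩ := R16 ρ h0 h1 l
  obtain ⟨τ, hτ⟩ : ∃ τ : ℝ, τ = min (1 / 2) (1 / (10 * C)) := ⟨_, rfl⟩
  have hτ0 : 0 < τ := by
    rw [hτ]
    exact lt_min (by norm_num) (by positivity)
  have hτ1 : τ ≤ 1 / 2 := by rw [hτ]; exact min_le_left _ _
  have hτ2 : C * τ ≤ 1 / 10 := by
    have : τ ≤ 1 / (10 * C) := by rw [hτ]; exact min_le_right _ _
    calc C * τ ≤ C * (1 / (10 * C)) := mul_le_mul_of_nonneg_left this hC.le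
      _ = 1 / 10 := by field_simp
  obtain ⟨n, hn⟩ := exists_nat_gt (1 / τ)
  have hn0 : (0 : ℝ) < n := lt_trans (by positivity) hn
  have hn1 : 1 / (n : ℝ) < τ := by
    rw [div_lt_iff₀ hn0]
    rw [div_lt_iff₀ hτ0] at hn
    linarith
  obtain ⟨U, hU⟩ : ∃ U : ℕ → ℝ, U = fun j : ℕ => 1 / 8 + (3 / 8) * ((j : ℝ) / n) := ⟨_, rfl⟩
  have hUs : ∀ j, U (j + 1) - U j = (3 / 8) * (1 / n) := by
    intro j
    rw [hU]
    push_cast
    field_simp
    ring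
  have hUlt : ∀ j, U j < U (j + 1) := by
    intro j
    have h2 := hUs j
    have : 0 < (3 / 8) * (1 / (n : ℝ)) := by positivity
    linarith
  have hUge : ∀ j, 1 / 8 ≤ U j := by
    intro j
    rw [hU]
    have : 0 ≤ (3 / 8) * ((j : ℝ) / n) := by positivity
    show 1 / 8 ≤ 1 / 8 + (3 / 8) * ((j : ℝ) / n)
    linarith
  have hUle : ∀ j : ℕ, j ≤ n → U j ≤ 1 / 2 := by
    intro j hj
    rw [hU]
    have : (j : ℝ) / n ≤ 1 := by
      rw [div_le_one hn0]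
      exact_mod_cast hj
    show 1 / 8 + (3 / 8) * ((j : ℝ) / n) ≤ 1 / 2
    linarith
  -- one piece
  have hpiece : ∀ j : ℕ, j + 1 ≤ n → ∃ (I₀ : ℕ) (L : List (ℝ × ℝ)), (∀ p ∈ L, p.1 ≤ p.2) ∧
      (L.map (fun p => p.2 - p.1)).sum ≤ ε / n ∧
      ∀ κ, U j ≤ κ → κ ≤ U (j + 1) →
        (∃ i ≤ I₀, ∃ m ∈ Lset i, ∃ y ∈ Lset i, 3 / 5 ≤ eta ρ l κ (κ * m - y)) ∨
        ∃ p ∈ L, p.1 ≤ κ ∧ κ ≤ p.2 := by
    intro j hj
    have a1 := hUge j
    have a2 := hUle (j + 1) hj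
    have a3 := hUlt j
    have a4 := hUs j
    obtain ⟨D, hD1, hD2, hD3⟩ := hgood (U j) (by linarith) (by linarith)
    obtain ⟨s, hs1, hs2, hs3, hs4⟩ : ∃ s : ℝ, -(1 / 2) ≤ s ∧ s + τ ≤ 1 / 2 ∧ D - τ ≤ s ∧ s + τ ≤ D + τ := by
      rcases le_total D 0 with h | h
      · exact ⟨D, hD1, by linarith, by linarith, le_refl _⟩
      · exact ⟨D - τ, by linarith, by linarith, le_refl _, by linarith⟩
    obtain ⟨I₀, L, b1, b2, b3⟩ := R15 (U j) (U (j + 1)) s τ a1 a3 a2 hs1 hτ0 hs2 (ε / n) (by positivity)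
    refine ⟨I₀, L, b1, b2, fun κ hκ1 hκ2 => ?_⟩
    rcases b3 κ hκ1 hκ2 with ⟨i, hi, m, hm, y, hy, c1, c2⟩ | h
    · left
      refine ⟨i, hi, m, hm, y, hy, ?_⟩
      have d1 := hLip κ (U j) (κ * m - y) D
      have d2 : |κ - U j| ≤ τ := by
        rw [abs_of_nonneg (by linarith)]
        have : (3 / 8) * (1 / (n : ℝ)) ≤ τ := by linarith
        linarith
      have d3 : |κ * m - y - D| ≤ τ := by
        rw [abs_le]
        constructor <;> linarith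
      have d4 : C * (|κ - U j| + |κ * m - y - D|) ≤ 1 / 5 := by
        calc C * (|κ - U j| + |κ * m - y - D|) ≤ C * (τ + τ) :=
              mul_le_mul_of_nonneg_left (by linarith) hC.le
          _ = 2 * (C * τ) := by ring
          _ ≤ 1 / 5 := by linarith
      have d5 := (abs_le.1 (d1.trans d4)).1
      linarith
    · exact Or.inr h
  -- combine
  have hcomb : ∀ j : ℕ, j ≤ n → ∃ (I₀ : ℕ) (L : List (ℝ × ℝ)), (∀ p ∈ L, p.1 ≤ p.2) ∧
      (L.map (fun p => p.2 - p.1)).sum ≤ j * (ε / n) ∧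
      ∀ κ, 1 / 8 ≤ κ → κ ≤ U j →
        (∃ i ≤ I₀, ∃ m ∈ Lset i, ∃ y ∈ Lset i, 3 / 5 ≤ eta ρ l κ (κ * m - y)) ∨
        ∃ p ∈ L, p.1 ≤ κ ∧ κ ≤ p.2 := by
    intro j
    induction j with
    | zero =>
      intro _
      refine ⟨0, [(1 / 8, 1 / 8)], ?_, ?_, ?_⟩
      · intro p hp
        rw [List.mem_singleton] at hp
        subst hp
        exact le_refl _
      · simp
      · intro κ k1 k2
        right
        refine ⟨(1 / 8, 1 / 8), List.mem_singleton.2 rfl, k1, ?_⟩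
        have : U 0 = 1 / 8 := by
          rw [hU]
          simp
        rw [this] at k2
        exact k2
    | succ j ih =>
      intro hj
      obtain ⟨I₁, L₁, b1, b2, b3⟩ := ih (by omega)
      obtain ⟨I₂, L₂, c1, c2, c3⟩ := hpiece j hj
      refine ⟨max I₁ I₂, L₁ ++ L₂, ?_, ?_, ?_⟩
      · intro p hp
        rcases List.mem_append.1 hp with h | h
        · exact b1 p h
        · exact c1 p h
      · rw [List.map_append, List.sum_append]
        push_cast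
        linarith
      · intro κ k1 k2
        rcases le_total κ (U j) with h | h
        · rcases b3 κ k1 h with ⟨i, hi, r⟩ | ⟨p, hp, r⟩
          · exact Or.inl ⟨i, hi.trans (le_max_left _ _), r⟩
          · exact Or.inr ⟨p, List.mem_append.2 (Or.inl hp), r⟩
        · rcases c3 κ h k2 with ⟨i, hi, r⟩ | ⟨p, hp, r⟩
          · exact Or.inl ⟨i, hi.trans (le_max_right _ _), r⟩
          · exact Or.inr ⟨p, List.mem_append.2 (Or.inr hp), r⟩
  obtain ⟨I₀, L, b1, b2, b3⟩ := hcomb n le_rfl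
  refine ⟨I₀, L, b1, ?_, ?_⟩
  · have : (n : ℝ) * (ε / n) = ε := by field_simp
    linarith
  · intro κ k1 k2
    refine b3 κ k1 ?_
    have : U n = 1 / 2 := by
      rw [hU]
      show 1 / 8 + (3 / 8) * ((n : ℝ) / n) = 1 / 2
      rw [div_self hn0.ne']
      norm_num
    rw [this]
    exact k2

end Pool.Agent.C52.RR17
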