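import Pool.Agent.Lib.MP_c52340_c5.Defs


set_option autoImplicit false

open Finset


namespace Pool.Agent.C52.RR18

private lemma card_itv (N : ℕ) (S : Finset ℤ) (a b : ℝ) (hab : a ≤ b)
    (hS : ∀ k ∈ S, a ≤ (k : ℝ) / 4 ^ N ∧ (k : ℝ) / 4 ^ N ≤ b) : (S.card : ℝ) ≤ (b - a) * 4 ^ N + 1 := by
  have h4 : (0 : ℝ) < 4 ^ N := by positivity
  have hsub : S ⊆ Finset.Icc ⌈a * 4 ^ N⌉ ⌊b * 4 ^ N⌋ := by
    intro k hk
    obtain ⟨h1, h2⟩ := hS k hk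
    rw [le_div_iff₀ h4] at h1
    rw [div_le_iff₀ h4] at h2
    exact Finset.mem_Icc.2 ⟨Int.ceil_le.2 h1, Int.le_floor.2 h2⟩
  have h1 := Finset.card_le_card hsub
  rw [Int.card_Icc] at h1
  have h2 : (S.card : ℝ) ≤ ((⌊b * 4 ^ N⌋ + 1 - ⌈a * 4 ^ N⌉).toNat : ℝ) := by exact_mod_cast h1
  refine h2.trans ?_
  have h3 : (((⌊b * 4 ^ N⌋ + 1 - ⌈a * 4 ^ N⌉).toNat : ℤ) : ℝ) ≤ (b - a) * 4 ^ N + 1 := by
    rcases le_total 0 (⌊b * 4 ^ N⌋ + 1 - ⌈a * 4 ^ N⌉) with h | h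
    · rw [Int.toNat_of_nonneg h]
      push_cast
      have := Int.floor_le (b * 4 ^ N)
      have := Int.le_ceil (a * 4 ^ N)
      linarith
    · rw [Int.toNat_of_nonpos h]
      have : 0 ≤ (b - a) * 4 ^ N := mul_nonneg (by linarith) h4.le
      push_cast
      linarith
  exact_mod_cast h3

/-- Row R18.  Counting `k` in intervals.
Recipe: an interval `[p, q]` contains at most `(q - p) 4^N + 1` numbers `k/4^N`; union bound. -/
theorem R18 (N : ℕ) (L : List (ℝ × ℝ)) (hL : ∀ p ∈ L, p.1 ≤ p.2) :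
    bad N (fun k => ¬ ∃ p ∈ L, p.1 ≤ (k : ℝ) / 4 ^ N ∧ (k : ℝ) / 4 ^ N ≤ p.2) ≤
      (L.map (fun p => p.2 - p.1)).sum + L.length / 4 ^ N := by
  classical
  have h4 : (0 : ℝ) < 4 ^ N := by positivity
  have key : ∀ L : List (ℝ × ℝ), (∀ p ∈ L, p.1 ≤ p.2) →
      (((Odds N).filter (fun k : ℤ => ∃ p ∈ L, p.1 ≤ (k : ℝ) / 4 ^ N ∧ (k : ℝ) / 4 ^ N ≤ p.2)).card : ℝ) ≤
        (L.map (fun p => p.2 - p.1)).sum * 4 ^ N + L.length := by
    intro L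
    induction L with
    | nil => intro _; simp
    | cons p L ih =>
      intro hL
      have h1 := ih (fun q hq => hL q (List.mem_cons_of_mem _ hq))
      have h2 := card_itv N ((Odds N).filter (fun k : ℤ => p.1 ≤ (k : ℝ) / 4 ^ N ∧ (k : ℝ) / 4 ^ N ≤ p.2))
        p.1 p.2 (hL p List.mem_cons_self) (fun k hk => (Finset.mem_filter.1 hk).2)
      have h3 : (Odds N).filter (fun k : ℤ => ∃ q ∈ p :: L, q.1 ≤ (k : ℝ) / 4 ^ N ∧ (k : ℝ) / 4 ^ N ≤ q.2) ⊆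
          (Odds N).filter (fun k : ℤ => p.1 ≤ (k : ℝ) / 4 ^ N ∧ (k : ℝ) / 4 ^ N ≤ p.2) ∪
          (Odds N).filter (fun k : ℤ => ∃ q ∈ L, q.1 ≤ (k : ℝ) / 4 ^ N ∧ (k : ℝ) / 4 ^ N ≤ q.2) := by
        intro k hk
        obtain ⟨hk1, q, hq, hk2⟩ := Finset.mem_filter.1 hk
        rcases List.mem_cons.1 hq with rfl | hq
        · exact Finset.mem_union_left _ (Finset.mem_filter.2 ⟨hk1, hk2⟩)
        · exact Finset.mem_union_right _ (Finset.mem_filter.2 ⟨hk1, q, hq, hk2⟩)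
      have h5 : (((Odds N).filter (fun k : ℤ => ∃ q ∈ p :: L, q.1 ≤ (k : ℝ) / 4 ^ N ∧
          (k : ℝ) / 4 ^ N ≤ q.2)).card : ℝ) ≤
          (((Odds N).filter (fun k : ℤ => p.1 ≤ (k : ℝ) / 4 ^ N ∧ (k : ℝ) / 4 ^ N ≤ p.2)).card : ℝ) +
          (((Odds N).filter (fun k : ℤ => ∃ q ∈ L, q.1 ≤ (k : ℝ) / 4 ^ N ∧ (k : ℝ) / 4 ^ N ≤ q.2)).card : ℝ) := by
        exact_mod_cast (Finset.card_le_card h3).trans (Finset.card_union_le _ _)
      rw [List.map_cons, List.sum_cons, List.length_cons]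
      push_cast
      linarith
  unfold bad
  rw [div_le_iff₀ h4, add_mul, div_mul_cancel₀ _ h4.ne']
  refine le_trans (le_of_eq ?_) (key L hL)
  congr 2
  ext k
  simp only [Finset.mem_filter, not_not]

end Pool.Agent.C52.RR18
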