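import Pool.Agent.Lib.MP_c52340_c5.Defs
import Pool.Agent.Lib.MP_c52340_c5.R1
import Pool.Agent.Lib.MP_c52340_c5.R2


set_option autoImplicit false

open Finset

open Pool.Agent.C52.RR1 (R1)
open Pool.Agent.C52.RR2 (R2)

namespace Pool.Agent.C52.RR3

private theorem sc_cos_integrable (a t : ℝ) (ha : 0 < a) :
    MeasureTheory.Integrable (fun x : ℝ => sc a x * Real.cos (2 * Real.pi * x * t)) := by
  have h := R1 a ha
  refine MeasureTheory.Integrable.mono h.1 ?_ ?_
  · refine Continuous.aestronglyMeasurable ?_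
    exact h.2.1.mul (Real.continuous_cos.comp (by fun_prop))
  · refine MeasureTheory.ae_of_all _ fun x => ?_
    rw [norm_mul]
    exact mul_le_of_le_one_right (norm_nonneg _) (by
      rw [Real.norm_eq_abs]
      exact Real.abs_cos_le_one _)

/-- Row R3.  Trapezoid by Fourier inversion.  Recipe: R1, R2. -/
theorem R3 (ρ : ℝ) (h0 : 0 < ρ) (h1 : ρ < 1 / 2) :
    MeasureTheory.Integrable (psi ρ) ∧ Continuous (psi ρ) ∧
    ∀ t : ℝ, ∫ x : ℝ, psi ρ x * Real.cos (2 * Real.pi * x * t) = trap ρ t := by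
  have hh : (0 : ℝ) < 1 / 2 := by norm_num
  have e : psi ρ = fun x => (sc (1 / 2) x - sc ρ x) / (1 / 2 - ρ) := rfl
  refine ⟨?_, ?_, fun t => ?_⟩
  · rw [e]
    exact ((R1 _ hh).1.sub (R1 _ h0).1).div_const _
  · rw [e]
    exact ((R1 _ hh).2.1.sub (R1 _ h0).2.1).div_const _
  · have e2 : (fun x : ℝ => psi ρ x * Real.cos (2 * Real.pi * x * t)) = fun x =>
        (sc (1 / 2) x * Real.cos (2 * Real.pi * x * t) -
          sc ρ x * Real.cos (2 * Real.pi * x * t)) / (1 / 2 - ρ) := by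
      funext x
      rw [e]
      ring
    rw [e2, MeasureTheory.integral_div, MeasureTheory.integral_sub
      (sc_cos_integrable _ t hh) (sc_cos_integrable _ t h0), (R1 _ hh).2.2 t, (R1 _ h0).2.2 t,
      (R2 ρ h0 h1).1 t]

end Pool.Agent.C52.RR3
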