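import Pool.Agent.Lib.MP_c52340_c5.Defs
import Pool.Agent.Lib.MP_c52340_c5.B7
import Pool.Agent.Lib.MP_c52340_c5.B8
import Pool.Agent.Lib.MP_c52340_c5.B9
import Pool.Agent.Lib.MP_c52340_c5.B13
import Pool.Agent.Lib.MP_c52340_c5.R3


set_option autoImplicit false

open Finset

open Pool.Agent.C52.RB7 (B7)
open Pool.Agent.C52.RB8 (B8)
open Pool.Agent.C52.RB9 (B9)
open Pool.Agent.C52.RB13 (B13)
open Pool.Agent.C52.RR3 (R3)

namespace Pool.Agent.C52.RR4

private theorem ee_re (x : ℝ) : (ee x).re = Real.cos (2 * Real.pi * x) := by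
  have h := B7.2.2.2.2 x
  have h2 := B7.2.2.2.1 x
  rw [← h2] at h
  have h3 := congrArg Complex.re h
  rw [Complex.add_re, Complex.conj_re, Complex.ofReal_re] at h3
  linarith

private theorem ee_sum (h : ℕ) (κ A x : ℝ) :
    ∑ m ∈ Lset h, ∑ y ∈ Lset h, (1 / 3 : ℝ) ^ h * wG (1 / 4) h y *
      Real.cos (2 * Real.pi * x * (A + κ * m - y)) =
    Real.cos (2 * Real.pi * (x * A)) * (GG (1 / 3) h (κ * x) * GG (1 / 4) h x) := by
  have h8 := B8 (1 / 4) h (-x)
  rw [B13.2.2.2.2.2.2.1] at h8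
  have h9 := B9 h (κ * x)
  unfold avgC at h9
  have key : ∑ m ∈ Lset h, ∑ y ∈ Lset h, (((1 / 3 : ℝ) ^ h * wG (1 / 4) h y : ℝ) : ℂ) *
      ee (x * (A + κ * m - y)) = ee (x * A) * ((GG (1 / 3) h (κ * x) * GG (1 / 4) h x : ℝ) : ℂ) := by
    rw [Complex.ofReal_mul, ← h9, ← h8, div_mul_eq_mul_div, Finset.sum_mul_sum, Finset.sum_div,
      Finset.mul_sum]
    refine Finset.sum_congr rfl fun m _ => ?_
    rw [Finset.sum_div, Finset.mul_sum]
    refine Finset.sum_congr rfl fun y _ => ?_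
    have e : x * (A + κ * m - y) = x * A + (κ * x * m + -x * y) := by ring
    rw [e, B7.1, B7.1]
    push_cast
    rw [one_div, inv_pow]
    ring
  have h3 := congrArg Complex.re key
  rw [Complex.re_mul_ofReal, ee_re, Complex.re_sum] at h3
  rw [← h3]
  refine Finset.sum_congr rfl fun m _ => ?_
  rw [Complex.re_sum]
  refine Finset.sum_congr rfl fun y _ => ?_
  rw [Complex.re_ofReal_mul, ee_re]
  congr 2
  ring

/-- Row R4.  Fourier formula for `eta`.
Recipe: R3 under the finite sum; real part of B8, B9: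
`∑_m ∑_y 3^{-h} wG y cos (2πx (A + κ m - y)) = cos (2πx A) GG (1/3) h (κ x) GG (1/4) h x` (the sums over `m`, `y` of `ee` are real);
substitution `x = ζ/4^h` (`MeasureTheory.Measure.integral_comp_div` or `integral_comp_mul_left`). -/
theorem R4 (ρ : ℝ) (h0 : 0 < ρ) (h1 : ρ < 1 / 2) (h : ℕ) (κ D : ℝ) :
    eta ρ h κ D = ∫ ζ : ℝ, psi ρ (ζ / 4 ^ h) * Real.cos (2 * Real.pi * D * ζ) *
      (GG (1 / 3) h (κ * ζ / 4 ^ h) * GG (1 / 4) h (ζ / 4 ^ h)) := by
  obtain ⟨hi, hc, hR⟩ := R3 ρ h0 h1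
  have hint : ∀ t : ℝ,
      MeasureTheory.Integrable (fun x : ℝ => psi ρ x * Real.cos (2 * Real.pi * x * t)) := by
    intro t
    refine MeasureTheory.Integrable.mono hi ?_ ?_
    · refine Continuous.aestronglyMeasurable ?_
      exact hc.mul (Real.continuous_cos.comp (by fun_prop))
    · refine MeasureTheory.ae_of_all _ fun x => ?_
      rw [norm_mul]
      exact mul_le_of_le_one_right (norm_nonneg _) (by
        rw [Real.norm_eq_abs]
        exact Real.abs_cos_le_one _)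
  have h4 : (0 : ℝ) < 4 ^ h := by positivity
  obtain ⟨F, hF⟩ : ∃ F : ℝ → ℝ, F = fun x => psi ρ x *
      (Real.cos (2 * Real.pi * (x * (4 ^ h * D))) * (GG (1 / 3) h (κ * x) * GG (1 / 4) h x)) :=
    ⟨_, rfl⟩
  have e1 : ∫ ζ : ℝ, psi ρ (ζ / 4 ^ h) * Real.cos (2 * Real.pi * D * ζ) *
      (GG (1 / 3) h (κ * ζ / 4 ^ h) * GG (1 / 4) h (ζ / 4 ^ h)) = ∫ ζ : ℝ, F (ζ / 4 ^ h) := by
    refine MeasureTheory.integral_congr_ae (MeasureTheory.ae_of_all _ fun ζ => ?_)
    have a1 : 2 * Real.pi * (ζ / 4 ^ h * (4 ^ h * D)) = 2 * Real.pi * D * ζ := by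
      field_simp
    have a2 : κ * (ζ / 4 ^ h) = κ * ζ / 4 ^ h := by ring
    simp only [hF]
    rw [a1, a2]
    ring
  rw [e1, MeasureTheory.Measure.integral_comp_div, abs_of_pos h4, smul_eq_mul]
  unfold eta
  congr 1
  have e2 : F = fun x => ∑ m ∈ Lset h, ∑ y ∈ Lset h, (1 / 3 : ℝ) ^ h * wG (1 / 4) h y *
      (psi ρ x * Real.cos (2 * Real.pi * x * (4 ^ h * D + κ * m - y))) := by
    funext x
    rw [hF]
    simp only
    rw [← ee_sum, Finset.mul_sum]
    refine Finset.sum_congr rfl fun m _ => ?_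
    rw [Finset.mul_sum]
    refine Finset.sum_congr rfl fun y _ => ?_
    ring
  rw [e2, MeasureTheory.integral_finsetSum]
  · refine Finset.sum_congr rfl fun m _ => ?_
    rw [MeasureTheory.integral_finsetSum]
    · refine Finset.sum_congr rfl fun y _ => ?_
      rw [MeasureTheory.integral_const_mul, hR]
    · intro y _
      exact (hint _).const_mul _
  · intro m _
    refine MeasureTheory.integrable_finsetSum _ fun y _ => ?_
    exact (hint _).const_mul _

end Pool.Agent.C52.RR4
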