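import Pool.Agent.Lib.MP_c52340_c5.Defs
import Pool.Agent.Lib.MP_c52340_c5.B13
import Pool.Agent.Lib.MP_c52340_c5.R2
import Pool.Agent.Lib.MP_c52340_c5.R3
import Pool.Agent.Lib.MP_c52340_c5.R4


set_option autoImplicit false

open Finset

open Pool.Agent.C52.RB13 (B13)
open Pool.Agent.C52.RR2 (R2)
open Pool.Agent.C52.RR3 (R3)
open Pool.Agent.C52.RR4 (R4)

namespace Pool.Agent.C52.RR5

private theorem gf_cont (p : ℝ) : Continuous (gf p) := by
  unfold gf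
  fun_prop

private theorem GG_cont (p : ℝ) (n : ℕ) : Continuous (GG p n) := by
  unfold GG
  apply continuous_finsetProd
  intro i _
  exact (gf_cont p).comp (by fun_prop)

private theorem GG_succ (p x : ℝ) (h : ℕ) : GG p (h + 1) x = gf p x * GG p h (4 * x) := by
  have h1 := B13.2.2.2.2.2.2.2.2.2.1 p x 1 h
  rw [add_comm h 1, h1, pow_one]
  congr 1
  unfold GG
  simp

private theorem dom_int (h : ℕ) : MeasureTheory.Integrable (fun ζ : ℝ => 2 * (1 + (ζ / 4 ^ h) ^ 2)⁻¹) := by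
  have h1 : MeasureTheory.Integrable (fun x : ℝ => (1 + x ^ 2)⁻¹) := integrable_inv_one_add_sq
  have h2 := h1.comp_div (show (4 : ℝ) ^ h ≠ 0 from pow_ne_zero _ (by norm_num))
  exact h2.const_mul 2

private theorem min_dom (h : ℕ) (ζ : ℝ) :
    min (|ζ| / 4 ^ h) ((4 ^ h / ζ) ^ 2) ≤ 2 * (1 + (ζ / 4 ^ h) ^ 2)⁻¹ := by
  have hM : (0 : ℝ) < 4 ^ h := by positivity
  set x := ζ / 4 ^ h with hx
  have h1 : |ζ| / 4 ^ h = |x| := by rw [hx, abs_div, abs_of_pos hM]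
  have h2 : (4 ^ h / ζ) ^ 2 = (x ^ 2)⁻¹ := by rw [hx, ← inv_pow, inv_div]
  rw [h1, h2, ← div_eq_mul_inv]
  rcases le_total |x| 1 with hc | hc
  · refine le_trans (min_le_left _ _) ?_
    rw [le_div_iff₀ (by positivity)]
    have : x ^ 2 ≤ 1 := by rw [← sq_abs]; nlinarith [abs_nonneg x]
    nlinarith [abs_nonneg x]
  · refine le_trans (min_le_right _ _) ?_
    have hx2 : 1 ≤ x ^ 2 := by rw [← sq_abs]; nlinarith
    rw [inv_eq_one_div, div_le_div_iff₀ (by linarith) (by linarith)]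
    linarith

private theorem min_meas (h : ℕ) : Measurable (fun ζ : ℝ => min (|ζ| / 4 ^ h) ((4 ^ h / ζ) ^ 2)) := by
  apply Measurable.min
  · exact (continuous_abs.measurable).div_const _
  · exact (measurable_const.div measurable_id).pow_const 2

private theorem min_nonneg' (h : ℕ) (ζ : ℝ) : 0 ≤ min (|ζ| / 4 ^ h) ((4 ^ h / ζ) ^ 2) := by
  apply le_min <;> positivity

private theorem XR_int (h : ℕ) (κ : ℝ) : MeasureTheory.Integrable (fun ζ : ℝ =>
    |GG (1 / 3) h (κ * ζ / 4 ^ h)| * GG (1 / 4) h (ζ / 4 ^ h) * min (|ζ| / 4 ^ h) ((4 ^ h / ζ) ^ 2)) := by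
  apply (dom_int h).mono'
  · apply Measurable.aestronglyMeasurable
    apply Measurable.mul _ (min_meas h)
    apply Continuous.measurable
    exact (((GG_cont (1 / 3) h).comp (by fun_prop)).abs).mul ((GG_cont (1 / 4) h).comp (by fun_prop))
  · apply Filter.Eventually.of_forall
    intro ζ
    have a1 : |GG (1 / 3) h (κ * ζ / 4 ^ h)| ≤ 1 := B13.2.2.2.2.2.2.2.1 (1 / 3) _ h (by norm_num) (by norm_num)
    have a2 : 0 ≤ GG (1 / 4) h (ζ / 4 ^ h) := B13.2.2.2.2.2.2.2.2.1 (1 / 4) _ h (by norm_num) (by norm_num)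
    have a3 : |GG (1 / 4) h (ζ / 4 ^ h)| ≤ 1 := B13.2.2.2.2.2.2.2.1 (1 / 4) _ h (by norm_num) (by norm_num)
    have a4 := min_nonneg' h ζ
    rw [Real.norm_eq_abs, abs_mul, abs_mul, abs_abs, abs_of_nonneg a4]
    calc |GG (1 / 3) h (κ * ζ / 4 ^ h)| * |GG (1 / 4) h (ζ / 4 ^ h)| * min (|ζ| / 4 ^ h) ((4 ^ h / ζ) ^ 2)
        ≤ 1 * min (|ζ| / 4 ^ h) ((4 ^ h / ζ) ^ 2) := by
          apply mul_le_mul_of_nonneg_right _ a4
          calc |GG (1 / 3) h (κ * ζ / 4 ^ h)| * |GG (1 / 4) h (ζ / 4 ^ h)| ≤ 1 * 1 :=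
                mul_le_mul a1 a3 (abs_nonneg _) (by norm_num)
            _ = 1 := by norm_num
      _ ≤ _ := by rw [one_mul]; exact min_dom h ζ

private theorem F_int (ρ : ℝ) (h0 : 0 < ρ) (h1 : ρ < 1 / 2) (h : ℕ) (κ D : ℝ) :
    MeasureTheory.Integrable (fun ζ : ℝ => psi ρ (ζ / 4 ^ h) * Real.cos (2 * Real.pi * D * ζ) *
      (GG (1 / 3) h (κ * ζ / 4 ^ h) * GG (1 / 4) h (ζ / 4 ^ h))) := by
  obtain ⟨hi, hc, _⟩ := R3 ρ h0 h1
  have h2 : MeasureTheory.Integrable (fun ζ : ℝ => psi ρ (ζ / 4 ^ h)) :=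
    hi.comp_div (show (4 : ℝ) ^ h ≠ 0 from pow_ne_zero _ (by norm_num))
  apply h2.norm.mono'
  · apply Continuous.aestronglyMeasurable
    exact ((hc.comp (by fun_prop)).mul (by fun_prop)).mul
      (((GG_cont (1 / 3) h).comp (by fun_prop)).mul ((GG_cont (1 / 4) h).comp (by fun_prop)))
  · apply Filter.Eventually.of_forall
    intro ζ
    have a1 : |GG (1 / 3) h (κ * ζ / 4 ^ h)| ≤ 1 := B13.2.2.2.2.2.2.2.1 (1 / 3) _ h (by norm_num) (by norm_num)
    have a3 : |GG (1 / 4) h (ζ / 4 ^ h)| ≤ 1 := B13.2.2.2.2.2.2.2.1 (1 / 4) _ h (by norm_num) (by norm_num)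
    have a4 : |Real.cos (2 * Real.pi * D * ζ)| ≤ 1 := Real.abs_cos_le_one _
    rw [Real.norm_eq_abs, Real.norm_eq_abs, abs_mul, abs_mul, abs_mul]
    have b1 : |psi ρ (ζ / 4 ^ h)| * |Real.cos (2 * Real.pi * D * ζ)| ≤ |psi ρ (ζ / 4 ^ h)| := by
      calc _ ≤ |psi ρ (ζ / 4 ^ h)| * 1 := mul_le_mul_of_nonneg_left a4 (abs_nonneg _)
        _ = _ := mul_one _
    have b2 : |GG (1 / 3) h (κ * ζ / 4 ^ h)| * |GG (1 / 4) h (ζ / 4 ^ h)| ≤ 1 := by
      calc _ ≤ (1 : ℝ) * 1 := mul_le_mul a1 a3 (abs_nonneg _) (by norm_num)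
        _ = 1 := by norm_num
    calc _ ≤ |psi ρ (ζ / 4 ^ h)| * 1 := mul_le_mul b1 b2 (by positivity) (abs_nonneg _)
      _ = _ := mul_one _

/-- Row R5.  One more digit changes `eta` by at most a constant times `XR`.
Recipe: R4 for `h + 1` and `h`: `GG p (h+1) (x/4^(h+1)) = gf p (x/4^(h+1)) * GG p h (x/4^h)`, so the difference is the integral of
`cos * GG * GG * [psi (ζ/4^{h+1}) gf (1/3) (κ ζ/4^{h+1}) gf (1/4) (ζ/4^{h+1}) - psi (ζ/4^h)]`; the bracket is at most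
`C min (|ζ|/4^h) ((4^h/ζ)²)` by R2 and `|1 - gf p x| ≤ 4 π p |x|` (B13, `gf p 0 = 1`).  The integrand of `XR` is integrable. -/
theorem R5 (ρ : ℝ) (h0 : 0 < ρ) (h1 : ρ < 1 / 2) : ∃ C : ℝ, 0 < C ∧ ∀ (h : ℕ) (κ D : ℝ), 0 ≤ κ → κ ≤ 1 →
    |eta ρ (h + 1) κ D - eta ρ h κ D| ≤ C * XR h κ := by
  obtain ⟨C, hC, hp1, hp2, hp3⟩ := (R2 ρ h0 h1).2.2.2.2.2
  refine ⟨17 * C, by positivity, ?_⟩
  intro h κ D hκ hκ1
  rw [R4 ρ h0 h1 (h + 1) κ D, R4 ρ h0 h1 h κ D,
    ← MeasureTheory.integral_sub (F_int ρ h0 h1 (h + 1) κ D) (F_int ρ h0 h1 h κ D)]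
  unfold XR
  rw [← MeasureTheory.integral_const_mul]
  rw [← Real.norm_eq_abs]
  apply MeasureTheory.norm_integral_le_of_norm_le ((XR_int h κ).const_mul (17 * C))
  apply Filter.Eventually.of_forall
  intro ζ
  have hM : (0 : ℝ) < 4 ^ h := by positivity
  have a1 : 0 ≤ |GG (1 / 3) h (κ * ζ / 4 ^ h)| := abs_nonneg _
  have a2 : 0 ≤ GG (1 / 4) h (ζ / 4 ^ h) := B13.2.2.2.2.2.2.2.2.1 (1 / 4) _ h (by norm_num) (by norm_num)
  have a4 : |Real.cos (2 * Real.pi * D * ζ)| ≤ 1 := Real.abs_cos_le_one _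
  set x := ζ / 4 ^ h with hx
  have e1 : ζ / 4 ^ (h + 1) = x / 4 := by rw [hx, pow_succ]; field_simp
  have e2 : κ * ζ / 4 ^ (h + 1) = κ * x / 4 := by rw [hx, pow_succ]; field_simp
  have e3 : κ * ζ / 4 ^ h = κ * x := by rw [hx]; ring
  have e4 : |ζ| / 4 ^ h = |x| := by rw [hx, abs_div, abs_of_pos hM]
  have e5 : (4 ^ h / ζ) ^ 2 = (x ^ 2)⁻¹ := by rw [hx, ← inv_pow, inv_div]
  rw [e1, e2, e3, e4, e5, GG_succ, GG_succ]
  have e6 : 4 * (κ * x / 4) = κ * x := by ring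
  have e7 : 4 * (x / 4) = x := by ring
  rw [e6, e7]
  rw [e3] at a1
  have key : |psi ρ (x / 4) * (gf (1 / 3) (κ * x / 4) * gf (1 / 4) (x / 4)) - psi ρ x| ≤
      17 * C * min |x| ((x ^ 2)⁻¹) := by
    have g1 : |gf (1 / 3) (κ * x / 4)| ≤ 1 := B13.2.2.1 _ _ (by norm_num) (by norm_num)
    have g2 : |gf (1 / 4) (x / 4)| ≤ 1 := B13.2.2.1 _ _ (by norm_num) (by norm_num)
    have g12 : |gf (1 / 3) (κ * x / 4) * gf (1 / 4) (x / 4)| ≤ 1 := by
      rw [abs_mul]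
      calc _ ≤ (1 : ℝ) * 1 := mul_le_mul g1 g2 (abs_nonneg _) (by norm_num)
        _ = 1 := by norm_num
    rw [mul_min_of_nonneg _ _ (by positivity)]
    apply le_min
    · have gz : ∀ p : ℝ, gf p 0 = 1 := by
        intro p; unfold gf; simp
      have k1 : |gf (1 / 3) (κ * x / 4) - 1| ≤ 1.1 * |x| := by
        have := B13.2.2.2.2.1 (1 / 3) (κ * x / 4) 0 (by norm_num)
        rw [gz, sub_zero] at this
        refine le_trans this ?_
        rw [abs_div, abs_mul, abs_of_nonneg hκ]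
        have hpi := Real.pi_lt_d2
        have hx0 := abs_nonneg x
        have : κ * |x| ≤ 1 * |x| := mul_le_mul_of_nonneg_right hκ1 hx0
        have h4 : |(4 : ℝ)| = 4 := by norm_num
        rw [h4]
        have hpp := Real.pi_pos
        calc 4 * Real.pi * (1 / 3) * (κ * |x| / 4) = Real.pi / 3 * (κ * |x|) := by ring
          _ ≤ Real.pi / 3 * (1 * |x|) := mul_le_mul_of_nonneg_left this (by positivity)
          _ ≤ 1.1 * |x| := by nlinarith
      have k2 : |gf (1 / 4) (x / 4) - 1| ≤ 0.8 * |x| := by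
        have := B13.2.2.2.2.1 (1 / 4) (x / 4) 0 (by norm_num)
        rw [gz, sub_zero] at this
        refine le_trans this ?_
        rw [abs_div]
        have hpi := Real.pi_lt_d2
        have hx0 := abs_nonneg x
        have h4 : |(4 : ℝ)| = 4 := by norm_num
        rw [h4]
        have hpp := Real.pi_pos
        calc 4 * Real.pi * (1 / 4) * (|x| / 4) = Real.pi / 4 * |x| := by ring
          _ ≤ 0.8 * |x| := by nlinarith
      have k3 : |psi ρ (x / 4) - psi ρ x| ≤ C * (0.75 * |x|) := by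
        refine le_trans (hp3 _ _) ?_
        have : |x / 4 - x| = 0.75 * |x| := by
          have : x / 4 - x = -(0.75) * x := by ring
          rw [this, abs_mul, abs_neg, abs_of_pos (by norm_num : (0 : ℝ) < 0.75)]
        rw [this]
      have k4 : |gf (1 / 3) (κ * x / 4) * gf (1 / 4) (x / 4) - 1| ≤ 1.9 * |x| := by
        have : gf (1 / 3) (κ * x / 4) * gf (1 / 4) (x / 4) - 1 =
          (gf (1 / 3) (κ * x / 4) - 1) * gf (1 / 4) (x / 4) + (gf (1 / 4) (x / 4) - 1) := by ring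
        rw [this]
        refine le_trans (abs_add_le _ _) ?_
        rw [abs_mul]
        have : |gf (1 / 3) (κ * x / 4) - 1| * |gf (1 / 4) (x / 4)| ≤ 1.1 * |x| * 1 :=
          mul_le_mul k1 g2 (abs_nonneg _) (by positivity)
        linarith
      have e : psi ρ (x / 4) * (gf (1 / 3) (κ * x / 4) * gf (1 / 4) (x / 4)) - psi ρ x =
        psi ρ (x / 4) * (gf (1 / 3) (κ * x / 4) * gf (1 / 4) (x / 4) - 1) + (psi ρ (x / 4) - psi ρ x) := by
        ring
      rw [e]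
      refine le_trans (abs_add_le _ _) ?_
      rw [abs_mul]
      have k5 : |psi ρ (x / 4)| * |gf (1 / 3) (κ * x / 4) * gf (1 / 4) (x / 4) - 1| ≤ C * (1.9 * |x|) :=
        mul_le_mul (hp1 _) k4 (abs_nonneg _) hC.le
      have hx0 := abs_nonneg x
      nlinarith [mul_nonneg hC.le hx0]
    · rcases eq_or_ne x 0 with hx0 | hx0
      · rw [hx0]
        have gz : ∀ p : ℝ, gf p 0 = 1 := by
          intro p; unfold gf; simp
        simp [gz]
      · have hx2 : 0 < x ^ 2 := by positivity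
        have k1 : |psi ρ (x / 4)| ≤ 16 * C * (x ^ 2)⁻¹ := by
          have := hp2 (x / 4)
          rw [← div_eq_mul_inv, le_div_iff₀ hx2]
          have e : (x / 4) ^ 2 = x ^ 2 / 16 := by ring
          rw [e] at this
          linarith
        have k2 : |psi ρ x| ≤ C * (x ^ 2)⁻¹ := by
          have := hp2 x
          rw [← div_eq_mul_inv, le_div_iff₀ hx2]
          linarith
        refine le_trans (abs_sub _ _) ?_
        rw [abs_mul]
        have k3 : |psi ρ (x / 4)| * |gf (1 / 3) (κ * x / 4) * gf (1 / 4) (x / 4)| ≤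
            16 * C * (x ^ 2)⁻¹ * 1 := mul_le_mul k1 g12 (abs_nonneg _) (by positivity)
        linarith
  have e8 : psi ρ (x / 4) * Real.cos (2 * Real.pi * D * ζ) *
        (gf (1 / 3) (κ * x / 4) * GG (1 / 3) h (κ * x) * (gf (1 / 4) (x / 4) * GG (1 / 4) h x)) -
      psi ρ x * Real.cos (2 * Real.pi * D * ζ) * (GG (1 / 3) h (κ * x) * GG (1 / 4) h x) =
      Real.cos (2 * Real.pi * D * ζ) * (GG (1 / 3) h (κ * x) * GG (1 / 4) h x) *
        (psi ρ (x / 4) * (gf (1 / 3) (κ * x / 4) * gf (1 / 4) (x / 4)) - psi ρ x) := by ring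
  rw [e8, Real.norm_eq_abs, abs_mul, abs_mul, abs_mul, abs_of_nonneg a2]
  have hGG : 0 ≤ |GG (1 / 3) h (κ * x)| * GG (1 / 4) h x := mul_nonneg a1 a2
  calc |Real.cos (2 * Real.pi * D * ζ)| * (|GG (1 / 3) h (κ * x)| * GG (1 / 4) h x) *
        |psi ρ (x / 4) * (gf (1 / 3) (κ * x / 4) * gf (1 / 4) (x / 4)) - psi ρ x|
      ≤ (1 * (|GG (1 / 3) h (κ * x)| * GG (1 / 4) h x)) * (17 * C * min |x| ((x ^ 2)⁻¹)) :=
        mul_le_mul (mul_le_mul_of_nonneg_right a4 hGG) key (abs_nonneg _)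
          (mul_nonneg (by norm_num) hGG)
    _ = 17 * C * (|GG (1 / 3) h (κ * x)| * GG (1 / 4) h x * min |x| ((x ^ 2)⁻¹)) := by ring

end Pool.Agent.C52.RR5
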