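import Pool.Agent.Lib.MP_c52340_c5.Defs
import Pool.Agent.Lib.MP_c52340_c5.B13
import Pool.Agent.Lib.MP_c52340_c5.A3


set_option autoImplicit false

open Finset

open Pool.Agent.C52.RB13 (B13)
open Pool.Agent.C52.RA3 (A3)

namespace Pool.Agent.C52.RR6

/-- Row R6.  Averages over `k` at a given real frequency.
Recipe: `|GG (1/3) h x| ≤ |GG (1/3) s (4^(h-s) x)|` for `s ≤ h`; A3 with `n = s`, `β = ζ 4^{-s}/4^N`: `2 |β| 4^s = 2|ζ|/4^N ≤ 1`,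
`1/|β| = 4^N 4^s/|ζ| ≤ 4^N`. -/
theorem R6 : ∃ C : ℝ, 0 < C ∧ ∀ (N h s : ℕ) (ζ : ℝ), s ≤ h → (4 : ℝ) ^ s ≤ |ζ| → 2 * |ζ| ≤ 4 ^ N →
    ∑ k ∈ Odds N, |GG (1 / 3) h (((k : ℝ) / 4 ^ N) * ζ / 4 ^ h)| ≤ C * 4 ^ N * (qq / 2) ^ s := by
  obtain ⟨C, hC, hA⟩ := A3
  refine ⟨2 * C, by positivity, ?_⟩
  intro N h s ζ hsh h1 h2
  obtain ⟨-, -, -, -, -, -, -, hle, -, hmul, -⟩ := B13
  have hNpos : (0 : ℝ) < 4 ^ N := by positivity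
  have hspos : (0 : ℝ) < 4 ^ s := by positivity
  have hζ : 0 < |ζ| := lt_of_lt_of_le hspos h1
  have hζ0 : ζ ≠ 0 := abs_pos.mp hζ
  have hβ0 : ζ / (4 ^ N * 4 ^ s) ≠ 0 := div_ne_zero hζ0 (by positivity)
  have hβa : |ζ / (4 ^ N * 4 ^ s)| = |ζ| / (4 ^ N * 4 ^ s) := by
    rw [abs_div, abs_of_pos (mul_pos hNpos hspos)]
  have hcond : 2 * |ζ / (4 ^ N * 4 ^ s)| * 4 ^ s ≤ 1 := by
    rw [hβa]
    have : 2 * (|ζ| / (4 ^ N * 4 ^ s)) * 4 ^ s = 2 * |ζ| / 4 ^ N := by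
      field_simp
    rw [this, div_le_one hNpos]
    exact h2
  have hinv : 1 / |ζ / (4 ^ N * 4 ^ s)| ≤ 4 ^ N := by
    rw [hβa, one_div, inv_div, div_le_iff₀ hζ]
    exact mul_le_mul_of_nonneg_left h1 hNpos.le
  have hq : (0 : ℝ) ≤ (qq / 2) ^ s := by
    have : (0 : ℝ) ≤ qq / 2 := by unfold qq; norm_num
    positivity
  have hterm : ∀ k ∈ Odds N, |GG (1 / 3) h (((k : ℝ) / 4 ^ N) * ζ / 4 ^ h)| ≤
      |GG (1 / 3) s (k * (ζ / (4 ^ N * 4 ^ s)))| := by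
    intro k _
    have e1 : GG (1 / 3) h (((k : ℝ) / 4 ^ N) * ζ / 4 ^ h) =
        GG (1 / 3) (h - s) (((k : ℝ) / 4 ^ N) * ζ / 4 ^ h) *
          GG (1 / 3) s (4 ^ (h - s) * (((k : ℝ) / 4 ^ N) * ζ / 4 ^ h)) := by
      rw [← hmul, Nat.sub_add_cancel hsh]
    have e2 : (4 : ℝ) ^ (h - s) * (((k : ℝ) / 4 ^ N) * ζ / 4 ^ h) = k * (ζ / (4 ^ N * 4 ^ s)) := by
      have h4 : (4 : ℝ) ^ h = 4 ^ (h - s) * 4 ^ s := by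
        rw [← pow_add, Nat.sub_add_cancel hsh]
      rw [h4]
      field_simp
    rw [e1, e2, abs_mul]
    have hb := hle (1 / 3) (((k : ℝ) / 4 ^ N) * ζ / 4 ^ h) (h - s) (by norm_num) (by norm_num)
    calc _ ≤ 1 * |GG (1 / 3) s (k * (ζ / (4 ^ N * 4 ^ s)))| :=
          mul_le_mul_of_nonneg_right hb (abs_nonneg _)
      _ = _ := one_mul _
  calc ∑ k ∈ Odds N, |GG (1 / 3) h (((k : ℝ) / 4 ^ N) * ζ / 4 ^ h)|
      ≤ ∑ k ∈ Odds N, |GG (1 / 3) s (k * (ζ / (4 ^ N * 4 ^ s)))| := Finset.sum_le_sum hterm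
    _ ≤ C * (4 ^ N + 1 / |ζ / (4 ^ N * 4 ^ s)|) * (qq / 2) ^ s := hA N s _ hβ0 hcond
    _ ≤ C * (4 ^ N + 4 ^ N) * (qq / 2) ^ s := by
        apply mul_le_mul_of_nonneg_right _ hq
        apply mul_le_mul_of_nonneg_left _ hC.le
        linarith
    _ = 2 * C * 4 ^ N * (qq / 2) ^ s := by ring

end Pool.Agent.C52.RR6
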