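import Pool.Agent.Lib.MP_c52340_c5.Defs
import Pool.Agent.Lib.MP_c52340_c5.B2
import Pool.Agent.Lib.MP_c52340_c5.B4
import Pool.Agent.Lib.MP_c52340_c5.B8
import Pool.Agent.Lib.MP_c52340_c5.B13


set_option autoImplicit false

open Finset

open Pool.Agent.C52.RB2 (B2)
open Pool.Agent.C52.RB4 (B4)
open Pool.Agent.C52.RB8 (B8)
open Pool.Agent.C52.RB13 (B13)

namespace Pool.Agent.C52.RR7

private lemma r7_GG (n : ℕ) (x : ℝ) :
    GG (1 / 4) n x = ∑ y ∈ Lset n, wG (1 / 4) n y * Real.cos (2 * Real.pi * y * x) := by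
  have h := congrArg Complex.re (B8 (1 / 4) n x)
  rw [Complex.ofReal_re, Complex.re_sum] at h
  rw [← h]
  apply Finset.sum_congr rfl
  intro y _
  rw [Complex.re_ofReal_mul]
  congr 1
  unfold ee
  rw [show (2 * (Real.pi : ℂ) * ((x * (y : ℝ) : ℝ) : ℂ) * Complex.I) =
    ((2 * Real.pi * y * x : ℝ) : ℂ) * Complex.I by push_cast; ring]
  rw [Complex.exp_ofReal_mul_I_re]

private lemma r7_cont (n : ℕ) : Continuous (fun x : ℝ => GG (1 / 4) n x) := by
  unfold GG gf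
  fun_prop

private lemma r7_cos (R : ℕ) (y : ℤ) (hy : y ≠ 0) :
    ∫ x in (-(R : ℝ))..(R : ℝ), Real.cos (2 * Real.pi * y * x) = 0 := by
  have hc : (2 * Real.pi * y : ℝ) ≠ 0 := by
    have := Real.pi_pos.ne'
    have hy' : (y : ℝ) ≠ 0 := by exact_mod_cast hy
    positivity
  rw [intervalIntegral.integral_comp_mul_left (fun x => Real.cos x) hc, integral_cos]
  have e : (2 * Real.pi * y * (R : ℝ)) = ((2 * y * R : ℤ) : ℝ) * Real.pi := by push_cast; ring
  rw [mul_neg, Real.sin_neg, e, Real.sin_int_mul_pi]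
  simp

private lemma r7_int (n R : ℕ) :
    ∫ x in (-(R : ℝ))..(R : ℝ), GG (1 / 4) n x = 2 * R * (1 / 2) ^ n := by
  obtain ⟨-, -, -, h0, -⟩ := B2
  obtain ⟨-, -, -, -, -, -, hw0⟩ := B4
  have e : (fun x : ℝ => GG (1 / 4) n x) =
      fun x : ℝ => ∑ y ∈ Lset n, wG (1 / 4) n y * Real.cos (2 * Real.pi * y * x) := by
    funext x
    exact r7_GG n x
  rw [show (∫ x in (-(R : ℝ))..(R : ℝ), GG (1 / 4) n x) =
    ∫ x in (-(R : ℝ))..(R : ℝ), ∑ y ∈ Lset n, wG (1 / 4) n y * Real.cos (2 * Real.pi * y * x) from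
      by rw [← e]]
  rw [intervalIntegral.integral_finsetSum]
  · rw [Finset.sum_eq_single 0]
    · simp only [Int.cast_zero, mul_zero, zero_mul, Real.cos_zero, mul_one,
        intervalIntegral.integral_const, hw0, smul_eq_mul]
      ring
    · intro y _ hy
      rw [intervalIntegral.integral_const_mul, r7_cos R y hy, mul_zero]
    · intro h
      exact absurd (h0 _) h
  · intro y _
    apply Continuous.intervalIntegrable
    fun_prop

private lemma r7_scaled (n t : ℕ) :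
    ∫ ζ in Set.Icc (-(4 : ℝ) ^ (n + t)) (4 ^ (n + t)), GG (1 / 4) n (ζ / 4 ^ n) =
      2 * 4 ^ t * 2 ^ n := by
  have h4 : (4 : ℝ) ^ n ≠ 0 := by positivity
  have hle : -(4 : ℝ) ^ (n + t) ≤ 4 ^ (n + t) := by
    have : (0 : ℝ) ≤ 4 ^ (n + t) := by positivity
    linarith
  rw [MeasureTheory.integral_Icc_eq_integral_Ioc, ← intervalIntegral.integral_of_le hle,
    intervalIntegral.integral_comp_div (fun x => GG (1 / 4) n x) h4]
  have e1 : (4 : ℝ) ^ (n + t) / 4 ^ n = ((4 ^ t : ℕ) : ℝ) := by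
    rw [pow_add]
    push_cast
    field_simp
  rw [neg_div, e1, r7_int]
  push_cast
  rw [smul_eq_mul]
  have e2 : (4 : ℝ) ^ n * (1 / 2) ^ n = 2 ^ n := by rw [← mul_pow]; norm_num
  calc (4 : ℝ) ^ n * (2 * 4 ^ t * (1 / 2) ^ n) = 2 * 4 ^ t * (4 ^ n * (1 / 2) ^ n) := by ring
    _ = _ := by rw [e2]

/-- Row R7.  Integrals of `GG (1/4)`.
Recipe: `∫_0^1 GG (1/4) n = 2^{-n}` (the constant coefficient `wG (1/4) n 0 = 2^{-n}`, B8; or peel digits), periodicity; for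
`s ≤ h`: `GG (1/4) h (ζ/4^h) ≤ GG (1/4) s (ζ/4^s)` (B13). -/
theorem R7 : (∀ (h s : ℕ), s ≤ h →
      ∫ ζ in Set.Icc (-(4 : ℝ) ^ s) (4 ^ s), GG (1 / 4) h (ζ / 4 ^ h) ≤ 2 * 2 ^ s) ∧
    (∀ (h t : ℕ), ∫ ζ in Set.Icc (-(4 : ℝ) ^ (h + t)) (4 ^ (h + t)), GG (1 / 4) h (ζ / 4 ^ h) ≤
      2 * 4 ^ t * 2 ^ h) := by
  obtain ⟨-, -, -, -, -, -, -, habs, hnn, hmul, -⟩ := B13
  refine ⟨?_, ?_⟩
  · intro h s hs
    have h2 := r7_scaled s 0
    simp only [add_zero, pow_zero, mul_one] at h2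
    rw [← h2]
    apply MeasureTheory.setIntegral_mono
    · apply Continuous.integrableOn_Icc
      exact (r7_cont h).comp (continuous_id.div_const _)
    · apply Continuous.integrableOn_Icc
      exact (r7_cont s).comp (continuous_id.div_const _)
    · intro ζ
      obtain ⟨d, rfl⟩ := Nat.exists_eq_add_of_le' hs
      show GG (1 / 4) (d + s) (ζ / 4 ^ (d + s)) ≤ GG (1 / 4) s (ζ / 4 ^ s)
      rw [hmul]
      have e : (4 : ℝ) ^ d * (ζ / 4 ^ (d + s)) = ζ / 4 ^ s := by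
        rw [pow_add]
        field_simp
      rw [e]
      have h1 : GG (1 / 4) d (ζ / 4 ^ (d + s)) ≤ 1 :=
        le_trans (le_abs_self _) (habs _ _ _ (by norm_num) (by norm_num))
      have h3 : 0 ≤ GG (1 / 4) s (ζ / 4 ^ s) := hnn _ _ _ (by norm_num) (by norm_num)
      exact mul_le_of_le_one_left h3 h1
  · intro h t
    exact (r7_scaled h t).le

end Pool.Agent.C52.RR7
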