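import Pool.Agent.Lib.MP_c52340_c5.Defs
import Pool.Agent.Lib.MP_c52340_c5.B13
import Pool.Agent.Lib.MP_c52340_c5.R6
import Pool.Agent.Lib.MP_c52340_c5.R7


set_option autoImplicit false

open Finset

open Pool.Agent.C52.RB13 (B13)
open Pool.Agent.C52.RR6 (R6)
open Pool.Agent.C52.RR7 (R7)

namespace Pool.Agent.C52.RR8

private theorem gf_cont (p : ℝ) : Continuous (gf p) := by
  unfold gf
  fun_prop

private theorem GG_cont (p : ℝ) (n : ℕ) : Continuous (GG p n) := by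
  unfold GG
  apply continuous_finsetProd
  intro i _
  exact (gf_cont p).comp (by fun_prop)

private theorem dom_int (h : ℕ) : MeasureTheory.Integrable (fun ζ : ℝ => 2 * (1 + (ζ / 4 ^ h) ^ 2)⁻¹) := by
  have h1 : MeasureTheory.Integrable (fun x : ℝ => (1 + x ^ 2)⁻¹) := integrable_inv_one_add_sq
  have h2 := h1.comp_div (show (4 : ℝ) ^ h ≠ 0 from pow_ne_zero _ (by norm_num))
  exact h2.const_mul 2

private theorem min_dom (h : ℕ) (ζ : ℝ) :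
    min (|ζ| / 4 ^ h) ((4 ^ h / ζ) ^ 2) ≤ 2 * (1 + (ζ / 4 ^ h) ^ 2)⁻¹ := by
  have hM : (0 : ℝ) < 4 ^ h := by positivity
  set x := ζ / 4 ^ h with hx
  have h1 : |ζ| / 4 ^ h = |x| := by rw [hx, abs_div, abs_of_pos hM]
  have h2 : (4 ^ h / ζ) ^ 2 = (x ^ 2)⁻¹ := by rw [hx, ← inv_pow, inv_div]
  rw [h1, h2, ← div_eq_mul_inv]
  rcases le_total |x| 1 with hc | hc
  · refine le_trans (min_le_left _ _) ?_
    rw [le_div_iff₀ (by positivity)]
    have : x ^ 2 ≤ 1 := by rw [← sq_abs]; nlinarith [abs_nonneg x]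
    nlinarith [abs_nonneg x]
  · refine le_trans (min_le_right _ _) ?_
    have hx2 : 1 ≤ x ^ 2 := by rw [← sq_abs]; nlinarith
    rw [inv_eq_one_div, div_le_div_iff₀ (by linarith) (by linarith)]
    linarith

private theorem min_meas (h : ℕ) : Measurable (fun ζ : ℝ => min (|ζ| / 4 ^ h) ((4 ^ h / ζ) ^ 2)) := by
  apply Measurable.min
  · exact (continuous_abs.measurable).div_const _
  · exact (measurable_const.div measurable_id).pow_const 2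

private theorem min_nonneg' (h : ℕ) (ζ : ℝ) : 0 ≤ min (|ζ| / 4 ^ h) ((4 ^ h / ζ) ^ 2) := by
  apply le_min <;> positivity

private theorem XR_int (h : ℕ) (κ : ℝ) : MeasureTheory.Integrable (fun ζ : ℝ =>
    |GG (1 / 3) h (κ * ζ / 4 ^ h)| * GG (1 / 4) h (ζ / 4 ^ h) * min (|ζ| / 4 ^ h) ((4 ^ h / ζ) ^ 2)) := by
  apply (dom_int h).mono'
  · apply Measurable.aestronglyMeasurable
    apply Measurable.mul _ (min_meas h)
    apply Continuous.measurable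
    exact (((GG_cont (1 / 3) h).comp (by fun_prop)).abs).mul ((GG_cont (1 / 4) h).comp (by fun_prop))
  · apply Filter.Eventually.of_forall
    intro ζ
    have a1 : |GG (1 / 3) h (κ * ζ / 4 ^ h)| ≤ 1 := B13.2.2.2.2.2.2.2.1 (1 / 3) _ h (by norm_num) (by norm_num)
    have a2 : 0 ≤ GG (1 / 4) h (ζ / 4 ^ h) := B13.2.2.2.2.2.2.2.2.1 (1 / 4) _ h (by norm_num) (by norm_num)
    have a3 : |GG (1 / 4) h (ζ / 4 ^ h)| ≤ 1 := B13.2.2.2.2.2.2.2.1 (1 / 4) _ h (by norm_num) (by norm_num)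
    have a4 := min_nonneg' h ζ
    rw [Real.norm_eq_abs, abs_mul, abs_mul, abs_abs, abs_of_nonneg a4]
    calc |GG (1 / 3) h (κ * ζ / 4 ^ h)| * |GG (1 / 4) h (ζ / 4 ^ h)| * min (|ζ| / 4 ^ h) ((4 ^ h / ζ) ^ 2)
        ≤ 1 * min (|ζ| / 4 ^ h) ((4 ^ h / ζ) ^ 2) := by
          apply mul_le_mul_of_nonneg_right _ a4
          calc |GG (1 / 3) h (κ * ζ / 4 ^ h)| * |GG (1 / 4) h (ζ / 4 ^ h)| ≤ 1 * 1 :=
                mul_le_mul a1 a3 (abs_nonneg _) (by norm_num)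
            _ = 1 := by norm_num
      _ ≤ _ := by rw [one_mul]; exact min_dom h ζ

private noncomputable def Gi (h : ℕ) (L : ℝ) : ℝ → ℝ :=
  (Set.Icc (-L) L).indicator (fun ζ => GG (1 / 4) h (ζ / 4 ^ h))

private theorem Gi_int (h : ℕ) (L : ℝ) : MeasureTheory.Integrable (Gi h L) := by
  unfold Gi
  rw [MeasureTheory.integrable_indicator_iff measurableSet_Icc]
  exact (((GG_cont (1 / 4) h).comp (by fun_prop)).continuousOn).integrableOn_compact isCompact_Icc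

private theorem Gi_integral (h : ℕ) (L : ℝ) :
    ∫ ζ, Gi h L ζ = ∫ ζ in Set.Icc (-L) L, GG (1 / 4) h (ζ / 4 ^ h) := by
  unfold Gi
  rw [MeasureTheory.integral_indicator measurableSet_Icc]

private theorem Gi_nonneg (h : ℕ) (L ζ : ℝ) : 0 ≤ Gi h L ζ := by
  unfold Gi
  apply Set.indicator_nonneg
  intro ζ _
  exact B13.2.2.2.2.2.2.2.2.1 (1 / 4) _ h (by norm_num) (by norm_num)

private theorem Gi_eq (h : ℕ) (L ζ : ℝ) (hL : |ζ| ≤ L) : Gi h L ζ = GG (1 / 4) h (ζ / 4 ^ h) := by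
  unfold Gi
  rw [Set.indicator_of_mem]
  rw [Set.mem_Icc]
  exact abs_le.mp hL

private theorem odds_card (N : ℕ) : ((Odds N).card : ℝ) ≤ 4 ^ N := by
  have h1 : (Odds N).card ≤ (Ico (0 : ℤ) (4 ^ N)).card := Finset.card_filter_le _ _
  rw [Int.card_Ico] at h1
  have h2 : ((4 : ℤ) ^ N - 0).toNat = 4 ^ N := by
    rw [sub_zero]; zify; rw [Int.toNat_of_nonneg (by positivity)]
  rw [h2] at h1
  exact_mod_cast h1

private theorem tail_integral (N : ℕ) :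
    MeasureTheory.Integrable (fun ζ : ℝ => (1 + (ζ / 4 ^ N) ^ 2)⁻¹) ∧
    ∫ ζ : ℝ, (1 + (ζ / 4 ^ N) ^ 2)⁻¹ = 4 ^ N * Real.pi := by
  have hM : (0 : ℝ) < 4 ^ N := by positivity
  have h1 : MeasureTheory.Integrable (fun x : ℝ => (1 + x ^ 2)⁻¹) := integrable_inv_one_add_sq
  refine ⟨h1.comp_div hM.ne', ?_⟩
  have h2 := MeasureTheory.Measure.integral_comp_div (fun x : ℝ => (1 + x ^ 2)⁻¹) (4 ^ N)
  rw [h2, integral_univ_inv_one_add_sq, abs_of_pos hM, smul_eq_mul]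

private theorem sum_geo1 (h : ℕ) : ∑ s ∈ range h, qq ^ s * (4 ^ s / 4 ^ h) ≤ qq ^ h := by
  induction h with
  | zero => simp
  | succ h ih =>
    rw [Finset.sum_range_succ]
    have e : ∀ s ∈ range h, qq ^ s * (4 ^ s / 4 ^ (h + 1)) = (1 / 4) * (qq ^ s * (4 ^ s / 4 ^ h)) := by
      intro s _
      rw [pow_succ]
      field_simp
    rw [Finset.sum_congr rfl e, ← Finset.mul_sum]
    have h2 : qq ^ h * ((4 : ℝ) ^ h / 4 ^ (h + 1)) = (1 / 4) * qq ^ h := by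
      rw [pow_succ]
      field_simp
    rw [h2, pow_succ]
    have hq : (0 : ℝ) < qq ^ h := by unfold qq; positivity
    have hq2 : (1 / 2 : ℝ) ≤ qq := by unfold qq; norm_num
    nlinarith

private theorem sum_geo2 (T : ℕ) : ∑ t ∈ range T, ((4 : ℝ) ^ t / 16 ^ t) ≤ 4 / 3 := by
  have h : ∀ T : ℕ, ∑ t ∈ range T, ((4 : ℝ) ^ t / 16 ^ t) = 4 / 3 * (1 - (1 / 4) ^ T) := by
    intro T
    induction T with
    | zero => simp
    | succ T ih =>
      rw [Finset.sum_range_succ, ih]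
      have : (4 : ℝ) ^ T / 16 ^ T = (1 / 4) ^ T := by rw [← div_pow]; norm_num
      rw [this, pow_succ]
      ring
  rw [h]
  have : (0 : ℝ) ≤ (1 / 4) ^ T := by positivity
  linarith

/-- Row R8.  Average of `XR`.
Recipe: `|ζ| ≤ 1`: integrand `≤ 4^{-h}`.  `4^s ≤ |ζ| ≤ 4^{s+1}`, `s < h`: R6, R7, `min ≤ 4^{s+1-h}`: total
`≤ C 4^N (qq/2)^s * 2 * 2^{s+1} * 4^{s+1-h}`.  `4^{h+t} ≤ |ζ| ≤ 4^{h+t+1}` with `2 |ζ| ≤ 4^N`: R6 with `s = h`, `min ≤ 16^{-t}`: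
`≤ C 4^N (qq/2)^h * 16^{-t} * 2 * 4^{t+1} * 2^h`.  `2|ζ| ≥ 4^N`: all `GG ≤ 1`, `∫ (4^h/ζ)² ≤ 4 * 16^h/4^N ≤ 4 * 4^{-2h} ≤ 4 qq^h`
(`4 h ≤ N`).  Interchange the finite sum over `k` with the integral. -/
theorem R8 : ∃ C : ℝ, 0 < C ∧ ∀ N h : ℕ, 4 * h ≤ N →
    ∑ k ∈ Odds N, XR h ((k : ℝ) / 4 ^ N) ≤ C * 4 ^ N * qq ^ h := by
  obtain ⟨C, hC, hR6⟩ := R6
  refine ⟨2 + 16 * C + 11 * C + 40, by positivity, ?_⟩
  intro N h hNh
  have hM : (0 : ℝ) < 4 ^ h := by positivity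
  have hMN : (0 : ℝ) < 4 ^ N := by positivity
  have hq0 : (0 : ℝ) < qq := by unfold qq; norm_num
  have hGnn : ∀ x, 0 ≤ GG (1 / 4) h x := fun x => B13.2.2.2.2.2.2.2.2.1 (1 / 4) _ h (by norm_num) (by norm_num)
  have hG1 : ∀ x, GG (1 / 4) h x ≤ 1 := fun x => le_trans (le_abs_self _)
    (B13.2.2.2.2.2.2.2.1 (1 / 4) _ h (by norm_num) (by norm_num))
  -- the dominating function
  set Bd : ℝ → ℝ := fun ζ => 4 ^ N * (1 / 4 ^ h) * Gi h 1 ζ +
    ∑ s ∈ range h, (C * 4 ^ N * (qq / 2) ^ s * (4 ^ (s + 1) / 4 ^ h)) * Gi h (4 ^ (s + 1)) ζ +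
    ∑ t ∈ range N, (C * 4 ^ N * (qq / 2) ^ h * (1 / 16 ^ t)) * Gi h (4 ^ (h + (t + 1))) ζ +
    (4 ^ N * (8 * 16 ^ h / 16 ^ N)) * (1 + (ζ / 4 ^ N) ^ 2)⁻¹ with hBd
  have hnn1 : ∀ ζ, 0 ≤ 4 ^ N * (1 / 4 ^ h) * Gi h 1 ζ := fun ζ =>
    mul_nonneg (by positivity) (Gi_nonneg h _ ζ)
  have hnn2 : ∀ ζ, ∀ s, 0 ≤ (C * 4 ^ N * (qq / 2) ^ s * (4 ^ (s + 1) / 4 ^ h)) * Gi h (4 ^ (s + 1)) ζ :=
    fun ζ s => mul_nonneg (by positivity) (Gi_nonneg h _ ζ)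
  have hnn3 : ∀ ζ, ∀ t : ℕ, 0 ≤ (C * 4 ^ N * (qq / 2) ^ h * (1 / 16 ^ t)) * Gi h (4 ^ (h + (t + 1))) ζ :=
    fun ζ t => mul_nonneg (by positivity) (Gi_nonneg h _ ζ)
  have hnn4 : ∀ ζ : ℝ, 0 ≤ (4 ^ N * (8 * 16 ^ h / 16 ^ N)) * (1 + (ζ / 4 ^ N) ^ 2)⁻¹ :=
    fun ζ => by positivity
  -- pointwise domination
  have hpt : ∀ ζ : ℝ, ∑ k ∈ Odds N, |GG (1 / 3) h ((k : ℝ) / 4 ^ N * ζ / 4 ^ h)| *
      GG (1 / 4) h (ζ / 4 ^ h) * min (|ζ| / 4 ^ h) ((4 ^ h / ζ) ^ 2) ≤ Bd ζ := by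
    intro ζ
    have hfac : ∑ k ∈ Odds N, |GG (1 / 3) h ((k : ℝ) / 4 ^ N * ζ / 4 ^ h)| *
      GG (1 / 4) h (ζ / 4 ^ h) * min (|ζ| / 4 ^ h) ((4 ^ h / ζ) ^ 2) =
      (∑ k ∈ Odds N, |GG (1 / 3) h ((k : ℝ) / 4 ^ N * ζ / 4 ^ h)|) *
        min (|ζ| / 4 ^ h) ((4 ^ h / ζ) ^ 2) * GG (1 / 4) h (ζ / 4 ^ h) := by
      rw [Finset.sum_mul, Finset.sum_mul]
      apply Finset.sum_congr rfl
      intro k _
      ring
    rw [hfac]
    have hS0 : 0 ≤ ∑ k ∈ Odds N, |GG (1 / 3) h ((k : ℝ) / 4 ^ N * ζ / 4 ^ h)| :=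
      Finset.sum_nonneg (fun k _ => abs_nonneg _)
    have hS1 : ∑ k ∈ Odds N, |GG (1 / 3) h ((k : ℝ) / 4 ^ N * ζ / 4 ^ h)| ≤ 4 ^ N := by
      refine le_trans (Finset.sum_le_card_nsmul _ _ 1 (fun k _ =>
        B13.2.2.2.2.2.2.2.1 (1 / 3) _ h (by norm_num) (by norm_num))) ?_
      rw [nsmul_eq_mul, mul_one]
      exact odds_card N
    set S := ∑ k ∈ Odds N, |GG (1 / 3) h ((k : ℝ) / 4 ^ N * ζ / 4 ^ h)| with hS
    have hm0 := min_nonneg' h ζ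
    have hml := min_le_left (|ζ| / 4 ^ h) ((4 ^ h / ζ) ^ 2)
    have hmr := min_le_right (|ζ| / 4 ^ h) ((4 ^ h / ζ) ^ 2)
    set mm := min (|ζ| / 4 ^ h) ((4 ^ h / ζ) ^ 2) with hmm
    have sum2 : 0 ≤ ∑ s ∈ range h, (C * 4 ^ N * (qq / 2) ^ s * (4 ^ (s + 1) / 4 ^ h)) *
      Gi h (4 ^ (s + 1)) ζ := Finset.sum_nonneg (fun s _ => hnn2 ζ s)
    have sum3 : 0 ≤ ∑ t ∈ range N, (C * 4 ^ N * (qq / 2) ^ h * (1 / 16 ^ t)) *
      Gi h (4 ^ (h + (t + 1))) ζ := Finset.sum_nonneg (fun t _ => hnn3 ζ t)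
    rcases le_or_gt |ζ| 1 with hc1 | hc1
    · -- first case
      have b1 : S * mm ≤ 4 ^ N * (1 / 4 ^ h) := by
        apply mul_le_mul hS1 _ hm0 hMN.le
        exact le_trans hml (div_le_div_of_nonneg_right hc1 hM.le)
      have b2 : S * mm * GG (1 / 4) h (ζ / 4 ^ h) ≤ 4 ^ N * (1 / 4 ^ h) * Gi h 1 ζ := by
        rw [Gi_eq h 1 ζ hc1]
        exact mul_le_mul_of_nonneg_right b1 (hGnn _)
      have := hnn4 ζ
      simp only [hBd]
      linarith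
    · rcases lt_or_ge ((4 : ℝ) ^ N) (2 * |ζ|) with hc2 | hc2
      · -- tail
        have hζ2 : ζ ^ 2 = |ζ| ^ 2 := (sq_abs ζ).symm
        have hζpos : 0 < ζ ^ 2 := by rw [hζ2]; positivity
        have b0 : (4 ^ h / ζ) ^ 2 ≤ (8 * 16 ^ h / 16 ^ N) * (1 + (ζ / 4 ^ N) ^ 2)⁻¹ := by
          have h16 : (16 : ℝ) ^ h = (4 ^ h) ^ 2 := by rw [← pow_mul, mul_comm, pow_mul]; norm_num
          have h16N : (16 : ℝ) ^ N = (4 ^ N) ^ 2 := by rw [← pow_mul, mul_comm, pow_mul]; norm_num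
          rw [div_pow, div_pow, h16, h16N]
          have e : (8 * ((4 : ℝ) ^ h) ^ 2 / (4 ^ N) ^ 2) * (1 + ζ ^ 2 / (4 ^ N) ^ 2)⁻¹ =
              8 * (4 ^ h) ^ 2 / ((4 ^ N) ^ 2 + ζ ^ 2) := by
            field_simp
          rw [e, div_le_div_iff₀ hζpos (by positivity)]
          have hsq : ((4 : ℝ) ^ N) ^ 2 ≤ 4 * ζ ^ 2 := by
            rw [hζ2]
            nlinarith
          have h4 : (0 : ℝ) ≤ (4 ^ h) ^ 2 := by positivity
          nlinarith [mul_nonneg h4 hζpos.le, mul_le_mul_of_nonneg_left hsq h4]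
        have b1 : S * mm ≤ 4 ^ N * ((8 * 16 ^ h / 16 ^ N) * (1 + (ζ / 4 ^ N) ^ 2)⁻¹) :=
          mul_le_mul hS1 (le_trans hmr b0) hm0 hMN.le
        have b2 : S * mm * GG (1 / 4) h (ζ / 4 ^ h) ≤ S * mm * 1 :=
          mul_le_mul_of_nonneg_left (hG1 _) (mul_nonneg hS0 hm0)
        have := hnn1 ζ
        simp only [hBd]
        linarith
      · obtain ⟨n, hn1, hn2⟩ := exists_nat_pow_near hc1.le (show (1 : ℝ) < 4 by norm_num)
        rcases lt_or_ge n h with hnh | hnh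
        · -- middle range
          have b0 := hR6 N h n ζ hnh.le hn1 hc2
          have b1 : S * mm ≤ (C * 4 ^ N * (qq / 2) ^ n) * (4 ^ (n + 1) / 4 ^ h) := by
            apply mul_le_mul b0 _ hm0 (by positivity)
            exact le_trans hml (div_le_div_of_nonneg_right hn2.le hM.le)
          have b2 : S * mm * GG (1 / 4) h (ζ / 4 ^ h) ≤
              (C * 4 ^ N * (qq / 2) ^ n * (4 ^ (n + 1) / 4 ^ h)) * Gi h (4 ^ (n + 1)) ζ := by
            rw [Gi_eq h _ ζ hn2.le]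
            exact mul_le_mul_of_nonneg_right b1 (hGnn _)
          have b3 := Finset.single_le_sum (f := fun s => (C * 4 ^ N * (qq / 2) ^ s *
            (4 ^ (s + 1) / 4 ^ h)) * Gi h (4 ^ (s + 1)) ζ) (fun s _ => hnn2 ζ s)
            (Finset.mem_range.mpr hnh)
          have := hnn1 ζ
          have := hnn4 ζ
          simp only [hBd]
          linarith
        · -- upper range
          obtain ⟨t, rfl⟩ := Nat.exists_eq_add_of_le hnh
          have htN : t < N := by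
            have : (4 : ℝ) ^ (h + t) < 4 ^ N := by linarith
            have := (pow_lt_pow_iff_right₀ (by norm_num : (1 : ℝ) < 4)).mp this
            omega
          have h4h : (4 : ℝ) ^ h ≤ |ζ| := by
            refine le_trans ?_ hn1
            exact pow_le_pow_right₀ (by norm_num) (by omega)
          have b0 := hR6 N h h ζ le_rfl h4h hc2
          have b01 : (4 ^ h / ζ) ^ 2 ≤ 1 / 16 ^ t := by
            rw [← sq_abs, abs_div, abs_of_pos hM]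
            have h16 : (16 : ℝ) ^ t = (4 ^ t) ^ 2 := by rw [← pow_mul, mul_comm, pow_mul]; norm_num
            rw [h16, ← one_div_pow]
            apply pow_le_pow_left₀ (by positivity)
            rw [div_le_div_iff₀ (by linarith) (by positivity)]
            rw [pow_add] at hn1
            linarith
          have b1 : S * mm ≤ (C * 4 ^ N * (qq / 2) ^ h) * (1 / 16 ^ t) := by
            apply mul_le_mul b0 _ hm0 (by positivity)
            exact le_trans hmr b01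
          have hn2' : |ζ| ≤ 4 ^ (h + (t + 1)) := by
            rw [← add_assoc]
            exact hn2.le
          have b2 : S * mm * GG (1 / 4) h (ζ / 4 ^ h) ≤
              (C * 4 ^ N * (qq / 2) ^ h * (1 / 16 ^ t)) * Gi h (4 ^ (h + (t + 1))) ζ := by
            rw [Gi_eq h _ ζ hn2']
            exact mul_le_mul_of_nonneg_right b1 (hGnn _)
          have b3 := Finset.single_le_sum (f := fun t : ℕ => (C * 4 ^ N * (qq / 2) ^ h * (1 / 16 ^ t)) *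
            Gi h (4 ^ (h + (t + 1))) ζ) (fun t _ => hnn3 ζ t) (Finset.mem_range.mpr htN)
          have := hnn1 ζ
          have := hnn4 ζ
          simp only [hBd]
          linarith
  -- integrability and integral of the dominating function
  have htail := tail_integral N
  have i1 : MeasureTheory.Integrable (fun ζ => 4 ^ N * (1 / 4 ^ h) * Gi h 1 ζ) :=
    (Gi_int h 1).const_mul _
  have i2 : MeasureTheory.Integrable (fun ζ => ∑ s ∈ range h,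
      (C * 4 ^ N * (qq / 2) ^ s * (4 ^ (s + 1) / 4 ^ h)) * Gi h (4 ^ (s + 1)) ζ) :=
    MeasureTheory.integrable_finsetSum _ (fun s _ => (Gi_int h _).const_mul _)
  have i3 : MeasureTheory.Integrable (fun ζ => ∑ t ∈ range N,
      (C * 4 ^ N * (qq / 2) ^ h * (1 / 16 ^ t)) * Gi h (4 ^ (h + (t + 1))) ζ) :=
    MeasureTheory.integrable_finsetSum _ (fun s _ => (Gi_int h _).const_mul _)
  have i4 : MeasureTheory.Integrable (fun ζ : ℝ =>
      (4 ^ N * (8 * 16 ^ h / 16 ^ N)) * (1 + (ζ / 4 ^ N) ^ 2)⁻¹) := htail.1.const_mul _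
  have i12 := i1.add i2
  have i123 := i12.add i3
  have iB : MeasureTheory.Integrable Bd := i123.add i4
  have hint : ∫ ζ, Bd ζ = 4 ^ N * (1 / 4 ^ h) * (∫ ζ, Gi h 1 ζ) +
      ∑ s ∈ range h, (C * 4 ^ N * (qq / 2) ^ s * (4 ^ (s + 1) / 4 ^ h)) * (∫ ζ, Gi h (4 ^ (s + 1)) ζ) +
      ∑ t ∈ range N, (C * 4 ^ N * (qq / 2) ^ h * (1 / 16 ^ t)) * (∫ ζ, Gi h (4 ^ (h + (t + 1))) ζ) +
      (4 ^ N * (8 * 16 ^ h / 16 ^ N)) * (4 ^ N * Real.pi) := by
    have e1 : ∫ ζ, Bd ζ = ∫ ζ, (((((fun ζ : ℝ => 4 ^ N * (1 / 4 ^ h) * Gi h 1 ζ) +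
        (fun ζ => ∑ s ∈ range h, (C * 4 ^ N * (qq / 2) ^ s * (4 ^ (s + 1) / 4 ^ h)) * Gi h (4 ^ (s + 1)) ζ)) +
        (fun ζ => ∑ t ∈ range N, (C * 4 ^ N * (qq / 2) ^ h * (1 / 16 ^ t)) * Gi h (4 ^ (h + (t + 1))) ζ)) +
        (fun ζ => (4 ^ N * (8 * 16 ^ h / 16 ^ N)) * (1 + (ζ / 4 ^ N) ^ 2)⁻¹) : ℝ → ℝ) ζ) := rfl
    rw [e1]
    rw [MeasureTheory.integral_add' i123 i4, MeasureTheory.integral_add' i12 i3,
      MeasureTheory.integral_add' i1 i2, MeasureTheory.integral_const_mul,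
      MeasureTheory.integral_const_mul, htail.2,
      MeasureTheory.integral_finsetSum _ (fun s _ => (Gi_int h _).const_mul _),
      MeasureTheory.integral_finsetSum _ (fun s _ => (Gi_int h _).const_mul _)]
    simp_rw [MeasureTheory.integral_const_mul]
  have hsum : ∑ k ∈ Odds N, XR h ((k : ℝ) / 4 ^ N) = ∫ ζ : ℝ, ∑ k ∈ Odds N,
      |GG (1 / 3) h ((k : ℝ) / 4 ^ N * ζ / 4 ^ h)| *
      GG (1 / 4) h (ζ / 4 ^ h) * min (|ζ| / 4 ^ h) ((4 ^ h / ζ) ^ 2) := by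
    unfold XR
    rw [MeasureTheory.integral_finsetSum _ (fun k _ => XR_int h _)]
  rw [hsum]
  have hmono : ∫ ζ : ℝ, ∑ k ∈ Odds N,
      |GG (1 / 3) h ((k : ℝ) / 4 ^ N * ζ / 4 ^ h)| *
      GG (1 / 4) h (ζ / 4 ^ h) * min (|ζ| / 4 ^ h) ((4 ^ h / ζ) ^ 2) ≤ ∫ ζ, Bd ζ :=
    MeasureTheory.integral_mono (MeasureTheory.integrable_finsetSum _ (fun k _ => XR_int h _)) iB hpt
  refine le_trans hmono ?_
  rw [hint]
  -- the four parts
  have p1 : ∫ ζ, Gi h 1 ζ ≤ 2 := by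
    rw [Gi_integral]
    have := R7.1 h 0 (Nat.zero_le _)
    simpa using this
  have p2 : ∀ s ∈ range h, ∫ ζ, Gi h (4 ^ (s + 1)) ζ ≤ 2 * 2 ^ (s + 1) := by
    intro s hs
    rw [Gi_integral]
    have hs' := Finset.mem_range.mp hs
    exact R7.1 h (s + 1) (by omega)
  have p3 : ∀ t ∈ range N, ∫ ζ, Gi h (4 ^ (h + (t + 1))) ζ ≤ 2 * 4 ^ (t + 1) * 2 ^ h := by
    intro t _
    rw [Gi_integral]
    exact R7.2 h (t + 1)
  have hqle : 1 / 4 ^ h ≤ qq ^ h := by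
    rw [← one_div_pow]
    apply pow_le_pow_left₀ (by norm_num)
    unfold qq; norm_num
  have q1 : 4 ^ N * (1 / 4 ^ h) * (∫ ζ, Gi h 1 ζ) ≤ 2 * 4 ^ N * qq ^ h := by
    calc 4 ^ N * (1 / 4 ^ h) * (∫ ζ, Gi h 1 ζ) ≤ 4 ^ N * (1 / 4 ^ h) * 2 :=
          mul_le_mul_of_nonneg_left p1 (by positivity)
      _ = 2 * 4 ^ N * (1 / 4 ^ h) := by ring
      _ ≤ _ := mul_le_mul_of_nonneg_left hqle (by positivity)
  have q2 : ∑ s ∈ range h, (C * 4 ^ N * (qq / 2) ^ s * (4 ^ (s + 1) / 4 ^ h)) *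
      (∫ ζ, Gi h (4 ^ (s + 1)) ζ) ≤ 16 * C * 4 ^ N * qq ^ h := by
    calc _ ≤ ∑ s ∈ range h, (16 * C * 4 ^ N) * (qq ^ s * (4 ^ s / 4 ^ h)) := by
          apply Finset.sum_le_sum
          intro s hs
          calc _ ≤ (C * 4 ^ N * (qq / 2) ^ s * (4 ^ (s + 1) / 4 ^ h)) * (2 * 2 ^ (s + 1)) :=
                mul_le_mul_of_nonneg_left (p2 s hs) (by positivity)
            _ = (16 * C * 4 ^ N) * (qq ^ s * (4 ^ s / 4 ^ h)) := by
                rw [div_pow, pow_succ, pow_succ]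
                field_simp
                norm_num
      _ = (16 * C * 4 ^ N) * ∑ s ∈ range h, (qq ^ s * (4 ^ s / 4 ^ h)) := by rw [Finset.mul_sum]
      _ ≤ _ := mul_le_mul_of_nonneg_left (sum_geo1 h) (by positivity)
  have q3 : ∑ t ∈ range N, (C * 4 ^ N * (qq / 2) ^ h * (1 / 16 ^ t)) *
      (∫ ζ, Gi h (4 ^ (h + (t + 1))) ζ) ≤ 11 * C * 4 ^ N * qq ^ h := by
    calc _ ≤ ∑ t ∈ range N, (8 * C * 4 ^ N * qq ^ h) * ((4 : ℝ) ^ t / 16 ^ t) := by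
          apply Finset.sum_le_sum
          intro t ht
          calc _ ≤ (C * 4 ^ N * (qq / 2) ^ h * (1 / 16 ^ t)) * (2 * 4 ^ (t + 1) * 2 ^ h) :=
                mul_le_mul_of_nonneg_left (p3 t ht) (by positivity)
            _ = (8 * C * 4 ^ N * qq ^ h) * ((4 : ℝ) ^ t / 16 ^ t) := by
                rw [div_pow, pow_succ]
                field_simp
                norm_num
      _ = (8 * C * 4 ^ N * qq ^ h) * ∑ t ∈ range N, ((4 : ℝ) ^ t / 16 ^ t) := by rw [Finset.mul_sum]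
      _ ≤ (8 * C * 4 ^ N * qq ^ h) * (4 / 3) :=
          mul_le_mul_of_nonneg_left (sum_geo2 N) (by positivity)
      _ ≤ _ := by
          have : 0 ≤ C * 4 ^ N * qq ^ h := by positivity
          nlinarith
  have q4 : (4 ^ N * (8 * 16 ^ h / 16 ^ N)) * (4 ^ N * Real.pi) ≤ 40 * 4 ^ N * qq ^ h := by
    have e : (4 ^ N * (8 * 16 ^ h / 16 ^ N)) * (4 ^ N * Real.pi) = 8 * Real.pi * 16 ^ h := by
      have h16N : (16 : ℝ) ^ N = 4 ^ N * 4 ^ N := by rw [← mul_pow]; norm_num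
      rw [h16N]
      field_simp
    rw [e]
    have hpi := Real.pi_lt_d2
    have h1 : (16 : ℝ) ^ h ≤ 4 ^ N * (1 / 4 ^ h) := by
      have : (4 : ℝ) ^ (4 * h) ≤ 4 ^ N := pow_le_pow_right₀ (by norm_num) hNh
      rw [mul_one_div, le_div_iff₀ hM]
      calc (16 : ℝ) ^ h * 4 ^ h = 64 ^ h := by rw [← mul_pow]; norm_num
        _ ≤ 256 ^ h := pow_le_pow_left₀ (by norm_num) (by norm_num) h
        _ = 4 ^ (4 * h) := by rw [pow_mul]; norm_num
        _ ≤ 4 ^ N := this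
    have h2 : (16 : ℝ) ^ h ≤ 4 ^ N * qq ^ h :=
      le_trans h1 (mul_le_mul_of_nonneg_left hqle hMN.le)
    have h3 : (0 : ℝ) < 16 ^ h := by positivity
    nlinarith
  calc _ ≤ 2 * 4 ^ N * qq ^ h + 16 * C * 4 ^ N * qq ^ h + 11 * C * 4 ^ N * qq ^ h +
        40 * 4 ^ N * qq ^ h := by linarith
    _ = (2 + 16 * C + 11 * C + 40) * 4 ^ N * qq ^ h := by ring

end Pool.Agent.C52.RR8
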