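import Pool.Agent.Lib.MP_c52340_c5.Defs
import Pool.Agent.Lib.MP_c52340_c5.B13
import Pool.Agent.Lib.MP_c52340_c5.U1
import Pool.Agent.Lib.MP_c52340_c5.R2
import Pool.Agent.Lib.MP_c52340_c5.R5
import Pool.Agent.Lib.MP_c52340_c5.R8
import Pool.Agent.Lib.MP_c52340_c5.R9
import Pool.Agent.Lib.MP_c52340_c5.R12
import Pool.Agent.Lib.MP_c52340_c5.R17
import Pool.Agent.Lib.MP_c52340_c5.R18


set_option autoImplicit false

open Finset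

open Pool.Agent.C52.RB13 (B13)
open Pool.Agent.C52.RU1 (U1)
open Pool.Agent.C52.RR2 (R2)
open Pool.Agent.C52.RR5 (R5)
open Pool.Agent.C52.RR8 (R8)
open Pool.Agent.C52.RR9 (R9)
open Pool.Agent.C52.RR12 (R12)
open Pool.Agent.C52.RR17 (R17)
open Pool.Agent.C52.RR18 (R18)

namespace Pool.Agent.C52.RR19

private theorem r19_XR_nonneg (h : ℕ) (κ : ℝ) : 0 ≤ XR h κ := by
  unfold XR
  refine MeasureTheory.integral_nonneg fun ζ => ?_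
  have h1 : 0 ≤ GG (1 / 4) h (ζ / 4 ^ h) :=
    B13.2.2.2.2.2.2.2.2.1 (1 / 4) (ζ / 4 ^ h) h (by norm_num) le_rfl
  exact mul_nonneg (mul_nonneg (abs_nonneg _) h1) (le_min (by positivity) (by positivity))

private theorem r19_geom {q : ℝ} (h0 : 0 ≤ q) (h1 : q < 1) (l n : ℕ) :
    ∑ j ∈ Ico l n, q ^ j ≤ q ^ l / (1 - q) := by
  have h2 : 0 < 1 - q := by linarith
  rcases le_total n l with h | h
  · rw [Ico_eq_empty_of_le h, sum_empty]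
    positivity
  · rw [le_div_iff₀ h2]
    have h3 : (∑ j ∈ Ico l n, q ^ j) * (1 - q) = q ^ l - q ^ n := by
      induction n, h using Nat.le_induction with
      | base => simp
      | succ n hn ih =>
        rw [sum_Ico_succ_top hn, add_mul, ih, pow_succ]
        ring
    rw [h3]
    have : 0 ≤ q ^ n := by positivity
    linarith

private theorem r19_tele {ρ C : ℝ} {κ : ℝ}
    (h5 : ∀ (h : ℕ) (D : ℝ), |eta ρ (h + 1) κ D - eta ρ h κ D| ≤ C * XR h κ) (D : ℝ) (l h : ℕ)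
    (hlh : l ≤ h) : |eta ρ h κ D - eta ρ l κ D| ≤ ∑ j ∈ Ico l h, C * XR j κ := by
  induction h, hlh using Nat.le_induction with
  | base => simp
  | succ h hh ih =>
    rw [sum_Ico_succ_top hh]
    have h1 : eta ρ (h + 1) κ D - eta ρ l κ D =
        (eta ρ (h + 1) κ D - eta ρ h κ D) + (eta ρ h κ D - eta ρ l κ D) := by ring
    rw [h1]
    refine (abs_add_le _ _).trans ?_
    linarith [h5 h D]

/-- the average of a tail sum -/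
private theorem r19_avg {C₅ C₈ : ℝ} (hC₅ : 0 < C₅) (hC₈ : 0 < C₈)
    (h8 : ∀ N h : ℕ, 4 * h ≤ N → ∑ k ∈ Odds N, XR h ((k : ℝ) / 4 ^ N) ≤ C₈ * 4 ^ N * qq ^ h)
    (N l : ℕ) :
    ∑ k ∈ Odds N, ∑ j ∈ Ico l (N / 4), C₅ * XR j ((k : ℝ) / 4 ^ N) ≤
      (C₅ * C₈ * (qq ^ l / (1 - qq))) * 4 ^ N := by
  have hq0 : (0 : ℝ) ≤ qq := by unfold qq; norm_num
  have hq1 : qq < 1 := by unfold qq; norm_num
  rw [sum_comm]
  have h1 : ∀ j ∈ Ico l (N / 4), ∑ k ∈ Odds N, C₅ * XR j ((k : ℝ) / 4 ^ N) ≤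
      C₅ * C₈ * 4 ^ N * qq ^ j := by
    intro j hj
    rw [mem_Ico] at hj
    rw [← mul_sum]
    have h2 := h8 N j (by omega)
    calc C₅ * ∑ k ∈ Odds N, XR j ((k : ℝ) / 4 ^ N) ≤ C₅ * (C₈ * 4 ^ N * qq ^ j) :=
          mul_le_mul_of_nonneg_left h2 hC₅.le
      _ = _ := by ring
  refine (sum_le_sum h1).trans ?_
  rw [← mul_sum]
  have h3 := r19_geom hq0 hq1 l (N / 4)
  calc C₅ * C₈ * 4 ^ N * ∑ j ∈ Ico l (N / 4), qq ^ j ≤ C₅ * C₈ * 4 ^ N * (qq ^ l / (1 - qq)) :=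
        mul_le_mul_of_nonneg_left h3 (by positivity)
    _ = _ := by ring

/-- Row R19.  Positivity and boundedness of the real end in the first quarter, for most `k`.
Recipe: `C₅` from R5, `C₈` from R8: choose `l` with `∑_{h ≥ l} C₅ C₈ qq^h * 10 ≤ ε/4`: outside proportion `ε/4` (U1)
`∑_{l ≤ h ≤ N/4} C₅ XR h κ ≤ 1/10`, so `eta ρ h κ D ≥ eta ρ l κ D - 1/10` for `l ≤ h ≤ N/4`, all `D`.  R17 (`ε/4`), R18, R12:
`eta ρ h κ 0 ≥ 3^{-I₀} * 1/2` for `I₀ + l ≤ h ≤ N/4`.  Upper bound: `eta ρ h κ 0 ≤ eta ρ 0 κ 0 + C₅ ∑_{j<h} XR j κ` and Markov. -/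
theorem R19 (ρ : ℝ) (h0 : 2 / 5 ≤ ρ) (h1 : ρ < 1 / 2) (ε : ℝ) (hε : 0 < ε) :
    ∃ δ B : ℝ, 0 < δ ∧ 0 < B ∧ ∃ h₀ N₀ : ℕ, ∀ N ≥ N₀, bad N (fun k => InR N k →
      ∀ h, h ≤ N / 4 → eta ρ h ((k : ℝ) / 4 ^ N) 0 ≤ B ∧ (h₀ ≤ h → δ ≤ eta ρ h ((k : ℝ) / 4 ^ N) 0)) ≤ ε := by
  have hρ0 : 0 < ρ := by linarith
  obtain ⟨C₅, hC₅, h5⟩ := R5 ρ hρ0 h1
  obtain ⟨C₈, hC₈, h8⟩ := R8
  have hq0 : (0 : ℝ) < qq := by unfold qq; norm_num
  have hq1 : qq < 1 := by unfold qq; norm_num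
  have hq2 : 0 < 1 - qq := by linarith
  -- the choice of `l`
  obtain ⟨l, hl⟩ := exists_pow_lt_of_lt_one
    (show 0 < ε / 40 * (1 - qq) / (C₅ * C₈) by positivity) hq1
  have hl' : C₅ * C₈ * (qq ^ l / (1 - qq)) ≤ ε / 40 := by
    rw [lt_div_iff₀ (by positivity)] at hl
    rw [mul_div_assoc', div_le_iff₀ hq2]
    linarith
  obtain ⟨I₀, L, hL1, hL2, hL3⟩ := R17 ρ h0 h1 l (ε / 4) (by positivity)
  -- the constants
  obtain ⟨t, ht⟩ : ∃ t : ℝ, t = C₅ * C₈ * (qq ^ 0 / (1 - qq)) / (ε / 4) := ⟨_, rfl⟩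
  have ht0 : 0 < t := by rw [ht]; positivity
  obtain ⟨N₀, hN₀⟩ := exists_nat_gt ((L.length : ℝ) / (ε / 8))
  refine ⟨(1 / 3) ^ I₀ * (1 / 2), 1 + t, by positivity, by linarith, I₀ + l, N₀, fun N hN => ?_⟩
  -- the three conditions
  have hb1 : bad N (fun k => ∑ j ∈ Ico l (N / 4), C₅ * XR j ((k : ℝ) / 4 ^ N) ≤ 1 / 10) ≤
      ε / 4 := by
    have h2 := U1.2.2.1 N (fun k => ∑ j ∈ Ico l (N / 4), C₅ * XR j ((k : ℝ) / 4 ^ N))
      (C₅ * C₈ * (qq ^ l / (1 - qq))) (1 / 10)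
      (fun k _ => sum_nonneg fun j _ => mul_nonneg hC₅.le (r19_XR_nonneg _ _)) (by norm_num)
      (r19_avg hC₅ hC₈ h8 N l)
    refine h2.trans ?_
    rw [div_le_iff₀ (by norm_num)]
    linarith
  have hb2 : bad N (fun k => ∑ j ∈ Ico 0 (N / 4), C₅ * XR j ((k : ℝ) / 4 ^ N) ≤ t) ≤ ε / 4 := by
    have h2 := U1.2.2.1 N (fun k => ∑ j ∈ Ico 0 (N / 4), C₅ * XR j ((k : ℝ) / 4 ^ N))
      (C₅ * C₈ * (qq ^ 0 / (1 - qq))) t
      (fun k _ => sum_nonneg fun j _ => mul_nonneg hC₅.le (r19_XR_nonneg _ _)) ht0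
      (r19_avg hC₅ hC₈ h8 N 0)
    refine h2.trans (le_of_eq ?_)
    rw [ht]
    field_simp
  have hb3 : bad N (fun k => ¬ ∃ p ∈ L, p.1 ≤ (k : ℝ) / 4 ^ N ∧ (k : ℝ) / 4 ^ N ≤ p.2) ≤
      3 * ε / 8 := by
    refine (R18 N L hL1).trans ?_
    have h2 : (L.length : ℝ) / 4 ^ N ≤ ε / 8 := by
      rw [div_le_iff₀ (by positivity)]
      rw [div_lt_iff₀ (by positivity)] at hN₀
      have h3 : (N₀ : ℝ) ≤ 4 ^ N := by
        have h4 : N < 4 ^ N := Nat.lt_pow_self (by norm_num)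
        have h5 : N₀ ≤ 4 ^ N := hN.trans h4.le
        exact_mod_cast h5
      calc (L.length : ℝ) ≤ N₀ * (ε / 8) := hN₀.le
        _ ≤ 4 ^ N * (ε / 8) := mul_le_mul_of_nonneg_right h3 (by positivity)
        _ = ε / 8 * 4 ^ N := by ring
    linarith
  have hb := (U1.2.1 N _ _).trans (add_le_add hb1 ((U1.2.1 N _ _).trans (add_le_add hb2 hb3)))
  refine (U1.1 N _ _ ?_).trans (hb.trans (by linarith))
  rintro k - ⟨hk1, hk2, hk3⟩ ⟨hkR1, hkR2⟩ h hh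
  obtain ⟨κ, hκ⟩ : ∃ κ : ℝ, κ = (k : ℝ) / 4 ^ N := ⟨_, rfl⟩
  rw [← hκ] at hk1 hk2 hk3 ⊢
  have h4N : (0 : ℝ) < 4 ^ N := by positivity
  have hκ1 : 1 / 8 ≤ κ := by
    rw [hκ, le_div_iff₀ h4N]
    have : (4 : ℝ) ^ N ≤ 8 * k := by exact_mod_cast hkR1
    linarith
  have hκ2 : κ ≤ 1 / 2 := by
    rw [hκ, div_le_iff₀ h4N]
    have : 2 * (k : ℝ) < 4 ^ N := by exact_mod_cast hkR2
    linarith
  have h5' : ∀ (h : ℕ) (D : ℝ), |eta ρ (h + 1) κ D - eta ρ h κ D| ≤ C₅ * XR h κ :=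
    fun h D => h5 h κ D (by linarith) (by linarith)
  have hmono : ∀ a b : ℕ, a ≤ N / 4 → ∑ j ∈ Ico b a, C₅ * XR j κ ≤
      ∑ j ∈ Ico b (N / 4), C₅ * XR j κ := by
    intro a b ha
    refine sum_le_sum_of_subset_of_nonneg (Ico_subset_Ico_right ha) fun j _ _ =>
      mul_nonneg hC₅.le (r19_XR_nonneg _ _)
  refine ⟨?_, fun hh0 => ?_⟩
  · have h2 := r19_tele h5' 0 0 h (Nat.zero_le _)
    have h3 := hmono h 0 hh
    have h4 := (R9 ρ hρ0 h1).2.2.2 κ 0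
    have h6 := ((R2 ρ hρ0 h1).2.1 0).2
    rw [h4] at h2
    have h7 := (le_abs_self _).trans h2
    linarith
  · rcases hL3 κ hκ1 hκ2 with ⟨i, hi, m, hm, y, hy, hiy⟩ | hbad
    · obtain ⟨h', hh'⟩ : ∃ h', h = i + h' := ⟨h - i, by omega⟩
      have hlh' : l ≤ h' := by omega
      have h2 := r19_tele h5' (κ * m - y) l h' hlh'
      have h3 := hmono h' l (by omega)
      have h6 : 1 / 2 ≤ eta ρ h' κ (κ * m - y) := by
        have h7 := (neg_abs_le _).trans (le_refl (eta ρ h' κ (κ * m - y) - eta ρ l κ (κ * m - y)))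
        linarith
      have h8' := R12 ρ hρ0 h1 κ i h' m y hm hy
      rw [← hh'] at h8'
      refine le_trans ?_ h8'
      have h9 : ((1 : ℝ) / 3) ^ I₀ ≤ (1 / 3) ^ i :=
        pow_le_pow_of_le_one (by norm_num) (by norm_num) hi
      exact mul_le_mul h9 h6 (by norm_num) (by positivity)
    · exact absurd hbad hk3

end Pool.Agent.C52.RR19
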