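import Pool.Agent.Lib.MP_c52340_c5.Defs
import Pool.Agent.Lib.MP_c52340_c5.B13
import Pool.Agent.Lib.MP_c52340_c5.U1
import Pool.Agent.Lib.MP_c52340_c5.R5
import Pool.Agent.Lib.MP_c52340_c5.R8
import Pool.Agent.Lib.MP_c52340_c5.R10
import Pool.Agent.Lib.MP_c52340_c5.R11
import Pool.Agent.Lib.MP_c52340_c5.R19


set_option autoImplicit false

open Finset

open Pool.Agent.C52.RB13 (B13)
open Pool.Agent.C52.RU1 (U1)
open Pool.Agent.C52.RR5 (R5)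
open Pool.Agent.C52.RR8 (R8)
open Pool.Agent.C52.RR10 (R10)
open Pool.Agent.C52.RR11 (R11)
open Pool.Agent.C52.RR19 (R19)

namespace Pool.Agent.C52.RR20

private theorem r20_XR_nonneg (h : ℕ) (κ : ℝ) : 0 ≤ XR h κ := by
  unfold XR
  refine MeasureTheory.integral_nonneg fun ζ => ?_
  have h1 : 0 ≤ GG (1 / 4) h (ζ / 4 ^ h) :=
    B13.2.2.2.2.2.2.2.2.1 (1 / 4) (ζ / 4 ^ h) h (by norm_num) le_rfl
  exact mul_nonneg (mul_nonneg (abs_nonneg _) h1) (le_min (by positivity) (by positivity))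

/-- `N s ^ (N / 4 - 1)` is eventually small -/
private theorem r20_small {s : ℝ} (hs0 : 0 ≤ s) (hs1 : s < 1) (A e : ℝ) (hA : 0 ≤ A) (he : 0 < e) :
    ∃ N₀ : ℕ, ∀ N ≥ N₀, A * (N * s ^ (N / 4 - 1)) ≤ e := by
  have h1 : Filter.Tendsto (fun n : ℕ => (n : ℝ) * s ^ n) Filter.atTop (nhds 0) :=
    tendsto_self_mul_const_pow_of_lt_one hs0 hs1
  have h2 : Filter.Tendsto (fun n : ℕ => s ^ n) Filter.atTop (nhds 0) :=
    tendsto_pow_atTop_nhds_zero_of_lt_one hs0 hs1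
  have h3 : Filter.Tendsto (fun n : ℕ => A * (4 * ((n : ℝ) * s ^ n) + 7 * s ^ n)) Filter.atTop (nhds (A * (4 * 0 + 7 * 0))) :=
    ((h1.const_mul 4).add (h2.const_mul 7)).const_mul A
  rw [show A * (4 * 0 + 7 * 0) = (0 : ℝ) by ring] at h3
  have h4 := h3.eventually (gt_mem_nhds he)
  rw [Filter.eventually_atTop] at h4
  obtain ⟨n₀, hn₀⟩ := h4
  refine ⟨4 * n₀ + 8, fun N hN => ?_⟩
  have h5 := hn₀ (N / 4 - 1) (by omega)
  have h6 : (N : ℝ) ≤ 4 * ((N / 4 - 1 : ℕ) : ℝ) + 7 := by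
    have : N ≤ 4 * (N / 4 - 1) + 7 := by omega
    exact_mod_cast this
  refine le_trans (mul_le_mul_of_nonneg_left ?_ hA) h5.le
  have h7 : 0 ≤ s ^ (N / 4 - 1) := by positivity
  calc (N : ℝ) * s ^ (N / 4 - 1) ≤ (4 * ((N / 4 - 1 : ℕ) : ℝ) + 7) * s ^ (N / 4 - 1) :=
        mul_le_mul_of_nonneg_right h6 h7
    _ = _ := by ring

/-- propagation of the bounds -/
private theorem r20_prop {f : ℕ → ℝ} {r M : ℕ} {β B₁ d : ℝ} (hB : 0 < B₁) (hβ : 0 ≤ β) (hd : d ≤ B₁)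
    (h1 : ∀ h ≤ r, f h ≤ B₁) (h2 : ∀ H, 1 ≤ H → |f (H + r) - f (H + r - 1)| ≤ β * f H)
    (h3 : M * β * (2 * B₁) ≤ d) (hr : 1 ≤ r) :
    ∀ h ≤ M, f h ≤ 2 * B₁ ∧ (r ≤ h → |f h - f r| ≤ ((h - r : ℕ) : ℝ) * β * (2 * B₁)) := by
  intro h
  induction h using Nat.strong_induction_on with
  | _ h ih =>
    intro hM
    rcases le_or_gt h r with hhr | hhr
    · refine ⟨by linarith [h1 h hhr], fun hrh => ?_⟩
      have : h = r := le_antisymm hhr hrh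
      subst this
      simp
    · obtain ⟨H, rfl⟩ : ∃ H, h = H + r := ⟨h - r, by omega⟩
      have hH : 1 ≤ H := by omega
      have h4 := h2 H hH
      have h5 := (ih H (by omega) (by omega)).1
      have h6 := (ih (H + r - 1) (by omega) (by omega)).2 (by omega)
      have h7 : |f (H + r) - f (H + r - 1)| ≤ β * (2 * B₁) :=
        h4.trans (mul_le_mul_of_nonneg_left h5 hβ)
      have h8 : |f (H + r) - f r| ≤ ((H + r - r : ℕ) : ℝ) * β * (2 * B₁) := by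
        have h9 : f (H + r) - f r = (f (H + r) - f (H + r - 1)) + (f (H + r - 1) - f r) := by ring
        rw [h9]
        refine (abs_add_le _ _).trans ?_
        have h10 : ((H + r - 1 - r : ℕ) : ℝ) = (H : ℝ) - 1 := by
          have : H + r - 1 - r = H - 1 := by omega
          rw [this, Nat.cast_sub hH]
          norm_num
        have h11 : ((H + r - r : ℕ) : ℝ) = (H : ℝ) := by
          have : H + r - r = H := by omega
          rw [this]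
        rw [h10] at h6
        rw [h11]
        linarith
      refine ⟨?_, fun _ => h8⟩
      have h12 : ((H + r - r : ℕ) : ℝ) * β * (2 * B₁) ≤ M * β * (2 * B₁) := by
        have h13 : ((H + r - r : ℕ) : ℝ) ≤ M := by
          have : H + r - r ≤ M := by omega
          exact_mod_cast this
        gcongr
      have h14 := (le_abs_self _).trans (h8.trans (h12.trans h3))
      linarith [h1 r le_rfl]

/-- Row R20.  The real end, for most `k` with `k/4^N ≤ 1/2 - b`.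
Recipe: `ρ = 1/2 - b/4` (so `(3/2 + κ)/4 ≤ ρ`).  R19 with `ε/2`; `r = N/4`: outside a small set `C₅ XR (r-1) κ ≤ √qq^{r-1}` (R8, U1), so
by R5, R10 `|eta (H + r) 0 - eta (H + r - 1) 0| ≤ √qq^{r-1} eta H 0`; running maximum `≤ 2B` and total change
`≤ n₂ N √qq^{N/4-1} 2B ≤ δ/2` up to `H = (n₁ + 1) N`.  R11. -/
theorem R20 (ε b : ℝ) (hε : 0 < ε) (hb : 0 < b) (hb' : b ≤ 1 / 4) (n₁ : ℕ) :
    ∃ δ B : ℝ, 0 < δ ∧ 0 < B ∧ ∃ N₀ : ℕ, ∀ N ≥ N₀, bad N (fun k => InR N k → (k : ℝ) ≤ (1 / 2 - b) * 4 ^ N →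
      ∀ n ≤ n₁, δ ≤ sig ((n + 1) * N) ((k : ℝ) / 4 ^ N) ∧ sig ((n + 1) * N) ((k : ℝ) / 4 ^ N) ≤ B) ≤ ε := by
  obtain ⟨ρ, hρ⟩ : ∃ ρ : ℝ, ρ = 1 / 2 - b / 4 := ⟨_, rfl⟩
  have hρ0 : 2 / 5 ≤ ρ := by rw [hρ]; linarith
  have hρ1 : ρ < 1 / 2 := by rw [hρ]; linarith
  have hρ2 : 0 < ρ := by linarith
  obtain ⟨C₅, hC₅, h5⟩ := R5 ρ hρ2 hρ1
  obtain ⟨C₈, hC₈, h8⟩ := R8
  obtain ⟨δ₁, B₁, hδ₁, hB₁, h₀, N₁, h19⟩ := R19 ρ hρ0 hρ1 (ε / 2) (by positivity)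
  obtain ⟨t, ht⟩ : ∃ t : ℝ, t = 999 / 1000 := ⟨_, rfl⟩
  have ht0 : 0 < t := by rw [ht]; norm_num
  have ht1 : t < 1 := by rw [ht]; norm_num
  obtain ⟨s, hs⟩ : ∃ s : ℝ, s = qq / t := ⟨_, rfl⟩
  have hs0 : 0 ≤ s := by rw [hs, ht]; unfold qq; norm_num
  have hs1 : s < 1 := by rw [hs, ht]; unfold qq; norm_num
  -- smallness
  obtain ⟨N₂, hN₂⟩ := r20_small hs0 hs1 C₈ (ε / 2) hC₈.le (by positivity)
  obtain ⟨N₃, hN₃⟩ := r20_small ht0.le ht1 ((n₁ + 1 : ℕ) * C₅ * (2 * B₁)) (min B₁ (δ₁ / 2))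
    (by positivity) (by positivity)
  refine ⟨δ₁ / 2, 8 * B₁, by positivity, by positivity, max (max N₁ N₂) (max N₃ (4 * h₀ + 8)),
    fun N hN => ?_⟩
  have hN1 : N₁ ≤ N := le_trans (le_trans (le_max_left _ _) (le_max_left _ _)) hN
  have hN2 : N₂ ≤ N := le_trans (le_trans (le_max_right _ _) (le_max_left _ _)) hN
  have hN3 : N₃ ≤ N := le_trans (le_trans (le_max_left _ _) (le_max_right _ _)) hN
  have hN4 : 4 * h₀ + 8 ≤ N := le_trans (le_trans (le_max_right _ _) (le_max_right _ _)) hN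
  have hNpos : (1 : ℝ) ≤ N := by
    have : 1 ≤ N := by omega
    exact_mod_cast this
  -- the bad sets
  have hbad2 : bad N (fun k => XR (N / 4 - 1) ((k : ℝ) / 4 ^ N) ≤ t ^ (N / 4 - 1)) ≤ ε / 2 := by
    have h2 := U1.2.2.1 N (fun k => XR (N / 4 - 1) ((k : ℝ) / 4 ^ N)) (C₈ * qq ^ (N / 4 - 1))
      (t ^ (N / 4 - 1)) (fun k _ => r20_XR_nonneg _ _) (by positivity)
      (by
        have h3 := h8 N (N / 4 - 1) (by omega)
        calc _ ≤ _ := h3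
          _ = _ := by ring)
    refine h2.trans ?_
    have h3 : C₈ * qq ^ (N / 4 - 1) / t ^ (N / 4 - 1) = C₈ * s ^ (N / 4 - 1) := by
      rw [hs, div_pow, mul_div_assoc]
    rw [h3]
    refine le_trans (mul_le_mul_of_nonneg_left ?_ hC₈.le) (hN₂ N hN2)
    exact le_mul_of_one_le_left (by positivity) hNpos
  have hbad := (U1.2.1 N _ _).trans (add_le_add (h19 N hN1) hbad2)
  refine (U1.1 N _ _ ?_).trans (hbad.trans (by linarith))
  rintro k - ⟨hk1, hk2⟩ hkR hkb n hn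
  have hk1' := hk1 hkR
  obtain ⟨hkR1, hkR2⟩ := hkR
  obtain ⟨κ, hκ⟩ : ∃ κ : ℝ, κ = (k : ℝ) / 4 ^ N := ⟨_, rfl⟩
  rw [← hκ] at hk1' hk2 ⊢
  have h4N : (0 : ℝ) < 4 ^ N := by positivity
  have hκ1 : 1 / 8 ≤ κ := by
    rw [hκ, le_div_iff₀ h4N]
    have : (4 : ℝ) ^ N ≤ 8 * k := by exact_mod_cast hkR1
    linarith
  have hκ2 : κ ≤ 1 / 2 - b := by
    rw [hκ, div_le_iff₀ h4N]
    exact hkb
  have hκρ : (3 / 2 + κ) / 4 ≤ ρ := by
    rw [hρ]
    linarith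
  have hκ3 : κ ≤ 1 / 2 := by linarith
  have hκ0 : 0 ≤ κ := by linarith
  -- one step
  have hstep : ∀ H, 1 ≤ H → |eta ρ (H + N / 4) κ 0 - eta ρ (H + N / 4 - 1) κ 0| ≤
      (C₅ * t ^ (N / 4 - 1)) * eta ρ H κ 0 := by
    intro H _
    refine R10 ρ hρ2 hρ1 κ hκ0 hκ3 hκρ H (N / 4) (by omega) _ (fun D' => ?_) 0
    have h6 := h5 (N / 4 - 1) κ D' hκ0 (by linarith)
    have h7 : N / 4 - 1 + 1 = N / 4 := by omega
    rw [h7] at h6
    exact h6.trans (mul_le_mul_of_nonneg_left hk2 hC₅.le)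
  have hprop := r20_prop (f := fun h => eta ρ h κ 0) (r := N / 4) (M := (n₁ + 1) * N)
    (β := C₅ * t ^ (N / 4 - 1)) (B₁ := B₁) (d := min B₁ (δ₁ / 2)) hB₁ (by positivity)
    (min_le_left _ _) (fun h hh => (hk1' h hh).1) hstep
    (by
      refine le_trans (le_of_eq ?_) (hN₃ N hN3)
      push_cast
      ring) (by omega)
  have hnN : (n + 1) * N ≤ (n₁ + 1) * N := Nat.mul_le_mul_right N (by omega)
  have hnN1 : N ≤ (n + 1) * N := Nat.le_mul_of_pos_left N (by omega)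
  have h11 := R11 ρ hρ2 hρ1 κ hκ0 hκ3 hκρ
  refine ⟨?_, ?_⟩
  · refine le_trans ?_ (h11 ((n + 1) * N)).1
    have h6 := (hprop ((n + 1) * N) hnN).2 (by omega)
    have h7 : (((n + 1) * N - N / 4 : ℕ) : ℝ) * (C₅ * t ^ (N / 4 - 1)) * (2 * B₁) ≤ δ₁ / 2 := by
      have h8 : (((n + 1) * N - N / 4 : ℕ) : ℝ) ≤ (((n₁ + 1) * N : ℕ) : ℝ) := by
        exact_mod_cast (Nat.sub_le _ _).trans hnN
      refine le_trans ?_ ((hN₃ N hN3).trans (min_le_right _ _))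
      calc (((n + 1) * N - N / 4 : ℕ) : ℝ) * (C₅ * t ^ (N / 4 - 1)) * (2 * B₁) ≤
            (((n₁ + 1) * N : ℕ) : ℝ) * (C₅ * t ^ (N / 4 - 1)) * (2 * B₁) := by gcongr
        _ = _ := by push_cast; ring
    have h8 := (neg_abs_le _).trans (le_refl (eta ρ ((n + 1) * N) κ 0 - eta ρ (N / 4) κ 0))
    have h9 := (hk1' (N / 4) le_rfl).2 (by omega)
    linarith
  · have h6 : (n + 1) * N - 1 + 1 = (n + 1) * N := by omega
    have h7 := (h11 ((n + 1) * N - 1)).2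
    rw [h6] at h7
    have h8 := (hprop ((n + 1) * N - 1) (by omega)).1
    linarith

end Pool.Agent.C52.RR20
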