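import Pool.Agent.Lib.MP_c52340_c5.Defs
import Pool.Agent.Lib.MP_c52340_c5.B13
import Pool.Agent.Lib.MP_c52340_c5.T4
import Pool.Agent.Lib.MP_c52340_c5.T6


set_option autoImplicit false

open Finset

open Pool.Agent.C52.RB13 (B13)
open Pool.Agent.C52.RT4 (T4)
open Pool.Agent.C52.RT6 (T6)

namespace Pool.Agent.C52.RW8

/-- Row W8.  Small denominators are never structured.
Recipe: `x = b/d` satisfies `|x - n| ≥ 1/d ≥ 4^{-s}` for all integers `n`; T6 gives `i ≤ s < 2s` with `4^i x` at distance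
`≥ 1/8` from the integers; T4: the product is `≤ 43/50`; take `lam₀` with `lam₀^(2 s₀) > 43/50`. -/
theorem W8 (s₀ : ℕ) : ∃ lam₀ : ℝ, 1 / 2 < lam₀ ∧ lam₀ < 1 ∧ ∀ (k b : ℤ) (d s : ℕ), 3 ≤ d →
    IsCoprime b (d : ℤ) → 1 ≤ s → s ≤ s₀ → d ≤ 4 ^ s →
    ∏ i ∈ range (2 * s), gf (1 / 4) (4 ^ i * ((b : ℝ) / d)) * |gf (1 / 3) (4 ^ i * ((k : ℝ) * b / d))| <
      lam₀ ^ (2 * s) := by
  have hs0 : (0 : ℝ) < 16 * (s₀ + 1) := by positivity
  have hx0 : (0 : ℝ) < 1 / (16 * (s₀ + 1)) := by positivity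
  have hx1 : (1 : ℝ) / (16 * (s₀ + 1)) ≤ 1 / 16 := by
    rw [div_le_div_iff₀ hs0 (by norm_num)]
    have : (0 : ℝ) ≤ s₀ := Nat.cast_nonneg _
    linarith
  refine ⟨1 - 1 / (16 * (s₀ + 1)), by linarith, by linarith, ?_⟩
  intro k b d s hd hcop hs hss hds
  obtain ⟨_, _, h3, h4, _⟩ := B13
  have hd0 : (0 : ℝ) < d := by
    have : 0 < d := by omega
    exact_mod_cast this
  have hfar : ∀ n : ℤ, 1 / (4 : ℝ) ^ s ≤ |(b : ℝ) / d - n| := by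
    intro n
    have h1 : b - n * d ≠ 0 := by
      intro h
      have h2 : (d : ℤ) ∣ b := ⟨n, by linarith⟩
      have h5 : IsUnit (d : ℤ) := hcop.isUnit_of_dvd' h2 dvd_rfl
      rw [Int.isUnit_iff] at h5
      omega
    have h2 : (1 : ℝ) ≤ |(b : ℝ) - n * d| := by
      have := Int.one_le_abs h1
      exact_mod_cast this
    have h5 : (b : ℝ) / d - n = (b - n * d) / d := by field_simp
    rw [h5, abs_div, abs_of_pos hd0]
    refine (div_le_div_of_nonneg_right h2 hd0.le).trans' ?_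
    refine one_div_le_one_div_of_le hd0 ?_
    exact_mod_cast hds
  obtain ⟨i, hi, hi8⟩ := T6 s _ hfar
  have hmem : i ∈ range (2 * s) := mem_range.2 (by omega)
  have hf0 : ∀ j : ℕ, 0 ≤ gf (1 / 4) (4 ^ j * ((b : ℝ) / d)) * |gf (1 / 3) (4 ^ j * ((k : ℝ) * b / d))| :=
    fun j => mul_nonneg (h4 _ _ (by norm_num) (by norm_num)) (abs_nonneg _)
  have hf1 : ∀ j : ℕ, gf (1 / 4) (4 ^ j * ((b : ℝ) / d)) * |gf (1 / 3) (4 ^ j * ((k : ℝ) * b / d))| ≤ 1 :=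
    fun j => mul_le_one₀ ((le_abs_self _).trans (h3 _ _ (by norm_num) (by norm_num))) (abs_nonneg _)
      (h3 _ _ (by norm_num) (by norm_num))
  rw [← mul_prod_erase _ _ hmem]
  have h5 : gf (1 / 4) (4 ^ i * ((b : ℝ) / d)) * |gf (1 / 3) (4 ^ i * ((k : ℝ) * b / d))| ≤ 43 / 50 := by
    have h6 := (T4 _ hi8).1
    have h7 := h3 (1 / 3) (4 ^ i * ((k : ℝ) * b / d)) (by norm_num) (by norm_num)
    have h8 := h4 (1 / 4) (4 ^ i * ((b : ℝ) / d)) (by norm_num) (by norm_num)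
    nlinarith [abs_nonneg (gf (1 / 3) (4 ^ i * ((k : ℝ) * b / d)))]
  have h6 : ∏ j ∈ (range (2 * s)).erase i, gf (1 / 4) (4 ^ j * ((b : ℝ) / d)) *
      |gf (1 / 3) (4 ^ j * ((k : ℝ) * b / d))| ≤ 1 :=
    prod_le_one (fun j _ => hf0 j) (fun j _ => hf1 j)
  have h7 : 0 ≤ ∏ j ∈ (range (2 * s)).erase i, gf (1 / 4) (4 ^ j * ((b : ℝ) / d)) *
      |gf (1 / 3) (4 ^ j * ((k : ℝ) * b / d))| := prod_nonneg fun j _ => hf0 j
  have h8 : (7 / 8 : ℝ) ≤ (1 - 1 / (16 * (s₀ + 1))) ^ (2 * s) := by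
    have h9 := one_add_mul_le_pow (a := -(1 / (16 * ((s₀ : ℝ) + 1)))) (by linarith) (2 * s)
    have h10 : (1 : ℝ) + ((2 * s : ℕ) : ℝ) * -(1 / (16 * ((s₀ : ℝ) + 1))) ≥ 7 / 8 := by
      have h11 : ((2 * s : ℕ) : ℝ) ≤ 2 * s₀ := by
        push_cast
        have : (s : ℝ) ≤ s₀ := by exact_mod_cast hss
        linarith
      have h12 : ((2 * s : ℕ) : ℝ) * (1 / (16 * ((s₀ : ℝ) + 1))) ≤ 1 / 8 := by
        rw [mul_one_div, div_le_iff₀ hs0]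
        linarith
      linarith
    have h13 : (1 : ℝ) - 1 / (16 * (s₀ + 1)) = 1 + -(1 / (16 * ((s₀ : ℝ) + 1))) := by ring
    rw [h13]
    linarith
  have h9 : gf (1 / 4) (4 ^ i * ((b : ℝ) / d)) * |gf (1 / 3) (4 ^ i * ((k : ℝ) * b / d))| *
      ∏ j ∈ (range (2 * s)).erase i, gf (1 / 4) (4 ^ j * ((b : ℝ) / d)) *
        |gf (1 / 3) (4 ^ j * ((k : ℝ) * b / d))| ≤ 43 / 50 * 1 :=
    mul_le_mul h5 h6 h7 (by norm_num)
  linarith

end Pool.Agent.C52.RW8
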