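import Pool.Agent.Lib.MP_c52340_c5.Defs
import Pool.Agent.Lib.MP_c52340_c5.B13
import Pool.Agent.Lib.MP_c52340_c5.A4


set_option autoImplicit false

open Finset

open Pool.Agent.C52.RB13 (B13)
open Pool.Agent.C52.RA4 (A4)

namespace Pool.Agent.C52.RW9

private lemma gf14_mem_W9 (x : ℝ) : 0 ≤ gf (1 / 4) x ∧ gf (1 / 4) x ≤ 1 := by
  have h1 := B13.2.2.1 (1 / 4) x (by norm_num) (by norm_num)
  have h2 := B13.2.2.2.1 (1 / 4) x (by norm_num) (by norm_num)
  exact ⟨h2, (abs_le.mp h1).2⟩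

private lemma gf13_mem_W9 (x : ℝ) : 0 ≤ |gf (1 / 3) x| ∧ |gf (1 / 3) x| ≤ 1 :=
  ⟨abs_nonneg _, B13.2.2.1 (1 / 3) x (by norm_num) (by norm_num)⟩

/-- separated points: number of points with large value -/
private lemma count_W9 (C θ lam : ℝ) (hlam : 0 < lam) (n s : ℕ) (S : Finset ℝ) (F : ℝ → ℝ)
    (hF : ∑ x ∈ S, F x ^ 30 ≤ C * θ ^ n) (hl : ∀ x ∈ S, lam ^ (2 * s) ≤ F x) :
    (S.card : ℝ) * lam ^ (60 * s) ≤ C * θ ^ n := by
  calc (S.card : ℝ) * lam ^ (60 * s) = ∑ x ∈ S, (lam ^ (2 * s)) ^ 30 := by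
        rw [Finset.sum_const, nsmul_eq_mul, ← pow_mul]
        congr 2
        ring
    _ ≤ ∑ x ∈ S, F x ^ 30 := by
        apply Finset.sum_le_sum
        intro x hx
        exact pow_le_pow_left₀ (by positivity) (hl x hx) 30
    _ ≤ _ := hF

private lemma frac_sep_W9 (b b' : ℤ) (d d' : ℕ) (T : ℝ) (hd : 0 < d) (hd' : 0 < d')
    (hT : (d : ℝ) * d' ≤ T) (hne : (b : ℝ) / d ≠ (b' : ℝ) / d') :
    1 / T ≤ |(b : ℝ) / d - (b' : ℝ) / d'| := by
  have h1 : (0 : ℝ) < d := by exact_mod_cast hd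
  have h2 : (0 : ℝ) < d' := by exact_mod_cast hd'
  have h12 : (0 : ℝ) < (d : ℝ) * d' := by positivity
  have e : (b : ℝ) / d - (b' : ℝ) / d' = ((b * d' - b' * d : ℤ) : ℝ) / ((d : ℝ) * d') := by
    push_cast
    field_simp
  have hne' : (b * d' - b' * d : ℤ) ≠ 0 := by
    intro h0
    apply hne
    have : (b : ℝ) / d - (b' : ℝ) / d' = 0 := by rw [e, h0]; simp
    linarith
  have h3 : (1 : ℝ) ≤ |((b * d' - b' * d : ℤ) : ℝ)| := by
    have : (1 : ℤ) ≤ |b * d' - b' * d| := Int.one_le_abs hne'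
    exact_mod_cast this
  rw [e, abs_div, abs_of_pos h12]
  apply div_le_div₀ (by positivity) h3 h12 hT

private lemma frac_inj_W9 (b b' d d' : ℕ) (hd : 0 < d) (hd' : 0 < d')
    (hc : IsCoprime (b : ℤ) (d : ℤ)) (hc' : IsCoprime (b' : ℤ) (d' : ℤ))
    (h : (b : ℝ) / d = (b' : ℝ) / d') : d = d' ∧ b = b' := by
  have h1 : (d : ℝ) ≠ 0 := by exact_mod_cast hd.ne'
  have h2 : (d' : ℝ) ≠ 0 := by exact_mod_cast hd'.ne'
  rw [div_eq_div_iff h1 h2] at h
  have h3 : b * d' = b' * d := by exact_mod_cast h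
  have hcn : Nat.Coprime b d := Nat.isCoprime_iff_coprime.mp hc
  have hcn' : Nat.Coprime b' d' := Nat.isCoprime_iff_coprime.mp hc'
  have h4 : d ∣ d' := by
    apply hcn.symm.dvd_of_dvd_mul_left
    rw [h3]
    exact Dvd.intro_left b' rfl
  have h5 : d' ∣ d := by
    apply hcn'.symm.dvd_of_dvd_mul_left
    rw [← h3]
    exact Dvd.intro_left b rfl
  have h6 : d = d' := Nat.dvd_antisymm h4 h5
  refine ⟨h6, ?_⟩
  subst h6
  exact Nat.eq_of_mul_eq_mul_right hd h3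

/-- for a fixed fraction, the number of `k` -/
private lemma perfrac_W9 (C θ lam : ℝ) (hC : 0 < C) (hlam : 0 < lam) (s N : ℕ) (b d : ℕ) (hs : 1 ≤ s)
    (hθ : 0 < θ)
    (hA : ∀ (n : ℕ) (S : Finset ℝ),
      (∀ x ∈ S, 0 ≤ x ∧ x < 1) → (∀ x ∈ S, ∀ y ∈ S, x ≠ y → 1 / (4 : ℝ) ^ n ≤ |x - y|) →
      ∑ x ∈ S, |GG (1 / 3) n x| ^ 30 ≤ C * θ ^ n)
    (hdN : d ≤ 4 ^ N) (hc : IsCoprime (b : ℤ) (d : ℤ)) (hd1 : 4 ^ (s - 1) < d) (hd2 : d ≤ 4 ^ s) :
    (((Odds N).filter (fun k : ℤ => lam ^ (2 * s) ≤ |GG (1 / 3) s ((k : ℝ) * b / d)|)).card : ℝ) *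
      lam ^ (60 * s) ≤ (8 * 4 ^ N / 4 ^ s) * (C * θ ^ s) := by
  classical
  set K := (Odds N).filter (fun k : ℤ => lam ^ (2 * s) ≤ |GG (1 / 3) s ((k : ℝ) * b / d)|) with hK
  set W := (range d).filter (fun v : ℕ => lam ^ (2 * s) ≤ |GG (1 / 3) s ((v : ℝ) / d)|) with hW
  have hdpos : 0 < d := lt_of_le_of_lt (Nat.zero_le _) hd1
  have hdz : (0 : ℤ) < d := by exact_mod_cast hdpos
  have hdr : (0 : ℝ) < d := by exact_mod_cast hdpos
  -- image
  have himg : K.image (fun k : ℤ => (k * b) % (d : ℤ)) ⊆ W.image (fun v : ℕ => (v : ℤ)) := by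
    intro v hv
    simp only [mem_image] at hv
    obtain ⟨k, hk, rfl⟩ := hv
    simp only [mem_image]
    have h0 : 0 ≤ (k * b) % (d : ℤ) := Int.emod_nonneg _ hdz.ne'
    have h1 : (k * b) % (d : ℤ) < d := Int.emod_lt_of_pos _ hdz
    refine ⟨((k * b) % (d : ℤ)).toNat, ?_, Int.toNat_of_nonneg h0⟩
    simp only [hW, mem_filter, mem_range]
    constructor
    · zify
      rw [Int.toNat_of_nonneg h0]
      exact h1
    · simp only [hK, mem_filter] at hk
      have hk2 := hk.2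
      have e1 : (k : ℝ) * b / d = ((((k * b) % (d : ℤ)).toNat : ℕ) : ℝ) / d + ((k * b / (d : ℤ) : ℤ) : ℝ) := by
        have h3 : (((k * b) % (d : ℤ)).toNat : ℤ) + (d : ℤ) * (k * b / (d : ℤ)) = k * b := by
          rw [Int.toNat_of_nonneg h0]
          exact Int.emod_add_mul_ediv (k * b) d
        have h4 : ((((k * b) % (d : ℤ)).toNat : ℕ) : ℝ) + (d : ℝ) * ((k * b / (d : ℤ) : ℤ) : ℝ) = k * b := by
          exact_mod_cast h3
        rw [← h4]
        field_simp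
      rw [e1, B13.2.2.2.2.2.1] at hk2
      exact hk2
  have hcardimg : (K.image (fun k : ℤ => (k * b) % (d : ℤ))).card ≤ W.card :=
    (Finset.card_le_card himg).trans Finset.card_image_le
  -- fibers
  have hfib : ∀ v ∈ K.image (fun k : ℤ => (k * b) % (d : ℤ)),
      (K.filter (fun k : ℤ => (k * b) % (d : ℤ) = v)).card ≤ 4 ^ N / d + 1 := by
    intro v _
    have hmaps : Set.MapsTo (fun k : ℤ => (k / (d : ℤ)).toNat)
        (K.filter (fun k : ℤ => (k * b) % (d : ℤ) = v)) (range (4 ^ N / d + 1) : Finset ℕ) := by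
      intro k hk
      have hk' := Finset.mem_coe.mp hk
      simp only [hK, mem_filter, Odds, mem_Ico] at hk'
      obtain ⟨⟨⟨⟨hk0, hk1⟩, _⟩, _⟩, _⟩ := hk'
      simp only [Finset.coe_range, Set.mem_Iio]
      have h1 : 0 ≤ k / (d : ℤ) := Int.ediv_nonneg hk0 hdz.le
      have h2 : k / (d : ℤ) ≤ 4 ^ N / (d : ℤ) := Int.ediv_le_ediv hdz hk1.le
      have h3 : ((k / (d : ℤ)).toNat : ℤ) ≤ ((4 ^ N / d : ℕ) : ℤ) := by
        rw [Int.toNat_of_nonneg h1]
        push_cast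
        exact h2
      have h4 : (k / (d : ℤ)).toNat ≤ 4 ^ N / d := by exact_mod_cast h3
      omega
    have hinj : Set.InjOn (fun k : ℤ => (k / (d : ℤ)).toNat)
        (K.filter (fun k : ℤ => (k * b) % (d : ℤ) = v)) := by
      intro k hk k' hk' h
      have hk1 := Finset.mem_coe.mp hk
      have hk1' := Finset.mem_coe.mp hk'
      simp only [hK, mem_filter, Odds, mem_Ico] at hk1 hk1'
      obtain ⟨⟨⟨⟨hk0, _⟩, _⟩, _⟩, hkv⟩ := hk1
      obtain ⟨⟨⟨⟨hk0', _⟩, _⟩, _⟩, hkv'⟩ := hk1'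
      have h1 : k / (d : ℤ) = k' / (d : ℤ) := by
        have e1 := Int.toNat_of_nonneg (Int.ediv_nonneg hk0 hdz.le)
        have e2 := Int.toNat_of_nonneg (Int.ediv_nonneg hk0' hdz.le)
        have h' : (k / (d : ℤ)).toNat = (k' / (d : ℤ)).toNat := h
        rw [← e1, ← e2, h']
      have h2 : (d : ℤ) ∣ (k - k') * b := by
        have h3 : (k * b) % (d : ℤ) = (k' * b) % (d : ℤ) := by rw [hkv, hkv']
        have h3' : k' * b ≡ k * b [ZMOD (d : ℤ)] := h3.symm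
        have h4 : (d : ℤ) ∣ k * b - k' * b := h3'.dvd
        rw [sub_mul]; exact h4
      have h3 : (d : ℤ) ∣ (k - k') := hc.symm.dvd_of_dvd_mul_right h2
      have h4 : k % (d : ℤ) = k' % (d : ℤ) := (Int.modEq_of_dvd h3).symm
      have h5 := Int.emod_add_mul_ediv k d
      have h6 := Int.emod_add_mul_ediv k' d
      rw [← h5, ← h6, h4, h1]
    have := Finset.card_le_card_of_injOn _ hmaps hinj
    rwa [Finset.card_range] at this
  have hcardK : K.card ≤ (4 ^ N / d + 1) * W.card :=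
    (Finset.card_le_mul_card_image K _ hfib).trans (Nat.mul_le_mul_left _ hcardimg)
  -- card W
  have hcardW : (W.card : ℝ) * lam ^ (60 * s) ≤ C * θ ^ s := by
    set S := W.image (fun v : ℕ => (v : ℝ) / d) with hS
    have hSc : S.card = W.card := by
      apply Finset.card_image_of_injective
      intro v v' h
      have h' : (v : ℝ) / d = (v' : ℝ) / d := h
      rw [div_left_inj' hdr.ne'] at h'
      exact_mod_cast h'
    rw [← hSc]
    apply count_W9 C θ lam hlam s s S (fun x => |GG (1 / 3) s x|)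
    · apply hA s S
      · intro x hx
        simp only [hS, mem_image, hW, mem_filter, mem_range] at hx
        obtain ⟨v, ⟨hv1, _⟩, rfl⟩ := hx
        refine ⟨by positivity, ?_⟩
        rw [div_lt_one hdr]
        exact_mod_cast hv1
      · intro x hx y hy hxy
        simp only [hS, mem_image, hW, mem_filter, mem_range] at hx hy
        obtain ⟨v, ⟨hv1, _⟩, rfl⟩ := hx
        obtain ⟨v', ⟨hv1', _⟩, rfl⟩ := hy
        rw [← sub_div, abs_div, abs_of_pos hdr]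
        have h1 : (1 : ℝ) ≤ |(v : ℝ) - v'| := by
          have h2 : (v : ℤ) - v' ≠ 0 := by
            intro h0
            apply hxy
            have : (v : ℤ) = v' := by linarith
            have : (v : ℝ) = v' := by exact_mod_cast this
            rw [this]
          have h3 : (1 : ℤ) ≤ |(v : ℤ) - v'| := Int.one_le_abs h2
          exact_mod_cast h3
        apply div_le_div₀ (abs_nonneg _) h1 hdr
        exact_mod_cast hd2
    · intro x hx
      simp only [hS, mem_image, hW, mem_filter, mem_range] at hx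
      obtain ⟨v, ⟨_, hv2⟩, rfl⟩ := hx
      exact hv2
  have hfac : ((4 ^ N / d + 1 : ℕ) : ℝ) ≤ 8 * 4 ^ N / 4 ^ s := by
    obtain ⟨s', rfl⟩ := Nat.exists_eq_add_of_le' hs
    have h1 : ((4 ^ N / d : ℕ) : ℝ) ≤ 4 ^ N / d := by
      have := @Nat.cast_div_le ℝ _ _ _ (4 ^ N) d
      push_cast at this ⊢
      exact this
    have h2 : (1 : ℝ) ≤ 4 ^ N / d := by
      rw [le_div_iff₀ hdr, one_mul]
      exact_mod_cast hdN
    have h3 : (4 : ℝ) ^ N / d ≤ 4 ^ N / 4 ^ s' := by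
      apply div_le_div_of_nonneg_left (by positivity) (by positivity)
      have : 4 ^ s' < d := by simpa using hd1
      exact_mod_cast this.le
    have h4 : 8 * (4 : ℝ) ^ N / 4 ^ (s' + 1) = 2 * (4 ^ N / 4 ^ s') := by
      rw [pow_succ]; field_simp; norm_num
    rw [h4]
    push_cast
    linarith
  calc (K.card : ℝ) * lam ^ (60 * s) ≤ (((4 ^ N / d + 1) * W.card : ℕ) : ℝ) * lam ^ (60 * s) := by
        apply mul_le_mul_of_nonneg_right _ (by positivity)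
        exact_mod_cast hcardK
    _ = ((4 ^ N / d + 1 : ℕ) : ℝ) * ((W.card : ℝ) * lam ^ (60 * s)) := by
        push_cast; ring
    _ ≤ (8 * 4 ^ N / 4 ^ s) * (C * θ ^ s) := by
        apply mul_le_mul hfac hcardW (by positivity) (by positivity)

/-- Row W9.  Density of the exceptional set at one scale.
Recipe: `t = 30`: `3 (7/8)^30 ≤ 0.0547`, `1.0547^3 ≤ 1.174`; `lam₁` with `lam₁^(-120) * 1.174 ≤ 2`.  The set `S` of the
fractions `b/d ∈ [0,1)` (`(b,d) = 1`, `4^(s-1) < d ≤ 4^s`) with `∏_{i<2s} gf (1/4) (4^i b/d) ≥ lam^(2s)` is `4^{-2s}`-separated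
(`|b/d - b'/d'| ≥ 1/(d d')`), so by A4 (`n = 2s`) `card S ≤ C lam^{-60 s} 1.0547^{2s}`.  For each `b/d` the number of
`k ∈ Odds N` with `∏_{i<s} |gf (1/3) (4^i k b/d)| ≥ lam^(2s)` is at most `(4^N/d + 1)` times the number of residues `v` mod `d` with
`|GG (1/3) s (v/d)| ≥ lam^(2s)`, which is `≤ C lam^{-60 s} 1.0547^s` by A4 (`n = s`); `4^N/d + 1 ≤ 2*4^N/d ≤ 8 * 4^N/4^s`.
(A general `b` can be reduced modulo `d`; B13.) -/
theorem W9 : ∃ C lam₁ : ℝ, 0 < C ∧ 1 / 2 < lam₁ ∧ lam₁ < 1 ∧ ∀ lam : ℝ, lam₁ ≤ lam → lam < 1 →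
    ∀ (s N : ℕ), 1 ≤ s →
    bad N (fun k => ¬ ∃ (d : ℕ) (b : ℤ), 3 ≤ d ∧ d ≤ 4 ^ N ∧ Odd d ∧ IsCoprime b (d : ℤ) ∧
      4 ^ (s - 1) < d ∧ d ≤ 4 ^ s ∧ lam ^ (2 * s) ≤ ∏ i ∈ range (2 * s),
        gf (1 / 4) (4 ^ i * ((b : ℝ) / d)) * |gf (1 / 3) (4 ^ i * ((k : ℝ) * b / d))|) ≤ C / 2 ^ s := by
  classical
  obtain ⟨C, hC, hA⟩ := A4 30 (by norm_num)
  set θ : ℝ := 1 + 3 * (7 / 8 : ℝ) ^ 30 with hθ
  have hθpos : 0 < θ := by rw [hθ]; positivity
  refine ⟨8 * C ^ 2, 249 / 250, by positivity, by norm_num, by norm_num, ?_⟩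
  intro lam hlam1 hlam2 s N hs
  have hlam : 0 < lam := lt_of_lt_of_le (by norm_num) hlam1
  set P : Finset (ℕ × ℕ) := ((Finset.Icc 3 (4 ^ s)) ×ˢ (range (4 ^ s))).filter (fun p =>
    p.1 ≤ 4 ^ N ∧ p.2 < p.1 ∧ IsCoprime (p.2 : ℤ) (p.1 : ℤ) ∧ 4 ^ (s - 1) < p.1 ∧
      lam ^ (2 * s) ≤ GG (1 / 4) (2 * s) ((p.2 : ℝ) / p.1)) with hP
  set K : ℕ × ℕ → Finset ℤ := fun p =>
    (Odds N).filter (fun k : ℤ => lam ^ (2 * s) ≤ |GG (1 / 3) s ((k : ℝ) * p.2 / p.1)|) with hK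
  -- the bad set
  have hsub : ∀ k ∈ Odds N, (∃ (d : ℕ) (b : ℤ), 3 ≤ d ∧ d ≤ 4 ^ N ∧ Odd d ∧
      IsCoprime b (d : ℤ) ∧ 4 ^ (s - 1) < d ∧ d ≤ 4 ^ s ∧ lam ^ (2 * s) ≤ ∏ i ∈ range (2 * s),
        gf (1 / 4) (4 ^ i * ((b : ℝ) / d)) * |gf (1 / 3) (4 ^ i * ((k : ℝ) * b / d))|) →
      k ∈ P.biUnion K := by
    intro k hkO hk
    obtain ⟨d, b, hd3, hdN, _, hcop, hd1, hd2, hprod⟩ := hk
    have hdz : (0 : ℤ) < d := by
      have : 0 < d := by omega
      exact_mod_cast this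
    have hdr : (0 : ℝ) < d := by exact_mod_cast hdz
    have h0 : 0 ≤ b % (d : ℤ) := Int.emod_nonneg _ hdz.ne'
    have h1 : b % (d : ℤ) < d := Int.emod_lt_of_pos _ hdz
    set b' := (b % (d : ℤ)).toNat with hb'
    have hb'z : (b' : ℤ) = b % (d : ℤ) := Int.toNat_of_nonneg h0
    have hbeq : (b : ℤ) = b' + d * (b / d) := by
      rw [hb'z]; exact (Int.emod_add_mul_ediv b d).symm
    have hbr : (b : ℝ) / d = (b' : ℝ) / d + ((b / (d : ℤ) : ℤ) : ℝ) := by
      have : (b : ℝ) = b' + d * ((b / (d : ℤ) : ℤ) : ℝ) := by exact_mod_cast hbeq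
      rw [this]
      field_simp
    have hb'lt : b' < d := by
      zify
      rw [hb'z]
      exact h1
    have hcop' : IsCoprime (b' : ℤ) (d : ℤ) := by
      have e : (b' : ℤ) = b + d * (-(b / d)) := by linarith [hbeq]
      rw [e]
      exact (IsCoprime.add_mul_left_left hcop _)
    -- the products
    have hx : ∀ i, gf (1 / 4) (4 ^ i * ((b : ℝ) / d)) = gf (1 / 4) (4 ^ i * ((b' : ℝ) / d)) := by
      intro i
      rw [hbr, mul_add]
      have : (4 : ℝ) ^ i * ((b / (d : ℤ) : ℤ) : ℝ) = ((4 ^ i * (b / (d : ℤ)) : ℤ) : ℝ) := by push_cast; ring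
      rw [this, B13.1]
    have hy : ∀ i, gf (1 / 3) (4 ^ i * ((k : ℝ) * b / d)) = gf (1 / 3) (4 ^ i * ((k : ℝ) * b' / d)) := by
      intro i
      have e : (4 : ℝ) ^ i * ((k : ℝ) * b / d) = 4 ^ i * ((k : ℝ) * b' / d) +
          ((4 ^ i * (k * (b / (d : ℤ))) : ℤ) : ℝ) := by
        rw [mul_div_assoc, hbr]
        push_cast
        ring
      rw [e, B13.1]
    have hxprod : lam ^ (2 * s) ≤ GG (1 / 4) (2 * s) ((b' : ℝ) / d) := by
      refine hprod.trans ?_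
      unfold GG
      apply Finset.prod_le_prod
      · intro i _
        exact mul_nonneg (gf14_mem_W9 _).1 (gf13_mem_W9 _).1
      · intro i _
        rw [hx i]
        calc gf (1 / 4) (4 ^ i * ((b' : ℝ) / d)) * |gf (1 / 3) (4 ^ i * ((k : ℝ) * b / d))|
            ≤ gf (1 / 4) (4 ^ i * ((b' : ℝ) / d)) * 1 :=
              mul_le_mul_of_nonneg_left (gf13_mem_W9 _).2 (gf14_mem_W9 _).1
          _ = _ := mul_one _
    have hyprod : lam ^ (2 * s) ≤ |GG (1 / 3) s ((k : ℝ) * b' / d)| := by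
      refine hprod.trans ?_
      unfold GG
      rw [Finset.abs_prod]
      have h2s : 2 * s = s + s := by ring
      rw [h2s, Finset.prod_range_add]
      have hle1 : ∏ i ∈ range s, gf (1 / 4) (4 ^ i * ((b : ℝ) / d)) *
          |gf (1 / 3) (4 ^ i * ((k : ℝ) * b / d))| ≤ ∏ i ∈ range s, |gf (1 / 3) (4 ^ i * ((k : ℝ) * b' / d))| := by
        apply Finset.prod_le_prod
        · intro i _
          exact mul_nonneg (gf14_mem_W9 _).1 (gf13_mem_W9 _).1
        · intro i _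
          rw [hy i]
          calc gf (1 / 4) (4 ^ i * ((b : ℝ) / d)) * |gf (1 / 3) (4 ^ i * ((k : ℝ) * b' / d))|
              ≤ 1 * |gf (1 / 3) (4 ^ i * ((k : ℝ) * b' / d))| :=
                mul_le_mul_of_nonneg_right (gf14_mem_W9 _).2 (gf13_mem_W9 _).1
            _ = _ := one_mul _
      have hle2 : ∏ i ∈ range s, gf (1 / 4) (4 ^ (s + i) * ((b : ℝ) / d)) *
          |gf (1 / 3) (4 ^ (s + i) * ((k : ℝ) * b / d))| ≤ 1 := by
        apply Finset.prod_le_one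
        · intro i _
          exact mul_nonneg (gf14_mem_W9 _).1 (gf13_mem_W9 _).1
        · intro i _
          exact mul_le_one₀ (gf14_mem_W9 _).2 (gf13_mem_W9 _).1 (gf13_mem_W9 _).2
      have hnn : 0 ≤ ∏ i ∈ range s, gf (1 / 4) (4 ^ (s + i) * ((b : ℝ) / d)) *
          |gf (1 / 3) (4 ^ (s + i) * ((k : ℝ) * b / d))| := by
        apply Finset.prod_nonneg
        intro i _
        exact mul_nonneg (gf14_mem_W9 _).1 (gf13_mem_W9 _).1
      have hnn2 : 0 ≤ ∏ i ∈ range s, |gf (1 / 3) (4 ^ i * ((k : ℝ) * b' / d))| := by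
        apply Finset.prod_nonneg
        intro i _
        exact abs_nonneg _
      calc _ ≤ (∏ i ∈ range s, |gf (1 / 3) (4 ^ i * ((k : ℝ) * b' / d))|) * 1 :=
            mul_le_mul hle1 hle2 hnn hnn2
        _ = _ := mul_one _
    simp only [mem_biUnion]
    refine ⟨(d, b'), ?_, ?_⟩
    · simp only [hP, mem_filter, mem_product, mem_Icc, mem_range]
      exact ⟨⟨⟨hd3, hd2⟩, lt_of_lt_of_le hb'lt hd2⟩, hdN, hb'lt, hcop', hd1, hxprod⟩
    · simp only [hK, mem_filter]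
      exact ⟨hkO, hyprod⟩
  -- card P
  have hcardP : (P.card : ℝ) * lam ^ (60 * s) ≤ C * θ ^ (2 * s) := by
    set S := P.image (fun p : ℕ × ℕ => (p.2 : ℝ) / p.1) with hS
    have hSc : S.card = P.card := by
      apply Finset.card_image_of_injOn
      intro p hp q hq h
      have hp' := Finset.mem_coe.mp hp
      have hq' := Finset.mem_coe.mp hq
      simp only [hP, mem_filter, mem_product, mem_Icc, mem_range] at hp' hq'
      obtain ⟨⟨⟨hp3, _⟩, _⟩, _, _, hpc, _, _⟩ := hp'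
      obtain ⟨⟨⟨hq3, _⟩, _⟩, _, _, hqc, _, _⟩ := hq'
      have := frac_inj_W9 p.2 q.2 p.1 q.1 (by omega) (by omega) hpc hqc h
      exact Prod.ext this.1 this.2
    rw [← hSc]
    apply count_W9 C θ lam hlam (2 * s) s S (fun x => GG (1 / 4) (2 * s) x)
    · refine (hA (2 * s) S ?_ ?_).1
      · intro x hx
        simp only [hS, mem_image, hP, mem_filter, mem_product, mem_Icc, mem_range] at hx
        obtain ⟨p, ⟨⟨⟨hp3, _⟩, _⟩, _, hplt, _, _, _⟩, rfl⟩ := hx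
        have h3 : (0 : ℝ) < p.1 := by
          have : 0 < p.1 := by omega
          exact_mod_cast this
        refine ⟨by positivity, ?_⟩
        rw [div_lt_one h3]
        exact_mod_cast hplt
      · intro x hx y hy hxy
        simp only [hS, mem_image, hP, mem_filter, mem_product, mem_Icc, mem_range] at hx hy
        obtain ⟨p, ⟨⟨⟨hp3, hp4⟩, _⟩, _, hplt, _, _, _⟩, rfl⟩ := hx
        obtain ⟨q, ⟨⟨⟨hq3, hq4⟩, _⟩, _, hqlt, _, _, _⟩, rfl⟩ := hy
        have := frac_sep_W9 (p.2 : ℤ) (q.2 : ℤ) p.1 q.1 (4 ^ (2 * s)) (by omega) (by omega) (by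
          have h5 : (p.1 : ℝ) ≤ 4 ^ s := by exact_mod_cast hp4
          have h6 : (q.1 : ℝ) ≤ 4 ^ s := by exact_mod_cast hq4
          rw [two_mul, pow_add]
          exact mul_le_mul h5 h6 (by positivity) (by positivity)) (by simpa using hxy)
        simpa using this
    · intro x hx
      simp only [hS, mem_image, hP, mem_filter, mem_product, mem_Icc, mem_range] at hx
      obtain ⟨p, ⟨_, _, _, _, _, hp⟩, rfl⟩ := hx
      exact hp
  -- per fraction
  have hcardK : ∀ p ∈ P, ((K p).card : ℝ) * lam ^ (60 * s) ≤ (8 * 4 ^ N / 4 ^ s) * (C * θ ^ s) := by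
    intro p hp
    simp only [hP, mem_filter, mem_product, mem_Icc, mem_range] at hp
    obtain ⟨⟨⟨hp3, hp4⟩, _⟩, hpN, hplt, hpc, hp1, _⟩ := hp
    exact perfrac_W9 C θ lam hC hlam s N p.2 p.1 hs hθpos (fun n S h1 h2 => (hA n S h1 h2).2)
      hpN hpc hp1 hp4
  have hl60 : 0 < lam ^ (60 * s) := by positivity
  have hmain : ((P.biUnion K).card : ℝ) * (lam ^ (60 * s) * lam ^ (60 * s)) ≤
      (C * θ ^ (2 * s)) * ((8 * 4 ^ N / 4 ^ s) * (C * θ ^ s)) := by
    have h1 : ((P.biUnion K).card : ℝ) ≤ ∑ p ∈ P, ((K p).card : ℝ) := by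
      exact_mod_cast Finset.card_biUnion_le
    have h2 : (∑ p ∈ P, ((K p).card : ℝ)) * lam ^ (60 * s) ≤ P.card * ((8 * 4 ^ N / 4 ^ s) * (C * θ ^ s)) := by
      rw [Finset.sum_mul]
      calc ∑ p ∈ P, ((K p).card : ℝ) * lam ^ (60 * s) ≤ ∑ p ∈ P, (8 * 4 ^ N / 4 ^ s) * (C * θ ^ s) :=
            Finset.sum_le_sum hcardK
        _ = _ := by rw [Finset.sum_const, nsmul_eq_mul]
    calc ((P.biUnion K).card : ℝ) * (lam ^ (60 * s) * lam ^ (60 * s))
        ≤ (∑ p ∈ P, ((K p).card : ℝ)) * (lam ^ (60 * s) * lam ^ (60 * s)) :=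
          mul_le_mul_of_nonneg_right h1 (by positivity)
      _ = ((∑ p ∈ P, ((K p).card : ℝ)) * lam ^ (60 * s)) * lam ^ (60 * s) := by ring
      _ ≤ (P.card * ((8 * 4 ^ N / 4 ^ s) * (C * θ ^ s))) * lam ^ (60 * s) :=
          mul_le_mul_of_nonneg_right h2 hl60.le
      _ = (P.card * lam ^ (60 * s)) * ((8 * 4 ^ N / 4 ^ s) * (C * θ ^ s)) := by ring
      _ ≤ _ := mul_le_mul_of_nonneg_right hcardP (by positivity)
  -- numerics
  have hnum : θ ^ 3 ≤ 2 * lam ^ 120 := by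
    have h1 : θ ^ 3 ≤ 2 * (249 / 250 : ℝ) ^ 120 := by
      rw [hθ]; norm_num
    have h2 : (249 / 250 : ℝ) ^ 120 ≤ lam ^ 120 := pow_le_pow_left₀ (by norm_num) hlam1 120
    exact h1.trans (mul_le_mul_of_nonneg_left h2 (by norm_num))
  have hnum2 : θ ^ (2 * s) * θ ^ s ≤ 2 ^ s * (lam ^ (60 * s) * lam ^ (60 * s)) := by
    have e1 : θ ^ (2 * s) * θ ^ s = (θ ^ 3) ^ s := by rw [← pow_add, ← pow_mul]; congr 1; ring
    have e2 : 2 ^ s * (lam ^ (60 * s) * lam ^ (60 * s)) = (2 * lam ^ 120) ^ s := by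
      rw [mul_pow, ← pow_add, ← pow_mul]; congr 2; ring
    rw [e1, e2]
    exact pow_le_pow_left₀ (by positivity) hnum s
  have hB : ((P.biUnion K).card : ℝ) ≤ 8 * C ^ 2 / 2 ^ s * 4 ^ N := by
    have hll : 0 < lam ^ (60 * s) * lam ^ (60 * s) := by positivity
    rw [← mul_le_mul_iff_left₀ hll]
    refine hmain.trans ?_
    have e3 : (C * θ ^ (2 * s)) * ((8 * 4 ^ N / 4 ^ s) * (C * θ ^ s)) =
        (8 * C ^ 2 * 4 ^ N / 4 ^ s) * (θ ^ (2 * s) * θ ^ s) := by ring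
    have e4 : 8 * C ^ 2 / 2 ^ s * 4 ^ N * (lam ^ (60 * s) * lam ^ (60 * s)) =
        (8 * C ^ 2 * 4 ^ N / 4 ^ s) * (2 ^ s * (lam ^ (60 * s) * lam ^ (60 * s))) := by
      have : (4 : ℝ) ^ s = 2 ^ s * 2 ^ s := by rw [← mul_pow]; norm_num
      rw [this]
      field_simp
    rw [e3, e4]
    exact mul_le_mul_of_nonneg_left hnum2 (by positivity)
  unfold bad
  rw [div_le_iff₀ (by positivity)]
  refine le_trans (Nat.cast_le.mpr (Finset.card_le_card (t := P.biUnion K) ?_)) hB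
  intro k hk
  simp only [mem_filter, not_not] at hk
  exact hsub k hk.1 hk.2

end Pool.Agent.C52.RW9
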