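import Pool.Agent.Lib.MP_c52340_c5.Defs
import Pool.Agent.Lib.MP_c52340_c5.U1
import Pool.Agent.Lib.MP_c52340_c5.W8
import Pool.Agent.Lib.MP_c52340_c5.W9


set_option autoImplicit false

open Finset

open Pool.Agent.C52.RU1 (U1)
open Pool.Agent.C52.RW8 (W8)
open Pool.Agent.C52.RW9 (W9)

namespace Pool.Agent.C52.RW10

private theorem w10_zero (N : ℕ) (P : ℤ → Prop) (h : ∀ k ∈ Odds N, P k) : bad N P = 0 := by
  classical
  unfold bad
  have h1 : ((Odds N).filter (fun k => ¬ P k)) = ∅ := by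
    refine Finset.filter_eq_empty_iff.2 fun k hk h2 => h2 (h k hk)
  simp only [h1, Finset.card_empty, Nat.cast_zero, zero_div]

private theorem w10_union (N : ℕ) (P : ℕ → ℤ → Prop) (n : ℕ) :
    bad N (fun k => ∀ j < n, P j k) ≤ ∑ j ∈ range n, bad N (P j) := by
  induction n with
  | zero =>
    rw [Finset.sum_range_zero]
    exact (w10_zero N _ fun k _ j hj => absurd hj (Nat.not_lt_zero j)).le
  | succ n ih =>
    rw [Finset.sum_range_succ]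
    refine (U1.1 N (fun k => (∀ j < n, P j k) ∧ P n k) _ ?_).trans
      ((U1.2.1 N _ _).trans (add_le_add ih le_rfl))
    rintro k - ⟨h1, h2⟩ j hj
    rcases Nat.lt_succ_iff_lt_or_eq.1 hj with h3 | rfl
    · exact h1 j h3
    · exact h2

private theorem w10_geom (C : ℝ) (hC : 0 < C) (s₀ n : ℕ) :
    ∑ j ∈ range n, C / 2 ^ (s₀ + 1 + j) ≤ C / 2 ^ s₀ - C / 2 ^ (s₀ + n) := by
  induction n with
  | zero => simp
  | succ n ih =>
    rw [Finset.sum_range_succ]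
    have h1 : C / 2 ^ (s₀ + 1 + n) = C / 2 ^ (s₀ + n) - C / 2 ^ (s₀ + (n + 1)) := by
      have h2 : (2 : ℝ) ^ (s₀ + 1 + n) = 2 ^ (s₀ + n) * 2 := by
        rw [← pow_succ]
        congr 1
        ring
      have h3 : (2 : ℝ) ^ (s₀ + (n + 1)) = 2 ^ (s₀ + n) * 2 := by
        rw [← pow_succ]
        congr 1
      rw [h2, h3]
      field_simp
      ring
    rw [h1]
    linarith

/-- Row W10.  Density of the exceptional set.
Recipe: choose `s₀` with `∑_{s > s₀} C/2^s = C/2^{s₀} ≤ ε`, then `lam` above `lam₀(s₀)` of W8 and `lam₁` of W9; union bound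
over `s₀ < s ≤ g + 1` (U1; `4^(s-1) < d ≤ 2*4^g`). -/
theorem W10 (ε : ℝ) (hε : 0 < ε) : ∃ lam : ℝ, 1 / 2 < lam ∧ lam < 1 ∧ ∀ N g : ℕ, g + 1 ≤ N →
    bad N (fun k => ¬ Exc lam (2 * 4 ^ g) k) ≤ ε := by
  obtain ⟨C, lam₁, hC, h1, h2, h9⟩ := W9
  obtain ⟨s₀, hs₀⟩ : ∃ s₀ : ℕ, C / 2 ^ s₀ ≤ ε := by
    obtain ⟨s₀, hs₀⟩ := pow_unbounded_of_one_lt (C / ε) (one_lt_two)
    refine ⟨s₀, ?_⟩
    rw [div_le_iff₀ (by positivity)]
    rw [div_lt_iff₀ hε] at hs₀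
    linarith
  obtain ⟨lam₀, h3, h4, h8⟩ := W8 s₀
  refine ⟨max lam₀ lam₁, lt_of_lt_of_le h3 (le_max_left _ _), max_lt h4 h2, fun N g hN => ?_⟩
  have hl0 : 0 ≤ lam₀ := by linarith
  set lam : ℝ := max lam₀ lam₁ with hlam
  have hstep : ∀ k ∈ Odds N, (∀ j < g + 1, ¬ ∃ (d : ℕ) (b : ℤ), 3 ≤ d ∧ d ≤ 4 ^ N ∧ Odd d ∧
      IsCoprime b (d : ℤ) ∧ 4 ^ (s₀ + 1 + j - 1) < d ∧ d ≤ 4 ^ (s₀ + 1 + j) ∧
      lam ^ (2 * (s₀ + 1 + j)) ≤ ∏ i ∈ range (2 * (s₀ + 1 + j)),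
        gf (1 / 4) (4 ^ i * ((b : ℝ) / d)) * |gf (1 / 3) (4 ^ i * ((k : ℝ) * b / d))|) →
      ¬ Exc lam (2 * 4 ^ g) k := by
    rintro k - hk ⟨d, b, s, hd3, hodd, hdE, hbd, hs1, hs2, hprod⟩
    have hs0 : 1 ≤ s := by
      rcases Nat.eq_zero_or_pos s with rfl | h5
      · rw [pow_zero] at hs2
        omega
      · exact h5
    by_cases hss : s ≤ s₀
    · have h5 := h8 k b d s hd3 hbd hs0 hss hs2
      have h6 : lam₀ ^ (2 * s) ≤ lam ^ (2 * s) := pow_le_pow_left₀ hl0 (le_max_left _ _) _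
      linarith
    · have hdE' : d ≤ 2 * 4 ^ g := by exact_mod_cast hdE
      have h7 : 4 ^ (s - 1) < 4 ^ (g + 1) := by
        have : 4 ^ (g + 1) = 4 * 4 ^ g := by rw [pow_succ]; ring
        have h8 : 0 < 4 ^ g := by positivity
        omega
      have h8 : s - 1 < g + 1 := (Nat.pow_lt_pow_iff_right (by norm_num)).1 h7
      have h10 : s = s₀ + 1 + (s - s₀ - 1) := by omega
      refine hk (s - s₀ - 1) (by omega) ⟨d, b, hd3, ?_, hodd, hbd, ?_, ?_, ?_⟩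
      · calc d ≤ 2 * 4 ^ g := hdE'
          _ ≤ 4 ^ (g + 1) := by rw [pow_succ]; omega
          _ ≤ 4 ^ N := Nat.pow_le_pow_right (by norm_num) hN
      · rw [← h10]; exact hs1
      · rw [← h10]; exact hs2
      · rw [← h10]; exact hprod
  refine (U1.1 N _ _ hstep).trans ?_
  refine (w10_union N _ (g + 1)).trans ?_
  refine (Finset.sum_le_sum fun j _ => h9 lam (le_max_right _ _) (max_lt h4 h2) (s₀ + 1 + j) N
    (by omega)).trans ?_
  refine (w10_geom C hC s₀ (g + 1)).trans ?_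
  have : 0 < C / 2 ^ (s₀ + (g + 1)) := by positivity
  linarith

end Pool.Agent.C52.RW10
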