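import Pool.Agent.Lib.MP_c52340_c5.Defs


set_option autoImplicit false

open Finset


namespace Pool.Agent.C52.RW5

/-- Row W5.  The structure of a resonance.
Recipe: `d₀ ≤ 4^g`, `A = round (2 d₀ β)`: `|β - A/(2 d₀)| ≤ e/(2 d₀)`, `e = 4^(4g)/4^(2N)`; reduce
`A/(2 d₀) = a/(2^u d)` with `d` odd (`2^u d ∣ 2 d₀`).  If `d = 1`: multiply by `M = 4^N` (`2^u ∣ 2^(2g+1) ∣ M`):
`c₂/M` is within `4^(4g)/(2*4^N)` of an integer, which must be `0` since `|c₂/M| ≤ 1/2`; so `|c₂| ≤ 4^(4g)`.  If moreover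
`n = 0`: `|c₁/M - a/2^u| ≤ 2 * 4^(4g)/4^(2N) < 1/M` forces `2^u c₁ = a M`, and `2^u ∣ 4^(g+1)`. -/
theorem W5 (N g : ℕ) (hg : 4 * g + 2 ≤ N) (c₁ c₂ n : ℤ) (hc : c₂ ∈ Fr N)
    (h : Res N g (bet N c₁ c₂ n)) :
    ∃ (a : ℤ) (u d : ℕ), Odd d ∧ 2 ^ u * d ≤ 2 * 4 ^ g ∧ IsCoprime a (d : ℤ) ∧
      |bet N c₁ c₂ n - a / (2 ^ u * d)| ≤ 4 ^ (4 * g) / 4 ^ (2 * N) ∧
      (d = 1 → |c₂| ≤ 4 ^ (4 * g) ∧ (n = 0 → (4 : ℤ) ^ N ∣ 4 ^ (g + 1) * c₁)) := by
  obtain ⟨d₀, hd1, hd2, hd3⟩ := h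
  set β := bet N c₁ c₂ n with hβ
  set A := round (2 * d₀ * β) with hA
  have hM : (0 : ℝ) < 4 ^ N := by positivity
  have hDpos : 0 < 2 * d₀ := by omega
  -- reduced fraction
  obtain ⟨G, a, D', hG, hAa, hDD, hcop⟩ : ∃ (G : ℕ) (a : ℤ) (D' : ℕ), 0 < G ∧ A = G * a ∧
      2 * d₀ = G * D' ∧ IsCoprime a (D' : ℤ) := by
    have hgcd : 0 < Int.gcd A ((2 * d₀ : ℕ) : ℤ) := by
      apply Int.gcd_pos_of_ne_zero_right
      exact_mod_cast hDpos.ne'
    obtain ⟨g', a, b, hg', hab, hA', hb'⟩ := Int.exists_gcd_one' hgcd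
    have hbpos : 0 < b := by
      by_contra hb
      push Not at hb
      have : b * (g' : ℤ) ≤ 0 := mul_nonpos_of_nonpos_of_nonneg hb (by positivity)
      rw [← hb'] at this
      have h2 : (0 : ℤ) < ((2 * d₀ : ℕ) : ℤ) := by exact_mod_cast hDpos
      linarith
    refine ⟨g', a, b.toNat, hg', by rw [hA', mul_comm], ?_, ?_⟩
    · zify
      rw [Int.toNat_of_nonneg hbpos.le]
      push_cast at hb'
      rw [hb', mul_comm]
    · rw [Int.toNat_of_nonneg hbpos.le]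
      exact Int.isCoprime_iff_gcd_eq_one.mpr hab
  have hD'pos : 0 < D' := by
    rcases Nat.eq_zero_or_pos D' with h0 | h0
    · rw [h0, mul_zero] at hDD; omega
    · exact h0
  obtain ⟨u, d, hdodd, hud⟩ := Nat.exists_eq_two_pow_mul_odd hD'pos.ne'
  have hD'le : D' ≤ 2 * d₀ := by
    rw [hDD]; exact Nat.le_mul_of_pos_left _ hG
  have hle : 2 ^ u * d ≤ 2 * 4 ^ g := by
    rw [← hud]; omega
  have hcd : IsCoprime a (d : ℤ) := by
    rw [hud] at hcop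
    push_cast at hcop
    exact hcop.of_mul_right_right
  have hGr : (0 : ℝ) < G := by exact_mod_cast hG
  have hD'r : (0 : ℝ) < D' := by exact_mod_cast hD'pos
  have hDr : (2 * d₀ : ℝ) = G * D' := by exact_mod_cast hDD
  have hAr : (A : ℝ) = G * a := by exact_mod_cast hAa
  have hd₀r : (1 : ℝ) ≤ d₀ := by exact_mod_cast hd1
  have hfrac : β - a / D' = (2 * d₀ * β - A) / (2 * d₀) := by
    rw [hAr, hDr]
    field_simp
  have hbound : |β - a / D'| ≤ (4 ^ (4 * g) / 4 ^ (2 * N)) / 2 := by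
    rw [hfrac, abs_div, abs_of_pos (by linarith : (0 : ℝ) < 2 * d₀)]
    rw [div_le_div_iff₀ (by linarith) (by norm_num)]
    have h0 : (0 : ℝ) ≤ 4 ^ (4 * g) / 4 ^ (2 * N) := by positivity
    nlinarith [abs_nonneg (2 * d₀ * β - (A : ℝ))]
  have hud' : (D' : ℝ) = 2 ^ u * d := by exact_mod_cast hud
  refine ⟨a, u, d, hdodd, hle, hcd, ?_, ?_⟩
  · rw [← hud']
    have h0 : (0 : ℝ) ≤ 4 ^ (4 * g) / 4 ^ (2 * N) := by positivity
    linarith
  · intro hd_one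
    subst hd_one
    have hu : u ≤ 2 * g + 1 := by
      have h1 : 2 ^ u ≤ 2 ^ (2 * g + 1) := by
        calc 2 ^ u = 2 ^ u * 1 := (mul_one _).symm
          _ ≤ 2 * 4 ^ g := hle
          _ = 2 ^ (2 * g + 1) := by rw [pow_succ, pow_mul]; norm_num; ring
      exact (Nat.pow_le_pow_iff_right (by norm_num)).mp h1
    have h4N : (4 : ℤ) ^ N = 2 ^ u * 2 ^ (2 * N - u) := by
      rw [← pow_add, show u + (2 * N - u) = 2 * N by omega, pow_mul]; norm_num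
    have h4g : (4 : ℤ) ^ (g + 1) = 2 ^ u * 2 ^ (2 * (g + 1) - u) := by
      rw [← pow_add, show u + (2 * (g + 1) - u) = 2 * (g + 1) by omega, pow_mul]; norm_num
    have h4Nr : (4 : ℝ) ^ N = 2 ^ u * 2 ^ (2 * N - u) := by exact_mod_cast h4N
    rw [hud'] at hbound
    -- the integer z
    set z : ℤ := 2 ^ (2 * N - u) * a - c₁ - n with hz
    have hzeq : (c₂ : ℝ) / 4 ^ N - z = 4 ^ N * (β - a / (2 ^ u * (1 : ℕ))) := by
      rw [hβ, hz]
      unfold bet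
      push_cast
      have : (4 : ℝ) ^ N * ((c₁ : ℝ) / 4 ^ N + ((c₂ : ℝ) / 4 ^ N + n) / 4 ^ N - a / (2 ^ u * 1)) =
          c₁ + ((c₂ : ℝ) / 4 ^ N + n) - 4 ^ N * (a / 2 ^ u) := by
        field_simp
      rw [this, h4Nr]
      field_simp
      ring
    have h64 : (4 : ℝ) ^ (4 * g + 2) ≤ 4 ^ N := pow_le_pow_right₀ (by norm_num) hg
    have h64' : (4 : ℝ) ^ (4 * g + 2) = 16 * 4 ^ (4 * g) := by rw [pow_add]; norm_num; ring
    have hpos4 : (0 : ℝ) < 4 ^ (4 * g) := by positivity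
    have hb2 : |(c₂ : ℝ) / 4 ^ N - z| ≤ 4 ^ (4 * g) / (2 * 4 ^ N) := by
      rw [hzeq, abs_mul, abs_of_pos hM]
      calc (4 : ℝ) ^ N * |β - a / (2 ^ u * (1 : ℕ))| ≤ 4 ^ N * ((4 ^ (4 * g) / 4 ^ (2 * N)) / 2) :=
            mul_le_mul_of_nonneg_left hbound hM.le
        _ = 4 ^ (4 * g) / (2 * 4 ^ N) := by
            have : (4 : ℝ) ^ (2 * N) = 4 ^ N * 4 ^ N := by rw [two_mul, pow_add]
            rw [this]
            field_simp
    have hsmall : (4 : ℝ) ^ (4 * g) / (2 * 4 ^ N) < 1 / 2 := by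
      rw [div_lt_div_iff₀ (by positivity) (by norm_num)]
      linarith
    have hc2 : |(c₂ : ℝ) / 4 ^ N| ≤ 1 / 2 := by
      simp only [Fr, mem_Ioc] at hc
      have hN1 : 1 ≤ N := by omega
      obtain ⟨N', rfl⟩ := Nat.exists_eq_add_of_le' hN1
      have hM2 : (4 : ℤ) ^ (N' + 1) / 2 = 2 * 4 ^ N' := by
        have : (4 : ℤ) ^ (N' + 1) = 2 * (2 * 4 ^ N') := by ring
        omega
      rw [hM2] at hc
      have h5 : |c₂| ≤ 2 * 4 ^ N' := abs_le.mpr ⟨by linarith [hc.1], hc.2⟩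
      have h6 : |(c₂ : ℝ)| ≤ 2 * 4 ^ N' := by exact_mod_cast h5
      rw [abs_div, abs_of_pos hM, div_le_div_iff₀ hM (by norm_num)]
      have : (4 : ℝ) ^ (N' + 1) = 4 * 4 ^ N' := by ring
      linarith
    have hz0 : z = 0 := by
      have h7 : |(z : ℝ)| < 1 := by
        have : (z : ℝ) = (c₂ : ℝ) / 4 ^ N - ((c₂ : ℝ) / 4 ^ N - z) := by ring
        rw [this]
        calc |(c₂ : ℝ) / 4 ^ N - ((c₂ : ℝ) / 4 ^ N - z)| ≤ |(c₂ : ℝ) / 4 ^ N| + |(c₂ : ℝ) / 4 ^ N - z| :=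
              abs_sub _ _
          _ < 1 := by linarith
      have h8 : |z| < 1 := by exact_mod_cast h7
      exact Int.abs_lt_one_iff.mp h8
    constructor
    · rw [hz0] at hb2
      simp only [Int.cast_zero, sub_zero] at hb2
      rw [abs_div, abs_of_pos hM, div_le_div_iff₀ hM (by positivity)] at hb2
      have h9 : |(c₂ : ℝ)| ≤ 4 ^ (4 * g) := by
        have h10 : |(c₂ : ℝ)| * (2 * 4 ^ N) ≤ 4 ^ (4 * g) * 4 ^ N := hb2
        have h11 : |(c₂ : ℝ)| * 2 ≤ 4 ^ (4 * g) := by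
          by_contra hcon
          push Not at hcon
          have := mul_lt_mul_of_pos_right hcon hM
          linarith
        linarith [abs_nonneg (c₂ : ℝ)]
      exact_mod_cast h9
    · intro hn0
      have h12 : c₁ = 2 ^ (2 * N - u) * a := by
        rw [hz, hn0] at hz0; linarith
      refine ⟨2 ^ (2 * (g + 1) - u) * a, ?_⟩
      rw [h12, h4g, h4N]
      ring

end Pool.Agent.C52.RW5
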