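import Pool.Agent.Lib.MP_c52340_c5.Defs


set_option autoImplicit false

open Finset


namespace Pool.Agent.C52.RW6

private lemma prod_windows (f : ℕ → ℝ) (A L : ℕ) : ∀ W : ℕ,
    ∏ i ∈ Ico A (A + W * L), f i = ∏ j ∈ range W, ∏ i ∈ range L, f (A + j * L + i) := by
  intro W
  induction W with
  | zero => simp
  | succ W ih =>
    rw [Finset.prod_range_succ, ← ih, ← Finset.prod_Ico_consecutive f (n := A + W * L)
      (by omega) (by rw [Nat.succ_mul]; omega)]
    congr 1
    rw [Finset.prod_Ico_eq_prod_range]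
    have : A + (W + 1) * L - (A + W * L) = L := by
      rw [Nat.succ_mul]
      omega
    rw [this]

/-- Row W6.  Pigeonhole for windows, and telescoping for products.
Recipe: first part: if all windows have product `≤ t` then, all factors being in `[0,1]`, the product over
`Ico A B` is `≤ t ^ W`.  Second part: induction. -/
theorem W6 :
    (∀ (f : ℕ → ℝ) (A B L W : ℕ) (t : ℝ), (∀ i, 0 ≤ f i ∧ f i ≤ 1) → 0 ≤ t → A + W * L ≤ B →
      t ^ W < ∏ i ∈ Ico A B, f i → ∃ j < W, t < ∏ i ∈ range L, f (A + j * L + i)) ∧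
    (∀ (n : ℕ) (x y : ℕ → ℝ), (∀ i, |x i| ≤ 1) → (∀ i, |y i| ≤ 1) →
      |∏ i ∈ range n, x i - ∏ i ∈ range n, y i| ≤ ∑ i ∈ range n, |x i - y i|) := by
  constructor
  · intro f A B L W t hf ht hAB hlt
    by_contra hcon
    push Not at hcon
    apply absurd hlt
    push Not
    rw [← Finset.prod_Ico_consecutive f (m := A) (n := A + W * L) (k := B) (by omega) hAB]
    have h1 : ∏ i ∈ Ico (A + W * L) B, f i ≤ 1 :=
      Finset.prod_le_one (fun i _ => (hf i).1) (fun i _ => (hf i).2)
    have h2 : 0 ≤ ∏ i ∈ Ico A (A + W * L), f i := Finset.prod_nonneg fun i _ => (hf i).1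
    have h3 : ∏ i ∈ Ico A (A + W * L), f i ≤ t ^ W := by
      rw [prod_windows]
      calc ∏ j ∈ range W, ∏ i ∈ range L, f (A + j * L + i) ≤ ∏ _j ∈ range W, t :=
            Finset.prod_le_prod (fun j _ => Finset.prod_nonneg fun i _ => (hf _).1)
              (fun j hj => hcon j (Finset.mem_range.1 hj))
        _ = t ^ W := by rw [Finset.prod_const, Finset.card_range]
    calc (∏ i ∈ Ico A (A + W * L), f i) * ∏ i ∈ Ico (A + W * L) B, f i
        ≤ (∏ i ∈ Ico A (A + W * L), f i) * 1 := mul_le_mul_of_nonneg_left h1 h2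
      _ ≤ t ^ W := by rw [mul_one]; exact h3
  · intro n x y hx hy
    induction n with
    | zero => simp
    | succ n ih =>
      rw [Finset.prod_range_succ, Finset.prod_range_succ, Finset.sum_range_succ]
      have e : (∏ i ∈ range n, x i) * x n - (∏ i ∈ range n, y i) * y n =
          (∏ i ∈ range n, x i - ∏ i ∈ range n, y i) * x n + (∏ i ∈ range n, y i) * (x n - y n) := by
        ring
      rw [e]
      refine (abs_add_le _ _).trans ?_
      rw [abs_mul, abs_mul]
      have h1 : |∏ i ∈ range n, y i| ≤ 1 := by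
        rw [Finset.abs_prod]
        exact Finset.prod_le_one (fun i _ => abs_nonneg _) (fun i _ => hy i)
      have h2 : |∏ i ∈ range n, x i - ∏ i ∈ range n, y i| * |x n| ≤ ∑ i ∈ range n, |x i - y i| := by
        calc |∏ i ∈ range n, x i - ∏ i ∈ range n, y i| * |x n|
            ≤ |∏ i ∈ range n, x i - ∏ i ∈ range n, y i| * 1 :=
              mul_le_mul_of_nonneg_left (hx n) (abs_nonneg _)
          _ ≤ _ := by rw [mul_one]; exact ih
      have h3 : |∏ i ∈ range n, y i| * |x n - y n| ≤ |x n - y n| := by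
        calc |∏ i ∈ range n, y i| * |x n - y n| ≤ 1 * |x n - y n| :=
              mul_le_mul_of_nonneg_right h1 (abs_nonneg _)
          _ = _ := one_mul _
      linarith

end Pool.Agent.C52.RW6
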