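import Pool.Agent.Lib.MP_c52340_c5.Defs
import Pool.Agent.Lib.MP_c52340_c5.B13
import Pool.Agent.Lib.MP_c52340_c5.W6


set_option autoImplicit false

open Finset

open Pool.Agent.C52.RB13 (B13)
open Pool.Agent.C52.RW6 (W6)

namespace Pool.Agent.C52.RW7

private theorem pow_gap {X Y : ℝ} (hY : 0 < Y) (hXY : Y ≤ X) {s : ℕ} (hs : 1 ≤ s) :
    Y ^ s + s * Y ^ (s - 1) * (X - Y) ≤ X ^ s := by
  have h1 : 1 + (s : ℝ) * (X / Y - 1) ≤ (1 + (X / Y - 1)) ^ s := by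
    apply one_add_mul_le_pow
    have : 1 ≤ X / Y := (one_le_div hY).2 hXY
    linarith
  have h2 : (1 + (X / Y - 1)) ^ s = X ^ s / Y ^ s := by
    rw [show (1 + (X / Y - 1)) = X / Y by ring, div_pow]
  rw [h2] at h1
  have hYs : 0 < Y ^ s := by positivity
  have h3 : (1 + (s : ℝ) * (X / Y - 1)) * Y ^ s ≤ X ^ s := by
    rwa [le_div_iff₀ hYs] at h1
  have h4 : (1 + (s : ℝ) * (X / Y - 1)) * Y ^ s = Y ^ s + s * Y ^ (s - 1) * (X - Y) := by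
    obtain ⟨m, rfl⟩ : ∃ m, s = m + 1 := ⟨s - 1, by omega⟩
    rw [Nat.add_sub_cancel, pow_succ]
    field_simp
  linarith

private theorem close0 {P G Q k c₁ c₂ n β z : ℝ} (hP1 : 1 ≤ P) (hG : 1 ≤ G) (hI0 : 0 < Q) (hIp : Q ≤ P)
    (hβ : β = c₁ / (P * G ^ 5) + (c₂ / (P * G ^ 5) + n) / (P * G ^ 5))
    (hc₂ : |c₂| ≤ P * G ^ 5) (hn : |n| ≤ G ^ 3)
    (hk : |k| ≤ P * G ^ 5)
    (hz : |β - z| ≤ G ^ 4 / (P * G ^ 5) ^ 2) :
    |Q * (c₁ / (P * G ^ 5)) - Q * z| ≤ 3 / G ∧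
    |Q * (k * β) - Q * (k * z)| ≤ 1 / G := by
  have hP : 0 < P := by linarith
  have hG0 : 0 < G := by linarith
  have hzz : G ^ 4 / (P * G ^ 5) ^ 2 = 1 / (P ^ 2 * G ^ 6) := by field_simp
  rw [hzz] at hz
  constructor
  · have h1 : Q * (c₁ / (P * G ^ 5)) - Q * z = Q * ((β - z) - (c₂ / (P * G ^ 5) + n) / (P * G ^ 5)) := by
      rw [hβ]; ring
    have h2 : |(c₂ / (P * G ^ 5) + n) / (P * G ^ 5)| ≤ (1 + G ^ 3) / (P * G ^ 5) := by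
      rw [abs_div, abs_of_pos (by positivity : (0:ℝ) < P * G ^ 5)]
      gcongr
      refine (abs_add_le _ _).trans ?_
      have : |c₂ / (P * G ^ 5)| ≤ 1 := by
        rw [abs_div, abs_of_pos (by positivity : (0:ℝ) < P * G ^ 5)]
        exact (div_le_one (by positivity)).2 hc₂
      linarith
    have h3 : |(β - z) - (c₂ / (P * G ^ 5) + n) / (P * G ^ 5)| ≤ 1 / (P ^ 2 * G ^ 6) + (1 + G ^ 3) / (P * G ^ 5) :=
      (abs_sub _ _).trans (add_le_add hz h2)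
    rw [h1, abs_mul, abs_of_pos hI0]
    calc Q * |(β - z) - (c₂ / (P * G ^ 5) + n) / (P * G ^ 5)|
        ≤ P * (1 / (P ^ 2 * G ^ 6) + (1 + G ^ 3) / (P * G ^ 5)) := by gcongr
      _ = 1 / (P * G ^ 6) + (1 + G ^ 3) / G ^ 5 := by field_simp
      _ ≤ 1 / G + (G ^ 3 + G ^ 3) / G ^ 5 := by
          have a1 : (1:ℝ) ≤ G ^ 3 := one_le_pow₀ hG
          have a2 : G ≤ P * G ^ 6 := by
            calc G = 1 * G ^ 1 := by ring
              _ ≤ P * G ^ 6 := by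
                refine mul_le_mul hP1 (pow_le_pow_right₀ hG (by norm_num)) (by positivity) (by positivity)
          gcongr
      _ = 1 / G + 2 / G ^ 2 := by field_simp; ring
      _ ≤ 1 / G + 2 / G := by
          have : G ≤ G ^ 2 := by nlinarith
          gcongr
      _ = 3 / G := by ring
  · have h1 : Q * (k * β) - Q * (k * z) = Q * (k * (β - z)) := by ring
    rw [h1, abs_mul, abs_mul, abs_of_pos hI0]
    calc Q * (|k| * |β - z|) ≤ P * ((P * G ^ 5) * (1 / (P ^ 2 * G ^ 6))) := by gcongr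
      _ = 1 / G := by field_simp

/-- numerical part: closeness of the arguments -/
private theorem close1 {g N' I : ℕ} {k c₁ c₂ n β z : ℝ} (hI : I ≤ N')
    (hβ : β = c₁ / 4 ^ (N' + 5 * g) + (c₂ / 4 ^ (N' + 5 * g) + n) / 4 ^ (N' + 5 * g))
    (hc₂ : |c₂| ≤ 4 ^ (N' + 5 * g)) (hn : |n| ≤ 4 ^ (3 * g))
    (hk : |k| ≤ 4 ^ (N' + 5 * g))
    (hz : |β - z| ≤ 4 ^ (4 * g) / 4 ^ (2 * (N' + 5 * g))) :
    |4 ^ I * (c₁ / 4 ^ (N' + 5 * g)) - 4 ^ I * z| ≤ 3 / 4 ^ g ∧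
    |4 ^ I * (k * β) - 4 ^ I * (k * z)| ≤ 1 / 4 ^ g := by
  have hG : (1:ℝ) ≤ 4 ^ g := one_le_pow₀ (by norm_num)
  have hP1 : (1:ℝ) ≤ 4 ^ N' := one_le_pow₀ (by norm_num)
  have e5 : (4:ℝ) ^ (N' + 5 * g) = 4 ^ N' * (4 ^ g) ^ 5 := by rw [pow_add, mul_comm 5 g, pow_mul]
  have e3 : (4:ℝ) ^ (3 * g) = (4 ^ g) ^ 3 := by rw [mul_comm 3 g, pow_mul]
  have e4 : (4:ℝ) ^ (4 * g) = (4 ^ g) ^ 4 := by rw [mul_comm 4 g, pow_mul]
  have e2 : (4:ℝ) ^ (2 * (N' + 5 * g)) = (4 ^ N' * (4 ^ g) ^ 5) ^ 2 := by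
    rw [mul_comm 2, pow_mul, e5]
  have hIp : (4:ℝ) ^ I ≤ 4 ^ N' := pow_le_pow_right₀ (by norm_num) hI
  have hI0 : (0:ℝ) < 4 ^ I := by positivity
  rw [e2, e4] at hz
  rw [e5] at hk hc₂ hβ ⊢
  rw [e3] at hn
  exact close0 hP1 hG hI0 hIp hβ hc₂ hn hk hz

theorem W7 (lam : ℝ) (h0 : 1 / 2 < lam) (h1 : lam < 1) : ∃ η₀ : ℝ, 0 < η₀ ∧ η₀ < 1 ∧ ∃ N₀ : ℕ,
    ∀ N ≥ N₀, ∀ k ∈ Odds N, ∀ c₁ ∈ Fr N, ∀ c₂ ∈ Fr N, ∀ n ∈ Fr N, |n| ≤ 4 ^ (3 * (N / 16)) →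
    ∀ (a : ℤ) (u d : ℕ), Odd d → 3 ≤ d → 2 ^ u * d ≤ 2 * 4 ^ (N / 16) → IsCoprime a (d : ℤ) →
    |bet N c₁ c₂ n - a / (2 ^ u * d)| ≤ 4 ^ (4 * (N / 16)) / 4 ^ (2 * N) →
    η₀ ^ N < GG (1 / 4) N ((c₁ : ℝ) / 4 ^ N) → η₀ ^ N ≤ |GG (1 / 3) N (k * bet N c₁ c₂ n)| →
    Exc lam (2 * 4 ^ (N / 16)) k := by
  obtain ⟨hper, -, habs, hnn, hlip, -, -, -, -, -, -⟩ := B13
  obtain ⟨hpig, htel⟩ := W6
  -- the constants
  obtain ⟨μ, hμ⟩ : ∃ μ : ℝ, μ = (1 + lam) / 2 := ⟨_, rfl⟩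
  have hμ0 : 0 < μ := by linarith
  have hμ1 : μ < 1 := by linarith
  have hμl : lam < μ := by linarith
  obtain ⟨η, hη0, hη1, hη8⟩ : ∃ η : ℝ, 0 < η ∧ η < 1 ∧ η ^ 8 = μ := by
    refine ⟨√√√μ, ?_, ?_, ?_⟩
    · exact Real.sqrt_pos.2 (Real.sqrt_pos.2 (Real.sqrt_pos.2 hμ0))
    · rw [Real.sqrt_lt' one_pos, one_pow, Real.sqrt_lt' one_pos, one_pow, Real.sqrt_lt' one_pos, one_pow]
      exact hμ1
    · have e1 : (√√√μ) ^ 2 = √√μ := Real.sq_sqrt (Real.sqrt_nonneg _)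
      have e2 : (√√μ) ^ 2 = √μ := Real.sq_sqrt (Real.sqrt_nonneg _)
      have e3 : (√μ) ^ 2 = μ := Real.sq_sqrt hμ0.le
      calc (√√√μ) ^ 8 = (((√√√μ) ^ 2) ^ 2) ^ 2 := by ring
        _ = μ := by rw [e1, e2, e3]
  have hX : lam ^ 2 < μ ^ 2 := by nlinarith
  have hY4 : 1 < 4 * lam ^ 2 := by nlinarith
  obtain ⟨g₀, hg₀⟩ : ∃ g₀ : ℕ, ∀ g ≥ g₀, 28 ≤ (4 * lam ^ 2) ^ g * (μ ^ 2 - lam ^ 2) := by
    have ht := tendsto_pow_atTop_atTop_of_one_lt hY4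
    obtain ⟨g₀, hg⟩ := (Filter.tendsto_atTop.1 ht (28 / (μ ^ 2 - lam ^ 2))).exists_forall_of_atTop
    refine ⟨g₀, fun g hgg => ?_⟩
    have := hg g hgg
    rwa [div_le_iff₀ (by linarith)] at this
  refine ⟨η, hη0, hη1, 16 * g₀ + 16, ?_⟩
  intro N hN k hk c₁ hc₁ c₂ hc₂ n hn hn3 a u d hdo hd3 hud hcop hβ hG1 hG2
  obtain ⟨g, hg⟩ : ∃ g, g = N / 16 := ⟨_, rfl⟩
  rw [← hg] at hn3 hud hβ ⊢
  have hgN : 16 * g ≤ N := by omega
  have hgg : g₀ ≤ g := by omega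
  have hN16 : 16 ≤ N := by omega
  -- N'
  obtain ⟨N', hN'⟩ : ∃ N', N = N' + 5 * g := ⟨N - 5 * g, by omega⟩
  -- the scale of d
  obtain ⟨s, hs⟩ : ∃ s, s = Nat.clog 4 d := ⟨_, rfl⟩
  have hs1 : 1 ≤ s := by
    rw [hs]; exact Nat.clog_pos (by norm_num) (by omega)
  have hds : d ≤ 4 ^ s := by rw [hs]; exact Nat.le_pow_clog (by norm_num) d
  have hds' : 4 ^ (s - 1) < d := by
    have := Nat.pow_pred_clog_lt_self (b := 4) (by norm_num) (x := d) (by omega)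
    rwa [← hs, Nat.pred_eq_sub_one] at this
  have h2u : 1 ≤ 2 ^ u := Nat.one_le_two_pow
  have hd2 : d ≤ 2 * 4 ^ g := le_trans (Nat.le_mul_of_pos_left d (by omega)) hud
  have hsg : s - 1 ≤ g := by
    have h2 : 4 ^ (s - 1) < 4 ^ (g + 1) := by
      calc 4 ^ (s - 1) < d := hds'
        _ ≤ 2 * 4 ^ g := hd2
        _ < 4 ^ (g + 1) := by
          have : 0 < 4 ^ g := by positivity
          rw [pow_succ]; omega
    have := (Nat.pow_lt_pow_iff_right (by norm_num : 1 < 4)).1 h2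
    omega
  have hug : u ≤ 2 * g := by
    have h2 : 2 ^ u < 2 ^ (2 * g + 1) := by
      have h3 : 2 ^ (2 * g + 1) = 2 * 4 ^ g := by
        rw [pow_succ, pow_mul]; norm_num; ring
      rw [h3]
      calc 2 ^ u < 2 ^ u * d := by nlinarith
        _ ≤ _ := hud
    have := (Nat.pow_lt_pow_iff_right (by norm_num : 1 < 2)).1 h2
    omega
  -- number of windows
  obtain ⟨W, hW⟩ : ∃ W, W = (N' - u) / (2 * s) := ⟨_, rfl⟩
  have hW1 : u + W * (2 * s) ≤ N' := by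
    have := Nat.div_mul_le_self (N' - u) (2 * s)
    rw [← hW] at this
    omega
  have hW2 : N ≤ 8 * s * W := by
    have h2 : N' - u < W * (2 * s) + 2 * s := by
      rw [hW]; exact Nat.lt_div_mul_add (by omega)
    have h3 : 8 * s * W = 4 * (W * (2 * s)) := by ring
    rw [h3]
    omega
  -- the factors
  obtain ⟨β, hβd⟩ : ∃ β, β = bet N c₁ c₂ n := ⟨_, rfl⟩
  rw [← hβd] at hβ hG2
  obtain ⟨f, hf⟩ : ∃ f : ℕ → ℝ, f = fun i => gf (1 / 4) (4 ^ i * ((c₁ : ℝ) / 4 ^ N)) *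
      |gf (1 / 3) (4 ^ i * (k * β))| := ⟨_, rfl⟩
  have hf01 : ∀ i, 0 ≤ f i ∧ f i ≤ 1 := by
    intro i
    rw [hf]
    have a1 := hnn (1 / 4) (4 ^ i * ((c₁ : ℝ) / 4 ^ N)) (by norm_num) (by norm_num)
    have a2 := habs (1 / 4) (4 ^ i * ((c₁ : ℝ) / 4 ^ N)) (by norm_num) (by norm_num)
    have a3 := habs (1 / 3) (4 ^ i * (k * β)) (by norm_num) (by norm_num)
    rw [abs_of_nonneg a1] at a2
    exact ⟨mul_nonneg a1 (abs_nonneg _), mul_le_one₀ a2 (abs_nonneg _) a3⟩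
  have hprod : ∏ i ∈ range N, f i = GG (1 / 4) N ((c₁ : ℝ) / 4 ^ N) * |GG (1 / 3) N (k * β)| := by
    rw [hf, Finset.prod_mul_distrib]
    unfold GG
    rw [Finset.abs_prod]
  have hprod2 : η ^ (2 * N) < ∏ i ∈ range N, f i := by
    rw [hprod, two_mul, pow_add]
    have hηN : 0 < η ^ N := by positivity
    calc η ^ N * η ^ N < GG (1 / 4) N ((c₁ : ℝ) / 4 ^ N) * η ^ N := by gcongr
      _ ≤ _ := by
        refine mul_le_mul_of_nonneg_left hG2 (by linarith)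
  have huN : u ≤ N := by omega
  have hprod3 : ∏ i ∈ range N, f i ≤ ∏ i ∈ Ico u N, f i := by
    rw [← Finset.prod_range_mul_prod_Ico f huN]
    have b1 : ∏ i ∈ range u, f i ≤ 1 := Finset.prod_le_one (fun i _ => (hf01 i).1) (fun i _ => (hf01 i).2)
    have b2 : 0 ≤ ∏ i ∈ Ico u N, f i := Finset.prod_nonneg (fun i _ => (hf01 i).1)
    nlinarith
  have htW : (η ^ (16 * s)) ^ W < ∏ i ∈ Ico u N, f i := by
    rw [← pow_mul]
    refine lt_of_le_of_lt ?_ (lt_of_lt_of_le hprod2 hprod3)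
    refine pow_le_pow_of_le_one hη0.le hη1.le ?_
    have : 16 * s * W = 2 * (8 * s * W) := by ring
    rw [this]; omega
  obtain ⟨j, hjW, hjt⟩ := hpig f u N (2 * s) W (η ^ (16 * s)) hf01 (by positivity) (by omega) htW
  obtain ⟨i0, hi0⟩ : ∃ i0, i0 = u + j * (2 * s) := ⟨_, rfl⟩
  rw [← hi0] at hjt
  have hi0N : i0 + 2 * s ≤ N' := by
    have : (j + 1) * (2 * s) ≤ W * (2 * s) := Nat.mul_le_mul_right _ hjW
    have e : (j + 1) * (2 * s) = j * (2 * s) + 2 * s := by ring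
    omega
  have hui0 : u ≤ 2 * i0 := by omega
  -- the fraction
  obtain ⟨b, hb⟩ : ∃ b : ℤ, b = a * 2 ^ (2 * i0 - u) := ⟨_, rfl⟩
  have hbcop : IsCoprime b (d : ℤ) := by
    rw [hb]
    apply IsCoprime.mul_left hcop
    apply IsCoprime.pow_left
    obtain ⟨m, hm⟩ := hdo
    refine ⟨-m, 1, ?_⟩
    rw [hm]; push_cast; ring
  have hd0 : (d : ℝ) ≠ 0 := by
    have : d ≠ 0 := by omega
    exact_mod_cast this
  obtain ⟨z, hz⟩ : ∃ z : ℝ, z = a / (2 ^ u * d) := ⟨_, rfl⟩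
  rw [← hz] at hβ
  have hbz : (b : ℝ) / d = 4 ^ i0 * z := by
    rw [hb, hz]
    push_cast
    have e1 : (4:ℝ) ^ i0 = 2 ^ (2 * i0 - u) * 2 ^ u := by
      rw [← pow_add, Nat.sub_add_cancel hui0, pow_mul]; norm_num
    rw [e1]
    field_simp
  refine ⟨d, b, s, hd3, hdo, by exact_mod_cast hd2, hbcop, hds', hds, ?_⟩
  -- comparison
  obtain ⟨y, hy⟩ : ∃ y : ℕ → ℝ, y = fun i => gf (1 / 4) (4 ^ i * ((b : ℝ) / d)) *
      |gf (1 / 3) (4 ^ i * ((k : ℝ) * b / d))| := ⟨_, rfl⟩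
  have hy1 : ∀ i, |y i| ≤ 1 := by
    intro i
    rw [hy]
    show abs (gf (1 / 4) (4 ^ i * ((b : ℝ) / d)) * abs (gf (1 / 3) (4 ^ i * ((k : ℝ) * b / d)))) ≤ 1
    rw [abs_mul, abs_abs]
    exact mul_le_one₀ (habs _ _ (by norm_num) (by norm_num)) (abs_nonneg _) (habs _ _ (by norm_num) (by norm_num))
  have hx1 : ∀ i, |(fun i => f (i0 + i)) i| ≤ 1 := by
    intro i
    show |f (i0 + i)| ≤ 1
    rw [abs_of_nonneg (hf01 _).1]
    exact (hf01 _).2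
  have htel2 := htel (2 * s) (fun i => f (i0 + i)) y hx1 hy1
  -- data for close1
  have hk' : |(k : ℝ)| ≤ 4 ^ (N' + 5 * g) := by
    unfold Odds at hk
    rw [Finset.mem_filter, Finset.mem_Ico] at hk
    rw [← hN', abs_of_nonneg (by exact_mod_cast hk.1.1)]
    exact_mod_cast hk.1.2.le
  have hc' : |(c₂ : ℝ)| ≤ 4 ^ (N' + 5 * g) := by
    unfold Fr at hc₂
    rw [Finset.mem_Ioc] at hc₂
    have h4 : (0:ℤ) < 4 ^ N := by positivity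
    have : |c₂| ≤ 4 ^ N := by
      rw [abs_le]; constructor <;> omega
    rw [← hN']
    exact_mod_cast this
  have hn' : |(n : ℝ)| ≤ 4 ^ (3 * g) := by exact_mod_cast hn3
  have hβ' : β = (c₁ : ℝ) / 4 ^ (N' + 5 * g) + ((c₂ : ℝ) / 4 ^ (N' + 5 * g) + n) / 4 ^ (N' + 5 * g) := by
    rw [hβd, ← hN']; rfl
  have hβz : |β - z| ≤ 4 ^ (4 * g) / 4 ^ (2 * (N' + 5 * g)) := by rw [← hN']; exact hβ
  have hdiff : ∀ i ∈ range (2 * s), |(fun i => f (i0 + i)) i - y i| ≤ 14 / 4 ^ g := by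
    intro i hi
    rw [Finset.mem_range] at hi
    have hI : i0 + i ≤ N' := by omega
    obtain ⟨q1, q2⟩ := close1 hI hβ' hc' hn' hk' hβz
    rw [← hN'] at q1
    show |f (i0 + i) - y i| ≤ 14 / 4 ^ g
    rw [hf, hy]
    have e1 : (4:ℝ) ^ i * ((b : ℝ) / d) = 4 ^ (i0 + i) * z := by
      rw [hbz, pow_add]; ring
    have e2 : (4:ℝ) ^ i * ((k : ℝ) * b / d) = 4 ^ (i0 + i) * (k * z) := by
      rw [mul_div_assoc, hbz, pow_add]; ring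
    show abs (gf (1 / 4) (4 ^ (i0 + i) * ((c₁ : ℝ) / 4 ^ N)) * abs (gf (1 / 3) (4 ^ (i0 + i) * (k * β))) -
      gf (1 / 4) (4 ^ i * ((b : ℝ) / d)) * abs (gf (1 / 3) (4 ^ i * ((k : ℝ) * b / d)))) ≤ 14 / 4 ^ g
    rw [e1, e2]
    obtain ⟨A, hA⟩ : ∃ A, A = gf (1 / 4) (4 ^ (i0 + i) * ((c₁ : ℝ) / 4 ^ N)) := ⟨_, rfl⟩
    obtain ⟨A', hA'⟩ : ∃ A', A' = gf (1 / 4) (4 ^ (i0 + i) * z) := ⟨_, rfl⟩
    obtain ⟨D, hD⟩ : ∃ D, D = gf (1 / 3) (4 ^ (i0 + i) * (k * β)) := ⟨_, rfl⟩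
    obtain ⟨D', hD'⟩ : ∃ D', D' = gf (1 / 3) (4 ^ (i0 + i) * (k * z)) := ⟨_, rfl⟩
    have r1 : |A - A'| ≤ 4 * Real.pi * (1 / 4) * (3 / 4 ^ g) := by
      rw [hA, hA']
      refine (hlip (1 / 4) _ _ (by norm_num)).trans ?_
      gcongr
    have r2 : |D - D'| ≤ 4 * Real.pi * (1 / 3) * (1 / 4 ^ g) := by
      rw [hD, hD']
      refine (hlip (1 / 3) _ _ (by norm_num)).trans ?_
      gcongr
    have r3 : |A'| ≤ 1 := by rw [hA']; exact habs _ _ (by norm_num) (by norm_num)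
    have r4 : |D| ≤ 1 := by rw [hD]; exact habs _ _ (by norm_num) (by norm_num)
    rw [← hA, ← hA', ← hD, ← hD']
    have e3 : A * |D| - A' * |D'| = (A - A') * |D| + A' * (|D| - |D'|) := by ring
    have r5 : abs ((A - A') * |D|) ≤ 4 * Real.pi * (1 / 4) * (3 / 4 ^ g) := by
      rw [abs_mul, abs_abs]
      calc |A - A'| * |D| ≤ |A - A'| * 1 := by gcongr
        _ ≤ _ := by rw [mul_one]; exact r1
    have r6 : abs (A' * (|D| - |D'|)) ≤ 4 * Real.pi * (1 / 3) * (1 / 4 ^ g) := by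
      rw [abs_mul]
      calc |A'| * abs (|D| - |D'|) ≤ 1 * |D - D'| :=
            mul_le_mul r3 (abs_abs_sub_abs_le _ _) (abs_nonneg _) zero_le_one
        _ ≤ _ := by rw [one_mul]; exact r2
    rw [e3]
    refine (abs_add_le _ _).trans ((add_le_add r5 r6).trans ?_)
    have hpi := Real.pi_lt_d2
    have e4 : 4 * Real.pi * (1 / 4) * (3 / 4 ^ g) + 4 * Real.pi * (1 / 3) * (1 / 4 ^ g) =
        (13 / 3 * Real.pi) / 4 ^ g := by ring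
    rw [e4]
    gcongr
    linarith
  have hsum : ∑ i ∈ range (2 * s), |(fun i => f (i0 + i)) i - y i| ≤ 28 * s / 4 ^ g := by
    refine (Finset.sum_le_card_nsmul _ _ _ hdiff).trans ?_
    rw [Finset.card_range, nsmul_eq_mul]
    push_cast
    apply le_of_eq; ring
  have hyprod : μ ^ (2 * s) - 28 * s / 4 ^ g ≤ ∏ i ∈ range (2 * s), y i := by
    have e1 : η ^ (16 * s) = μ ^ (2 * s) := by
      rw [← hη8, ← pow_mul]; congr 1; ring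
    rw [e1] at hjt
    have := (abs_le.1 (htel2.trans hsum)).2
    linarith
  have hfin : lam ^ (2 * s) ≤ μ ^ (2 * s) - 28 * s / 4 ^ g := by
    have hl2 : 0 < lam ^ 2 := by positivity
    have c1 := pow_gap hl2 hX.le hs1
    have c2 : (lam ^ 2) ^ g ≤ (lam ^ 2) ^ (s - 1) :=
      pow_le_pow_of_le_one hl2.le (by nlinarith) hsg
    have c3 := hg₀ g hgg
    have h4g : (0:ℝ) < 4 ^ g := by positivity
    have c4 : 28 / 4 ^ g ≤ (lam ^ 2) ^ (s - 1) * (μ ^ 2 - lam ^ 2) := by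
      rw [div_le_iff₀ h4g]
      calc (28:ℝ) ≤ (4 * lam ^ 2) ^ g * (μ ^ 2 - lam ^ 2) := c3
        _ = (lam ^ 2) ^ g * (μ ^ 2 - lam ^ 2) * 4 ^ g := by rw [mul_pow]; ring
        _ ≤ (lam ^ 2) ^ (s - 1) * (μ ^ 2 - lam ^ 2) * 4 ^ g := by
            gcongr
    have c5 : 28 * s / 4 ^ g ≤ s * (lam ^ 2) ^ (s - 1) * (μ ^ 2 - lam ^ 2) := by
      calc 28 * (s:ℝ) / 4 ^ g = s * (28 / 4 ^ g) := by ring
        _ ≤ s * ((lam ^ 2) ^ (s - 1) * (μ ^ 2 - lam ^ 2)) := by gcongr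
        _ = _ := by ring
    rw [pow_mul, pow_mul]
    linarith
  rw [hy] at hyprod
  exact hfin.trans hyprod

end Pool.Agent.C52.RW7
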