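import Pool.Agent.Lib.MP_c52340_c5.Defs
import Pool.Agent.Lib.MP_c52340_c5.B13
import Pool.Agent.Lib.MP_c52340_c5.U1
import Pool.Agent.Lib.MP_c52340_c5.W1
import Pool.Agent.Lib.MP_c52340_c5.W2
import Pool.Agent.Lib.MP_c52340_c5.W3
import Pool.Agent.Lib.MP_c52340_c5.W4
import Pool.Agent.Lib.MP_c52340_c5.W5
import Pool.Agent.Lib.MP_c52340_c5.W7
import Pool.Agent.Lib.MP_c52340_c5.W10
import Pool.Agent.Lib.MP_c52340_c5.W11


set_option autoImplicit false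

open Finset

open Pool.Agent.C52.RB13 (B13)
open Pool.Agent.C52.RU1 (U1)
open Pool.Agent.C52.RW1 (W1)
open Pool.Agent.C52.RW2 (W2)
open Pool.Agent.C52.RW3 (W3)
open Pool.Agent.C52.RW4 (W4)
open Pool.Agent.C52.RW5 (W5)
open Pool.Agent.C52.RW7 (W7)
open Pool.Agent.C52.RW10 (W10)
open Pool.Agent.C52.RW11 (W11)

namespace Pool.Agent.C52.RW12

open Filter in
lemma w12_ev (C a r : ℝ) (ha : 0 ≤ a) (har : a < r) :
    ∀ᶠ N : ℕ in atTop, C * ((N : ℝ) + 1) * a ^ N ≤ r ^ N := by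
  have hr : 0 < r := lt_of_le_of_lt ha har
  have h1 : a / r < 1 := (div_lt_one hr).2 har
  have h0 : 0 ≤ a / r := div_nonneg ha hr.le
  have t1 := tendsto_self_mul_const_pow_of_lt_one h0 h1
  have t2 := tendsto_pow_atTop_nhds_zero_of_lt_one h0 h1
  have t3 : Tendsto (fun N : ℕ => C * ((N : ℝ) * (a / r) ^ N + (a / r) ^ N)) atTop (nhds 0) := by
    have := (t1.add t2).const_mul C
    simpa using this
  have h4 : ∀ᶠ N : ℕ in atTop, C * ((N : ℝ) * (a / r) ^ N + (a / r) ^ N) < 1 :=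
    t3.eventually (gt_mem_nhds zero_lt_one)
  filter_upwards [h4] with N hN
  have hrN : 0 < r ^ N := pow_pos hr N
  have e : C * ((N : ℝ) + 1) * a ^ N = (C * ((N : ℝ) * (a / r) ^ N + (a / r) ^ N)) * r ^ N := by
    rw [div_pow]; field_simp
  rw [e]
  calc _ ≤ 1 * r ^ N := mul_le_mul_of_nonneg_right hN.le hrN.le
    _ = r ^ N := one_mul _

open Filter in
lemma w12_ev0 (C a e : ℝ) (ha : 0 ≤ a) (har : a < 1) (he : 0 < e) :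
    ∀ᶠ N : ℕ in atTop, C * ((N : ℝ) + 1) * a ^ N ≤ e := by
  have t1 := tendsto_self_mul_const_pow_of_lt_one ha har
  have t2 := tendsto_pow_atTop_nhds_zero_of_lt_one ha har
  have t3 : Tendsto (fun N : ℕ => C * ((N : ℝ) * a ^ N + a ^ N)) atTop (nhds 0) := by
    have := (t1.add t2).const_mul C
    simpa using this
  have h4 : ∀ᶠ N : ℕ in atTop, C * ((N : ℝ) * a ^ N + a ^ N) < e :=
    t3.eventually (gt_mem_nhds he)
  filter_upwards [h4] with N hN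
  calc C * ((N : ℝ) + 1) * a ^ N = C * ((N : ℝ) * a ^ N + a ^ N) := by ring
    _ ≤ e := hN.le

lemma w12_g (b c D : ℝ) (hb0 : 0 < b) (hb1 : b ≤ 1) (hc : 0 ≤ c) (h : c ≤ b ^ 16) (hD : 1 ≤ D * b ^ 15) (hD0 : 0 ≤ D)
    (N : ℕ) : c ^ (N / 16) ≤ D * b ^ N := by
  have hN : N ≤ 16 * (N / 16) + 15 := by omega
  have h1 : b ^ (16 * (N / 16) + 15) ≤ b ^ N := pow_le_pow_of_le_one hb0.le hb1 hN
  have h2 : c ^ (N / 16) ≤ (b ^ 16) ^ (N / 16) := pow_le_pow_left₀ hc h _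
  calc c ^ (N / 16) ≤ (b ^ 16) ^ (N / 16) := h2
    _ = (b ^ 16) ^ (N / 16) * 1 := by ring
    _ ≤ (b ^ 16) ^ (N / 16) * (D * b ^ 15) := by
        apply mul_le_mul_of_nonneg_left hD; positivity
    _ = D * b ^ (16 * (N / 16) + 15) := by rw [pow_add, pow_mul]; ring
    _ ≤ D * b ^ N := mul_le_mul_of_nonneg_left h1 hD0

/-- the pointwise bound of a resonant term -/
lemma w12_term (N : ℕ) (hN : 3 ≤ N) (lam η₀ : ℝ) (hη₀ : 0 < η₀) (k : ℤ)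
    (hW7 : ∀ c₁ ∈ Fr N, ∀ c₂ ∈ Fr N, ∀ n ∈ Fr N, |n| ≤ 4 ^ (3 * (N / 16)) →
    ∀ (a : ℤ) (u d : ℕ), Odd d → 3 ≤ d → 2 ^ u * d ≤ 2 * 4 ^ (N / 16) → IsCoprime a (d : ℤ) →
    |bet N c₁ c₂ n - a / (2 ^ u * d)| ≤ 4 ^ (4 * (N / 16)) / 4 ^ (2 * N) →
    η₀ ^ N < GG (1 / 4) N ((c₁ : ℝ) / 4 ^ N) → η₀ ^ N ≤ |GG (1 / 3) N (k * bet N c₁ c₂ n)| →
    Exc lam (2 * 4 ^ (N / 16)) k) (hE : ¬ Exc lam (2 * 4 ^ (N / 16)) k)
    (c₁ c₂ : ℤ) (h₁ : c₁ ∈ Fr N) (h₂ : c₂ ∈ Fr N) (hs : η₀ ^ N < GG (1 / 4) N ((c₁ : ℝ) / 4 ^ N))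
    (hn : ¬ ((4 : ℤ) ^ N ∣ 4 ^ (N / 16 + 1) * c₁ ∧ |c₂| ≤ 4 ^ (4 * (N / 16))))
    (n : ℤ) (hnr : n ∈ resF N (N / 16) c₁ c₂) :
    cb N c₂ n * |GG (1 / 3) N (k * bet N c₁ c₂ n)| ≤
      2 / 64 ^ (N / 16) + 4 * 4 ^ (4 * (N / 16)) / 4 ^ N + cb N c₂ n * η₀ ^ N := by
  classical
  have hnr' : n ∈ Fr N ∧ Res N (N / 16) (bet N c₁ c₂ n) := by
    have h := hnr
    unfold resF at h
    rw [Finset.mem_filter] at h
    exact h
  obtain ⟨hnF, hres⟩ := hnr'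
  obtain ⟨-, hcb0, hcb1⟩ := W2 N (by omega) c₂ h₂
  have hG1 : |GG (1 / 3) N (k * bet N c₁ c₂ n)| ≤ 1 :=
    B13.2.2.2.2.2.2.2.1 (1 / 3) _ N (by norm_num) (by norm_num)
  have hG0 : 0 ≤ |GG (1 / 3) N (k * bet N c₁ c₂ n)| := abs_nonneg _
  have p1 : (0 : ℝ) ≤ 2 / 64 ^ (N / 16) := by positivity
  have p2 : (0 : ℝ) ≤ 4 * 4 ^ (4 * (N / 16)) / 4 ^ N := by positivity
  have p3 : (0 : ℝ) ≤ cb N c₂ n * η₀ ^ N := mul_nonneg (hcb0 n) (pow_nonneg hη₀.le _)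
  by_cases hbig : |n| ≤ 4 ^ (3 * (N / 16))
  · obtain ⟨a, u, d, hd, hud, hcop, hap, hd1⟩ := W5 N (N / 16) (by omega) c₁ c₂ n h₂ hres
    rcases Nat.lt_or_ge 1 d with h1d | h1d
    · have h3 : 3 ≤ d := by
        obtain ⟨e, rfl⟩ := hd; omega
      have hlt : |GG (1 / 3) N (k * bet N c₁ c₂ n)| < η₀ ^ N := by
        by_contra hcon
        exact hE (hW7 c₁ h₁ c₂ h₂ n hnF hbig a u d hd h3 hud hcop hap hs (not_lt.1 hcon))
      have : cb N c₂ n * |GG (1 / 3) N (k * bet N c₁ c₂ n)| ≤ cb N c₂ n * η₀ ^ N :=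
        mul_le_mul_of_nonneg_left hlt.le (hcb0 n)
      linarith
    · have hd' : d = 1 := by
        obtain ⟨e, rfl⟩ := hd; omega
      obtain ⟨hc2, hn0⟩ := hd1 hd'
      have hne : n ≠ 0 := fun h0 => hn ⟨hn0 h0, hc2⟩
      have hcb : cb N c₂ n ≤ 4 * 4 ^ (4 * (N / 16)) / 4 ^ N := by
        unfold cb
        rw [if_neg hne]
        have hn1 : (1 : ℝ) ≤ |(n : ℝ)| := by
          have : (1 : ℤ) ≤ |n| := Int.one_le_abs hne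
          exact_mod_cast this
        have hc3 : |(c₂ : ℝ)| ≤ 4 ^ (4 * (N / 16)) := by exact_mod_cast hc2
        have h4 : (0 : ℝ) < 4 ^ N := by positivity
        rw [div_le_div_iff₀ (by positivity) h4]
        have e1 : (4 : ℝ) * |(c₂ : ℝ)| * 4 ^ N ≤ 4 * 4 ^ (4 * (N / 16)) * 4 ^ N := by
          apply mul_le_mul_of_nonneg_right _ h4.le
          linarith
        have e2 : (4 : ℝ) * 4 ^ (4 * (N / 16)) * 4 ^ N ≤ 4 * 4 ^ (4 * (N / 16)) * (4 ^ N * |(n : ℝ)|) := by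
          apply mul_le_mul_of_nonneg_left _ (by positivity)
          nlinarith
        linarith
      have : cb N c₂ n * |GG (1 / 3) N (k * bet N c₁ c₂ n)| ≤ cb N c₂ n * 1 :=
        mul_le_mul_of_nonneg_left hG1 (hcb0 n)
      linarith
  · have hbig' : (4 : ℤ) ^ (3 * (N / 16)) < |n| := not_le.1 hbig
    have hne : n ≠ 0 := by
      rintro rfl
      simp only [abs_zero] at hbig'
      have : (0 : ℤ) < 4 ^ (3 * (N / 16)) := by positivity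
      omega
    have hb1 : (64 : ℝ) ^ (N / 16) ≤ |(n : ℝ)| := by
      have e : (64 : ℝ) ^ (N / 16) = 4 ^ (3 * (N / 16)) := by
        rw [pow_mul]; norm_num
      rw [e]
      exact_mod_cast hbig'.le
    have hcb := hcb1 n hne
    have hcb2 : 2 / |(n : ℝ)| ≤ 2 / 64 ^ (N / 16) :=
      div_le_div_of_nonneg_left (by norm_num) (by positivity) hb1
    have : cb N c₂ n * |GG (1 / 3) N (k * bet N c₁ c₂ n)| ≤ cb N c₂ n * 1 :=
      mul_le_mul_of_nonneg_left hG1 (hcb0 n)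
    linarith

/-- the overlap bound, one pair -/
lemma w12_pair (N : ℕ) (hN : 3 ≤ N) (lam η₀ : ℝ) (hη₀ : 0 < η₀) (k : ℤ) (hk : Odd k)
    (hW7 : ∀ c₁ ∈ Fr N, ∀ c₂ ∈ Fr N, ∀ n ∈ Fr N, |n| ≤ 4 ^ (3 * (N / 16)) →
    ∀ (a : ℤ) (u d : ℕ), Odd d → 3 ≤ d → 2 ^ u * d ≤ 2 * 4 ^ (N / 16) → IsCoprime a (d : ℤ) →
    |bet N c₁ c₂ n - a / (2 ^ u * d)| ≤ 4 ^ (4 * (N / 16)) / 4 ^ (2 * N) →
    η₀ ^ N < GG (1 / 4) N ((c₁ : ℝ) / 4 ^ N) → η₀ ^ N ≤ |GG (1 / 3) N (k * bet N c₁ c₂ n)| →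
    Exc lam (2 * 4 ^ (N / 16)) k) (hE : ¬ Exc lam (2 * 4 ^ (N / 16)) k)
    (c₁ c₂ : ℤ) (h₁ : c₁ ∈ Fr N) (h₂ : c₂ ∈ Fr N) (hs : η₀ ^ N < GG (1 / 4) N ((c₁ : ℝ) / 4 ^ N))
    (hn : ¬ ((4 : ℤ) ^ N ∣ 4 ^ (N / 16 + 1) * c₁ ∧ |c₂| ≤ 4 ^ (4 * (N / 16))))
    (t : ℝ) (ht : ∑ n ∈ nresF N (N / 16) c₁ c₂, cb N c₂ n * |GG (1 / 3) N (k * bet N c₁ c₂ n)| ≤ t) :
    ‖Wov N k c₁ c₂‖ ≤ t + 4 / 4 ^ (N / 16) + 8 * (1 / 2) ^ N + 8 * ((N : ℝ) + 1) * η₀ ^ N := by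
  classical
  have h1 := W1 N (by omega) k c₁ c₂ hk h₂
  obtain ⟨hsum, hcb0, -⟩ := W2 N (by omega) c₂ h₂
  have hsplit : ∑ n ∈ Fr N, cb N c₂ n * |GG (1 / 3) N (k * bet N c₁ c₂ n)| =
      ∑ n ∈ resF N (N / 16) c₁ c₂, cb N c₂ n * |GG (1 / 3) N (k * bet N c₁ c₂ n)| +
      ∑ n ∈ nresF N (N / 16) c₁ c₂, cb N c₂ n * |GG (1 / 3) N (k * bet N c₁ c₂ n)| := by
    unfold resF nresF
    rw [Finset.sum_filter_add_sum_filter_not]
  have hres : ∑ n ∈ resF N (N / 16) c₁ c₂, cb N c₂ n * |GG (1 / 3) N (k * bet N c₁ c₂ n)| ≤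
      ∑ n ∈ resF N (N / 16) c₁ c₂,
        (2 / 64 ^ (N / 16) + 4 * 4 ^ (4 * (N / 16)) / 4 ^ N + cb N c₂ n * η₀ ^ N) :=
    Finset.sum_le_sum (fun n hn' => w12_term N hN lam η₀ hη₀ k hW7 hE c₁ c₂ h₁ h₂ hs hn n hn')
  rw [Finset.sum_add_distrib, Finset.sum_const, nsmul_eq_mul, ← Finset.sum_mul] at hres
  have hcard := W3 N (N / 16) (by omega) (by omega) c₁ c₂
  have hsub : ∑ n ∈ resF N (N / 16) c₁ c₂, cb N c₂ n ≤ ∑ n ∈ Fr N, cb N c₂ n := by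
    apply Finset.sum_le_sum_of_subset_of_nonneg
    · unfold resF; exact Finset.filter_subset _ _
    · intro n _ _; exact hcb0 n
  have hη : (0 : ℝ) ≤ η₀ ^ N := pow_nonneg hη₀.le _
  have e1 : ((resF N (N / 16) c₁ c₂).card : ℝ) * (2 / 64 ^ (N / 16) + 4 * 4 ^ (4 * (N / 16)) / 4 ^ N) ≤
      2 * 16 ^ (N / 16) * (2 / 64 ^ (N / 16) + 4 * 4 ^ (4 * (N / 16)) / 4 ^ N) :=
    mul_le_mul_of_nonneg_right hcard (by positivity)
  have e2 : (2 : ℝ) * 16 ^ (N / 16) * (2 / 64 ^ (N / 16)) = 4 / 4 ^ (N / 16) := by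
    have : (64 : ℝ) ^ (N / 16) = 16 ^ (N / 16) * 4 ^ (N / 16) := by
      rw [← mul_pow]; norm_num
    rw [this]; field_simp; norm_num
  have e3 : (2 : ℝ) * 16 ^ (N / 16) * (4 * 4 ^ (4 * (N / 16)) / 4 ^ N) ≤ 8 * (1 / 2) ^ N := by
    have a1 : (16 : ℝ) ^ (N / 16) * 4 ^ (4 * (N / 16)) = 2 ^ (12 * (N / 16)) := by
      rw [pow_mul, pow_mul, ← mul_pow]; norm_num
    have a2 : (2 : ℝ) ^ (12 * (N / 16)) ≤ 2 ^ N := pow_le_pow_right₀ (by norm_num) (by omega)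
    have a3 : ((1 : ℝ) / 2) ^ N = 2 ^ N / 4 ^ N := by
      rw [← div_pow]; norm_num
    rw [a3]
    have h4 : (0 : ℝ) < 4 ^ N := by positivity
    calc (2 : ℝ) * 16 ^ (N / 16) * (4 * 4 ^ (4 * (N / 16)) / 4 ^ N)
        = 8 * ((16 : ℝ) ^ (N / 16) * 4 ^ (4 * (N / 16))) / 4 ^ N := by ring
      _ = 8 * 2 ^ (12 * (N / 16)) / 4 ^ N := by rw [a1]
      _ ≤ 8 * 2 ^ N / 4 ^ N := by
          apply div_le_div_of_nonneg_right _ h4.le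
          linarith
      _ = 8 * (2 ^ N / 4 ^ N) := by ring
  have e4 : (∑ n ∈ resF N (N / 16) c₁ c₂, cb N c₂ n) * η₀ ^ N ≤ 8 * ((N : ℝ) + 1) * η₀ ^ N :=
    mul_le_mul_of_nonneg_right (hsub.trans hsum) hη
  have e5 : (2 : ℝ) * 16 ^ (N / 16) * (2 / 64 ^ (N / 16) + 4 * 4 ^ (4 * (N / 16)) / 4 ^ N) =
      2 * 16 ^ (N / 16) * (2 / 64 ^ (N / 16)) + 2 * 16 ^ (N / 16) * (4 * 4 ^ (4 * (N / 16)) / 4 ^ N) := by
    ring
  linarith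

/-- Row W12.  The dichotomy for structured frequencies, for most `k`. -/
theorem W12 (ε : ℝ) (hε : 0 < ε) : ∃ r : ℝ, 0 < r ∧ r < 1 ∧ ∀ σ : ℝ, 1 < σ → ∃ η : ℝ, 0 < η ∧ η < 1 ∧
    ∃ N₀ : ℕ, ∀ N ≥ N₀, ((Ths N η).card : ℝ) ≤ σ ^ N ∧ bad N (fun k => Dicho N η r k) ≤ ε := by
  classical
  obtain ⟨lam, hlam0, hlam1, hlam⟩ := W10 (ε / 2) (by linarith)
  obtain ⟨η₀, hη₀, hη₀1, N₇, hW7⟩ := W7 lam hlam0 hlam1
  have hr1 : (99 / 100 : ℝ) ≤ max (99 / 100) ((1 + η₀) / 2) := le_max_left _ _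
  have hr2 : (1 + η₀) / 2 ≤ max (99 / 100 : ℝ) ((1 + η₀) / 2) := le_max_right _ _
  have hr3 : max (99 / 100 : ℝ) ((1 + η₀) / 2) < 1 := max_lt (by norm_num) (by linarith)
  generalize max (99 / 100 : ℝ) ((1 + η₀) / 2) = r at hr1 hr2 hr3
  refine ⟨r, by linarith, hr3, ?_⟩
  intro σ hσ
  obtain ⟨η₁, hη₁, hη₁1, hW11⟩ := W11 (min σ (1005 / 1000)) (lt_min hσ (by norm_num))
  have hm0 : η₀ ≤ max η₀ η₁ := le_max_left _ _
  have hm1 : η₁ ≤ max η₀ η₁ := le_max_right _ _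
  have hm2 : max η₀ η₁ < 1 := max_lt hη₀1 hη₁1
  generalize max η₀ η₁ = η at hm0 hm1 hm2
  refine ⟨η, by linarith, hm2, ?_⟩
  -- asymptotics
  have E1 := w12_ev 4 (98 / 100) r (by norm_num) (by linarith)
  have E2 := w12_ev 64 (95 / 100) r (by norm_num) (by linarith)
  have E3 := w12_ev 32 (1 / 2) r (by norm_num) (by linarith)
  have E4 := w12_ev 32 η₀ r hη₀.le (by linarith)
  have E5 := w12_ev0 64 (997 / 1000) (ε / 2) (by norm_num) (by norm_num) (by linarith)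
  have E := ((((E1.and E2).and E3).and E4).and E5).and
    ((Filter.eventually_ge_atTop N₇).and (Filter.eventually_ge_atTop 3))
  obtain ⟨N₀, hN₀⟩ := Filter.eventually_atTop.1 E
  refine ⟨N₀, fun N hN => ?_⟩
  obtain ⟨⟨⟨⟨⟨F1, F2⟩, F3⟩, F4⟩, F5⟩, F6, F7⟩ := hN₀ N hN
  have hcard : ((Ths N η).card : ℝ) ≤ (min σ (1005 / 1000)) ^ N := hW11 η hm1 hm2 N (by omega)
  have hmin0 : (0 : ℝ) ≤ min σ (1005 / 1000) := le_min (by linarith) (by norm_num)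
  refine ⟨hcard.trans (pow_le_pow_left₀ hmin0 (min_le_left _ _) N), ?_⟩
  have hcard2 : ((Ths N η).card : ℝ) ≤ (1005 / 1000 : ℝ) ^ N :=
    hcard.trans (pow_le_pow_left₀ hmin0 (min_le_right _ _) N)
  -- the Markov part
  let f : ℤ → ℝ := fun k => ∑ c₁ ∈ Ths N η, ∑ c₂ ∈ Ths N η, ∑ n ∈ nresF N (N / 16) c₁ c₂,
      cb N c₂ n * |GG (1 / 3) N (k * bet N c₁ c₂ n)|
  have hcb0 : ∀ c₂ ∈ Ths N η, ∀ n, 0 ≤ cb N c₂ n := fun c₂ h n =>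
    (W2 N (by omega) c₂ (Finset.mem_of_mem_filter _ h)).2.1 n
  have hin0 : ∀ k : ℤ, ∀ c₁ ∈ Ths N η, ∀ c₂ ∈ Ths N η, 0 ≤ ∑ n ∈ nresF N (N / 16) c₁ c₂,
      cb N c₂ n * |GG (1 / 3) N (k * bet N c₁ c₂ n)| := fun k c₁ _ c₂ h₂ =>
    Finset.sum_nonneg (fun n _ => mul_nonneg (hcb0 c₂ h₂ n) (abs_nonneg _))
  have hf0 : ∀ k ∈ Odds N, 0 ≤ f k := fun k _ =>
    Finset.sum_nonneg (fun c₁ h₁ => Finset.sum_nonneg (fun c₂ h₂ => hin0 k c₁ h₁ c₂ h₂))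
  have hf1 : ∑ k ∈ Odds N, f k ≤ (((Ths N η).card : ℝ) ^ 2 * (32 * (N + 1) / Real.sqrt (3 ^ (N / 16)))) * 4 ^ N := by
    calc ∑ k ∈ Odds N, f k = ∑ c₁ ∈ Ths N η, ∑ c₂ ∈ Ths N η, ∑ k ∈ Odds N, ∑ n ∈ nresF N (N / 16) c₁ c₂,
          cb N c₂ n * |GG (1 / 3) N (k * bet N c₁ c₂ n)| := by
          rw [Finset.sum_comm]
          refine Finset.sum_congr rfl (fun c₁ _ => ?_)
          rw [Finset.sum_comm]
      _ ≤ ∑ c₁ ∈ Ths N η, ∑ c₂ ∈ Ths N η, 32 * ((N : ℝ) + 1) * 4 ^ N / Real.sqrt (3 ^ (N / 16)) := by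
          refine Finset.sum_le_sum (fun c₁ _ => Finset.sum_le_sum (fun c₂ h₂ => ?_))
          exact W4 N (N / 16) (by omega) (by omega) c₁ c₂ (Finset.mem_of_mem_filter _ h₂)
      _ = _ := by
          rw [Finset.sum_const, Finset.sum_const, nsmul_eq_mul, nsmul_eq_mul]; ring
  have ht : (0 : ℝ) < (98 / 100) ^ N := by positivity
  have hM := U1.2.2.1 N f _ _ hf0 ht hf1
  have hs3 : (1034 / 1000 : ℝ) ^ N ≤ 2 * Real.sqrt (3 ^ (N / 16)) := by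
    have h3 : Real.sqrt (3 ^ (N / 16)) = (Real.sqrt 3) ^ (N / 16) := by
      rw [Real.sqrt_eq_iff_mul_self_eq (by positivity) (by positivity), ← mul_pow, Real.mul_self_sqrt (by norm_num)]
    rw [h3]
    have hN : N ≤ 16 * (N / 16) + 15 := by omega
    calc (1034 / 1000 : ℝ) ^ N ≤ (1034 / 1000 : ℝ) ^ (16 * (N / 16) + 15) :=
          pow_le_pow_right₀ (by norm_num) hN
      _ = ((1034 / 1000 : ℝ) ^ 16) ^ (N / 16) * (1034 / 1000 : ℝ) ^ 15 := by rw [pow_add, pow_mul]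
      _ ≤ (Real.sqrt 3) ^ (N / 16) * 2 := by
          apply mul_le_mul
          · apply pow_le_pow_left₀ (by positivity)
            apply Real.le_sqrt_of_sq_le
            norm_num
          · norm_num
          · positivity
          · positivity
      _ = 2 * (Real.sqrt 3) ^ (N / 16) := by ring
  have hM2 : ((Ths N η).card : ℝ) ^ 2 * (32 * (N + 1) / Real.sqrt (3 ^ (N / 16))) / (98 / 100) ^ N ≤ ε / 2 := by
    refine le_trans ?_ F5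
    have s0 : (0 : ℝ) < Real.sqrt (3 ^ (N / 16)) := Real.sqrt_pos.2 (by positivity)
    have s1 : ((Ths N η).card : ℝ) ^ 2 ≤ ((1005 / 1000 : ℝ) ^ N) ^ 2 := pow_le_pow_left₀ (by positivity) hcard2 2
    have s2 : 32 * ((N : ℝ) + 1) / Real.sqrt (3 ^ (N / 16)) ≤ 64 * ((N : ℝ) + 1) / (1034 / 1000 : ℝ) ^ N := by
      rw [div_le_div_iff₀ s0 (by positivity)]
      calc 32 * ((N : ℝ) + 1) * (1034 / 1000 : ℝ) ^ N ≤ 32 * ((N : ℝ) + 1) * (2 * Real.sqrt (3 ^ (N / 16))) := by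
            apply mul_le_mul_of_nonneg_left hs3 (by positivity)
        _ = _ := by ring
    have s3 : ((1005 / 1000 : ℝ) ^ N) ^ 2 / (1034 / 1000 : ℝ) ^ N / (98 / 100) ^ N ≤ (997 / 1000) ^ N := by
      rw [← pow_mul, mul_comm N 2, pow_mul, ← div_pow, ← div_pow]
      apply pow_le_pow_left₀ (by positivity)
      norm_num
    calc ((Ths N η).card : ℝ) ^ 2 * (32 * (N + 1) / Real.sqrt (3 ^ (N / 16))) / (98 / 100) ^ N
        ≤ ((1005 / 1000 : ℝ) ^ N) ^ 2 * (64 * ((N : ℝ) + 1) / (1034 / 1000 : ℝ) ^ N) / (98 / 100) ^ N := by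
          apply div_le_div_of_nonneg_right _ ht.le
          apply mul_le_mul s1 s2 (by positivity) (by positivity)
      _ = 64 * ((N : ℝ) + 1) * (((1005 / 1000 : ℝ) ^ N) ^ 2 / (1034 / 1000 : ℝ) ^ N / (98 / 100) ^ N) := by
          ring
      _ ≤ 64 * ((N : ℝ) + 1) * (997 / 1000) ^ N := mul_le_mul_of_nonneg_left s3 (by positivity)
  have hbadf : bad N (fun k => f k ≤ (98 / 100) ^ N) ≤ ε / 2 := hM.trans hM2
  have hbadE := hlam N (N / 16) (by omega)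
  refine le_trans (U1.1 N (fun k => (f k ≤ (98 / 100) ^ N) ∧ ¬ Exc lam (2 * 4 ^ (N / 16)) k) _ ?_)
    ((U1.2.1 N _ _).trans (by linarith))
  intro k hk hP
  obtain ⟨hP1, hP2⟩ := hP
  have hkodd : Odd k := by
    unfold Odds at hk
    exact (Finset.mem_filter.1 hk).2
  intro c₁ hc₁ c₂ hc₂
  by_cases halt : ((4 : ℤ) ^ N ∣ 4 ^ (N / 16 + 1) * c₁ ∧ |c₂| ≤ 4 ^ (4 * (N / 16)))
  · exact Or.inr halt
  · left
    have m₁ := Finset.mem_filter.1 (show c₁ ∈ (Fr N).filter (fun c : ℤ => c ≠ 0 ∧ η ^ N < GG (1 / 4) N ((c : ℝ) / 4 ^ N)) from hc₁)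
    have m₂ := Finset.mem_filter.1 (show c₂ ∈ (Fr N).filter (fun c : ℤ => c ≠ 0 ∧ η ^ N < GG (1 / 4) N ((c : ℝ) / 4 ^ N)) from hc₂)
    have hs : η₀ ^ N < GG (1 / 4) N ((c₁ : ℝ) / 4 ^ N) :=
      lt_of_le_of_lt (pow_le_pow_left₀ hη₀.le hm0 N) m₁.2.2
    have hle : ∑ n ∈ nresF N (N / 16) c₁ c₂, cb N c₂ n * |GG (1 / 3) N (k * bet N c₁ c₂ n)| ≤ (98 / 100) ^ N := by
      refine le_trans ?_ hP1
      refine le_trans ?_ (Finset.single_le_sum (f := fun c₁ => ∑ c₂ ∈ Ths N η, ∑ n ∈ nresF N (N / 16) c₁ c₂,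
        cb N c₂ n * |GG (1 / 3) N (k * bet N c₁ c₂ n)|)
        (fun c h => Finset.sum_nonneg (fun c₂ h₂ => hin0 k c h c₂ h₂)) hc₁)
      exact (Finset.single_le_sum (f := fun c₂ => ∑ n ∈ nresF N (N / 16) c₁ c₂,
        cb N c₂ n * |GG (1 / 3) N (k * bet N c₁ c₂ n)|)
        (fun c h => hin0 k c₁ hc₁ c h) hc₂)
    have hpair := w12_pair N F7 lam η₀ hη₀ k hkodd (hW7 N F6 k hk) hP2 c₁ c₂ m₁.1 m₂.1 hs halt _ hle
    have g1 : (98 / 100 : ℝ) ^ N ≤ r ^ N / 4 := by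
      have : (98 / 100 : ℝ) ^ N ≤ ((N : ℝ) + 1) * (98 / 100) ^ N := by
        have : (1 : ℝ) ≤ (N : ℝ) + 1 := by have := Nat.cast_nonneg (α := ℝ) N; linarith
        nlinarith
      linarith
    have g2 : (4 : ℝ) / 4 ^ (N / 16) ≤ r ^ N / 4 := by
      have hg := w12_g (95 / 100) (1 / 4) 4 (by norm_num) (by norm_num) (by norm_num) (by norm_num) (by norm_num)
        (by norm_num) N
      rw [div_pow, one_pow] at hg
      have h1 : (95 / 100 : ℝ) ^ N ≤ ((N : ℝ) + 1) * (95 / 100) ^ N := by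
        have h2 : (0 : ℝ) < (95 / 100) ^ N := by positivity
        have : (1 : ℝ) ≤ (N : ℝ) + 1 := by have := Nat.cast_nonneg (α := ℝ) N; linarith
        nlinarith
      have h3 : (4 : ℝ) / 4 ^ (N / 16) = 4 * (1 / 4 ^ (N / 16)) := by ring
      rw [h3]
      linarith
    have g3 : (8 : ℝ) * (1 / 2) ^ N ≤ r ^ N / 4 := by
      have h1 : (1 / 2 : ℝ) ^ N ≤ ((N : ℝ) + 1) * (1 / 2) ^ N := by
        have h2 : (0 : ℝ) < (1 / 2) ^ N := by positivity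
        have : (1 : ℝ) ≤ (N : ℝ) + 1 := by have := Nat.cast_nonneg (α := ℝ) N; linarith
        nlinarith
      linarith
    linarith

end Pool.Agent.C52.RW12
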