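import Pool.Agent.Lib.MP_c52340_c5.Defs
import Pool.Agent.Lib.MP_c52340_c5.B2


set_option autoImplicit false

open Finset

open Pool.Agent.C52.RB2 (B2)

namespace Pool.Agent.C52.RW13

private theorem w13_ee (x : ℝ) : ‖ee x‖ = 1 := by
  unfold ee
  have : (2 * Real.pi * x * Complex.I : ℂ) = ((2 * Real.pi * x : ℝ) : ℂ) * Complex.I := by
    push_cast
    ring
  rw [this, Complex.norm_exp_ofReal_mul_I]

private theorem w13_norm (N : ℕ) (k c₁ c₂ : ℤ) : ‖Wov N k c₁ c₂‖ ≤ 1 := by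
  unfold Wov avgC
  have hc : ((Lset N).card : ℝ) = 3 ^ N := by
    rw [B2.2.1 N]
    push_cast
    rfl
  rw [norm_div, norm_pow]
  have h3 : ‖(3 : ℂ)‖ = 3 := by simp
  rw [h3, div_le_one (by positivity)]
  refine (norm_sum_le _ _).trans ?_
  have h1 : ∀ m ∈ Lset N, ‖ee ((c₁ : ℝ) * (k * m : ℤ) / 4 ^ N) *
      ee ((c₂ : ℝ) * hi N k m / 4 ^ N)‖ = 1 := by
    intro m _
    rw [norm_mul, w13_ee, w13_ee, mul_one]
  rw [Finset.sum_congr rfl h1, Finset.sum_const, nsmul_eq_mul, mul_one, hc]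

/-- Row W13.  Triple products are small.
Recipe: `‖Wov‖ ≤ 1`.  If both overlaps are `> r^N` then `|c₂| ≤ 4^{4g}` (first pair) and `4^N ∣ 4^{g+1} c₂` (second pair),
`g = N/16`; `0 < |4^{g+1} c₂| ≤ 4^{5g+1} < 4^N`, contradiction. -/
theorem W13 (N : ℕ) (hN : 16 ≤ N) (k : ℤ) (η r : ℝ) (hr : 0 < r) (hr1 : r ≤ 1) (h : Dicho N η r k) :
    ∀ c₁ ∈ Ths N η, ∀ c₂ ∈ Ths N η, ∀ c₃ ∈ Ths N η, ‖Wov N k c₁ c₂‖ * ‖Wov N k c₂ c₃‖ ≤ r ^ N := by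
  intro c₁ h1 c₂ h2 c₃ h3
  rcases h c₁ h1 c₂ h2 with h12 | ⟨_, h12⟩
  · calc ‖Wov N k c₁ c₂‖ * ‖Wov N k c₂ c₃‖ ≤ r ^ N * 1 :=
        mul_le_mul h12 (w13_norm N k c₂ c₃) (norm_nonneg _) (by positivity)
      _ = r ^ N := mul_one _
  rcases h c₂ h2 c₃ h3 with h23 | ⟨h23, _⟩
  · calc ‖Wov N k c₁ c₂‖ * ‖Wov N k c₂ c₃‖ ≤ 1 * r ^ N :=
        mul_le_mul (w13_norm N k c₁ c₂) h23 (norm_nonneg _) (by norm_num)
      _ = r ^ N := one_mul _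
  exfalso
  have hne : c₂ ≠ 0 := by
    unfold Ths at h2
    exact (Finset.mem_filter.1 h2).2.1
  have hle : (4 : ℤ) ^ N ≤ |4 ^ (N / 16 + 1) * c₂| :=
    Int.le_of_dvd (abs_pos.2 (mul_ne_zero (by positivity) hne)) ((dvd_abs _ _).2 h23)
  have h4 : |(4 : ℤ) ^ (N / 16 + 1) * c₂| ≤ 4 ^ (N / 16 + 1) * 4 ^ (4 * (N / 16)) := by
    rw [abs_mul, abs_of_pos (by positivity : (0 : ℤ) < 4 ^ (N / 16 + 1))]
    exact mul_le_mul_of_nonneg_left h12 (by positivity)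
  rw [← pow_add] at h4
  have h5 : (4 : ℤ) ^ (N / 16 + 1 + 4 * (N / 16)) < 4 ^ N := by
    apply pow_lt_pow_right₀ (by norm_num)
    omega
  linarith

end Pool.Agent.C52.RW13
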