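import Pool.Agent.Lib.MP_c52340_c5.Defs
import Pool.Agent.Lib.MP_c52340_c5.B13
import Pool.Agent.Lib.MP_c52340_c5.U1
import Pool.Agent.Lib.MP_c52340_c5.N0
import Pool.Agent.Lib.MP_c52340_c5.N4
import Pool.Agent.Lib.MP_c52340_c5.N5
import Pool.Agent.Lib.MP_c52340_c5.N7
import Pool.Agent.Lib.MP_c52340_c5.N9
import Pool.Agent.Lib.MP_c52340_c5.N10
import Pool.Agent.Lib.MP_c52340_c5.N12
import Pool.Agent.Lib.MP_c52340_c5.N13
import Pool.Agent.Lib.MP_c52340_c5.W12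
import Pool.Agent.Lib.MP_c52340_c5.W13


set_option autoImplicit false

open Finset

open Pool.Agent.C52.RB13 (B13)
open Pool.Agent.C52.RU1 (U1)
open Pool.Agent.C52.RN0 (N0)
open Pool.Agent.C52.RN4 (N4)
open Pool.Agent.C52.RN5 (N5)
open Pool.Agent.C52.RN7 (N7)
open Pool.Agent.C52.RN9 (N9)
open Pool.Agent.C52.RN10 (N10)
open Pool.Agent.C52.RN12 (N12)
open Pool.Agent.C52.RN13 (N13)
open Pool.Agent.C52.RW12 (W12)
open Pool.Agent.C52.RW13 (W13)

namespace Pool.Agent.C52.RW14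

private lemma key_W14 (N : ℕ) (hN : 16 ≤ N) (k : ℤ) (hk : 0 < k) (hk2 : 2 * k < 4 ^ N)
    (r σ η η' t1 t2 K r' : ℝ) (hr0 : 0 < r) (hr1 : r < 1) (hσ : 1 < σ) (hη'0 : 0 < η') (hη'1 : η' < 1)
    (hK1 : 1 ≤ K) (hKt : t1 * t2 ≤ K ^ 2) (ht1 : 0 ≤ t1)
    (hmaj : ∀ (N : ℕ) (x : ℝ), GG (1 / 4) N x ≤ GG pd N x ∧
      (GG (1 / 4) N x ≤ η ^ N → GG (1 / 4) N x ≤ η' ^ N * GG pd N x))
    (hcard : ((Ths N η).card : ℝ) ≤ σ ^ N) (hD : Dicho N η r k) (hX : Xs N k ≤ t1) (hY : Ys N k ≤ t2)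
    (hX0 : 0 ≤ Xs N k) (hY0 : 0 ≤ Ys N k) (hr' : 0 ≤ r')
    (hfin : (σ ^ 3 * r) ^ N + 7 * (η' ^ N * K) * K ^ 2 ≤ r' ^ N) (f : ℤ → ℝ) :
    nsq N ((Qp N k)^[3] f) ≤ (r' ^ N) ^ 2 * nsq N f := by
  have hnsqC : ∀ g : ℤ → ℂ, 0 ≤ nsqC N g := by
    intro g
    unfold nsqC
    positivity
  have hnsq : ∀ g : ℤ → ℝ, 0 ≤ nsq N g := by
    intro g
    unfold nsq
    positivity
  have hXY : Xs N k * Ys N k ≤ K ^ 2 := (mul_le_mul hX hY hY0 ht1).trans hKt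
  have hη'N : η' ^ N ≤ 1 := pow_le_one₀ hη'0.le hη'1.le
  have hη'N0 : 0 < η' ^ N := by positivity
  have hA : ∀ f : ℤ → ℂ, nsqC N (QT N k (Ths N η) f) ≤ K ^ 2 * nsqC N f := by
    intro f
    refine (N4 N (by omega) k hk hk2 (Ths N η) (Finset.filter_subset _ _) 1 (by norm_num) ?_ f).trans ?_
    · intro c _
      rw [one_mul]
      exact (hmaj N _).1
    · apply mul_le_mul_of_nonneg_right _ (hnsqC f)
      rw [one_pow, one_mul]
      exact hXY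
  have hB : ∀ f : ℤ → ℂ, nsqC N (QT N k (Thr N η) f) ≤ (η' ^ N * K) ^ 2 * nsqC N f := by
    intro f
    refine (N4 N (by omega) k hk hk2 (Thr N η) (Finset.filter_subset _ _) (η' ^ N) hη'N0.le ?_ f).trans ?_
    · intro c hc
      simp only [Thr, mem_filter] at hc
      exact (hmaj N _).2 hc.2.2
    · apply mul_le_mul_of_nonneg_right _ (hnsqC f)
      rw [mul_pow]
      exact mul_le_mul_of_nonneg_left hXY (by positivity)
  have hA3 : ∀ f : ℤ → ℂ,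
      nsqC N (QT N k (Ths N η) (QT N k (Ths N η) (QT N k (Ths N η) f))) ≤
        ((σ ^ 3 * r) ^ N) ^ 2 * nsqC N f := by
    intro f
    refine (N12 N k (Ths N η) (r ^ N) (by positivity) (W13 N hN k η r hr0 hr1.le hD) f).trans ?_
    apply mul_le_mul_of_nonneg_right _ (hnsqC f)
    apply pow_le_pow_left₀ (by positivity)
    rw [mul_pow]
    apply mul_le_mul_of_nonneg_right _ (by positivity)
    calc ((Ths N η).card : ℝ) ^ 3 ≤ (σ ^ N) ^ 3 := pow_le_pow_left₀ (by positivity) hcard 3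
      _ = (σ ^ 3) ^ N := by rw [← pow_mul, ← pow_mul, mul_comm]
  have h13 := N13 N (by omega) k η K (η' ^ N * K) ((σ ^ 3 * r) ^ N) (by positivity) (by
    calc η' ^ N * K ≤ 1 * K := mul_le_mul_of_nonneg_right hη'N (by linarith)
      _ = K := one_mul K) (by positivity) hA hB hA3 f
  refine h13.trans ?_
  apply mul_le_mul_of_nonneg_right _ (hnsq f)
  apply pow_le_pow_left₀ (by positivity) hfin

/-- Row W14.  The cube of the transfer operator is exponentially small off the main part (for most `k`).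
Recipe: W12 (with `ε/3`) gives `r`; `σ` with `σ³ r < 1` gives `η`; W13, N12: `t = (σ³ r)^N`; N10 gives `η'`; N4 with
`B = 1` (`Θ = Ths`) and `B = η'^N` (`Θ = Thr`); N7, N9 and Markov (U1): `Xs ≤ 3C/ε`, `Ys ≤ 3C/ε` for most `k`, so `a = K`,
`b = η'^N K` with `K = max 1 (3C/ε)`; N13; `r' := ` anything between `max (σ³ r) η'` and `1`, `N` large. -/
theorem W14 (ε : ℝ) (hε : 0 < ε) : ∃ r : ℝ, 0 < r ∧ r < 1 ∧ ∃ N₀ : ℕ, ∀ N ≥ N₀,
    bad N (fun k => InR N k → ∀ f : ℤ → ℝ, nsq N ((Qp N k)^[3] f) ≤ (r ^ N) ^ 2 * nsq N f) ≤ ε := by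
  obtain ⟨r, hr0, hr1, hr⟩ := W12 (ε / 3) (by positivity)
  set x := (1 - r) / 8 with hx
  have hx0 : 0 < x := by rw [hx]; linarith
  have hrx : r = 1 - 8 * x := by rw [hx]; ring
  have hx8 : 8 * x < 1 := by linarith
  have hσ3 : (1 + x) ^ 3 * r < 1 := by
    rw [hrx]
    have : (1 + x) ^ 3 * (1 - 8 * x) = 1 - 5 * x - 21 * x ^ 2 - 23 * x ^ 3 - 8 * x ^ 4 := by ring
    rw [this]
    have h2 : 0 < x ^ 2 := by positivity
    have h3 : 0 < x ^ 3 := by positivity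
    have h4 : 0 < x ^ 4 := by positivity
    linarith
  obtain ⟨η, hη0, hη1, N₀, hN₀⟩ := hr (1 + x) (by linarith)
  obtain ⟨η', hη'0, hη'1, hmaj⟩ := N10 η hη0 hη1
  obtain ⟨C1, hC1, hXs⟩ := N7
  obtain ⟨C2, hC2, hYs⟩ := N9
  set t1 := 3 * C1 / ε with ht1
  set t2 := 3 * C2 / ε with ht2
  have ht1p : 0 < t1 := by rw [ht1]; positivity
  have ht2p : 0 < t2 := by rw [ht2]; positivity
  set K := 1 + t1 + t2 with hK
  have hK1 : 1 ≤ K := by rw [hK]; linarith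
  have hKt : t1 * t2 ≤ K ^ 2 := by
    rw [hK]; nlinarith
  set ρ := max ((1 + x) ^ 3 * r) η' with hρ
  have hρ1 : ρ < 1 := max_lt hσ3 hη'1
  have hρ0 : 0 < ρ := lt_of_lt_of_le hη'0 (le_max_right _ _)
  set r' := (1 + ρ) / 2 with hr'
  have hr'1 : r' < 1 := by rw [hr']; linarith
  have hr'ρ : ρ < r' := by rw [hr']; linarith
  have hr'0 : 0 < r' := lt_trans hρ0 hr'ρ
  obtain ⟨N₁, hN₁⟩ := exists_pow_lt_of_lt_one (show (0 : ℝ) < 1 / (1 + 7 * K * K ^ 2) by positivity)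
    (show ρ / r' < 1 by rw [div_lt_one hr'0]; exact hr'ρ)
  refine ⟨r', hr'0, hr'1, max (max N₀ 16) N₁, ?_⟩
  intro N hN
  have hNa : N₀ ≤ N := le_trans (le_trans (le_max_left _ _) (le_max_left _ _)) hN
  have hNb : 16 ≤ N := le_trans (le_trans (le_max_right _ _) (le_max_left _ _)) hN
  have hNc : N₁ ≤ N := le_trans (le_max_right _ _) hN
  obtain ⟨hcard, hbad⟩ := hN₀ N hNa
  have hfin : ((1 + x) ^ 3 * r) ^ N + 7 * (η' ^ N * K) * K ^ 2 ≤ r' ^ N := by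
    have h1 : ((1 + x) ^ 3 * r) ^ N ≤ ρ ^ N := pow_le_pow_left₀ (by positivity) (le_max_left _ _) N
    have h2 : η' ^ N ≤ ρ ^ N := pow_le_pow_left₀ hη'0.le (le_max_right _ _) N
    have h3 : (ρ / r') ^ N ≤ 1 / (1 + 7 * K * K ^ 2) := by
      refine le_trans ?_ hN₁.le
      apply pow_le_pow_of_le_one (by positivity) _ hNc
      rw [div_le_one hr'0]
      exact hr'ρ.le
    have hKp : 0 < 1 + 7 * K * K ^ 2 := by positivity
    rw [div_pow, div_le_div_iff₀ (by positivity) hKp, one_mul] at h3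
    calc ((1 + x) ^ 3 * r) ^ N + 7 * (η' ^ N * K) * K ^ 2
        = ((1 + x) ^ 3 * r) ^ N + 7 * K * K ^ 2 * η' ^ N := by ring
      _ ≤ ρ ^ N + 7 * K * K ^ 2 * ρ ^ N := by
          apply add_le_add h1
          exact mul_le_mul_of_nonneg_left h2 (by positivity)
      _ = ρ ^ N * (1 + 7 * K * K ^ 2) := by ring
      _ ≤ r' ^ N := h3
  have hpdnn : ∀ y : ℝ, 0 ≤ GG pd N y := fun y =>
    B13.2.2.2.2.2.2.2.2.1 pd y N (by unfold pd; norm_num) (by unfold pd; norm_num)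
  have hXnn : ∀ k : ℤ, 0 ≤ Xs N k := by
    intro k
    unfold Xs
    apply Finset.sum_nonneg
    intro c _
    exact mul_nonneg (hpdnn _) (abs_nonneg _)
  have hYnn : ∀ k : ℤ, 0 ≤ Ys N k := by
    intro k
    unfold Ys
    apply mul_nonneg (by positivity)
    apply Finset.sum_nonneg
    intro c _
    exact mul_nonneg (mul_nonneg (N5 N c).1 (hpdnn _)) (abs_nonneg _)
  have hb1 : bad N (fun k => Xs N k ≤ t1) ≤ ε / 3 := by
    refine (U1.2.2.1 N (fun k => Xs N k) C1 t1 (fun k _ => hXnn k) ht1p (hXs N)).trans ?_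
    apply le_of_eq
    rw [ht1]
    field_simp
  have hb2 : bad N (fun k => Ys N k ≤ t2) ≤ ε / 3 := by
    refine (U1.2.2.1 N (fun k => Ys N k) C2 t2 (fun k _ => hYnn k) ht2p (hYs N)).trans ?_
    apply le_of_eq
    rw [ht2]
    field_simp
  have hmono := U1.1 N (fun k => (Dicho N η r k ∧ Xs N k ≤ t1) ∧ Ys N k ≤ t2)
    (fun k => InR N k → ∀ f : ℤ → ℝ, nsq N ((Qp N k)^[3] f) ≤ (r' ^ N) ^ 2 * nsq N f) (by
      intro k _ hP hR f
      obtain ⟨⟨hD, hX⟩, hY⟩ := hP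
      obtain ⟨hR1, hR2⟩ := hR
      have hkpos : 0 < k := by
        have : (0 : ℤ) < 4 ^ N := by positivity
        linarith
      exact key_W14 N hNb k hkpos hR2 r (1 + x) η η' t1 t2 K r' hr0 hr1 (by linarith) hη'0 hη'1
        hK1 hKt ht1p.le hmaj hcard hD hX hY (hXnn k) (hYnn k) hr'0.le hfin f)
  refine hmono.trans ?_
  have h1 := U1.2.1 N (fun k => Dicho N η r k ∧ Xs N k ≤ t1) (fun k => Ys N k ≤ t2)
  have h2 := U1.2.1 N (fun k => Dicho N η r k) (fun k => Xs N k ≤ t1)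
  linarith

end Pool.Agent.C52.RW14
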