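import Pool.Agent.Lib.MP_c52340_c5.DefsS
import Pool.Agent.Lib.MP_c52340_c5.E1
import Pool.Agent.Lib.MP_c52340_c5.O3
import Pool.Agent.Lib.MP_c52340_c5.O5
import Pool.Agent.Lib.MP_c52340_c5.O6
import Pool.Agent.Lib.MP_c52340_c5.O7
import Pool.Agent.Lib.MP_c52340_c5.O8


set_option autoImplicit false

open Finset

open Pool.Agent.C52.RE1 (E1)
open Pool.Agent.C52.RO3 (O3)
open Pool.Agent.C52.RO5 (O5)
open Pool.Agent.C52.RO6 (O6)
open Pool.Agent.C52.RO7 (O7)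
open Pool.Agent.C52.RO8 (O8)

namespace Pool.Agent.C52.RY1

private theorem y1_cb_nonneg (N : ℕ) (c n : ℤ) : 0 ≤ cb N c n := by
  unfold cb
  split_ifs
  · exact zero_le_one
  · positivity

private theorem y1_ov_nonneg (N : ℕ) (k c c' : ℤ) : 0 ≤ ov N k c c' :=
  Finset.sum_nonneg (fun n _ => mul_nonneg (y1_cb_nonneg N c' n) (abs_nonneg _))

private theorem y1_card (N g : ℕ) (hg : g ≤ N) : ((Low N g).card : ℝ) ≤ 4 ^ (g + 1) := by
  have hinj : Set.InjOn (fun c : ℤ => c / 4 ^ (N - g)) (Low N g : Set ℤ) := by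
    intro a ha b hb hab
    have ha' : (4 : ℤ) ^ (N - g) ∣ a := (Finset.mem_filter.mp (Finset.mem_coe.mp ha)).2.2
    have hb' : (4 : ℤ) ^ (N - g) ∣ b := (Finset.mem_filter.mp (Finset.mem_coe.mp hb)).2.2
    have h1 := Int.mul_ediv_cancel' ha'
    have h2 := Int.mul_ediv_cancel' hb'
    have hab' : a / 4 ^ (N - g) = b / 4 ^ (N - g) := hab
    rw [← h1, ← h2, hab']
  have hmap : ∀ c ∈ Low N g, c / 4 ^ (N - g) ∈ Finset.Icc (-(4 ^ g : ℤ)) (4 ^ g) := by
    intro c hc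
    have hc1 := (Finset.mem_filter.mp hc).1
    have hc2 := (Finset.mem_filter.mp hc).2.2
    have hF := Finset.mem_Ioc.mp hc1
    have h1 := Int.mul_ediv_cancel' hc2
    obtain ⟨q, hq⟩ : ∃ q, q = c / 4 ^ (N - g) := ⟨_, rfl⟩
    rw [← hq] at h1 ⊢
    have hpos : (0 : ℤ) < 4 ^ (N - g) := by positivity
    have hsplit : (4 : ℤ) ^ N = 4 ^ (N - g) * 4 ^ g := by
      rw [← pow_add]; congr 1; omega
    have hN0 : (0 : ℤ) < 4 ^ N := by positivity
    have hle : c ≤ 4 ^ N := by omega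
    have hge : -(4 ^ N : ℤ) ≤ c := by omega
    rw [Finset.mem_Icc]
    constructor
    · by_contra hcon
      have : q ≤ -(4 ^ g : ℤ) - 1 := by omega
      nlinarith
    · by_contra hcon
      have : (4 ^ g : ℤ) + 1 ≤ q := by omega
      nlinarith
  have hcard := Finset.card_le_card_of_injOn (fun c : ℤ => c / 4 ^ (N - g)) hmap hinj
  have hIcc : (Finset.Icc (-(4 ^ g : ℤ)) (4 ^ g)).card = 2 * 4 ^ g + 1 := by
    rw [Int.card_Icc]
    have : (4 ^ g : ℤ) + 1 - -(4 ^ g : ℤ) = ((2 * 4 ^ g + 1 : ℕ) : ℤ) := by push_cast; ring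
    rw [this]
    exact Int.toNat_natCast _
  rw [hIcc] at hcard
  have h1 : (1 : ℕ) ≤ 4 ^ g := Nat.one_le_pow _ _ (by norm_num)
  have h2 : (Low N g).card ≤ 4 ^ (g + 1) := by
    rw [pow_succ]; omega
  exact_mod_cast h2

private theorem y1_QL_apply (N : ℕ) (k : ℤ) (Θ : Finset ℤ) (x : ℤ → ℂ) :
    QL N k Θ x = ∑ c ∈ Θ, (((wt N c : ℝ) : ℂ) * bL N k c x) • Af N k c := by
  unfold QL
  rw [LinearMap.sum_apply]
  refine Finset.sum_congr rfl (fun c _ => ?_)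
  rw [LinearMap.smul_apply, LinearMap.smulRight_apply, smul_smul]

private theorem y1_bL_congr (N : ℕ) (k c : ℤ) (f g : ℤ → ℂ) (h : ∀ m ∈ Lset N, f m = g m) :
    bL N k c f = bL N k c g := by
  unfold bL
  rw [LinearMap.sum_apply, LinearMap.sum_apply]
  refine Finset.sum_congr rfl (fun m hm => ?_)
  rw [LinearMap.smul_apply, LinearMap.smul_apply, LinearMap.proj_apply, LinearMap.proj_apply, h m hm]

private theorem y1_QL_sub (N : ℕ) (k : ℤ) (η : ℝ) :
    QL N k ((Fr N).erase 0) - QL N k (Ths N η) = QL N k (Thr N η) := by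
  have hU : (Fr N).erase 0 = Ths N η ∪ Thr N η := by
    ext c
    simp only [Finset.mem_erase, Finset.mem_union, Ths, Thr, Finset.mem_filter]
    constructor
    · rintro ⟨h1, h2⟩
      rcases lt_or_ge (η ^ N) (GG (1 / 4) N ((c : ℝ) / 4 ^ N)) with h | h
      · exact Or.inl ⟨h2, h1, h⟩
      · exact Or.inr ⟨h2, h1, h⟩
    · rintro (⟨h1, h2, -⟩ | ⟨h1, h2, -⟩)
      · exact ⟨h2, h1⟩
      · exact ⟨h2, h1⟩
  have hD : Disjoint (Ths N η) (Thr N η) := by
    rw [Finset.disjoint_left]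
    intro c h1 h2
    simp only [Ths, Thr, Finset.mem_filter] at h1 h2
    exact absurd h1.2.2 (not_lt.mpr h2.2.2)
  unfold QL
  rw [hU, Finset.sum_union hD]
  abel

/-- Row Y1.  The remainder term for a given `k`.
Recipe: O7 with `F = Fr N`, `w = wt N`, `Q = QL N k ((Fr N).erase 0)`, `om = ov N k`, `B = Bd N k n` (O3, O5, O6) and then O8 with `Θ = Ths N η`, `Θ₂ = Ths N η ∩ Low N g`,
`Qs = QL N k Θ`, `Q - Qs = QL N k (Thr N η)`, `zr = zR N k`, `ζ' = ζ/η^N` (for `j = 0`: `wt c * ov c c' ≤ zL c'` and `wt c > η^N` on `Ths`), `ε₂ = 4^(g+1) ζ/η^N`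
(`card (Low N g) ≤ 4^(g+1)`, `wt ≤ 1`), `ε₃ = card (Ths) ε₂`. -/
theorem Y1 (N g n : ℕ) (hN : 2 ≤ N) (hg : g ≤ N) (k : ℤ) (hko : Odd k) (hk : 0 < k) (hk2 : 2 * k < 4 ^ N) (η ζ ε₁ : ℝ)
    (h0 : 0 < η) (h1 : η < 1) (hζ0 : 0 ≤ ζ) (hζ : ∀ c ∈ Low N g, zL N k c ≤ ζ)
    (he1 : ∑ c ∈ Ths N η \ Low N g, wt N c * zR N k c ≤ ε₁) (he1' : ε₁ ≤ 1)
    (he2 : 4 ^ (g + 1) * (ζ / η ^ N) ≤ 1) (he3 : ((Ths N η).card : ℝ) * (4 ^ (g + 1) * (ζ / η ^ N)) ≤ 1) :
    ‖VL N k (((QL N k ((Fr N).erase 0)) ^ n) (uC N k))‖ ≤ ‖VL N k (((QL N k (Thr N η)) ^ n) (uC N k))‖ +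
      n * (2 * Bd N k n + 3) ^ n * (Bd N k n) ^ 2 *
        (ε₁ + (2 + ((Ths N η).card : ℝ)) * (4 ^ (g + 1) * (ζ / η ^ N))) := by
  obtain ⟨-, hO3b, hO3c, hV, hu, -⟩ := O3 N hN k hk hk2
  obtain ⟨hB, b1, b2, b3⟩ := O5 N hN k hk hk2 n
  have hw : ∀ c, 0 ≤ wt N c ∧ wt N c ≤ 1 := fun c => E1.2.2.2 N c
  have hThsF : Ths N η ⊆ Fr N := Finset.filter_subset _ _
  have hO7 := O7 (Fr N) (wt N) (fun c => (hw c).1) (Af N k) (bL N k) (VL N k) (uC N k)
    (QL N k ((Fr N).erase 0)) (fun x => y1_QL_apply N k _ x) (fun x => hV x)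
    (fun c _ => by
      have hcongr := y1_bL_congr N k c (uC N k) (∑ c' ∈ Fr N, ((wt N c' : ℝ) : ℂ) • Af N k c')
        (fun m hm => by
          rw [hu m hm, Finset.sum_apply]
          exact Finset.sum_congr rfl (fun c' _ => by rw [Pi.smul_apply, smul_eq_mul]))
      rw [hcongr, map_sum]
      exact Finset.sum_congr rfl (fun c' _ => by rw [map_smul, smul_eq_mul]))
    (ov N k) (fun c _ c' hc' => (O6 N hN k hko c c' hc').1) (Bd N k n) hB n
    (fun j hj c _ => b1 j hj c) (fun j hj c _ c' _ => b2 j hj c c') (fun j hj c _ => b3 j hj c)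
  obtain ⟨p1, p2, p3, p4⟩ := hO7
  have hηN : 0 < η ^ N := pow_pos h0 N
  have hηN1 : η ^ N ≤ 1 := pow_le_one₀ h0.le h1.le
  have hζ' : ζ ≤ ζ / η ^ N := by
    rw [le_div_iff₀ hηN]
    exact mul_le_of_le_one_right hζ0 hηN1
  have hζ'0 : 0 ≤ ζ / η ^ N := le_trans hζ0 hζ'
  have hB0 : 0 ≤ Bd N k n := le_trans zero_le_one hB
  have hzr : ∀ c, 0 ≤ zR N k c := fun c =>
    Finset.sum_nonneg (fun c' _ => mul_nonneg (hw c').1 (y1_ov_nonneg N k c c'))
  have hLowF : Low N g ⊆ Fr N := Finset.filter_subset _ _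
  have hO8 := O8 (Ths N η) (Ths N η ∩ Low N g) Finset.inter_subset_left (wt N) (fun c => (hw c).1)
    (Af N k) (bL N k) (VL N k) (uC N k) (QL N k ((Fr N).erase 0)) (QL N k (Ths N η))
    (fun x => y1_QL_apply N k _ x) (zR N k) hzr (Bd N k n) (ζ / η ^ N) ε₁
    (4 ^ (g + 1) * (ζ / η ^ N)) (((Ths N η).card : ℝ) * (4 ^ (g + 1) * (ζ / η ^ N))) hB hζ'0 n
    (fun c _ c' hc' => (O6 N hN k hko c c' (hThsF hc')).2.1)
    (fun c hc => by
      have e1 : ∑ c' ∈ Ths N η, wt N c' * ‖bL N k c (Af N k c')‖ ≤ ∑ c' ∈ Ths N η, wt N c' * ov N k c c' :=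
        Finset.sum_le_sum (fun c' hc' => mul_le_mul_of_nonneg_left (O6 N hN k hko c c' (hThsF hc')).1 (hw c').1)
      refine le_trans e1 ?_
      exact Finset.sum_le_sum_of_subset_of_nonneg hThsF
        (fun c' _ _ => mul_nonneg (hw c').1 (y1_ov_nonneg N k c c')))
    (fun j hj hj1 c hc c' hc' => by
      have e1 := b2 j hj c c'
      have e2 := p2 j hj hj1 c (hThsF hc) c' (hThsF hc')
      rcases min_cases 1 (zR N k c) with h | h
      · rw [h.1, mul_one]; exact e1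
      · rw [h.1]; exact e2)
    (fun j hj c hc c' hc' => by
      have hc'T := (Finset.mem_inter.mp hc').1
      have hc'L := (Finset.mem_inter.mp hc').2
      rcases Nat.eq_zero_or_pos j with hj0 | hj0
      · subst hj0
        rw [pow_zero, Module.End.one_apply]
        have e1 := (O6 N hN k hko c c' (hThsF hc'T)).1
        have e2 : wt N c * ov N k c c' ≤ zL N k c' :=
          Finset.single_le_sum (f := fun c₁ => wt N c₁ * ov N k c₁ c')
            (fun c₁ _ => mul_nonneg (hw c₁).1 (y1_ov_nonneg N k c₁ c')) (hThsF hc)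
        have e3 : η ^ N < wt N c := (Finset.mem_filter.mp hc).2.2
        have e4 : η ^ N * ov N k c c' ≤ ζ :=
          le_trans (mul_le_mul_of_nonneg_right e3.le (y1_ov_nonneg N k c c')) (le_trans e2 (hζ c' hc'L))
        have e5 : ov N k c c' ≤ ζ / η ^ N := by
          rw [le_div_iff₀ hηN, mul_comm]; exact e4
        have e6 : ζ / η ^ N ≤ Bd N k n * (ζ / η ^ N) := le_mul_of_one_le_left hζ'0 hB
        linarith
      · have e1 := p3 j hj hj0 c (hThsF hc) c' (hThsF hc'T)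
        have e2 : ∑ c'' ∈ Fr N, wt N c'' * ov N k c'' c' ≤ ζ / η ^ N := le_trans (hζ c' hc'L) hζ'
        exact le_trans e1 (mul_le_mul_of_nonneg_left e2 hB0))
    (fun j hj c _ => b1 j hj c)
    (fun j hj c hc => by
      have hcT := (Finset.mem_inter.mp hc).1
      have hcL := (Finset.mem_inter.mp hc).2
      have e1 := p1 j hj c (hThsF hcT)
      have e2 : ∑ c'' ∈ Fr N, wt N c'' * ov N k c'' c ≤ ζ / η ^ N := le_trans (hζ c hcL) hζ'
      exact le_trans e1 (mul_le_mul_of_nonneg_left e2 hB0))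
    (fun j hj c hc => by
      have e1 := b3 j hj c
      have e2 := p4 j hj c (hThsF hc)
      rcases min_cases 1 (zR N k c) with h | h
      · rw [h.1, mul_one]; exact e1
      · rw [h.1]; exact e2)
    (by
      have e1 : ∑ c ∈ Ths N η ∩ Low N g, wt N c * (ζ / η ^ N) ≤ ∑ c ∈ Ths N η ∩ Low N g, ζ / η ^ N :=
        Finset.sum_le_sum (fun c _ => mul_le_of_le_one_left hζ'0 (hw c).2)
      rw [Finset.sum_const, nsmul_eq_mul] at e1
      have e2 : (((Ths N η ∩ Low N g).card : ℕ) : ℝ) ≤ 4 ^ (g + 1) :=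
        le_trans (by exact_mod_cast Finset.card_le_card Finset.inter_subset_right) (y1_card N g hg)
      exact le_trans e1 (mul_le_mul_of_nonneg_right e2 hζ'0))
    he2
    (by rw [Finset.sdiff_inter_self_left]; exact he1)
    he1'
    (by
      have e1 : ∑ c ∈ Ths N η, wt N c * (4 ^ (g + 1) * (ζ / η ^ N)) ≤
          ∑ c ∈ Ths N η, 4 ^ (g + 1) * (ζ / η ^ N) :=
        Finset.sum_le_sum (fun c _ => mul_le_of_le_one_left (by positivity) (hw c).2)
      rw [Finset.sum_const, nsmul_eq_mul] at e1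
      exact e1)
    he3
  rw [y1_QL_sub] at hO8
  have htri := norm_sub_norm_le (VL N k ((QL N k ((Fr N).erase 0) ^ n) (uC N k)))
    (VL N k ((QL N k (Thr N η) ^ n) (uC N k)))
  have heq : ε₁ + 2 * (4 ^ (g + 1) * (ζ / η ^ N)) + ((Ths N η).card : ℝ) * (4 ^ (g + 1) * (ζ / η ^ N)) =
      ε₁ + (2 + ((Ths N η).card : ℝ)) * (4 ^ (g + 1) * (ζ / η ^ N)) := by ring
  rw [heq] at hO8
  linarith

end Pool.Agent.C52.RY1
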