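import Pool.Agent.Lib.MP_c52340_c5.DefsS
import Pool.Agent.Lib.MP_c52340_c5.B9
import Pool.Agent.Lib.MP_c52340_c5.B13
import Pool.Agent.Lib.MP_c52340_c5.E1
import Pool.Agent.Lib.MP_c52340_c5.O3
import Pool.Agent.Lib.MP_c52340_c5.O5
import Pool.Agent.Lib.MP_c52340_c5.O6
import Pool.Agent.Lib.MP_c52340_c5.O7


set_option autoImplicit false

open Finset

open Pool.Agent.C52.RB9 (B9)
open Pool.Agent.C52.RB13 (B13)
open Pool.Agent.C52.RE1 (E1)
open Pool.Agent.C52.RO3 (O3)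
open Pool.Agent.C52.RO5 (O5)
open Pool.Agent.C52.RO6 (O6)
open Pool.Agent.C52.RO7 (O7)

namespace Pool.Agent.C52.RY2

/-- Row Y2.  The coefficients `⟨v, Q'^j 1⟩`, `j ≥ 1`.
Recipe: `Q'^j 1 = Q'^(j-1) (Q' 1)`, `Q' 1 = ∑_{c ≠ 0} wt c * bL c 1 • Af c`, `bL N k c 1 = GG (1/3) N (k c/4^N)` (B9, even); `c ∈ Low`: `‖VL (Q'^(j-1) Af c)‖ ≤ Bd * zL c` (O7), `|bL c 1| ≤ 1`, `wt ≤ 1`;
the others: `‖VL ..‖ ≤ Bd` (O5). -/
theorem Y2 (N g n : ℕ) (hN : 2 ≤ N) (hg : g ≤ N) (k : ℤ) (hko : Odd k) (hk : 0 < k) (hk2 : 2 * k < 4 ^ N)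
    (j : ℕ) (hj : 1 ≤ j) (hjn : j ≤ n) :
    ‖VL N k (((QL N k ((Fr N).erase 0)) ^ j) (fun _ => 1))‖ ≤
      Bd N k n * (∑ c ∈ Low N g, zL N k c + Xh N g k) := by
  obtain ⟨hB1, hb1, hb2, hb3⟩ := O5 N hN k hk hk2 n
  obtain ⟨o1, o2, o3, o4, o5, o6⟩ := O3 N hN k hk hk2
  have hB0 : 0 ≤ Bd N k n := by linarith
  have hwt : ∀ c, 0 ≤ wt N c ∧ wt N c ≤ 1 := E1.2.2.2 N
  have hQ : ∀ x, QL N k ((Fr N).erase 0) x =
      ∑ c ∈ (Fr N).erase 0, ((wt N c : ℂ) * bL N k c x) • Af N k c := by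
    intro x
    unfold QL
    rw [LinearMap.sum_apply]
    refine sum_congr rfl fun c _ => ?_
    rw [LinearMap.smul_apply, LinearMap.smulRight_apply, smul_smul]
  have hcongr : ∀ (c : ℤ) (f f' : ℤ → ℂ), (∀ m ∈ Lset N, f m = f' m) → bL N k c f = bL N k c f' := by
    intro c f f' h
    rw [o1, o1]
    unfold avgC
    congr 1
    refine sum_congr rfl fun m hm => ?_
    show ee (-((c : ℝ) * (k * m : ℤ) / 4 ^ N)) * f m = ee (-((c : ℝ) * (k * m : ℤ) / 4 ^ N)) * f' m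
    rw [h m hm]
  obtain ⟨z1, -, -, -⟩ := O7 (Fr N) (wt N) (fun c => (hwt c).1) (Af N k) (bL N k) (VL N k) (uC N k)
    (QL N k ((Fr N).erase 0)) hQ o4
    (by
      intro c hc
      rw [hcongr c (uC N k) (∑ c' ∈ Fr N, ((wt N c' : ℝ) : ℂ) • Af N k c') (by
        intro m hm
        rw [o5 m hm, Finset.sum_apply]
        rfl)]
      rw [map_sum]
      refine sum_congr rfl fun c' _ => ?_
      rw [map_smul, smul_eq_mul])
    (ov N k) (fun c _ c' hc' => (O6 N hN k hko c c' hc').1) (Bd N k n) hB1 n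
    (fun j hj c _ => hb1 j hj c) (fun j hj c _ c' _ => hb2 j hj c c') (fun j hj c _ => hb3 j hj c)
  obtain ⟨j, rfl⟩ : ∃ j', j = j' + 1 := ⟨j - 1, by omega⟩
  have hone : ∀ c : ℤ, bL N k c (fun _ => 1) = (GG (1 / 3) N ((k : ℝ) * ((c : ℝ) / 4 ^ N)) : ℂ) := by
    intro c
    rw [o1]
    have : avgC N (fun m => ee (-((c : ℝ) * (k * m : ℤ) / 4 ^ N)) * 1) =
        avgC N (fun m => ee ((-((k : ℝ) * ((c : ℝ) / 4 ^ N))) * m)) := by
      unfold avgC
      congr 1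
      refine sum_congr rfl fun m _ => ?_
      show ee (-((c : ℝ) * (k * m : ℤ) / 4 ^ N)) * 1 = ee ((-((k : ℝ) * ((c : ℝ) / 4 ^ N))) * m)
      rw [mul_one]
      congr 1
      push_cast
      ring
    rw [this, B9, B13.2.2.2.2.2.2.1]
  have hone1 : ∀ c : ℤ, ‖bL N k c (fun _ => 1)‖ ≤ 1 := by
    intro c
    rw [hone, Complex.norm_real, Real.norm_eq_abs]
    exact B13.2.2.2.2.2.2.2.1 _ _ _ (by norm_num) (by norm_num)
  rw [pow_succ, Module.End.mul_apply, hQ, map_sum, map_sum]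
  have hterm : ∀ c, VL N k (((QL N k ((Fr N).erase 0)) ^ j)
      (((wt N c : ℂ) * bL N k c (fun _ => 1)) • Af N k c)) =
      (wt N c : ℂ) * bL N k c (fun _ => 1) * VL N k (((QL N k ((Fr N).erase 0)) ^ j) (Af N k c)) := by
    intro c
    rw [map_smul, map_smul, smul_eq_mul]
  have hLow : Low N g ⊆ (Fr N).erase 0 := by
    intro c hc
    unfold Low at hc
    rw [mem_filter] at hc
    exact mem_erase.mpr ⟨hc.2.1, hc.1⟩
  calc ‖∑ c ∈ (Fr N).erase 0, VL N k (((QL N k ((Fr N).erase 0)) ^ j)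
        (((wt N c : ℂ) * bL N k c (fun _ => 1)) • Af N k c))‖
      ≤ ∑ c ∈ (Fr N).erase 0, ‖VL N k (((QL N k ((Fr N).erase 0)) ^ j)
        (((wt N c : ℂ) * bL N k c (fun _ => 1)) • Af N k c))‖ := norm_sum_le _ _
    _ = ∑ c ∈ ((Fr N).erase 0) \ Low N g, ‖VL N k (((QL N k ((Fr N).erase 0)) ^ j)
        (((wt N c : ℂ) * bL N k c (fun _ => 1)) • Af N k c))‖ +
        ∑ c ∈ Low N g, ‖VL N k (((QL N k ((Fr N).erase 0)) ^ j)
        (((wt N c : ℂ) * bL N k c (fun _ => 1)) • Af N k c))‖ := (sum_sdiff hLow).symm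
    _ ≤ ∑ c ∈ ((Fr N).erase 0) \ Low N g,
          Bd N k n * (wt N c * |GG (1 / 3) N ((k : ℝ) * ((c : ℝ) / 4 ^ N))|) +
        ∑ c ∈ Low N g, Bd N k n * zL N k c := by
        apply add_le_add
        · refine sum_le_sum fun c _ => ?_
          rw [hterm, norm_mul, norm_mul, hone, Complex.norm_real, Complex.norm_real,
            Real.norm_eq_abs, Real.norm_eq_abs, abs_of_nonneg (hwt c).1, mul_comm (Bd N k n)]
          exact mul_le_mul_of_nonneg_left (hb1 j (by omega) c)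
            (mul_nonneg (hwt c).1 (abs_nonneg _))
        · refine sum_le_sum fun c hc => ?_
          have hcF : c ∈ Fr N := mem_of_mem_erase (hLow hc)
          have hz := z1 j (by omega) c hcF
          rw [hterm, norm_mul, norm_mul, Complex.norm_real, Real.norm_eq_abs,
            abs_of_nonneg (hwt c).1]
          have hz' : ‖VL N k (((QL N k ((Fr N).erase 0)) ^ j) (Af N k c))‖ ≤ Bd N k n * zL N k c := hz
          have h1 : wt N c * ‖bL N k c (fun _ => 1)‖ ≤ 1 := by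
            calc wt N c * ‖bL N k c (fun _ => 1)‖ ≤ 1 * 1 :=
                  mul_le_mul (hwt c).2 (hone1 c) (norm_nonneg _) zero_le_one
              _ = 1 := one_mul 1
          calc wt N c * ‖bL N k c (fun _ => 1)‖ *
                ‖VL N k (((QL N k ((Fr N).erase 0)) ^ j) (Af N k c))‖
              ≤ 1 * (Bd N k n * zL N k c) :=
                mul_le_mul h1 hz' (norm_nonneg _) zero_le_one
            _ = Bd N k n * zL N k c := one_mul _
    _ = Bd N k n * (∑ c ∈ Low N g, zL N k c + Xh N g k) := by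
        unfold Xh
        rw [← mul_sum, ← mul_sum]; ring

end Pool.Agent.C52.RY2
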