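import Pool.Agent.Lib.MP_c52340_c5.DefsS
import Pool.Agent.Lib.MP_c52340_c5.O3


set_option autoImplicit false

open Finset

open Pool.Agent.C52.RO3 (O3)

namespace Pool.Agent.C52.RY3

private lemma Y3_step (N : ℕ) (hN : 2 ≤ N) (k : ℤ) (hk : 0 < k) (hk2 : 2 * k < 4 ^ N) (f : ℤ → ℝ) :
    (fun m => ((Qp N k f m : ℝ) : ℂ)) = QL N k ((Fr N).erase 0) (fun m => ((f m : ℝ) : ℂ)) := by
  obtain ⟨_, _, h3, _⟩ := Pool.Agent.C52.RO3.O3 N hN k hk hk2
  funext m'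
  rw [h3]
  unfold Qp Qop avg avgC
  push_cast
  rw [← sub_div, ← Finset.sum_sub_distrib]
  congr 1
  refine Finset.sum_congr rfl fun m _ => ?_
  ring

private lemma Y3_iter (N : ℕ) (hN : 2 ≤ N) (k : ℤ) (hk : 0 < k) (hk2 : 2 * k < 4 ^ N) (n : ℕ) :
    ∀ f : ℤ → ℝ, (fun m => (((Qp N k)^[n] f m : ℝ) : ℂ)) =
      ((QL N k ((Fr N).erase 0)) ^ n) (fun m => ((f m : ℝ) : ℂ)) := by
  induction n with
  | zero =>
    intro f
    simp
  | succ n ih =>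
    intro f
    rw [Function.iterate_succ_apply, ih (Qp N k f), Y3_step N hN k hk hk2 f, pow_succ,
      Module.End.mul_apply]

/-- Row Y3.  Real and complex iterates.
Recipe: N11 (`Ths ∪ Thr = (Fr N).erase 0`, disjoint), O3, induction; `ip N (vv N k) f = avg (vv f)`. -/
theorem Y3 (N : ℕ) (hN : 2 ≤ N) (k : ℤ) (hk : 0 < k) (hk2 : 2 * k < 4 ^ N) (n : ℕ) (f : ℤ → ℝ) :
    ((ip N (vv N k) ((Qp N k)^[n] f) : ℝ) : ℂ) =
      VL N k (((QL N k ((Fr N).erase 0)) ^ n) (fun m => ((f m : ℝ) : ℂ))) := by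
  rw [← Y3_iter N hN k hk hk2 n f]
  unfold ip avg VL
  rw [LinearMap.sum_apply]
  push_cast
  rw [Finset.sum_div]
  refine Finset.sum_congr rfl fun m _ => ?_
  rw [LinearMap.smul_apply, LinearMap.proj_apply, smul_eq_mul]
  ring

end Pool.Agent.C52.RY3
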