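import Pool.Agent.Lib.MP_c52340_c5.Defs
import Pool.Agent.Lib.MP_c52340_c5.B2
import Pool.Agent.Lib.MP_c52340_c5.B4
import Pool.Agent.Lib.MP_c52340_c5.B5
import Pool.Agent.Lib.MP_c52340_c5.B6
import Pool.Agent.Lib.MP_c52340_c5.G1
import Pool.Agent.Lib.MP_c52340_c5.G13


set_option autoImplicit false

open Finset

open Pool.Agent.C52.RB2 (B2)
open Pool.Agent.C52.RB4 (B4)
open Pool.Agent.C52.RB5 (B5)
open Pool.Agent.C52.RB6 (B6)
open Pool.Agent.C52.RG1 (G1)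
open Pool.Agent.C52.RG13 (G13)

namespace Pool.Agent.C52.RZ1

private lemma Lset_split (a b : ℕ) (w : ℤ) (hw : w ∈ Lset (a + b)) :
    ∃ y₁ ∈ Lset a, ∃ y₀ ∈ Lset b, w = 4 ^ b * y₁ + y₀ := by
  by_contra hcon
  push Not at hcon
  have h := B5 a b (fun z : ℤ => if z = w then (1 : ℕ) else 0)
  rw [Finset.sum_ite_eq' (Lset (a + b)) w (fun _ => (1 : ℕ)), if_pos hw] at h
  have h2 : ∑ m₁ ∈ Lset a, ∑ m₀ ∈ Lset b, (if 4 ^ b * m₁ + m₀ = w then (1 : ℕ) else 0) = 0 := by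
    apply Finset.sum_eq_zero
    intro m₁ hm₁
    apply Finset.sum_eq_zero
    intro m₀ hm₀
    rw [if_neg]
    exact fun e => hcon m₁ hm₁ m₀ hm₀ e.symm
  rw [h2] at h
  exact absurd h (by norm_num)

private lemma Lset_unique (h : ℕ) (w y y' : ℤ) (hy : y ∈ Lset h) (hy' : y' ∈ Lset h)
    (h1 : (4 : ℤ) ^ h ∣ w - y) (h2 : (4 : ℤ) ^ h ∣ w - y') : y = y' := by
  have h3 : (4 : ℤ) ^ h ∣ y - y' := by
    have := dvd_sub h2 h1
    have e : w - y' - (w - y) = y - y' := by ring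
    rwa [e] at this
  have b1 := B2.1 h y hy
  have b2 := B2.1 h y' hy'
  have h4 : (0 : ℤ) < 4 ^ h := by positivity
  have h5 : |y - y'| < 4 ^ h := by
    have := abs_sub y y'
    omega
  have h6 := Int.eq_zero_of_abs_lt_dvd h3 h5
  omega

private lemma wG_split (N h : ℕ) (w : ℤ) :
    (∑ y ∈ Lset h, if (4 : ℤ) ^ h ∣ w - y then wG (1 / 4) h y * wG (1 / 4) N ((w - y) / 4 ^ h) else 0) =
      wG (1 / 4) (N + h) w := by
  have h4 : (4 : ℤ) ^ h ≠ 0 := by positivity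
  by_cases hex : ∃ y ∈ Lset h, (4 : ℤ) ^ h ∣ w - y
  · obtain ⟨y₀, hy₀, hd⟩ := hex
    have hd' := hd
    obtain ⟨y₁, hy₁⟩ := hd'
    rw [Finset.sum_eq_single y₀]
    · rw [if_pos hd]
      have e1 : (w - y₀) / 4 ^ h = y₁ := by
        rw [hy₁]
        exact Int.mul_ediv_cancel_left _ h4
      have e2 : w = 4 ^ h * y₁ + y₀ := by linarith
      rw [e1]
      conv_rhs => rw [e2]
      rw [B6 (1 / 4) N h y₁ y₀ hy₀, mul_comm]
    · intro y hy hne
      rw [if_neg]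
      intro hd2
      exact hne (Lset_unique h w y y₀ hy hy₀ hd2 hd)
    · intro hne
      exact absurd hy₀ hne
  · push Not at hex
    rw [Finset.sum_eq_zero]
    · symm
      by_contra hne
      have hw := B4.2.1 (1 / 4) (N + h) w hne
      obtain ⟨y₁, _, y₀, hy₀, e⟩ := Lset_split N h w hw
      exact hex y₀ hy₀ ⟨y₁, by rw [e]; ring⟩
    · intro y hy
      rw [if_neg (hex y hy)]

/-- Row Z1.  The matrix elements as counts.
Recipe: `uu N k m = U (hi N k m)` with `U z = 4^N wG (1/4) N z`; G13 (second part) with `F = U`, then G1 with `h = (n+1) N`, `z = 0`, and B6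
(`wG (1/4) ((n+2) N) (4^((n+1)N) y₁ + y₀) = wG .. N y₁ * wG .. ((n+1)N) y₀`; for given `m` there is at most one `y₀ ∈ Lset` with
`4^h ∣ k m - y₀`, and if `wG (k m) ≠ 0` then `k m = 4^h y₁ + y₀`). -/
theorem Z1 (N : ℕ) (hN : 1 ≤ N) (k : ℤ) (hk : 0 < k) (hk2 : 2 * k < 4 ^ N) (n : ℕ) :
    ip N (vv N k) ((Qop N k)^[n] (uu N k)) =
      4 ^ N * (4 / 3 : ℝ) ^ ((n + 1) * N) * ∑ m ∈ Lset ((n + 1) * N), wG (1 / 4) ((n + 2) * N) (k * m) := by
  have h1 := (G13 N hN k hk hk2 (fun z => 4 ^ N * wG (1 / 4) N z) n).2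
  have h2 : uu N k = fun m => (fun z => 4 ^ N * wG (1 / 4) N z) (hi N k m) := by
    funext m
    rfl
  rw [h2, h1, G1, Finset.mul_sum]
  apply Finset.sum_congr rfl
  intro m _
  have e : (n + 2) * N = N + (n + 1) * N := by ring
  rw [e, ← wG_split N ((n + 1) * N) (k * m), Finset.mul_sum]
  apply Finset.sum_congr rfl
  intro y _
  rw [zero_add]
  split_ifs with hd
  · ring
  · ring

end Pool.Agent.C52.RZ1
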