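import Pool.Agent.Lib.MP_c52340_c5.Defs
import Pool.Agent.Lib.MP_c52340_c5.B2
import Pool.Agent.Lib.MP_c52340_c5.B4


set_option autoImplicit false

open Finset

open Pool.Agent.C52.RB2 (B2)
open Pool.Agent.C52.RB4 (B4)

namespace Pool.Agent.C52.RZ2

/-- Row Z2.  A large count gives a multiplier.
Recipe: the term `m = 0` contributes `4^N (4/3)^((n+1)N) (1/2)^((n+2)N) = 2^N (2/3)^((n+1)N)` (B4); so some `m ≠ 0` in `Lset ((n+1)N)` has
`wG (k m) ≠ 0`, i.e. `k m ∈ Lset ((n+2)N)`; take `|m|` (`Lset` is symmetric), `3|m| < 4^((n+1)N)`, B2. -/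
theorem Z2 (N : ℕ) (k : ℤ) (n : ℕ)
    (h : (2 : ℝ) ^ N * (2 / 3) ^ ((n + 1) * N) <
      4 ^ N * (4 / 3 : ℝ) ^ ((n + 1) * N) * ∑ m ∈ Lset ((n + 1) * N), wG (1 / 4) ((n + 2) * N) (k * m)) :
    HasMult k (4 ^ ((n + 1) * N)) := by
  obtain ⟨hB, -, hsym, h0, hInL⟩ := B2
  obtain ⟨-, hsupp, -, -, -, -, hw0⟩ := B4
  have hex : ∃ m ∈ Lset ((n + 1) * N), m ≠ 0 ∧ wG (1 / 4) ((n + 2) * N) (k * m) ≠ 0 := by
    by_contra hne
    push Not at hne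
    have hsum : ∑ m ∈ Lset ((n + 1) * N), wG (1 / 4) ((n + 2) * N) (k * m) =
        (1 / 2) ^ ((n + 2) * N) := by
      rw [Finset.sum_eq_single 0]
      · rw [mul_zero, hw0]
      · intro m hm hm0
        exact hne m hm hm0
      · intro h
        exact absurd (h0 _) h
    rw [hsum] at h
    have e : (4 : ℝ) ^ N * (4 / 3 : ℝ) ^ ((n + 1) * N) * (1 / 2) ^ ((n + 2) * N) =
        (2 : ℝ) ^ N * (2 / 3) ^ ((n + 1) * N) := by
      have e1 : (n + 2) * N = N + (n + 1) * N := by ring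
      rw [e1, pow_add]
      have e2 : (4 : ℝ) ^ N = 2 ^ N * 2 ^ N := by rw [← mul_pow]; norm_num
      have e3 : (2 : ℝ) ^ N * (1 / 2) ^ N = 1 := by rw [← mul_pow]; norm_num
      have e4 : (4 / 3 : ℝ) ^ ((n + 1) * N) * (1 / 2) ^ ((n + 1) * N) = (2 / 3) ^ ((n + 1) * N) := by
        rw [← mul_pow]; norm_num
      calc (4 : ℝ) ^ N * (4 / 3 : ℝ) ^ ((n + 1) * N) * ((1 / 2) ^ N * (1 / 2) ^ ((n + 1) * N))
          = 2 ^ N * (2 ^ N * (1 / 2) ^ N) *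
              ((4 / 3 : ℝ) ^ ((n + 1) * N) * (1 / 2) ^ ((n + 1) * N)) := by rw [e2]; ring
        _ = _ := by rw [e3, e4, mul_one]
    rw [e] at h
    exact lt_irrefl _ h
  obtain ⟨m, hm, hm0, hkm⟩ := hex
  have hkL := hsupp _ _ _ hkm
  have hbd := hB _ m hm
  have hlt : ∀ x : ℤ, 0 < x → x ≤ |m| → (x : ℝ) < 4 ^ ((n + 1) * N) := by
    intro x hx hxm
    have h1 : x < (4 : ℤ) ^ ((n + 1) * N) := by omega
    exact_mod_cast h1
  rcases lt_or_gt_of_ne hm0 with hneg | hpos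
  · refine ⟨-m, by omega, hlt _ (by omega) (neg_le_abs m), hInL _ _ (hsym _ _ hm), ?_⟩
    have := hInL _ _ (hsym _ _ hkL)
    rwa [← mul_neg] at this
  · exact ⟨m, hpos, hlt _ hpos (le_abs_self m), hInL _ _ hm, hInL _ _ hkL⟩

end Pool.Agent.C52.RZ2
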