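import Pool.Agent.Lib.MP_c52340_c5.Defs
import Pool.Agent.Lib.MP_c52340_c5.B2
import Pool.Agent.Lib.MP_c52340_c5.B4
import Pool.Agent.Lib.MP_c52340_c5.B5
import Pool.Agent.Lib.MP_c52340_c5.B6
import Pool.Agent.Lib.MP_c52340_c5.G1
import Pool.Agent.Lib.MP_c52340_c5.G13


set_option autoImplicit false

open Finset

open Pool.Agent.C52.RB2 (B2)
open Pool.Agent.C52.RB4 (B4)
open Pool.Agent.C52.RB5 (B5)
open Pool.Agent.C52.RB6 (B6)
open Pool.Agent.C52.RG1 (G1)
open Pool.Agent.C52.RG13 (G13)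

namespace Pool.Agent.C52.RZ4

private theorem z4_uniq (b : ℕ) (y y' : ℤ) (hy : y ∈ Lset b) (hy' : y' ∈ Lset b)
    (h : (4 : ℤ) ^ b ∣ y - y') : y = y' := by
  have h1 := B2.1 b y hy
  have h2 := B2.1 b y' hy'
  have h3 : |y - y'| < (4 : ℤ) ^ b := by
    have h4 : |y - y'| ≤ |y| + |y'| := abs_sub y y'
    have h5 : (0 : ℤ) < 4 ^ b := by positivity
    omega
  have h6 := Int.eq_zero_of_abs_lt_dvd h h3
  omega

private theorem z4_split (a b : ℕ) (w : ℤ) (hw : w ∈ Lset (a + b)) :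
    ∃ w₁ ∈ Lset a, ∃ w₀ ∈ Lset b, w = 4 ^ b * w₁ + w₀ := by
  have h := B5 a b (fun m => if m = w then (1 : ℕ) else 0)
  rw [Finset.sum_ite_eq' (Lset (a + b)) w (fun _ => 1), if_pos hw] at h
  by_contra hcon
  push Not at hcon
  have h0 : ∑ m₁ ∈ Lset a, ∑ m₀ ∈ Lset b, (if 4 ^ b * m₁ + m₀ = w then (1 : ℕ) else 0) = 0 := by
    apply Finset.sum_eq_zero
    intro m₁ h₁
    apply Finset.sum_eq_zero
    intro m₀ h₀
    rw [if_neg]
    intro he
    exact hcon m₁ h₁ m₀ h₀ he.symm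
  rw [h0] at h
  exact one_ne_zero h

private theorem z4_conv (p : ℝ) (a b : ℕ) (w : ℤ) :
    ∑ y ∈ Lset b, (if (4 : ℤ) ^ b ∣ w - y then wG p b y * wG p a ((w - y) / 4 ^ b) else 0) =
      wG p (a + b) w := by
  have hpos : (4 : ℤ) ^ b ≠ 0 := by positivity
  by_cases hex : ∃ y ∈ Lset b, (4 : ℤ) ^ b ∣ w - y
  · obtain ⟨y, hy, hd⟩ := hex
    rw [Finset.sum_eq_single_of_mem y hy]
    · rw [if_pos hd]
      obtain ⟨c, hc⟩ := hd
      have h1 : (w - y) / 4 ^ b = c := by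
        rw [hc]
        exact Int.mul_ediv_cancel_left c hpos
      have h2 : w = 4 ^ b * c + y := by omega
      rw [h1, h2, B6 p a b c y hy]
      ring
    · intro y' hy' hne
      rw [if_neg]
      intro hd'
      apply hne
      apply z4_uniq b y' y hy' hy
      have h3 : y' - y = (w - y) - (w - y') := by ring
      rw [h3]
      exact dvd_sub hd hd'
  · have h0 : wG p (a + b) w = 0 := by
      by_contra hne
      have hw := B4.2.1 p (a + b) w hne
      obtain ⟨w₁, _, w₀, hw₀, he⟩ := z4_split a b w hw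
      apply hex
      refine ⟨w₀, hw₀, w₁, ?_⟩
      rw [he]
      ring
    rw [h0]
    apply Finset.sum_eq_zero
    intro y hy
    rw [if_neg]
    intro hd
    exact hex ⟨y, hy, hd⟩

private theorem z4_iter (N : ℕ) (k : ℤ) (n : ℕ) (z : ℤ) :
    (Gop k)^[n * N] (fun z => 4 ^ N * wG (1 / 4) N z) z =
      ∑ m ∈ Lset (n * N), (4 / 3 : ℝ) ^ (n * N) * 4 ^ N * wG (1 / 4) (N + n * N) (z + k * m) := by
  rw [G1]
  apply Finset.sum_congr rfl
  intro m _
  rw [← z4_conv (1 / 4) N (n * N) (z + k * m), Finset.mul_sum]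
  apply Finset.sum_congr rfl
  intro y _
  split_ifs with h
  · ring
  · simp

/-- Row Z4.  The quantity `σ`.
Recipe: G13 (first part) with `F = U`, G1 with `h = n N` and `z = hi N k m₀`: the average over `m₀` of
`(4/3)^{nN} ∑_{m,y} [4^{nN} ∣ z + k m - y] wG y * 4^N wG N ((z + k m - y)/4^{nN}) = (4/3)^{nN} 4^N ∑_m wG ((n+1)N) (z + k m)` (B6), and
`hi N k m₀ + k m = round ((k/4^N) (m₀ + 4^N m))` (`round_add_int`), B5 with `a = nN`, `b = N`. -/
theorem Z4 (N : ℕ) (hN : 1 ≤ N) (k : ℤ) (hk : 0 < k) (hk2 : 2 * k < 4 ^ N) (n : ℕ) :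
    avg N ((Qop N k)^[n] (uu N k)) = sig ((n + 1) * N) ((k : ℝ) / 4 ^ N) := by
  have hG := (G13 N hN k hk hk2 (fun z => 4 ^ N * wG (1 / 4) N z) n).1
  have h1 : avg N ((Qop N k)^[n] (uu N k)) =
      (∑ m' ∈ Lset N, ∑ m ∈ Lset (n * N),
        (4 / 3 : ℝ) ^ (n * N) * 4 ^ N * wG (1 / 4) (N + n * N) (hi N k m' + k * m)) / 3 ^ N := by
    unfold avg
    congr 1
    apply Finset.sum_congr rfl
    intro m' hm'
    rw [← z4_iter N k n (hi N k m')]
    exact hG m' hm'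
  rw [h1]
  unfold sig
  have h2 : (n + 1) * N = n * N + N := by ring
  rw [h2, B5 (n * N) N]
  rw [Finset.sum_comm, Finset.mul_sum, Finset.sum_div]
  apply Finset.sum_congr rfl
  intro m hm
  rw [Finset.mul_sum, Finset.sum_div]
  apply Finset.sum_congr rfl
  intro m' hm'
  have h3 : round ((k : ℝ) / 4 ^ N * ((4 ^ N * m + m' : ℤ) : ℝ)) = hi N k m' + k * m := by
    unfold hi
    rw [← round_add_intCast]
    congr 1
    push_cast
    field_simp
    ring
  rw [h3, Nat.add_comm N (n * N), pow_add, pow_add, div_pow, div_pow, div_pow, one_pow, one_pow]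
  field_simp

end Pool.Agent.C52.RZ4
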