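import Pool.Agent.Lib.MP_c52340_c5.Defs


set_option autoImplicit false

open Finset


namespace Pool.Agent.C52.RZ5

private theorem Z5_avg_add (N : ℕ) (f g : ℤ → ℝ) : avg N (f + g) = avg N f + avg N g := by
  unfold avg
  simp only [Pi.add_apply]
  rw [Finset.sum_add_distrib, add_div]

private theorem Z5_avg_smul (N : ℕ) (c : ℝ) (f : ℤ → ℝ) : avg N (c • f) = c * avg N f := by
  unfold avg
  simp only [Pi.smul_apply, smul_eq_mul]
  rw [← Finset.mul_sum, mul_div_assoc]

private theorem Z5_Qop_add (N : ℕ) (k : ℤ) (f g : ℤ → ℝ) :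
    Qop N k (f + g) = Qop N k f + Qop N k g := by
  funext z
  simp only [Qop, Pi.add_apply]
  rw [← Z5_avg_add]
  congr 1
  funext m
  simp only [Pi.add_apply]
  ring

private theorem Z5_Qop_smul (N : ℕ) (k : ℤ) (c : ℝ) (f : ℤ → ℝ) :
    Qop N k (c • f) = c • Qop N k f := by
  funext z
  simp only [Qop, Pi.smul_apply, smul_eq_mul]
  rw [← Z5_avg_smul]
  congr 1
  funext m
  simp only [Pi.smul_apply, smul_eq_mul]
  ring

private noncomputable def Z5_L (N : ℕ) (k : ℤ) : (ℤ → ℝ) →ₗ[ℝ] (ℤ → ℝ) where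
  toFun := Qp N k
  map_add' f g := by
    funext z
    simp only [Qp, Pi.add_apply]
    rw [Z5_Qop_add, Z5_avg_add, Pi.add_apply]
    ring
  map_smul' c f := by
    funext z
    simp only [Qp, Pi.smul_apply, smul_eq_mul, RingHom.id_apply]
    rw [Z5_Qop_smul, Z5_avg_smul, Pi.smul_apply, smul_eq_mul]
    ring

private theorem Z5_dec (N : ℕ) (k : ℤ) (g : ℤ → ℝ) :
    Qop N k g = Z5_L N k g + avg N g • (fun _ => (1 : ℝ)) := by
  funext z
  change Qop N k g z = Qp N k g z + avg N g • (1 : ℝ)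
  simp only [Qp, smul_eq_mul]
  ring

private theorem Z5_iter (N : ℕ) (k : ℤ) (f : ℤ → ℝ) (n : ℕ) :
    (Qop N k)^[n] f = (Qp N k)^[n] f +
      ∑ j ∈ range n, avg N ((Qop N k)^[n - 1 - j] f) • (Qp N k)^[j] (fun _ => 1) := by
  induction n with
  | zero => simp
  | succ n ih =>
    rw [Function.iterate_succ_apply', Z5_dec]
    conv_lhs => rw [ih]
    rw [map_add, map_sum]
    have h1 : Z5_L N k ((Qp N k)^[n] f) = (Qp N k)^[n + 1] f := by
      rw [Function.iterate_succ_apply']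
      rfl
    rw [h1, add_assoc]
    congr 1
    rw [Finset.sum_range_succ']
    congr 1
    · refine Finset.sum_congr rfl (fun j _ => ?_)
      rw [map_smul, Function.iterate_succ_apply']
      have h2 : n + 1 - 1 - (j + 1) = n - 1 - j := by omega
      rw [h2]
      rfl
    · rw [← ih]
      rfl

private theorem Z5_ip_add (N : ℕ) (v f g : ℤ → ℝ) : ip N v (f + g) = ip N v f + ip N v g := by
  unfold ip
  rw [← Z5_avg_add]
  congr 1
  funext m
  simp only [Pi.add_apply]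
  ring

private theorem Z5_ip_smul (N : ℕ) (v f : ℤ → ℝ) (c : ℝ) : ip N v (c • f) = ip N v f * c := by
  unfold ip
  rw [mul_comm, ← Z5_avg_smul]
  congr 1
  funext m
  simp only [Pi.smul_apply, smul_eq_mul]
  ring

private theorem Z5_ip_sum (N : ℕ) (v : ℤ → ℝ) (n : ℕ) (F : ℕ → ℤ → ℝ) :
    ip N v (∑ j ∈ range n, F j) = ∑ j ∈ range n, ip N v (F j) := by
  induction n with
  | zero => simp [ip, avg]
  | succ n ih => rw [Finset.sum_range_succ, Finset.sum_range_succ, Z5_ip_add, ih]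

/-- Row Z5.  Algebra of the decomposition `Qop = avg + Qp`.
Recipe: for linear operators, `Qop f = Qp f + avg f • 1` gives
`Qop^[n] f = Qp^[n] f + ∑_{j<n} avg (Qop^[n-1-j] f) • Qp^[j] 1` by induction; apply `ip vv`. (`Qop`, `Qp`, `avg`, `ip` are linear.) -/
theorem Z5 (N : ℕ) (k : ℤ) (n : ℕ) (f : ℤ → ℝ) :
    ip N (vv N k) ((Qop N k)^[n] f) = ip N (vv N k) ((Qp N k)^[n] f) +
      ∑ j ∈ range n, ip N (vv N k) ((Qp N k)^[j] (fun _ => 1)) * avg N ((Qop N k)^[n - 1 - j] f) := by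
  conv_lhs => rw [Z5_iter]
  rw [Z5_ip_add, Z5_ip_sum]
  congr 1
  refine Finset.sum_congr rfl (fun j _ => ?_)
  rw [Z5_ip_smul]

end Pool.Agent.C52.RZ5
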