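import Pool.Agent.Lib.MP_c52340_c5.DefsS
import Pool.Agent.Lib.MP_c52340_c5.B13
import Pool.Agent.Lib.MP_c52340_c5.U1
import Pool.Agent.Lib.MP_c52340_c5.N7
import Pool.Agent.Lib.MP_c52340_c5.N9
import Pool.Agent.Lib.MP_c52340_c5.N10
import Pool.Agent.Lib.MP_c52340_c5.W11
import Pool.Agent.Lib.MP_c52340_c5.G11
import Pool.Agent.Lib.MP_c52340_c5.R20
import Pool.Agent.Lib.MP_c52340_c5.Z1
import Pool.Agent.Lib.MP_c52340_c5.Z2
import Pool.Agent.Lib.MP_c52340_c5.Z3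
import Pool.Agent.Lib.MP_c52340_c5.Z4
import Pool.Agent.Lib.MP_c52340_c5.Z5
import Pool.Agent.Lib.MP_c52340_c5.E4
import Pool.Agent.Lib.MP_c52340_c5.E5
import Pool.Agent.Lib.MP_c52340_c5.E7
import Pool.Agent.Lib.MP_c52340_c5.O5
import Pool.Agent.Lib.MP_c52340_c5.O9
import Pool.Agent.Lib.MP_c52340_c5.Y1
import Pool.Agent.Lib.MP_c52340_c5.Y2
import Pool.Agent.Lib.MP_c52340_c5.Y3


set_option autoImplicit false

open Finset

open Pool.Agent.C52.RB13 (B13)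
open Pool.Agent.C52.RU1 (U1)
open Pool.Agent.C52.RN7 (N7)
open Pool.Agent.C52.RN9 (N9)
open Pool.Agent.C52.RN10 (N10)
open Pool.Agent.C52.RW11 (W11)
open Pool.Agent.C52.RG11 (G11)
open Pool.Agent.C52.RR20 (R20)
open Pool.Agent.C52.RZ1 (Z1)
open Pool.Agent.C52.RZ2 (Z2)
open Pool.Agent.C52.RZ3 (Z3)
open Pool.Agent.C52.RZ4 (Z4)
open Pool.Agent.C52.RZ5 (Z5)
open Pool.Agent.C52.RE4 (E4)
open Pool.Agent.C52.RE5 (E5)
open Pool.Agent.C52.RE7 (E7)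
open Pool.Agent.C52.RO5 (O5)
open Pool.Agent.C52.RO9 (O9)
open Pool.Agent.C52.RY1 (Y1)
open Pool.Agent.C52.RY2 (Y2)
open Pool.Agent.C52.RY3 (Y3)

namespace Pool.Agent.C52.RY4

private theorem y4_card (N g : ℕ) (hg : g ≤ N) : ((Low N g).card : ℝ) ≤ 4 ^ (g + 1) := by
  have hinj : Set.InjOn (fun c : ℤ => c / 4 ^ (N - g)) (Low N g : Set ℤ) := by
    intro a ha b hb hab
    have ha' : (4 : ℤ) ^ (N - g) ∣ a := (Finset.mem_filter.mp (Finset.mem_coe.mp ha)).2.2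
    have hb' : (4 : ℤ) ^ (N - g) ∣ b := (Finset.mem_filter.mp (Finset.mem_coe.mp hb)).2.2
    have h1 := Int.mul_ediv_cancel' ha'
    have h2 := Int.mul_ediv_cancel' hb'
    have hab' : a / 4 ^ (N - g) = b / 4 ^ (N - g) := hab
    rw [← h1, ← h2, hab']
  have hmap : ∀ c ∈ Low N g, c / 4 ^ (N - g) ∈ Finset.Icc (-(4 ^ g : ℤ)) (4 ^ g) := by
    intro c hc
    have hc1 := (Finset.mem_filter.mp hc).1
    have hc2 := (Finset.mem_filter.mp hc).2.2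
    have hF := Finset.mem_Ioc.mp hc1
    have h1 := Int.mul_ediv_cancel' hc2
    obtain ⟨q, hq⟩ : ∃ q, q = c / 4 ^ (N - g) := ⟨_, rfl⟩
    rw [← hq] at h1 ⊢
    have hpos : (0 : ℤ) < 4 ^ (N - g) := by positivity
    have hsplit : (4 : ℤ) ^ N = 4 ^ (N - g) * 4 ^ g := by
      rw [← pow_add]; congr 1; omega
    have hN0 : (0 : ℤ) < 4 ^ N := by positivity
    have hle : c ≤ 4 ^ N := by omega
    have hge : -(4 ^ N : ℤ) ≤ c := by omega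
    rw [Finset.mem_Icc]
    constructor
    · by_contra hcon
      have : q ≤ -(4 ^ g : ℤ) - 1 := by omega
      nlinarith
    · by_contra hcon
      have : (4 ^ g : ℤ) + 1 ≤ q := by omega
      nlinarith
  have hcard := Finset.card_le_card_of_injOn (fun c : ℤ => c / 4 ^ (N - g)) hmap hinj
  have hIcc : (Finset.Icc (-(4 ^ g : ℤ)) (4 ^ g)).card = 2 * 4 ^ g + 1 := by
    rw [Int.card_Icc]
    have : (4 ^ g : ℤ) + 1 - -(4 ^ g : ℤ) = ((2 * 4 ^ g + 1 : ℕ) : ℤ) := by push_cast; ring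
    rw [this]
    exact Int.toNat_natCast _
  rw [hIcc] at hcard
  have h1 : (1 : ℕ) ≤ 4 ^ g := Nat.one_le_pow _ _ (by norm_num)
  have h2 : (Low N g).card ≤ 4 ^ (g + 1) := by
    rw [pow_succ]; omega
  exact_mod_cast h2

private theorem y4_Xs_nonneg (N : ℕ) (k : ℤ) : 0 ≤ Xs N k :=
  Finset.sum_nonneg (fun _ _ => mul_nonneg
    (B13.2.2.2.2.2.2.2.2.1 pd _ N (by unfold pd; norm_num) (by unfold pd; norm_num)) (abs_nonneg _))

private theorem y4_Ys_nonneg (N : ℕ) (k : ℤ) : 0 ≤ Ys N k := by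
  unfold Ys
  refine mul_nonneg (by positivity) (Finset.sum_nonneg (fun c _ => mul_nonneg (mul_nonneg ?_ ?_) (abs_nonneg _)))
  · unfold bh; positivity
  · exact B13.2.2.2.2.2.2.2.2.1 pd _ N (by unfold pd; norm_num) (by unfold pd; norm_num)

private theorem y4_wt (N : ℕ) (c : ℤ) : 0 ≤ wt N c :=
  B13.2.2.2.2.2.2.2.2.1 (1 / 4) _ N (by norm_num) (by norm_num)

private theorem y4_zR_nonneg (N : ℕ) (k c : ℤ) : 0 ≤ zR N k c := by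
  unfold zR
  refine Finset.sum_nonneg (fun c₂ _ => mul_nonneg (y4_wt N c₂) ?_)
  unfold ov
  refine Finset.sum_nonneg (fun n _ => mul_nonneg ?_ (abs_nonneg _))
  unfold cb
  split_ifs
  · exact zero_le_one
  · positivity

private theorem y4_core (N n g : ℕ) (hN : 2 ≤ N) (hn : 1 ≤ n) (hg : g ≤ N) (k : ℤ) (hko : Odd k)
    (hk : 0 < k) (hk2 : 2 * k < 4 ^ N) (η η' ζ t K D δ₂ δ₃ B₃ : ℝ) (h0 : 0 < η) (h1 : η < 1)
    (hη' : 0 < η') (hN10 : ∀ x : ℝ, GG (1 / 4) N x ≤ η ^ N → GG (1 / 4) N x ≤ η' ^ N * GG pd N x)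
    (hX : Xs N k ≤ K) (hY : Ys N k ≤ K) (hD : (2 * K + 2) ^ (n + 2) ≤ D) (hζ0 : 0 ≤ ζ)
    (hζ : ∀ c ∈ Low N g, zL N k c ≤ ζ)
    (he1 : ∑ c ∈ Ths N η \ Low N g, wt N c * zR N k c ≤ t) (ht1 : t ≤ 1) (hXh : Xh N g k ≤ t)
    (he2 : 4 ^ (g + 1) * (ζ / η ^ N) ≤ 1) (he3 : ((Ths N η).card : ℝ) * (4 ^ (g + 1) * (ζ / η ^ N)) ≤ 1)
    (hδ₂ : 0 < δ₂) (hδ₂' : δ₂ ≤ gk k N 0) (hδ₃ : 0 < δ₃)
    (hsig : ∀ m ≤ n, δ₃ ≤ sig ((m + 1) * N) ((k : ℝ) / 4 ^ N) ∧ sig ((m + 1) * N) ((k : ℝ) / 4 ^ N) ≤ B₃)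
    (hfin : (2 : ℝ) ^ N * (2 / 3) ^ ((n + 1) * N) + 4 ^ N * (η' ^ N * (K * K + 1)) ^ n +
      n * (2 * D + 3) ^ n * D ^ 2 * (t + (2 + ((Ths N η).card : ℝ)) * (4 ^ (g + 1) * (ζ / η ^ N))) +
      n * (D * (4 ^ (g + 1) * ζ + t) * B₃) < δ₂ * δ₃) :
    HasMult k (4 ^ ((n + 1) * N)) := by
  have hN1 : 1 ≤ N := by omega
  have hX0 := y4_Xs_nonneg N k
  have hY0 := y4_Ys_nonneg N k
  have hK0 : 0 ≤ K := le_trans hX0 hX
  have hBd : Bd N k n ≤ D := by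
    unfold Bd
    refine le_trans (pow_le_pow_left₀ (by linarith) ?_ _) hD
    linarith
  have hBd1 : 1 ≤ Bd N k n := (O5 N hN k hk hk2 n).1
  have hD1 : 1 ≤ D := le_trans hBd1 hBd
  have ht0 : 0 ≤ t := le_trans (Finset.sum_nonneg (fun c _ => mul_nonneg (y4_wt N c) (y4_zR_nonneg N k c))) he1
  have hηN : 0 < η ^ N := pow_pos h0 N
  have hB₃ : 0 ≤ B₃ := le_trans hδ₃.le (le_trans (hsig 0 (Nat.zero_le _)).1 (hsig 0 (Nat.zero_le _)).2)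
  -- the first term
  have hfirst : |ip N (vv N k) ((Qp N k)^[n] (uu N k))| ≤ 4 ^ N * (η' ^ N * (K * K + 1)) ^ n +
      n * (2 * D + 3) ^ n * D ^ 2 * (t + (2 + ((Ths N η).card : ℝ)) * (4 ^ (g + 1) * (ζ / η ^ N))) := by
    have e1 := Y3 N hN k hk hk2 n (uu N k)
    have e2 : |ip N (vv N k) ((Qp N k)^[n] (uu N k))| =
        ‖VL N k (((QL N k ((Fr N).erase 0)) ^ n) (uC N k))‖ := by
      have e3 : VL N k (((QL N k ((Fr N).erase 0)) ^ n) (uC N k)) =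
          ((ip N (vv N k) ((Qp N k)^[n] (uu N k)) : ℝ) : ℂ) := e1.symm
      rw [e3, Complex.norm_real, Real.norm_eq_abs]
    rw [e2]
    refine le_trans (Y1 N g n hN hg k hko hk hk2 η ζ t h0 h1 hζ0 hζ he1 ht1 he2 he3) ?_
    refine add_le_add ?_ ?_
    · refine le_trans (O9 N hN k hk hk2 η η' hη' hN10 n) ?_
      refine mul_le_mul_of_nonneg_left ?_ (by positivity)
      refine pow_le_pow_left₀ (by positivity) ?_ _
      refine mul_le_mul_of_nonneg_left ?_ (by positivity)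
      have := mul_le_mul hX hY hY0 hK0
      linarith
    · have e4 : 0 ≤ t + (2 + ((Ths N η).card : ℝ)) * (4 ^ (g + 1) * (ζ / η ^ N)) := by positivity
      refine mul_le_mul_of_nonneg_right ?_ e4
      have e5 : (2 * Bd N k n + 3) ^ n ≤ (2 * D + 3) ^ n := pow_le_pow_left₀ (by linarith) (by linarith) _
      have e6 : (Bd N k n) ^ 2 ≤ D ^ 2 := pow_le_pow_left₀ (by linarith) hBd _
      have e7 : (n : ℝ) * (2 * Bd N k n + 3) ^ n ≤ n * (2 * D + 3) ^ n :=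
        mul_le_mul_of_nonneg_left e5 (Nat.cast_nonneg n)
      exact mul_le_mul e7 e6 (by positivity) (by positivity)
  -- the coefficients
  set x : ℕ → ℝ := fun j => ip N (vv N k) ((Qp N k)^[j] (fun _ => 1)) with hx
  have hxs : ∀ j, 1 ≤ j → j ≤ n → |x j| ≤ D * (4 ^ (g + 1) * ζ + t) := by
    intro j hj hjn
    have e1 := Y3 N hN k hk hk2 j (fun _ => 1)
    have e2 : |x j| = ‖VL N k (((QL N k ((Fr N).erase 0)) ^ j) (fun _ => 1))‖ := by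
      have e3 : VL N k (((QL N k ((Fr N).erase 0)) ^ j) (fun _ => 1)) = ((x j : ℝ) : ℂ) := by
        rw [hx]
        simp only
        rw [e1, Complex.ofReal_one]
      rw [e3, Complex.norm_real, Real.norm_eq_abs]
    rw [e2]
    refine le_trans (Y2 N g n hN hg k hko hk hk2 j hj hjn) ?_
    have e4 : ∑ c ∈ Low N g, zL N k c ≤ 4 ^ (g + 1) * ζ := by
      have e5 := Finset.sum_le_sum hζ
      rw [Finset.sum_const, nsmul_eq_mul] at e5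
      exact le_trans e5 (mul_le_mul_of_nonneg_right (y4_card N g hg) hζ0)
    have e6 : 0 ≤ 4 ^ (g + 1) * ζ + t := by positivity
    calc Bd N k n * (∑ c ∈ Low N g, zL N k c + Xh N g k) ≤ Bd N k n * (4 ^ (g + 1) * ζ + t) :=
          mul_le_mul_of_nonneg_left (add_le_add e4 hXh) (by linarith)
      _ ≤ D * (4 ^ (g + 1) * ζ + t) := mul_le_mul_of_nonneg_right hBd e6
  have hx0 : δ₂ ≤ x 0 := by
    have e1 := (Z3 N hN1 k hk hk2 0).1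
    rw [Function.iterate_zero, id_eq, zero_add, one_mul] at e1
    change δ₂ ≤ ip N (vv N k) ((Qp N k)^[0] (fun _ => 1))
    rw [Function.iterate_zero, id_eq, e1]
    exact hδ₂'
  have hsig' : ∀ m ≤ n, δ₃ ≤ avg N ((Qop N k)^[m] (uu N k)) ∧ avg N ((Qop N k)^[m] (uu N k)) ≤ B₃ := by
    intro m hm
    rw [Z4 N hN1 k hk hk2 m]
    exact hsig m hm
  have h7 := Z5 N k n (uu N k)
  have h10 : δ₂ * δ₃ - n * (D * (4 ^ (g + 1) * ζ + t) * B₃) ≤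
      ∑ j ∈ range n, x j * avg N ((Qop N k)^[n - 1 - j] (uu N k)) := by
    obtain ⟨L, hL⟩ : ∃ L, n = L + 1 := ⟨n - 1, by omega⟩
    rw [hL, Finset.sum_range_succ', ← hL]
    have h11 : δ₂ * δ₃ ≤ x 0 * avg N ((Qop N k)^[n - 1 - 0] (uu N k)) :=
      mul_le_mul hx0 (hsig' _ (by omega)).1 hδ₃.le (hδ₂.le.trans hx0)
    have h12 : ∀ j ∈ range L, -(D * (4 ^ (g + 1) * ζ + t) * B₃) ≤
        x (j + 1) * avg N ((Qop N k)^[n - 1 - (j + 1)] (uu N k)) := by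
      intro j hj
      rw [Finset.mem_range] at hj
      have h13 := hxs (j + 1) (by omega) (by omega)
      have h14 := hsig' (n - 1 - (j + 1)) (by omega)
      have h15 : |x (j + 1) * avg N ((Qop N k)^[n - 1 - (j + 1)] (uu N k))| ≤
          D * (4 ^ (g + 1) * ζ + t) * B₃ := by
        rw [abs_mul]
        refine mul_le_mul h13 ?_ (abs_nonneg _) (by positivity)
        rw [abs_of_nonneg (hδ₃.le.trans h14.1)]
        exact h14.2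
      exact (abs_le.1 h15).1
    have h16 := Finset.sum_le_sum h12
    rw [Finset.sum_const, Finset.card_range, nsmul_eq_mul] at h16
    have h17 : ((L : ℝ)) ≤ ((n : ℕ) : ℝ) := by exact_mod_cast (by omega : L ≤ n)
    have h18 : (0 : ℝ) ≤ D * (4 ^ (g + 1) * ζ + t) * B₃ := by positivity
    have h19 := mul_le_mul_of_nonneg_right h17 h18
    linarith
  have h20 : (2 : ℝ) ^ N * (2 / 3) ^ ((n + 1) * N) < ip N (vv N k) ((Qop N k)^[n] (uu N k)) := by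
    rw [h7]
    have h22 := (abs_le.1 hfirst).1
    have h23 : ∑ j ∈ range n, ip N (vv N k) ((Qp N k)^[j] (fun _ => 1)) *
        avg N ((Qop N k)^[n - 1 - j] (uu N k)) =
        ∑ j ∈ range n, x j * avg N ((Qop N k)^[n - 1 - j] (uu N k)) := rfl
    rw [h23]
    linarith
  rw [Z1 N hN1 k hk hk2 n] at h20
  exact Z2 N k n h20

private theorem y4_pow (N : ℕ) : (4 : ℝ) ^ (N / 10000) ≤ (1.00014 : ℝ) ^ N := by
  have h1 : (4 : ℝ) ≤ (1.00014 : ℝ) ^ 10000 := by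
    have e1 : (1.014 : ℝ) ≤ (1.00014 : ℝ) ^ 100 := by
      have := one_add_mul_le_pow (show (-2 : ℝ) ≤ 0.00014 by norm_num) 100
      norm_num at this ⊢
    have e2 : (4 : ℝ) ≤ (1.014 : ℝ) ^ 100 := by norm_num
    calc (4 : ℝ) ≤ (1.014 : ℝ) ^ 100 := e2
      _ ≤ ((1.00014 : ℝ) ^ 100) ^ 100 := pow_le_pow_left₀ (by norm_num) e1 _
      _ = (1.00014 : ℝ) ^ 10000 := by rw [← pow_mul]
  calc (4 : ℝ) ^ (N / 10000) ≤ ((1.00014 : ℝ) ^ 10000) ^ (N / 10000) :=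
        pow_le_pow_left₀ (by norm_num) h1 _
    _ = (1.00014 : ℝ) ^ (10000 * (N / 10000)) := by rw [← pow_mul]
    _ ≤ (1.00014 : ℝ) ^ N := pow_le_pow_right₀ (by norm_num) (Nat.mul_div_le N 10000)

/-- the constant `12 ρ^N` bounds everything -/
private theorem y4_small (N : ℕ) (η c : ℝ) (hη : 0.9999 ≤ η) (_ : 0 ≤ c) (hc : c ≤ (1.00005 : ℝ) ^ N) :
    (2 + c) * (4 ^ (N / 10000 + 1) * ((0.9986 : ℝ) ^ N / η ^ N)) ≤ 12 * (0.9989 : ℝ) ^ N := by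
  have hηN : (0.9999 : ℝ) ^ N ≤ η ^ N := pow_le_pow_left₀ (by norm_num) hη N
  have hpos : (0 : ℝ) < (0.9999 : ℝ) ^ N := by positivity
  have h1 : (0.9986 : ℝ) ^ N / η ^ N ≤ (0.9986 : ℝ) ^ N / (0.9999 : ℝ) ^ N :=
    div_le_div_of_nonneg_left (by positivity) hpos hηN
  have h2 := y4_pow N
  have h3 : 2 + c ≤ 3 * (1.00005 : ℝ) ^ N := by
    have : (1 : ℝ) ≤ (1.00005 : ℝ) ^ N := one_le_pow₀ (by norm_num)
    linarith
  have hηN0 : 0 < η ^ N := lt_of_lt_of_le hpos hηN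
  have h4 : (4 : ℝ) ^ (N / 10000 + 1) ≤ 4 * (1.00014 : ℝ) ^ N := by
    rw [pow_succ]; linarith
  calc (2 + c) * (4 ^ (N / 10000 + 1) * ((0.9986 : ℝ) ^ N / η ^ N))
      ≤ (3 * (1.00005 : ℝ) ^ N) * ((4 * (1.00014 : ℝ) ^ N) * ((0.9986 : ℝ) ^ N / (0.9999 : ℝ) ^ N)) := by
        refine mul_le_mul h3 ?_ (by positivity) (by positivity)
        exact mul_le_mul h4 h1 (by positivity) (by positivity)
    _ = 12 * (1.00005 * 1.00014 * 0.9986 / 0.9999 : ℝ) ^ N := by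
        rw [div_pow, mul_pow, mul_pow]; ring
    _ ≤ 12 * (0.9989 : ℝ) ^ N := by
        refine mul_le_mul_of_nonneg_left ?_ (by norm_num)
        exact pow_le_pow_left₀ (by norm_num) (by norm_num) N

/-- Row Y4.  The strong window theorem: the exponent does not depend on `ε`.
Recipe.  Fix `η := max η₀ (E7), 0.9999, η₁` (W11 with `σ = 1.00005`), `η'` from N10, `n ≥ 1` with `4 η'^n ≤ 1/2`; `R = n + 1`.  Given `ε, b`: outside a set of proportion `ε` (and for large `N`):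
`Xs, Ys ≤ K` (N7, N9, U1); `δ₂ ≤ gk k N 0 ≤ B₂` (G11, G7); `δ₃ ≤ sig ((m+1) N) ≤ B₃` for `m ≤ n` (R20); `ζ = 0.9986^N` (E4), so `4^(g+1) ζ/η^N` times `card (Ths) ≤ 1.00005^N` is tiny (`g = N/10000`);
`ε₁ ≤ t` (E7, Markov, any fixed `t`); `Xh ≤ t` (E5, Markov).  Z5: `ip vv (Qop^[n] uu) = ip vv (Qp^[n] uu) + ∑_{j<n} ip vv (Qp^[j] 1) * avg (Qop^[n-1-j] uu)`; `j = 0`: `ip vv 1 = gk k N 0` (Z3),
`avg (Qop^[m] uu) = sig ((m+1) N)` (Z4); `j ≥ 1`: Y2, Y3; the first term: Y1, O9 (`≤ 4^N η'^(nN) (K²+1)^n`), Y3.  Total `≥ δ₂ δ₃/2 > 2^N (2/3)^((n+1)N)`; Z1, Z2. -/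
theorem Y4 : ∃ R : ℕ, ∀ ε b : ℝ, 0 < ε → 0 < b → b ≤ 1 / 4 → ∃ N₀ : ℕ, ∀ N ≥ N₀,
    bad N (fun k => InR N k → (k : ℝ) ≤ (1 / 2 - b) * 4 ^ N → HasMult k (4 ^ (R * N))) ≤ ε := by
  obtain ⟨η₀, hη₀0, hη₀1, hE7⟩ := E7
  obtain ⟨η₁, hη₁0, hη₁1, hW11⟩ := W11 1.00005 (by norm_num)
  obtain ⟨η, hη⟩ : ∃ η : ℝ, η = max (max η₀ η₁) 0.9999 := ⟨_, rfl⟩
  have hηa : η₀ ≤ η := by rw [hη]; exact le_trans (le_max_left _ _) (le_max_left _ _)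
  have hηb : η₁ ≤ η := by rw [hη]; exact le_trans (le_max_right _ _) (le_max_left _ _)
  have hηc : 0.9999 ≤ η := by rw [hη]; exact le_max_right _ _
  have hη1 : η < 1 := by rw [hη]; exact max_lt (max_lt hη₀1 hη₁1) (by norm_num)
  have hη0 : 0 < η := lt_of_lt_of_le (by norm_num) hηc
  clear hη
  obtain ⟨η', hη'0, hη'1, hN10⟩ := N10 η hη0 hη1
  obtain ⟨n₀, hn₀⟩ := exists_pow_lt_of_lt_one (show (0 : ℝ) < 1 / 8 by norm_num) hη'1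
  obtain ⟨n, hnn⟩ : ∃ n, n = n₀ + 1 := ⟨_, rfl⟩
  have hn1 : 1 ≤ n := by omega
  have hη'n : η' ^ n ≤ 1 / 8 := by
    rw [hnn, pow_succ]
    have : η' ^ n₀ * η' ≤ η' ^ n₀ * 1 := mul_le_mul_of_nonneg_left hη'1.le (by positivity)
    linarith
  clear hnn
  refine ⟨n + 1, fun ε b hε hb hb' => ?_⟩
  have hε7 : 0 < ε / 7 := by positivity
  obtain ⟨C₁, hC₁, hN7⟩ := N7
  obtain ⟨C₂, hC₂, hN9⟩ := N9
  obtain ⟨K, hK⟩ : ∃ K : ℝ, K = C₁ / (ε / 7) + C₂ / (ε / 7) := ⟨_, rfl⟩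
  have hC₁' : 0 < C₁ / (ε / 7) := by positivity
  have hC₂' : 0 < C₂ / (ε / 7) := by positivity
  have hK0 : 0 < K := by rw [hK]; positivity
  have hKa : C₁ / K ≤ ε / 7 := by
    rw [div_le_iff₀ hK0, hK]
    have e1 : ε / 7 * (C₁ / (ε / 7)) = C₁ := by field_simp
    nlinarith
  have hKb : C₂ / K ≤ ε / 7 := by
    rw [div_le_iff₀ hK0, hK]
    have e1 : ε / 7 * (C₂ / (ε / 7)) = C₂ := by field_simp
    nlinarith
  clear hK
  obtain ⟨δ₂, hδ₂, N₃, hG11⟩ := G11 (ε / 7) hε7 1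
  obtain ⟨δ₃, B₃, hδ₃, hB₃, N₄, hR20⟩ := R20 (ε / 7) b hε7 hb hb' n
  obtain ⟨N₅, hE4⟩ := E4 (ε / 7) hε7
  obtain ⟨D, hD⟩ : ∃ D : ℝ, D = (2 * K + 2) ^ (n + 2) := ⟨_, rfl⟩
  have hD0 : 0 < D := by rw [hD]; positivity
  obtain ⟨M, hM⟩ : ∃ M : ℝ, M = n * (2 * D + 3) ^ n * D ^ 2 + n * (D * B₃) := ⟨_, rfl⟩
  have hM0 : 0 ≤ M := by rw [hM]; positivity
  have hδ : 0 < δ₂ * δ₃ := mul_pos hδ₂ hδ₃
  obtain ⟨t, ht0, ht1, htM⟩ : ∃ t : ℝ, 0 < t ∧ t ≤ 1 ∧ M * t ≤ δ₂ * δ₃ / 4 := by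
    refine ⟨min 1 (δ₂ * δ₃ / 4 / (M + 1)), ?_, min_le_left _ _, ?_⟩
    · exact lt_min one_pos (by positivity)
    · calc M * min 1 (δ₂ * δ₃ / 4 / (M + 1)) ≤ (M + 1) * (δ₂ * δ₃ / 4 / (M + 1)) :=
            mul_le_mul (by linarith) (min_le_right _ _) (le_min zero_le_one (by positivity)) (by positivity)
        _ = δ₂ * δ₃ / 4 := by field_simp
  obtain ⟨N₆, hE7'⟩ := hE7 η hηa hη1 (t * (ε / 7)) (by positivity)
  obtain ⟨C₅, hC₅, hE5⟩ := E5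
  have hqq1 : qq < 1 := by unfold qq; norm_num
  have hqq0 : 0 < qq := by unfold qq; norm_num
  obtain ⟨G, hG⟩ := exists_pow_lt_of_lt_one (show 0 < t * (ε / 7) / C₅ by positivity) hqq1
  -- small quantities
  have hq0 : (0 : ℝ) ≤ 2 * (2 / 3) ^ (n + 1) := by positivity
  have hq1 : 2 * (2 / 3 : ℝ) ^ (n + 1) < 1 := by
    have h1 : (2 / 3 : ℝ) ^ (n + 1) ≤ (2 / 3) ^ 2 :=
      pow_le_pow_of_le_one (by norm_num) (by norm_num) (by omega)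
    have h2 : (2 / 3 : ℝ) ^ 2 = 4 / 9 := by norm_num
    linarith
  have lim1 : Filter.Tendsto (fun N : ℕ => 12 * (0.9989 : ℝ) ^ N) Filter.atTop (nhds (12 * 0)) :=
    (tendsto_pow_atTop_nhds_zero_of_lt_one (by norm_num) (by norm_num)).const_mul 12
  have lim2 : Filter.Tendsto (fun N : ℕ => (2 * (2 / 3 : ℝ) ^ (n + 1)) ^ N + (1 / 2 : ℝ) ^ N * (K * K + 1) ^ n +
      M * (12 * (0.9989 : ℝ) ^ N)) Filter.atTop (nhds (0 + 0 * (K * K + 1) ^ n + M * (12 * 0))) :=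
    ((tendsto_pow_atTop_nhds_zero_of_lt_one hq0 hq1).add
      ((tendsto_pow_atTop_nhds_zero_of_lt_one (by norm_num) (by norm_num)).mul_const _)).add
      (lim1.const_mul M)
  have ev1 : ∀ᶠ N : ℕ in Filter.atTop, 12 * (0.9989 : ℝ) ^ N < 1 :=
    lim1.eventually (gt_mem_nhds (by norm_num))
  have ev2 : ∀ᶠ N : ℕ in Filter.atTop, (2 * (2 / 3 : ℝ) ^ (n + 1)) ^ N + (1 / 2 : ℝ) ^ N * (K * K + 1) ^ n +
      M * (12 * (0.9989 : ℝ) ^ N) < δ₂ * δ₃ / 2 := by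
    refine lim2.eventually (gt_mem_nhds ?_)
    have : 0 < δ₂ * δ₃ / 2 := by positivity
    simpa using this
  obtain ⟨N₇, hN₇⟩ := Filter.eventually_atTop.1 (ev1.and ev2)
  refine ⟨N₃ + N₄ + N₅ + N₆ + N₇ + 10000 * G + 2, fun N hN => ?_⟩
  have hN2 : 2 ≤ N := by omega
  have hN1 : 1 ≤ N := by omega
  obtain ⟨hs1, hs2⟩ := hN₇ N (by omega)
  obtain ⟨g, hg⟩ : ∃ g, g = N / 10000 := ⟨_, rfl⟩
  have hgN : g ≤ N := by rw [hg]; exact Nat.div_le_self _ _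
  have hGg : G ≤ g := by rw [hg]; omega
  have hcard := hW11 η hηb hη1 N hN1
  have hsmall := y4_small N η ((Ths N η).card : ℝ) hηc (Nat.cast_nonneg _) hcard
  rw [← hg] at hsmall
  have hz0 : 0 ≤ 4 ^ (g + 1) * ((0.9986 : ℝ) ^ N / η ^ N) := by positivity
  have hc0 : (0 : ℝ) ≤ ((Ths N η).card : ℝ) := Nat.cast_nonneg _
  have hz1 : 4 ^ (g + 1) * ((0.9986 : ℝ) ^ N / η ^ N) ≤ 12 * (0.9989 : ℝ) ^ N := by nlinarith
  have hz2 : ((Ths N η).card : ℝ) * (4 ^ (g + 1) * ((0.9986 : ℝ) ^ N / η ^ N)) ≤ 12 * (0.9989 : ℝ) ^ N := by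
    nlinarith
  have hz3 : 4 ^ (g + 1) * (0.9986 : ℝ) ^ N ≤ 12 * (0.9989 : ℝ) ^ N := by
    refine le_trans (mul_le_mul_of_nonneg_left ?_ (by positivity)) hz1
    rw [le_div_iff₀ (pow_pos hη0 N)]
    exact mul_le_of_le_one_right (by positivity) (pow_le_one₀ hη0.le hη1.le)
  -- the union bound
  have key : ∀ k ∈ Odds N,
      ((((((Xs N k ≤ K) ∧ (Ys N k ≤ K)) ∧
        (∀ H, N ≤ H → H ≤ 1 * N → δ₂ ≤ gk k H 0)) ∧
        (InR N k → (k : ℝ) ≤ (1 / 2 - b) * 4 ^ N → ∀ m ≤ n,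
          δ₃ ≤ sig ((m + 1) * N) ((k : ℝ) / 4 ^ N) ∧ sig ((m + 1) * N) ((k : ℝ) / 4 ^ N) ≤ B₃)) ∧
        (∀ c ∈ Low N (N / 10000), zL N k c ≤ (0.9986 : ℝ) ^ N)) ∧
        (∑ c ∈ Ths N η \ Low N (N / 10000), wt N c * zR N k c ≤ t)) ∧
        (Xh N g k ≤ t) →
      (InR N k → (k : ℝ) ≤ (1 / 2 - b) * 4 ^ N → HasMult k (4 ^ ((n + 1) * N))) := by
    rintro k hkO ⟨⟨⟨⟨⟨⟨h1, h2⟩, h3⟩, h4⟩, h5⟩, h6⟩, h7⟩ hIn hkb
    rw [← hg] at h5 h6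
    have h4 := h4 hIn hkb
    have hk2 : 2 * k < 4 ^ N := hIn.2
    have hk : 0 < k := by
      have h7 : (0 : ℤ) < 4 ^ N := by positivity
      have h8 := hIn.1
      omega
    have hko : Odd k := (Finset.mem_filter.mp hkO).2
    refine y4_core N n g hN2 hn1 hgN k hko hk hk2 η η' ((0.9986 : ℝ) ^ N) t K D δ₂ δ₃ B₃ hη0 hη1 hη'0
      (fun x => (hN10 N x).2) h1 h2 (le_of_eq hD.symm) (by positivity) h5 h6 ht1 h7
      (le_trans hz1 hs1.le) (le_trans hz2 hs1.le) hδ₂ (h3 N le_rfl (by omega)) hδ₃ h4 ?_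
    have e1 : (2 : ℝ) ^ N * (2 / 3) ^ ((n + 1) * N) = (2 * (2 / 3 : ℝ) ^ (n + 1)) ^ N := by
      rw [mul_pow, pow_mul]
    have e2 : (4 : ℝ) ^ N * (η' ^ N * (K * K + 1)) ^ n ≤ (1 / 2 : ℝ) ^ N * (K * K + 1) ^ n := by
      rw [mul_pow, ← mul_assoc]
      refine mul_le_mul_of_nonneg_right ?_ (by positivity)
      rw [← pow_mul, mul_comm N n, pow_mul, ← mul_pow]
      exact pow_le_pow_left₀ (by positivity) (by linarith) N
    have e3 : (n : ℝ) * (2 * D + 3) ^ n * D ^ 2 *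
        (t + (2 + ((Ths N η).card : ℝ)) * (4 ^ (g + 1) * ((0.9986 : ℝ) ^ N / η ^ N))) ≤
        (n : ℝ) * (2 * D + 3) ^ n * D ^ 2 * (t + 12 * (0.9989 : ℝ) ^ N) :=
      mul_le_mul_of_nonneg_left (by linarith) (by positivity)
    have e4 : (n : ℝ) * (D * (4 ^ (g + 1) * (0.9986 : ℝ) ^ N + t) * B₃) ≤
        (n : ℝ) * (D * B₃) * (t + 12 * (0.9989 : ℝ) ^ N) := by
      have e5 : (n : ℝ) * (D * (4 ^ (g + 1) * (0.9986 : ℝ) ^ N + t) * B₃) =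
          (n : ℝ) * (D * B₃) * (4 ^ (g + 1) * (0.9986 : ℝ) ^ N + t) := by ring
      rw [e5]
      exact mul_le_mul_of_nonneg_left (by linarith) (by positivity)
    have e6 : (n : ℝ) * (2 * D + 3) ^ n * D ^ 2 * (t + 12 * (0.9989 : ℝ) ^ N) +
        (n : ℝ) * (D * B₃) * (t + 12 * (0.9989 : ℝ) ^ N) = M * t + M * (12 * (0.9989 : ℝ) ^ N) := by
      rw [hM]; ring
    rw [e1]
    linarith
  have e1 := U1.1 N _ _ key
  refine e1.trans ?_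
  refine (U1.2.1 N _ _).trans ?_
  have a1 := U1.2.1 N (fun k => (((((Xs N k ≤ K) ∧ (Ys N k ≤ K)) ∧
        (∀ H, N ≤ H → H ≤ 1 * N → δ₂ ≤ gk k H 0)) ∧
        (InR N k → (k : ℝ) ≤ (1 / 2 - b) * 4 ^ N → ∀ m ≤ n,
          δ₃ ≤ sig ((m + 1) * N) ((k : ℝ) / 4 ^ N) ∧ sig ((m + 1) * N) ((k : ℝ) / 4 ^ N) ≤ B₃)) ∧
        (∀ c ∈ Low N (N / 10000), zL N k c ≤ (0.9986 : ℝ) ^ N)))
        (fun k => ∑ c ∈ Ths N η \ Low N (N / 10000), wt N c * zR N k c ≤ t)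
  have a2 := U1.2.1 N (fun k => ((((Xs N k ≤ K) ∧ (Ys N k ≤ K)) ∧
        (∀ H, N ≤ H → H ≤ 1 * N → δ₂ ≤ gk k H 0)) ∧
        (InR N k → (k : ℝ) ≤ (1 / 2 - b) * 4 ^ N → ∀ m ≤ n,
          δ₃ ≤ sig ((m + 1) * N) ((k : ℝ) / 4 ^ N) ∧ sig ((m + 1) * N) ((k : ℝ) / 4 ^ N) ≤ B₃)))
        (fun k => ∀ c ∈ Low N (N / 10000), zL N k c ≤ (0.9986 : ℝ) ^ N)
  have a3 := U1.2.1 N (fun k => (((Xs N k ≤ K) ∧ (Ys N k ≤ K)) ∧
        (∀ H, N ≤ H → H ≤ 1 * N → δ₂ ≤ gk k H 0)))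
        (fun k => InR N k → (k : ℝ) ≤ (1 / 2 - b) * 4 ^ N → ∀ m ≤ n,
          δ₃ ≤ sig ((m + 1) * N) ((k : ℝ) / 4 ^ N) ∧ sig ((m + 1) * N) ((k : ℝ) / 4 ^ N) ≤ B₃)
  have a4 := U1.2.1 N (fun k => (Xs N k ≤ K) ∧ (Ys N k ≤ K))
        (fun k => ∀ H, N ≤ H → H ≤ 1 * N → δ₂ ≤ gk k H 0)
  have a5 := U1.2.1 N (fun k => Xs N k ≤ K) (fun k => Ys N k ≤ K)
  have f1 := (U1.2.2.1 N (fun k => Xs N k) C₁ K (fun k _ => y4_Xs_nonneg N k) hK0 (hN7 N)).trans hKa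
  have f2 := (U1.2.2.1 N (fun k => Ys N k) C₂ K (fun k _ => y4_Ys_nonneg N k) hK0 (hN9 N)).trans hKb
  have f3 := hG11 N (by omega)
  have f4 := hR20 N (by omega)
  have f5 := hE4 N (by omega)
  have f6 := U1.2.2.1 N (fun k => ∑ c ∈ Ths N η \ Low N (N / 10000), wt N c * zR N k c) (t * (ε / 7)) t
    (fun k _ => Finset.sum_nonneg (fun c _ => mul_nonneg (y4_wt N c) (y4_zR_nonneg N k c))) ht0
    (hE7' N (by omega))
  have f6' : t * (ε / 7) / t = ε / 7 := by field_simp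
  rw [f6'] at f6
  have f7 := U1.2.2.1 N (fun k => Xh N g k) (C₅ * qq ^ g) t
    (fun k _ => Finset.sum_nonneg (fun c _ => mul_nonneg (y4_wt N c) (abs_nonneg _))) ht0
    (by
      have := hE5 N g hN1 hgN
      linarith)
  have f7' : C₅ * qq ^ g / t ≤ ε / 7 := by
    have g1 : qq ^ g ≤ qq ^ G := pow_le_pow_of_le_one hqq0.le hqq1.le hGg
    rw [div_le_iff₀ ht0]
    rw [lt_div_iff₀ hC₅] at hG
    nlinarith
  have f7'' := f7.trans f7'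
  linarith

end Pool.Agent.C52.RY4
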