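import Pool.Agent.Lib.MP_c52340_c5.Defs
import Pool.Agent.Lib.MP_c52340_c5.G13


set_option autoImplicit false

open Finset

open Pool.Agent.C52.RG13 (G13)

namespace Pool.Agent.C52.RZ3

/-- Row Z3.  The quantities `τ` and `s`.
Recipe: G13 with `F = 1`. -/
theorem Z3 (N : ℕ) (hN : 1 ≤ N) (k : ℤ) (hk : 0 < k) (hk2 : 2 * k < 4 ^ N) (n : ℕ) :
    ip N (vv N k) ((Qop N k)^[n] (fun _ => 1)) = gk k ((n + 1) * N) 0 ∧
    avg N ((Qop N k)^[n] (fun _ => 1)) = avg N (fun m => gk k (n * N) (hi N k m)) := by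
  have h := G13 N hN k hk hk2 (fun _ => 1) n
  refine ⟨h.2, ?_⟩
  unfold avg
  congr 1
  exact Finset.sum_congr rfl (fun m hm => h.1 m hm)

end Pool.Agent.C52.RZ3
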