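import Pool.Agent.Lib.MP_c52340_c5.Defs


set_option autoImplicit false

open Finset


namespace Pool.Agent.C52.RZ6

/-- Row Z6.  A lemma on sequences.
Recipe: `x n = t n - ∑_{i<n} x i * s (n-1-i)`; subtract the identities for `n` and `n - 1`; strong induction on `n ≤ n₁`:
`|x n| ≤ |t n - t (n-1)| + |x (n-1)| |1 - s 0| + ∑_{i<n-1} |x i| |s (n-1-i) - s (n-2-i)|... ≤ C_n ϵ (B + 1)`. -/
theorem Z6 (n₁ : ℕ) (B : ℝ) (hB : 0 ≤ B) : ∃ C : ℝ, 0 < C ∧ ∀ (x t s : ℕ → ℝ) (ϵ : ℝ), 0 ≤ ϵ → ϵ ≤ 1 →
    (∀ n ≤ n₁, t n = x n + ∑ i ∈ range n, x i * s (n - 1 - i)) → (∀ n ≤ n₁, |s n - 1| ≤ ϵ) →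
    (∀ n < n₁, |t (n + 1) - t n| ≤ ϵ) → |t 0| ≤ B → ∀ n, 1 ≤ n → n ≤ n₁ → |x n| ≤ C * ϵ := by
  obtain ⟨K, hK⟩ : ∃ K : ℝ, K = 2 * (n₁ : ℝ) + 2 := ⟨_, rfl⟩
  have hK1 : 1 ≤ K := by
    have : (0 : ℝ) ≤ (n₁ : ℝ) := Nat.cast_nonneg n₁
    linarith
  refine ⟨(B + 1) * K ^ n₁, by positivity, ?_⟩
  intro x t s ϵ he0 he1 ht hs hd ht0
  have key : ∀ n ≤ n₁, |x n| ≤ (B + 1) * K ^ n ∧ (1 ≤ n → |x n| ≤ (B + 1) * K ^ n * ϵ) := by
    intro n
    induction n using Nat.strong_induction_on with
    | _ n ih =>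
      intro hn
      rcases Nat.eq_zero_or_pos n with h0 | hpos
      · subst h0
        have h1 := ht 0 hn
        rw [Finset.range_zero, Finset.sum_empty, add_zero] at h1
        refine ⟨?_, fun h => absurd h (by norm_num)⟩
        rw [← h1, pow_zero, mul_one]
        linarith
      · obtain ⟨m, rfl⟩ : ∃ m, n = m + 1 := ⟨n - 1, by omega⟩
        have h1 := ht (m + 1) hn
        have h2 := ht m (by omega)
        rw [Finset.sum_range_succ] at h1
        have h3 : x (m + 1) = (t (m + 1) - t m) - x m * (s 0 - 1) -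
            ∑ i ∈ range m, x i * (s (m - i) - s (m - 1 - i)) := by
          have h4 : ∑ i ∈ range m, x i * (s (m - i) - s (m - 1 - i)) =
              ∑ i ∈ range m, x i * s (m + 1 - 1 - i) - ∑ i ∈ range m, x i * s (m - 1 - i) := by
            rw [← Finset.sum_sub_distrib]
            refine Finset.sum_congr rfl (fun i _ => ?_)
            rw [Nat.add_sub_cancel]
            ring
          have h5 : m + 1 - 1 - m = 0 := by omega
          rw [h5] at h1
          rw [h4]
          linarith
        have hM : ∀ i ≤ m, |x i| ≤ (B + 1) * K ^ m := by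
          intro i hi
          refine (ih i (by omega) (by omega)).1.trans ?_
          exact mul_le_mul_of_nonneg_left (pow_le_pow_right₀ hK1 hi) (by linarith)
        have hA0 : (1 : ℝ) ≤ (B + 1) * K ^ m := by
          have : (1 : ℝ) ≤ K ^ m := one_le_pow₀ hK1
          nlinarith
        have h6 : |x (m + 1)| ≤ (B + 1) * K ^ (m + 1) * ϵ := by
          have h7 : |∑ i ∈ range m, x i * (s (m - i) - s (m - 1 - i))| ≤
              ∑ i ∈ range m, (B + 1) * K ^ m * (2 * ϵ) := by
            refine (Finset.abs_sum_le_sum_abs _ _).trans (Finset.sum_le_sum (fun i hi => ?_))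
            have him : i < m := Finset.mem_range.1 hi
            rw [abs_mul]
            refine mul_le_mul (hM i him.le) ?_ (abs_nonneg _) (by linarith)
            have h8 := hs (m - i) (by omega)
            have h9 := hs (m - 1 - i) (by omega)
            calc |s (m - i) - s (m - 1 - i)| = |(s (m - i) - 1) - (s (m - 1 - i) - 1)| := by ring_nf
              _ ≤ |s (m - i) - 1| + |s (m - 1 - i) - 1| := abs_sub _ _
              _ ≤ 2 * ϵ := by linarith
          rw [Finset.sum_const, Finset.card_range, nsmul_eq_mul] at h7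
          have h10 : |x m * (s 0 - 1)| ≤ (B + 1) * K ^ m * ϵ := by
            rw [abs_mul]
            exact mul_le_mul (hM m le_rfl) (hs 0 (by omega)) (abs_nonneg _) (by linarith)
          have h11 := hd m (by omega)
          have h12 : |x (m + 1)| ≤ |t (m + 1) - t m| + |x m * (s 0 - 1)| +
              |∑ i ∈ range m, x i * (s (m - i) - s (m - 1 - i))| := by
            rw [h3]
            refine (abs_sub _ _).trans ?_
            have := abs_sub (t (m + 1) - t m) (x m * (s 0 - 1))
            linarith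
          have h13 : (m : ℝ) ≤ (n₁ : ℝ) := by
            exact_mod_cast (by omega : m ≤ n₁)
          have h14 : |x (m + 1)| ≤ ϵ * (1 + (B + 1) * K ^ m + (m : ℝ) * ((B + 1) * K ^ m * 2)) := by
            linarith
          refine h14.trans ?_
          rw [mul_comm]
          refine mul_le_mul_of_nonneg_right ?_ he0
          rw [pow_succ]
          have h15 : (m : ℝ) * ((B + 1) * K ^ m * 2) ≤ (n₁ : ℝ) * ((B + 1) * K ^ m * 2) :=
            mul_le_mul_of_nonneg_right h13 (by linarith)
          have h16 : (B + 1) * (K ^ m * K) = (B + 1) * K ^ m * (2 * (n₁ : ℝ) + 2) := by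
            rw [hK]
            ring
          rw [h16]
          linarith
        refine ⟨h6.trans ?_, fun _ => h6⟩
        have : 0 ≤ (B + 1) * K ^ (m + 1) := by positivity
        nlinarith
  intro n hn1 hn
  refine ((key n hn).2 hn1).trans ?_
  refine mul_le_mul_of_nonneg_right ?_ he0
  exact mul_le_mul_of_nonneg_left (pow_le_pow_right₀ hK1 hn) (by linarith)

end Pool.Agent.C52.RZ6
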