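import Pool.Agent.Lib.MP_c52340_c5.Defs
import Pool.Agent.Lib.MP_c52340_c5.B2
import Pool.Agent.Lib.MP_c52340_c5.B4


set_option autoImplicit false

open Finset

open Pool.Agent.C52.RB2 (B2)
open Pool.Agent.C52.RB4 (B4)

namespace Pool.Agent.C52.RZ7

private theorem wmod_bounds (N : ℕ) (z : ℤ) : 0 ≤ wmod N z ∧ wmod N z ≤ (1 / 2) ^ N := by
  have hpos : ∀ y, 0 ≤ wG (1 / 4) N y := fun y => B4.1 (1 / 4) (by norm_num) (by norm_num) N y
  have hle : ∀ y, wG (1 / 4) N y ≤ (1 / 2) ^ N := fun y => B4.2.2.2.2.2.1 N y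
  have hbd : ∀ m ∈ Lset N, 3 * |m| ≤ (4 : ℤ) ^ N - 1 := B2.1 N
  constructor
  · unfold wmod
    refine Finset.sum_nonneg (fun y _ => ?_)
    split_ifs
    · exact hpos y
    · exact le_refl 0
  · unfold wmod
    by_cases hex : ∃ y0 ∈ Lset N, (4 : ℤ) ^ N ∣ z - y0
    · obtain ⟨y0, hy0, hd0⟩ := hex
      have : (∑ y ∈ Lset N, if (4 : ℤ) ^ N ∣ z - y then wG (1 / 4) N y else 0) = wG (1 / 4) N y0 := by
        rw [Finset.sum_eq_single y0]
        · rw [if_pos hd0]
        · intro y hy hne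
          rw [if_neg]
          intro hd
          apply hne
          have h1 : (4 : ℤ) ^ N ∣ y - y0 := by
            have := dvd_sub hd0 hd
            have e : z - y0 - (z - y) = y - y0 := by ring
            rwa [e] at this
          have h2 : |y - y0| < (4 : ℤ) ^ N := by
            have a1 := hbd y hy
            have a2 := hbd y0 hy0
            have a3 : |y - y0| ≤ |y| + |y0| := abs_sub y y0
            have a4 : 0 < (4 : ℤ) ^ N := by positivity
            nlinarith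
          have h3 := Int.eq_zero_of_abs_lt_dvd h1 h2
          linarith
        · intro h
          exact absurd hy0 h
      rw [this]
      exact hle y0
    · have : (∑ y ∈ Lset N, if (4 : ℤ) ^ N ∣ z - y then wG (1 / 4) N y else 0) = 0 := by
        refine Finset.sum_eq_zero (fun y hy => ?_)
        rw [if_neg]
        intro hd
        exact hex ⟨y, hy, hd⟩
      rw [this]
      positivity

private theorem nsq_bd (N : ℕ) (f : ℤ → ℝ) (h0 : ∀ m, 0 ≤ f m) (h1 : ∀ m, f m ≤ 2 ^ N) :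
    nsq N f ≤ 4 ^ N := by
  unfold nsq
  rw [div_le_iff₀ (by positivity)]
  have hc : ((Lset N).card : ℝ) = 3 ^ N := by
    rw [B2.2.1 N]; push_cast; rfl
  have : ∀ m ∈ Lset N, f m ^ 2 ≤ (4 : ℝ) ^ N := by
    intro m _
    have := pow_le_pow_left₀ (h0 m) (h1 m) 2
    have e : ((2 : ℝ) ^ N) ^ 2 = 4 ^ N := by
      rw [← pow_mul, mul_comm, pow_mul]; norm_num
    rwa [e] at this
  have h := Finset.sum_le_card_nsmul (Lset N) (fun m => f m ^ 2) ((4 : ℝ) ^ N) this
  rw [nsmul_eq_mul, hc] at h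
  linarith

private theorem cs (N : ℕ) (f g : ℤ → ℝ) : ip N f g ^ 2 ≤ nsq N f * nsq N g := by
  unfold ip avg nsq
  rw [div_pow, div_mul_div_comm, ← pow_two]
  apply div_le_div_of_nonneg_right _ (by positivity)
  exact Finset.sum_mul_sq_le_sq_mul_sq _ _ _

/-- Row Z7.  The remainder.
Recipe: `|ip f g| ≤ sqrt (nsq f) sqrt (nsq g)`; `0 ≤ wmod N z ≤ (1/2)^N` and `wG (1/4) N z ≤ (1/2)^N` (B4; at most one `y ∈ Lset N` with
`4^N ∣ z - y`), so `nsq vv, nsq uu ≤ 4^N`; `(Qp)^[3 J] = ((Qp)^[3])^[J]`. -/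
theorem Z7 (N : ℕ) (hN : 1 ≤ N) (k : ℤ) (a : ℝ) (ha : 0 ≤ a)
    (h : ∀ f : ℤ → ℝ, nsq N ((Qp N k)^[3] f) ≤ a ^ 2 * nsq N f) (J : ℕ) :
    |ip N (vv N k) ((Qp N k)^[3 * J] (uu N k))| ≤ 4 ^ N * a ^ J := by
  have hpos : ∀ y, 0 ≤ wG (1 / 4) N y := fun y => B4.1 (1 / 4) (by norm_num) (by norm_num) N y
  have hle : ∀ y, wG (1 / 4) N y ≤ (1 / 2) ^ N := fun y => B4.2.2.2.2.2.1 N y
  have e2 : (4 : ℝ) ^ N * (1 / 2) ^ N = 2 ^ N := by
    rw [← mul_pow]; norm_num
  have hit : ∀ J : ℕ, nsq N ((Qp N k)^[3 * J] (uu N k)) ≤ (a ^ 2) ^ J * nsq N (uu N k) := by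
    intro J
    induction J with
    | zero => simp
    | succ J ih =>
      have e : 3 * (J + 1) = 3 + 3 * J := by ring
      rw [e, Function.iterate_add_apply]
      refine (h _).trans ?_
      calc a ^ 2 * nsq N ((Qp N k)^[3 * J] (uu N k)) ≤ a ^ 2 * ((a ^ 2) ^ J * nsq N (uu N k)) :=
            mul_le_mul_of_nonneg_left ih (by positivity)
        _ = (a ^ 2) ^ (J + 1) * nsq N (uu N k) := by ring
  have hv : nsq N (vv N k) ≤ 4 ^ N := by
    apply nsq_bd
    · intro m
      unfold vv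
      exact mul_nonneg (by positivity) (wmod_bounds N _).1
    · intro m
      unfold vv
      rw [← e2]
      exact mul_le_mul_of_nonneg_left (wmod_bounds N _).2 (by positivity)
  have hu : nsq N (uu N k) ≤ 4 ^ N := by
    apply nsq_bd
    · intro m
      unfold uu
      exact mul_nonneg (by positivity) (hpos _)
    · intro m
      unfold uu
      rw [← e2]
      exact mul_le_mul_of_nonneg_left (hle _) (by positivity)
  have hn : ∀ f : ℤ → ℝ, 0 ≤ nsq N f := by
    intro f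
    unfold nsq
    exact div_nonneg (Finset.sum_nonneg (fun m _ => sq_nonneg _)) (by positivity)
  apply abs_le_of_sq_le_sq _ (by positivity)
  refine (cs N _ _).trans ?_
  calc nsq N (vv N k) * nsq N ((Qp N k)^[3 * J] (uu N k))
      ≤ 4 ^ N * ((a ^ 2) ^ J * nsq N (uu N k)) :=
        mul_le_mul hv (hit J) (hn _) (by positivity)
    _ ≤ 4 ^ N * ((a ^ 2) ^ J * 4 ^ N) := by
        apply mul_le_mul_of_nonneg_left _ (by positivity)
        exact mul_le_mul_of_nonneg_left hu (by positivity)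
    _ = (4 ^ N * a ^ J) ^ 2 := by ring

end Pool.Agent.C52.RZ7
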