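import Pool.Agent.Lib.MP_c52340_c5.Defs
import Pool.Agent.Lib.MP_c52340_c5.U1
import Pool.Agent.Lib.MP_c52340_c5.W14
import Pool.Agent.Lib.MP_c52340_c5.G2
import Pool.Agent.Lib.MP_c52340_c5.G7
import Pool.Agent.Lib.MP_c52340_c5.G11
import Pool.Agent.Lib.MP_c52340_c5.G15
import Pool.Agent.Lib.MP_c52340_c5.R20
import Pool.Agent.Lib.MP_c52340_c5.Z1
import Pool.Agent.Lib.MP_c52340_c5.Z2
import Pool.Agent.Lib.MP_c52340_c5.Z3
import Pool.Agent.Lib.MP_c52340_c5.Z4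
import Pool.Agent.Lib.MP_c52340_c5.Z5
import Pool.Agent.Lib.MP_c52340_c5.Z6
import Pool.Agent.Lib.MP_c52340_c5.Z7


set_option autoImplicit false

open Finset

open Pool.Agent.C52.RU1 (U1)
open Pool.Agent.C52.RW14 (W14)
open Pool.Agent.C52.RG2 (G2)
open Pool.Agent.C52.RG7 (G7)
open Pool.Agent.C52.RG11 (G11)
open Pool.Agent.C52.RG15 (G15)
open Pool.Agent.C52.RR20 (R20)
open Pool.Agent.C52.RZ1 (Z1)
open Pool.Agent.C52.RZ2 (Z2)
open Pool.Agent.C52.RZ3 (Z3)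
open Pool.Agent.C52.RZ4 (Z4)
open Pool.Agent.C52.RZ5 (Z5)
open Pool.Agent.C52.RZ6 (Z6)
open Pool.Agent.C52.RZ7 (Z7)

namespace Pool.Agent.C52.RZ8

/-- telescoping -/
private theorem z8_tele (g : ℕ → ℝ) (a n : ℕ) (e : ℝ)
    (h : ∀ H, a ≤ H → H < a + n → |g (H + 1) - g H| ≤ e) : |g (a + n) - g a| ≤ n * e := by
  induction n with
  | zero => simp
  | succ n ih =>
    have h1 := ih fun H h1 h2 => h H h1 (by omega)
    have h2 := h (a + n) (by omega) (by omega)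
    have h3 : g (a + (n + 1)) - g a = (g (a + n + 1) - g (a + n)) + (g (a + n) - g a) := by
      rw [← add_assoc]
      ring
    rw [h3]
    refine (abs_add_le _ _).trans ?_
    push_cast
    linarith

/-- Row Z8.  The window theorem.
Recipe.  Given `ε, b`: W14 (`ε/5`) gives `r`; choose `J` odd with `4 r^J < 1/2`... i.e. `4 r^J ≤ 1/2`, `3 J = 2 n₀ + 1`.  G7 and G11 with `n₁ = 3 J + 2`, G15,
R20 with `n₁ = 3 J + 2` (each `ε/5`).  For a good `k` (and `N` large): with `x j = ip vv (Qp^[j] 1)`, `t n = gk k ((n+1)N) 0`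
(Z3), `s n` (Z3), Z5 (`f = 1`) and Z6 (differences of `t`: `N` steps of G7): `|x j| ≤ C N r^N` for `1 ≤ j ≤ 3J`, `x 0 = t 0 ≥ δ₂`.
Z5 with `f = uu`, `n = 3 J`: `ip vv (Qop^[3J] uu) ≥ x 0 * sig(3J N) - ∑_{1 ≤ j < 3J} |x j| B - 4^N r^{N J} ≥ δ₂ δ₃ - small ≥ δ₂ δ₃/2`, larger
than `2^N (2/3)^{(3J+1)N}` for large `N`; Z1, Z2.  `R = 3 J + 1`. -/
theorem Z8 (ε b : ℝ) (hε : 0 < ε) (hb : 0 < b) (hb' : b ≤ 1 / 4) : ∃ R N₀ : ℕ, ∀ N ≥ N₀,
    bad N (fun k => InR N k → (k : ℝ) ≤ (1 / 2 - b) * 4 ^ N → HasMult k (4 ^ (R * N))) ≤ ε := by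
  have hε5 : 0 < ε / 5 := by positivity
  obtain ⟨r₁, hr₁0, hr₁1, N₁, hW⟩ := W14 (ε / 5) hε5
  obtain ⟨J₀, hJ₀⟩ := exists_pow_lt_of_lt_one (show (0 : ℝ) < 1 / 8 by norm_num) hr₁1
  set J : ℕ := J₀ + 1 with hJ
  have hrJ : r₁ ^ J ≤ 1 / 8 := by
    rw [hJ, pow_succ]
    have : r₁ ^ J₀ * r₁ ≤ r₁ ^ J₀ * 1 := mul_le_mul_of_nonneg_left hr₁1.le (by positivity)
    linarith
  set n₁ : ℕ := 3 * J + 2 with hn₁
  obtain ⟨B, ra, hB, hra0, hra1, N₂, hG7⟩ := G7 (ε / 5) hε5 n₁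
  obtain ⟨δ₂, hδ₂, N₃, hG11⟩ := G11 (ε / 5) hε5 n₁
  obtain ⟨rb, hrb0, hrb1, N₄, hG15⟩ := G15 (ε / 5) hε5 n₁
  obtain ⟨δ₃, B₃, hδ₃, hB₃, N₅, hR20⟩ := R20 (ε / 5) b hε5 hb hb' n₁
  obtain ⟨C, hC, hZ6⟩ := Z6 (3 * J) B hB.le
  -- small quantities
  have hq0 : (0 : ℝ) ≤ 2 * (2 / 3) ^ (3 * J + 1) := by positivity
  have hq1 : 2 * (2 / 3 : ℝ) ^ (3 * J + 1) < 1 := by
    have h1 : (2 / 3 : ℝ) ^ (3 * J + 1) ≤ (2 / 3) ^ 4 :=
      pow_le_pow_of_le_one (by norm_num) (by norm_num) (by omega)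
    have h2 : (2 / 3 : ℝ) ^ 4 = 16 / 81 := by norm_num
    linarith
  have lim1 : Filter.Tendsto (fun N : ℕ => (N : ℝ) * ra ^ N + rb ^ N) Filter.atTop (nhds (0 + 0)) :=
    (tendsto_self_mul_const_pow_of_lt_one hra0.le hra1).add
      (tendsto_pow_atTop_nhds_zero_of_lt_one hrb0.le hrb1)
  have lim2 : Filter.Tendsto (fun N : ℕ => (3 * J : ℕ) * (C * ((N : ℝ) * ra ^ N + rb ^ N) * B₃) +
      (1 / 2 : ℝ) ^ N + (2 * (2 / 3 : ℝ) ^ (3 * J + 1)) ^ N) Filter.atTop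
      (nhds ((3 * J : ℕ) * (C * (0 + 0) * B₃) + 0 + 0)) :=
    ((((lim1.const_mul C).mul_const B₃).const_mul _).add
      (tendsto_pow_atTop_nhds_zero_of_lt_one (by norm_num) (by norm_num))).add
      (tendsto_pow_atTop_nhds_zero_of_lt_one hq0 hq1)
  have ev1 : ∀ᶠ N : ℕ in Filter.atTop, (N : ℝ) * ra ^ N + rb ^ N < 1 :=
    lim1.eventually (gt_mem_nhds (by norm_num))
  have ev2 : ∀ᶠ N : ℕ in Filter.atTop, (3 * J : ℕ) * (C * ((N : ℝ) * ra ^ N + rb ^ N) * B₃) +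
      (1 / 2 : ℝ) ^ N + (2 * (2 / 3 : ℝ) ^ (3 * J + 1)) ^ N < δ₂ * δ₃ := by
    refine lim2.eventually (gt_mem_nhds ?_)
    have : 0 < δ₂ * δ₃ := mul_pos hδ₂ hδ₃
    simpa using this
  obtain ⟨N₆, hN₆⟩ := Filter.eventually_atTop.1 (ev1.and ev2)
  refine ⟨3 * J + 1, N₁ + N₂ + N₃ + N₄ + N₅ + N₆ + 1, fun N hN => ?_⟩
  have hN1 : 1 ≤ N := by omega
  obtain ⟨hs1, hs2⟩ := hN₆ N (by omega)
  -- the union bound
  have key : ∀ k ∈ Odds N,
      ((((InR N k → ∀ f : ℤ → ℝ, nsq N ((Qp N k)^[3] f) ≤ (r₁ ^ N) ^ 2 * nsq N f) ∧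
        ((∀ H ≤ n₁ * N, gk k H 0 ≤ B) ∧
          ∀ H, N ≤ H → H ≤ n₁ * N → |gk k (H + 1) 0 - gk k H 0| ≤ ra ^ N)) ∧
        (∀ H, N ≤ H → H ≤ n₁ * N → δ₂ ≤ gk k H 0)) ∧
        (∀ h ≤ n₁ * N, |avg N (fun m => gk k h (hi N k m)) - 1| ≤ rb ^ N)) ∧
        (InR N k → (k : ℝ) ≤ (1 / 2 - b) * 4 ^ N → ∀ n ≤ n₁,
          δ₃ ≤ sig ((n + 1) * N) ((k : ℝ) / 4 ^ N) ∧ sig ((n + 1) * N) ((k : ℝ) / 4 ^ N) ≤ B₃) →
      (InR N k → (k : ℝ) ≤ (1 / 2 - b) * 4 ^ N → HasMult k (4 ^ ((3 * J + 1) * N))) := by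
    rintro k - ⟨⟨⟨⟨h1, h2, h3⟩, h4⟩, h5⟩, h6⟩ hIn hkb
    have h1 := h1 hIn
    have h6 := h6 hIn hkb
    have hk2 : 2 * k < 4 ^ N := hIn.2
    have hk : 0 < k := by
      have h7 : (0 : ℤ) < 4 ^ N := by positivity
      have h8 := hIn.1
      omega
    set x : ℕ → ℝ := fun j => ip N (vv N k) ((Qp N k)^[j] (fun _ => 1)) with hx
    set t : ℕ → ℝ := fun n => gk k ((n + 1) * N) 0 with ht
    set s : ℕ → ℝ := fun n => avg N (fun m => gk k (n * N) (hi N k m)) with hs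
    have hrec : ∀ n, t n = x n + ∑ j ∈ range n, x j * s (n - 1 - j) := by
      intro n
      have h7 := Z5 N k n (fun _ => 1)
      rw [(Z3 N hN1 k hk hk2 n).1] at h7
      rw [ht, hx]
      simp only
      rw [h7]
      congr 1
      refine Finset.sum_congr rfl fun j _ => ?_
      rw [(Z3 N hN1 k hk hk2 (n - 1 - j)).2]
    have hra : (0 : ℝ) ≤ N * ra ^ N := by positivity
    have hrbN : (0 : ℝ) ≤ rb ^ N := by positivity
    have hxs : ∀ n, 1 ≤ n → n ≤ 3 * J → |x n| ≤ C * ((N : ℝ) * ra ^ N + rb ^ N) := by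
      refine hZ6 x t s _ (by linarith) hs1.le (fun n _ => hrec n) (fun n hn => ?_)
        (fun n hn => ?_) ?_
      · refine (h5 (n * N) (Nat.mul_le_mul_right _ (by omega))).trans ?_
        linarith
      · have h7 := z8_tele (fun H => gk k H 0) ((n + 1) * N) N (ra ^ N) (fun H ha hb => by
          refine h3 H ?_ ?_
          · calc N = 1 * N := (one_mul N).symm
              _ ≤ (n + 1) * N := Nat.mul_le_mul_right _ (by omega)
              _ ≤ H := ha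
          · refine hb.le.trans ?_
            calc (n + 1) * N + N = (n + 2) * N := by ring
              _ ≤ n₁ * N := Nat.mul_le_mul_right _ (by omega))
        have h8 : (n + 1) * N + N = (n + 1 + 1) * N := by ring
        simp only [h8] at h7
        change |gk k ((n + 1 + 1) * N) 0 - gk k ((n + 1) * N) 0| ≤ _
        linarith
      · change |gk k ((0 + 1) * N) 0| ≤ B
        have h7 : (0 + 1) * N ≤ n₁ * N := Nat.mul_le_mul_right _ (by omega)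
        rw [abs_of_nonneg (G2.2.1 k _ 0)]
        exact h2 _ h7
    have hx0 : δ₂ ≤ x 0 := by
      have h7 := hrec 0
      rw [Finset.sum_range_zero, add_zero] at h7
      rw [← h7]
      change δ₂ ≤ gk k ((0 + 1) * N) 0
      refine h4 _ ?_ (Nat.mul_le_mul_right _ (by omega))
      rw [zero_add, one_mul]
    have hsig : ∀ n ≤ 3 * J, δ₃ ≤ avg N ((Qop N k)^[n] (uu N k)) ∧
        avg N ((Qop N k)^[n] (uu N k)) ≤ B₃ := by
      intro n hn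
      rw [Z4 N hN1 k hk hk2 n]
      exact h6 n (by omega)
    have h7 := Z5 N k (3 * J) (uu N k)
    have h8 := Z7 N hN1 k (r₁ ^ N) (by positivity) h1 J
    have h9 : (4 : ℝ) ^ N * (r₁ ^ N) ^ J ≤ (1 / 2) ^ N := by
      rw [← pow_mul, mul_comm N J, pow_mul, ← mul_pow]
      exact pow_le_pow_left₀ (by positivity) (by linarith) N
    have h10 : δ₂ * δ₃ - (3 * J : ℕ) * (C * ((N : ℝ) * ra ^ N + rb ^ N) * B₃) ≤
        ∑ j ∈ range (3 * J), x j * avg N ((Qop N k)^[3 * J - 1 - j] (uu N k)) := by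
      obtain ⟨L, hL⟩ : ∃ L, 3 * J = L + 1 := ⟨3 * J - 1, by omega⟩
      rw [hL, Finset.sum_range_succ', ← hL]
      have h11 : δ₂ * δ₃ ≤ x 0 * avg N ((Qop N k)^[3 * J - 1 - 0] (uu N k)) :=
        mul_le_mul hx0 (hsig _ (by omega)).1 hδ₃.le (hδ₂.le.trans hx0)
      have h12 : ∀ j ∈ range L, -(C * ((N : ℝ) * ra ^ N + rb ^ N) * B₃) ≤
          x (j + 1) * avg N ((Qop N k)^[3 * J - 1 - (j + 1)] (uu N k)) := by
        intro j hj
        rw [Finset.mem_range] at hj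
        have h13 := hxs (j + 1) (by omega) (by omega)
        have h14 := hsig (3 * J - 1 - (j + 1)) (by omega)
        have h15 : |x (j + 1) * avg N ((Qop N k)^[3 * J - 1 - (j + 1)] (uu N k))| ≤
            C * ((N : ℝ) * ra ^ N + rb ^ N) * B₃ := by
          rw [abs_mul]
          refine mul_le_mul h13 ?_ (abs_nonneg _) (by positivity)
          rw [abs_of_nonneg (hδ₃.le.trans h14.1)]
          exact h14.2
        exact (abs_le.1 h15).1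
      have h16 := Finset.sum_le_sum h12
      rw [Finset.sum_const, Finset.card_range, nsmul_eq_mul] at h16
      have h17 : ((L : ℝ)) ≤ ((3 * J : ℕ) : ℝ) := by exact_mod_cast (by omega : L ≤ 3 * J)
      have h18 : (0 : ℝ) ≤ C * ((N : ℝ) * ra ^ N + rb ^ N) * B₃ := by positivity
      have h19 := mul_le_mul_of_nonneg_right h17 h18
      linarith
    have h20 : (2 : ℝ) ^ N * (2 / 3) ^ ((3 * J + 1) * N) < ip N (vv N k) ((Qop N k)^[3 * J] (uu N k)) := by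
      have h21 : (2 : ℝ) ^ N * (2 / 3) ^ ((3 * J + 1) * N) = (2 * (2 / 3 : ℝ) ^ (3 * J + 1)) ^ N := by
        rw [mul_pow, pow_mul]
      rw [h21, h7]
      have h22 := (abs_le.1 h8).1
      have h23 : ∑ j ∈ range (3 * J), ip N (vv N k) ((Qp N k)^[j] (fun _ => 1)) *
          avg N ((Qop N k)^[3 * J - 1 - j] (uu N k)) =
          ∑ j ∈ range (3 * J), x j * avg N ((Qop N k)^[3 * J - 1 - j] (uu N k)) := rfl
      rw [h23]
      linarith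
    rw [Z1 N hN1 k hk hk2 (3 * J)] at h20
    exact Z2 N k (3 * J) h20
  have e1 := U1.1 N _ _ key
  refine e1.trans ?_
  refine (U1.2.1 N _ _).trans ?_
  have e2 := U1.2.1 N (fun k => (((InR N k → ∀ f : ℤ → ℝ, nsq N ((Qp N k)^[3] f) ≤ (r₁ ^ N) ^ 2 * nsq N f) ∧
        ((∀ H ≤ n₁ * N, gk k H 0 ≤ B) ∧
          ∀ H, N ≤ H → H ≤ n₁ * N → |gk k (H + 1) 0 - gk k H 0| ≤ ra ^ N)) ∧
        (∀ H, N ≤ H → H ≤ n₁ * N → δ₂ ≤ gk k H 0)))
        (fun k => ∀ h ≤ n₁ * N, |avg N (fun m => gk k h (hi N k m)) - 1| ≤ rb ^ N)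
  have e3 := U1.2.1 N (fun k => ((InR N k → ∀ f : ℤ → ℝ, nsq N ((Qp N k)^[3] f) ≤ (r₁ ^ N) ^ 2 * nsq N f) ∧
        ((∀ H ≤ n₁ * N, gk k H 0 ≤ B) ∧
          ∀ H, N ≤ H → H ≤ n₁ * N → |gk k (H + 1) 0 - gk k H 0| ≤ ra ^ N)))
        (fun k => ∀ H, N ≤ H → H ≤ n₁ * N → δ₂ ≤ gk k H 0)
  have e4 := U1.2.1 N (fun k => (InR N k → ∀ f : ℤ → ℝ, nsq N ((Qp N k)^[3] f) ≤ (r₁ ^ N) ^ 2 * nsq N f))
        (fun k => ((∀ H ≤ n₁ * N, gk k H 0 ≤ B) ∧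
          ∀ H, N ≤ H → H ≤ n₁ * N → |gk k (H + 1) 0 - gk k H 0| ≤ ra ^ N))
  have f1 := hW N (by omega)
  have f2 := hG7 N (by omega)
  have f3 := hG11 N (by omega)
  have f4 := hG15 N (by omega)
  have f5 := hR20 N (by omega)
  linarith

end Pool.Agent.C52.RZ8
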