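import Pool.Agent.Lib.MP_c52340_c5.Defs
import Pool.Agent.Lib.MP_c52340_c5.Z8


set_option autoImplicit false

open Finset

open Pool.Agent.C52.RZ8 (Z8)

namespace Pool.Agent.C52.RZ9

/-- the exceptional set of the window theorem -/
private noncomputable def z9B (R : ℕ) (b : ℝ) (N : ℕ) : Finset ℤ := by
  classical exact ((Odds N).filter
    (fun k => ¬ (InR N k → (k : ℝ) ≤ (1 / 2 - b) * 4 ^ N → HasMult k (4 ^ (R * N)))))

/-- the integers close to half of `4 ^ N` -/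
private noncomputable def z9W (b : ℝ) (N : ℕ) : Finset ℤ :=
  Finset.Icc ⌈(1 / 2 - b) * 4 ^ N⌉ ((4 : ℤ) ^ N / 2)

private theorem z9_W (b : ℝ) (N : ℕ) (hb : 0 ≤ b) : ((z9W b N).card : ℝ) ≤ b * 4 ^ N + 1 := by
  rw [z9W, Int.card_Icc]
  have h1 : (1 / 2 - b) * 4 ^ N ≤ (⌈(1 / 2 - b) * 4 ^ N⌉ : ℝ) := Int.le_ceil _
  have h2 : (((4 : ℤ) ^ N / 2 : ℤ) : ℝ) ≤ 4 ^ N / 2 := by
    have h := Int.ediv_mul_le ((4 : ℤ) ^ N) (show (2 : ℤ) ≠ 0 by norm_num)
    have h' : ((((4 : ℤ) ^ N / 2) * 2 : ℤ) : ℝ) ≤ (((4 : ℤ) ^ N : ℤ) : ℝ) := by exact_mod_cast h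
    push_cast at h'
    linarith
  have h3 : (0 : ℝ) ≤ b * 4 ^ N := by positivity
  rcases le_or_gt 0 ((4 : ℤ) ^ N / 2 + 1 - ⌈(1 / 2 - b) * 4 ^ N⌉) with h | h
  · have h4 : ((((4 : ℤ) ^ N / 2 + 1 - ⌈(1 / 2 - b) * 4 ^ N⌉).toNat : ℤ) : ℝ) =
        (((4 : ℤ) ^ N / 2 : ℤ) : ℝ) + 1 - (⌈(1 / 2 - b) * 4 ^ N⌉ : ℝ) := by
      rw [Int.toNat_of_nonneg h]
      push_cast
      ring
    have h5 : ((((4 : ℤ) ^ N / 2 + 1 - ⌈(1 / 2 - b) * 4 ^ N⌉).toNat : ℤ) : ℝ) =
        ((((4 : ℤ) ^ N / 2 + 1 - ⌈(1 / 2 - b) * 4 ^ N⌉).toNat : ℕ) : ℝ) := by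
      push_cast
      rfl
    rw [← h5, h4]
    linarith
  · rw [Int.toNat_of_nonpos h.le]
    push_cast
    linarith

private theorem z9_B (R : ℕ) (b δ : ℝ) (N : ℕ)
    (h : bad N (fun k => InR N k → (k : ℝ) ≤ (1 / 2 - b) * 4 ^ N → HasMult k (4 ^ (R * N))) ≤ δ) :
    ((z9B R b N).card : ℝ) ≤ δ * 4 ^ N := by
  have h4 : (0 : ℝ) < 4 ^ N := by positivity
  unfold bad at h
  rw [div_le_iff₀ h4] at h
  unfold z9B
  refine le_trans (le_of_eq ?_) h
  congr 2
  ext k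
  simp only [Finset.mem_filter]

private theorem z9_geom (n : ℕ) : 3 * ∑ i ∈ range n, (4 : ℝ) ^ i ≤ 4 ^ n := by
  induction n with
  | zero => simp
  | succ n ih =>
    rw [Finset.sum_range_succ, mul_add, pow_succ]
    linarith

/-- every positive integer has its window -/
private theorem z9_window (k : ℤ) (hk : 1 ≤ k) : ∃ N : ℕ, 2 * k < 4 ^ N ∧ (4 : ℤ) ^ N ≤ 8 * k := by
  have hex : ∃ N : ℕ, 2 * k < 4 ^ N := by
    refine ⟨(2 * k).toNat, ?_⟩
    have h1 : (2 * k).toNat < 4 ^ (2 * k).toNat := Nat.lt_pow_self (by norm_num)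
    have h2 : ((2 * k).toNat : ℤ) = 2 * k := Int.toNat_of_nonneg (by linarith)
    calc 2 * k = ((2 * k).toNat : ℤ) := h2.symm
      _ < ((4 ^ (2 * k).toNat : ℕ) : ℤ) := by exact_mod_cast h1
      _ = 4 ^ (2 * k).toNat := by push_cast; rfl
  classical
  set N := Nat.find hex with hN
  have h1 : 2 * k < 4 ^ N := Nat.find_spec hex
  have h0 : N ≠ 0 := by
    intro h
    rw [h, pow_zero] at h1
    linarith
  obtain ⟨n, hn⟩ := Nat.exists_eq_succ_of_ne_zero h0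
  have h2 : ¬ 2 * k < 4 ^ n := Nat.find_min hex (by omega)
  refine ⟨N, h1, ?_⟩
  rw [hn, Nat.succ_eq_add_one, pow_succ]
  linarith

/-- Row Z9.  The main theorem.
Recipe: `b = ε/100` (or so), Z8 with `ε/100`: among the odd `k` with `InR N k` at most `(ε/100 + ε/100) 4^N + 1` have no multiplier
`< 4^{R N} ≤ (8k)^R ≤ k^{4R}` (for `k ≥ 2`, `8 k ≤ k^4`); every `k ≥ 1` has exactly one `N ≥ 1` with `InR N k`
(`4^N ∈ (2k, 8k]`); sum over `N` with `4^N ≤ 8 X`: at most `2 * 10^{-2} ε (4/3) 8 X + (number of N) + C₀ ≤ ε X`. -/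
theorem Z9 (ε : ℝ) (hε : 0 < ε) : ∃ C X₀ : ℕ, ∀ X : ℕ, X₀ ≤ X → by
    classical exact ((((Finset.Icc (1 : ℤ) X).filter
      (fun k => Odd k ∧ ¬ ∃ m : ℤ, 0 < m ∧ m < k ^ C ∧ InL m ∧ InL (k * m))).card : ℝ) ≤ ε * X) := by
  classical
  set b : ℝ := min (ε / 100) (1 / 4) with hb
  have hb0 : 0 < b := lt_min (by positivity) (by norm_num)
  have hb1 : b ≤ 1 / 4 := min_le_right _ _
  have hb2 : b ≤ ε / 100 := min_le_left _ _
  obtain ⟨R, N₀, hZ⟩ := Z8 (ε / 100) b (by positivity) hb0 hb1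
  obtain ⟨N₁, hN₁⟩ := pow_unbounded_of_one_lt (1 / b) (show (1 : ℝ) < 4 by norm_num)
  set K := max (max N₀ N₁) 2 with hK
  have hK0 : N₀ ≤ K := le_trans (le_max_left _ _) (le_max_left _ _)
  have hK1 : N₁ ≤ K := le_trans (le_max_right _ _) (le_max_left _ _)
  have hK2 : 2 ≤ K := le_max_right _ _
  obtain ⟨X₀, hX₀⟩ := exists_nat_gt ((4 : ℝ) ^ K * 2 / ε)
  refine ⟨4 * R, X₀ + 1, fun X hX => ?_⟩
  have hX1 : 1 ≤ X := by omega
  have hXr : (4 : ℝ) ^ K * 2 ≤ ε * X := by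
    have h1 : (4 : ℝ) ^ K * 2 / ε < X := by
      have : (X₀ : ℝ) ≤ X := by exact_mod_cast (by omega : X₀ ≤ X)
      linarith
    rw [div_lt_iff₀ hε] at h1
    linarith
  set M := Nat.log 4 (8 * X) with hM
  have hM1 : (4 : ℝ) ^ M ≤ 8 * X := by
    have h := Nat.pow_log_le_self 4 (show 8 * X ≠ 0 by omega)
    have h' : ((4 ^ Nat.log 4 (8 * X) : ℕ) : ℝ) ≤ ((8 * X : ℕ) : ℝ) := by exact_mod_cast h
    push_cast at h'
    rw [hM]
    exact h'
  have hsub : (Finset.Icc (1 : ℤ) X).filter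
      (fun k => Odd k ∧ ¬ ∃ m : ℤ, 0 < m ∧ m < k ^ (4 * R) ∧ InL m ∧ InL (k * m)) ⊆
      Finset.Icc (1 : ℤ) (4 ^ K) ∪ (Finset.Ico K (M + 1)).biUnion
        (fun N => z9B R b N ∪ z9W b N) := by
    intro k hk
    rw [Finset.mem_filter, Finset.mem_Icc] at hk
    obtain ⟨⟨hk1, hkX⟩, hodd, hno⟩ := hk
    obtain ⟨N, hN1, hN2⟩ := z9_window k hk1
    rw [Finset.mem_union]
    by_cases hNK : N < K
    · left
      rw [Finset.mem_Icc]
      refine ⟨hk1, ?_⟩
      have : (4 : ℤ) ^ N ≤ 4 ^ K := pow_le_pow_right₀ (by norm_num) hNK.le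
      linarith
    · right
      rw [not_lt] at hNK
      rw [Finset.mem_biUnion]
      refine ⟨N, ?_, ?_⟩
      · rw [Finset.mem_Ico]
        refine ⟨hNK, ?_⟩
        have h1 : 4 ^ N ≤ 8 * X := by
          have : (4 : ℤ) ^ N ≤ 8 * X := by linarith
          exact_mod_cast this
        have h2 : N ≤ Nat.log 4 (8 * X) := Nat.le_log_of_pow_le (by norm_num) h1
        omega
      · have hk2 : 2 ≤ k := by
          have : (4 : ℤ) ^ 2 ≤ 4 ^ N := pow_le_pow_right₀ (by norm_num) (hK2.trans hNK)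
          norm_num at this
          linarith
        rw [Finset.mem_union]
        by_cases hw : (k : ℝ) ≤ (1 / 2 - b) * 4 ^ N
        · left
          unfold z9B
          rw [Finset.mem_filter, Odds, Finset.mem_filter, Finset.mem_Ico]
          refine ⟨⟨⟨by linarith, by linarith⟩, hodd⟩, fun h => ?_⟩
          obtain ⟨m, hm0, hmB, hmL, hkmL⟩ := h ⟨hN2, hN1⟩ hw
          apply hno
          refine ⟨m, hm0, ?_, hmL, hkmL⟩
          have h1 : m < 4 ^ (R * N) := by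
            have : (m : ℝ) < ((4 ^ (R * N) : ℤ) : ℝ) := by
              push_cast
              exact hmB
            exact_mod_cast this
          have h2 : (4 : ℤ) ^ (R * N) ≤ k ^ (4 * R) := by
            calc (4 : ℤ) ^ (R * N) = (4 ^ N) ^ R := by rw [mul_comm, pow_mul]
              _ ≤ (8 * k) ^ R := pow_le_pow_left₀ (by positivity) hN2 R
              _ ≤ (k ^ 4) ^ R := by
                  refine pow_le_pow_left₀ (by linarith) ?_ R
                  have h8 : (2 : ℤ) ^ 3 ≤ k ^ 3 := pow_le_pow_left₀ (by norm_num) hk2 3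
                  have h9 : k ^ 4 = k ^ 3 * k := by ring
                  rw [h9]
                  nlinarith
              _ = k ^ (4 * R) := by rw [← pow_mul]
          linarith
        · right
          rw [z9W, Finset.mem_Icc]
          rw [not_le] at hw
          refine ⟨Int.ceil_le.2 hw.le, ?_⟩
          exact Int.le_ediv_of_mul_le (by norm_num) (by linarith)
  have hcard := Finset.card_le_card hsub
  have h1 : ((Finset.Icc (1 : ℤ) (4 ^ K) ∪ (Finset.Ico K (M + 1)).biUnion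
        (fun N => z9B R b N ∪ z9W b N)).card : ℝ) ≤
      4 ^ K + ∑ N ∈ Finset.Ico K (M + 1), (ε / 100 + 2 * b) * (4 : ℝ) ^ N := by
    have h2 : ((Finset.Icc (1 : ℤ) (4 ^ K)).card : ℝ) = 4 ^ K := by
      rw [Int.card_Icc]
      have : ((4 : ℤ) ^ K + 1 - 1).toNat = 4 ^ K := by
        rw [add_sub_cancel_right]
        have h : ((4 : ℤ) ^ K) = ((4 ^ K : ℕ) : ℤ) := by push_cast; rfl
        rw [h, Int.toNat_natCast]
      rw [this]
      push_cast
      rfl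
    have h3 : (((Finset.Ico K (M + 1)).biUnion (fun N => z9B R b N ∪ z9W b N)).card : ℝ) ≤
        ∑ N ∈ Finset.Ico K (M + 1), (ε / 100 + 2 * b) * (4 : ℝ) ^ N := by
      have h4 := Finset.card_biUnion_le (s := Finset.Ico K (M + 1))
        (t := fun N => z9B R b N ∪ z9W b N)
      have h5 : (((Finset.Ico K (M + 1)).biUnion (fun N => z9B R b N ∪ z9W b N)).card : ℝ) ≤
          ∑ N ∈ Finset.Ico K (M + 1), ((z9B R b N ∪ z9W b N).card : ℝ) := by exact_mod_cast h4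
      refine h5.trans (Finset.sum_le_sum fun N hN => ?_)
      rw [Finset.mem_Ico] at hN
      have h6 := z9_B R b (ε / 100) N (hZ N (hK0.trans hN.1))
      have h7 := z9_W b N hb0.le
      have h8 : ((z9B R b N ∪ z9W b N).card : ℝ) ≤ (z9B R b N).card + (z9W b N).card := by
        exact_mod_cast Finset.card_union_le _ _
      have h9 : 1 ≤ b * (4 : ℝ) ^ N := by
        have h10 : (4 : ℝ) ^ N₁ ≤ 4 ^ N := pow_le_pow_right₀ (by norm_num) (hK1.trans hN.1)
        have h11 : 1 / b ≤ (4 : ℝ) ^ N := by linarith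
        rw [div_le_iff₀ hb0] at h11
        linarith
      linarith
    have h12 : ((Finset.Icc (1 : ℤ) (4 ^ K) ∪ (Finset.Ico K (M + 1)).biUnion
        (fun N => z9B R b N ∪ z9W b N)).card : ℝ) ≤ (Finset.Icc (1 : ℤ) (4 ^ K)).card +
        ((Finset.Ico K (M + 1)).biUnion (fun N => z9B R b N ∪ z9W b N)).card := by
      exact_mod_cast Finset.card_union_le _ _
    linarith
  have h13 : ∑ N ∈ Finset.Ico K (M + 1), (ε / 100 + 2 * b) * (4 : ℝ) ^ N ≤
      (ε / 100 + 2 * b) * (4 ^ (M + 1) / 3) := by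
    rw [← Finset.mul_sum]
    refine mul_le_mul_of_nonneg_left ?_ (by positivity)
    have h14 : ∑ N ∈ Finset.Ico K (M + 1), (4 : ℝ) ^ N ≤ ∑ N ∈ range (M + 1), (4 : ℝ) ^ N := by
      refine Finset.sum_le_sum_of_subset_of_nonneg ?_ fun _ _ _ => by positivity
      intro N hN
      rw [Finset.mem_Ico] at hN
      exact Finset.mem_range.2 hN.2
    have h15 := z9_geom (M + 1)
    linarith
  have h16 : (4 : ℝ) ^ (M + 1) / 3 ≤ 32 * X / 3 := by
    rw [pow_succ]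
    linarith
  have h17 : (ε / 100 + 2 * b) * ((4 : ℝ) ^ (M + 1) / 3) ≤ (3 * ε / 100) * (32 * X / 3) := by
    refine mul_le_mul (by linarith) h16 (by positivity) (by positivity)
  have h18 : (((Finset.Icc (1 : ℤ) X).filter
      (fun k => Odd k ∧ ¬ ∃ m : ℤ, 0 < m ∧ m < k ^ (4 * R) ∧ InL m ∧ InL (k * m))).card : ℝ) ≤
      ((Finset.Icc (1 : ℤ) (4 ^ K) ∪ (Finset.Ico K (M + 1)).biUnion
        (fun N => z9B R b N ∪ z9W b N)).card : ℝ) := by exact_mod_cast hcard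
  have h19 : (0 : ℝ) ≤ ε * X := by positivity
  have h20 : (3 * ε / 100) * (32 * (X : ℝ) / 3) = 0.32 * (ε * X) := by ring
  linarith

end Pool.Agent.C52.RZ9
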